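import Pool.Agent.Lib.MP_aa9b81_an.Cb.LcSp
import Pool.Agent.Lib.MP_aa9b81_an.Cb.LcK

/-!
# Transversals, amenability of the action on a convex space
-/

open scoped Topology
open MeasureTheory

noncomputable section

namespace Pool.Agent.Lib.MP_aa9b81_an.LC

section Box

variable {G X : Type} [Group G] [TopologicalSpace G] [TopologicalSpace X] [MulAction G X]

/-- `T` is a `V`-box: `T` is compact, and the map `(v, t) ↦ v t` is injective on `V × T`. -/
structure IsBox (V : Set G) (T : Set X) : Prop where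
  isCompact : IsCompact T
  inj : ∀ v ∈ V, ∀ v' ∈ V, ∀ t ∈ T, ∀ t' ∈ T, v • t = v' • t' → v = v' ∧ t = t'

variable (G) in
/-- The set `T°` of the points `t` of `T` such that `U T` is a neighbourhood of `t`, for every
neighbourhood `U` of `1` in `G`. -/
def core (T : Set X) : Set X :=
  {t | t ∈ T ∧ ∀ U ∈ 𝓝 (1 : G), {x : X | ∃ u ∈ U, ∃ s ∈ T, u • s = x} ∈ 𝓝 t}

/-- Every orbit of `X` meets `T°` for a `V`-box `T` with the property `P`. -/
def HasBoxes (V : Set G) (P : Set X → Prop) : Prop :=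
  ∀ x : X, ∃ T : Set X, IsBox V T ∧ P T ∧ ∃ g : G, g • x ∈ core G T

end Box

section Amen

variable {G E : Type} [Group G] [TopologicalSpace G] [IsTopologicalGroup G]
  [LocallyCompactSpace G] [MeasurableSpace G] [BorelSpace G] [AddCommGroup E] [Module ℝ E]
  [TopologicalSpace E] [DistribMulAction G E]

/-- The action of `G` on the compact space `Q` is amenable (Reiter's condition): for every compact
subset `C` of `G` and every `ε > 0` there is a continuous function `φ ≥ 0` on `Q × G`, supported in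
`Q × K` with `K` compact, with `∫ φ(q, t) dt = 1` and `∫ |φ(g q, g t) - φ(q, t)| dt ≤ ε` for all
`q ∈ Q` and `g ∈ C`. -/
def Amenable (Q : ConvexSpace G E) : Prop :=
  ∀ (C : Set G) (ε : ℝ), IsCompact C → 0 < ε → ∃ φ : E × G → ℝ,
    ContinuousOn φ (Q.carrier ×ˢ Set.univ) ∧ (∀ q ∈ Q.carrier, ∀ t, 0 ≤ φ (q, t)) ∧
    (∃ K : Set G, IsCompact K ∧ ∀ q ∈ Q.carrier, ∀ t ∉ K, φ (q, t) = 0) ∧
    (∀ q ∈ Q.carrier, ∫ t, φ (q, t) ∂(Measure.haar : Measure G) = 1) ∧
    ∀ g ∈ C, ∀ q ∈ Q.carrier,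
      ∫ t, |φ (g • q, g * t) - φ (q, t)| ∂(Measure.haar : Measure G) ≤ ε

end Amen

section K1

variable (G : Type) {Y Z : Type} [Group G] [TopologicalSpace G] [IsTopologicalGroup G]
  [LocallyCompactSpace G] [MeasurableSpace G] [BorelSpace G] [TopologicalSpace Y] [MulAction G Y]
  [TopologicalSpace Z] [MulAction G Z]

/-- The map `p : Z → Y` induces an injection `K₁(C₀(Y) ⋊_r G) → K₁(C₀(Z) ⋊_r G)` of the groups of
homotopy classes of units. -/
def K1Inj (p : Z → Y) : Prop :=
  (∀ u : Y → Op G, Unit1 G u → Unit1 G (fun z => u (p z))) ∧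
    ∀ u u' : Y → Op G, Unit1 G u → Unit1 G u' →
      Homot G (fun z => u (p z)) (fun z => u' (p z)) → Homot G u u'

end K1

end Pool.Agent.Lib.MP_aa9b81_an.LC
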