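import Mathlib

/-!
# Transversals: the group `ℝ²`, and the space `X × M` as a space of `G × M`
-/

open Function Filter Topology

noncomputable section

namespace Pool.Agent.Lib.MP_aa9b81_an.Tv

/-- The additive group `ℝ²`, written multiplicatively. -/
def M2 : Type := ℝ × ℝ

instance : TopologicalSpace M2 := inferInstanceAs (TopologicalSpace (ℝ × ℝ))
instance : T2Space M2 := inferInstanceAs (T2Space (ℝ × ℝ))
instance : LocallyCompactSpace M2 := inferInstanceAs (LocallyCompactSpace (ℝ × ℝ))
instance : SecondCountableTopology M2 := inferInstanceAs (SecondCountableTopology (ℝ × ℝ))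
instance : CommGroup M2 := inferInstanceAs (CommGroup (Multiplicative (ℝ × ℝ)))
instance : IsTopologicalGroup M2 := inferInstanceAs (IsTopologicalGroup (Multiplicative (ℝ × ℝ)))
instance : MeasurableSpace M2 := borel M2
instance : BorelSpace M2 := ⟨rfl⟩

namespace M2

/-- The element `(a, b)`. -/
def mk (a b : ℝ) : M2 := (a, b)

/-- The first coordinate. -/
def a (x : M2) : ℝ := Prod.fst (α := ℝ) (β := ℝ) x

/-- The second coordinate. -/
def b (x : M2) : ℝ := Prod.snd (α := ℝ) (β := ℝ) x

@[simp] lemma a_mk (s t : ℝ) : (mk s t).a = s := rfl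
@[simp] lemma b_mk (s t : ℝ) : (mk s t).b = t := rfl
@[simp] lemma a_one : (1 : M2).a = 0 := rfl
@[simp] lemma b_one : (1 : M2).b = 0 := rfl
@[simp] lemma a_mul (x y : M2) : (x * y).a = x.a + y.a := rfl
@[simp] lemma b_mul (x y : M2) : (x * y).b = x.b + y.b := rfl
@[simp] lemma a_inv (x : M2) : (x⁻¹).a = -x.a := rfl
@[simp] lemma b_inv (x : M2) : (x⁻¹).b = -x.b := rfl
@[ext] lemma ext {x y : M2} (h : x.a = y.a) (h' : x.b = y.b) : x = y := Prod.ext h h'
lemma continuous_a : Continuous a := continuous_fst (X := ℝ) (Y := ℝ)
lemma continuous_b : Continuous b := continuous_snd (X := ℝ) (Y := ℝ)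

lemma continuous_mk {T : Type*} [TopologicalSpace T] {f g : T → ℝ} (hf : Continuous f)
    (hg : Continuous g) : Continuous fun t => mk (f t) (g t) := Continuous.prodMk hf hg

end M2

/-- The space `X × M`. -/
def XM (X M : Type) : Type := X × M

section XM

variable {G X M : Type} [Group G] [Group M] [MulAction G X]

/-- The action `(g, m) (x, n) = (g x, m n)`. -/
instance : MulAction (G × M) (XM X M) where
  smul k x := (k.1 • x.1, k.2 * x.2)
  one_smul x := Prod.ext (one_smul G x.1) (one_mul x.2)
  mul_smul k l x := Prod.ext (mul_smul k.1 l.1 x.1) (mul_assoc k.2 l.2 x.2)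

lemma XM.smul_def (k : G × M) (x : XM X M) : k • x = ((k.1 • x.1, k.2 * x.2) : XM X M) := rfl

variable [TopologicalSpace G] [TopologicalSpace X] [TopologicalSpace M]

instance : TopologicalSpace (XM X M) := inferInstanceAs (TopologicalSpace (X × M))
instance [T2Space X] [T2Space M] : T2Space (XM X M) := inferInstanceAs (T2Space (X × M))
instance [LocallyCompactSpace X] [LocallyCompactSpace M] : LocallyCompactSpace (XM X M) :=
  inferInstanceAs (LocallyCompactSpace (X × M))
instance [SecondCountableTopology X] [SecondCountableTopology M] :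
    SecondCountableTopology (XM X M) := inferInstanceAs (SecondCountableTopology (X × M))

instance [ContinuousSMul G X] [ContinuousMul M] : ContinuousSMul (G × M) (XM X M) where
  continuous_smul := by
    have h1 : Continuous fun p : (G × M) × XM X M => p.1.1 • (p.2.1 : X) :=
      (continuous_fst.comp continuous_fst).smul (continuous_fst.comp continuous_snd)
    have h2 : Continuous fun p : (G × M) × XM X M => p.1.2 * (p.2.2 : M) :=
      (continuous_snd.comp continuous_fst).mul (continuous_snd.comp continuous_snd)
    exact h1.prodMk h2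

end XM

end Pool.Agent.Lib.MP_aa9b81_an.Tv
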