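import Pool.Agent.Lib.MP_aa9b81_an.Mg.G034

/-!
# Transversals, part W1: a universal compact space with an action of `G`
-/

open Function Filter Topology

noncomputable section

set_option linter.unusedSectionVars false

namespace Pool.Agent.Lib.MP_aa9b81_an.Tv

/-- The functions `φ : G → [0,1]` with `|φ g - φ g'| ≤ ω (g⁻¹ g')`, with the topology of pointwise
convergence. -/
def Lw {G : Type} [Group G] (ω : G → ℝ) : Type :=
  {φ : G → ℝ // (∀ g, 0 ≤ φ g ∧ φ g ≤ 1) ∧ ∀ g g', |φ g - φ g'| ≤ ω (g⁻¹ * g')}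

section

variable {G : Type} [Group G] {ω : G → ℝ}

/-- The value. -/
def Lw.at (φ : Lw ω) (g : G) : ℝ := φ.1 g

theorem Lw.ext {φ ψ : Lw ω} (h : ∀ g, φ.at g = ψ.at g) : φ = ψ := Subtype.ext (funext h)

instance : TopologicalSpace (Lw ω) := inferInstanceAs (TopologicalSpace
  {φ : G → ℝ // (∀ g, 0 ≤ φ g ∧ φ g ≤ 1) ∧ ∀ g g', |φ g - φ g'| ≤ ω (g⁻¹ * g')})

instance : T2Space (Lw ω) := inferInstanceAs (T2Space
  {φ : G → ℝ // (∀ g, 0 ≤ φ g ∧ φ g ≤ 1) ∧ ∀ g g', |φ g - φ g'| ≤ ω (g⁻¹ * g')})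

theorem Lw.continuous_at (g : G) : Continuous fun φ : Lw ω => φ.at g :=
  (continuous_apply g).comp continuous_subtype_val

/-- PROOF: a closed subset of the product of the intervals `[0,1]` (`isCompact_univ_pi`). -/
instance : CompactSpace (Lw ω) := by
  have h1 : IsCompact (Set.univ.pi fun _ : G => Set.Icc (0:ℝ) 1) :=
    isCompact_univ_pi fun _ => isCompact_Icc
  have h2 : IsClosed {φ : G → ℝ | (∀ g, 0 ≤ φ g ∧ φ g ≤ 1) ∧
      ∀ g g', |φ g - φ g'| ≤ ω (g⁻¹ * g')} := by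
    have e : {φ : G → ℝ | (∀ g, 0 ≤ φ g ∧ φ g ≤ 1) ∧ ∀ g g', |φ g - φ g'| ≤ ω (g⁻¹ * g')} =
        (⋂ g, ({φ : G → ℝ | 0 ≤ φ g} ∩ {φ | φ g ≤ 1})) ∩
          ⋂ g, ⋂ g', {φ : G → ℝ | |φ g - φ g'| ≤ ω (g⁻¹ * g')} := by
      ext φ
      constructor
      · intro h
        exact ⟨Set.mem_iInter.2 fun g => h.1 g, Set.mem_iInter₂.2 fun g g' => h.2 g g'⟩
      · intro h
        exact ⟨fun g => Set.mem_iInter.1 h.1 g, fun g g' => Set.mem_iInter₂.1 h.2 g g'⟩
    rw [e]
    refine (isClosed_iInter fun g => ?_).inter (isClosed_iInter fun g => isClosed_iInter fun g' => ?_)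
    · exact (isClosed_le continuous_const (continuous_apply g)).inter
        (isClosed_le (continuous_apply g) continuous_const)
    · exact isClosed_le ((continuous_apply g).sub (continuous_apply g')).abs continuous_const
  have h3 : IsCompact {φ : G → ℝ | (∀ g, 0 ≤ φ g ∧ φ g ≤ 1) ∧
      ∀ g g', |φ g - φ g'| ≤ ω (g⁻¹ * g')} :=
    h1.of_isClosed_subset h2 fun φ h g _ => h.1 g
  exact isCompact_iff_compactSpace.1 h3

/-- The translation: `(h φ)(g) = φ (h⁻¹ g)`. -/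
instance : MulAction G (Lw ω) where
  smul h φ := ⟨fun g => φ.1 (h⁻¹ * g), fun g => φ.2.1 _, fun g g' => by
    have h2 := φ.2.2 (h⁻¹ * g) (h⁻¹ * g')
    have h3 : (h⁻¹ * g)⁻¹ * (h⁻¹ * g') = g⁻¹ * g' := by group
    rwa [h3] at h2⟩
  one_smul φ := Subtype.ext (funext fun g => by
    show φ.1 ((1 : G)⁻¹ * g) = φ.1 g
    rw [inv_one, one_mul])
  mul_smul g h φ := Subtype.ext (funext fun x => by
    show φ.1 ((g * h)⁻¹ * x) = φ.1 (h⁻¹ * (g⁻¹ * x))
    rw [mul_inv_rev, mul_assoc])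

theorem Lw.smul_at (h : G) (φ : Lw ω) (g : G) : (h • φ).at g = φ.at (h⁻¹ * g) := rfl

variable [TopologicalSpace G] [IsTopologicalGroup G]

/-- PROOF: for every `g` the function `(h, φ) ↦ φ (h⁻¹ g)` is continuous:
`|φ' (h'⁻¹ g) - φ (h⁻¹ g)| ≤ ω (g⁻¹ h' h⁻¹ g) + |φ' (h⁻¹ g) - φ (h⁻¹ g)|`. -/
theorem Lw.continuousSMul (hω : Tendsto ω (𝓝 1) (𝓝 0)) : ContinuousSMul G (Lw ω) := by
  refine ⟨?_⟩
  refine Continuous.subtype_mk (continuous_pi fun g => ?_) _
  show Continuous fun p : G × Lw ω => p.2.at (p.1⁻¹ * g)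
  refine continuous_iff_continuousAt.2 fun p0 => ?_
  obtain ⟨h0, φ0⟩ := p0
  refine tendsto_iff_dist_tendsto_zero.2 ?_
  have c1 : Tendsto (fun p : G × Lw ω => (p.1⁻¹ * g)⁻¹ * (h0⁻¹ * g)) (𝓝 (h0, φ0)) (𝓝 1) := by
    have : Continuous fun p : G × Lw ω => (p.1⁻¹ * g)⁻¹ * (h0⁻¹ * g) := by fun_prop
    have h2 := this.tendsto (h0, φ0)
    simpa using h2
  have c2 : Tendsto (fun p : G × Lw ω => |p.2.at (h0⁻¹ * g) - φ0.at (h0⁻¹ * g)|)
      (𝓝 (h0, φ0)) (𝓝 0) := by
    have : Continuous fun p : G × Lw ω => |p.2.at (h0⁻¹ * g) - φ0.at (h0⁻¹ * g)| :=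
      (((Lw.continuous_at (h0⁻¹ * g)).comp continuous_snd).sub continuous_const).abs
    have h2 := this.tendsto (h0, φ0)
    simpa using h2
  have c3 := (hω.comp c1).add c2
  rw [add_zero] at c3
  refine squeeze_zero (fun _ => dist_nonneg) (fun p => ?_) c3
  rw [Real.dist_eq]
  have h3 : |p.2.at (p.1⁻¹ * g) - p.2.at (h0⁻¹ * g)| ≤ ω ((p.1⁻¹ * g)⁻¹ * (h0⁻¹ * g)) :=
    p.2.2.2 _ _
  calc |p.2.at (p.1⁻¹ * g) - φ0.at (h0⁻¹ * g)|
      ≤ |p.2.at (p.1⁻¹ * g) - p.2.at (h0⁻¹ * g)| + |p.2.at (h0⁻¹ * g) - φ0.at (h0⁻¹ * g)| :=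
        abs_sub_le _ _ _
    _ ≤ _ := add_le_add h3 le_rfl

/-- PROOF: the elements of `Lw ω` are continuous functions, so the restriction to a countable dense
subset `D` of `G` is an injective continuous map from the compact space `Lw ω` to `D → ℝ`. -/
theorem Lw.secondCountable [SecondCountableTopology G] (hω : Tendsto ω (𝓝 1) (𝓝 0)) :
    SecondCountableTopology (Lw ω) := by
  have hcont : ∀ φ : Lw ω, Continuous φ.at := by
    intro φ
    refine continuous_iff_continuousAt.2 fun g0 => tendsto_iff_dist_tendsto_zero.2 ?_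
    have c1 : Tendsto (fun g : G => g⁻¹ * g0) (𝓝 g0) (𝓝 1) := by
      have : Continuous fun g : G => g⁻¹ * g0 := by fun_prop
      have h2 := this.tendsto g0
      simpa using h2
    refine squeeze_zero (fun _ => dist_nonneg) (fun g => ?_) (hω.comp c1)
    rw [Real.dist_eq]
    exact φ.2.2 g g0
  obtain ⟨D, hDc, hDd⟩ := TopologicalSpace.exists_countable_dense G
  have : Countable D := hDc.to_subtype
  let r : Lw ω → D → ℝ := fun φ d => φ.at d
  have hr : Continuous r := continuous_pi fun d => Lw.continuous_at (d : G)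
  have hinj : Function.Injective r := by
    intro φ ψ h
    have h2 : φ.at = ψ.at := (hcont φ).ext_on hDd (hcont ψ) fun d hd => congrFun h ⟨d, hd⟩
    exact Lw.ext fun g => congrFun h2 g
  exact (hr.isClosedEmbedding hinj).isEmbedding.secondCountableTopology

end

/-- The nonzero sequences of elements of `Lw ω`. -/
def Uw {G : Type} [Group G] (ω : G → ℝ) : Type := {u : ℕ → Lw ω // ∃ k g, (u k).at g ≠ 0}

section

variable {G : Type} [Group G] {ω : G → ℝ}

/-- The members of the sequence. -/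
def Uw.seq (u : Uw ω) (k : ℕ) : Lw ω := u.1 k

theorem Uw.ext {u v : Uw ω} (h : ∀ k g, (u.seq k).at g = (v.seq k).at g) : u = v :=
  Subtype.ext (funext fun k => Lw.ext (h k))

instance : TopologicalSpace (Uw ω) :=
  inferInstanceAs (TopologicalSpace {u : ℕ → Lw ω // ∃ k g, (u k).at g ≠ 0})

instance : T2Space (Uw ω) :=
  inferInstanceAs (T2Space {u : ℕ → Lw ω // ∃ k g, (u k).at g ≠ 0})

theorem Uw.continuous_seq (k : ℕ) : Continuous fun u : Uw ω => u.seq k :=
  (continuous_apply k).comp continuous_subtype_val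

/-- PROOF: an open subset of the compact Hausdorff space `ℕ → Lw ω`. -/
instance : LocallyCompactSpace (Uw ω) := by
  have h1 : IsOpen {u : ℕ → Lw ω | ∃ k g, (u k).at g ≠ 0} := by
    have e : {u : ℕ → Lw ω | ∃ k g, (u k).at g ≠ 0} =
        ⋃ k : ℕ, ⋃ g : G, {u : ℕ → Lw ω | (u k).at g ≠ 0} := by
      ext u
      simp only [Set.mem_ofPred_eq, Set.mem_iUnion]
    rw [e]
    refine isOpen_iUnion fun k => isOpen_iUnion fun g => ?_
    exact isOpen_ne_fun ((Lw.continuous_at g).comp (continuous_apply k)) continuous_const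
  have h2 : LocallyCompactSpace (ℕ → Lw ω) := inferInstance
  exact h1.locallyCompactSpace

instance : MulAction G (Uw ω) where
  smul h u := ⟨fun k => h • u.1 k, by
    obtain ⟨k, g, hg⟩ := u.2
    refine ⟨k, h * g, ?_⟩
    rw [Lw.smul_at, inv_mul_cancel_left]
    exact hg⟩
  one_smul u := Subtype.ext (funext fun k => one_smul G (u.1 k))
  mul_smul g h u := Subtype.ext (funext fun k => mul_smul g h (u.1 k))

theorem Uw.smul_seq (h : G) (u : Uw ω) (k : ℕ) : (h • u).seq k = h • u.seq k := rfl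

variable [TopologicalSpace G] [IsTopologicalGroup G]

theorem Uw.continuousSMul (hω : Tendsto ω (𝓝 1) (𝓝 0)) : ContinuousSMul G (Uw ω) := by
  have : ContinuousSMul G (Lw ω) := Lw.continuousSMul hω
  refine ⟨Continuous.subtype_mk (continuous_pi fun k => ?_) _⟩
  show Continuous fun p : G × Uw ω => p.1 • p.2.seq k
  exact continuous_fst.smul ((Uw.continuous_seq k).comp continuous_snd)

theorem Uw.secondCountable [SecondCountableTopology G] (hω : Tendsto ω (𝓝 1) (𝓝 0)) :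
    SecondCountableTopology (Uw ω) := by
  have : SecondCountableTopology (Lw ω) := Lw.secondCountable hω
  have h2 : SecondCountableTopology (ℕ → Lw ω) := inferInstance
  have h3 : IsEmbedding (fun u : Uw ω => u.1) := IsEmbedding.subtypeVal
  exact h3.secondCountableTopology

/-- A compact set of nonzero sequences: finitely many `(k, g)` and a `δ > 0` such that for every member `u`
one of the values `u k g` is at least `δ`. PROOF: the open sets `{u | δ < u k g}` cover, for `δ = 1 / (n + 1)`;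
finite subcover. -/
theorem Uw.exists_finite {K : Set (Uw ω)} (hK : IsCompact K) : ∃ (S : Finset (ℕ × G)) (δ : ℝ),
    0 < δ ∧ ∀ u ∈ K, ∃ s ∈ S, δ ≤ (u.seq s.1).at s.2 := by
  classical
  have hopen : ∀ i : (ℕ × G) × ℕ, IsOpen {u : Uw ω | 1 / ((i.2 : ℝ) + 1) < (u.seq i.1.1).at i.1.2} := by
    intro i
    exact isOpen_lt continuous_const ((Lw.continuous_at i.1.2).comp (Uw.continuous_seq i.1.1))
  have hcov : K ⊆ ⋃ i : (ℕ × G) × ℕ, {u : Uw ω | 1 / ((i.2 : ℝ) + 1) < (u.seq i.1.1).at i.1.2} := by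
    intro u _
    obtain ⟨k, g, hg⟩ := u.2
    have h0 : 0 < (u.seq k).at g := lt_of_le_of_ne ((u.seq k).2.1 g).1 (Ne.symm hg)
    obtain ⟨n, hn⟩ := exists_nat_one_div_lt h0
    exact Set.mem_iUnion.2 ⟨((k, g), n), hn⟩
  obtain ⟨t, ht⟩ := hK.elim_finite_subcover _ hopen hcov
  let N : ℕ := t.sup fun i => i.2
  refine ⟨t.image Prod.fst, 1 / ((N : ℝ) + 1), by positivity, fun u hu => ?_⟩
  obtain ⟨i, hi, hui⟩ := Set.mem_iUnion₂.1 (ht hu)
  refine ⟨i.1, Finset.mem_image_of_mem _ hi, ?_⟩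
  have h1 : i.2 ≤ N := Finset.le_sup (f := fun i : (ℕ × G) × ℕ => i.2) hi
  have h2 : (i.2 : ℝ) ≤ (N : ℝ) := Nat.cast_le.2 h1
  have h3 : 1 / ((N : ℝ) + 1) ≤ 1 / ((i.2 : ℝ) + 1) :=
    one_div_le_one_div_of_le (by positivity) (by linarith)
  exact h3.trans (le_of_lt hui)

end

end Pool.Agent.Lib.MP_aa9b81_an.Tv
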