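import Pool.Agent.Lib.MP_aa9b81_an.Mg.G034

/-!
# Transversals, part W2: bump functions and the modulus
-/

open Function Filter Topology

noncomputable section

set_option linter.unusedSectionVars false

namespace Pool.Agent.Lib.MP_aa9b81_an.Tv

/-- Bump functions on `G` with supports shrinking to `1` and a common modulus of continuity. -/
structure Bumps (G : Type) [Group G] [TopologicalSpace G] where
  /-- the modulus -/
  ω : G → ℝ
  /-- the bump functions -/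
  β : ℕ → G → ℝ
  /-- the factors -/
  c : ℕ → ℝ
  tend : Tendsto ω (𝓝 1) (𝓝 0)
  c_pos : ∀ n, 0 < c n
  c_le : ∀ n, c n ≤ 1
  cont : ∀ n, Continuous (β n)
  cpt : ∀ n, HasCompactSupport (β n)
  nonneg : ∀ n g, 0 ≤ β n g
  le_one : ∀ n g, β n g ≤ 1
  one : ∀ n, β n 1 = 1
  small : ∀ U ∈ 𝓝 (1 : G), ∃ n, ∀ g, g ∉ U → β n g = 0
  mod : ∀ n a h, c n * |β n h - β n (a⁻¹ * h)| ≤ ω a

open scoped Pointwise in
/-- A continuous function of compact support is uniformly continuous for left translations. PROOF: let `K` be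
the support and `A` a compact neighbourhood of `1`; `(a, h) ↦ β h - β (a⁻¹ h)` is continuous, zero for `a = 1` and
zero for `a ∈ A`, `h ∉ K ∪ A K`; tube lemma. (Or a Mathlib lemma on `HasCompactSupport`.) -/
theorem tendsto_translate {G : Type} [Group G] [TopologicalSpace G] [IsTopologicalGroup G]
    [LocallyCompactSpace G] {β : G → ℝ} (hβ : Continuous β) (hc : HasCompactSupport β) {ε : ℝ}
    (hε : 0 < ε) : ∀ᶠ a in 𝓝 (1 : G), ∀ h, |β h - β (a⁻¹ * h)| ≤ ε := by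
  obtain ⟨A, hA, hA1⟩ := exists_compact_mem_nhds (1 : G)
  have hc' : IsCompact (tsupport β) := hc
  have hK : IsCompact (A * tsupport β) := hA.mul hc'
  have hcont : Continuous fun z : G × G => |β z.2 - β (z.1⁻¹ * z.2)| := by
    refine ((hβ.comp continuous_snd).sub (hβ.comp ?_)).abs
    exact continuous_fst.inv.mul continuous_snd
  have hev : ∀ᶠ a in 𝓝 (1 : G), ∀ h ∈ A * tsupport β, |β h - β (a⁻¹ * h)| < ε := by
    refine hK.eventually_forall_of_forall_eventually fun y _ => ?_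
    have h1 : Tendsto (fun z : G × G => |β z.2 - β (z.1⁻¹ * z.2)|) (𝓝 (1, y)) (𝓝 0) := by
      have h2 := hcont.tendsto ((1 : G), y)
      simpa using h2
    exact h1.eventually (gt_mem_nhds hε)
  filter_upwards [hev, hA1] with a ha haA h
  by_cases hh : h ∈ A * tsupport β
  · exact (ha h hh).le
  · have h1 : β h = 0 := by
      by_contra h2
      exact hh ⟨1, mem_of_mem_nhds hA1, h, subset_tsupport β h2, one_mul h⟩
    have h3 : β (a⁻¹ * h) = 0 := by
      by_contra h2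
      exact hh ⟨a, haA, a⁻¹ * h, subset_tsupport β h2, mul_inv_cancel_left a h⟩
    rw [h1, h3, sub_zero, abs_zero]
    exact hε.le

/-- PROOF: a countable basis `V n` of neighbourhoods of `1`; `β n` with `β n 1 = 1` and compact support in `V n`
(`exists_continuous_one_of_compact_subset_open` or the like); `c n = 2⁻ⁿ`;
`ω a = ⨆ n, c n * ⨆ h, |β n h - β n (a⁻¹ * h)|` (all terms are at most `2⁻ⁿ`); `tendsto_translate` for finitely many
`n`. -/
theorem exists_bumps (G : Type) [Group G] [TopologicalSpace G] [IsTopologicalGroup G]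
    [LocallyCompactSpace G] [T2Space G] [FirstCountableTopology G] : Nonempty (Bumps G) := by
  obtain ⟨V, hV⟩ := (𝓝 (1 : G)).exists_antitone_basis
  have hVmem : ∀ n, V n ∈ 𝓝 (1 : G) := fun n => hV.1.mem_of_mem trivial
  have hex : ∀ n, ∃ f : C(G, ℝ), Set.EqOn f 1 {1} ∧ IsCompact (tsupport f) ∧
      tsupport f ⊆ interior (V n) ∧ ∀ x, f x ∈ Set.Icc (0 : ℝ) 1 := fun n =>
    exists_continuousMap_one_of_isCompact_subset_isOpen isCompact_singleton isOpen_interior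
      (Set.singleton_subset_iff.2 (mem_interior_iff_mem_nhds.2 (hVmem n)))
  choose f hf1 hfc hfV hf01 using hex
  have hf0 : ∀ n g, 0 ≤ f n g := fun n g => (hf01 n g).1
  have hfle : ∀ n g, f n g ≤ 1 := fun n g => (hf01 n g).2
  have hdiff : ∀ n g g', |f n g - f n g'| ≤ 1 := fun n g g' => by
    rw [abs_le]
    constructor
    · linarith [hf0 n g, hfle n g']
    · linarith [hf0 n g', hfle n g]
  have hc0 : ∀ n : ℕ, 0 < (1 / 2 : ℝ) ^ n := fun n => by positivity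
  have hc1 : ∀ n : ℕ, (1 / 2 : ℝ) ^ n ≤ 1 := fun n => pow_le_one₀ (by norm_num) (by norm_num)
  have hterm0 : ∀ (a : G) (p : ℕ × G),
      0 ≤ (1 / 2 : ℝ) ^ p.1 * |f p.1 p.2 - f p.1 (a⁻¹ * p.2)| := fun a p =>
    mul_nonneg (hc0 _).le (abs_nonneg _)
  have hterm1 : ∀ (a : G) (p : ℕ × G),
      (1 / 2 : ℝ) ^ p.1 * |f p.1 p.2 - f p.1 (a⁻¹ * p.2)| ≤ 1 := fun a p =>
    mul_le_one₀ (hc1 _) (abs_nonneg _) (hdiff _ _ _)
  have hbdd : ∀ a : G, BddAbove (Set.range fun p : ℕ × G =>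
      (1 / 2 : ℝ) ^ p.1 * |f p.1 p.2 - f p.1 (a⁻¹ * p.2)|) := fun a =>
    ⟨1, by
      rintro _ ⟨p, rfl⟩
      exact hterm1 a p⟩
  refine ⟨⟨fun a => ⨆ p : ℕ × G, (1 / 2 : ℝ) ^ p.1 * |f p.1 p.2 - f p.1 (a⁻¹ * p.2)|,
    fun n => f n, fun n => (1 / 2 : ℝ) ^ n, ?_, hc0, hc1, fun n => (f n).continuous,
    fun n => hfc n, hf0, hfle, fun n => hf1 n rfl, ?_, ?_⟩⟩
  · rw [Metric.tendsto_nhds]
    intro ε hε
    have hε2 : 0 < ε / 2 := half_pos hε
    obtain ⟨N, hN⟩ := exists_pow_lt_of_lt_one hε2 (by norm_num : (1 / 2 : ℝ) < 1)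
    have hfin : ∀ᶠ a in 𝓝 (1 : G), ∀ n ∈ Finset.range N, ∀ h,
        |f n h - f n (a⁻¹ * h)| ≤ ε / 2 := by
      rw [Filter.eventually_all_finset]
      exact fun n _ => tendsto_translate (f n).continuous (hfc n) hε2
    filter_upwards [hfin] with a ha
    have hub : (⨆ p : ℕ × G, (1 / 2 : ℝ) ^ p.1 * |f p.1 p.2 - f p.1 (a⁻¹ * p.2)|) ≤ ε / 2 := by
      refine ciSup_le fun p => ?_
      by_cases hp : p.1 < N
      · calc (1 / 2 : ℝ) ^ p.1 * |f p.1 p.2 - f p.1 (a⁻¹ * p.2)|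
            ≤ 1 * |f p.1 p.2 - f p.1 (a⁻¹ * p.2)| :=
              mul_le_mul_of_nonneg_right (hc1 _) (abs_nonneg _)
          _ = |f p.1 p.2 - f p.1 (a⁻¹ * p.2)| := one_mul _
          _ ≤ ε / 2 := ha p.1 (Finset.mem_range.2 hp) p.2
      · calc (1 / 2 : ℝ) ^ p.1 * |f p.1 p.2 - f p.1 (a⁻¹ * p.2)|
            ≤ (1 / 2 : ℝ) ^ p.1 * 1 := mul_le_mul_of_nonneg_left (hdiff _ _ _) (hc0 _).le
          _ = (1 / 2 : ℝ) ^ p.1 := mul_one _
          _ ≤ (1 / 2 : ℝ) ^ N :=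
              pow_le_pow_of_le_one (by norm_num) (by norm_num) (not_lt.1 hp)
          _ ≤ ε / 2 := hN.le
    have hlb : 0 ≤ ⨆ p : ℕ × G, (1 / 2 : ℝ) ^ p.1 * |f p.1 p.2 - f p.1 (a⁻¹ * p.2)| :=
      (hterm0 a (0, 1)).trans (le_ciSup (hbdd a) (0, 1))
    rw [Real.dist_eq, sub_zero, abs_of_nonneg hlb]
    exact hub.trans_lt (half_lt_self hε)
  · intro U hU
    obtain ⟨n, -, hn⟩ := hV.1.mem_iff.1 hU
    refine ⟨n, fun g hg => ?_⟩
    by_contra h
    exact hg (hn (interior_subset (hfV n (subset_tsupport (f n) h))))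
  · intro n a h
    exact le_ciSup (hbdd a) (n, h)

section Sup

variable {G X : Type} [Group G] [TopologicalSpace G] [IsTopologicalGroup G]
  [TopologicalSpace X] [T2Space X] [MulAction G X] [ContinuousSMul G X]

/-- `x ↦ sup_h β(h) f(h⁻¹ x)`. -/
def supc (β : G → ℝ) (f : X → ℝ) (x : X) : ℝ := ⨆ h : G, β h * f (h⁻¹ • x)

variable {β : G → ℝ} {f : X → ℝ}

theorem supc_bdd (hβ0 : ∀ g, 0 ≤ β g) (hβ1 : ∀ g, β g ≤ 1) (hf0 : ∀ x, 0 ≤ f x)
    (hf1 : ∀ x, f x ≤ 1) (x : X) : BddAbove (Set.range fun h : G => β h * f (h⁻¹ • x)) := by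
  refine ⟨1, ?_⟩
  rintro _ ⟨h, rfl⟩
  exact mul_le_one₀ (hβ1 h) (hf0 _) (hf1 _)

theorem supc_nonneg (hβ0 : ∀ g, 0 ≤ β g) (hβ1 : ∀ g, β g ≤ 1) (hf0 : ∀ x, 0 ≤ f x)
    (hf1 : ∀ x, f x ≤ 1) (x : X) : 0 ≤ supc β f x :=
  Real.iSup_nonneg fun h => mul_nonneg (hβ0 h) (hf0 _)

theorem supc_le_one (hβ0 : ∀ g, 0 ≤ β g) (hβ1 : ∀ g, β g ≤ 1) (hf0 : ∀ x, 0 ≤ f x)
    (hf1 : ∀ x, f x ≤ 1) (x : X) : supc β f x ≤ 1 :=
  ciSup_le fun h => mul_le_one₀ (hβ1 h) (hf0 _) (hf1 _)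

theorem le_supc (hβ0 : ∀ g, 0 ≤ β g) (hβ1 : ∀ g, β g ≤ 1) (h1 : β 1 = 1) (hf0 : ∀ x, 0 ≤ f x)
    (hf1 : ∀ x, f x ≤ 1) (x : X) : f x ≤ supc β f x := by
  have h2 : β 1 * f ((1 : G)⁻¹ • x) ≤ supc β f x :=
    le_ciSup (supc_bdd hβ0 hβ1 hf0 hf1 x) (1 : G)
  rwa [h1, inv_one, one_smul, one_mul] at h2

/-- PROOF: the sup over `G` is the sup over the compact set `tsupport β ∪ {1}` (all values are `≥ 0`, and zero
outside); `IsCompact.continuous_sSup`. -/
theorem continuous_supc (hβ : Continuous β) (hc : HasCompactSupport β) (hβ0 : ∀ g, 0 ≤ β g)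
    (hβ1 : ∀ g, β g ≤ 1) (hf : Continuous f) (hf0 : ∀ x, 0 ≤ f x) (hf1 : ∀ x, f x ≤ 1) :
    Continuous (supc β f) := by
  have hK : IsCompact (tsupport β ∪ {1}) := hc.isCompact.union isCompact_singleton
  have hcont : Continuous (↿(fun (x : X) (h : G) => β h * f (h⁻¹ • x))) := by
    refine (hβ.comp continuous_snd).mul (hf.comp ?_)
    exact (continuous_snd.inv).smul continuous_fst
  have h := hK.continuous_sSup hcont
  have heq : supc β f = fun x => sSup ((fun h : G => β h * f (h⁻¹ • x)) '' (tsupport β ∪ {1})) := by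
    funext x
    have hb : BddAbove (Set.range fun h : G => β h * f (h⁻¹ • x)) := by
      refine ⟨1, ?_⟩
      rintro _ ⟨h, rfl⟩
      exact mul_le_one₀ (hβ1 h) (hf0 _) (hf1 _)
    have hsub : (fun h : G => β h * f (h⁻¹ • x)) '' (tsupport β ∪ {1}) ⊆
        Set.range fun h : G => β h * f (h⁻¹ • x) := Set.image_subset_range _ _
    have hmem1 : (1 : G) ∈ tsupport β ∪ {1} := Or.inr rfl
    apply le_antisymm
    · refine ciSup_le fun h => ?_
      by_cases hh : h ∈ tsupport β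
      · exact le_csSup (hb.mono hsub) ⟨h, Or.inl hh, rfl⟩
      · rw [image_eq_zero_of_notMem_tsupport hh, zero_mul]
        exact (mul_nonneg (hβ0 1) (hf0 _)).trans (le_csSup (hb.mono hsub) ⟨1, hmem1, rfl⟩)
    · exact csSup_le_csSup hb (Set.Nonempty.image _ ⟨1, hmem1⟩) hsub
  rw [heq]
  exact h

/-- PROOF: the support is in `tsupport β • tsupport f`. -/
theorem hasCompactSupport_supc (hc : HasCompactSupport β) (hβ0 : ∀ g, 0 ≤ β g)
    (hβ1 : ∀ g, β g ≤ 1) (hfc : HasCompactSupport f) (hf0 : ∀ x, 0 ≤ f x)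
    (hf1 : ∀ x, f x ≤ 1) : HasCompactSupport (supc β f) := by
  have hK : IsCompact ((fun p : G × X => p.1 • p.2) '' (tsupport β ×ˢ tsupport f)) :=
    (hc.isCompact.prod hfc.isCompact).image continuous_smul
  refine HasCompactSupport.of_support_subset_isCompact hK fun x hx => ?_
  by_contra hcon
  apply hx
  have h0 : ∀ h : G, β h * f (h⁻¹ • x) = 0 := by
    intro h
    by_contra hne
    have h1 : β h ≠ 0 := left_ne_zero_of_mul hne
    have h2 : f (h⁻¹ • x) ≠ 0 := right_ne_zero_of_mul hne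
    exact hcon ⟨(h, h⁻¹ • x), ⟨subset_tsupport _ h1, subset_tsupport _ h2⟩, smul_inv_smul h x⟩
  unfold supc
  simp only [h0]
  exact ciSup_const

/-- PROOF: `supc β f (a⁻¹ • y) = ⨆ h, β (a⁻¹ h) f (h⁻¹ y)` (substitution `h ↦ a⁻¹ h`), and the suprema of two
families at distance `≤ δ` are at distance `≤ δ`. -/
theorem supc_translate (hβ0 : ∀ g, 0 ≤ β g) (hβ1 : ∀ g, β g ≤ 1) (hf0 : ∀ x, 0 ≤ f x)
    (hf1 : ∀ x, f x ≤ 1) {δ : ℝ} {a : G} (h : ∀ h, |β h - β (a⁻¹ * h)| ≤ δ) (y : X) :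
    |supc β f y - supc β f (a⁻¹ • y)| ≤ δ := by
  have key : ∀ g : G, |β g * f (g⁻¹ • y) - β (a⁻¹ * g) * f (g⁻¹ • y)| ≤ δ := fun g => by
    rw [← sub_mul, abs_mul, abs_of_nonneg (hf0 _)]
    exact (mul_le_of_le_one_right (abs_nonneg _) (hf1 _)).trans (h g)
  rw [abs_sub_le_iff]
  constructor
  · rw [sub_le_iff_le_add]
    refine ciSup_le fun g => ?_
    have h1 := (abs_sub_le_iff.1 (key g)).1
    have h2 := le_ciSup (supc_bdd hβ0 hβ1 hf0 hf1 (a⁻¹ • y)) (a⁻¹ * g)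
    have h3 : (a⁻¹ * g)⁻¹ • a⁻¹ • y = g⁻¹ • y := by
      rw [smul_smul]
      congr 1
      group
    simp only [h3] at h2
    have h4 : β (a⁻¹ * g) * f (g⁻¹ • y) ≤ supc β f (a⁻¹ • y) := h2
    linarith
  · rw [sub_le_iff_le_add]
    refine ciSup_le fun g => ?_
    have h1 := (abs_sub_le_iff.1 (key (a * g))).2
    have h2 := le_ciSup (supc_bdd hβ0 hβ1 hf0 hf1 y) (a * g)
    have h3 : g⁻¹ • a⁻¹ • y = (a * g)⁻¹ • y := by
      rw [smul_smul, mul_inv_rev]
    rw [h3]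
    rw [inv_mul_cancel_left] at h1
    have h4 : β (a * g) * f ((a * g)⁻¹ • y) ≤ supc β f y := h2
    linarith

/-- PROOF: continuity of `h ↦ f (h⁻¹ x)` at `1`. -/
theorem supc_near (hf : Continuous f) (hf0 : ∀ x, 0 ≤ f x) (hf1 : ∀ x, f x ≤ 1) (x : X) {ε : ℝ}
    (hε : 0 < ε) : ∃ U ∈ 𝓝 (1 : G), ∀ β : G → ℝ, (∀ g, 0 ≤ β g) → (∀ g, β g ≤ 1) →
      (∀ g, g ∉ U → β g = 0) → supc β f x ≤ f x + ε := by
  have h1 : Continuous fun h : G => f (h⁻¹ • x) :=
    hf.comp (continuous_inv.smul continuous_const)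
  have h2 : ∀ᶠ h : G in 𝓝 1, f (h⁻¹ • x) < f x + ε := by
    refine h1.continuousAt.eventually_lt continuousAt_const ?_
    rw [inv_one, one_smul]
    linarith
  refine ⟨_, h2, fun β hβ0 hβ1 hβ => ciSup_le fun g => ?_⟩
  by_cases hg : f (g⁻¹ • x) < f x + ε
  · exact (mul_le_of_le_one_left (hf0 _) (hβ1 g)).trans hg.le
  · rw [hβ g hg, zero_mul]
    linarith [hf0 x]

end Sup

/-- A countable family of functions of compact support which separates points from closed sets. PROOF: a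
countable basis `B i` (`exists_basis_seq` in `U3` is a model); for every pair `(i, j)` such that `closure (B i)` is
compact and contained in `B j` a function which is `1` on `closure (B i)` with compact support in `B j`
(`exists_continuous_one_of_compact_subset_open`), and `0` for the other pairs. -/
theorem exists_sep (X : Type) [TopologicalSpace X] [T2Space X] [LocallyCompactSpace X]
    [SecondCountableTopology X] : ∃ f : ℕ → X → ℝ, (∀ m, Continuous (f m)) ∧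
      (∀ m, HasCompactSupport (f m)) ∧ (∀ m x, 0 ≤ f m x) ∧ (∀ m x, f m x ≤ 1) ∧
      ∀ (x : X) (O : Set X), IsOpen O → x ∈ O → ∃ m, f m x = 1 ∧ ∀ z, z ∉ O → f m z = 0 := by
  classical
  obtain ⟨B, hB⟩ := Set.countable_iff_exists_subset_range.1
    (TopologicalSpace.countable_countableBasis X)
  have hbasis := TopologicalSpace.isBasis_countableBasis X
  have hex : ∀ p : ℕ × ℕ, ∃ g : C(X, ℝ), IsCompact (tsupport g) ∧ (∀ x, 0 ≤ g x) ∧
      (∀ x, g x ≤ 1) ∧ (IsCompact (closure (B p.1)) → closure (B p.1) ⊆ B p.2 →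
        IsOpen (B p.2) → (∀ x ∈ closure (B p.1), g x = 1) ∧ ∀ z, z ∉ B p.2 → g z = 0) := by
    intro p
    by_cases h : IsCompact (closure (B p.1)) ∧ closure (B p.1) ⊆ B p.2 ∧ IsOpen (B p.2)
    · obtain ⟨g, hg1, hgc, hgs, hg01⟩ :=
        exists_continuousMap_one_of_isCompact_subset_isOpen h.1 h.2.2 h.2.1
      refine ⟨g, hgc, fun x => (hg01 x).1, fun x => (hg01 x).2, fun _ _ _ =>
        ⟨fun x hx => hg1 hx, fun z hz => ?_⟩⟩
      by_contra hne
      exact hz (hgs (subset_tsupport g hne))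
    · refine ⟨0, ?_, fun x => le_refl _, fun x => zero_le_one, fun h1 h2 h3 =>
        absurd ⟨h1, h2, h3⟩ h⟩
      have h0 : tsupport (⇑(0 : C(X, ℝ))) = ∅ := by
        rw [tsupport_eq_empty_iff]
        rfl
      rw [h0]
      exact isCompact_empty
  choose g hgc hg0 hg1 hg using hex
  refine ⟨fun m => g (Nat.unpair m), fun m => (g _).continuous, fun m => hgc _,
    fun m => hg0 _, fun m => hg1 _, fun x O hO hx => ?_⟩
  obtain ⟨V, hVb, hxV, hVO⟩ := hbasis.exists_subset_of_mem_open hx hO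
  obtain ⟨j, rfl⟩ := hB hVb
  obtain ⟨K, hK, hxK, hKV⟩ := exists_compact_subset (hbasis.isOpen hVb) hxV
  obtain ⟨W, hWb, hxW, hWK⟩ := hbasis.exists_subset_of_mem_open hxK isOpen_interior
  obtain ⟨i, rfl⟩ := hB hWb
  have hcl : closure (B i) ⊆ K := closure_minimal (hWK.trans interior_subset) hK.isClosed
  have hcc : IsCompact (closure (B i)) := hK.of_isClosed_subset isClosed_closure hcl
  obtain ⟨h1, h2⟩ := hg (i, j) hcc (hcl.trans hKV) (hbasis.isOpen hVb)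
  refine ⟨Nat.pair i j, ?_, fun z hz => ?_⟩
  · change g (Nat.unpair (Nat.pair i j)) x = 1
    rw [Nat.unpair_pair]
    exact h1 x (subset_closure hxW)
  · change g (Nat.unpair (Nat.pair i j)) z = 0
    rw [Nat.unpair_pair]
    exact h2 z fun hz' => hz (hVO hz')

end Pool.Agent.Lib.MP_aa9b81_an.Tv
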