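import Pool.Agent.Lib.MP_aa9b81_an.Tv.Lcd3

/-!
# Isotropy algebras of actions of closed linear groups
-/

open scoped Topology

namespace Pool.Agent.Lib.MP_aa9b81_an.LC

section Linear

variable {n : ℕ} {G X : Type} [Group G] [MulAction G X]

/-- The isotropy algebra of `x`: the matrices `A` such that, for every real `t`, `exp (t A)` is the
image of an element of `G` fixing `x`. -/
def isoAlg (ρ : G →* Matrix.SpecialLinearGroup (Fin n) ℝ) (x : X) :
    Set (Matrix (Fin n) (Fin n) ℝ) :=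
  {A | ∀ t : ℝ, ∃ g : G, g • x = x ∧
    (ρ g : Matrix (Fin n) (Fin n) ℝ) = NormedSpace.exp (t • A)}

/-- The Lie algebra of the image of `G` is algebraic: if all the polynomials vanishing on the image
of `G` vanish on the group `exp (t A)`, `t` real, then this group is contained in the image. -/
def AlgebraicLie (ρ : G →* Matrix.SpecialLinearGroup (Fin n) ℝ) : Prop :=
  ∀ A : Matrix (Fin n) (Fin n) ℝ,
    (∀ P : MvPolynomial (Fin n × Fin n) ℝ,
      (∀ g : G, MvPolynomial.eval (fun p => (ρ g : Matrix (Fin n) (Fin n) ℝ) p.1 p.2) P = 0) →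
      ∀ t : ℝ, MvPolynomial.eval
        (fun p => (NormedSpace.exp (t • A) : Matrix (Fin n) (Fin n) ℝ) p.1 p.2) P = 0) →
    ∀ t : ℝ, ∃ g : G, (ρ g : Matrix (Fin n) (Fin n) ℝ) = NormedSpace.exp (t • A)

/-- The conjugate of a set of matrices by (the image of) `g`. -/
def Ad (ρ : G →* Matrix.SpecialLinearGroup (Fin n) ℝ) (g : G)
    (S : Set (Matrix (Fin n) (Fin n) ℝ)) : Set (Matrix (Fin n) (Fin n) ℝ) :=
  (fun A => (ρ g : Matrix (Fin n) (Fin n) ℝ) * A *
    (ρ g⁻¹ : Matrix (Fin n) (Fin n) ℝ)) '' S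

theorem Ad_one (ρ : G →* Matrix.SpecialLinearGroup (Fin n) ℝ)
    (S : Set (Matrix (Fin n) (Fin n) ℝ)) : Ad ρ 1 S = S := by
  ext A
  simp [Ad]

theorem Ad_mul (ρ : G →* Matrix.SpecialLinearGroup (Fin n) ℝ) (g h : G)
    (S : Set (Matrix (Fin n) (Fin n) ℝ)) : Ad ρ (g * h) S = Ad ρ g (Ad ρ h S) := by
  rw [Ad, Ad, Ad, Set.image_image]
  apply Set.image_congr
  intro A _
  rw [_root_.mul_inv_rev, map_mul, map_mul, Matrix.SpecialLinearGroup.coe_mul,
    Matrix.SpecialLinearGroup.coe_mul]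
  noncomm_ring

/-- The normalizer in `G` of a set of matrices. -/
def normalizer (ρ : G →* Matrix.SpecialLinearGroup (Fin n) ℝ)
    (S : Set (Matrix (Fin n) (Fin n) ℝ)) : Subgroup G where
  carrier := {g | Ad ρ g S = S}
  one_mem' := Ad_one ρ S
  mul_mem' := fun {g h} hg hh => by
    change Ad ρ (g * h) S = S
    rw [Ad_mul, hh, hg]
  inv_mem' := fun {g} hg => by
    change Ad ρ g⁻¹ S = S
    have hg' : Ad ρ g S = S := hg
    conv_lhs => rw [← hg']
    rw [← Ad_mul, inv_mul_cancel, Ad_one]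

/-- The space `Y` has the type `h`: the isotropy algebras of its points are the conjugates `Ad g (h)`
of `h`, and the class of `g` modulo the normalizer of `h` is a continuous function of the point. -/
def HasType [TopologicalSpace G] (ρ : G →* Matrix.SpecialLinearGroup (Fin n) ℝ)
    (h : Set (Matrix (Fin n) (Fin n) ℝ)) (Y : Type) [TopologicalSpace Y] [MulAction G Y] : Prop :=
  ∃ f : Y → G ⧸ normalizer ρ h, Continuous f ∧
    ∀ (y : Y) (g : G), f y = g ↔ isoAlg ρ y = Ad ρ g h

end Linear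

end Pool.Agent.Lib.MP_aa9b81_an.LC
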