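import Pool.Agent.Lib.MP_aa9b81_an.Mg.G034

/-!
# Transversals, part I1: comparison with the elementary statements
-/

open scoped ENNReal Topology CompactlySupported
open Function Filter MeasureTheory

noncomputable section

set_option linter.unusedSectionVars false

namespace Pool.Agent.Lib.MP_aa9b81_an.Tv

open Cut Hs Cb

variable {G B Z : Type} [Group G] [TopologicalSpace G] [IsTopologicalGroup G]
  [LocallyCompactSpace G] [SecondCountableTopology G] [T2Space G] [MeasurableSpace G] [BorelSpace G]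
  [TopologicalSpace B] [T2Space B] [MulAction G B] [ContinuousSMul G B]
  [TopologicalSpace Z] [T2Space Z] [MulAction G Z] [ContinuousSMul G Z]

theorem I1_k1Zero : LC.K1Zero G B ↔ VanG G B := lc_k1Zero_iff.trans k1ZeroG_iff

theorem I1_isoG {p : Z → B} : IsoG (G := G) p ↔ InjG G p ∧ SurG G p := Iff.rfl

theorem I1_k1Bij {p : Z → B} (hp : IsProperMap p) (he : ∀ (g : G) z, p (g • z) = g • p z) :
    LC.K1Bij G p ↔ InjG G p ∧ SurG G p :=
  lc_k1Bij_iff.trans ((k1BijG_iff hp he).trans I1_isoG)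

theorem I1_k1Inj {p : Z → B} (hp : IsProperMap p) (he : ∀ (g : G) z, p (g • z) = g • p z) :
    LC.K1Inj G p ↔ InjG G p := by
  have hmem : ∀ {U : (FamG G ℕ B)ˣ}, U ∈ GL1 (cpG G ℕ B) → pullV p U ∈ GL1 (cpG G ℕ Z) :=
    fun hU => GL1_map (pullG_mem hp he) hU
  constructor
  · rintro ⟨-, h2⟩
    intro U hU hE
    have h4 : LC0.Homot G (fun z => (fun y => ((1 : (FamG G ℕ B)ˣ) : FamG G ℕ B) y) (p z))
        (fun z => (fun y => (U : FamG G ℕ B) y) (p z)) := by
      have h5 : (pullV p 1)⁻¹ * pullV p U ∈ E1 (cpG G ℕ Z) := by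
        rw [map_one, inv_one, one_mul]
        exact hE
      exact (homotG_iff (hmem (one_mem _)) (hmem hU)).2 h5
    have h6 := lc_homot.1 (h2 _ _ (lc_unit1.2 (unit1G_iff.2 ⟨1, one_mem _, fun y => rfl⟩))
      (lc_unit1.2 (unit1G_iff.2 ⟨U, hU, fun y => rfl⟩)) (lc_homot.2 h4))
    have h7 := (homotG_iff (one_mem _) hU).1 h6
    rwa [inv_one, one_mul] at h7
  · intro h1
    refine ⟨fun u hu => ?_, fun u u' hu hu' hh => ?_⟩
    · obtain ⟨U, hU, hUe⟩ := unit1G_iff.1 (lc_unit1.1 hu)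
      exact lc_unit1.2 (unit1G_iff.2 ⟨pullV p U, hmem hU, fun z => hUe (p z)⟩)
    · obtain ⟨U, hU, hUe⟩ := unit1G_iff.1 (lc_unit1.1 hu)
      obtain ⟨U', hU', hUe'⟩ := unit1G_iff.1 (lc_unit1.1 hu')
      have e : (fun z => u (p z)) = fun z => ((pullV p U : (FamG G ℕ Z)ˣ) : FamG G ℕ Z) z :=
        funext fun z => (hUe (p z)).symm
      have e' : (fun z => u' (p z)) = fun z => ((pullV p U' : (FamG G ℕ Z)ˣ) : FamG G ℕ Z) z :=
        funext fun z => (hUe' (p z)).symm
      rw [e, e'] at hh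
      have h3 := (homotG_iff (hmem hU) (hmem hU')).1 (lc_homot.1 hh)
      have h4 : pullV p (U⁻¹ * U') ∈ E1 (cpG G ℕ Z) := by
        rw [map_mul, map_inv]
        exact h3
      have h5 := h1 _ (mul_mem (inv_mem hU) hU') h4
      have e2 : u = fun y => (U : FamG G ℕ B) y := funext fun y => (hUe y).symm
      have e3 : u' = fun y => (U' : FamG G ℕ B) y := funext fun y => (hUe' y).symm
      rw [e2, e3]
      exact lc_homot.2 ((homotG_iff hU hU').2 h5)

end Pool.Agent.Lib.MP_aa9b81_an.Tv
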