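import Pool.Agent.Lib.MP_aa9b81_an.Mg.G042

/-!
# Transversals, part J3: `K₁ = 0` for increasing unions of open invariant subsets
-/

open scoped ENNReal Topology CompactlySupported
open Function Filter MeasureTheory

noncomputable section

set_option linter.unusedSectionVars false

namespace Pool.Agent.Lib.MP_aa9b81_an.Tv

open Cut Hs Cb

variable {G P : Type} [Group G] [TopologicalSpace G] [IsTopologicalGroup G]
  [LocallyCompactSpace G] [SecondCountableTopology G] [T2Space G] [MeasurableSpace G] [BorelSpace G]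
  [TopologicalSpace P] [T2Space P] [MulAction G P] [ContinuousSMul G P]
  {O : ℕ → Type} [∀ n, TopologicalSpace (O n)] [∀ n, T2Space (O n)]
  [∀ n, MulAction G (O n)] [∀ n, ContinuousSMul G (O n)] {o : ∀ n, O n ↪ P}

/-- The restriction of a function of compact support to an open set containing its support. -/
theorem J3_exists_resCc {O₁ : Type} [TopologicalSpace O₁] [T2Space O₁] {ι : O₁ ↪ P}
    (hι : Topology.IsOpenEmbedding ι) (φ : C_c(P × G, ℂ))
    (h : Prod.fst '' tsupport φ ⊆ Set.range ι) :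
    ∃ ψ : C_c(O₁ × G, ℂ), (∀ z g, φ (ι z, g) = ψ (z, g)) ∧
      ∀ b ∉ Set.range ι, ∀ g, φ (b, g) = 0 := by
  have he : Topology.IsOpenEmbedding (Prod.map ι id : O₁ × G → P × G) :=
    hι.prodMap Topology.IsOpenEmbedding.id
  have hcs : IsCompact ((Prod.map ι id : O₁ × G → P × G) ⁻¹' tsupport φ) := by
    refine (he.isInducing.isCompact_preimage_iff ?_).2 φ.hasCompactSupport
    intro q hq
    obtain ⟨z, hz⟩ := h ⟨q, hq, rfl⟩
    exact ⟨(z, q.2), Prod.ext hz rfl⟩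
  refine ⟨⟨⟨fun q : O₁ × G => φ (ι q.1, q.2), ?_⟩, ?_⟩, fun _ _ => rfl, fun b hb g => ?_⟩
  · exact φ.continuous.comp ((hι.continuous.comp continuous_fst).prodMk continuous_snd)
  · refine HasCompactSupport.intro hcs fun q hq => ?_
    have h1 : (ι q.1, q.2) ∉ tsupport φ := hq
    have h2 : φ (ι q.1, q.2) = 0 := image_eq_zero_of_notMem_tsupport h1
    exact h2
  · by_contra hne
    have h1 : (b, g) ∈ tsupport φ := subset_tsupport _ hne
    exact hb (h ⟨(b, g), h1, rfl⟩)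

/-- Approximation from the open subsets. -/
theorem J3_approx (ho : ∀ n, Topology.IsOpenEmbedding (o n))
    (he : ∀ n (g : G) x, o n (g • x) = g • o n x)
    (hmono : ∀ n, Set.range (o n) ⊆ Set.range (o (n + 1)))
    (hun : ⋃ n, Set.range (o n) = Set.univ) :
    ∀ a ∈ cpG G ℕ P, ∀ ε : ℝ, 0 < ε → ∃ N, ∀ n, N ≤ n →
      ∃ a₀ ∈ cpG G ℕ (O n), ‖a - extG (o n) a₀‖ ≤ ε := by
  have hmono' : Monotone fun n => Set.range (o n) := monotone_nat_of_le_succ hmono
  refine cpG_induction (p := fun a => ∀ ε : ℝ, 0 < ε → ∃ N, ∀ n, N ≤ n →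
      ∃ a₀ ∈ cpG G ℕ (O n), ‖a - extG (o n) a₀‖ ≤ ε) ?_ ?_ ?_ ?_
  · refine isClosed_of_closure_subset fun a ha ε hε => ?_
    obtain ⟨b, hb, hab⟩ := Metric.mem_closure_iff.1 ha (ε / 2) (half_pos hε)
    obtain ⟨N, hN⟩ := hb (ε / 2) (half_pos hε)
    refine ⟨N, fun n hn => ?_⟩
    obtain ⟨a₀, ha₀, h1⟩ := hN n hn
    refine ⟨a₀, ha₀, ?_⟩
    have e : a - extG (o n) a₀ = (a - b) + (b - extG (o n) a₀) := by abel
    rw [e]
    rw [dist_eq_norm] at hab
    refine (norm_add_le _ _).trans ?_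
    linarith
  · intro ε hε
    refine ⟨0, fun n _ => ⟨0, zero_mem _, ?_⟩⟩
    rw [map_zero, sub_zero, norm_zero]
    exact hε.le
  · intro a b ha hb ε hε
    obtain ⟨N, hN⟩ := ha (ε / 2) (half_pos hε)
    obtain ⟨N', hN'⟩ := hb (ε / 2) (half_pos hε)
    refine ⟨max N N', fun n hn => ?_⟩
    obtain ⟨a₀, ha₀, h1⟩ := hN n ((le_max_left _ _).trans hn)
    obtain ⟨b₀, hb₀, h2⟩ := hN' n ((le_max_right _ _).trans hn)
    refine ⟨a₀ + b₀, add_mem ha₀ hb₀, ?_⟩
    have e : a + b - extG (o n) (a₀ + b₀) = (a - extG (o n) a₀) + (b - extG (o n) b₀) := by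
      rw [map_add]
      abel
    rw [e]
    refine (norm_add_le _ _).trans ?_
    linarith
  · intro φ i j ε hε
    have hK : IsCompact (Prod.fst '' tsupport φ) :=
      φ.hasCompactSupport.isCompact.image continuous_fst
    obtain ⟨N, hN⟩ := hK.elim_directed_cover (fun n => Set.range (o n))
      (fun n => (ho n).isOpen_range) (by rw [hun]; exact Set.subset_univ _)
      (by
        intro i j
        exact ⟨max i j, hmono' (le_max_left i j), hmono' (le_max_right i j)⟩)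
    refine ⟨N, fun n hn => ?_⟩
    obtain ⟨ψ, h1, h2⟩ := J3_exists_resCc (ho n) φ (hN.trans (hmono' hn))
    refine ⟨Cb.gen ψ i j, gen_mem ψ i j, ?_⟩
    rw [extG_gen (he n) h1 h2, sub_self, norm_zero]
    exact hε.le

/-- If `K₁` is zero for the members of an increasing sequence of open invariant subsets, then it is
zero for the union. -/
theorem VanG.of_union (ho : ∀ n, Topology.IsOpenEmbedding (o n))
    (he : ∀ n (g : G) x, o n (g • x) = g • o n x)
    (hmono : ∀ n, Set.range (o n) ⊆ Set.range (o (n + 1)))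
    (hun : ⋃ n, Set.range (o n) = Set.univ) (h : ∀ n, VanG G (O n)) : VanG G P := by
  intro v hv
  set a : FamG G ℕ P := (v : FamG G ℕ P) - 1 with ha
  set b : FamG G ℕ P := ((v⁻¹ : (FamG G ℕ P)ˣ) : FamG G ℕ P) - 1 with hb
  have hab : a + b + a * b = 0 := by
    have h1 : (v : FamG G ℕ P) * ((v⁻¹ : (FamG G ℕ P)ˣ) : FamG G ℕ P) = 1 := Units.mul_inv v
    have h2 : a + b + a * b = (v : FamG G ℕ P) * ((v⁻¹ : (FamG G ℕ P)ˣ) : FamG G ℕ P) - 1 := by
      rw [ha, hb]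
      noncomm_ring
    rw [h2, h1, sub_self]
  have hba : b + a + b * a = 0 := by
    have h1 : ((v⁻¹ : (FamG G ℕ P)ˣ) : FamG G ℕ P) * (v : FamG G ℕ P) = 1 := Units.inv_mul v
    have h2 : b + a + b * a = ((v⁻¹ : (FamG G ℕ P)ˣ) : FamG G ℕ P) * (v : FamG G ℕ P) - 1 := by
      rw [ha, hb]
      noncomm_ring
    rw [h2, h1, sub_self]
  set M : ℝ := ‖a‖ + ‖b‖ + ‖((v⁻¹ : (FamG G ℕ P)ˣ) : FamG G ℕ P)‖ + 1 with hM
  have hM1 : 1 ≤ M := by
    have := norm_nonneg a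
    have := norm_nonneg b
    have := norm_nonneg ((v⁻¹ : (FamG G ℕ P)ˣ) : FamG G ℕ P)
    linarith
  have hMa : ‖a‖ ≤ M := by
    have := norm_nonneg b
    have := norm_nonneg ((v⁻¹ : (FamG G ℕ P)ˣ) : FamG G ℕ P)
    linarith
  have hMb : ‖b‖ ≤ M := by
    have := norm_nonneg a
    have := norm_nonneg ((v⁻¹ : (FamG G ℕ P)ˣ) : FamG G ℕ P)
    linarith
  have hMv : ‖((v⁻¹ : (FamG G ℕ P)ˣ) : FamG G ℕ P)‖ ≤ M := by
    have := norm_nonneg a
    have := norm_nonneg b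
    linarith
  have hδ : (0 : ℝ) < 1 / (8 * M) := by positivity
  obtain ⟨N, hN⟩ := J3_approx ho he hmono hun a hv.1 _ hδ
  obtain ⟨N', hN'⟩ := J3_approx ho he hmono hun b hv.2 _ hδ
  set n := max N N' with hn
  obtain ⟨a₀, ha₀, h1⟩ := hN n (le_max_left _ _)
  obtain ⟨b₀, hb₀, h2⟩ := hN' n (le_max_right _ _)
  set A : FamG G ℕ P := extG (o n) a₀ with hA
  set B : FamG G ℕ P := extG (o n) b₀ with hB
  have hδM : 1 / (8 * M) * M = 1 / 8 := by field_simp
  have hδ1 : 1 / (8 * M) ≤ 1 / 8 := by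
    rw [← hδM]
    nlinarith
  have hx : ∀ x y X Y : FamG G ℕ P, x + y + x * y = 0 → ‖x‖ ≤ M → ‖y‖ ≤ M →
      ‖x - X‖ ≤ 1 / (8 * M) → ‖y - Y‖ ≤ 1 / (8 * M) → ‖X + Y + X * Y‖ < 1 := by
    intro x y X Y hxy hxM hyM hxX hyY
    have e : X + Y + X * Y = -(x - X) - (y - Y) - (x - X) * Y - x * (y - Y) := by
      have e1 : X + Y + X * Y = (X + Y + X * Y) - (x + y + x * y) := by rw [hxy, sub_zero]
      rw [e1]
      noncomm_ring
    have hY : ‖Y‖ ≤ M + 1 / 8 := by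
      have e2 : Y = y - (y - Y) := by abel
      rw [e2]
      refine (norm_sub_le _ _).trans ?_
      linarith
    have h3 : ‖(x - X) * Y‖ ≤ 1 / (8 * M) * (M + 1 / 8) :=
      (norm_mul_le _ _).trans (mul_le_mul hxX hY (norm_nonneg _) hδ.le)
    have h4 : ‖x * (y - Y)‖ ≤ M * (1 / (8 * M)) :=
      (norm_mul_le _ _).trans (mul_le_mul hxM hyY (norm_nonneg _) (by linarith))
    rw [e]
    have h5 := norm_sub_le (-(x - X) - (y - Y) - (x - X) * Y) (x * (y - Y))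
    have h6 := norm_sub_le (-(x - X) - (y - Y)) ((x - X) * Y)
    have h7 := norm_sub_le (-(x - X)) (y - Y)
    rw [norm_neg] at h7
    have h8 : M * (1 / (8 * M)) = 1 / 8 := by rw [mul_comm]; exact hδM
    have h9 : 1 / (8 * M) * (M + 1 / 8) = 1 / 8 + 1 / (8 * M) * (1 / 8) := by
      rw [mul_add, hδM]
    nlinarith
  have h3 : ‖a₀ + b₀ + a₀ * b₀‖ < 1 := by
    rw [← norm_extG (o n), map_add, map_add, map_mul]
    exact hx a b A B hab hMa hMb h1 h2
  have h4 : ‖b₀ + a₀ + b₀ * a₀‖ < 1 := by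
    rw [← norm_extG (o n), map_add, map_add, map_mul]
    exact hx b a B A hba hMb hMa h2 h1
  obtain ⟨w, hw, hwa⟩ := exists_unit_of_almost_inverse isClosed_cpG ha₀ hb₀ h3 h4
  have h5 : extUnit (extG (o n)) w ∈ E1 (cpG G ℕ P) :=
    extUnit_mem_E1 (fun x => (norm_extG (o n) x).le) (extG_mem (ho n) (he n)) (h n hw)
  have h6 : v⁻¹ * extUnit (extG (o n)) w ∈ E1 (cpG G ℕ P) := by
    refine mem_E1_of_small (mul_mem (inv_mem hv) (E1_le _ h5)) ?_
    have e : ((v⁻¹ * extUnit (extG (o n)) w : (FamG G ℕ P)ˣ) : FamG G ℕ P) - 1 =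
        ((v⁻¹ : (FamG G ℕ P)ˣ) : FamG G ℕ P) * (A - a) := by
      have e1 : ((v⁻¹ * extUnit (extG (o n)) w : (FamG G ℕ P)ˣ) : FamG G ℕ P) =
          ((v⁻¹ : (FamG G ℕ P)ˣ) : FamG G ℕ P) * (1 + extG (o n) ((w : FamG G ℕ (O n)) - 1)) := rfl
      have e2 : (w : FamG G ℕ (O n)) - 1 = a₀ := by rw [hwa, add_sub_cancel_left]
      have e3 : (1 : FamG G ℕ P) = ((v⁻¹ : (FamG G ℕ P)ˣ) : FamG G ℕ P) * (1 + a) := by
        rw [ha, add_sub_cancel, Units.inv_mul]
      rw [e1, e2]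
      conv_lhs => rw [e3]
      rw [← e3, ← hA]
      have e4 : ((v⁻¹ : (FamG G ℕ P)ˣ) : FamG G ℕ P) * (1 + A) - 1 =
          ((v⁻¹ : (FamG G ℕ P)ˣ) : FamG G ℕ P) * (1 + A) -
            ((v⁻¹ : (FamG G ℕ P)ˣ) : FamG G ℕ P) * (1 + a) := by rw [← e3]
      rw [e4]
      noncomm_ring
    rw [e]
    refine lt_of_le_of_lt (norm_mul_le _ _) ?_
    have h7 : ‖A - a‖ ≤ 1 / (8 * M) := by
      rw [norm_sub_rev]
      exact h1
    refine lt_of_le_of_lt (mul_le_mul hMv h7 (norm_nonneg _) (by linarith)) ?_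
    have h8 : M * (1 / (8 * M)) = 1 / 8 := by rw [mul_comm]; exact hδM
    rw [h8]
    norm_num
  have h7 : v = extUnit (extG (o n)) w * (v⁻¹ * extUnit (extG (o n)) w)⁻¹ := by group
  rw [h7]
  exact mul_mem h5 (inv_mem h6)

end Pool.Agent.Lib.MP_aa9b81_an.Tv
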