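import Pool.Agent.Lib.MP_aa9b81_an.Tv.Lcd2

/-!
# Transversals: points with local boxes, cuts and universal spaces
-/

open scoped Topology

namespace Pool.Agent.Lib.MP_aa9b81_an.LC

section

variable (G : Type) {X Z : Type} [Group G] [TopologicalSpace G] [TopologicalSpace X] [MulAction G X]
  [TopologicalSpace Z] [MulAction G Z]

/-- The point `x` has a local box with the property `P`: there are an open neighbourhood `V` of `1`
in `G` and a `V`-box `T` with the property `P` such that the orbit of `x` meets `T°`. -/
def BoxAt (P : Set X → Prop) (x : X) : Prop :=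
  ∃ V : Set G, IsOpen V ∧ (1 : G) ∈ V ∧ ∃ T : Set X, IsBox V T ∧ P T ∧
    ∃ g : G, g • x ∈ core G T

omit [TopologicalSpace X] in
/-- The stabilizer of `x` is discrete. -/
def DiscStab (x : X) : Prop := ∃ N ∈ 𝓝 (1 : G), ∀ g ∈ N, g • x = x → g = 1

/-- The map `p : Z → X` is a cut of `X`: it is proper, surjective and equivariant, there are totally
disconnected local boxes at the points of `Z` over the points of `X` with local boxes, and `p` is
injective over the other points of `X`. -/
structure IsCut (p : Z → X) : Prop where
  proper : IsProperMap p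
  surj : Function.Surjective p
  equi : ∀ (g : G) (z : Z), p (g • z) = g • p z
  box : ∀ z : Z, BoxAt G (fun _ : Set X => True) (p z) →
    BoxAt G (fun T : Set Z => IsTotallyDisconnected T) z
  inj : ∀ z z' : Z, p z = p z' → z = z' ∨ BoxAt G (fun _ : Set X => True) (p z)

end

/-- Every second countable locally compact Hausdorff space `X` with a continuous action of `G` is
isomorphic to the intersection of a decreasing sequence of clopen invariant subsets of `X₀`. -/
def IsUniversal (G : Type) [Group G] [TopologicalSpace G] (X₀ : Type) [TopologicalSpace X₀]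
    [MulAction G X₀] : Prop :=
  ∀ (X : Type) [TopologicalSpace X] [T2Space X] [LocallyCompactSpace X]
    [SecondCountableTopology X] [MulAction G X] [ContinuousSMul G X],
    ∃ (c : X → X₀) (A : ℕ → Set X₀), Topology.IsClosedEmbedding c ∧
      (∀ (g : G) (x : X), c (g • x) = g • c x) ∧ (∀ n, IsClopen (A n)) ∧
      (∀ (n : ℕ) (g : G), ∀ x ∈ A n, g • x ∈ A n) ∧ (∀ n, A (n + 1) ⊆ A n) ∧
      ⋂ n, A n = Set.range c

theorem hasLocalBoxes_iff {G X : Type} [Group G] [TopologicalSpace G] [TopologicalSpace X]
    [MulAction G X] {P : Set X → Prop} : HasLocalBoxes G P ↔ ∀ x, BoxAt G P x := Iff.rfl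

theorem BoxAt.mono {G X : Type} [Group G] [TopologicalSpace G] [TopologicalSpace X]
    [MulAction G X] {P P' : Set X → Prop} (hP : ∀ T, P T → P' T) {x : X} (h : BoxAt G P x) :
    BoxAt G P' x := by
  obtain ⟨V, hV, h1, T, hT, hP', hg⟩ := h
  exact ⟨V, hV, h1, T, hT, hP T hP', hg⟩

end Pool.Agent.Lib.MP_aa9b81_an.LC
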