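import Pool.Agent.Lib.MP_aa9b81_an.Tv.W1
import Pool.Agent.Lib.MP_aa9b81_an.Tv.W2

/-!
# Transversals, part W3: every space with an action of `G` is a closed invariant subset of `Uw ω`
-/

open Function Filter Topology

noncomputable section

set_option linter.unusedSectionVars false

namespace Pool.Agent.Lib.MP_aa9b81_an.Tv

/-- Functions on `X` which give an embedding in `Uw ω`. -/
structure Coords {G : Type} [Group G] (ω : G → ℝ) (X : Type) [TopologicalSpace X]
    [MulAction G X] where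
  /-- the functions -/
  F : ℕ → X → ℝ
  cont : ∀ k, Continuous (F k)
  nonneg : ∀ k x, 0 ≤ F k x
  le_one : ∀ k x, F k x ≤ 1
  mod : ∀ k y (a : G), |F k y - F k (a⁻¹ • y)| ≤ ω a
  cpt : ∀ k, HasCompactSupport (F k)
  pos : ∀ x, ∃ k, F k x ≠ 0
  sep : ∀ x x', x ≠ x' → ∃ k, F k x ≠ F k x'

variable {G X : Type} [Group G] [TopologicalSpace G] [IsTopologicalGroup G]
  [TopologicalSpace X] [T2Space X] [LocallyCompactSpace X] [SecondCountableTopology X]
  [MulAction G X] [ContinuousSMul G X]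

/-- PROOF: `F k = c n • supc (β n) (f m)` for `k = Nat.pair n m`, `f` from `exists_sep`. `pos`: `le_supc` for `f m x = 1`.
`sep`: `f m x = 1`, `f m x' = 0`; by `supc_near` at `x'` with `ε = 1/2` and `small` there is `n` with
`supc (β n) (f m) x' ≤ 1/2 < 1 ≤ supc (β n) (f m) x`. -/
theorem exists_coords (b : Bumps G) : Nonempty (Coords b.ω X) := by
  obtain ⟨f, hfc, hfs, hf0, hf1, hsep⟩ := exists_sep X
  have hle : ∀ n m x, f m x = 1 → b.c n ≤ b.c n * supc (b.β n) (f m) x := by
    intro n m x hx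
    have h1 := le_supc (b.nonneg n) (b.le_one n) (b.one n) (hf0 m) (hf1 m) x
    rw [hx] at h1
    exact le_mul_of_one_le_right (b.c_pos n).le h1
  refine ⟨{ F := fun k x => b.c k.unpair.1 * supc (b.β k.unpair.1) (f k.unpair.2) x
            cont := fun k => ?_, nonneg := fun k x => ?_, le_one := fun k x => ?_,
            mod := fun k y a => ?_, cpt := fun k => ?_, pos := fun x => ?_,
            sep := fun x x' hxx => ?_ }⟩
  · exact continuous_const.mul (continuous_supc (b.cont _) (b.cpt _) (b.nonneg _) (b.le_one _)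
      (hfc _) (hf0 _) (hf1 _))
  · exact mul_nonneg (b.c_pos _).le (supc_nonneg (b.nonneg _) (b.le_one _) (hf0 _) (hf1 _) x)
  · exact mul_le_one₀ (b.c_le _) (supc_nonneg (b.nonneg _) (b.le_one _) (hf0 _) (hf1 _) x)
      (supc_le_one (b.nonneg _) (b.le_one _) (hf0 _) (hf1 _) x)
  · have hc := b.c_pos k.unpair.1
    have h1 : ∀ h, |b.β k.unpair.1 h - b.β k.unpair.1 (a⁻¹ * h)| ≤ b.ω a / b.c k.unpair.1 := by
      intro h
      rw [le_div_iff₀ hc, mul_comm]
      exact b.mod _ a h
    have h2 := supc_translate (b.nonneg _) (b.le_one _) (hf0 k.unpair.2) (hf1 k.unpair.2) h1 y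
    rw [← mul_sub, abs_mul, abs_of_pos hc]
    calc b.c k.unpair.1 * |supc (b.β k.unpair.1) (f k.unpair.2) y -
          supc (b.β k.unpair.1) (f k.unpair.2) (a⁻¹ • y)|
        ≤ b.c k.unpair.1 * (b.ω a / b.c k.unpair.1) := mul_le_mul_of_nonneg_left h2 hc.le
      _ = b.ω a := mul_div_cancel₀ _ hc.ne'
  · exact (hasCompactSupport_supc (b.cpt _) (b.nonneg _) (b.le_one _) (hfs _) (hf0 _)
      (hf1 _)).mul_left
  · obtain ⟨m, hm, _⟩ := hsep x Set.univ isOpen_univ (Set.mem_univ x)
    refine ⟨Nat.pair 0 m, ?_⟩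
    simp only [Nat.unpair_pair]
    exact ne_of_gt ((b.c_pos 0).trans_le (hle 0 m x hm))
  · obtain ⟨m, hm, hm'⟩ := hsep x ({x'}ᶜ) isOpen_compl_singleton hxx
    have hx' : f m x' = 0 := hm' x' (fun h => h rfl)
    obtain ⟨U, hU, hU2⟩ := supc_near (G := G) (hfc m) (hf0 m) (hf1 m) x'
      (by norm_num : (0:ℝ) < 1 / 2)
    obtain ⟨n, hn⟩ := b.small U hU
    refine ⟨Nat.pair n m, ?_⟩
    simp only [Nat.unpair_pair]
    have h1 := hle n m x hm
    have h2 := hU2 (b.β n) (b.nonneg n) (b.le_one n) hn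
    rw [hx', zero_add] at h2
    have h3 : b.c n * supc (b.β n) (f m) x' ≤ b.c n * (1 / 2) :=
      mul_le_mul_of_nonneg_left h2 (b.c_pos n).le
    have h4 := b.c_pos n
    intro h5
    linarith

/-- The map to `Uw ω`: `x ↦ (k, g ↦ F k (g⁻¹ x))`. -/
def Coords.emb {ω : G → ℝ} (C : Coords ω X) (x : X) : Uw ω :=
  ⟨fun k => ⟨fun g => C.F k (g⁻¹ • x), fun g => ⟨C.nonneg k _, C.le_one k _⟩, fun g g' => by
    have h2 := C.mod k (g⁻¹ • x) (g⁻¹ * g')
    have h3 : (g⁻¹ * g')⁻¹ • g⁻¹ • x = g'⁻¹ • x := by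
      rw [smul_smul]
      congr 1
      group
    rwa [h3] at h2⟩, by
    obtain ⟨k, hk⟩ := C.pos x
    refine ⟨k, 1, ?_⟩
    show C.F k ((1 : G)⁻¹ • x) ≠ 0
    rwa [inv_one, one_smul]⟩

theorem Coords.emb_at {ω : G → ℝ} (C : Coords ω X) (x : X) (k : ℕ) (g : G) :
    ((C.emb x).seq k).at g = C.F k (g⁻¹ • x) := rfl

theorem Coords.emb_smul {ω : G → ℝ} (C : Coords ω X) (g : G) (x : X) :
    C.emb (g • x) = g • C.emb x := by
  refine Uw.ext fun k h => ?_
  rw [Uw.smul_seq, Lw.smul_at, C.emb_at, C.emb_at, smul_smul]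
  congr 2
  group

/-- PROOF: injective (`sep` with `g = 1`), continuous (pointwise), proper: for compact `K` by `Uw.exists_finite` the
preimage is contained in the union of the compact sets `{x | δ ≤ F k (g⁻¹ x)}`, and it is closed; a proper injective
map is a closed embedding. -/
theorem Coords.isClosedEmbedding {ω : G → ℝ} (C : Coords ω X) : IsClosedEmbedding C.emb := by
  have hc : Continuous C.emb := by
    refine Continuous.subtype_mk (continuous_pi fun k => Continuous.subtype_mk
      (continuous_pi fun g => ?_) _) _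
    exact (C.cont k).comp (continuous_const_smul g⁻¹)
  have hi : Function.Injective C.emb := by
    intro x x' h
    by_contra hne
    obtain ⟨k, hk⟩ := C.sep x x' hne
    apply hk
    have h2 : ((C.emb x).seq k).at 1 = ((C.emb x').seq k).at 1 := by rw [h]
    rwa [C.emb_at, C.emb_at, inv_one, one_smul, one_smul] at h2
  have hp : IsProperMap C.emb := by
    rw [isProperMap_iff_isCompact_preimage]
    refine ⟨hc, fun K hK => ?_⟩
    obtain ⟨S, δ, hδ, hS⟩ := Uw.exists_finite hK
    have h1 : ∀ s ∈ S, IsCompact {x : X | δ ≤ C.F s.1 (s.2⁻¹ • x)} := by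
      intro s _
      have h2 : IsCompact {y : X | δ ≤ C.F s.1 y} := by
        refine (C.cpt s.1).of_isClosed_subset (isClosed_le continuous_const (C.cont s.1)) ?_
        intro y hy
        refine subset_tsupport _ ?_
        rw [Function.mem_support]
        have h3 : δ ≤ C.F s.1 y := hy
        exact (lt_of_lt_of_le hδ h3).ne'
      exact (Homeomorph.smul s.2⁻¹).isCompact_preimage.2 h2
    refine (S.isCompact_biUnion h1).of_isClosed_subset (hK.isClosed.preimage hc) ?_
    intro x hx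
    obtain ⟨s, hs, h4⟩ := hS (C.emb x) hx
    rw [C.emb_at] at h4
    exact Set.mem_biUnion hs h4
  exact IsClosedEmbedding.of_continuous_injective_isClosedMap hc hi hp.isClosedMap

end Pool.Agent.Lib.MP_aa9b81_an.Tv
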