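import Pool.Agent.Lib.MP_aa9b81_an.Tv.Lcd

/-!
# Transversals: spaces with local boxes
-/

open scoped Topology

namespace Pool.Agent.Lib.MP_aa9b81_an.LC

/-- Every point `x` of `X` has an open neighbourhood `V` of `1` in `G` and a `V`-box `T` with the
property `P` such that the orbit of `x` meets `T°`. -/
def HasLocalBoxes (G : Type) {X : Type} [Group G] [TopologicalSpace G] [TopologicalSpace X]
    [MulAction G X] (P : Set X → Prop) : Prop :=
  ∀ x : X, ∃ V : Set G, IsOpen V ∧ (1 : G) ∈ V ∧ ∃ T : Set X, IsBox V T ∧ P T ∧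
    ∃ g : G, g • x ∈ core G T

theorem HasBoxes.hasLocalBoxes {G X : Type} [Group G] [TopologicalSpace G] [TopologicalSpace X]
    [MulAction G X] {P : Set X → Prop} {V : Set G} (hV : IsOpen V) (h1 : (1 : G) ∈ V)
    (h : HasBoxes V P) : HasLocalBoxes G P := by
  intro x
  obtain ⟨T, hT, hP, hg⟩ := h x
  exact ⟨V, hV, h1, T, hT, hP, hg⟩

theorem HasLocalBoxes.mono {G X : Type} [Group G] [TopologicalSpace G] [TopologicalSpace X]
    [MulAction G X] {P P' : Set X → Prop} (hP : ∀ T, P T → P' T) (h : HasLocalBoxes G P) :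
    HasLocalBoxes G P' := by
  intro x
  obtain ⟨V, hV, h1, T, hT, hP', hg⟩ := h x
  exact ⟨V, hV, h1, T, hT, hP T hP', hg⟩

end Pool.Agent.Lib.MP_aa9b81_an.LC
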