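import Pool.Agent.Lib.MP_aa9b81_an.Mg.G049
import Pool.Agent.Lib.MP_aa9b81_an.Mg.G042

/-!
# Transversals, part U5: if `K₁` vanishes for one space then it vanishes for all spaces with boxes
-/

open scoped Pointwise
open Function Filter Topology

noncomputable section

namespace Pool.Agent.Lib.MP_aa9b81_an.Tv

open Cut Hs Cb

theorem U5_range {A B W : Type} (f : A → B) :
    Set.range (Prod.map f (id : W → W)) = Set.range f ×ˢ (Set.univ : Set W) := by
  rw [Set.range_prodMap, Set.range_id]

section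

variable {G : Type} [Group G] [TopologicalSpace G] [IsTopologicalGroup G]
  [LocallyCompactSpace G] [SecondCountableTopology G] [T2Space G] [MeasurableSpace G] [BorelSpace G]
  {V : Set G}

/-- The vanishing passes from the universal space to every space with boxes. -/
theorem van_of_universal (hA : PropAG G) (hV : IsOpen V) (h1 : (1 : G) ∈ V)
    {O : ℕ → Set (Conf V)} (hO : ∀ i, IsOpen (O i))
    (hB : ∀ (D : Conf V) (W : Set (Conf V)), IsOpen W → D ∈ W → ∃ i, D ∈ O i ∧ O i ⊆ W)
    {X : Type} [TopologicalSpace X] [T2Space X] [MulAction G X] [ContinuousSMul G X]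
    {f : X → Conf V} (hf : IsClosedEmbedding f) (hfe : ∀ (g : G) x, f (g • x) = g • f x)
    {W : Type} [TopologicalSpace W] [T2Space W] [LocallyCompactSpace W] [MulAction G W]
    [ContinuousSMul G W] [T2Space (Xu V O)] [ContinuousSMul G (Xu V O)]
    (h : VanG G (Xu V O × W)) : VanG G (X × W) := by
  have := Xu.locallyCompactSpace (O := O) hV h1 hO
  obtain ⟨s, c, hc, hce, hint⟩ := Xu.exists_fibre hV h1 hO hB hf hfe
  have hcl : ∀ n, IsClosedEmbedding (Xu.cyl O s n).val := fun n =>
    (Xu.isClopen_cyl s n).1.isClosedEmbedding_subtypeVal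
  have hop : ∀ n, IsOpenEmbedding (Xu.cyl O s n).val := fun n =>
    (Xu.isClopen_cyl s n).2.isOpenEmbedding_subtypeVal
  have hr : ∀ n, Set.range (Xu.cyl O s n).val = (Xu.cyl O s n).carrier := fun n => by
    ext q
    exact ⟨by rintro ⟨x, rfl⟩; exact (Xu.cyl O s n).val_mem x, fun hq => ⟨⟨q, hq⟩, rfl⟩⟩
  refine VanG.of_inter_clopen (Y := Xu V O × W) (C := X × W)
    (D := fun n => (Xu.cyl O s n).Pt × W) (c := Prod.map c id)
    (d := fun n => Prod.map (Xu.cyl O s n).val id) hA (hc.prodMap IsClosedEmbedding.id)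
    (fun g x => Prod.ext (hce g x.1) rfl) (fun n => (hcl n).prodMap IsClosedEmbedding.id)
    (fun n => (hop n).prodMap IsOpenEmbedding.id) (fun n g x => rfl) (fun n => ?_) ?_ h
  · rw [U5_range, U5_range, hr, hr]
    exact Set.prod_mono (Xu.cyl_anti s n) le_rfl
  · rw [U5_range, ← hint]
    ext q
    rw [Set.mem_iInter]
    constructor
    · intro hq
      refine ⟨Set.mem_iInter.2 fun n => ?_, Set.mem_univ _⟩
      have h2 := hq n
      rw [U5_range, hr] at h2
      exact h2.1
    · rintro ⟨hq, -⟩ n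
      rw [U5_range, hr]
      exact ⟨Set.mem_iInter.1 hq n, Set.mem_univ _⟩

/-- THE UNIVERSAL SPACE. -/
theorem exists_universal (hV : IsOpen V) (h1 : (1 : G) ∈ V) :
    ∃ (X₀ : Type) (_ : TopologicalSpace X₀) (_ : MulAction G X₀) (_ : T2Space X₀)
      (_ : ContinuousSMul G X₀), LocallyCompactSpace X₀ ∧ SecondCountableTopology X₀ ∧
      (LC.HasBoxes V fun _ : Set X₀ => True) ∧
      ∀ (X : Type) [TopologicalSpace X] [T2Space X] [LocallyCompactSpace X]
        [SecondCountableTopology X] [MulAction G X] [ContinuousSMul G X],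
        (LC.HasBoxes V fun _ : Set X => True) → PropAG G →
        ∀ (W : Type) [TopologicalSpace W] [T2Space W] [LocallyCompactSpace W] [MulAction G W]
          [ContinuousSMul G W], VanG G (X₀ × W) → VanG G (X × W) := by
  have := Conf.secondCountableTopology hV h1
  obtain ⟨O, hO, hB⟩ := exists_basis_seq (Conf V)
  have h2 := Xu.t2Space (O := O) hV h1
  have h3 := Xu.continuousSMul (O := O) hV h1
  refine ⟨Xu V O, inferInstance, inferInstance, h2, h3, Xu.locallyCompactSpace hV h1 hO,
    Xu.secondCountableTopology hV h1, Xu.hasBoxes hV h1 hO, ?_⟩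
  intro X _ _ _ _ _ _ hX hA W _ _ _ _ _ hW
  obtain ⟨f, hf, hfe⟩ := exists_embedding_conf hV h1 hX
  exact van_of_universal hA hV h1 hO hB hf hfe hW

end

end Pool.Agent.Lib.MP_aa9b81_an.Tv
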