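import Pool.Agent.Lib.MP_aa9b81_an.Tv.T2

/-!
# Transversals, part T3: a function with a uniformly invertible orbit derivative
-/

open scoped Topology
open Filter MeasureTheory

noncomputable section

set_option linter.unusedSectionVars false

namespace Pool.Agent.Lib.MP_aa9b81_an.Tv

variable {G F X : Type} [Group G] [TopologicalSpace G] [IsTopologicalGroup G]
  [LocallyCompactSpace G] [T2Space G] [MeasurableSpace G] [BorelSpace G]
  [NormedAddCommGroup F] [NormedSpace ℝ F] [FiniteDimensional ℝ F]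
  {χ : OpenPartialHomeomorph G F}
  [TopologicalSpace X] [T2Space X] [LocallyCompactSpace X] [SecondCountableTopology X]
  [MulAction G X] [ContinuousSMul G X]

/-- Two compact neighbourhoods with small quotients. -/
private theorem T3_small {N S : Set G} (hN : N ∈ 𝓝 (1 : G)) (hS : S ∈ 𝓝 (1 : G)) :
    ∃ K ∈ 𝓝 (1 : G), IsCompact K ∧ K ⊆ S ∧ ∀ k ∈ K, ∀ g ∈ K, k⁻¹ * g ∈ N := by
  have hM : ∀ᶠ p : G × G in 𝓝 (1 : G) ×ˢ 𝓝 (1 : G), p.1⁻¹ * p.2 ∈ N := by
    rw [← nhds_prod_eq]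
    have h : Tendsto (fun p : G × G => p.1⁻¹ * p.2) (𝓝 ((1 : G), (1 : G))) (𝓝 (1 : G)) := by
      have hc : Continuous (fun p : G × G => p.1⁻¹ * p.2) := by fun_prop
      have h := hc.tendsto ((1 : G), (1 : G))
      have h1 : ((1 : G), (1 : G)).1⁻¹ * ((1 : G), (1 : G)).2 = 1 := by simp
      rw [h1] at h
      exact h
    exact h hN
  obtain ⟨M, hM, hMN⟩ := (eventually_prod_self_iff (r := fun a b : G => a⁻¹ * b ∈ N)).1 hM
  obtain ⟨K, hK, hKs, hKc⟩ := local_compact_nhds (inter_mem hM hS)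
  exact ⟨K, hK, hKc, fun k hk => (hKs hk).2, fun k hk g hg => hMN k (hKs hk).1 g (hKs hg).1⟩

/-- A continuous function with a compact support, as a product. -/
private theorem T3_int {u : G → ℝ} (hu : Continuous u) {K : Set G} (hK : IsCompact K)
    (huK : ∀ k ∉ K, u k = 0) {f : G → F} (hf : Continuous f) :
    Integrable (fun k => u k • f k) (Measure.haar : Measure G) :=
  (hu.smul hf).integrable_of_hasCompactSupport
    (HasCompactSupport.intro hK fun k hk => by simp [huK k hk])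

/-- A continuous function on `X` with the values of the chart on a piece of the orbit of `x`.
PROOF: let `K` be a compact neighbourhood of `1` with `K⁻¹ K ⊆ N` and `K ⊆ χ.source`. The map
`K → X`, `k ↦ k • x` is continuous and injective (`k • x = k' • x` gives `k'⁻¹ k ∈ N`, so `= 1`), `K` is
compact: it is a closed embedding. `X` is normal (locally compact, second countable, `T2`); Tietze
(`TietzeExtension.of_tvs ℝ`, `ContinuousMap.exists_extension`). -/
theorem exists_orbit_fun (hχ : C1Chart χ) {x : X}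
    (hx : ∃ N ∈ 𝓝 (1 : G), ∀ g ∈ N, g • x = x → g = 1) :
    ∃ h : X → F, Continuous h ∧ ∃ K ∈ 𝓝 (1 : G), ∀ k ∈ K, h (k • x) = χ k := by
  obtain ⟨N, hN, hx⟩ := hx
  obtain ⟨K, hK, hKc, hKs, hKN⟩ := T3_small hN (χ.open_source.mem_nhds hχ.one_mem)
  have : CompactSpace K := isCompact_iff_compactSpace.1 hKc
  have he : Continuous (fun k : K => (k : G) • x) := by fun_prop
  have hinj : Function.Injective (fun k : K => (k : G) • x) := by
    intro k k' h
    have h1 : ((k : G)⁻¹ * (k' : G)) • x = x := by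
      have h' : (k : G) • x = (k' : G) • x := h
      rw [mul_smul, ← h', inv_smul_smul]
    have h2 := hx _ (hKN k k.2 k' k'.2) h1
    exact Subtype.ext (inv_mul_eq_one.1 h2)
  have hcl := he.isClosedEmbedding hinj
  have : TietzeExtension F := TietzeExtension.of_tvs ℝ
  have hcont : Continuous (fun k : K => χ (k : G)) :=
    (χ.continuousOn.mono hKs).domRestrict
  obtain ⟨h, hh⟩ := ContinuousMap.exists_extension hcl ⟨_, hcont⟩
  refine ⟨h, h.continuous, K, hK, fun k hk => ?_⟩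
  have := congrArg (fun f : C(K, F) => f ⟨k, hk⟩) hh
  simpa using this

/-- PROOF: `h`, `K₀` from `exists_orbit_fun`. Let `N₁` be a neighbourhood of `1` and `B₁` one with
`k⁻¹ * g ∈ K₀` and the estimate of `hχ.str` with `ε = 1/4` for `k⁻¹, g, g'`, `k ∈ N₁`, `g, g' ∈ B₁`. Let
`u`, `K`, `C`, `B₂` be as in `exists_bumpG` for `N₁`, and `Φ y = ∫ u k • h (k⁻¹ • y) dk` (continuous:
`continuous_parametric_integral_of_continuous` or `Cb.continuous_integral`; the integrand is supported in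
the compact set `K`). By left invariance `Φ (g • y) = ∫ u (g k) • h (k⁻¹ • y) dk`. Let `B ⊆ B₁ ∩ B₂` be a
compact neighbourhood of `1`, `K' = B⁻¹ K` (compact): `u (g k) = 0` for `g ∈ B`, `k ∉ K'`. Let `N` be the
neighbourhood of `x` of the `y` with `‖h (k⁻¹ • y) - h (k⁻¹ • x)‖ ≤ 1 / (4 (C + 1))` for all `k ∈ K'`
(compactness: `IsCompact.eventually_forall_of_forall_eventually`). Then
`(Φ (g y) - Φ (g' y)) - (Φ (g x) - Φ (g' x)) = ∫ (u (g k) - u (g' k)) • (h (k⁻¹ y) - h (k⁻¹ x)) dk` has norm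
at most `1/4 ‖χ g - χ g'‖`, and `(Φ (g x) - Φ (g' x)) - (χ g - χ g') =
∫ u k • ((χ (k⁻¹ g) - χ (k⁻¹ g')) - (χ g - χ g')) dk` too (`∫ u = 1`). -/
theorem exists_transversal_fun (hχ : C1Chart χ) {x : X}
    (hx : ∃ N ∈ 𝓝 (1 : G), ∀ g ∈ N, g • x = x → g = 1) :
    ∃ Φ : X → F, Continuous Φ ∧ ∃ B ∈ 𝓝 (1 : G), ∃ N ∈ 𝓝 x, ∀ y ∈ N, ∀ g ∈ B, ∀ g' ∈ B,
      ‖(Φ (g • y) - Φ (g' • y)) - (χ g - χ g')‖ ≤ 1 / 2 * ‖χ g - χ g'‖ := by
  obtain ⟨h, hh, K₀, hK₀, hhK⟩ := exists_orbit_fun hχ hx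
  obtain ⟨N₂, hN₂, hstr⟩ := hχ.str (1 / 4) (by norm_num)
  obtain ⟨M₁, hM₁, -, -, hMK⟩ := T3_small hK₀ (univ_mem : (Set.univ : Set G) ∈ 𝓝 (1 : G))
  have hinv : ∀ᶠ k : G in 𝓝 (1 : G), k⁻¹ ∈ N₂ := by
    have ht : Tendsto (fun k : G => k⁻¹) (𝓝 (1 : G)) (𝓝 (1 : G)) := by
      simpa using (continuous_inv (G := G)).tendsto 1
    exact ht hN₂
  obtain ⟨u, hu, hu0, ⟨K, hK, hKN, huK⟩, hint, C, hC, B₂, hB₂, hest⟩ :=
    exists_bumpG hχ (inter_mem hinv hM₁)
  obtain ⟨B, hB, hBs, hBc⟩ := local_compact_nhds (inter_mem (inter_mem hN₂ hM₁) hB₂)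
  set Φ : X → F := fun y => ∫ k, u k • h (k⁻¹ • y) ∂(Measure.haar : Measure G) with hΦ
  have hΦc : Continuous Φ := by
    rw [← continuousOn_univ]
    refine continuousOn_integral_of_compact_support hK ?_ ?_
    · exact Continuous.continuousOn (by
        simp only [Function.uncurry_def]
        fun_prop)
    · intro y k _ hk
      simp [huK k hk]
  -- the compact set of the translates
  obtain ⟨K', hK', hKK'⟩ : ∃ K' : Set G, IsCompact K' ∧ ∀ g ∈ B, ∀ k ∉ K', g * k ∉ K := by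
    refine ⟨(fun p : G × G => p.1⁻¹ * p.2) '' (B ×ˢ K), (hBc.prod hK).image (by fun_prop), ?_⟩
    intro g hg k hk hgk
    exact hk ⟨(g, g * k), ⟨hg, hgk⟩, by simp⟩
  have hcg : ∀ y : X, Continuous (fun k : G => h (k⁻¹ • y)) := fun y => by fun_prop
  have hug : ∀ g : G, Continuous (fun k : G => u (g * k)) := fun g => by fun_prop
  have hzero : ∀ g ∈ B, ∀ k ∉ K', u (g * k) = 0 := fun g hg k hk => huK _ (hKK' g hg k hk)
  have hI : ∀ g ∈ B, ∀ y : X,
      Integrable (fun k => u (g * k) • h (k⁻¹ • y)) (Measure.haar : Measure G) :=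
    fun g hg y => T3_int (hug g) hK' (hzero g hg) (hcg y)
  have hI' : ∀ y : X, Integrable (fun k => u k • h (k⁻¹ • y)) (Measure.haar : Measure G) :=
    fun y => T3_int hu hK huK (hcg y)
  have hleft : ∀ (g : G) (y : X),
      Φ (g • y) = ∫ k, u (g * k) • h (k⁻¹ • y) ∂(Measure.haar : Measure G) := by
    intro g y
    have h1 := integral_mul_left_eq_self (μ := (Measure.haar : Measure G))
      (fun k : G => u k • h (k⁻¹ • (g • y))) g
    rw [hΦ]
    simp only
    rw [← h1]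
    refine integral_congr_ae (Eventually.of_forall fun k => ?_)
    simp only
    rw [mul_inv_rev, mul_smul, inv_smul_smul]
  have hδ : (0 : ℝ) < 1 / (4 * (C + 1)) := by positivity
  have hN : ∀ᶠ y in 𝓝 x, ∀ k ∈ K', ‖h (k⁻¹ • y) - h (k⁻¹ • x)‖ ≤ 1 / (4 * (C + 1)) := by
    refine hK'.eventually_forall_of_forall_eventually fun k hk => ?_
    have hc : Continuous (fun z : X × G => ‖h (z.2⁻¹ • z.1) - h (z.2⁻¹ • x)‖) := by fun_prop
    have hlt : ‖h (k⁻¹ • x) - h (k⁻¹ • x)‖ < 1 / (4 * (C + 1)) := by simpa using hδ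
    exact (hc.tendsto (x, k)).eventually_le_const hlt
  refine ⟨Φ, hΦc, B, hB, _, hN, fun y hy g hg g' hg' => ?_⟩
  have hy' : ∀ k ∈ K', ‖h (k⁻¹ • y) - h (k⁻¹ • x)‖ ≤ 1 / (4 * (C + 1)) := hy
  have e1 : (Φ (g • y) - Φ (g' • y)) - (Φ (g • x) - Φ (g' • x)) =
      ∫ k, (u (g * k) - u (g' * k)) • (h (k⁻¹ • y) - h (k⁻¹ • x))
        ∂(Measure.haar : Measure G) := by
    rw [hleft, hleft, hleft, hleft, ← integral_sub (hI g hg y) (hI g' hg' y),
      ← integral_sub (hI g hg x) (hI g' hg' x)]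
    refine (integral_sub ((hI g hg y).sub (hI g' hg' y))
      ((hI g hg x).sub (hI g' hg' x))).symm.trans ?_
    refine integral_congr_ae (Eventually.of_forall fun k => ?_)
    simp only [sub_smul, smul_sub, Pi.sub_apply]
  have hd : Continuous (fun k : G => |u (g * k) - u (g' * k)|) := ((hug g).sub (hug g')).abs
  have hdI : Integrable (fun k : G => |u (g * k) - u (g' * k)|) (Measure.haar : Measure G) :=
    hd.integrable_of_hasCompactSupport (HasCompactSupport.intro hK' fun k hk => by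
      simp [hzero g hg k hk, hzero g' hg' k hk])
  have b1 : ‖(Φ (g • y) - Φ (g' • y)) - (Φ (g • x) - Φ (g' • x))‖ ≤ 1 / 4 * ‖χ g - χ g'‖ := by
    rw [e1]
    have s1 : ‖∫ k, (u (g * k) - u (g' * k)) • (h (k⁻¹ • y) - h (k⁻¹ • x))
        ∂(Measure.haar : Measure G)‖ ≤
        ∫ k, |u (g * k) - u (g' * k)| * (1 / (4 * (C + 1))) ∂(Measure.haar : Measure G) := by
      refine norm_integral_le_of_norm_le (hdI.mul_const _) (Eventually.of_forall fun k => ?_)
      rw [norm_smul, Real.norm_eq_abs]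
      by_cases hk : k ∈ K'
      · exact mul_le_mul_of_nonneg_left (hy' k hk) (abs_nonneg _)
      · simp [hzero g hg k hk, hzero g' hg' k hk]
    refine s1.trans ?_
    rw [integral_mul_const]
    have s2 := hest g (hBs hg).2 g' (hBs hg').2
    have s3 : C * (1 / (4 * (C + 1))) ≤ 1 / 4 := by
      rw [mul_one_div, div_le_div_iff₀ (by positivity) (by norm_num)]
      nlinarith
    calc (∫ k, |u (g * k) - u (g' * k)| ∂(Measure.haar : Measure G)) * (1 / (4 * (C + 1)))
        ≤ (C * ‖χ g - χ g'‖) * (1 / (4 * (C + 1))) := mul_le_mul_of_nonneg_right s2 hδ.le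
      _ = (C * (1 / (4 * (C + 1)))) * ‖χ g - χ g'‖ := by ring
      _ ≤ 1 / 4 * ‖χ g - χ g'‖ := mul_le_mul_of_nonneg_right s3 (norm_nonneg _)
  have huI : Integrable u (Measure.haar : Measure G) :=
    hu.integrable_of_hasCompactSupport (HasCompactSupport.intro hK huK)
  have e2 : (Φ (g • x) - Φ (g' • x)) - (χ g - χ g') =
      ∫ k, u k • ((h (k⁻¹ • g • x) - h (k⁻¹ • g' • x)) - (χ g - χ g'))
        ∂(Measure.haar : Measure G) := by
    have c1 : ∫ k, u k • (χ g - χ g') ∂(Measure.haar : Measure G) = χ g - χ g' := by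
      rw [integral_smul_const, hint, one_smul]
    conv_lhs => rw [← c1]
    rw [hΦ]
    simp only
    rw [← integral_sub (hI' (g • x)) (hI' (g' • x))]
    refine (integral_sub ((hI' (g • x)).sub (hI' (g' • x)))
      (huI.smul_const (χ g - χ g'))).symm.trans ?_
    refine integral_congr_ae (Eventually.of_forall fun k => ?_)
    simp only [smul_sub, Pi.sub_apply]
  have b2 : ‖(Φ (g • x) - Φ (g' • x)) - (χ g - χ g')‖ ≤ 1 / 4 * ‖χ g - χ g'‖ := by
    rw [e2]
    have s1 : ‖∫ k, u k • ((h (k⁻¹ • g • x) - h (k⁻¹ • g' • x)) - (χ g - χ g'))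
        ∂(Measure.haar : Measure G)‖ ≤
        ∫ k, u k * (1 / 4 * ‖χ g - χ g'‖) ∂(Measure.haar : Measure G) := by
      refine norm_integral_le_of_norm_le (huI.mul_const _) (Eventually.of_forall fun k => ?_)
      rw [norm_smul, Real.norm_eq_abs, abs_of_nonneg (hu0 k)]
      by_cases hk : k ∈ K
      · refine mul_le_mul_of_nonneg_left ?_ (hu0 k)
        have hkN := hKN hk
        have a1 : h (k⁻¹ • g • x) = χ (k⁻¹ * g) := by
          rw [← mul_smul]
          exact hhK _ (hMK k hkN.2 g (hBs hg).1.2)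
        have a2 : h (k⁻¹ • g' • x) = χ (k⁻¹ * g') := by
          rw [← mul_smul]
          exact hhK _ (hMK k hkN.2 g' (hBs hg').1.2)
        rw [a1, a2]
        exact hstr k⁻¹ hkN.1 g (hBs hg).1.1 g' (hBs hg').1.1
      · simp [huK k hk]
    refine s1.trans ?_
    rw [integral_mul_const, hint, one_mul]
  calc ‖(Φ (g • y) - Φ (g' • y)) - (χ g - χ g')‖
      = ‖((Φ (g • y) - Φ (g' • y)) - (Φ (g • x) - Φ (g' • x))) +
          ((Φ (g • x) - Φ (g' • x)) - (χ g - χ g'))‖ := by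
        congr 1
        abel
    _ ≤ 1 / 4 * ‖χ g - χ g'‖ + 1 / 4 * ‖χ g - χ g'‖ := (norm_add_le _ _).trans (add_le_add b1 b2)
    _ = 1 / 2 * ‖χ g - χ g'‖ := by ring

end Pool.Agent.Lib.MP_aa9b81_an.Tv
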