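import Pool.Agent.Lib.MP_aa9b81_an.Tv.T0

/-!
# Transversals, part T4: the box of a function
-/

open scoped Topology Manifold ContDiff
open Filter MeasureTheory

noncomputable section

set_option linter.unusedSectionVars false

namespace Pool.Agent.Lib.MP_aa9b81_an.Tv

section Box

variable {G F X : Type} [Group G] [TopologicalSpace G] [IsTopologicalGroup G]
  [LocallyCompactSpace G] [T2Space G]
  [NormedAddCommGroup F] [NormedSpace ℝ F] [FiniteDimensional ℝ F]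
  {χ : OpenPartialHomeomorph G F}
  [TopologicalSpace X] [T2Space X] [LocallyCompactSpace X]
  [MulAction G X] [ContinuousSMul G X]

/-- The box. PROOF: let `B`, `N` be the neighbourhoods of `hΦ`, `B ⊆ χ.source` (shrink), `V` open with
`1 ∈ V`, `V⁻¹ V ⊆ B`, `N'` a compact neighbourhood of `x` in `N`, `T = {y ∈ N' | Φ y = Φ x}`.
`IsBox V T`: if `v t = v' t'` then with `w = v'⁻¹ v ∈ B`: `w t = t'`, `Φ (w t) = Φ t' = Φ x = Φ t = Φ (1 • t)`,
so `χ w = χ 1` by the estimate and `w = 1` (`χ` is injective on the source). `x ∈ core G T`: for a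
neighbourhood `U` of `1` let `ε > 0` be so small that `closedBall (χ 1) ε` is contained in the target and its
image `B' = χ.symm '' closedBall` in `B ∩ U⁻¹`, and that `g • y ∈ N'` for `g ∈ B'`, `y ∈ N''`, `N''` a neighbourhood
of `x` in `N'` with `‖Φ y - Φ x‖ ≤ ε / 2` on it. For `y ∈ N''` the map `a ↦ Φ (χ.symm a • y)` on the ball is
`ApproximatesLinearOn` with the linear map `id` and the constant `1/2`, so it takes the value `Φ x`
(`ApproximatesLinearOn.surjOn_closedBall_of_nonlinearRightInverse`): `g • y ∈ T`, `g⁻¹ ∈ U`. -/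
theorem exists_box_of_fun (hχ1 : (1 : G) ∈ χ.source) {x : X} {Φ : X → F} (hc : Continuous Φ)
    {B : Set G} (hB : B ∈ 𝓝 (1 : G)) {N : Set X} (hN : N ∈ 𝓝 x)
    (hΦ : ∀ y ∈ N, ∀ g ∈ B, ∀ g' ∈ B,
      ‖(Φ (g • y) - Φ (g' • y)) - (χ g - χ g')‖ ≤ 1 / 2 * ‖χ g - χ g'‖) :
    ∃ V : Set G, IsOpen V ∧ (1 : G) ∈ V ∧ ∃ T : Set X, LC.IsBox V T ∧ x ∈ LC.core G T := by
  have : CompleteSpace F := FiniteDimensional.complete ℝ F
  have hB₀ : B ∩ χ.source ∈ 𝓝 (1 : G) := inter_mem hB (χ.open_source.mem_nhds hχ1)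
  have h1B : (1 : G) ∈ B := mem_of_mem_nhds hB
  have h1 : {p : G × G | p.1⁻¹ * p.2 ∈ B ∩ χ.source} ∈ 𝓝 ((1 : G), (1 : G)) := by
    have hc1 : Continuous fun p : G × G => p.1⁻¹ * p.2 := by fun_prop
    refine hc1.continuousAt.preimage_mem_nhds ?_
    simpa using hB₀
  obtain ⟨V₁, V₂, hV₁, h1V₁, hV₂, h1V₂, hV⟩ := mem_nhds_prod_iff'.1 h1
  obtain ⟨N', hN', hN'N, hN'c⟩ := local_compact_nhds hN
  refine ⟨V₁ ∩ V₂, hV₁.inter hV₂, ⟨h1V₁, h1V₂⟩, N' ∩ {y | Φ y = Φ x}, ⟨?_, ?_⟩, ⟨?_, ?_⟩, ?_⟩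
  · exact hN'c.inter_right (isClosed_eq hc continuous_const)
  · intro v hv v' hv' t ht t' ht' he
    obtain ⟨w, hw⟩ : ∃ w : G, w = v'⁻¹ * v := ⟨_, rfl⟩
    have hw1 : w ∈ B ∩ χ.source := by
      rw [hw]
      exact hV (Set.mk_mem_prod hv'.1 hv.2)
    have hw2 : w • t = t' := by
      rw [hw, mul_smul, he, inv_smul_smul]
    have h2 := hΦ t (hN'N ht.1) w hw1.1 1 h1B
    have h3 : Φ t = Φ x := ht.2
    have h4 : Φ t' = Φ x := ht'.2
    rw [hw2, one_smul, h3, h4, sub_self, zero_sub, norm_neg] at h2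
    have h5 : ‖χ w - χ 1‖ = 0 := by
      have := norm_nonneg (χ w - χ 1)
      linarith
    have h6 : w = 1 := χ.injOn hw1.2 hχ1 (sub_eq_zero.1 (norm_eq_zero.1 h5))
    have h7 : v = v' := by
      have h8 : v'⁻¹ * v = 1 := by rw [← hw, h6]
      exact (inv_mul_eq_one.1 h8).symm
    refine ⟨h7, ?_⟩
    rw [h6, one_smul] at hw2
    exact hw2
  · exact mem_of_mem_nhds hN'
  · exact rfl
  · intro U hU
    have h2 : {p : G × X | p.1 • p.2 ∈ N'} ∈ 𝓝 ((1 : G), x) := by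
      have hc1 : Continuous fun p : G × X => p.1 • p.2 := continuous_smul
      refine hc1.continuousAt.preimage_mem_nhds ?_
      simpa using hN'
    obtain ⟨A, hA, N₁, hN₁, hAN⟩ := mem_nhds_prod_iff.1 h2
    have hW : A ∩ (B ∩ χ.source) ∩ U⁻¹ ∈ 𝓝 (1 : G) :=
      inter_mem (inter_mem hA hB₀) (inv_mem_nhds_one G hU)
    have h3 : χ.symm ⁻¹' (A ∩ (B ∩ χ.source) ∩ U⁻¹) ∩ χ.target ∈ 𝓝 (χ 1) := by
      refine inter_mem ?_ (χ.open_target.mem_nhds (χ.map_source hχ1))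
      refine (χ.symm.continuousAt (χ.map_source hχ1)).preimage_mem_nhds ?_
      rw [χ.left_inv hχ1]
      exact hW
    obtain ⟨ε, hε, hεs⟩ := Metric.nhds_basis_closedBall.mem_iff.1 h3
    have h4 : {y : X | ‖Φ y - Φ x‖ < ε / 2} ∈ 𝓝 x := by
      have hc1 : Continuous fun y : X => ‖Φ y - Φ x‖ := (hc.sub continuous_const).norm
      refine (isOpen_lt hc1 continuous_const).mem_nhds ?_
      change ‖Φ x - Φ x‖ < ε / 2
      rw [sub_self, norm_zero]
      exact half_pos hε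
    filter_upwards [hN, hN₁, h4] with y hyN hyN₁ hy
    have hap : ApproximatesLinearOn (fun a : F => Φ (χ.symm a • y)) (ContinuousLinearMap.id ℝ F)
        (Metric.closedBall (χ 1) ε) (1 / 2 : NNReal) := by
      intro a ha b hb
      have ha1 := hεs ha
      have hb1 := hεs hb
      have h5 := hΦ y hyN (χ.symm a) ha1.1.1.2.1 (χ.symm b) hb1.1.1.2.1
      rw [χ.right_inv ha1.2, χ.right_inv hb1.2] at h5
      rw [ContinuousLinearMap.id_apply]
      have h6 : (((1 / 2 : NNReal) : NNReal) : ℝ) = 1 / 2 := by norm_num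
      rw [h6]
      exact h5
    have hsurj := hap.surjOn_closedBall_of_nonlinearRightInverse
      (⟨id, 1, fun z => by simp, fun z => rfl⟩ :
        (ContinuousLinearMap.id ℝ F).NonlinearRightInverse) hε.le subset_rfl
    have h7 : Φ x ∈ Metric.closedBall (Φ (χ.symm (χ 1) • y))
        ((((1 : NNReal) : ℝ)⁻¹ - ((1 / 2 : NNReal) : ℝ)) * ε) := by
      rw [χ.left_inv hχ1, one_smul, Metric.mem_closedBall, dist_comm, dist_eq_norm]
      have h8 : (((1 : NNReal) : ℝ)⁻¹ - ((1 / 2 : NNReal) : ℝ)) * ε = ε / 2 := by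
        norm_num
        ring
      rw [h8]
      exact hy.le
    obtain ⟨a, ha, hae⟩ := hsurj h7
    have ha1 := hεs ha
    refine ⟨(χ.symm a)⁻¹, ha1.1.2, χ.symm a • y, ⟨?_, hae⟩, inv_smul_smul _ _⟩
    exact hAN (Set.mk_mem_prod ha1.1.1.1 hyN₁)

end Box

end Pool.Agent.Lib.MP_aa9b81_an.Tv
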