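import Pool.Agent.Lib.MP_aa9b81_an.Tv.T0

/-!
# Transversals, part T5: boxes at points with trivial stabilizer
-/

open scoped Topology Manifold ContDiff
open Filter MeasureTheory

noncomputable section

set_option linter.unusedSectionVars false

namespace Pool.Agent.Lib.MP_aa9b81_an.Tv

section Free

variable {G X : Type} [Group G] [TopologicalSpace G] [IsTopologicalGroup G]
  [LocallyCompactSpace G] [T2Space G] [TopologicalSpace X] [T2Space X] [LocallyCompactSpace X]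
  [MulAction G X] [ContinuousSMul G X]

/-- Boxes for a larger `V`, at a point with trivial stabilizer. PROOF: let `V₀`, `T₀` be the given box,
`W` a compact set with `V ⊆ W`. There is a compact neighbourhood `N` of `x` such that for
`t, t' ∈ T₀ ∩ N`, `w ∈ W⁻¹ W` with `w t = t'` one has `w ∈ V₀`: the set of the `w ∈ W⁻¹ W` outside of the
(open) `V₀` is compact and `w x ≠ x` there, so there are neighbourhoods of `x` with `w N ∩ N = ∅` for all
these `w` (compactness, `T2`). Then `T = T₀ ∩ N` is a `V`-box: `v t = v' t'`, `w = v'⁻¹ v`, `w t = t' = 1 t'`, so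
`w = 1` by the box property of `T₀` (`w, 1 ∈ V₀`). `x ∈ core G T`: for a neighbourhood `U` of `1` the set of the `u s`,
`u ∈ U ∩ U'`, `s ∈ T₀` is a neighbourhood of `x`, and so is its part with `s ∈ N` (choose `U'` and a neighbourhood
`N₁` of `x` with `U'⁻¹ N₁ ⊆ N`). -/
theorem exists_box_of_free {x : X} (hfree : ∀ g : G, g • x = x → g = 1) {V₀ : Set G}
    (hV₀ : IsOpen V₀) (h1 : (1 : G) ∈ V₀) {T₀ : Set X} (hT₀ : LC.IsBox V₀ T₀)
    (hx : x ∈ LC.core G T₀) {V W : Set G} (hVW : V ⊆ W) (hW : IsCompact W) :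
    ∃ T : Set X, LC.IsBox V T ∧ x ∈ LC.core G T := by
  obtain ⟨D, hD⟩ : ∃ D : Set G, D = (fun p : G × G => p.1⁻¹ * p.2) '' (W ×ˢ W) ∩ V₀ᶜ := ⟨_, rfl⟩
  have hDc : IsCompact D := by
    rw [hD]
    exact ((hW.prod hW).image (continuous_fst.inv.mul continuous_snd)).inter_right
      hV₀.isClosed_compl
  have hD1 : ∀ w ∈ D, w • x ≠ x := fun w hw h => by
    rw [hD] at hw
    exact hw.2 (hfree w h ▸ h1)
  have hev : ∀ᶠ z : X × X in 𝓝 (x, x), ∀ w ∈ D, w • z.1 ≠ z.2 := by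
    refine hDc.eventually_forall_of_forall_eventually fun w hw => ?_
    have ho : IsOpen {z : (X × X) × G | z.2 • z.1.1 ≠ z.1.2} :=
      isOpen_ne_fun (continuous_snd.smul (continuous_fst.comp continuous_fst))
        (continuous_snd.comp continuous_fst)
    exact ho.mem_nhds (hD1 w hw)
  obtain ⟨N₁, hN₁, N₂, hN₂, hN₁₂⟩ := mem_nhds_prod_iff.1 hev
  obtain ⟨N, hN, hNsub, hNc⟩ := local_compact_nhds (Filter.inter_mem hN₁ hN₂)
  refine ⟨T₀ ∩ N, ⟨hT₀.isCompact.inter hNc, ?_⟩, ⟨hx.1, mem_of_mem_nhds hN⟩, ?_⟩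
  · intro v hv v' hv' t ht t' ht' h
    have h2 : (v'⁻¹ * v) • t = t' := by
      rw [mul_smul, h, inv_smul_smul]
    have h3 : v'⁻¹ * v ∈ V₀ := by
      by_contra h4
      have h5 : v'⁻¹ * v ∈ D := by
        rw [hD]
        exact ⟨⟨(v', v), ⟨hVW hv', hVW hv⟩, rfl⟩, h4⟩
      exact hN₁₂ (Set.mk_mem_prod (hNsub ht.2).1 (hNsub ht'.2).2) _ h5 h2
    have h6 := hT₀.inj _ h3 _ h1 t ht.1 t' ht'.1 (by rw [h2, one_smul])
    exact ⟨(inv_mul_eq_one.1 h6.1).symm, h6.2⟩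
  · intro U hU
    have hc : ContinuousAt (fun p : G × X => p.1⁻¹ • p.2) (1, x) :=
      (continuous_fst.inv.smul continuous_snd).continuousAt
    have hc2 : (fun p : G × X => p.1⁻¹ • p.2) ⁻¹' N ∈ 𝓝 ((1 : G), x) := by
      refine hc ?_
      show N ∈ 𝓝 ((1 : G)⁻¹ • x)
      rw [inv_one, one_smul]
      exact hN
    obtain ⟨U', hU', N₃, hN₃, h3⟩ := mem_nhds_prod_iff.1 hc2
    filter_upwards [hx.2 _ (Filter.inter_mem hU hU'), hN₃] with y hy hy3
    obtain ⟨u, hu, s, hs, rfl⟩ := hy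
    refine ⟨u, hu.1, s, ⟨hs, ?_⟩, rfl⟩
    have h4 : u⁻¹ • u • s ∈ N := h3 (Set.mk_mem_prod hu.2 hy3)
    rwa [inv_smul_smul] at h4

end Free

end Pool.Agent.Lib.MP_aa9b81_an.Tv
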