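import Pool.Agent.Lib.MP_aa9b81_an.Tv.T1
import Pool.Agent.Lib.MP_aa9b81_an.Tv.T3
import Pool.Agent.Lib.MP_aa9b81_an.Tv.T4
import Pool.Agent.Lib.MP_aa9b81_an.Tv.T5

/-!
# Transversals, part T6: actions of Lie groups
-/

open scoped Topology Manifold ContDiff
open Filter MeasureTheory

noncomputable section

set_option linter.unusedSectionVars false

namespace Pool.Agent.Lib.MP_aa9b81_an.Tv

section Lie

variable {G X : Type} (F : Type) [Group G] [TopologicalSpace G] [IsTopologicalGroup G]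
  [LocallyCompactSpace G] [T2Space G] [NormedAddCommGroup F] [NormedSpace ℝ F]
  [FiniteDimensional ℝ F] [ChartedSpace F G] {n : WithTop ℕ∞} [LieGroup 𝓘(ℝ, F) n G]
  [TopologicalSpace X] [T2Space X] [LocallyCompactSpace X] [SecondCountableTopology X]
  [MulAction G X] [ContinuousSMul G X]

include F

/-- Points with a discrete stabilizer have local boxes. PROOF: `exists_c1Chart`, `exists_transversal_fun`
(with the Borel structure `borel G`), `exists_box_of_fun`. -/
theorem exists_box_lie (hn : 1 ≤ n) {x : X}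
    (hx : ∃ N ∈ 𝓝 (1 : G), ∀ g ∈ N, g • x = x → g = 1) :
    ∃ V : Set G, IsOpen V ∧ (1 : G) ∈ V ∧ ∃ T : Set X, LC.IsBox V T ∧ x ∈ LC.core G T := by
  let _ : MeasurableSpace G := borel G
  have _ : BorelSpace G := ⟨rfl⟩
  obtain ⟨χ, hχ⟩ := exists_c1Chart (G := G) (F := F) n hn
  obtain ⟨Φ, hc, B, hB, N, hN, hΦ⟩ := exists_transversal_fun hχ hx
  exact exists_box_of_fun hχ.one_mem hc hB hN hΦ

/-- Free actions of Lie groups have `V`-boxes for every relatively compact `V`. -/
theorem hasBoxes_lie_of_free (hn : 1 ≤ n) (hfree : ∀ (x : X) (g : G), g • x = x → g = 1)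
    {V W : Set G} (hVW : V ⊆ W) (hW : IsCompact W) :
    LC.HasBoxes V (fun _ : Set X => True) := by
  intro x
  obtain ⟨V₀, hV₀, h1, T₀, hT₀, hx⟩ := exists_box_lie F hn (x := x)
    ⟨Set.univ, univ_mem, fun g _ => hfree x g⟩
  obtain ⟨T, hT, hxT⟩ := exists_box_of_free (hfree x) hV₀ h1 hT₀ hx hVW hW
  exact ⟨T, hT, trivial, 1, by simpa using hxT⟩

end Lie

end Pool.Agent.Lib.MP_aa9b81_an.Tv
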