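import Pool.Agent.Lib.MP_aa9b81_an.Tv.S3
import Pool.Agent.Lib.MP_aa9b81_an.Tv.J3

/-!
# Transversals, part Y2: `K₁` of a projective limit
-/

open scoped ENNReal Topology CompactlySupported
open Function Filter MeasureTheory

noncomputable section

set_option linter.unusedSectionVars false

namespace Pool.Agent.Lib.MP_aa9b81_an.Tv

open Cut Hs Cb

section Limit

variable {G T A : Type} {B : ℕ → Type} [Group G] [TopologicalSpace G] [IsTopologicalGroup G]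
  [LocallyCompactSpace G] [SecondCountableTopology G] [T2Space G] [MeasurableSpace G] [BorelSpace G]
  [TopologicalSpace T] [T2Space T] [MulAction G T] [ContinuousSMul G T]
  [TopologicalSpace A] [T2Space A] [MulAction G A] [ContinuousSMul G A]
  [∀ n, TopologicalSpace (B n)] [∀ n, T2Space (B n)] [∀ n, MulAction G (B n)]
  [∀ n, ContinuousSMul G (B n)] {q : ∀ n, T → B n} {r : ∀ n, B n → A} {q₀ : T → A}

variable (G) in
/-- The crossed product of `T` is the closure of the union of the crossed products of the `B n`. -/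
def Dens (q : ∀ n, T → B n) : Prop :=
  ∀ a ∈ cpG G ℕ T, ∀ ε : ℝ, 0 < ε → ∃ N, ∀ n, N ≤ n → ∃ b ∈ cpG G ℕ (B n), ‖a - pullG (q n) b‖ ≤ ε

/-- The restriction to `T` is isometric. PROOF: `FamG.norm_le_iff` (or the way of `norm_pullG_le`). -/
theorem norm_pullG_of_surj {p : T → A} (hp : Surjective p) (a : FamG G ℕ A) :
    ‖(pullG p a : FamG G ℕ T)‖ = ‖a‖ := by
  refine le_antisymm (norm_pullG_le p a) ((FamG.norm_le_iff (norm_nonneg _)).2 fun x => ?_)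
  obtain ⟨t, rfl⟩ := hp x
  exact FamG.norm_apply_le (pullG p a : FamG G ℕ T) t

/-- The inverse of a unit near `v`. -/
theorem Y2_inv_near {R : Type} [NormedRing R] (v E : Rˣ) {δ : ℝ}
    (h : ‖(E : R) - (v : R)‖ ≤ δ) (hδ : δ * ‖((v⁻¹ : Rˣ) : R)‖ ≤ 1 / 2) :
    ‖((E⁻¹ : Rˣ) : R) - ((v⁻¹ : Rˣ) : R)‖ ≤
      2 * ‖((v⁻¹ : Rˣ) : R)‖ * ‖((v⁻¹ : Rˣ) : R)‖ * δ := by
  set M : ℝ := ‖((v⁻¹ : Rˣ) : R)‖ with hM
  set X : ℝ := ‖((E⁻¹ : Rˣ) : R)‖ with hX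
  have hM0 : 0 ≤ M := norm_nonneg _
  have hX0 : 0 ≤ X := norm_nonneg _
  have hδ0 : 0 ≤ δ := (norm_nonneg _).trans h
  have e : ((E⁻¹ : Rˣ) : R) - ((v⁻¹ : Rˣ) : R) =
      ((E⁻¹ : Rˣ) : R) * ((v : R) - (E : R)) * ((v⁻¹ : Rˣ) : R) := by
    rw [mul_sub, sub_mul, mul_assoc, Units.mul_inv, mul_one, Units.inv_mul, one_mul]
  have h1 : ‖((E⁻¹ : Rˣ) : R) - ((v⁻¹ : Rˣ) : R)‖ ≤ X * δ * M := by
    rw [e]
    refine (norm_mul_le _ _).trans ?_
    refine mul_le_mul_of_nonneg_right ?_ hM0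
    refine (norm_mul_le _ _).trans ?_
    refine mul_le_mul_of_nonneg_left ?_ hX0
    rw [norm_sub_rev]
    exact h
  have h2 : X ≤ M + X * δ * M := by
    have h3 : X ≤ ‖((v⁻¹ : Rˣ) : R)‖ + ‖((E⁻¹ : Rˣ) : R) - ((v⁻¹ : Rˣ) : R)‖ := by
      have h4 : ((E⁻¹ : Rˣ) : R) =
          ((v⁻¹ : Rˣ) : R) + (((E⁻¹ : Rˣ) : R) - ((v⁻¹ : Rˣ) : R)) := by abel
      calc X = ‖((v⁻¹ : Rˣ) : R) + (((E⁻¹ : Rˣ) : R) - ((v⁻¹ : Rˣ) : R))‖ := by rw [← h4]
        _ ≤ _ := norm_add_le _ _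
    linarith
  have h3 : X * δ * M ≤ X * (1 / 2) := by
    rw [mul_assoc]
    exact mul_le_mul_of_nonneg_left hδ hX0
  have h4 : X ≤ 2 * M := by linarith
  refine h1.trans ?_
  have h5 : X * δ * M ≤ 2 * M * δ * M :=
    mul_le_mul_of_nonneg_right (mul_le_mul_of_nonneg_right h4 hδ0) hM0
  linarith

/-- The product of units near `v` and `w`. -/
theorem Y2_mul_near {R : Type} [NormedRing R] (v w E F : R) {δ : ℝ} (hδ1 : δ ≤ 1)
    (h : ‖E - v‖ ≤ δ) (h' : ‖F - w‖ ≤ δ) :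
    ‖E * F - v * w‖ ≤ δ * (‖v‖ + ‖w‖ + 1) := by
  have hδ0 : 0 ≤ δ := (norm_nonneg _).trans h
  have e : E * F - v * w = (E - v) * F + v * (F - w) := by noncomm_ring
  have hF : ‖F‖ ≤ ‖w‖ + 1 := by
    have h4 : F = w + (F - w) := by abel
    rw [h4]
    refine (norm_add_le _ _).trans ?_
    linarith
  rw [e]
  refine (norm_add_le _ _).trans ?_
  have h1 : ‖(E - v) * F‖ ≤ δ * (‖w‖ + 1) :=
    (norm_mul_le _ _).trans (mul_le_mul h hF (norm_nonneg _) hδ0)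
  have h2 : ‖v * (F - w)‖ ≤ ‖v‖ * δ :=
    (norm_mul_le _ _).trans (mul_le_mul_of_nonneg_left h' (norm_nonneg _))
  linarith

/-- Elements of `E1` of the limit are approximated by elements of `E1` of the `B n`. -/
theorem exists_E1_near (hd : Dens G q) (hqs : ∀ n, Surjective (q n))
    (hqp : ∀ n, IsProperMap (q n)) (hqe : ∀ n (g : G) t, q n (g • t) = g • q n t)
    {v : (FamG G ℕ T)ˣ} (hv : v ∈ E1 (cpG G ℕ T)) {ε : ℝ} (hε : 0 < ε) :
    ∃ N, ∀ n, N ≤ n → ∃ e ∈ E1 (cpG G ℕ (B n)),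
      ‖((pullU (q n) e : (FamG G ℕ T)ˣ) : FamG G ℕ T) - (v : FamG G ℕ T)‖ ≤ ε := by
  revert ε
  refine Subgroup.closure_induction
    (p := fun (v : (FamG G ℕ T)ˣ) _ => ∀ {ε : ℝ}, 0 < ε → ∃ N, ∀ n, N ≤ n →
    ∃ e ∈ E1 (cpG G ℕ (B n)),
      ‖((pullU (q n) e : (FamG G ℕ T)ˣ) : FamG G ℕ T) - (v : FamG G ℕ T)‖ ≤ ε) ?_ ?_ ?_ ?_ hv
  · rintro v ⟨hv1, hv2⟩ ε hε
    set a : FamG G ℕ T := (v : FamG G ℕ T) - 1 with ha
    have hδ : 0 < min ε ((1 - ‖a‖) / 2) := lt_min hε (by linarith)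
    obtain ⟨N, hN⟩ := hd a hv1.1 _ hδ
    refine ⟨N, fun n hn => ?_⟩
    obtain ⟨b, hb, hab⟩ := hN n hn
    have h1 : ‖b‖ < 1 := by
      rw [← norm_pullG_of_surj (hqs n) b]
      have e : (pullG (q n) b : FamG G ℕ T) = a - (a - pullG (q n) b) := by abel
      rw [e]
      refine (norm_sub_le _ _).trans_lt ?_
      have h2 := hab.trans (min_le_right _ _)
      linarith
    obtain ⟨u, hu, hub⟩ := exists_unit_one_add isClosed_cpG hb h1
    refine ⟨u, mem_E1_of_small hu ?_, ?_⟩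
    · rw [hub, add_sub_cancel_left]
      exact h1
    · have e : ((pullU (q n) u : (FamG G ℕ T)ˣ) : FamG G ℕ T) - (v : FamG G ℕ T) =
          -(a - pullG (q n) b) := by
        have e1 : ((pullU (q n) u : (FamG G ℕ T)ˣ) : FamG G ℕ T) =
          pullG (q n) (u : FamG G ℕ (B n)) := rfl
        rw [e1, hub, map_add, map_one, ha]
        abel
      rw [e, norm_neg]
      exact hab.trans (min_le_left _ _)
  · intro ε hε
    refine ⟨0, fun n _ => ⟨1, one_mem _, ?_⟩⟩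
    rw [map_one, sub_self, norm_zero]
    exact hε.le
  · intro v w _ _ hv hw ε hε
    set C : ℝ := ‖(v : FamG G ℕ T)‖ + ‖(w : FamG G ℕ T)‖ + 1 with hC
    have hC0 : 0 < C := by positivity
    have hδ : 0 < min 1 (ε / C) := lt_min one_pos (div_pos hε hC0)
    obtain ⟨N, hN⟩ := hv hδ
    obtain ⟨N', hN'⟩ := hw hδ
    refine ⟨max N N', fun n hn => ?_⟩
    obtain ⟨e, he, h1⟩ := hN n ((le_max_left _ _).trans hn)
    obtain ⟨f, hf, h2⟩ := hN' n ((le_max_right _ _).trans hn)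
    refine ⟨e * f, mul_mem he hf, ?_⟩
    rw [map_mul, Units.val_mul, Units.val_mul]
    refine (Y2_mul_near _ _ _ _ (min_le_left _ _) h1 h2).trans ?_
    have h3 : min 1 (ε / C) * C ≤ ε / C * C := mul_le_mul_of_nonneg_right (min_le_right _ _) hC0.le
    rwa [div_mul_cancel₀ _ hC0.ne'] at h3
  · intro v _ hv ε hε
    set M : ℝ := ‖((v⁻¹ : (FamG G ℕ T)ˣ) : FamG G ℕ T)‖ with hM
    have hM0 : 0 ≤ M := norm_nonneg _
    have hδ : 0 < min (1 / (2 * (M + 1))) (ε / (2 * (M + 1) * (M + 1))) :=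
      lt_min (by positivity) (by positivity)
    obtain ⟨N, hN⟩ := hv hδ
    refine ⟨N, fun n hn => ?_⟩
    obtain ⟨e, he, h1⟩ := hN n hn
    refine ⟨e⁻¹, inv_mem he, ?_⟩
    rw [map_inv]
    set δ : ℝ := min (1 / (2 * (M + 1))) (ε / (2 * (M + 1) * (M + 1))) with hδd
    have h2 : δ * M ≤ 1 / 2 := by
      have h3 : δ * M ≤ 1 / (2 * (M + 1)) * M :=
        mul_le_mul_of_nonneg_right (min_le_left _ _) hM0
      refine h3.trans ?_
      rw [div_mul_eq_mul_div, one_mul, div_le_div_iff₀ (by positivity) two_pos]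
      linarith
    refine (Y2_inv_near v _ h1 h2).trans ?_
    rw [← hM]
    have h4 : 2 * M * M * δ ≤ 2 * (M + 1) * (M + 1) * (ε / (2 * (M + 1) * (M + 1))) := by
      refine mul_le_mul ?_ (min_le_right _ _) hδ.le (by positivity)
      nlinarith
    refine h4.trans (le_of_eq ?_)
    rw [mul_div_cancel₀]
    positivity

/-- Injectivity in the limit. PROOF: `u ∈ GL1 (cpG G ℕ A)`, `pullU q₀ u ∈ E1`. By `exists_E1_near` with
`ε < 1 / (‖u⁻¹‖ + 1)` there are `n` and `e ∈ E1 (cpG G ℕ (B n))` with `‖pullU (q n) e - pullU q₀ u‖ ≤ ε`; `pullU q₀ u =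
pullU (q n) (pullU (r n) u)` and `pullG (q n)` is isometric, so `(pullU (r n) u)⁻¹ * e` is in
`E1` (`mem_E1_of_small`), so `pullU (r n) u ∈ E1` and `u ∈ E1`. -/
theorem InjG.of_limit (hd : Dens G q) (hqs : ∀ n, Surjective (q n))
    (hqp : ∀ n, IsProperMap (q n)) (hqe : ∀ n (g : G) t, q n (g • t) = g • q n t)
    (hrp : ∀ n, IsProperMap (r n)) (hre : ∀ n (g : G) x, r n (g • x) = g • r n x)
    (hrq : ∀ n t, r n (q n t) = q₀ t) (hr : ∀ n, InjG G (r n)) : InjG G q₀ := by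
  intro u hu h
  set M : ℝ := ‖(((pullU q₀ u)⁻¹ : (FamG G ℕ T)ˣ) : FamG G ℕ T)‖ with hM
  have hM0 : 0 ≤ M := norm_nonneg _
  have hε : (0 : ℝ) < 1 / (M + 1) := by positivity
  obtain ⟨n, hn⟩ := exists_E1_near hd hqs hqp hqe h hε
  obtain ⟨e, he, h1⟩ := hn n le_rfl
  have hq0 : pullU q₀ u = pullU (q n) (pullU (r n) u) := by
    have hf : (fun t => r n (q n t)) = q₀ := funext fun t => hrq n t
    rw [← pullU_comp, hf]
  have hw : (pullU (r n) u)⁻¹ * e ∈ E1 (cpG G ℕ (B n)) := by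
    refine mem_E1_of_small (mul_mem (inv_mem (pullU_GL1 (hrp n) (hre n) hu)) (E1_le _ he)) ?_
    rw [← norm_pullG_of_surj (hqs n)]
    have e1 : (pullG (q n) ((((pullU (r n) u)⁻¹ * e : (FamG G ℕ (B n))ˣ) : FamG G ℕ (B n)) - 1) :
        FamG G ℕ T) = (((pullU q₀ u)⁻¹ : (FamG G ℕ T)ˣ) : FamG G ℕ T) *
          (((pullU (q n) e : (FamG G ℕ T)ˣ) : FamG G ℕ T) - (pullU q₀ u : FamG G ℕ T)) := by
      have e2 : (pullG (q n) (((pullU (r n) u)⁻¹ * e : (FamG G ℕ (B n))ˣ) : FamG G ℕ (B n)) :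
          FamG G ℕ T) = (((pullU q₀ u)⁻¹ * pullU (q n) e : (FamG G ℕ T)ˣ) : FamG G ℕ T) := by
        have e3 : (pullU q₀ u)⁻¹ = pullU (q n) (pullU (r n) u)⁻¹ := by rw [hq0, map_inv]
        rw [e3, ← map_mul]
        rfl
      rw [map_sub, map_one, e2, Units.val_mul, mul_sub, Units.inv_mul]
    rw [e1]
    refine lt_of_le_of_lt (norm_mul_le _ _) ?_
    rw [← hM]
    refine lt_of_le_of_lt (mul_le_mul_of_nonneg_left h1 hM0) ?_
    rw [mul_one_div, div_lt_one (by positivity)]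
    linarith
  have h2 : pullU (r n) u = e * ((pullU (r n) u)⁻¹ * e)⁻¹ := by group
  refine hr n u hu ?_
  rw [h2]
  exact mul_mem he (inv_mem hw)

/-- Surjectivity in the limit. PROOF: `v ∈ GL1 (cpG G ℕ T)`; `a = v - 1`, `b = v⁻¹ - 1`; approximate both at the
same level `n` (`Dens`), `exists_unit_of_almost_inverse` gives `w ∈ GL1 (cpG G ℕ (B n))` with
`pullU (q n) w` near `v`, so `(pullU (q n) w)⁻¹ * v ∈ E1` (`mem_E1_of_small` for `v⁻¹ * pullU (q n) w`, exactly as at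
the end of `VanG.of_union` in `J3`); `SurG (r n)` for `w`. -/
theorem SurG.of_limit (hd : Dens G q) (hqs : ∀ n, Surjective (q n))
    (hqp : ∀ n, IsProperMap (q n)) (hqe : ∀ n (g : G) t, q n (g • t) = g • q n t)
    (hrp : ∀ n, IsProperMap (r n)) (hre : ∀ n (g : G) x, r n (g • x) = g • r n x)
    (hrq : ∀ n t, r n (q n t) = q₀ t) (hr : ∀ n, SurG G (r n)) : SurG G q₀ := by
  intro v hv
  set a : FamG G ℕ T := (v : FamG G ℕ T) - 1 with ha
  set b : FamG G ℕ T := ((v⁻¹ : (FamG G ℕ T)ˣ) : FamG G ℕ T) - 1 with hb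
  have hab : a + b + a * b = 0 := by
    have h1 : (v : FamG G ℕ T) * ((v⁻¹ : (FamG G ℕ T)ˣ) : FamG G ℕ T) = 1 := Units.mul_inv v
    have h2 : a + b + a * b = (v : FamG G ℕ T) * ((v⁻¹ : (FamG G ℕ T)ˣ) : FamG G ℕ T) - 1 := by
      rw [ha, hb]
      noncomm_ring
    rw [h2, h1, sub_self]
  have hba : b + a + b * a = 0 := by
    have h1 : ((v⁻¹ : (FamG G ℕ T)ˣ) : FamG G ℕ T) * (v : FamG G ℕ T) = 1 := Units.inv_mul v
    have h2 : b + a + b * a = ((v⁻¹ : (FamG G ℕ T)ˣ) : FamG G ℕ T) * (v : FamG G ℕ T) - 1 := by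
      rw [ha, hb]
      noncomm_ring
    rw [h2, h1, sub_self]
  set M : ℝ := ‖a‖ + ‖b‖ + ‖((v⁻¹ : (FamG G ℕ T)ˣ) : FamG G ℕ T)‖ + 1 with hM
  have hM1 : 1 ≤ M := by
    have := norm_nonneg a
    have := norm_nonneg b
    have := norm_nonneg ((v⁻¹ : (FamG G ℕ T)ˣ) : FamG G ℕ T)
    linarith
  have hMa : ‖a‖ ≤ M := by
    have := norm_nonneg b
    have := norm_nonneg ((v⁻¹ : (FamG G ℕ T)ˣ) : FamG G ℕ T)
    linarith
  have hMb : ‖b‖ ≤ M := by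
    have := norm_nonneg a
    have := norm_nonneg ((v⁻¹ : (FamG G ℕ T)ˣ) : FamG G ℕ T)
    linarith
  have hMv : ‖((v⁻¹ : (FamG G ℕ T)ˣ) : FamG G ℕ T)‖ ≤ M := by
    have := norm_nonneg a
    have := norm_nonneg b
    linarith
  have hδ : (0 : ℝ) < 1 / (8 * M) := by positivity
  obtain ⟨N, hN⟩ := hd a hv.1 _ hδ
  obtain ⟨N', hN'⟩ := hd b hv.2 _ hδ
  obtain ⟨n, hn1, hn2⟩ : ∃ n, N ≤ n ∧ N' ≤ n := ⟨max N N', le_max_left _ _, le_max_right _ _⟩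
  obtain ⟨a₀, ha₀, h1⟩ := hN n hn1
  obtain ⟨b₀, hb₀, h2⟩ := hN' n hn2
  have hδM : 1 / (8 * M) * M = 1 / 8 := by field_simp
  have hδ1 : 1 / (8 * M) ≤ 1 / 8 := by
    rw [← hδM]
    nlinarith
  have hx : ∀ x y X Y : FamG G ℕ T, x + y + x * y = 0 → ‖x‖ ≤ M → ‖y‖ ≤ M →
      ‖x - X‖ ≤ 1 / (8 * M) → ‖y - Y‖ ≤ 1 / (8 * M) → ‖X + Y + X * Y‖ < 1 := by
    intro x y X Y hxy hxM hyM hxX hyY
    have e : X + Y + X * Y = -(x - X) - (y - Y) - (x - X) * Y - x * (y - Y) := by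
      have e1 : X + Y + X * Y = (X + Y + X * Y) - (x + y + x * y) := by rw [hxy, sub_zero]
      rw [e1]
      noncomm_ring
    have hY : ‖Y‖ ≤ M + 1 / 8 := by
      have e2 : Y = y - (y - Y) := by abel
      rw [e2]
      refine (norm_sub_le _ _).trans ?_
      linarith
    have h3 : ‖(x - X) * Y‖ ≤ 1 / (8 * M) * (M + 1 / 8) :=
      (norm_mul_le _ _).trans (mul_le_mul hxX hY (norm_nonneg _) hδ.le)
    have h4 : ‖x * (y - Y)‖ ≤ M * (1 / (8 * M)) :=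
      (norm_mul_le _ _).trans (mul_le_mul hxM hyY (norm_nonneg _) (by linarith))
    rw [e]
    have h5 := norm_sub_le (-(x - X) - (y - Y) - (x - X) * Y) (x * (y - Y))
    have h6 := norm_sub_le (-(x - X) - (y - Y)) ((x - X) * Y)
    have h7 := norm_sub_le (-(x - X)) (y - Y)
    rw [norm_neg] at h7
    have h8 : M * (1 / (8 * M)) = 1 / 8 := by rw [mul_comm]; exact hδM
    have h9 : 1 / (8 * M) * (M + 1 / 8) = 1 / 8 + 1 / (8 * M) * (1 / 8) := by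
      rw [mul_add, hδM]
    nlinarith
  have h3 : ‖a₀ + b₀ + a₀ * b₀‖ < 1 := by
    rw [← norm_pullG_of_surj (hqs n), map_add, map_add, map_mul]
    exact hx a b _ _ hab hMa hMb h1 h2
  have h4 : ‖b₀ + a₀ + b₀ * a₀‖ < 1 := by
    rw [← norm_pullG_of_surj (hqs n), map_add, map_add, map_mul]
    exact hx b a _ _ hba hMb hMa h2 h1
  obtain ⟨w, hw, hwa⟩ := exists_unit_of_almost_inverse isClosed_cpG ha₀ hb₀ h3 h4
  obtain ⟨u, hu, huw⟩ := hr n w hw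
  have hq0 : pullU q₀ u = pullU (q n) (pullU (r n) u) := by
    have hf : (fun t => r n (q n t)) = q₀ := funext fun t => hrq n t
    rw [← pullU_comp, hf]
  have h5 : (pullU q₀ u)⁻¹ * pullU (q n) w ∈ E1 (cpG G ℕ T) := by
    rw [hq0, ← map_inv, ← map_mul]
    exact pullU_E1 (hqp n) (hqe n) huw
  have h6 : v⁻¹ * pullU (q n) w ∈ E1 (cpG G ℕ T) := by
    refine mem_E1_of_small (mul_mem (inv_mem hv) (pullU_GL1 (hqp n) (hqe n) hw)) ?_
    have e : ((v⁻¹ * pullU (q n) w : (FamG G ℕ T)ˣ) : FamG G ℕ T) - 1 =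
        ((v⁻¹ : (FamG G ℕ T)ˣ) : FamG G ℕ T) * ((pullG (q n) a₀ : FamG G ℕ T) - a) := by
      have e1 : ((pullU (q n) w : (FamG G ℕ T)ˣ) : FamG G ℕ T) = 1 + (pullG (q n) a₀ : FamG G ℕ T) := by
        have e2 : ((pullU (q n) w : (FamG G ℕ T)ˣ) : FamG G ℕ T) =
          pullG (q n) (w : FamG G ℕ (B n)) := rfl
        rw [e2, hwa, map_add, map_one]
      have e3 : ((v⁻¹ : (FamG G ℕ T)ˣ) : FamG G ℕ T) * (1 + a) = 1 := by
        rw [ha, add_sub_cancel, Units.inv_mul]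
      have e4 : ((v⁻¹ : (FamG G ℕ T)ˣ) : FamG G ℕ T) * (1 + (pullG (q n) a₀ : FamG G ℕ T)) - 1 =
          ((v⁻¹ : (FamG G ℕ T)ˣ) : FamG G ℕ T) * (1 + (pullG (q n) a₀ : FamG G ℕ T)) -
            ((v⁻¹ : (FamG G ℕ T)ˣ) : FamG G ℕ T) * (1 + a) := by rw [e3]
      rw [Units.val_mul, e1, e4, ← mul_sub, add_sub_add_left_eq_sub]
    rw [e]
    refine lt_of_le_of_lt (norm_mul_le _ _) ?_
    have h7 : ‖(pullG (q n) a₀ : FamG G ℕ T) - a‖ ≤ 1 / (8 * M) := by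
      rw [norm_sub_rev]
      exact h1
    refine lt_of_le_of_lt (mul_le_mul hMv h7 (norm_nonneg _) (by linarith)) ?_
    have h8 : M * (1 / (8 * M)) = 1 / 8 := by rw [mul_comm]; exact hδM
    rw [h8]
    norm_num
  refine ⟨u, hu, ?_⟩
  have h7 : (pullU q₀ u)⁻¹ * v = (pullU q₀ u)⁻¹ * pullU (q n) w * (v⁻¹ * pullU (q n) w)⁻¹ := by
    group
  rw [h7]
  exact mul_mem h5 (inv_mem h6)

end Limit

end Pool.Agent.Lib.MP_aa9b81_an.Tv
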