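import Pool.Agent.Lib.MP_aa9b81_an.Mg.G034

/-!
# Transversals, part Y4: the projective limit of a sequence of spaces
-/

open Function Filter Topology

noncomputable section

set_option linter.unusedSectionVars false

namespace Pool.Agent.Lib.MP_aa9b81_an.Tv

section Lim

variable {S : ℕ → Type} (p : ∀ n, S (n + 1) → S n)

/-- The projective limit. -/
def Lim : Type := {z : ∀ n, S n // ∀ n, p n (z (n + 1)) = z n}

variable {p}

/-- The projections. -/
def Lim.q (n : ℕ) (z : Lim p) : S n := z.1 n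

theorem Lim.p_q (n : ℕ) (z : Lim p) : p n (Lim.q (n + 1) z) = Lim.q n z := z.2 n

theorem Lim.sep {z z' : Lim p} (h : ∀ n, Lim.q n z = Lim.q n z') : z = z' :=
  Subtype.ext (funext h)

/-- PROOF: induction on `n`, for all sequences: for `n = 0` choose preimages recursively; for `n + 1` apply the
case `n` to the sequence `S (m + 1)`, `p (m + 1)` and put `z 0 = p 0 (z' 0)`, `z (m + 1) = z' m`. -/
theorem exists_lift_seq (n : ℕ) : ∀ (S : ℕ → Type) (p : ∀ n, S (n + 1) → S n),
    (∀ n, Surjective (p n)) → ∀ x : S n, ∃ z : ∀ m, S m, (∀ m, p m (z (m + 1)) = z m) ∧ z n = x := by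
  induction n with
  | zero =>
    intro S p h x
    exact ⟨fun m => Nat.rec (motive := S) x (fun m zm => (h m zm).choose) m,
      fun m => (h m _).choose_spec, rfl⟩
  | succ n ih =>
    intro S p h x
    obtain ⟨z, hz, hzx⟩ := ih (fun m => S (m + 1)) (fun m => p (m + 1)) (fun m => h (m + 1)) x
    refine ⟨fun m => Nat.rec (motive := S) (p 0 (z 0)) (fun m _ => z m) m, ?_, hzx⟩
    intro m
    cases m with
    | zero => rfl
    | succ m => exact hz m

theorem Lim.q_surjective (h : ∀ n, Surjective (p n)) (n : ℕ) :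
    Surjective (Lim.q n : Lim p → S n) := by
  intro x
  obtain ⟨z, hz, hzx⟩ := exists_lift_seq n S p h x
  exact ⟨⟨z, hz⟩, hzx⟩

/-- The composite map to the first space. -/
def toZ (p : ∀ n, S (n + 1) → S n) : ∀ n, S n → S 0
  | 0 => id
  | n + 1 => fun x => toZ p n (p n x)

theorem toZ_q (n : ℕ) (z : Lim p) : toZ p n (Lim.q n z) = Lim.q 0 z := by
  induction n with
  | zero => rfl
  | succ n ih =>
    have h : toZ p (n + 1) (Lim.q (n + 1) z) = toZ p n (Lim.q n z) :=
      congrArg (toZ p n) (Lim.p_q n z)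
    rw [h, ih]

variable [∀ n, TopologicalSpace (S n)]

instance : TopologicalSpace (Lim p) := inferInstanceAs (TopologicalSpace {z : ∀ n, S n //
  ∀ n, p n (z (n + 1)) = z n})

instance [∀ n, T2Space (S n)] : T2Space (Lim p) := inferInstanceAs (T2Space {z : ∀ n, S n //
  ∀ n, p n (z (n + 1)) = z n})

instance [∀ n, SecondCountableTopology (S n)] : SecondCountableTopology (Lim p) :=
  TopologicalSpace.Subtype.secondCountableTopology
    ({z | ∀ n, p n (z (n + 1)) = z n} : Set (∀ n, S n))

theorem Lim.continuous_q (n : ℕ) : Continuous (Lim.q n : Lim p → S n) :=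
  (continuous_apply n).comp continuous_subtype_val

/-- PROOF: `isProperMap_iff_ultrafilter`: for an ultrafilter on `Lim p` whose image in `S 0` tends to `x₀`, choose
recursively limits `x n` of its images in `S n` with `p n (x (n + 1)) = x n`, since `p n` is proper. -/
theorem Lim.isProperMap_q_zero (h : ∀ n, IsProperMap (p n)) :
    IsProperMap (Lim.q 0 : Lim p → S 0) := by
  rw [isProperMap_iff_ultrafilter]
  refine ⟨Lim.continuous_q 0, fun 𝒰 x₀ h0 => ?_⟩
  have hstep : ∀ n (y : S n), Tendsto (Lim.q n : Lim p → S n) 𝒰 (𝓝 y) →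
      ∃ y' : S (n + 1), p n y' = y ∧ Tendsto (Lim.q (n + 1) : Lim p → S (n + 1)) 𝒰 (𝓝 y') := by
    intro n y hy
    have h2 : Tendsto (p n) (𝒰.map (Lim.q (n + 1)) : Ultrafilter (S (n + 1))) (𝓝 y) := by
      rw [Ultrafilter.coe_map, tendsto_map'_iff]
      refine hy.congr fun z => ?_
      exact (Lim.p_q n z).symm
    obtain ⟨y', hy', h3⟩ := (isProperMap_iff_ultrafilter.1 (h n)).2 h2
    exact ⟨y', hy', h3⟩
  choose nx hnx hnx' using hstep
  let x : ∀ n, {y : S n // Tendsto (Lim.q n : Lim p → S n) 𝒰 (𝓝 y)} := fun n =>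
    Nat.rec (motive := fun n => {y : S n // Tendsto (Lim.q n : Lim p → S n) 𝒰 (𝓝 y)}) ⟨x₀, h0⟩
      (fun n y => ⟨nx n y.1 y.2, hnx' n y.1 y.2⟩) n
  have hx : ∀ n, p n (x (n + 1)).1 = (x n).1 := fun n => hnx n (x n).1 (x n).2
  refine ⟨⟨fun n => (x n).1, hx⟩, rfl, ?_⟩
  have h4 : Tendsto (fun z : Lim p => z.1) 𝒰 (𝓝 fun n => (x n).1) :=
    tendsto_pi_nhds.2 fun n => (x n).2
  have h5 : Tendsto (fun z : Lim p => z) 𝒰 (𝓝 (⟨fun n => (x n).1, hx⟩ : Lim p)) :=
    tendsto_subtype_rng.2 h4
  exact h5

/-- PROOF: `isProperMap_of_comp_of_t2` (or the like): `toZ p n ∘ Lim.q n = Lim.q 0` is proper, `S n` is Hausdorff. -/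
theorem Lim.isProperMap_q [∀ n, T2Space (S n)] (h : ∀ n, IsProperMap (p n)) (n : ℕ) :
    IsProperMap (Lim.q n : Lim p → S n) := by
  have h2 : Continuous (toZ p n : S n → S 0) := by
    induction n with
    | zero => exact continuous_id
    | succ n ih => exact ih.comp (h n).continuous
  refine isProperMap_of_comp_of_t2 (Lim.continuous_q n) h2 ?_
  have h3 : (toZ p n : S n → S 0) ∘ (Lim.q n : Lim p → S n) = Lim.q 0 :=
    funext fun z => toZ_q n z
  rw [h3]
  exact Lim.isProperMap_q_zero h

theorem isProperMap_toZ (h : ∀ n, IsProperMap (p n)) (n : ℕ) :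
    IsProperMap (toZ p n : S n → S 0) := by
  induction n with
  | zero => exact isProperMap_id
  | succ n ih => exact ih.comp (h n)

theorem toZ_surjective (h : ∀ n, Surjective (p n)) (n : ℕ) :
    Surjective (toZ p n : S n → S 0) := by
  induction n with
  | zero => exact surjective_id
  | succ n ih => exact ih.comp (h n)

/-- PROOF: the preimages under `Lim.q 0` of compact neighbourhoods. -/
theorem Lim.locallyCompactSpace [∀ n, T2Space (S n)] [LocallyCompactSpace (S 0)]
    (h : ∀ n, IsProperMap (p n)) : LocallyCompactSpace (Lim p) := by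
  have : WeaklyLocallyCompactSpace (Lim p) := ⟨fun z => by
    obtain ⟨K, hK, hKz⟩ := exists_compact_mem_nhds (Lim.q 0 z)
    exact ⟨Lim.q 0 ⁻¹' K, (Lim.isProperMap_q_zero h).isCompact_preimage hK,
      (Lim.continuous_q 0).continuousAt.preimage_mem_nhds hKz⟩⟩
  infer_instance

end Lim

section Act

variable {G : Type} [Group G] {S : ℕ → Type} {p : ∀ n, S (n + 1) → S n} [∀ n, MulAction G (S n)]

/-- The equivariance of the maps of the sequence, as a class. -/
class EqSeq (G : Type) [Group G] {S : ℕ → Type} [∀ n, MulAction G (S n)]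
    (p : ∀ n, S (n + 1) → S n) : Prop where
  eq : ∀ n (g : G) x, p n (g • x) = g • p n x

instance [EqSeq G p] : MulAction G (Lim p) where
  smul g z := ⟨fun n => g • z.1 n, fun n =>
    (EqSeq.eq (p := p) n g (z.1 (n + 1))).trans (congrArg (fun x => g • x) (z.2 n))⟩
  one_smul z := Subtype.ext (funext fun n => one_smul G (z.1 n))
  mul_smul g h z := Subtype.ext (funext fun n => mul_smul g h (z.1 n))

theorem Lim.q_smul [EqSeq G p] (n : ℕ) (g : G) (z : Lim p) :
    Lim.q n (g • z) = g • Lim.q n z := rfl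

theorem toZ_smul [EqSeq G p] (n : ℕ) (g : G) (x : S n) :
    toZ p n (g • x) = g • toZ p n x := by
  induction n with
  | zero => rfl
  | succ n ih =>
    change toZ p n (p n (g • x)) = g • toZ p n (p n x)
    rw [EqSeq.eq (p := p) n g x]
    exact ih (p n x)

instance [TopologicalSpace G] [∀ n, TopologicalSpace (S n)] [∀ n, ContinuousSMul G (S n)]
    [EqSeq G p] : ContinuousSMul G (Lim p) where
  continuous_smul := by
    refine Continuous.subtype_mk (continuous_pi fun n => ?_) _
    exact continuous_fst.smul ((Lim.continuous_q n).comp continuous_snd)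

end Act

end Pool.Agent.Lib.MP_aa9b81_an.Tv
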