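import Pool.Agent.Lib.MP_aa9b81_an.Mg.G034

/-!
# Transversals, part Y5: the extension of a proper map over an open invariant subset
-/

open Function Filter Topology

noncomputable section

set_option linter.unusedSectionVars false

namespace Pool.Agent.Lib.MP_aa9b81_an.Tv

open Cut Hs Cb

section Ext

variable {G X Z₁ : Type} [Group G] [TopologicalSpace G] [TopologicalSpace X] [MulAction G X]
  [TopologicalSpace Z₁] [MulAction G Z₁]

/-- The space `Z₁ ⊔ (X ∖ O)` over `X`. -/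
inductive Gl (O : InvSet G X) (p₁ : Z₁ → O.Pt) : Type
  | inl (z : Z₁) : Gl O p₁
  | inr (x : O.cpl.Pt) : Gl O p₁

variable {O : InvSet G X} {p₁ : Z₁ → O.Pt}

/-- The projection to `X`. -/
def Gl.q : Gl O p₁ → X
  | .inl z => O.val (p₁ z)
  | .inr x => O.cpl.val x

/-- The open sets: the preimage in `Z₁` is open, and every point `x` of `X ∖ O` in the set has a neighbourhood in
`X` whose preimage is in the set. -/
instance : TopologicalSpace (Gl O p₁) where
  IsOpen S := IsOpen (Gl.inl ⁻¹' S) ∧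
    ∀ x : O.cpl.Pt, Gl.inr x ∈ S → ∃ W : Set X, IsOpen W ∧ O.cpl.val x ∈ W ∧ Gl.q ⁻¹' W ⊆ S
  isOpen_univ := by
    refine ⟨isOpen_univ, fun x _ => ⟨Set.univ, isOpen_univ, trivial, Set.subset_univ _⟩⟩
  isOpen_inter := by
    rintro S T ⟨hS1, hS2⟩ ⟨hT1, hT2⟩
    refine ⟨hS1.inter hT1, fun x hx => ?_⟩
    obtain ⟨W, hW, hxW, hWS⟩ := hS2 x hx.1
    obtain ⟨W', hW', hxW', hWT⟩ := hT2 x hx.2
    exact ⟨W ∩ W', hW.inter hW', ⟨hxW, hxW'⟩, fun y hy => ⟨hWS hy.1, hWT hy.2⟩⟩
  isOpen_sUnion := by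
    intro 𝒮 h𝒮
    refine ⟨?_, fun x hx => ?_⟩
    · rw [Set.preimage_sUnion]
      exact isOpen_biUnion fun S hS => (h𝒮 S hS).1
    · obtain ⟨S, hS, hxS⟩ := hx
      obtain ⟨W, hW, hxW, hWS⟩ := (h𝒮 S hS).2 x hxS
      exact ⟨W, hW, hxW, fun y hy => ⟨S, hS, hWS hy⟩⟩

theorem Gl.isOpen_iff {S : Set (Gl O p₁)} : IsOpen S ↔ IsOpen (Gl.inl ⁻¹' S) ∧
    ∀ x : O.cpl.Pt, Gl.inr x ∈ S → ∃ W : Set X, IsOpen W ∧ O.cpl.val x ∈ W ∧ Gl.q ⁻¹' W ⊆ S :=
  Iff.rfl

theorem Gl.continuous_q (hp : Continuous p₁) : Continuous (Gl.q : Gl O p₁ → X) := by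
  refine continuous_def.2 fun W hW => Gl.isOpen_iff.2 ⟨?_, fun x hx => ⟨W, hW, hx, le_rfl⟩⟩
  exact hW.preimage (O.continuous_val.comp hp)

theorem Gl.q_inl_mem (z : Z₁) : Gl.q (Gl.inl z : Gl O p₁) ∈ O.carrier := O.val_mem _

theorem Gl.q_inr_mem (x : O.cpl.Pt) : Gl.q (Gl.inr x : Gl O p₁) ∉ O.carrier := O.cpl.val_mem x

theorem Gl.inl_injective : Injective (Gl.inl : Z₁ → Gl O p₁) := fun _ _ h => by injection h

theorem Gl.inr_injective : Injective (Gl.inr : O.cpl.Pt → Gl O p₁) := fun _ _ h => by injection h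

theorem Gl.isOpenEmbedding_inl : IsOpenEmbedding (Gl.inl : Z₁ → Gl O p₁) := by
  refine IsOpenEmbedding.of_continuous_injective_isOpenMap ?_ Gl.inl_injective ?_
  · exact continuous_def.2 fun S hS => hS.1
  · intro U hU
    refine Gl.isOpen_iff.2 ⟨?_, ?_⟩
    · rwa [Set.preimage_image_eq _ Gl.inl_injective]
    · rintro x ⟨z, -, hz⟩
      exact absurd hz (by simp)

theorem Gl.range_inl : Set.range (Gl.inl : Z₁ → Gl O p₁) = (Set.range Gl.inr)ᶜ := by
  ext y
  rcases y with z | x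
  · simp
  · simp

/-- PROOF: an embedding because `Gl.q ∘ Gl.inr` is the inclusion; its range is the complement of the range of
`Gl.inl`. -/
theorem Gl.isClosedEmbedding_inr (hO : IsOpen O.carrier) (hp : Continuous p₁) :
    IsClosedEmbedding (Gl.inr : O.cpl.Pt → Gl O p₁) := by
  have hc : Continuous (Gl.inr : O.cpl.Pt → Gl O p₁) := by
    rw [continuous_iff_continuousAt]
    intro x
    rw [ContinuousAt, tendsto_nhds]
    intro S hS hx
    obtain ⟨W, hW, hxW, hWS⟩ := hS.2 x hx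
    filter_upwards [(hW.preimage O.cpl.continuous_val).mem_nhds hxW] with y hy
    exact hWS hy
  have he : IsEmbedding (Gl.inr : O.cpl.Pt → Gl O p₁) := by
    refine IsEmbedding.of_comp hc (Gl.continuous_q hp) ?_
    exact O.cpl.isEmbedding_val
  refine ⟨he, ?_⟩
  rw [← isOpen_compl_iff, ← Gl.range_inl]
  exact Gl.isOpenEmbedding_inl.isOpen_range

/-- PROOF: `isProperMap_iff_ultrafilter`. If the image of the ultrafilter tends to a point of `O`, then `Z₁` is in the
ultrafilter and `p₁` is proper; if it tends to `x ∉ O` then the ultrafilter tends to `Gl.inr x`. -/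
theorem Gl.isProperMap_q (hO : IsOpen O.carrier) (hp : IsProperMap p₁) :
    IsProperMap (Gl.q : Gl O p₁ → X) := by
  rw [isProperMap_iff_ultrafilter]
  refine ⟨Gl.continuous_q hp.continuous, fun 𝒰 y hy => ?_⟩
  by_cases hyO : y ∈ O.carrier
  · have h1 : Set.range (Gl.inl : Z₁ → Gl O p₁) ∈ 𝒰 := by
      have h2 := hy (hO.mem_nhds hyO)
      refine mem_of_superset h2 ?_
      rintro (z | x) h3
      · exact ⟨z, rfl⟩
      · exact absurd h3 (Gl.q_inr_mem x)
    let 𝒱 : Ultrafilter Z₁ := 𝒰.comap Gl.inl_injective h1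
    have h𝒱 : 𝒱.map (Gl.inl : Z₁ → Gl O p₁) = 𝒰 := by
      refine Ultrafilter.coe_injective ?_
      rw [Ultrafilter.coe_map, Ultrafilter.coe_comap]
      exact map_comap_of_mem h1
    have h2 : Tendsto p₁ 𝒱 (𝓝 (O.pt y hyO)) := by
      rw [O.isEmbedding_val.tendsto_nhds_iff]
      have h3 : Tendsto (Gl.q ∘ (Gl.inl : Z₁ → Gl O p₁)) 𝒱 (𝓝 y) := by
        rw [← h𝒱] at hy
        exact hy
      exact h3
    obtain ⟨z, hz, hle⟩ := (isProperMap_iff_ultrafilter.1 hp).2 h2
    refine ⟨Gl.inl z, ?_, ?_⟩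
    · change O.val (p₁ z) = y
      rw [hz, InvSet.val_pt]
    · rw [← h𝒱, Ultrafilter.coe_map]
      exact (Gl.isOpenEmbedding_inl.continuous.tendsto z).mono_left hle
  · refine ⟨Gl.inr (O.cpl.pt y hyO), rfl, ?_⟩
    rw [le_nhds_iff]
    intro S hS hSo
    obtain ⟨W, hW, hxW, hWS⟩ := hSo.2 _ hS
    exact mem_of_superset (hy (hW.mem_nhds hxW)) hWS

theorem Gl.t2Space [T2Space X] [T2Space Z₁] (hp : Continuous p₁) : T2Space (Gl O p₁) := by
  refine ⟨fun y y' hne => ?_⟩
  by_cases hq : Gl.q y = Gl.q y'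
  · rcases y with z | x <;> rcases y' with z' | x'
    · have hz : z ≠ z' := fun h => hne (by rw [h])
      obtain ⟨U, U', hU, hU', hzU, hzU', hd⟩ := t2_separation hz
      refine ⟨Gl.inl '' U, Gl.inl '' U', Gl.isOpenEmbedding_inl.isOpenMap U hU,
        Gl.isOpenEmbedding_inl.isOpenMap U' hU', ⟨z, hzU, rfl⟩, ⟨z', hzU', rfl⟩, ?_⟩
      exact Set.disjoint_image_of_injective Gl.inl_injective hd
    · exact absurd (hq ▸ Gl.q_inl_mem z) (Gl.q_inr_mem x')
    · exact absurd (hq.symm ▸ Gl.q_inl_mem z') (Gl.q_inr_mem x)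
    · exact absurd (congrArg Gl.inr (O.cpl.val_injective hq)) hne
  · obtain ⟨U, U', hU, hU', hyU, hyU', hd⟩ := t2_separation hq
    exact ⟨Gl.q ⁻¹' U, Gl.q ⁻¹' U', hU.preimage (Gl.continuous_q hp),
      hU'.preimage (Gl.continuous_q hp), hyU, hyU', hd.preimage _⟩

/-- PROOF: preimages of compact neighbourhoods under the proper map `Gl.q`. -/
theorem Gl.locallyCompactSpace [T2Space X] [LocallyCompactSpace X] [T2Space Z₁]
    (hO : IsOpen O.carrier) (hp : IsProperMap p₁) : LocallyCompactSpace (Gl O p₁) := by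
  have h1 : T2Space (Gl O p₁) := Gl.t2Space hp.continuous
  have h2 : WeaklyLocallyCompactSpace (Gl O p₁) := by
    refine ⟨fun y => ?_⟩
    obtain ⟨K, hK, hKy⟩ := exists_compact_mem_nhds (Gl.q y)
    exact ⟨Gl.q ⁻¹' K, (Gl.isProperMap_q hO hp).isCompact_preimage hK,
      (Gl.continuous_q hp.continuous).continuousAt hKy⟩
  infer_instance

/-- PROOF: `isTopologicalBasis_of_isOpen_of_nhds` for the images of the members of a countable base of `Z₁` and
the preimages of the members of a countable base of `X`. -/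
theorem Gl.secondCountable [SecondCountableTopology X] [SecondCountableTopology Z₁]
    (hp : Continuous p₁) : SecondCountableTopology (Gl O p₁) := by
  let ℬ₁ := TopologicalSpace.countableBasis Z₁
  let ℬ₂ := TopologicalSpace.countableBasis X
  have h1 : TopologicalSpace.IsTopologicalBasis
      (((fun U => (Gl.inl : Z₁ → Gl O p₁) '' U) '' ℬ₁) ∪
        ((fun W => (Gl.q : Gl O p₁ → X) ⁻¹' W) '' ℬ₂)) := by
    refine TopologicalSpace.isTopologicalBasis_of_isOpen_of_nhds ?_ ?_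
    · rintro _ (⟨U, hU, rfl⟩ | ⟨W, hW, rfl⟩)
      · exact Gl.isOpenEmbedding_inl.isOpenMap U (TopologicalSpace.isOpen_of_mem_countableBasis hU)
      · exact (TopologicalSpace.isOpen_of_mem_countableBasis hW).preimage (Gl.continuous_q hp)
    · rintro (z | x) S hyS hS
      · obtain ⟨U, hU, hzU, hUS⟩ :=
          (TopologicalSpace.isBasis_countableBasis Z₁).exists_subset_of_mem_open
            (show z ∈ Gl.inl ⁻¹' S from hyS) hS.1
        exact ⟨_, Or.inl ⟨U, hU, rfl⟩, ⟨z, hzU, rfl⟩, Set.image_subset_iff.2 hUS⟩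
      · obtain ⟨W, hW, hxW, hWS⟩ := hS.2 x hyS
        obtain ⟨V, hV, hxV, hVW⟩ :=
          (TopologicalSpace.isBasis_countableBasis X).exists_subset_of_mem_open hxW hW
        exact ⟨_, Or.inr ⟨V, hV, rfl⟩, hxV, (Set.preimage_mono hVW).trans hWS⟩
  exact h1.secondCountableTopology (((TopologicalSpace.countable_countableBasis Z₁).image _).union
    ((TopologicalSpace.countable_countableBasis X).image _))

instance : MulAction G (Gl O p₁) where
  smul g z := match z with
    | .inl z => .inl (g • z)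
    | .inr x => .inr (g • x)
  one_smul z := by
    rcases z with z | x
    · exact congrArg Gl.inl (one_smul G z)
    · exact congrArg Gl.inr (one_smul G x)
  mul_smul g h z := by
    rcases z with z | x
    · exact congrArg Gl.inl (mul_smul g h z)
    · exact congrArg Gl.inr (mul_smul g h x)

theorem Gl.q_smul (hpe : ∀ (g : G) z, p₁ (g • z) = g • p₁ z) (g : G) (z : Gl O p₁) :
    Gl.q (g • z) = g • Gl.q z := by
  rcases z with z | x
  · change O.val (p₁ (g • z)) = g • O.val (p₁ z)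
    rw [hpe, InvSet.val_smul]
  · rfl

/-- PROOF: at `(g, inl z)`: `Gl.isOpenEmbedding_inl`; at `(g, inr x)`: the neighbourhoods of `inr (g • x)` are the
preimages of the neighbourhoods of `g • x`, and `Gl.q (h • y) = h • Gl.q y`. -/
theorem Gl.continuousSMul [ContinuousSMul G X] [ContinuousSMul G Z₁] (hp : Continuous p₁)
    (hpe : ∀ (g : G) z, p₁ (g • z) = g • p₁ z) : ContinuousSMul G (Gl O p₁) := by
  refine ⟨continuous_iff_continuousAt.2 ?_⟩
  rintro ⟨g, z | x⟩
  · have h1 : IsOpenEmbedding (Prod.map id Gl.inl : G × Z₁ → G × Gl O p₁) :=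
      IsOpenEmbedding.id.prodMap Gl.isOpenEmbedding_inl
    have h2 : ContinuousAt ((fun a : G × Gl O p₁ => a.1 • a.2) ∘
        (Prod.map id Gl.inl : G × Z₁ → G × Gl O p₁)) (g, z) := by
      have h3 : ((fun a : G × Gl O p₁ => a.1 • a.2) ∘
          (Prod.map id Gl.inl : G × Z₁ → G × Gl O p₁)) = fun a : G × Z₁ => Gl.inl (a.1 • a.2) := rfl
      rw [h3]
      exact (Gl.isOpenEmbedding_inl.continuous.comp continuous_smul).continuousAt
    exact h1.continuousAt_iff.1 h2
  · rw [ContinuousAt, tendsto_nhds]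
    intro S hS hx
    obtain ⟨W, hW, hxW, hWS⟩ := hS.2 (g • x) hx
    have h1 : Continuous fun a : G × Gl O p₁ => a.1 • Gl.q a.2 :=
      continuous_fst.smul ((Gl.continuous_q hp).comp continuous_snd)
    filter_upwards [(hW.preimage h1).mem_nhds hxW] with a ha
    refine hWS ?_
    change Gl.q (a.1 • a.2) ∈ W
    rw [Gl.q_smul hpe]
    exact ha

/-- THE EXTENSION. -/
theorem exists_extension [T2Space X] [LocallyCompactSpace X] [SecondCountableTopology X]
    [ContinuousSMul G X] [T2Space Z₁] [SecondCountableTopology Z₁] [ContinuousSMul G Z₁]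
    (hO : IsOpen O.carrier) (hp : IsProperMap p₁) (hs : Surjective p₁)
    (hpe : ∀ (g : G) z, p₁ (g • z) = g • p₁ z) :
    ∃ (X' : Type) (_ : TopologicalSpace X') (_ : T2Space X') (_ : LocallyCompactSpace X')
      (_ : SecondCountableTopology X') (_ : MulAction G X') (_ : ContinuousSMul G X')
      (q : X' → X) (i : Z₁ → X') (c : O.cpl.Pt → X'), IsProperMap q ∧ Surjective q ∧
      (∀ (g : G) x, q (g • x) = g • q x) ∧ IsOpenEmbedding i ∧ (∀ (g : G) z, i (g • z) = g • i z) ∧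
      IsClosedEmbedding c ∧ (∀ (g : G) x, c (g • x) = g • c x) ∧
      Set.range i = (Set.range c)ᶜ ∧ (∀ z, q (i z) = O.val (p₁ z)) ∧
      ∀ x, q (c x) = O.cpl.val x := by
  refine ⟨Gl O p₁, inferInstance, Gl.t2Space hp.continuous, Gl.locallyCompactSpace hO hp,
    Gl.secondCountable hp.continuous, inferInstance, Gl.continuousSMul hp.continuous hpe, Gl.q,
    Gl.inl, Gl.inr, Gl.isProperMap_q hO hp, ?_, Gl.q_smul hpe, Gl.isOpenEmbedding_inl,
    fun _ _ => rfl, Gl.isClosedEmbedding_inr hO hp.continuous, fun _ _ => rfl, Gl.range_inl,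
    fun _ => rfl, fun _ => rfl⟩
  intro x
  by_cases hx : x ∈ O.carrier
  · obtain ⟨z, hz⟩ := hs (O.pt x hx)
    refine ⟨Gl.inl z, ?_⟩
    change O.val (p₁ z) = x
    rw [hz, InvSet.val_pt]
  · exact ⟨Gl.inr (O.cpl.pt x hx), rfl⟩

end Ext

end Pool.Agent.Lib.MP_aa9b81_an.Tv
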