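import Pool.Agent.Lib.MP_aa9b81_an.Mg.G052

/-!
# Transversals, part Y7: boxes and totally disconnected sets
-/

open Function Filter Topology

noncomputable section

set_option linter.unusedSectionVars false

namespace Pool.Agent.Lib.MP_aa9b81_an.Tv

open Cut Hs Cb

section Pre

variable {G X X' : Type} [Group G] [TopologicalSpace G] [TopologicalSpace X] [MulAction G X]
  [TopologicalSpace X'] [MulAction G X'] {q : X' → X}

/-- The preimage of a box. -/
theorem isBox_preimage (hq : IsProperMap q) (hqe : ∀ (g : G) x, q (g • x) = g • q x) {V : Set G}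
    {T : Set X} (hT : LC.IsBox V T) : LC.IsBox V (q ⁻¹' T) := by
  refine ⟨hq.isCompact_preimage hT.isCompact, ?_⟩
  intro v hv v' hv' t ht t' ht' h
  have h2 : v • q t = v' • q t' := by rw [← hqe, ← hqe, h]
  obtain ⟨rfl, -⟩ := hT.inj v hv v' hv' (q t) ht (q t') ht' h2
  exact ⟨rfl, by simpa using congrArg (fun x => v⁻¹ • x) h⟩

theorem mem_core_preimage (hq : Continuous q) (hqe : ∀ (g : G) x, q (g • x) = g • q x) {T : Set X}
    {x : X'} (hx : q x ∈ LC.core G T) : x ∈ LC.core G (q ⁻¹' T) := by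
  refine ⟨hx.1, fun U hU => ?_⟩
  filter_upwards [hq.continuousAt.preimage_mem_nhds (hx.2 U hU)] with y hy
  obtain ⟨u, hu, s, hs, hus⟩ := hy
  refine ⟨u, hu, u⁻¹ • y, ?_, smul_inv_smul u y⟩
  show q (u⁻¹ • y) ∈ T
  rw [hqe, ← hus, inv_smul_smul]
  exact hs

theorem boxPt_preimage (hq : IsProperMap q) (hqe : ∀ (g : G) x, q (g • x) = g • q x) {V : Set G}
    {x : X'} (hx : q x ∈ (boxPt V X).carrier) : x ∈ (boxPt V X').carrier := by
  obtain ⟨T, hT, g, hg⟩ := hx
  refine ⟨q ⁻¹' T, isBox_preimage hq hqe hT, g, mem_core_preimage hq.continuous hqe ?_⟩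
  rwa [hqe]

end Pre

section Td

variable {G X : Type} [Group G] [TopologicalSpace G] [IsTopologicalGroup G]
  [LocallyCompactSpace G] [TopologicalSpace X] [T2Space X] [LocallyCompactSpace X] [MulAction G X]
  [ContinuousSMul G X]

/-- A box whose points all have boxes. PROOF: `T ∩ K` as in `hasBoxes_boxPt`. -/
theorem exists_small_box {V : Set G} (hV : IsOpen V) (h1 : (1 : G) ∈ V) {x : X}
    (hx : x ∈ (boxPt V X).carrier) : ∃ T : Set X, LC.IsBox V T ∧ T ⊆ (boxPt V X).carrier ∧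
      ∃ g : G, g • x ∈ LC.core G T := by
  obtain ⟨T, hT, g, hg⟩ := hx
  obtain ⟨K, hK, hKN, hKc⟩ := local_compact_nhds (core_open hV h1 hT hg)
  refine ⟨T ∩ K, ⟨hT.isCompact.inter hKc, fun v hv v' hv' t ht t' ht' h =>
    hT.inj v hv v' hv' t ht.1 t' ht'.1 h⟩, ?_, g, ⟨hg.1, mem_of_mem_nhds hK⟩, fun U hU => ?_⟩
  · rintro s ⟨hsT, hsK⟩
    refine ⟨T, hT, 1, ?_⟩
    rw [one_smul]
    exact hKN hsK hsT
  · filter_upwards [core_decomp hV h1 hT hg hU hK] with y hy
    obtain ⟨u, hu, s, hsT, hsK, hus⟩ := hy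
    exact ⟨u, hu, s, ⟨hsT, hsK⟩, hus⟩

/-- An open invariant set of points with `V`-boxes has `V`-boxes. -/
theorem hasBoxes_of_sub {V : Set G} (hV : IsOpen V) (h1 : (1 : G) ∈ V) {O : InvSet G X}
    (hO : IsOpen O.carrier) (hOX : O.carrier ⊆ (boxPt V X).carrier) :
    LC.HasBoxes V fun _ : Set O.Pt => True := by
  intro x
  obtain ⟨T, hT, g, hg⟩ := hOX x.2
  have hgO : g • O.val x ∈ O.carrier := O.inv g _ x.2
  obtain ⟨K, hK, hKO, hKc⟩ := local_compact_nhds (hO.mem_nhds hgO)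
  have hsub : T ∩ K ⊆ O.carrier := fun s hs => hKO hs.2
  have hemb : Topology.IsEmbedding O.val := Topology.IsEmbedding.subtypeVal
  have hr : T ∩ K ⊆ Set.range O.val := fun s hs => ⟨⟨s, hsub hs⟩, rfl⟩
  have hTK : IsCompact (T ∩ K) := hT.isCompact.inter hKc
  have hTc : IsCompact (O.val ⁻¹' (T ∩ K)) :=
    (hemb.isInducing.isCompact_preimage_iff hr).2 hTK
  have hgK : g • O.val x ∈ K := mem_of_mem_nhds hK
  refine ⟨O.val ⁻¹' (T ∩ K), ⟨hTc, ?_⟩, trivial, g, ⟨⟨hg.1, hgK⟩, fun U hU => ?_⟩⟩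
  · intro v hv v' hv' t ht t' ht' h
    have h2 : v • O.val t = v' • O.val t' := congrArg O.val h
    obtain ⟨h3, h4⟩ := hT.inj v hv v' hv' _ ht.1 _ ht'.1 h2
    exact ⟨h3, O.val_injective h4⟩
  · have h2 := core_decomp hV h1 hT hg hU hK
    have h3 : Tendsto O.val (𝓝 (g • x)) (𝓝 (g • O.val x)) :=
      O.continuous_val.continuousAt
    filter_upwards [h3.eventually h2] with y hy
    obtain ⟨u, hu, s, hsT, hsK, hus⟩ := hy
    exact ⟨u, hu, ⟨s, hsub ⟨hsT, hsK⟩⟩, ⟨hsT, hsK⟩, O.val_injective hus⟩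

/-- A compact set every point of which has a neighbourhood in which it is totally disconnected. PROOF: a
preconnected `C ⊆ T` and `x ∈ C`: take a compact neighbourhood `N' ⊆ N` of `x`; `T ∩ N'` is a compact totally
disconnected space, so `x` has a clopen neighbourhood `D` of it inside the interior of `N'`
(`compact_exists_isClopen_in_isOpen`); `D` is clopen in `T`, so `C ⊆ D ⊆ T ∩ N`. -/
theorem isTotallyDisconnected_of_local {T : Set X} (hT : IsCompact T)
    (h : ∀ x ∈ T, ∃ N ∈ 𝓝 x, IsTotallyDisconnected (T ∩ N)) : IsTotallyDisconnected T := by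
  intro C hC hCp x hx y hy
  obtain ⟨N, hN, hTN⟩ := h x (hC hx)
  obtain ⟨N', hN', hN'N, hN'c⟩ := local_compact_nhds hN
  have hKc : IsCompact (T ∩ N') := hT.inter hN'c
  have hK : CompactSpace (T ∩ N' : Set X) := isCompact_iff_compactSpace.1 hKc
  have hKd : TotallyDisconnectedSpace (T ∩ N' : Set X) := by
    refine totallyDisconnectedSpace_subtype_iff.2 fun D hD hDp => ?_
    exact hTN D (hD.trans (Set.inter_subset_inter_right _ hN'N)) hDp
  let x₀ : (T ∩ N' : Set X) := ⟨x, hC hx, mem_of_mem_nhds hN'⟩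
  have hW : IsOpen ((fun z : (T ∩ N' : Set X) => z.1) ⁻¹' interior N') :=
    isOpen_interior.preimage continuous_subtype_val
  have hxW : x₀ ∈ (fun z : (T ∩ N' : Set X) => z.1) ⁻¹' interior N' :=
    mem_interior_iff_mem_nhds.2 hN'
  obtain ⟨D, hD, hxD, hDW⟩ := compact_exists_isClopen_in_isOpen hW hxW
  obtain ⟨O, hO, hOD⟩ := isOpen_induced_iff.1 hD.isOpen
  have hDc : IsClosed ((fun z : (T ∩ N' : Set X) => z.1) '' D) :=
    (hD.isClosed.isCompact.image continuous_subtype_val).isClosed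
  have hmem : ∀ c ∈ T, c ∈ interior N' → c ∈ O → c ∈ (fun z : (T ∩ N' : Set X) => z.1) '' D := by
    intro c hcT hcN hcO
    refine ⟨⟨c, hcT, interior_subset hcN⟩, ?_, rfl⟩
    rw [← hOD]
    exact hcO
  have hsub : C ⊆ (fun z : (T ∩ N' : Set X) => z.1) '' D := by
    intro c hc
    by_contra hcD
    obtain ⟨c', hc', ⟨hc1, hc2⟩, hc3⟩ := hCp (interior N' ∩ O)
      ((fun z : (T ∩ N' : Set X) => z.1) '' D)ᶜ (isOpen_interior.inter hO) hDc.isOpen_compl
      (fun d hd => by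
        by_cases h2 : d ∈ (fun z : (T ∩ N' : Set X) => z.1) '' D
        · left
          obtain ⟨z, hz, rfl⟩ := h2
          refine ⟨hDW hz, ?_⟩
          have h3 : z ∈ (fun z : (T ∩ N' : Set X) => z.1) ⁻¹' O := by
            have h4 : Subtype.val ⁻¹' O = D := hOD
            show z ∈ Subtype.val ⁻¹' O
            rw [h4]
            exact hz
          exact h3
        · exact Or.inr h2)
      ⟨x, hx, hDW hxD, by
        have h4 : Subtype.val ⁻¹' O = D := hOD
        have h5 : x₀ ∈ Subtype.val ⁻¹' O := by rw [h4]; exact hxD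
        exact h5⟩ ⟨c, hc, hcD⟩
    exact hc3 (hmem c' (hC hc') hc1 hc2)
  refine hTN C (fun c hc => ⟨hC hc, ?_⟩) hCp hx hy
  obtain ⟨z, -, rfl⟩ := hsub hc
  exact hN'N z.2.2

/-- Near a point of a totally disconnected box, a box is totally disconnected. PROOF: let `a • s ∈ core T'`, `T'`
a totally disconnected `V'`-box. Take a compact neighbourhood `U` of `1` with `U ⊆ V'` and `a⁻¹ * u' * u⁻¹ * a ∈ V`
for `u, u' ∈ U`. `N = {x | a • x ∈ U • T'}` is a neighbourhood of `s`. `(u, t) ↦ a⁻¹ • u • t` is a closed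
embedding of the compact space `U × T'`; on `T ∩ N` let `σ` be the second component of its inverse: continuous, with
values in `T'`, and injective: `x = a⁻¹ u t`, `x' = a⁻¹ u' t` give `(a⁻¹ u' u⁻¹ a) • x = 1 • x'`, so `x = x'` since
`T` is a `V`-box. For a preconnected `C ⊆ T ∩ N` the image `σ '' C ⊆ T'` is preconnected, so a point. -/
theorem td_near {V V' : Set G} (hV : IsOpen V) (h1 : (1 : G) ∈ V) (hV' : IsOpen V')
    (h1' : (1 : G) ∈ V') {T T' : Set X} (hT : LC.IsBox V T) (hT' : LC.IsBox V' T')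
    (ht' : IsTotallyDisconnected T') {s : X} {a : G} (hs : a • s ∈ LC.core G T') :
    ∃ N ∈ 𝓝 s, IsTotallyDisconnected (T ∩ N) := by
  have hc : Continuous fun p : G × G => a⁻¹ * p.2 * p.1⁻¹ * a := by fun_prop
  have hV1 : (fun p : G × G => a⁻¹ * p.2 * p.1⁻¹ * a) ⁻¹' V ∈ 𝓝 ((1 : G), (1 : G)) := by
    refine hc.continuousAt.preimage_mem_nhds ?_
    simpa using hV.mem_nhds h1
  rw [mem_nhds_prod_iff] at hV1
  obtain ⟨A, hA, B, hB, hAB⟩ := hV1
  obtain ⟨U, hU, hUs, hUc⟩ := local_compact_nhds (inter_mem (inter_mem hA hB) (hV'.mem_nhds h1'))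
  have hN := hs.2 U hU
  refine ⟨(fun x : X => a • x) ⁻¹' {x : X | ∃ u ∈ U, ∃ s ∈ T', u • s = x},
    (continuous_const_smul a).continuousAt.preimage_mem_nhds hN, ?_⟩
  intro C hC hCp
  have : CompactSpace U := isCompact_iff_compactSpace.1 hUc
  have : CompactSpace T' := isCompact_iff_compactSpace.1 hT'.isCompact
  let f : U × T' → X := fun p => a⁻¹ • ((p.1 : G) • (p.2 : X))
  have hf : Continuous f := by
    change Continuous fun p : U × T' => a⁻¹ • ((p.1 : G) • (p.2 : X))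
    fun_prop
  have hinj : Function.Injective f := by
    rintro ⟨u, t⟩ ⟨u', t'⟩ h
    have h2 : (u : G) • (t : X) = (u' : G) • (t' : X) := smul_left_cancel _ h
    obtain ⟨h3, h4⟩ := hT'.inj u (hUs u.2).2 u' (hUs u'.2).2 t t.2 t' t'.2 h2
    exact Prod.ext (Subtype.ext h3) (Subtype.ext h4)
  have hemb := hf.isClosedEmbedding hinj
  have hrange : C ⊆ Set.range f := by
    intro x hx
    obtain ⟨u, hu, t, ht, hut⟩ := (hC hx).2
    refine ⟨(⟨u, hu⟩, ⟨t, ht⟩), ?_⟩
    change a⁻¹ • (u • t) = x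
    rw [hut, inv_smul_smul]
  have hpre : IsPreconnected (f ⁻¹' C) := by
    rw [← hemb.isInducing.isPreconnected_image, Set.image_preimage_eq_of_subset hrange]
    exact hCp
  have himg : IsPreconnected ((fun p : U × T' => (p.2 : X)) '' (f ⁻¹' C)) := by
    refine hpre.image _ (Continuous.continuousOn ?_)
    fun_prop
  have hsub : ((fun p : U × T' => (p.2 : X)) '' (f ⁻¹' C)).Subsingleton := by
    refine ht' _ ?_ himg
    rintro _ ⟨p, -, rfl⟩
    exact p.2.2
  intro x hx x' hx'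
  obtain ⟨⟨u, t⟩, hut⟩ := hrange hx
  obtain ⟨⟨u', t'⟩, hut'⟩ := hrange hx'
  have htt : (t : X) = t' := by
    refine hsub ⟨(u, t), ?_, rfl⟩ ⟨(u', t'), ?_, rfl⟩
    · change f (u, t) ∈ C
      rw [hut]
      exact hx
    · change f (u', t') ∈ C
      rw [hut']
      exact hx'
  have hx1 : a⁻¹ • ((u : G) • (t : X)) = x := hut
  have hx2 : a⁻¹ • ((u' : G) • (t' : X)) = x' := hut'
  have hv : a⁻¹ * (u' : G) * (u : G)⁻¹ * a ∈ V :=
    hAB (Set.mk_mem_prod (hUs u.2).1.1 (hUs u'.2).1.2)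
  have he : (a⁻¹ * (u' : G) * (u : G)⁻¹ * a) • x = (1 : G) • x' := by
    rw [one_smul, ← hx1, ← hx2, ← htt]
    simp [mul_smul]
  exact (hT.inj _ hv 1 h1 x (hC hx).1 x' (hC hx').1 he).2

/-- A box whose points all have totally disconnected boxes is totally disconnected. -/
theorem isTotallyDisconnected_box {V : Set G} (hV : IsOpen V) (h1 : (1 : G) ∈ V) {T : Set X}
    (hT : LC.IsBox V T) (h : ∀ s ∈ T, ∃ V' : Set G, IsOpen V' ∧ (1 : G) ∈ V' ∧ ∃ T' : Set X,
      LC.IsBox V' T' ∧ IsTotallyDisconnected T' ∧ ∃ a : G, a • s ∈ LC.core G T') :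
    IsTotallyDisconnected T := by
  refine isTotallyDisconnected_of_local hT.isCompact fun s hs => ?_
  obtain ⟨V', hV', h1', T', hT', ht', a, ha⟩ := h s hs
  exact td_near hV h1 hV' h1' hT hT' ht' ha

end Td

end Pool.Agent.Lib.MP_aa9b81_an.Tv
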