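import Pool.Agent.Lib.MP_aa9b81_an.Mg.G034

/-!
# Transversals, part H3a: `FS` is closed; the Fell topology is second countable
-/

open Function Filter Topology

noncomputable section

namespace Pool.Agent.Lib.MP_aa9b81_an.Tv

open Cut Hs Cb

section

variable {G Y : Type} [Group G] [TopologicalSpace G] [IsTopologicalGroup G] [T2Space G]
  [LocallyCompactSpace G] [TopologicalSpace Y] [MulAction G Y] [ContinuousSMul G Y] {V : Set G}

/-- The set `F` is closed. -/
theorem isClosed_FS (hV : V ∈ 𝓝 (1 : G)) (Δ : Df G Y V) {c : Y → ℝ} (hc : Continuous c) :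
    IsClosed (FS Δ c).carrier := by
  rw [← isOpen_compl_iff, isOpen_iff_mem_nhds]
  intro p₀ hp₀
  have hy : Continuous fun p : Prs Δ => p.1.1 := continuous_fst.comp continuous_subtype_val
  have hA : Continuous fun p : Prs Δ => p.1.2 := continuous_snd.comp continuous_subtype_val
  have hfellA := ClV.continuous_iff_fell.1 hA
  have hfellD := ClV.continuous_iff_fell.1 (Δ.cont.comp hy)
  have hcc : Continuous fun q : G × Prs Δ => c (q.1⁻¹ • q.2.1.1) :=
    hc.comp (continuous_fst.inv.smul (hy.comp continuous_snd))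
  have h2 : ∃ i ∈ (Δ.D p₀.1.1).s, (2 / 3 < c (i⁻¹ • p₀.1.1) ∧ i ∉ p₀.1.2.s) ∨
      (c (i⁻¹ • p₀.1.1) < 1 / 3 ∧ i ∈ p₀.1.2.s) := by
    by_contra hn
    push Not at hn
    refine hp₀ fun i hi => ⟨fun h => ?_, fun h => ?_⟩
    · exact (hn i hi).1 h
    · exact (hn i hi).2 h
  obtain ⟨i, hi, h | h⟩ := h2
  · have hop : {q : G × Prs Δ | 2 / 3 < c (q.1⁻¹ • q.2.1.1)} ∈ 𝓝 ((i, p₀) : G × Prs Δ) :=
      (isOpen_lt continuous_const hcc).mem_nhds h.1
    rw [nhds_prod_eq] at hop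
    obtain ⟨N, hN, S, hS, hNS⟩ := mem_prod_iff.1 hop
    have hcl := ClV.isClosed_of_sep (G := G) hV p₀.1.2.sep
    obtain ⟨K, hK, hKN, hKc⟩ := local_compact_nhds (inter_mem hN (hcl.isOpen_compl.mem_nhds h.2))
    have hd : Disjoint K p₀.1.2.s := Set.disjoint_left.2 fun x hx hx' => (hKN hx).2 hx'
    filter_upwards [hS, hfellA.upper p₀ K hKc hd, hfellD.lower p₀ i hi K hK] with p hpS hpd hpn
    obtain ⟨j, hjD, hjK⟩ := hpn
    intro hp
    have h3 : 2 / 3 < c (j⁻¹ • p.1.1) := hNS (Set.mk_mem_prod (hKN hjK).1 hpS)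
    exact Set.disjoint_left.1 hpd hjK ((hp j hjD).1 h3)
  · have hop : {q : G × Prs Δ | c (q.1⁻¹ • q.2.1.1) < 1 / 3} ∈ 𝓝 ((i, p₀) : G × Prs Δ) :=
      (isOpen_lt hcc continuous_const).mem_nhds h.1
    rw [nhds_prod_eq] at hop
    obtain ⟨N, hN, S, hS, hNS⟩ := mem_prod_iff.1 hop
    filter_upwards [hS, hfellA.lower p₀ i h.2 N hN] with p hpS hpn
    obtain ⟨j, hjA, hjN⟩ := hpn
    intro hp
    have h3 : c (j⁻¹ • p.1.1) < 1 / 3 := hNS (Set.mk_mem_prod hjN hpS)
    exact (hp j (p.2 hjA)).2 h3 hjA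

end

section

variable {G : Type} [Group G] [TopologicalSpace G] [IsTopologicalGroup G] [T2Space G]
  [LocallyCompactSpace G] [SecondCountableTopology G] {V : Set G}

/-- The Fell topology is second countable. -/
theorem secondCountable_ClV (hV : V ∈ 𝓝 (1 : G)) : SecondCountableTopology (ClV V) := by
  let b := TopologicalSpace.countableBasis G
  let b' : Set (Set G) := {U ∈ b | IsCompact (closure U)}
  have hb'c : b'.Countable := (TopologicalSpace.countable_countableBasis G).mono fun U hU => hU.1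
  have hb := TopologicalSpace.isBasis_countableBasis G
  -- small basic sets
  have hsmall : ∀ (x : G) (W : Set G), W ∈ 𝓝 x → ∃ U ∈ b', x ∈ U ∧ closure U ⊆ W := by
    intro x W hW
    obtain ⟨K, hK, hKW, hKc⟩ := local_compact_nhds hW
    obtain ⟨U, hU, hxU, hUK⟩ := hb.mem_nhds_iff.1 hK
    have h2 : closure U ⊆ K := closure_minimal hUK hKc.isClosed
    exact ⟨U, ⟨hU, hKc.of_isClosed_subset isClosed_closure h2⟩, hxU, h2.trans hKW⟩
  let F : Set (Set (ClV V)) := ((fun U : Set G => {D : ClV V | Disjoint (closure U) D.s}) '' b') ∪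
    ((fun U : Set G => {D : ClV V | (D.s ∩ U).Nonempty}) '' b')
  have hFc : F.Countable := (hb'c.image _).union (hb'c.image _)
  refine ⟨⟨F, hFc, le_antisymm ?_ ?_⟩⟩
  · refine le_generateFrom ?_
    rintro A (⟨U, hU, rfl⟩ | ⟨U, hU, rfl⟩)
    · exact ClV.isOpen_miss hU.2
    · exact ClV.isOpen_hit (hb.isOpen hU.1)
  · refine le_generateFrom ?_
    rintro A (⟨K, hK, rfl⟩ | ⟨W, hW, rfl⟩)
    · refine (@isOpen_iff_forall_mem_open _ (TopologicalSpace.generateFrom F) _).2 fun D hD => ?_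
      have hcl := ClV.isClosed_of_sep (G := G) hV D.sep
      have h3 : ∀ x ∈ K, ∃ U ∈ b', x ∈ U ∧ closure U ⊆ D.sᶜ := fun x hx =>
        hsmall x _ (hcl.isOpen_compl.mem_nhds fun hx' => Set.disjoint_left.1 hD hx hx')
      choose! U hU hxU hUD using h3
      obtain ⟨t, ht, hKt⟩ := hK.elim_nhds_subcover U fun x hx =>
        (hb.isOpen (hU x hx).1).mem_nhds (hxU x hx)
      refine ⟨⋂ x ∈ t, {D : ClV V | Disjoint (closure (U x)) D.s}, ?_, ?_, ?_⟩
      · intro D' hD'
        refine Set.disjoint_left.2 fun x hx hx' => ?_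
        obtain ⟨y, hy, hxy⟩ := Set.mem_iUnion₂.1 (hKt hx)
        exact Set.disjoint_left.1 (Set.mem_iInter₂.1 hD' y hy) (subset_closure hxy) hx'
      · refine @Set.Finite.isOpen_biInter _ _ (TopologicalSpace.generateFrom F) _ _
          t.finite_toSet fun x hx => ?_
        exact TopologicalSpace.isOpen_generateFrom_of_mem (Or.inl ⟨U x, hU x (ht x hx), rfl⟩)
      · refine Set.mem_iInter₂.2 fun x hx => ?_
        exact Set.disjoint_left.2 fun y hy hy' => hUD x (ht x hx) hy hy'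
    · refine (@isOpen_iff_forall_mem_open _ (TopologicalSpace.generateFrom F) _).2 fun D hD => ?_
      obtain ⟨x, hxD, hxW⟩ := hD
      obtain ⟨U, hU, hxU, hUW⟩ := hsmall x W (hW.mem_nhds hxW)
      refine ⟨{D : ClV V | (D.s ∩ U).Nonempty}, ?_, ?_, ⟨x, hxD, hxU⟩⟩
      · rintro D' ⟨y, hy, hyU⟩
        exact ⟨y, hy, hUW (subset_closure hyU)⟩
      · exact TopologicalSpace.isOpen_generateFrom_of_mem (Or.inr ⟨U, hU, rfl⟩)

end

end Pool.Agent.Lib.MP_aa9b81_an.Tv
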