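import Pool.Agent.Lib.MP_aa9b81_an.Mg.G034

/-!
# Transversals, part H1: a space with boxes has good marks
-/

open Function Filter Topology

noncomputable section

namespace Pool.Agent.Lib.MP_aa9b81_an.Tv

open Cut Hs Cb

section H1

variable {G X : Type} [Group G] [TopologicalSpace G] [IsTopologicalGroup G]
  [LocallyCompactSpace G] [TopologicalSpace X] [T2Space X] [LocallyCompactSpace X]
  [MulAction G X] [ContinuousSMul G X] {V : Set G}

/-- The data at one point. -/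
theorem H1_local (hV : IsOpen V) (h1 : (1 : G) ∈ V)
    (hX : LC.HasBoxes V fun _ : Set X => True) (x : X) :
    ∃ T N K : Set X, LC.IsBox V T ∧ IsOpen N ∧ (∀ t ∈ N, t ∈ T → t ∈ LC.core G T) ∧
      IsCompact K ∧ K ⊆ N ∧ {y : X | ∃ g : G, g • y ∈ LC.core G T ∧
        ∀ᶠ z in 𝓝 (g • y), z ∈ T → z ∈ K} ∈ 𝓝 x := by
  obtain ⟨T, hT, -, g, hg⟩ := hX x
  obtain ⟨N, hN, hNo, hgN⟩ := mem_nhds_iff.1 (core_open hV h1 hT hg)
  obtain ⟨K, hK, hKN, hKc⟩ := local_compact_nhds (hNo.mem_nhds hgN)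
  refine ⟨T, N, K, hT, hNo, fun t ht => hN ht, hKc, hKN, ?_⟩
  have h3 := core_decomp hV h1 hT hg (U := Set.univ) Filter.univ_mem (N := interior K)
    (interior_mem_nhds.2 hK)
  have h4 : Tendsto (fun y : X => g • y) (𝓝 x) (𝓝 (g • x)) :=
    (continuous_const_smul g).tendsto x
  filter_upwards [h4.eventually h3] with y hy
  obtain ⟨u, -, s, hs, hsK, hus⟩ := hy
  have h5 : (u⁻¹ * g) • y = s := by rw [mul_smul, ← hus, inv_smul_smul]
  refine ⟨u⁻¹ * g, ?_, ?_⟩
  · rw [h5]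
    exact hN (hKN (interior_subset hsK)) hs
  · rw [h5]
    filter_upwards [isOpen_interior.mem_nhds hsK] with z hz _
    exact interior_subset hz

theorem exists_marks_good [SecondCountableTopology X] (hV : IsOpen V) (h1 : (1 : G) ∈ V)
    (hX : LC.HasBoxes V fun _ : Set X => True) :
    ∃ (M : Marks V X) (B S : ℕ → Set X), M.Good B S := by
  classical
  rcases isEmpty_or_nonempty X with hE | hE
  · have h0 : LC.IsBox V (∅ : Set X) :=
      ⟨isCompact_empty, fun v _ v' _ t ht => (Set.notMem_empty t ht).elim⟩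
    refine ⟨⟨fun _ => ∅, fun _ _ => 0, fun _ => h0, fun _ => continuous_const, fun _ _ => le_rfl,
      fun _ _ => zero_le_one, fun _ t ht => (Set.notMem_empty t ht).elim⟩, fun _ => ∅, fun _ => ∅,
      ⟨fun _ => h0, fun _ => isCompact_empty, fun _ => le_rfl,
        fun _ t ht => (Set.notMem_empty t ht).elim, fun x => (hE.false x).elim⟩⟩
  choose T N K hT hNo hNc hKc hKN hev using H1_local hV h1 hX
  obtain ⟨t, htc, ht⟩ := TopologicalSpace.countable_cover_nhds hev
  have htne : t.Nonempty := by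
    obtain ⟨x⟩ := hE
    have hx : x ∈ ⋃ y ∈ t, {z : X | ∃ g : G, g • z ∈ LC.core G (T y) ∧
        ∀ᶠ w in 𝓝 (g • z), w ∈ T y → w ∈ K y} := by
      rw [ht]
      exact Set.mem_univ x
    obtain ⟨y, hy, -⟩ := Set.mem_iUnion₂.1 hx
    exact ⟨y, hy⟩
  obtain ⟨a, rfl⟩ := htc.exists_eq_range htne
  have hb := TopologicalSpace.isBasis_countableBasis X
  have hbc : Countable (TopologicalSpace.countableBasis X) :=
    (TopologicalSpace.countable_countableBasis X).to_subtype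
  have hbne : Nonempty (TopologicalSpace.countableBasis X) := by
    obtain ⟨x⟩ := hE
    obtain ⟨U, hU, -⟩ := hb.exists_subset_of_mem_open (Set.mem_univ x) isOpen_univ
    exact ⟨⟨U, hU⟩⟩
  have hm : ∀ i : ℕ × TopologicalSpace.countableBasis X × TopologicalSpace.countableBasis X,
      ∃ m : X → ℝ, Continuous m ∧ (∀ x, 0 ≤ m x) ∧ (∀ x, m x ≤ 1) ∧
        (∀ t ∈ T (a i.1), 0 < m t → t ∈ LC.core G (T (a i.1))) ∧
        (closure (i.2.1 : Set X) ⊆ i.2.2 → (i.2.2 : Set X) ⊆ N (a i.1) →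
          (∀ x ∈ (i.2.1 : Set X), m x = 1) ∧ ∀ x ∉ (i.2.2 : Set X), m x = 0) := by
    intro i
    by_cases hi : closure (i.2.1 : Set X) ⊆ i.2.2 ∧ (i.2.2 : Set X) ⊆ N (a i.1)
    · have hop : IsOpen (i.2.2 : Set X) := hb.isOpen i.2.2.2
      obtain ⟨f, hf0, hf1, hf⟩ := exists_continuous_zero_one_of_isClosed
        (s := (i.2.2 : Set X)ᶜ) (t := closure (i.2.1 : Set X)) hop.isClosed_compl
        isClosed_closure (Set.disjoint_left.2 fun x hx hx' => hx (hi.1 hx'))
      refine ⟨f, f.continuous, fun x => (hf x).1, fun x => (hf x).2, fun y hy hfy => ?_,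
        fun _ _ => ⟨fun x hx => hf1 (subset_closure hx), fun x hx => hf0 hx⟩⟩
      have h6 : y ∈ (i.2.2 : Set X) := by
        by_contra hn
        have h7 : f y = 0 := hf0 hn
        rw [h7] at hfy
        exact lt_irrefl _ hfy
      exact hNc _ y (hi.2 h6) hy
    · exact ⟨fun _ => 0, continuous_const, fun _ => le_rfl, fun _ => zero_le_one,
        fun y _ h => (lt_irrefl _ h).elim, fun h h' => (hi ⟨h, h'⟩).elim⟩
  choose m hmc hm0 hm1 hmT hmS using hm
  obtain ⟨f, hf⟩ := exists_surjective_nat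
    (ℕ × TopologicalSpace.countableBasis X × TopologicalSpace.countableBasis X)
  refine ⟨⟨fun k => T (a (f k).1), fun k => m (f k), fun k => hT _, fun k => hmc _,
    fun k => hm0 _, fun k => hm1 _, fun k => hmT _⟩, fun n => T (a n),
    fun n => T (a n) ∩ K (a n), ⟨fun n => hT _, fun n => ?_, fun n => Set.inter_subset_left,
      fun n y hy y' hy' hne => ?_, fun x => ?_⟩⟩
  · exact (hT _).isCompact.inter_right (hKc _).isClosed
  · have h8 : y ∈ N (a n) ∩ {y'}ᶜ := ⟨hKN _ hy.2, hne⟩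
    obtain ⟨U2, hU2, hyU2, hU2s⟩ := hb.exists_subset_of_mem_open h8
      ((hNo _).inter isOpen_compl_singleton)
    obtain ⟨C, hC, hCc, hCU⟩ := exists_mem_nhds_isClosed_subset
      ((hb.isOpen hU2).mem_nhds hyU2)
    obtain ⟨U1, hU1, hyU1, hU1s⟩ := hb.exists_subset_of_mem_open (mem_interior_iff_mem_nhds.2 hC)
      isOpen_interior
    have h9 : closure U1 ⊆ U2 :=
      (closure_minimal (hU1s.trans interior_subset) hCc).trans hCU
    obtain ⟨k, hk⟩ := hf (n, ⟨U1, hU1⟩, ⟨U2, hU2⟩)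
    obtain ⟨h10, h11⟩ := hmS (n, ⟨U1, hU1⟩, ⟨U2, hU2⟩) h9 fun z hz => (hU2s hz).1
    refine ⟨k, ?_, ?_, ?_⟩
    · show T (a (f k).1) = T (a n)
      rw [hk]
    · show m (f k) y = 1
      rw [hk]
      exact h10 y hyU1
    · show m (f k) y' = 0
      rw [hk]
      exact h11 y' fun h => (hU2s h).2 rfl
  · have hx : x ∈ ⋃ y ∈ Set.range a, {z : X | ∃ g : G, g • z ∈ LC.core G (T y) ∧
        ∀ᶠ w in 𝓝 (g • z), w ∈ T y → w ∈ K y} := by
      rw [ht]
      exact Set.mem_univ x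
    obtain ⟨y, ⟨n, rfl⟩, g, hg, hg'⟩ := Set.mem_iUnion₂.1 hx
    refine ⟨n, g, hg, ?_⟩
    filter_upwards [hg'] with z hz hzT
    exact ⟨hzT, hz hzT⟩

end H1

end Pool.Agent.Lib.MP_aa9b81_an.Tv
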