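import Pool.Agent.Lib.MP_aa9b81_an.Mg.G059
import Pool.Agent.Lib.MP_aa9b81_an.Mc.G0

/-!
# Transversals, part A1: rotations with an angle function
-/

open scoped ENNReal Topology
open Function Filter

noncomputable section

set_option linter.unusedSectionVars false

namespace Pool.Agent.Lib.MP_aa9b81_an.Tv

open Cut Hs Cb
open Mc (UKf UKf_empty UKf_insert UKf_congr UKf_comm UKf_sdiff norm_UKf_le)

variable {I I₀ O O₀ : Type} [DecidableEq I] [DecidableEq I₀] [LinearOrder O] [LinearOrder O₀]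

/-- PROOF: induction on `K`, `Ui_Tr`, `UKf_insert`. -/
theorem UKf_Tr (e₀ : I₀ ↪ O₀) (e : I ↪ O) (s : I₀ ↪ I) (K : Finset I₀) (φ : I → ℝ) :
    (UKf (K.map s) φ : BL (Bs I)).comp (Tr e₀ e s) =
      (Tr e₀ e s).comp (UKf K (fun i => φ (s i)) : BL (Bs I₀)) := by
  classical
  induction K using Finset.induction_on with
  | empty =>
    rw [Finset.map_empty, UKf_empty, UKf_empty]
    rfl
  | insert i K hi ih =>
    have h1 : s i ∉ K.map s := by rw [Finset.mem_map']; exact hi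
    have h2 : ((Uu i (φ (s i)) : (BL (Bs I₀))ˣ) : BL (Bs I₀)) = Ui i (φ (s i)) := rfl
    have h3 : ((Uu (s i) (φ (s i)) : (BL (Bs I))ˣ) : BL (Bs I)) = Ui (s i) (φ (s i)) := rfl
    rw [Finset.map_insert, UKf_insert h1, UKf_insert hi, Units.val_mul, Units.val_mul, h2, h3]
    show (Ui (s i) (φ (s i))).comp ((UKf (K.map s) φ : BL (Bs I)).comp (Tr e₀ e s)) =
      ((Tr e₀ e s).comp (Ui i (φ (s i)))).comp (UKf K (fun i => φ (s i)) : BL (Bs I₀))
    rw [ih, ← Ui_Tr]
    rfl

theorem UKf_inv (K : Finset I) (φ : I → ℝ) :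
    ((UKf K φ)⁻¹ : (BL (Bs I))ˣ).val = (UKf K (-φ) : BL (Bs I)) := by
  classical
  induction K using Finset.induction_on with
  | empty => rw [UKf_empty, UKf_empty, inv_one]
  | insert i K hi ih =>
    have h2 : (((Uu i (φ i))⁻¹ : (BL (Bs I))ˣ) : BL (Bs I)) = Ui i (-φ i) := rfl
    have h3 : ((Uu i ((-φ) i) : (BL (Bs I))ˣ) : BL (Bs I)) = Ui i (-φ i) := rfl
    rw [UKf_insert hi, UKf_insert hi, mul_inv_rev, Units.val_mul, Units.val_mul, ih, h2, h3]
    exact (UKf_comm fun j _ => Ui_comm j i ((-φ) j) (-φ i)).1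

theorem adjoint_UKf (K : Finset I) (φ : I → ℝ) :
    ContinuousLinearMap.adjoint (UKf K φ : BL (Bs I)) = (UKf K (-φ) : BL (Bs I)) := by
  classical
  induction K using Finset.induction_on with
  | empty =>
    rw [UKf_empty, UKf_empty]
    exact ContinuousLinearMap.adjoint_id
  | insert i K hi ih =>
    have h2 : ((Uu i (φ i) : (BL (Bs I))ˣ) : BL (Bs I)) = Ui i (φ i) := rfl
    have h3 : ((Uu i ((-φ) i) : (BL (Bs I))ˣ) : BL (Bs I)) = Ui i (-φ i) := rfl
    rw [UKf_insert hi, UKf_insert hi, Units.val_mul, Units.val_mul, h2, h3]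
    show ContinuousLinearMap.adjoint ((Ui i (φ i)).comp (UKf K φ : BL (Bs I))) = _
    rw [ContinuousLinearMap.adjoint_comp, ih, adjoint_Ui]
    exact (UKf_comm fun j _ => Ui_comm j i ((-φ) j) (-φ i)).1

theorem UKf_mul_UKf_neg (K : Finset I) (φ : I → ℝ) :
    (UKf K φ : BL (Bs I)) * (UKf K (-φ) : BL (Bs I)) = 1 := by
  rw [← UKf_inv, Units.mul_inv]

theorem UKf_neg_mul_UKf (K : Finset I) (φ : I → ℝ) :
    (UKf K (-φ) : BL (Bs I)) * (UKf K φ : BL (Bs I)) = 1 := by
  rw [← UKf_inv, Units.inv_mul]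

theorem UKf_of_zero {K : Finset I} {φ : I → ℝ} (h : ∀ i ∈ K, φ i = 0) : UKf K φ = 1 := by
  classical
  induction K using Finset.induction_on with
  | empty => rw [UKf_empty]
  | insert i K hi ih =>
    rw [UKf_insert hi, ih fun j hj => h j (Finset.mem_insert_of_mem hj),
      h i (Finset.mem_insert_self i K), mul_one]
    refine Units.ext ?_
    show Ui i 0 = 1
    exact Ui_zero i

theorem UKf_const (K : Finset I) (θ : ℝ) : UKf K (fun _ => θ) = UK K θ := by
  classical
  induction K using Finset.induction_on with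
  | empty => rw [UKf_empty, UK_empty]
  | insert i K hi ih => rw [UKf_insert hi, UK_insert hi, ih]

theorem norm_UKf (K : Finset I) (φ : I → ℝ) : ‖(UKf K φ : BL (Bs I))‖ ≤ 1 := (norm_UKf_le K φ).1

end Pool.Agent.Lib.MP_aa9b81_an.Tv
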