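import Pool.Agent.Lib.MP_aa9b81_an.Tv.A9

/-!
# Transversals, part A10: stage 2 with angles
-/

open scoped ENNReal Topology CompactlySupported
open Function Filter MeasureTheory

noncomputable section

set_option linter.unusedSectionVars false

namespace Pool.Agent.Lib.MP_aa9b81_an.Tv

open Cut Hs Cb
open Mc (UKf UKf_empty UKf_insert UKf_congr UKf_comm UKf_sdiff norm_UKf_le)

variable {G O Y P : Type} [Group G] [TopologicalSpace G] [IsTopologicalGroup G]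
  [LocallyCompactSpace G] [SecondCountableTopology G] [T2Space G] [MeasurableSpace G]
  [BorelSpace G] [DecidableEq G] [LinearOrder O]
  [TopologicalSpace Y] [MulAction G Y] [TopologicalSpace P] [MulAction G P]
  {V : Set G} {Δ : Df G Y V}

variable [T2Space Y] [LocallyCompactSpace Y] [ContinuousSMul G Y] [T2Space P]
  [LocallyCompactSpace P] [ContinuousSMul G P] [T2Space (Prs Δ)] [ContinuousSMul G (Prs Δ)]

/-- The commutation with the projections onto a label. PROOF: `SH.induction` for the set of the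
families `y` with `Commute (y.fn b) (cm (prj κ k))`; on the generators `oS_apply` (`Sy_nA`, with
`exists_wc`, `exists_part`), `opk_comm_prj`, `absS_nA`, `rot_comm_dia` (`continuous_gA`, `dep_gA`;
`prj κ k` is `dia` of the function `if κ β = k then 1 else 0`). -/
theorem SHA_comm_prj (hV : IsOpen V) (h1 : (1 : G) ∈ V) (e : G ↪ O) {θ : Y → ℝ}
    (hθ : Continuous θ) {Th : FamG G ℕ (Prs Δ × P) → FamG G (ℕ × Bs G) (Y × P)}
    (h : SH e Th (nA Δ θ)) {x : FamG G ℕ (Prs Δ × P)} (hx : x ∈ cpG G ℕ (Prs Δ × P)) (b : Y × P)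
    {K : Type} (κ : Bs G → K) (k : K)
    (hκ : ∀ i ∈ (Δ.D b.1).s, aS θ b.1 i = 0 ∨ aS θ b.1 i = Real.pi / 2 ∨
      ∀ β, κ (fl i β) = κ β) :
    Commute ((Th x).fn b) (cm (prj κ k)) := by
  classical
  obtain ⟨χ⟩ := exists_part (G := G) (hV.mem_nhds h1)
  obtain ⟨W⟩ := exists_wc (G := G)
  obtain ⟨p, hp⟩ : ∃ p : HG G (ℕ × Bs G) →L[ℂ] HG G (ℕ × Bs G), p = cm (prj κ k) := ⟨_, rfl⟩
  rw [← hp]
  refine h.induction (S := {y | Commute (y.fn b) p}) ?_ ?_ ?_ ?_ x hx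
  · have hc : Continuous fun y : FamG G (ℕ × Bs G) (Y × P) => y.fn b := by
      refine Metric.continuous_iff.2 fun y ε hε => ⟨ε, hε, fun z hz => ?_⟩
      rw [dist_eq_norm] at hz ⊢
      refine lt_of_le_of_lt ?_ hz
      exact FamG.norm_apply_le (z - y) b
    exact isClosed_eq (hc.mul continuous_const) (continuous_const.mul hc)
  · exact Commute.zero_left p
  · intro y hy z hz
    exact Commute.add_left hy hz
  · intro φ i j
    have hφ : Cc (Prs Δ × P) G fun b g => φ (b, g) := ⟨φ.continuous, φ.hasCompactSupport⟩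
    have hn := Sy_nA χ hV h1 e W hθ hφ
    obtain ⟨C, M, hk⟩ := KOK_absS hn
    show Commute ((oS e (nA Δ θ fun b g => φ (b, g)) i j).fn b) p
    rw [oS_apply hn, hp]
    refine opk_comm_prj (hk b i j) fun a a' => ?_
    rw [absS_nA (hV.mem_nhds h1) e θ hφ b a a']
    unfold prj
    refine rot_comm_dia (continuous_gA hV h1 hφ b a a') (dep_gA _ b a a') zero_le_one
      (fun β => by split_ifs <;> simp) fun i' hi' => ?_
    rcases hκ i' hi' with h2 | h2 | h2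
    · exact Or.inl h2
    · exact Or.inr (Or.inl h2)
    · exact Or.inr (Or.inr fun β => by rw [h2])

/-- STAGE 2 WITH ANGLES. PROOF: as `Cb.stage2`: the path `s ↦ nA Δ (s θ)`, `s ∈ [0, 1]`; `Th s` from
`exists_SHA` for `s θ`; at `s = 0` the homomorphism is `Thr (rP Δ)` on the crossed product (`SH.eq`,
`SH_Thr` with `rP_smul`, `nA_zero`), at `s = 1` it is `Th₁` (`SH.eq`); `continuousOn_Th` with
`nA_time`, `nA_eq_zero`; `path_E1`. -/
theorem stage2A (χ : Cb.Part V) (hV : IsOpen V) (h1 : (1 : G) ∈ V) (e : G ↪ O) (W : Wc G)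
    {θ : Y → ℝ} (hθ : Continuous θ) {C : ℝ} (hθC : ∀ y, |θ y| ≤ C)
    {Th₁ : FamG G ℕ (Prs Δ × P) → FamG G (ℕ × Bs G) (Y × P)} (hTh₁ : SH e Th₁ (nA Δ θ))
    {v : (FamG G ℕ (Prs Δ × P))ˣ} (hv : v ∈ GL1 (cpG G ℕ (Prs Δ × P)))
    {U₀ U₁ : (FamG G (ℕ × Bs ℕ) (Y × P))ˣ}
    (h₀ : (U₀ : FamG G (ℕ × Bs ℕ) (Y × P)) =
      1 + cj χ e (Δ.base P) (pv (Thr (rP Δ)) (Tw e W 0) v - 1))
    (h₁ : (U₁ : FamG G (ℕ × Bs ℕ) (Y × P)) =
      1 + cj χ e (Δ.base P) (pv Th₁ (Tw e W 0) v - 1)) :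
    U₀⁻¹ * U₁ ∈ E1 (cpG G (ℕ × Bs ℕ) (Y × P)) := by
  have hVn : V ∈ 𝓝 (1 : G) := hV.mem_nhds h1
  have hcs : ∀ s : ℝ, Continuous fun y : Y => s * θ y := fun s => continuous_const.mul hθ
  choose Th hTh using fun s : ℝ => exists_SHA (P := P) (Δ := Δ) hV h1 e (hcs s)
  have hSy : ∀ t ∈ Set.Icc (0 : ℝ) 1, ∀ φ : C_c((Prs Δ × P) × G, ℂ),
      Sy χ e (Δ.base P) (Tw e W 0) (nA Δ (fun y => t * θ y) fun b g => φ (b, g)) :=
    fun t _ φ => Sy_nA χ hV h1 e W (hcs t) ⟨φ.continuous, φ.hasCompactSupport⟩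
  have e0 : ∀ x ∈ cpG G ℕ (Prs Δ × P), Thr (rP Δ) x = Th 0 x := by
    have h2 : SH e (Thr (rP Δ) : FamG G ℕ (Prs Δ × P) → FamG G (ℕ × Bs G) (Y × P))
        (nA Δ fun _ => 0) := by
      refine (SH_Thr e (rP_smul (Δ := Δ) (P := P))).congr fun φ => ?_
      rw [nA_zero hVn (⟨φ.continuous, φ.hasCompactSupport⟩ :
        Cc (Prs Δ × P) G fun b g => φ (b, g))]
      rfl
    have h3 : (fun y : Y => (0 : ℝ) * θ y) = fun _ => 0 := by
      funext y
      rw [zero_mul]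
    have h4 := hTh 0
    rw [h3] at h4
    exact h2.eq h4
  have e1 : ∀ x ∈ cpG G ℕ (Prs Δ × P), Th₁ x = Th 1 x := by
    have h3 : (fun y : Y => (1 : ℝ) * θ y) = θ := by
      funext y
      rw [one_mul]
    have h4 := hTh 1
    rw [h3] at h4
    exact hTh₁.eq h4
  refine path_E1 (χ := χ) (Δ := Δ.base P) hVn (Th := Th) (n := fun t => nA Δ fun y => t * θ y)
    (T := fun _ => Tw e W 0) (fun t _ => TOK_Tw χ hVn e W le_rfl zero_le_one) continuousOn_const
    (fun t _ => hTh t) hSy ?_ hv ?_ ?_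
  · refine continuousOn_Th (Δ := Δ.base P) (χ := χ) (T := fun _ => Tw e W 0)
      (n := fun t => nA Δ fun y => t * θ y) (fun t _ => hTh t) hSy (fun φ => ?_) ?_
    · obtain ⟨C', hC', h⟩ := (Cc.mk φ.continuous φ.hasCompactSupport :
        Cc (Prs Δ × P) G fun b g => φ (b, g)).exists_supp
      exact ⟨C', hC', fun t _ b g hg => nA_eq_zero _ (fun b => h b g hg) b⟩
    · intro φ t₀ _ ε hε
      obtain ⟨δ, hδ, h⟩ := nA_time (Δ := Δ) hV h1
        (⟨φ.continuous, φ.hasCompactSupport⟩ : Cc (Prs Δ × P) G fun b g => φ (b, g)) hθC t₀ hε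
      exact ⟨δ, hδ, fun t _ ht b g => h t ht b g⟩
  · rw [h₀, pv_congr hv e0]
  · rw [h₁, pv_congr hv e1]

end Pool.Agent.Lib.MP_aa9b81_an.Tv
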