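import Pool.Agent.Lib.MP_aa9b81_an.Mg.G064
import Pool.Agent.Lib.MP_aa9b81_an.Tv.A1

/-!
# Transversals, part A2: the rotated functions of a set of sites
-/

open scoped ENNReal Topology
open Function Filter

noncomputable section

set_option linter.unusedSectionVars false

namespace Pool.Agent.Lib.MP_aa9b81_an.Tv

open Cut Hs Cb
open Mc (UKf UKf_empty UKf_insert UKf_congr UKf_comm UKf_sdiff norm_UKf_le)

variable {I : Type} [DecidableEq I]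

/-- The rotated function, rotation at the sites of `L`. -/
def rL (L : Finset I) (θ : I → ℝ) (f : (I → Bool) → ℂ) : BL (Bs I) :=
  (UKf L (-θ) : BL (Bs I)) * dF f * (UKf L θ : BL (Bs I))

/-- The rotated function. -/
def rot (θ : I → ℝ) (f : (I → Bool) → ℂ) : BL (Bs I) :=
  limUnder atTop fun L : Finset I => rL L θ f

theorem norm_rL_le {f : (I → Bool) → ℂ} {C : ℝ} (hC : 0 ≤ C) (h : ∀ T, ‖f T‖ ≤ C)
    (L : Finset I) (θ : I → ℝ) : ‖rL L θ f‖ ≤ C :=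
  (norm_mul_mul_le (norm_UKf L (-θ)) (norm_UKf L θ)).trans (norm_dF_le hC h)

theorem norm_rL_sub_le {f f' : (I → Bool) → ℂ} {C C' : ℝ} (hC : 0 ≤ C) (h : ∀ T, ‖f T‖ ≤ C)
    (hC' : 0 ≤ C') (h' : ∀ T, ‖f' T‖ ≤ C') {ε : ℝ} (hε : 0 ≤ ε) (hff : ∀ T, ‖f T - f' T‖ ≤ ε)
    (L : Finset I) (θ : I → ℝ) : ‖rL L θ f - rL L θ f'‖ ≤ ε := by
  have h1 : rL L θ f - rL L θ f' =
      (UKf L (-θ) : BL (Bs I)) * (dF f - dF f') * (UKf L θ : BL (Bs I)) := by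
    unfold rL
    rw [mul_sub, sub_mul]
  rw [h1, dF_sub hC h hC' h']
  exact (norm_mul_mul_le (norm_UKf L (-θ)) (norm_UKf L θ)).trans (norm_dF_le hε hff)

/-- PROOF: `UKf L = UKf (L ∖ L₀) UKf L₀`, and `UKf (L ∖ L₀)` commutes with `dF f`. -/
theorem rL_eq {f : (I → Bool) → ℂ} {C : ℝ} (hC : 0 ≤ C) (h : ∀ T, ‖f T‖ ≤ C) {L₀ L : Finset I}
    (hf : Dep (L₀ : Set I) 0 f) (hL : L₀ ⊆ L) (θ : I → ℝ) : rL L θ f = rL L₀ θ f := by
  have h1 : Commute (UKf (L \ L₀) θ : BL (Bs I)) (dF f) := (UKf_comm fun i hi =>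
    Ui_comm_dF hC h hf (fun h2 => (Finset.mem_sdiff.1 hi).2 (Finset.mem_coe.1 h2)) (θ i)).1
  have h2 : Commute (UKf (L \ L₀) (-θ) : BL (Bs I)) (UKf L₀ (-θ) : BL (Bs I)) :=
    (UKf_comm fun i _ => ((UKf_comm (X := Ui i ((-θ) i)) fun j _ =>
      Ui_comm j i ((-θ) j) ((-θ) i)).1).symm).1
  unfold rL
  rw [UKf_sdiff hL (-θ), UKf_sdiff hL θ, Units.val_mul, Units.val_mul, h2.eq]
  calc (UKf L₀ (-θ) : BL (Bs I)) * (UKf (L \ L₀) (-θ) : BL (Bs I)) * dF f *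
        ((UKf (L \ L₀) θ : BL (Bs I)) * (UKf L₀ θ : BL (Bs I)))
      = (UKf L₀ (-θ) : BL (Bs I)) * (UKf (L \ L₀) (-θ) : BL (Bs I)) *
        (dF f * (UKf (L \ L₀) θ : BL (Bs I))) * (UKf L₀ θ : BL (Bs I)) := by
        simp only [mul_assoc]
    _ = (UKf L₀ (-θ) : BL (Bs I)) * ((UKf (L \ L₀) (-θ) : BL (Bs I)) *
        (UKf (L \ L₀) θ : BL (Bs I))) * dF f * (UKf L₀ θ : BL (Bs I)) := by
        rw [← h1.eq]
        simp only [mul_assoc]
    _ = _ := by rw [UKf_neg_mul_UKf, mul_one]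

/-- PROOF: `norm_rL_sub_le` and `rL_eq` for the restriction. -/
theorem norm_rL_sub_rs_le {f : (I → Bool) → ℂ} {L₀ L : Finset I} {ε : ℝ}
    (hf : Dep (L₀ : Set I) ε f) (hL : L₀ ⊆ L) (θ : I → ℝ) :
    ‖rL L θ f - rL L₀ θ fun T => f (rs L₀ T)‖ ≤ ε := by
  obtain ⟨C, hC, h⟩ := hf.exists_bdd
  have hε : 0 ≤ ε := (norm_nonneg _).trans (hf (fun _ => false) (fun _ => false) fun _ _ => rfl)
  rw [← rL_eq hC (fun T => h (rs L₀ T)) (dep_rs L₀ f) hL θ]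
  exact norm_rL_sub_le hC h hC (fun T => h _) hε (fun T => hf.norm_sub_le T) L θ

/-- The limit exists. PROOF: the net is Cauchy by `norm_rL_sub_rs_le`. -/
theorem tendsto_rot {f : (I → Bool) → ℂ} (hf : Continuous f) (θ : I → ℝ) :
    Tendsto (fun L : Finset I => rL L θ f) atTop (𝓝 (rot θ f)) := by
  have h1 : Cauchy (map (fun L : Finset I => rL L θ f) atTop) := by
    rw [Metric.cauchy_iff]
    refine ⟨inferInstance, fun ε hε => ?_⟩
    obtain ⟨L₀, hL₀⟩ := exists_dep hf (show 0 < ε / 3 by linarith)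
    refine ⟨(fun L : Finset I => rL L θ f) '' Set.Ici L₀, image_mem_map (Ici_mem_atTop L₀), ?_⟩
    rintro _ ⟨L, hL, rfl⟩ _ ⟨L', hL', rfl⟩
    have h2 := norm_rL_sub_rs_le hL₀ (Set.mem_Ici.1 hL) θ
    have h3 := norm_rL_sub_rs_le hL₀ (Set.mem_Ici.1 hL') θ
    rw [dist_eq_norm]
    have h4 : rL L θ f - rL L' θ f = (rL L θ f - rL L₀ θ fun T => f (rs L₀ T)) -
        (rL L' θ f - rL L₀ θ fun T => f (rs L₀ T)) := by abel
    rw [h4]
    have h5 := norm_sub_le (rL L θ f - rL L₀ θ fun T => f (rs L₀ T))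
      (rL L' θ f - rL L₀ θ fun T => f (rs L₀ T))
    linarith
  obtain ⟨x, hx⟩ := CompleteSpace.complete h1
  exact tendsto_nhds_limUnder ⟨x, hx⟩

/-- PROOF: the net is eventually constant. -/
theorem rot_eq {f : (I → Bool) → ℂ} {L : Finset I} (h : Dep (L : Set I) 0 f) (θ : I → ℝ) :
    rot θ f = rL L θ f := by
  obtain ⟨C, hC, hb⟩ := h.exists_bdd
  refine tendsto_nhds_unique (tendsto_rot h.continuous θ) ?_
  refine tendsto_const_nhds.congr' ?_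
  filter_upwards [Ici_mem_atTop L] with L' hL'
  exact (rL_eq hC hb h hL' θ).symm

/-- PROOF: the limit of `norm_rL_sub_rs_le`. -/
theorem norm_rot_sub_le {f : (I → Bool) → ℂ} (hf : Continuous f) {L : Finset I} {ε : ℝ}
    (h : Dep (L : Set I) ε f) (θ : I → ℝ) : ‖rot θ f - rL L θ fun T => f (rs L T)‖ ≤ ε := by
  refine le_of_tendsto ((tendsto_rot hf θ).sub_const _).norm ?_
  filter_upwards [Ici_mem_atTop L] with L' hL'
  exact norm_rL_sub_rs_le h hL' θ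

theorem norm_rot_le {f : (I → Bool) → ℂ} (hf : Continuous f) {C : ℝ} (hC : 0 ≤ C)
    (h : ∀ T, ‖f T‖ ≤ C) (θ : I → ℝ) : ‖rot θ f‖ ≤ C :=
  le_of_tendsto (tendsto_rot hf θ).norm (Eventually.of_forall fun L => norm_rL_le hC h L θ)

end Pool.Agent.Lib.MP_aa9b81_an.Tv
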