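import Pool.Agent.Lib.MP_aa9b81_an.Mg.G065
import Pool.Agent.Lib.MP_aa9b81_an.Tv.A2

/-!
# Transversals, part A3: the rotated functions: algebra, dependence on the angles
-/

open scoped ENNReal Topology
open Function Filter

noncomputable section

set_option linter.unusedSectionVars false

namespace Pool.Agent.Lib.MP_aa9b81_an.Tv

open Cut Hs Cb
open Mc (UKf UKf_empty UKf_insert UKf_congr UKf_comm UKf_sdiff norm_UKf_le)

variable {I : Type} [DecidableEq I]

theorem rL_add {f f' : (I → Bool) → ℂ} {C C' : ℝ} (hC : 0 ≤ C) (h : ∀ T, ‖f T‖ ≤ C)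
    (hC' : 0 ≤ C') (h' : ∀ T, ‖f' T‖ ≤ C') (L : Finset I) (θ : I → ℝ) :
    (rL L θ fun T => f T + f' T) = rL L θ f + rL L θ f' := by
  unfold rL
  rw [← dF_add hC h hC' h', mul_add, add_mul]

theorem rL_smul {f : (I → Bool) → ℂ} {C : ℝ} (hC : 0 ≤ C) (h : ∀ T, ‖f T‖ ≤ C) (c : ℂ)
    (L : Finset I) (θ : I → ℝ) : (rL L θ fun T => c * f T) = c • rL L θ f := by
  unfold rL
  rw [← dF_smul hC h, mul_smul_comm, smul_mul_assoc]

theorem rL_mul {f f' : (I → Bool) → ℂ} {C C' : ℝ} (hC : 0 ≤ C) (h : ∀ T, ‖f T‖ ≤ C)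
    (hC' : 0 ≤ C') (h' : ∀ T, ‖f' T‖ ≤ C') (L : Finset I) (θ : I → ℝ) :
    (rL L θ fun T => f T * f' T) = rL L θ f * rL L θ f' := by
  unfold rL
  rw [← dF_mul hC h hC' h']
  calc (UKf L (-θ) : BL (Bs I)) * (dF f * dF f') * (UKf L θ : BL (Bs I))
      = (UKf L (-θ) : BL (Bs I)) * dF f * 1 * (dF f' * (UKf L θ : BL (Bs I))) := by
        rw [mul_one]
        simp only [mul_assoc]
    _ = _ := by
        rw [← UKf_mul_UKf_neg L θ]
        simp only [mul_assoc]

theorem adjoint_rL {f : (I → Bool) → ℂ} {C : ℝ} (hC : 0 ≤ C) (h : ∀ T, ‖f T‖ ≤ C)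
    (L : Finset I) (θ : I → ℝ) :
    ContinuousLinearMap.adjoint (rL L θ f) = rL L θ fun T => (starRingEnd ℂ) (f T) := by
  have h1 : ∀ A B : BL (Bs I), ContinuousLinearMap.adjoint (A * B) =
      ContinuousLinearMap.adjoint B * ContinuousLinearMap.adjoint A := fun A B =>
    ContinuousLinearMap.adjoint_comp A B
  unfold rL
  rw [h1, h1, adjoint_UKf, adjoint_UKf, neg_neg, adjoint_dF hC h, mul_assoc]

theorem rot_add {f f' : (I → Bool) → ℂ} (hf : Continuous f) (hf' : Continuous f') (θ : I → ℝ) :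
    (rot θ fun T => f T + f' T) = rot θ f + rot θ f' := by
  obtain ⟨C, hC, h⟩ := exists_bdd hf
  obtain ⟨C', hC', h'⟩ := exists_bdd hf'
  refine tendsto_nhds_unique (tendsto_rot (hf.add hf') θ) ?_
  refine ((tendsto_rot hf θ).add (tendsto_rot hf' θ)).congr fun L => ?_
  exact (rL_add hC h hC' h' L θ).symm

theorem rot_smul {f : (I → Bool) → ℂ} (hf : Continuous f) (c : ℂ) (θ : I → ℝ) :
    (rot θ fun T => c * f T) = c • rot θ f := by
  obtain ⟨C, hC, h⟩ := exists_bdd hf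
  refine tendsto_nhds_unique (tendsto_rot (continuous_const.mul hf) θ) ?_
  refine ((tendsto_rot hf θ).const_smul c).congr fun L => ?_
  exact (rL_smul hC h c L θ).symm

theorem rot_sub {f f' : (I → Bool) → ℂ} (hf : Continuous f) (hf' : Continuous f') (θ : I → ℝ) :
    (rot θ fun T => f T - f' T) = rot θ f - rot θ f' := by
  have hc : Continuous fun T => (-1 : ℂ) * f' T := continuous_const.mul hf'
  have h1 := rot_add hf hc θ
  rw [rot_smul hf' (-1) θ, neg_one_smul, ← sub_eq_add_neg] at h1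
  rw [← h1]
  congr 1
  funext T
  ring

theorem rot_mul {f f' : (I → Bool) → ℂ} (hf : Continuous f) (hf' : Continuous f') (θ : I → ℝ) :
    (rot θ fun T => f T * f' T) = rot θ f * rot θ f' := by
  obtain ⟨C, hC, h⟩ := exists_bdd hf
  obtain ⟨C', hC', h'⟩ := exists_bdd hf'
  refine tendsto_nhds_unique (tendsto_rot (hf.mul hf') θ) ?_
  refine ((tendsto_rot hf θ).mul (tendsto_rot hf' θ)).congr fun L => ?_
  exact (rL_mul hC h hC' h' L θ).symm

theorem adjoint_rot {f : (I → Bool) → ℂ} (hf : Continuous f) (θ : I → ℝ) :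
    ContinuousLinearMap.adjoint (rot θ f) = rot θ fun T => (starRingEnd ℂ) (f T) := by
  obtain ⟨C, hC, h⟩ := exists_bdd hf
  have hf' : Continuous fun T => (starRingEnd ℂ) (f T) := Complex.continuous_conj.comp hf
  refine tendsto_nhds_unique ?_ (tendsto_rot hf' θ)
  have h1 : Continuous fun A : BL (Bs I) => ContinuousLinearMap.adjoint A :=
    (ContinuousLinearMap.adjoint (𝕜 := ℂ) (E := L2 (Bs I)) (F := L2 (Bs I))).continuous
  refine ((h1.tendsto _).comp (tendsto_rot hf θ)).congr fun L => ?_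
  exact adjoint_rL hC h L θ

theorem norm_rot_sub_rot_le {f f' : (I → Bool) → ℂ} (hf : Continuous f) (hf' : Continuous f')
    {ε : ℝ} (hε : 0 ≤ ε) (h : ∀ T, ‖f T - f' T‖ ≤ ε) (θ : I → ℝ) : ‖rot θ f - rot θ f'‖ ≤ ε := by
  rw [← rot_sub hf hf' θ]
  exact norm_rot_le (hf.sub hf') hε h θ



theorem norm_UKf_sub_le (L : Finset I) (θ θ' : I → ℝ) :
    ‖(UKf L θ : BL (Bs I)) - (UKf L θ' : BL (Bs I))‖ ≤ 2 * ∑ i ∈ L, |θ i - θ' i| := by
  induction L using Finset.induction_on with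
  | empty =>
    rw [UKf_empty, UKf_empty, sub_self, norm_zero]
    simp
  | insert i L hi ih =>
    have h2 : ((Uu i (θ i) : (BL (Bs I))ˣ) : BL (Bs I)) = Ui i (θ i) := rfl
    have h3 : ((Uu i (θ' i) : (BL (Bs I))ˣ) : BL (Bs I)) = Ui i (θ' i) := rfl
    rw [UKf_insert hi, UKf_insert hi, Units.val_mul, Units.val_mul, h2, h3]
    have h4 : Ui i (θ i) * (UKf L θ : BL (Bs I)) - Ui i (θ' i) * (UKf L θ' : BL (Bs I)) =
        (Ui i (θ i) - Ui i (θ' i)) * (UKf L θ : BL (Bs I)) +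
          Ui i (θ' i) * ((UKf L θ : BL (Bs I)) - (UKf L θ' : BL (Bs I))) := by
      rw [sub_mul, mul_sub]
      abel
    rw [h4, Finset.sum_insert hi]
    refine (norm_add_le _ _).trans ?_
    have h5 := (norm_mul_le (Ui i (θ i) - Ui i (θ' i)) (UKf L θ : BL (Bs I))).trans
      (mul_le_mul (norm_Ui_sub_le i (θ i) (θ' i)) (norm_UKf L θ) (norm_nonneg _) (by positivity))
    have h6 := (norm_mul_le (Ui i (θ' i)) ((UKf L θ : BL (Bs I)) - (UKf L θ' : BL (Bs I)))).trans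
      (mul_le_mul (norm_Ui_le i (θ' i)) ih (norm_nonneg _) zero_le_one)
    linarith


/-! ### Dependence on the angles -/

theorem rL_congr {L : Finset I} {θ θ' : I → ℝ} (h : ∀ i ∈ L, θ i = θ' i)
    (f : (I → Bool) → ℂ) : rL L θ f = rL L θ' f := by
  unfold rL
  rw [UKf_congr h, UKf_congr (φ := -θ) (φ' := -θ') fun i hi => by
    rw [Pi.neg_apply, Pi.neg_apply, h i hi]]

theorem rL_const (L : Finset I) (θ : ℝ) (f : (I → Bool) → ℂ) :
    rL L (fun _ => θ) f = sigL L θ f := rfl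

theorem rot_const (θ : ℝ) (f : (I → Bool) → ℂ) : rot (fun _ => θ) f = sig θ f := rfl

theorem rL_zero {L : Finset I} {θ : I → ℝ} (h : ∀ i ∈ L, θ i = 0) (f : (I → Bool) → ℂ) :
    rL L θ f = dF f := by
  unfold rL
  rw [UKf_of_zero h, UKf_of_zero fun i hi => by rw [Pi.neg_apply, h i hi, neg_zero], Units.val_one,
    one_mul, mul_one]

/-- Only the angles at the sites of `D` matter, if `f` depends only on `D`. -/
theorem rot_congr {f : (I → Bool) → ℂ} (hf : Continuous f) {D : Set I} (hD : Dep D 0 f)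
    {θ θ' : I → ℝ} (h : ∀ i ∈ D, θ i = θ' i) : rot θ f = rot θ' f := by
  classical
  refine eq_of_sub_eq_zero (norm_eq_zero.1 (le_antisymm (le_of_forall_pos_le_add fun ε hε => ?_)
    (norm_nonneg _)))
  obtain ⟨L, hL⟩ := exists_dep hf (show 0 < ε / 2 by linarith)
  have hL0 : ((L : Set I) ∩ D) ⊆ ((L.filter fun i => i ∈ D : Finset I) : Set I) := by
    rintro i ⟨hi, hiD⟩
    exact Finset.mem_coe.2 (Finset.mem_filter.2 ⟨hi, hiD⟩)
  have hL1 := (hD.inter hL).mono hL0 le_rfl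
  have h1 := norm_rot_sub_le hf hL1 θ
  have h2 := norm_rot_sub_le hf hL1 θ'
  rw [rL_congr (θ := θ) (θ' := θ') fun i hi => h i (Finset.mem_filter.1 hi).2] at h1
  rw [norm_sub_rev] at h2
  have h3 := norm_sub_le_norm_sub_add_norm_sub (rot θ f)
    (rL (L.filter fun i => i ∈ D) θ' fun T => f (rs (L.filter fun i => i ∈ D) T)) (rot θ' f)
  linarith

theorem rot_zero {f : (I → Bool) → ℂ} (hf : Continuous f) : rot (0 : I → ℝ) f = dF f := by
  refine tendsto_nhds_unique (tendsto_rot hf 0) ?_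
  exact tendsto_const_nhds.congr fun L => (rL_zero (fun _ _ => rfl) f).symm

theorem rot_of_zero {f : (I → Bool) → ℂ} (hf : Continuous f) {D : Set I} (hD : Dep D 0 f)
    {θ : I → ℝ} (h : ∀ i ∈ D, θ i = 0) : rot θ f = dF f := by
  rw [rot_congr hf hD (θ := θ) (θ' := 0) fun i hi => by rw [h i hi, Pi.zero_apply], rot_zero hf]

/-! ### Continuity in the angles -/

theorem norm_rL_sub_angle {f : (I → Bool) → ℂ} {C : ℝ} (hC : 0 ≤ C) (h : ∀ T, ‖f T‖ ≤ C)
    (L : Finset I) (θ θ' : I → ℝ) :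
    ‖rL L θ f - rL L θ' f‖ ≤ 4 * (∑ i ∈ L, |θ i - θ' i|) * C := by
  unfold rL
  have h1 : (UKf L (-θ) : BL (Bs I)) * dF f * (UKf L θ : BL (Bs I)) -
      (UKf L (-θ') : BL (Bs I)) * dF f * (UKf L θ' : BL (Bs I)) =
      ((UKf L (-θ) : BL (Bs I)) - (UKf L (-θ') : BL (Bs I))) * dF f * (UKf L θ : BL (Bs I)) +
      (UKf L (-θ') : BL (Bs I)) * dF f * ((UKf L θ : BL (Bs I)) - (UKf L θ' : BL (Bs I))) := by
    rw [sub_mul, sub_mul, mul_sub]
    abel
  rw [h1]
  have hf := norm_dF_le hC h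
  have h2 := norm_UKf_sub_le L (-θ) (-θ')
  have h3 := norm_UKf_sub_le L θ θ'
  have h4 : ∑ i ∈ L, |(-θ) i - (-θ') i| = ∑ i ∈ L, |θ i - θ' i| :=
    Finset.sum_congr rfl fun i _ => by
      rw [Pi.neg_apply, Pi.neg_apply, ← abs_neg]
      congr 1
      ring
  rw [h4] at h2
  have h0 : 0 ≤ ∑ i ∈ L, |θ i - θ' i| := Finset.sum_nonneg fun _ _ => abs_nonneg _
  refine (norm_add_le _ _).trans ?_
  have h5 : ‖((UKf L (-θ) : BL (Bs I)) - (UKf L (-θ') : BL (Bs I))) * dF f *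
      (UKf L θ : BL (Bs I))‖ ≤ (2 * ∑ i ∈ L, |θ i - θ' i|) * C * 1 :=
    (norm_mul_le _ _).trans (mul_le_mul ((norm_mul_le _ _).trans
      (mul_le_mul h2 hf (norm_nonneg _) (by positivity))) (norm_UKf L θ) (norm_nonneg _)
      (by positivity))
  have h6 : ‖(UKf L (-θ') : BL (Bs I)) * dF f *
      ((UKf L θ : BL (Bs I)) - (UKf L θ' : BL (Bs I)))‖ ≤
        (1 * C) * (2 * ∑ i ∈ L, |θ i - θ' i|) :=
    (norm_mul_le _ _).trans (mul_le_mul ((norm_mul_le _ _).trans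
      (mul_le_mul (norm_UKf L (-θ')) hf (norm_nonneg _) zero_le_one)) h3 (norm_nonneg _)
      (by positivity))
  linarith

/-- PROOF: `norm_rot_sub_le` for both angles and `norm_rL_sub_angle`. -/
theorem norm_rot_sub_angle {f : (I → Bool) → ℂ} (hf : Continuous f) {C : ℝ} (hC : 0 ≤ C)
    (h : ∀ T, ‖f T‖ ≤ C) {L : Finset I} {ε : ℝ} (hL : Dep (L : Set I) ε f) (θ θ' : I → ℝ) :
    ‖rot θ f - rot θ' f‖ ≤ 2 * ε + 4 * (∑ i ∈ L, |θ i - θ' i|) * C := by
  have h1 := norm_rot_sub_le hf hL θ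
  have h2 := norm_rot_sub_le hf hL θ'
  have h3 := norm_rL_sub_angle hC (fun T => h (rs L T)) L θ θ'
  have h4 : rot θ f - rot θ' f = (rot θ f - rL L θ fun T => f (rs L T)) -
      (rot θ' f - rL L θ' fun T => f (rs L T)) +
      ((rL L θ fun T => f (rs L T)) - rL L θ' fun T => f (rs L T)) := by abel
  rw [h4]
  have h5 := norm_add_le ((rot θ f - rL L θ fun T => f (rs L T)) -
      (rot θ' f - rL L θ' fun T => f (rs L T)))
      ((rL L θ fun T => f (rs L T)) - rL L θ' fun T => f (rs L T))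
  have h6 := norm_sub_le (rot θ f - rL L θ fun T => f (rs L T))
      (rot θ' f - rL L θ' fun T => f (rs L T))
  linarith


theorem rot_zero_fun (θ : I → ℝ) {f : (I → Bool) → ℂ} (h : ∀ T, f T = 0) : rot θ f = 0 := by
  have h1 : f = fun _ => 0 := funext h
  have hf : Continuous f := by
    rw [h1]
    exact continuous_const
  refine norm_eq_zero.1 (le_antisymm ?_ (norm_nonneg _))
  exact norm_rot_le hf le_rfl (fun T => by rw [h T, norm_zero]) θ

/-- A jointly continuous family of functions is norm continuous. PROOF: as `Cb.continuous_sig_fun`. -/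
theorem continuous_rot_fun {Zp : Type} [TopologicalSpace Zp] {k : Zp → (I → Bool) → ℂ}
    (hk : Continuous fun p : Zp × (I → Bool) => k p.1 p.2) (θ : I → ℝ) :
    Continuous fun z => rot θ (k z) := by
  have hk1 : ∀ z, Continuous (k z) := fun z => hk.comp (Continuous.prodMk_right z)
  let F : C(Zp, C(I → Bool, ℂ)) := ContinuousMap.curry ⟨fun p : Zp × (I → Bool) => k p.1 p.2, hk⟩
  rw [continuous_iff_continuousAt]
  intro z₀
  rw [ContinuousAt, tendsto_iff_norm_sub_tendsto_zero]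
  have h1 : Tendsto (fun z => ‖F z - F z₀‖) (𝓝 z₀) (𝓝 0) :=
    tendsto_iff_norm_sub_tendsto_zero.1 (F.continuous.tendsto z₀)
  refine squeeze_zero (fun z => norm_nonneg _) (fun z => ?_) h1
  exact norm_rot_sub_rot_le (hk1 z) (hk1 z₀) (norm_nonneg _)
    (fun T => (F z - F z₀).norm_coe_le_norm T) θ

end Pool.Agent.Lib.MP_aa9b81_an.Tv
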