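import Pool.Agent.Lib.MP_aa9b81_an.Tv.A3
import Pool.Agent.Lib.MP_aa9b81_an.Mg.G065
import Pool.Agent.Lib.MP_aa9b81_an.Mg.G059

/-!
# Transversals, part A4: angles 0 and π / 2
-/

open scoped ENNReal Topology
open Function Filter

noncomputable section

set_option linter.unusedSectionVars false

namespace Pool.Agent.Lib.MP_aa9b81_an.Tv

open Cut Hs Cb
open Mc (UKf UKf_empty UKf_insert UKf_congr UKf_comm UKf_sdiff norm_UKf_le)

variable {I : Type} [DecidableEq I]

theorem flL_fl {i : I} {L : Finset I} (hi : i ∉ L) (b : Bs I) :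
    flL L (fl i b) = fl i (flL L b) := by
  by_cases hS : i ∈ b.S
  · have h3 : i ∈ (flL L b).S := hS
    rw [D6_fl_of_mem hS, D6_fl_of_mem h3]
  · have h3 : i ∉ (flL L b).S := hS
    refine Bs.ext ?_ ?_
    · rw [D6_fl_F h3]
      ext j
      rw [mem_tg, mem_flL, mem_flL, mem_flL, D6_fl_F hS, mem_tg, D7_fl_S]
      by_cases hj : j = i
      · subst hj
        simp [hS, hi]
      · simp [hj]
    · rw [D7_fl_S]
      show (fl i b).S = b.S
      rw [D7_fl_S]

theorem flL_S (L : Finset I) (b : Bs I) : (flL L b).S = b.S := rfl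

theorem flL_flL (L : Finset I) (b : Bs I) : flL L (flL L b) = b := by
  refine Bs.ext ?_ rfl
  ext j
  rw [mem_flL, mem_flL, flL_S]
  have h : j ∈ b.S → j ∈ b.F := fun h => b.sub h
  by_cases h1 : j ∈ b.F <;> by_cases h2 : j ∈ L <;> by_cases h3 : j ∈ b.S <;> simp_all

open Classical in
/-- The sites of `L` with the angle `π / 2`. -/
def hp (θ : I → ℝ) (L : Finset I) : Finset I := L.filter fun i => θ i = Real.pi / 2

theorem mem_hp {θ : I → ℝ} {L : Finset I} {i : I} : i ∈ hp θ L ↔ i ∈ L ∧ θ i = Real.pi / 2 := by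
  classical
  unfold hp
  exact Finset.mem_filter

theorem pi_div_two_ne_zero : (0 : ℝ) ≠ Real.pi / 2 := by
  have := Real.pi_pos
  intro h
  linarith

/-- A multiplication operator by a function invariant under `fl i` commutes with the rotation at
`i`; for the angle `0` every multiplication operator. -/
theorem A4_Ui_comm_dia {φ : Bs I → ℂ} {C' : ℝ} (hC' : 0 ≤ C') (hφ : ∀ b, ‖φ b‖ ≤ C') {i : I}
    {θ : ℝ} (hi : θ = 0 ∨ ∀ b, φ (fl i b) = φ b) : Commute (Ui i θ) (dia φ) := by
  rcases hi with rfl | hi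
  · rw [Ui_zero]
    exact Commute.one_left _
  · exact Ui_comm_dia hC' hφ hi θ

/-- PROOF: induction on `L`; `dia_mul_Ui_pi_div_two`, `Ui_zero`, `Ui_comm_dia`. -/
theorem dia_mul_UKf {h : Bs I → ℂ} {C : ℝ} (hC : 0 ≤ C) (hh : ∀ b, ‖h b‖ ≤ C) {θ : I → ℝ}
    {L : Finset I} (hL : ∀ i ∈ L, θ i = 0 ∨ θ i = Real.pi / 2 ∨ ∀ b, h (fl i b) = h b) :
    dia h * (UKf L θ : BL (Bs I)) =
      (UKf L θ : BL (Bs I)) * dia fun b => h (flL (hp θ L) b) := by
  induction L using Finset.induction_on with
  | empty =>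
    have h0 : hp θ (∅ : Finset I) = ∅ := by
      ext i
      rw [mem_hp]
      simp
    rw [UKf_empty, Units.val_one, mul_one, one_mul, h0]
    simp only [flL_empty]
  | insert i L hi ih =>
    have ih' := ih fun j hj => hL j (Finset.mem_insert_of_mem hj)
    have h1 : (UKf (insert i L) θ : BL (Bs I)) = (UKf L θ : BL (Bs I)) * Ui i (θ i) := by
      rw [UKf_insert hi, Units.val_mul]
      exact (UKf_comm fun j _ => Ui_comm j i (θ j) (θ i)).1.symm.eq
    have hiP : i ∉ hp θ L := fun h => hi (mem_hp.1 h).1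
    rw [h1, ← mul_assoc, ih', mul_assoc, mul_assoc]
    congr 1
    by_cases hp2 : θ i = Real.pi / 2
    · have h2 : hp θ (insert i L) = insert i (hp θ L) := by
        ext j
        rw [mem_hp, Finset.mem_insert, Finset.mem_insert, mem_hp]
        constructor
        · rintro ⟨h3 | h3, h4⟩
          · exact Or.inl h3
          · exact Or.inr ⟨h3, h4⟩
        · rintro (h3 | h3)
          · exact ⟨Or.inl h3, by rw [h3]; exact hp2⟩
          · exact ⟨Or.inr h3.1, h3.2⟩
      rw [hp2, dia_mul_Ui_pi_div_two hC fun b => hh (flL (hp θ L) b), h2]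
      congr 2
      funext b
      rw [flL_fl hiP, flL_insert hiP]
    · have h2 : hp θ (insert i L) = hp θ L := by
        ext j
        rw [mem_hp, Finset.mem_insert, mem_hp]
        constructor
        · rintro ⟨h3 | h3, h4⟩
          · rw [h3] at h4
            exact absurd h4 hp2
          · exact ⟨h3, h4⟩
        · rintro h3
          exact ⟨Or.inr h3.1, h3.2⟩
      rw [h2]
      refine ((A4_Ui_comm_dia hC (fun b => hh (flL (hp θ L) b)) ?_).eq).symm
      rcases hL i (Finset.mem_insert_self i L) with h3 | h3 | h3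
      · exact Or.inl h3
      · exact absurd h3 hp2
      · exact Or.inr fun b => by rw [flL_fl hiP, h3]

/-- The rotated functions commute with the multiplication operators by the functions which are
invariant under `fl i` for the sites `i` whose angle is neither `0` nor `π / 2`. -/
theorem rL_comm_dia_mixed {f : (I → Bool) → ℂ} {B : ℝ} (hB : 0 ≤ B) (hf : ∀ T, ‖f T‖ ≤ B)
    {h : Bs I → ℂ} {C : ℝ} (hC : 0 ≤ C) (hh : ∀ b, ‖h b‖ ≤ C) {θ : I → ℝ}
    {L : Finset I} (hL : ∀ i ∈ L, θ i = 0 ∨ θ i = Real.pi / 2 ∨ ∀ b, h (fl i b) = h b) :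
    Commute (rL L θ f) (dia h) := by
  have h1 : (dia fun b => h (flL (hp θ L) b)) * (UKf L θ : BL (Bs I)) =
      (UKf L θ : BL (Bs I)) * dia h := by
    have h2 := dia_mul_UKf (h := fun b => h (flL (hp θ L) b)) (θ := θ) (L := L) hC
      (fun b => hh _) (fun i hi => by
        rcases hL i hi with h3 | h3 | h3
        · exact Or.inl h3
        · exact Or.inr (Or.inl h3)
        · by_cases h4 : θ i = Real.pi / 2
          · exact Or.inr (Or.inl h4)
          · refine Or.inr (Or.inr fun b => ?_)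
            rw [flL_fl (fun h5 => h4 (mem_hp.1 h5).2), h3])
    simp only [flL_flL] at h2
    exact h2
  have h2 : dia h * (UKf L (-θ) : BL (Bs I)) =
      (UKf L (-θ) : BL (Bs I)) * dia fun b => h (flL (hp θ L) b) := by
    calc dia h * (UKf L (-θ) : BL (Bs I))
        = (UKf L (-θ) : BL (Bs I)) * ((UKf L θ : BL (Bs I)) * dia h) *
          (UKf L (-θ) : BL (Bs I)) := by
          rw [← mul_assoc (UKf L (-θ) : BL (Bs I)), UKf_neg_mul_UKf, one_mul]
      _ = _ := by
          rw [← h1, mul_assoc, mul_assoc, UKf_mul_UKf_neg, mul_one]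
  have h3 : Commute (dF f) (dia fun b => h (flL (hp θ L) b)) :=
    dF_comm_dia hB hf hC fun b => hh _
  show rL L θ f * dia h = dia h * rL L θ f
  unfold rL
  calc (UKf L (-θ) : BL (Bs I)) * dF f * (UKf L θ : BL (Bs I)) * dia h
      = (UKf L (-θ) : BL (Bs I)) * (dF f * (dia fun b => h (flL (hp θ L) b))) *
        (UKf L θ : BL (Bs I)) := by
        rw [mul_assoc, ← h1]
        simp only [mul_assoc]
    _ = (UKf L (-θ) : BL (Bs I)) * ((dia fun b => h (flL (hp θ L) b)) * dF f) *
        (UKf L θ : BL (Bs I)) := by rw [h3.eq]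
    _ = _ := by
        rw [← mul_assoc (UKf L (-θ) : BL (Bs I)), ← h2]
        simp only [mul_assoc]

/-- Commutation passes to the limit; only the sites in `D` matter. -/
theorem rot_comm_of {θ : I → ℝ} {f : (I → Bool) → ℂ} (hf : Continuous f) {X : BL (Bs I)}
    {D : Set I} (hD : Dep D 0 f)
    (h : ∀ L : Finset I, (L : Set I) ⊆ D → ∀ f' : (I → Bool) → ℂ, Dep (L : Set I) 0 f' →
      Commute (rL L θ f') X) : Commute (rot θ f) X := by
  classical
  refine eq_of_sub_eq_zero (norm_eq_zero.1 (le_antisymm (le_of_forall_pos_le_add fun ε hε => ?_)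
    (norm_nonneg _)))
  obtain ⟨L, hL⟩ := exists_dep hf (show 0 < ε / (2 * ‖X‖ + 1) by positivity)
  have hL' := hD.inter hL
  have hL0 : ((L : Set I) ∩ D) ⊆ ((L.filter fun i => i ∈ D : Finset I) : Set I) := by
    rintro i ⟨hi, hiD⟩
    exact Finset.mem_coe.2 (Finset.mem_filter.2 ⟨hi, hiD⟩)
  have hL1 := hL'.mono hL0 le_rfl
  have h3 := norm_rot_sub_le hf hL1 θ
  have h4 : Commute (rL (L.filter fun i => i ∈ D) θ
      fun T => f (rs (L.filter fun i => i ∈ D) T)) X :=
    h _ (fun i hi => (Finset.mem_filter.1 (Finset.mem_coe.1 hi)).2) _ (dep_rs _ f)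
  obtain ⟨Y, hY⟩ : ∃ Y : BL (Bs I), Y = rL (L.filter fun i => i ∈ D) θ
      fun T => f (rs (L.filter fun i => i ∈ D) T) := ⟨_, rfl⟩
  rw [← hY] at h3 h4
  have h5 : rot θ f * X - X * rot θ f = (rot θ f - Y) * X - X * (rot θ f - Y) := by
    rw [sub_mul, mul_sub, h4.eq]
    abel
  rw [h5, zero_add]
  refine (norm_sub_le _ _).trans ?_
  have h6 := norm_mul_le (rot θ f - Y) X
  have h7 := norm_mul_le X (rot θ f - Y)
  have h8 : ‖rot θ f - Y‖ * ‖X‖ ≤ ε / (2 * ‖X‖ + 1) * ‖X‖ :=
    mul_le_mul_of_nonneg_right h3 (norm_nonneg _)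
  have h9 : ε / (2 * ‖X‖ + 1) * ‖X‖ ≤ ε / 2 := by
    have h10 : 0 ≤ ‖X‖ := norm_nonneg X
    rw [div_mul_eq_mul_div, div_le_div_iff₀ (by positivity) (by norm_num)]
    nlinarith
  have h10 : ‖X‖ * ‖rot θ f - Y‖ = ‖rot θ f - Y‖ * ‖X‖ := mul_comm _ _
  linarith

/-- The rotated functions commute with the multiplication operators by the functions which are
invariant under `fl i` for the sites `i` of `D` whose angle is neither `0` nor `π / 2`. -/
theorem rot_comm_dia {f : (I → Bool) → ℂ} (hf : Continuous f) {D : Set I} (hD : Dep D 0 f)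
    {θ : I → ℝ} {φ : Bs I → ℂ} {C : ℝ} (hC : 0 ≤ C) (hφ : ∀ b, ‖φ b‖ ≤ C)
    (hi : ∀ i ∈ D, θ i = 0 ∨ θ i = Real.pi / 2 ∨ ∀ b, φ (fl i b) = φ b) :
    Commute (rot θ f) (dia φ) := by
  refine rot_comm_of hf hD fun L hL f' hf' => ?_
  obtain ⟨B, hB, hb⟩ := hf'.exists_bdd
  exact rL_comm_dia_mixed hB hb hC hφ fun i hiL => hi i (hL (Finset.mem_coe.2 hiL))

open Classical in
/-- The letters: at the sites with the angle `π / 2` the letter is `false` on `F ∖ S`, at the other
sites it is `true` on `F`. -/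
def indm (θ : I → ℝ) (b : Bs I) : I → Bool := fun i =>
  if θ i = Real.pi / 2 then decide (i ∉ b.F \ b.S) else decide (i ∈ b.F)

theorem indm_of_eq {θ : I → ℝ} (b : Bs I) {i : I} (h : θ i = Real.pi / 2) :
    indm θ b i = decide (i ∉ b.F \ b.S) := by
  unfold indm
  rw [if_pos h]

theorem indm_of_ne {θ : I → ℝ} (b : Bs I) {i : I} (h : θ i ≠ Real.pi / 2) :
    indm θ b i = decide (i ∈ b.F) := by
  unfold indm
  rw [if_neg h]

theorem indm_eq (θ : I → ℝ) (b : Bs I) (i : I) :
    indm θ b i = if θ i = Real.pi / 2 then indc b i else ind b.F i := by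
  unfold indm indc ind
  rfl

/-- PROOF: `dia_mul_UKf`. -/
theorem rL_mixed_dia {f : (I → Bool) → ℂ} {L : Finset I} (hf : Dep (L : Set I) 0 f) {θ : I → ℝ}
    (hθ : ∀ i ∈ L, θ i = 0 ∨ θ i = Real.pi / 2) :
    rL L θ f = dia fun b => f (indm θ b) := by
  obtain ⟨C, hC, h⟩ := hf.exists_bdd
  unfold rL dF
  rw [mul_assoc, dia_mul_UKf hC (fun b => h (ind b.F)) (fun i hi => (hθ i hi).imp id Or.inl),
    ← mul_assoc, UKf_neg_mul_UKf, one_mul]
  congr 1
  funext b
  have h2 := hf (ind (flL (hp θ L) b).F) (indm θ b) (by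
    intro i hi
    have hi' : i ∈ L := Finset.mem_coe.1 hi
    by_cases hp2 : θ i = Real.pi / 2
    · rw [indm_of_eq b hp2]
      unfold ind
      have h4 : i ∈ hp θ L := mem_hp.2 ⟨hi', hp2⟩
      have h3 : i ∈ (flL (hp θ L) b).F ↔ i ∉ b.F \ b.S := by
        rw [mem_flL, Finset.mem_sdiff]
        by_cases h5 : i ∈ b.F <;> by_cases h6 : i ∈ b.S <;> simp [h4, h5, h6]
      exact decide_eq_decide.2 h3
    · rw [indm_of_ne b hp2]
      unfold ind
      have h4 : i ∉ hp θ L := fun h5 => hp2 (mem_hp.1 h5).2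
      have h3 : i ∈ (flL (hp θ L) b).F ↔ i ∈ b.F := by
        rw [mem_flL]
        have h6 : i ∈ b.S → i ∈ b.F := fun h => b.sub h
        by_cases h5 : i ∈ b.F <;> by_cases h7 : i ∈ b.S <;> simp_all
      exact decide_eq_decide.2 h3)
  exact sub_eq_zero.1 (norm_eq_zero.1 (le_antisymm h2 (norm_nonneg _)))

/-- PROOF: `rL_mixed_dia` for the restrictions; both sides are within `ε` of it. -/
theorem rot_mixed_dia {f : (I → Bool) → ℂ} (hf : Continuous f) {D : Set I} (hD : Dep D 0 f)
    {θ : I → ℝ} (hθ : ∀ i ∈ D, θ i = 0 ∨ θ i = Real.pi / 2) :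
    rot θ f = dia fun b => f (indm θ b) := by
  classical
  obtain ⟨C, hC, hb⟩ := exists_bdd hf
  refine eq_of_sub_eq_zero (norm_eq_zero.1 (le_antisymm (le_of_forall_pos_le_add fun ε hε => ?_)
    (norm_nonneg _)))
  obtain ⟨L, hL⟩ := exists_dep hf (show 0 < ε / 2 by linarith)
  have hL' := hD.inter hL
  have hL0 : ((L : Set I) ∩ D) ⊆ ((L.filter fun i => i ∈ D : Finset I) : Set I) := by
    rintro i ⟨hi, hiD⟩
    exact Finset.mem_coe.2 (Finset.mem_filter.2 ⟨hi, hiD⟩)
  have hL1 := hL'.mono hL0 le_rfl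
  obtain ⟨L', hL'⟩ : ∃ L' : Finset I, L' = L.filter fun i => i ∈ D := ⟨_, rfl⟩
  rw [← hL'] at hL1
  have hL2 : ∀ i ∈ L', θ i = 0 ∨ θ i = Real.pi / 2 := by
    intro i hi
    rw [hL'] at hi
    exact hθ i (Finset.mem_filter.1 hi).2
  have h1 := norm_rot_sub_le hf hL1 θ
  rw [rL_mixed_dia (dep_rs L' f) hL2] at h1
  have h2 : ‖(dia fun b => f (rs L' (indm θ b)) : BL (Bs I)) - dia fun b => f (indm θ b)‖
      ≤ ε / 2 := by
    have h3 : (dia fun b => f (rs L' (indm θ b)) : BL (Bs I)) - (dia fun b => f (indm θ b)) =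
        dia fun b => f (rs L' (indm θ b)) - f (indm θ b) := by
      refine ContinuousLinearMap.ext fun ξ => ?_
      ext b
      have h4 : (((dia fun b => f (rs L' (indm θ b)) : BL (Bs I)) - (dia fun b => f (indm θ b))) ξ :
          Bs I → ℂ) b = (dia (fun b => f (rs L' (indm θ b))) ξ : Bs I → ℂ) b -
            (dia (fun b => f (indm θ b)) ξ : Bs I → ℂ) b := rfl
      rw [h4, dia_apply hC fun b => hb (rs L' (indm θ b)), dia_apply hC fun b => hb (indm θ b),
        dia_apply (add_nonneg hC hC) fun b => (norm_sub_le _ _).trans (add_le_add (hb _) (hb _))]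
      ring
    rw [h3]
    refine norm_dia_le (by linarith) fun b => ?_
    rw [norm_sub_rev]
    exact hL1.norm_sub_le _
  have h3 := norm_sub_le_norm_sub_add_norm_sub (rot θ f)
    (dia fun b => f (rs L' (indm θ b))) (dia fun b => f (indm θ b))
  linarith

/-- Columns at the pairs with `F` disjoint from `N`, for a function which vanishes at all `T` without
a violation in `N`. PROOF: let `L` be finite with `Dep L (ε/4) f`, and `f' T = f T'` with `T' = T` on `L` and the
letters without violation off `L`; `rot θ f' = rL L θ f'`, and the column `UKf L θ (bv β)` lives on the pairs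
without violation in `L ∩ N` (`dia_mul_UKf` for the indicator of these pairs). -/
theorem rot_bv_eq_zero {f : (I → Bool) → ℂ} (hf : Continuous f) {D : Set I} (hD : Dep D 0 f)
    {θ : I → ℝ} {N : Set I} (hN : ∀ i ∈ N, θ i = 0 ∨ θ i = Real.pi / 2) {β : Bs I}
    (hβ : ∀ i ∈ β.F, i ∉ N)
    (h0 : ∀ T : I → Bool, (∀ i ∈ D, i ∈ N → (θ i = 0 → T i = false) ∧
      (θ i = Real.pi / 2 → T i = true)) → f T = 0) :
    rot θ f (bv β) = 0 := by
  classical
  -- the letters without violation off `L`
  have key : ∀ ε : ℝ, 0 < ε → ‖rot θ f (bv β)‖ ≤ ε := by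
    intro ε hε
    obtain ⟨L, hL⟩ := exists_dep hf hε
    obtain ⟨ex, hex⟩ : ∃ ex : (I → Bool) → (I → Bool), ex = fun T i =>
        if i ∈ L then T i else decide (θ i = Real.pi / 2) := ⟨_, rfl⟩
    have hexL : ∀ T i, i ∈ L → ex T i = T i := by
      intro T i hi
      rw [hex]
      exact if_pos hi
    have hexN : ∀ T i, i ∉ L → ex T i = decide (θ i = Real.pi / 2) := by
      intro T i hi
      rw [hex]
      exact if_neg hi
    have hdep : Dep (L : Set I) 0 fun T => f (ex T) := by
      intro T T' hT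
      have h1 : ex T = ex T' := by
        funext i
        by_cases hi : i ∈ L
        · rw [hexL T i hi, hexL T' i hi, hT i (Finset.mem_coe.2 hi)]
        · rw [hexN T i hi, hexN T' i hi]
      beta_reduce
      rw [h1, sub_self, norm_zero]
    have hclose : ∀ T, ‖f T - f (ex T)‖ ≤ ε := fun T =>
      hL T (ex T) fun i hi => (hexL T i (Finset.mem_coe.1 hi)).symm
    obtain ⟨C, hC, hb⟩ := exists_bdd hf
    -- the exact statement
    have hz : rL L θ (fun T => f (ex T)) (bv β) = 0 := by
      obtain ⟨h, hh⟩ : ∃ h : Bs I → ℂ, h = fun b =>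
        if (∀ i ∈ L, i ∈ N → (θ i = 0 → i ∉ b.F) ∧ (θ i = Real.pi / 2 → i ∈ b.F)) then 1 else 0 :=
        ⟨_, rfl⟩
      have hh1 : ∀ b, ‖h b‖ ≤ 1 := by
        intro b
        rw [hh]
        beta_reduce
        split_ifs <;> simp
      have hinv : ∀ i ∈ L, θ i = 0 ∨ θ i = Real.pi / 2 ∨ ∀ b, h (fl i b) = h b := by
        intro i _
        by_cases hiN : i ∈ N
        · exact (hN i hiN).imp id Or.inl
        · refine Or.inr (Or.inr fun b => ?_)
          have h1 : ∀ j, j ∈ N → (j ∈ (fl i b).F ↔ j ∈ b.F) := by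
            intro j hj
            have hji : j ≠ i := fun h2 => hiN (h2 ▸ hj)
            by_cases hS : i ∈ b.S
            · rw [D6_fl_of_mem hS]
            · rw [D6_fl_F hS, mem_tg]
              simp [hji]
          rw [hh]
          beta_reduce
          have h2 : (∀ j ∈ L, j ∈ N → (θ j = 0 → j ∉ (fl i b).F) ∧
              (θ j = Real.pi / 2 → j ∈ (fl i b).F)) ↔
              (∀ j ∈ L, j ∈ N → (θ j = 0 → j ∉ b.F) ∧ (θ j = Real.pi / 2 → j ∈ b.F)) := by
            refine forall_congr' fun j => forall_congr' fun _ => forall_congr' fun hj => ?_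
            rw [h1 j hj]
          simp only [h2]
      have h3 := dia_mul_UKf zero_le_one hh1 hinv
      have h4 : dia (fun b => h (flL (hp θ L) b)) (bv β) = bv β := by
        rw [dia_bv (fun b => hh1 (flL (hp θ L) b))]
        have h5 : h (flL (hp θ L) β) = 1 := by
          rw [hh]
          refine if_pos fun i hiL hiN => ?_
          have h6 : i ∉ β.F := fun h7 => hβ i h7 hiN
          have h7 : i ∉ β.S := fun h8 => h6 (β.sub h8)
          rw [mem_flL, mem_hp]
          constructor
          · intro h8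
            rintro (h9 | h9 | h9)
            · exact h6 h9.1
            · rw [h8] at h9
              exact pi_div_two_ne_zero h9.1.2
            · exact h7 h9
          · intro h8
            exact Or.inr (Or.inl ⟨⟨hiL, h8⟩, h6⟩)
        rw [h5, one_smul]
      have h5 : dia h ((UKf L θ : BL (Bs I)) (bv β)) = (UKf L θ : BL (Bs I)) (bv β) := by
        have h6 := congrArg (fun A : BL (Bs I) => A (bv β)) h3
        simp only [mul_apply_eq_comp] at h6
        rw [h6, h4]
      have h6 : (dF fun T => f (ex T)) ((UKf L θ : BL (Bs I)) (bv β)) = 0 := by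
        ext b
        rw [dF_apply hC fun T => hb (ex T)]
        have h7 : ((UKf L θ : BL (Bs I)) (bv β) : Bs I → ℂ) b =
            h b * ((UKf L θ : BL (Bs I)) (bv β) : Bs I → ℂ) b := by
          conv_lhs => rw [← h5]
          rw [dia_apply zero_le_one hh1]
        by_cases h8 : ∀ i ∈ L, i ∈ N → (θ i = 0 → i ∉ b.F) ∧ (θ i = Real.pi / 2 → i ∈ b.F)
        · have h9 : f (ex (ind b.F)) = 0 := by
            refine h0 _ fun i _ hiN => ?_
            by_cases hiL : i ∈ L
            · rw [hexL _ i hiL]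
              unfold ind
              exact ⟨fun h10 => decide_eq_false ((h8 i hiL hiN).1 h10),
                fun h10 => decide_eq_true ((h8 i hiL hiN).2 h10)⟩
            · rw [hexN _ i hiL]
              exact ⟨fun h10 => decide_eq_false fun h11 => pi_div_two_ne_zero (h10 ▸ h11),
                fun h10 => decide_eq_true h10⟩
          rw [h9, zero_mul]
          rfl
        · have h9 : h b = 0 := by
            rw [hh]
            exact if_neg h8
          rw [h7, h9, zero_mul, mul_zero]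
          rfl
      unfold rL
      rw [mul_apply_eq_comp, mul_apply_eq_comp, h6, map_zero]
    rw [← rot_eq hdep θ] at hz
    have h1 : rot θ f (bv β) = (rot θ f - rot θ fun T => f (ex T)) (bv β) := by
      rw [sub_apply, hz, sub_zero]
    rw [h1]
    refine (ContinuousLinearMap.le_opNorm _ _).trans ?_
    rw [norm_bv, mul_one]
    exact norm_rot_sub_rot_le hf hdep.continuous hε.le hclose θ
  exact norm_eq_zero.1 (le_antisymm (le_of_forall_pos_le_add fun ε hε => by
    rw [zero_add]
    exact key ε hε) (norm_nonneg _))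

end Pool.Agent.Lib.MP_aa9b81_an.Tv
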