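import Pool.Agent.Lib.MP_aa9b81_an.Mg.G065
import Pool.Agent.Lib.MP_aa9b81_an.Tv.A2

/-!
# Transversals, part A5: the rotated functions: transport, covariance, commutation
-/

open scoped ENNReal Topology
open Function Filter

noncomputable section

set_option linter.unusedSectionVars false

namespace Pool.Agent.Lib.MP_aa9b81_an.Tv

open Cut Hs Cb Mc

variable {I I₀ O O₀ Γ : Type} [DecidableEq I] [DecidableEq I₀] [LinearOrder O] [LinearOrder O₀]
  [Group Γ] [MulAction Γ I]

/-- Intertwining by injections, finitely many sites. PROOF: `UKf_Tr`, `dF_Tr`. -/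
theorem rL_Tr (e₀ : I₀ ↪ O₀) (e : I ↪ O) (s : I₀ ↪ I) {f : (I → Bool) → ℂ} {C : ℝ} (hC : 0 ≤ C)
    (h : ∀ T, ‖f T‖ ≤ C) (L : Finset I₀) (θ : I → ℝ) :
    (rL (L.map s) θ f).comp (Tr e₀ e s) =
      (Tr e₀ e s).comp (rL L (fun k => θ (s k)) fun T => f (push s T)) := by
  unfold rL
  show ((UKf (L.map s) (-θ) : BL (Bs I)).comp ((dF f).comp ((UKf (L.map s) θ : BL (Bs I)).comp
    (Tr e₀ e s)))) = _
  rw [UKf_Tr, ← ContinuousLinearMap.comp_assoc (dF f), dF_Tr e₀ e s hC h,
    ContinuousLinearMap.comp_assoc, ← ContinuousLinearMap.comp_assoc, UKf_Tr]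
  rfl

/-- Intertwining by injections for functions which depend on finitely many sites of the image. -/
theorem rot_Tr_of_dep (e₀ : I₀ ↪ O₀) (e : I ↪ O) (s : I₀ ↪ I) {f : (I → Bool) → ℂ}
    {L : Finset I₀} (hf : Dep ((L.map s : Finset I) : Set I) 0 f) (θ : I → ℝ) :
    (rot θ f).comp (Tr e₀ e s) = (Tr e₀ e s).comp (rL L (fun k => θ (s k)) fun T => f (push s T)) := by
  obtain ⟨C, hC, h⟩ := hf.exists_bdd
  rw [rot_eq hf, rL_Tr e₀ e s hC h]

/-- Intertwining by injections, up to `ε`, for functions which depend up to `ε` on finitely many sites of the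
image. PROOF: `norm_rot_sub_le`, `rL_Tr`. -/
theorem norm_rot_Tr_sub_le (e₀ : I₀ ↪ O₀) (e : I ↪ O) (s : I₀ ↪ I) {f : (I → Bool) → ℂ}
    (hf : Continuous f) {L : Finset I₀} {ε : ℝ}
    (h : Dep ((L.map s : Finset I) : Set I) ε f) (θ : I → ℝ) :
    ‖(rot θ f).comp (Tr e₀ e s) - (Tr e₀ e s).comp (rL L (fun k => θ (s k)) fun T => f (push s T))‖ ≤ 2 * ε := by
  obtain ⟨C, hC, hb⟩ := exists_bdd hf
  have hε : 0 ≤ ε := (norm_nonneg _).trans (h (fun _ => false) (fun _ => false) fun _ _ => rfl)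
  rw [← rL_Tr e₀ e s hC hb L θ, ← ContinuousLinearMap.sub_comp]
  refine (ContinuousLinearMap.opNorm_comp_le _ _).trans ?_
  have h1 : ‖rot θ f - rL (L.map s) θ f‖ ≤ 2 * ε := by
    have h2 := norm_rot_sub_le hf h θ
    have h3 := norm_rL_sub_rs_le h (Finset.Subset.refl (L.map s)) θ
    have h4 : rot θ f - rL (L.map s) θ f =
        (rot θ f - rL (L.map s) θ fun T => f (rs (L.map s) T)) -
        (rL (L.map s) θ f - rL (L.map s) θ fun T => f (rs (L.map s) T)) := by abel
    rw [h4]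
    have h5 := norm_sub_le (rot θ f - rL (L.map s) θ fun T => f (rs (L.map s) T))
      (rL (L.map s) θ f - rL (L.map s) θ fun T => f (rs (L.map s) T))
    linarith
  have h2 := norm_Tr_le e₀ e s
  have h3 := norm_nonneg (Tr e₀ e s)
  have h4 := norm_nonneg (rot θ f - rL (L.map s) θ f)
  nlinarith

/-- Intertwining by injections for continuous functions which depend only on the image. -/
theorem rot_Tr (e₀ : I₀ ↪ O₀) (e : I ↪ O) (s : I₀ ↪ I) {f : (I → Bool) → ℂ}
    (hf : Continuous f) (hD : Dep (Set.range s) 0 f) (θ : I → ℝ) :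
    (rot θ f).comp (Tr e₀ e s) = (Tr e₀ e s).comp (rot (fun k => θ (s k)) fun T => f (push s T)) := by
  have hf' : Continuous fun T => f (push s T) := hf.comp (continuous_push s)
  refine eq_of_sub_eq_zero (norm_eq_zero.1 (le_antisymm (le_of_forall_pos_le_add fun ε hε => ?_)
    (norm_nonneg _)))
  obtain ⟨L, hL⟩ := exists_dep hf (show 0 < ε / 4 by linarith)
  have hL' := hD.inter hL
  have hL0 : ((L : Set I) ∩ Set.range s) ⊆
      (((L.preimage s s.injective.injOn).map s : Finset I) : Set I) := by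
    rintro i ⟨hi, k, rfl⟩
    exact Finset.mem_coe.2 (Finset.mem_map.2 ⟨k, Finset.mem_preimage.2 hi, rfl⟩)
  have hL1 := hL'.mono hL0 le_rfl
  have h1 := norm_rot_Tr_sub_le e₀ e s hf hL1 θ
  have h2 : Dep ((L.preimage s s.injective.injOn : Finset I₀) : Set I₀) (ε / 4)
      fun T => f (push s T) := by
    intro T T' hT
    refine hL' _ _ ?_
    rintro i ⟨hi, k, rfl⟩
    rw [push_apply, push_apply]
    exact hT k (Finset.mem_coe.2 (Finset.mem_preimage.2 hi))
  have h3 : ‖(rot (fun k => θ (s k)) fun T => f (push s T)) -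
      rL (L.preimage s s.injective.injOn) (fun k => θ (s k)) fun T => f (push s T)‖ ≤
        2 * (ε / 4) := by
    have h4 := norm_rot_sub_le hf' h2 fun k => θ (s k)
    have h5 := norm_rL_sub_rs_le h2 (Finset.Subset.refl _) fun k => θ (s k)
    rw [norm_sub_rev] at h5
    have h6 := norm_sub_le_norm_sub_add_norm_sub (rot (fun k => θ (s k)) fun T => f (push s T))
      (rL (L.preimage s s.injective.injOn) (fun k => θ (s k)) fun T =>
        (fun T => f (push s T)) (rs (L.preimage s s.injective.injOn) T))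
      (rL (L.preimage s s.injective.injOn) (fun k => θ (s k)) fun T => f (push s T))
    linarith
  have h4 : ‖(Tr e₀ e s).comp (rL (L.preimage s s.injective.injOn) (fun k => θ (s k)) fun T => f (push s T)) -
      (Tr e₀ e s).comp (rot (fun k => θ (s k)) fun T => f (push s T))‖ ≤ 2 * (ε / 4) := by
    rw [← ContinuousLinearMap.comp_sub]
    refine (ContinuousLinearMap.opNorm_comp_le _ _).trans ?_
    have h5 := norm_Tr_le e₀ e s
    rw [norm_sub_rev] at h3
    have h6 := norm_nonneg ((rL (L.preimage s s.injective.injOn) (fun k => θ (s k))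
      fun T => f (push s T)) - rot (fun k => θ (s k)) fun T => f (push s T))
    have h7 := norm_nonneg (Tr e₀ e s)
    nlinarith
  have h5 := norm_sub_le_norm_sub_add_norm_sub ((rot θ f).comp (Tr e₀ e s))
    ((Tr e₀ e s).comp (rL (L.preimage s s.injective.injOn) (fun k => θ (s k)) fun T => f (push s T)))
    ((Tr e₀ e s).comp (rot (fun k => θ (s k)) fun T => f (push s T)))
  linarith

/-- COVARIANCE. PROOF: `rot_Tr` for the translation; it is bijective. -/
theorem Wg_rot (e : I ↪ O) (g : Γ) {f : (I → Bool) → ℂ} (hf : Continuous f) (θ : I → ℝ) :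
    Wg e g * rot θ f =
      (rot (fun i => θ (g⁻¹ • i)) fun T => f fun i => T (g • i)) * Wg e g := by
  have hc : Continuous fun T : I → Bool => fun i => T (g • i) :=
    continuous_pi fun i => continuous_apply _
  have h1 : Dep (Set.range (gs g : I ↪ I)) 0 fun T : I → Bool => f fun i => T (g • i) := by
    intro T T' hT
    have h2 : T = T' := by
      funext i
      exact hT i ⟨g⁻¹ • i, by rw [gs_apply, smul_inv_smul]⟩
    rw [h2, sub_self, norm_zero]
  have h2 := rot_Tr e e (gs g) (hf.comp hc) h1 fun i => θ (g⁻¹ • i)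
  have h3 : (fun T : I → Bool => (f ∘ fun T : I → Bool => fun i => T (g • i)) (push (gs g) T)) =
      f := by
    funext T
    show f (fun i => push (gs g) T (g • i)) = f T
    congr 1
    funext i
    exact push_apply (gs g) T i
  have h4 : (fun k => (fun i => θ (g⁻¹ • i)) ((gs g : I ↪ I) k)) = θ := by
    funext k
    show θ (g⁻¹ • (gs g : I ↪ I) k) = θ k
    rw [gs_apply, inv_smul_smul]
  rw [h3, h4] at h2
  exact h2.symm

/-! ### Commutation -/

/-- What commutes with the rotations at the sites of `L` and with `dF f` commutes with `rL L θ f`. -/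
theorem rL_comm {L : Finset I} {θ : I → ℝ} {f : (I → Bool) → ℂ} {X : BL (Bs I)}
    (h1 : ∀ i ∈ L, ∀ φ : ℝ, Commute (Ui i φ) X) (h2 : Commute (dF f) X) :
    Commute (rL L θ f) X := by
  unfold rL
  exact ((UKf_comm fun i hi => h1 i hi ((-θ) i)).1.mul_left h2).mul_left
    (UKf_comm fun i hi => h1 i hi (θ i)).1

/-- PROOF: limits. -/
theorem rot_comm {θ : I → ℝ} {f : (I → Bool) → ℂ} (hf : Continuous f) {X : BL (Bs I)} {D : Set I}
    (hD : Dep D 0 f) (h1 : ∀ i ∈ D, ∀ φ : ℝ, Commute (Ui i φ) X)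
    (h2 : ∀ f' : (I → Bool) → ℂ, Dep D 0 f' → Continuous f' → Commute (dF f') X) :
    Commute (rot θ f) X := by
  classical
  refine eq_of_sub_eq_zero (norm_eq_zero.1 (le_antisymm (le_of_forall_pos_le_add fun ε hε => ?_)
    (norm_nonneg _)))
  obtain ⟨L, hL⟩ := exists_dep hf (show 0 < ε / (2 * ‖X‖ + 1) by positivity)
  have hL' := hD.inter hL
  have hL0 : ((L : Set I) ∩ D) ⊆ ((L.filter fun i => i ∈ D : Finset I) : Set I) := by
    rintro i ⟨hi, hiD⟩
    exact Finset.mem_coe.2 (Finset.mem_filter.2 ⟨hi, hiD⟩)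
  have hL1 := hL'.mono hL0 le_rfl
  have h3 := norm_rot_sub_le hf hL1 θ
  have h4 : Commute (rL (L.filter fun i => i ∈ D) θ
      fun T => f (rs (L.filter fun i => i ∈ D) T)) X := by
    refine rL_comm (fun i hi => h1 i (Finset.mem_filter.1 hi).2) (h2 _ ?_ ?_)
    · exact (dep_rs (L.filter fun i => i ∈ D) f).mono (fun i hi =>
        (Finset.mem_filter.1 (Finset.mem_coe.1 hi)).2) le_rfl
    · exact (dep_rs (L.filter fun i => i ∈ D) f).continuous
  obtain ⟨Y, hY⟩ : ∃ Y : BL (Bs I), Y = rL (L.filter fun i => i ∈ D) θ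
      fun T => f (rs (L.filter fun i => i ∈ D) T) := ⟨_, rfl⟩
  rw [← hY] at h3 h4
  have h5 : rot θ f * X - X * rot θ f = (rot θ f - Y) * X - X * (rot θ f - Y) := by
    rw [sub_mul, mul_sub, h4.eq]
    abel
  rw [h5, zero_add]
  refine (norm_sub_le _ _).trans ?_
  have h6 := norm_mul_le (rot θ f - Y) X
  have h7 := norm_mul_le X (rot θ f - Y)
  have h8 : ‖rot θ f - Y‖ * ‖X‖ ≤ ε / (2 * ‖X‖ + 1) * ‖X‖ :=
    mul_le_mul_of_nonneg_right h3 (norm_nonneg _)
  have h9 : ε / (2 * ‖X‖ + 1) * ‖X‖ ≤ ε / 2 := by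
    have h10 : 0 ≤ ‖X‖ := norm_nonneg X
    rw [div_mul_eq_mul_div, div_le_div_iff₀ (by positivity) (by norm_num)]
    nlinarith
  have h10 : ‖X‖ * ‖rot θ f - Y‖ = ‖rot θ f - Y‖ * ‖X‖ := mul_comm _ _
  linarith

/-- Multiplication operators by functions invariant under `fl i`, `i ∈ D`, commute with `rot θ f`, `f` depending
only on `D`. -/
theorem A5_rot_comm_dia {θ : I → ℝ} {f : (I → Bool) → ℂ} (hf : Continuous f) {D : Set I}
    (hD : Dep D 0 f) {φ : Bs I → ℂ} {C' : ℝ} (hC' : 0 ≤ C') (hφ : ∀ b, ‖φ b‖ ≤ C')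
    (hi : ∀ i ∈ D, ∀ b, φ (fl i b) = φ b) : Commute (rot θ f) (dia φ) := by
  refine rot_comm hf hD (fun i hiD θ' => Ui_comm_dia hC' hφ (hi i hiD) θ') fun f' _ hf'c => ?_
  obtain ⟨C, hC, h⟩ := exists_bdd hf'c
  exact dF_comm_dia hC h hC' hφ

/-- PROOF: `A5_rot_comm_dia`, `D6_Es_iff`. -/
theorem rot_comm_Es {θ : I → ℝ} {f : (I → Bool) → ℂ} (hf : Continuous f) {D : Set I}
    (hD : Dep D 0 f) : Commute (rot θ f) (Es D) := by
  classical
  rw [Es_eq_dia]
  refine A5_rot_comm_dia hf hD zero_le_one (fun b => by split_ifs <;> simp) fun i hi b => ?_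
  by_cases h : (b.F : Set I) ⊆ D
  · rw [if_pos h, if_pos ((D6_Es_iff hi b).2 h)]
  · rw [if_neg h, if_neg fun h1 => h ((D6_Es_iff hi b).1 h1)]

/-- Multiplication operators by functions of `S` commute with `rot θ f`. -/
theorem rot_comm_S {θ : I → ℝ} {f : (I → Bool) → ℂ} (hf : Continuous f) {φ : Finset I → ℂ} {C' : ℝ}
    (hC' : 0 ≤ C') (hφ : ∀ S, ‖φ S‖ ≤ C') :
    Commute (rot θ f) (dia fun b : Bs I => φ b.S) :=
  A5_rot_comm_dia hf (dep_univ f) hC' (fun b => hφ b.S) fun i _ b => by rw [D7_fl_S]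

theorem rot_comm_Pp {θ : I → ℝ} {f : (I → Bool) → ℂ} (hf : Continuous f) :
    Commute (rot θ f) (Pp : BL (Bs I)) :=
  rot_comm_S hf (φ := fun S => if Even S.card then 1 else 0) zero_le_one
    fun S => by split_ifs <;> simp

theorem rot_comm_Pm {θ : I → ℝ} {f : (I → Bool) → ℂ} (hf : Continuous f) :
    Commute (rot θ f) (Pm : BL (Bs I)) :=
  rot_comm_S hf (φ := fun S => if Even S.card then 0 else 1) zero_le_one
    fun S => by split_ifs <;> simp

end Pool.Agent.Lib.MP_aa9b81_an.Tv
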