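import Pool.Agent.Lib.MP_aa9b81_an.Tv.A5
import Pool.Agent.Lib.MP_aa9b81_an.Mg.G069

/-!
# Transversals, part A6: smallness of the commutators
-/

open scoped ENNReal Topology
open Function Filter

noncomputable section

set_option linter.unusedSectionVars false

namespace Pool.Agent.Lib.MP_aa9b81_an.Tv

open Cut Hs Cb
open Mc (UKf UKf_empty UKf_insert UKf_congr UKf_comm UKf_sdiff norm_UKf_le)

section Gen

variable {I O : Type} [DecidableEq I] [LinearOrder O]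

/-- PROOF: `rL_comm`, `Ui_comm_uL`, `Cl_comm_dia`. -/
theorem rL_comm_uL (e : I ↪ O) (w : I → ℝ) (L : Finset I) (θ : I → ℝ) {f : (I → Bool) → ℂ} {C : ℝ}
    (hC : 0 ≤ C) (h : ∀ T, ‖f T‖ ≤ C) : Commute (rL L θ f) (Cl e (uL w L)) := by
  refine rL_comm (fun i hi φ => Ui_comm_uL e w hi φ) ?_
  exact (Cl_comm_dia e (CB_uL w L) (φ := fun F => f (ind F)) hC fun F => h _).symm

/-- The commutator with the rotated functions of the sites of `L` is small on the large sets. PROOF: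
`Cl e (uL w L)` commutes with `n`, and `Ψ` (a function of `F ∖ L`) commutes with `n`; on the support of `Ψ` the
difference `u - u'` has norm at most `2 m / R₁`. -/
theorem norm_comm_rL_le (e : I ↪ O) {w : I → ℝ} (hw : ∀ i, 1 ≤ w i) (L : Finset I) (θ : I → ℝ)
    {f : (I → Bool) → ℂ} (h : ∀ T, ‖f T‖ ≤ 1) {m R₁ : ℝ} (hR₁ : 0 < R₁) (hm : nF L w ≤ m)
    {φ : Finset I → ℝ} (hφ : ∀ F, |φ F| ≤ 1) (hφR : ∀ F, φ F ≠ 0 → R₁ ≤ nF (F \ L) w) :
    ‖(TT e 0 w * rL L θ f - rL L θ f * TT e 0 w) *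
      dia (fun b : Bs I => ((φ b.F : ℝ) : ℂ))‖ ≤ 4 * m / R₁ := by
  classical
  have hm0 : 0 ≤ m := (nF_nonneg L w).trans hm
  obtain ⟨ψ, hψ⟩ : ∃ ψ : Finset I → ℝ, ψ = fun F => if R₁ ≤ nF (F \ L) w then 1 else 0 := ⟨_, rfl⟩
  have hψ1 : ∀ F, |ψ F| ≤ 1 := by
    intro F
    rw [hψ]
    show |if R₁ ≤ nF (F \ L) w then (1 : ℝ) else 0| ≤ 1
    split_ifs <;> simp
  have hψb : ∀ b : Bs I, ‖((ψ b.F : ℝ) : ℂ)‖ ≤ 1 := fun b => by
    rw [Complex.norm_real]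
    exact hψ1 b.F
  have hφb : ∀ b : Bs I, ‖((φ b.F : ℝ) : ℂ)‖ ≤ 1 := fun b => by
    rw [Complex.norm_real]
    exact hφ b.F
  obtain ⟨Ψ, hΨ⟩ : ∃ Ψ : BL (Bs I), Ψ = dia fun b : Bs I => ((ψ b.F : ℝ) : ℂ) := ⟨_, rfl⟩
  obtain ⟨P, hP⟩ : ∃ P : BL (Bs I), P = dia fun b : Bs I => ((φ b.F : ℝ) : ℂ) := ⟨_, rfl⟩
  obtain ⟨n, hn⟩ : ∃ n : BL (Bs I), n = rL L θ f := ⟨_, rfl⟩
  obtain ⟨T', hT'⟩ : ∃ T' : BL (Bs I), T' = Cl e (uL w L) := ⟨_, rfl⟩
  have hPΨ : P = Ψ * P := by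
    rw [hP, hΨ]
    refine ContinuousLinearMap.ext fun ξ => ?_
    ext b
    rw [mul_apply_eq_comp, dia_apply zero_le_one hψb, dia_apply zero_le_one hφb]
    by_cases h0 : φ b.F = 0
    · rw [h0]
      simp
    · have h1 : ψ b.F = 1 := by
        rw [hψ]
        exact if_pos (hφR b.F h0)
      rw [h1]
      simp
  have hnΨ : n * Ψ = Ψ * n := by
    rw [hn, hΨ]
    refine rL_comm (fun i hi φ' => Ui_comm_dia zero_le_one hψb (fun b => ?_) φ') ?_
    · have h1 : (fl i b).F \ L = b.F \ L := by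
        by_cases hb : i ∈ b.S
        · rw [D6_fl_of_mem hb]
        · rw [D6_fl_F hb]
          ext k
          rw [Finset.mem_sdiff, Finset.mem_sdiff, mem_tg]
          by_cases hk : k = i
          · subst hk
            simp [hi]
          · simp [hk]
      rw [hψ]
      simp only [h1]
    · exact dF_comm_dia zero_le_one h zero_le_one hψb
  have hnT : n * T' = T' * n := by
    rw [hn, hT']
    exact rL_comm_uL e w L θ zero_le_one h
  have hdiff : ‖(TT e 0 w - T') * Ψ‖ ≤ 2 * m / R₁ := by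
    rw [hT', hΨ]
    refine norm_Cl_sub_mul_dia_le e (CB_uu 0 w) (CB_uL w L) hψ1 (by positivity) fun F hF => ?_
    have h1 : R₁ ≤ nF (F \ L) w := by
      rw [hψ] at hF
      by_contra h2
      exact hF (if_neg h2)
    have h2 : R₁ ≤ nF F w := h1.trans (nF_mono Finset.sdiff_subset w)
    have hne : F.Nonempty := by
      rw [Finset.nonempty_iff_ne_empty]
      rintro rfl
      rw [nF_empty] at h2
      linarith
    refine (nF_uu_sub_uL hw L hne).trans ?_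
    have h3 : 0 < nF F w := hR₁.trans_le h2
    exact div_le_div₀ (by linarith) (by linarith) hR₁ h2
  have hcomm : (TT e 0 w * n - n * TT e 0 w) * P =
      ((TT e 0 w - T') * Ψ * n - n * ((TT e 0 w - T') * Ψ)) * P := by
    have h1 : (TT e 0 w * n - n * TT e 0 w) = (TT e 0 w - T') * n - n * (TT e 0 w - T') := by
      rw [sub_mul, mul_sub, hnT]
      abel
    rw [h1]
    conv_lhs => rw [hPΨ]
    calc ((TT e 0 w - T') * n - n * (TT e 0 w - T')) * (Ψ * P)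
        = ((TT e 0 w - T') * (n * Ψ) - n * ((TT e 0 w - T') * Ψ)) * P := by
          simp only [sub_mul, mul_assoc]
      _ = _ := by
          rw [hnΨ]
          simp only [sub_mul, mul_assoc]
  rw [← hn, ← hP, hcomm]
  have hn1 : ‖n‖ ≤ 1 := by
    rw [hn]
    exact norm_rL_le zero_le_one h L θ
  have hP1 : ‖P‖ ≤ 1 := by
    rw [hP]
    exact norm_dia_le zero_le_one hφb
  obtain ⟨X, hX⟩ : ∃ X : BL (Bs I), X = (TT e 0 w - T') * Ψ := ⟨_, rfl⟩
  rw [← hX] at hdiff ⊢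
  have h1 : ‖X * n‖ ≤ 2 * m / R₁ :=
    (norm_mul_le _ _).trans ((mul_le_mul hdiff hn1 (norm_nonneg _) (by positivity)).trans
      (by rw [mul_one]))
  have h2 : ‖n * X‖ ≤ 2 * m / R₁ :=
    (norm_mul_le _ _).trans ((mul_le_mul hn1 hdiff (norm_nonneg _) zero_le_one).trans
      (by rw [one_mul]))
  have h3 : ‖X * n - n * X‖ ≤ 4 * m / R₁ := by
    refine (norm_sub_le _ _).trans ((add_le_add h1 h2).trans (le_of_eq ?_))
    ring
  exact (norm_mul_le _ _).trans ((mul_le_mul h3 hP1 (norm_nonneg _) (by positivity)).trans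
      (by rw [mul_one]))

end Gen

variable {G O : Type} [Group G] [TopologicalSpace G] [IsTopologicalGroup G] [DecidableEq G]
  [LinearOrder O]

/-- SMALLNESS (S1), `s = 0`, uniformly in the angles. -/
theorem small_rot (W : Wc G) (e : G ↪ O) {V : Set G} (hV : V ∈ 𝓝 (1 : G)) {C C₁ : Set G}
    (hC : IsCompact C) (hC₁ : IsCompact C₁) {η : ℝ} (hη : 0 < η) :
    ∃ R₀ : ℝ, 0 < R₀ ∧ ∀ R : ℝ, R₀ ≤ R → ∀ g ∈ C, ∀ D : Set G, Cb.Sep V D →
      ∀ f : (G → Bool) → ℂ, Continuous f → (∀ T, ‖f T‖ ≤ 1) → Dep D 0 f → ∀ ε : ℝ, Dep C₁ ε f →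
      ∀ θ : G → ℝ, ‖(TT e 0 W.w * rot θ f - rot θ f * TT e 0 (W.tr g)) * Lg R (W.tr g) D‖ ≤
        2 * ε + η := by
  obtain ⟨m, hm, hmC, hR1⟩ := W.exists_sdiff hV hC hC₁
  obtain ⟨R₁, hR₁⟩ : ∃ R₁ : ℝ, R₁ = 8 * (m + 1) / η := ⟨_, rfl⟩
  have hR₁0 : 0 < R₁ := by rw [hR₁]; positivity
  obtain ⟨R₀, hR₀, h0⟩ := hR1 R₁ hR₁0
  obtain ⟨R₂, hR₂, h2⟩ := W.norm_TT_sub_mul_Lg e hV hC (show 0 < η / 2 by linarith)
  refine ⟨max R₀ R₂, lt_max_of_lt_left hR₀, fun R hR g hg D hD f hf hf1 hfD ε hfε θ => ?_⟩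
  have hRpos : 0 < R := (lt_max_of_lt_left hR₀).trans_le hR
  have hfin := hD.finite_inter hV hC₁
  obtain ⟨L, hL⟩ : ∃ L : Finset G, (L : Set G) = D ∩ C₁ := ⟨hfin.toFinset, hfin.coe_toFinset⟩
  have hLD : (L : Set G) ⊆ D := by rw [hL]; exact Set.inter_subset_left
  have hLC : (L : Set G) ⊆ C₁ := by rw [hL]; exact Set.inter_subset_right
  have hLdep : Dep (L : Set G) ε f := by
    rw [hL, Set.inter_comm]
    exact hfD.inter hfε
  have hε : 0 ≤ ε := (norm_nonneg _).trans (hfε (fun _ => false) (fun _ => false) fun _ _ => rfl)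
  obtain ⟨n, hn⟩ : ∃ n : BL (Bs G), n = rL L θ fun T => f (rs L T) := ⟨_, rfl⟩
  have hn1 : ‖n‖ ≤ 1 := by
    rw [hn]
    exact norm_rL_le zero_le_one (fun T => hf1 _) L θ
  have hclose : ‖rot θ f - n‖ ≤ ε := by
    rw [hn]
    exact norm_rot_sub_le hf hLdep θ
  obtain ⟨P, hP⟩ : ∃ P : BL (Bs G), P = Lg R (W.tr g) D := ⟨_, rfl⟩
  have hP1 : ‖P‖ ≤ 1 := by
    rw [hP]
    exact norm_Lg_le R (W.tr g) D
  -- the commutator
  have hcomm : ‖(TT e 0 W.w * n - n * TT e 0 W.w) * P‖ ≤ η / 2 := by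
    rw [hP, Lg_eq, hn]
    have h3 := norm_comm_rL_le e W.one_le L θ (f := fun T => f (rs L T)) (fun T => hf1 _) hR₁0
      (hmC L (hD.mono hLD) hLC) (abs_lg_le R (W.tr g) D) (fun F hF => by
        obtain ⟨h4, h5⟩ := of_lg_ne_zero hRpos hF
        exact h0 g hg F L (hD.mono h4) (hD.mono hLD) hLC
          ((le_max_left _ _).trans (hR.trans h5.le)))
    refine h3.trans ?_
    rw [hR₁, div_le_iff₀ (by positivity)]
    have h4 : η / 2 * (8 * (m + 1) / η) = 4 * (m + 1) := by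
      field_simp
      ring
    rw [h4]
    linarith
  have hdiff := h2 R ((le_max_right _ _).trans hR) g hg 0 le_rfl zero_le_one D hD
  rw [← hP] at hdiff ⊢
  have hT := norm_TT_le e 0 W.w
  have hT' := norm_TT_le e 0 (W.tr g)
  have key : (TT e 0 W.w * rot θ f - rot θ f * TT e 0 (W.tr g)) * P =
      (TT e 0 W.w * (rot θ f - n) - (rot θ f - n) * TT e 0 (W.tr g)) * P +
      ((TT e 0 W.w * n - n * TT e 0 W.w) * P + n * ((TT e 0 W.w - TT e 0 (W.tr g)) * P)) := by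
    simp only [mul_sub, sub_mul, mul_assoc]
    abel
  rw [key]
  have a1 : ‖(TT e 0 W.w * (rot θ f - n) - (rot θ f - n) * TT e 0 (W.tr g)) * P‖ ≤ 2 * ε := by
    have b1 : ‖TT e 0 W.w * (rot θ f - n)‖ ≤ 1 * ε :=
      (norm_mul_le _ _).trans (mul_le_mul hT hclose (norm_nonneg _) zero_le_one)
    have b2 : ‖(rot θ f - n) * TT e 0 (W.tr g)‖ ≤ ε * 1 :=
      (norm_mul_le _ _).trans (mul_le_mul hclose hT' (norm_nonneg _) hε)
    have b3 : ‖TT e 0 W.w * (rot θ f - n) - (rot θ f - n) * TT e 0 (W.tr g)‖ ≤ 2 * ε := by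
      refine (norm_sub_le _ _).trans ?_
      linarith
    exact (norm_mul_le _ _).trans ((mul_le_mul b3 hP1 (norm_nonneg _) (by positivity)).trans
      (by rw [mul_one]))
  have a2 : ‖n * ((TT e 0 W.w - TT e 0 (W.tr g)) * P)‖ ≤ η / 2 :=
    (norm_mul_le _ _).trans ((mul_le_mul hn1 hdiff (norm_nonneg _) zero_le_one).trans
      (by rw [one_mul]))
  have a3 := norm_add_le ((TT e 0 W.w * (rot θ f - n) - (rot θ f - n) * TT e 0 (W.tr g)) * P)
    ((TT e 0 W.w * n - n * TT e 0 W.w) * P + n * ((TT e 0 W.w - TT e 0 (W.tr g)) * P))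
  have a4 := norm_add_le ((TT e 0 W.w * n - n * TT e 0 W.w) * P)
    (n * ((TT e 0 W.w - TT e 0 (W.tr g)) * P))
  linarith

end Pool.Agent.Lib.MP_aa9b81_an.Tv
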