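import Pool.Agent.Lib.MP_aa9b81_an.Tv.A3
import Pool.Agent.Lib.MP_aa9b81_an.Tv.A5
import Pool.Agent.Lib.MP_aa9b81_an.Mg.G069

/-!
# Transversals, part A7: the rotated functions are compatible with the local transport
-/

open scoped ENNReal Topology
open Function Filter

noncomputable section

set_option linter.unusedSectionVars false

namespace Pool.Agent.Lib.MP_aa9b81_an.Tv

open Cut Hs Cb
open Mc (UKf UKf_empty UKf_insert UKf_congr UKf_comm UKf_sdiff norm_UKf_le)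

variable {G O Zp : Type} [Group G] [TopologicalSpace G] [DecidableEq G] [LinearOrder O]
  [TopologicalSpace Zp] {V : Set G}

/-- The angles are continuous at `z₀` along the local sections. -/
def AAt (D : Zp → Set G) (θ : Zp → G → ℝ) (z₀ : Zp) : Prop :=
  ∀ L : Finset G, (L : Set G) ⊆ D z₀ → ∀ s : Zp → (L ↪ G), LSec D z₀ L s →
    ∀ i : L, Tendsto (fun z => θ z (s z i)) (𝓝 z₀) (𝓝 (θ z₀ i))

/-- At `z₀` a local section is the inclusion. -/
theorem LSec_eq_iL [IsTopologicalGroup G] (hV : V ∈ 𝓝 (1 : G)) {D : Zp → Set G} {z₀ : Zp}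
    (hS : Cb.Sep V (D z₀)) {L : Finset G} (hL : (L : Set G) ⊆ D z₀) {s : Zp → (L ↪ G)}
    (hs : LSec D z₀ L s) : s z₀ = iL L := by
  ext i
  show s z₀ i = i.1
  obtain ⟨N, hN, hu⟩ := exists_nhds_unique hV i.1
  have h1 : ∀ᶠ z in 𝓝 z₀, s z i ∈ N := (hs.tend i).eventually hN
  exact hu (D z₀) hS _ (hs.mem.self_of_nhds i) _ (hL i.2) h1.self_of_nhds (mem_of_mem_nhds hN)

/-- A function on a finite set `I₀ → Bool` depends on finitely many sites. -/
theorem dep_univ {I₀ : Type} [Fintype I₀] (f : (I₀ → Bool) → ℂ) :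
    Dep ((Finset.univ : Finset I₀) : Set I₀) 0 f := by
  intro T T' h
  have h1 : T = T' := funext fun i => h i (Finset.mem_coe.2 (Finset.mem_univ i))
  rw [h1, sub_self, norm_zero]

/-- The estimate for a change of the angles, for a finite set of sites. -/
theorem norm_rL_univ_sub_angle {I₀ : Type} [Fintype I₀] [DecidableEq I₀]
    {f : (I₀ → Bool) → ℂ} {C : ℝ} (hC : 0 ≤ C) (h : ∀ T, ‖f T‖ ≤ C) (θ θ' : I₀ → ℝ) :
    ‖rL Finset.univ θ f - rL Finset.univ θ' f‖ ≤ 4 * (∑ i, |θ i - θ' i|) * C := by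
  have h1 := norm_rot_sub_angle (dep_univ f).continuous hC h (dep_univ f) θ θ'
  rw [rot_eq (dep_univ f) θ, rot_eq (dep_univ f) θ', mul_zero, zero_add] at h1
  exact h1

/-- A family of functions on a finite set `I₀ → Bool`, continuous in the parameter. -/
theorem continuous_rL_univ {K I₀ : Type} [TopologicalSpace K] [Fintype I₀] [DecidableEq I₀]
    {k : K → (I₀ → Bool) → ℂ} (hk : ∀ T, Continuous fun q => k q T) (θ : I₀ → ℝ) :
    Continuous fun q => rL Finset.univ θ (k q) := by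
  rw [Metric.continuous_iff']
  intro q₀ ε hε
  have h1 : ∀ᶠ q in 𝓝 q₀, ∀ T : I₀ → Bool, ‖k q T - k q₀ T‖ ≤ ε / 2 := by
    rw [eventually_all]
    intro T
    filter_upwards [Metric.tendsto_nhds.1 ((hk T).tendsto q₀) (ε / 2) (by linarith)] with q hq
    rw [← dist_eq_norm]
    exact hq.le
  filter_upwards [h1] with q hq
  obtain ⟨C, hC, hb⟩ := (dep_univ (k q)).exists_bdd
  obtain ⟨C', hC', hb'⟩ := (dep_univ (k q₀)).exists_bdd
  rw [dist_eq_norm]
  have h2 := norm_rL_sub_le hC hb hC' hb' (by linarith : (0 : ℝ) ≤ ε / 2) hq Finset.univ θ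
  linarith

/-- The estimate for a family of functions with a compact parameter `q`, with explicit local
operators, uniform in `q`. PROOF: as `Cb.LocAt_sig`: `L₀ = L₁ ∪ (D z₀ ∩ C)`; the functions
`f z q ∘ push (s z)` on the finite set `L₀ → Bool` converge to `f z₀ q ∘ push (iL L₀)` uniformly in
`q ∈ Q` (compactness, `htend`), and the angles converge. -/
theorem locAt_rot_unif [IsTopologicalGroup G] {K : Type} [TopologicalSpace K] [CompactSpace K]
    (hV : V ∈ 𝓝 (1 : G)) (e : G ↪ O)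
    {D : Zp → Set G} (hD : Fell D) (hS : ∀ z, Cb.Sep V (D z)) {f : Zp → K → (G → Bool) → ℂ}
    (hf : ∀ z q, Continuous (f z q)) (hfD : ∀ z q, Dep (D z) 0 (f z q)) {z₀ : Zp}
    (hloc : ∀ ε : ℝ, 0 < ε → ∃ C : Set G, IsCompact C ∧ ∀ᶠ z in 𝓝 z₀, ∀ q, Dep C ε (f z q))
    (htend : ∀ (L : Finset G), (L : Set G) ⊆ D z₀ → ∀ s : Zp → (L ↪ G), LSec D z₀ L s →
      ∀ (F : Finset L) (q₀ : K), Tendsto (fun x : Zp × K => f x.1 x.2 (ind (F.map (s x.1))))
        (𝓝 (z₀, q₀)) (𝓝 (f z₀ q₀ (ind (F.map (iL L))))))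
    {θ : Zp → G → ℝ} (hθ : AAt D θ z₀) {ε : ℝ} (hε : 0 < ε) (L₁ : Finset G)
    (hL₁ : (L₁ : Set G) ⊆ D z₀) :
    ∃ L₀ : Finset G, L₁ ⊆ L₀ ∧ (L₀ : Set G) ⊆ D z₀ ∧ ∃ N₀ : K → BL (Bs L₀), Continuous N₀ ∧
      ∀ s : Zp → (L₀ ↪ G), LSec D z₀ L₀ s →
        (∀ q, N₀ q = rL Finset.univ (fun i : L₀ => θ z₀ i) fun T => f z₀ q (push (iL L₀) T)) ∧
        ∀ᶠ z in 𝓝 z₀, ∀ q,
        ‖(rot (θ z) (f z q)).comp (Tr (eL e L₀) e (s z)) -
          (Tr (eL e L₀) e (s z)).comp (N₀ q)‖ ≤ ε := by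
  classical
  obtain ⟨C, hC, hCf⟩ := hloc (ε / 8) (by linarith)
  have hfin : (D z₀ ∩ C).Finite := Sep.finite_inter hV (hS z₀) hC
  set L₀ : Finset G := L₁ ∪ hfin.toFinset with hL₀
  have hL₀D : (L₀ : Set G) ⊆ D z₀ := by
    intro x hx
    rcases Finset.mem_union.1 (Finset.mem_coe.1 hx) with h | h
    · exact hL₁ h
    · exact ((hfin.mem_toFinset).1 h).1
  by_cases hex : ∃ s₁ : Zp → (L₀ ↪ G), LSec D z₀ L₀ s₁
  swap
  · exact ⟨L₀, Finset.subset_union_left, hL₀D, fun _ => 0, continuous_const,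
      fun s hs => absurd ⟨s, hs⟩ hex⟩
  obtain ⟨s₁, hs₁⟩ := hex
  -- continuity in the parameter
  have hcont : ∀ F : Finset L₀, Continuous fun q => f z₀ q (ind (F.map (iL L₀))) := by
    intro F
    rw [continuous_iff_continuousAt]
    intro q₀
    have h1 := htend L₀ hL₀D s₁ hs₁ F q₀
    have h2 : Tendsto (fun q : K => (z₀, q)) (𝓝 q₀) (𝓝 (z₀, q₀)) :=
      (Continuous.prodMk_right z₀).tendsto q₀
    have h3 := h1.comp h2
    have h4 : s₁ z₀ = iL L₀ := LSec_eq_iL hV (hS z₀) hL₀D hs₁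
    have h5 : ((fun x : Zp × K => f x.1 x.2 (ind (F.map (s₁ x.1)))) ∘ fun q : K => (z₀, q)) =
        fun q => f z₀ q (ind (F.map (iL L₀))) := by
      funext q
      show f z₀ q (ind (F.map (s₁ z₀))) = _
      rw [h4]
    rw [h5] at h3
    exact h3
  have hcontT : ∀ T : L₀ → Bool, Continuous fun q => f z₀ q (push (iL L₀) T) := by
    intro T
    obtain ⟨F, rfl⟩ := exists_ind_eq T
    have h1 := hcont F
    simp only [ind_map] at h1
    exact h1
  -- a bound which is uniform in the parameter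
  obtain ⟨B, hB, hBf⟩ : ∃ B : ℝ, 0 ≤ B ∧ ∀ q, ∀ T : L₀ → Bool, ‖f z₀ q (push (iL L₀) T)‖ ≤ B := by
    have h1 : ∀ T : L₀ → Bool, ∃ B : ℝ, ∀ q, ‖f z₀ q (push (iL L₀) T)‖ ≤ B := by
      intro T
      obtain ⟨B, hB⟩ := isCompact_univ.exists_bound_of_continuousOn (hcontT T).continuousOn
      exact ⟨B, fun q => hB q (Set.mem_univ q)⟩
    choose B hB using h1
    refine ⟨∑ T, |B T|, Finset.sum_nonneg fun T _ => abs_nonneg _, fun q T => ?_⟩
    exact ((hB T q).trans (le_abs_self _)).trans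
      (Finset.single_le_sum (f := fun T => |B T|) (fun T _ => abs_nonneg _) (Finset.mem_univ T))
  refine ⟨L₀, Finset.subset_union_left, hL₀D,
    fun q => rL Finset.univ (fun i => θ z₀ i) (fun T => f z₀ q (push (iL L₀) T)),
    continuous_rL_univ hcontT _, fun s hs => ⟨fun q => rfl, ?_⟩⟩
  have h1 : ∀ᶠ z in 𝓝 z₀, D z ∩ C ⊆ Set.range (s z) :=
    hs.eventually_range hV hD hS hC fun x hx =>
      Finset.mem_coe.2 (Finset.mem_union_right _ ((hfin.mem_toFinset).2 hx))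
  have h2 : ∀ᶠ z in 𝓝 z₀, ∀ q ∈ (Set.univ : Set K), ∀ F : Finset L₀,
      ‖f z q (ind (F.map (s z))) - f z₀ q (ind (F.map (iL L₀)))‖ ≤ ε / 4 := by
    refine isCompact_univ.eventually_forall_of_forall_eventually fun q₀ _ => ?_
    rw [eventually_all]
    intro F
    have h3 := htend L₀ hL₀D s hs F q₀
    have h4 : Tendsto (fun x : Zp × K => f z₀ x.2 (ind (F.map (iL L₀)))) (𝓝 (z₀, q₀))
        (𝓝 (f z₀ q₀ (ind (F.map (iL L₀))))) :=
      ((hcont F).comp continuous_snd).tendsto (z₀, q₀)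
    have h5 := (h3.sub h4).norm
    rw [sub_self, norm_zero] at h5
    filter_upwards [h5.eventually_lt_const (show (0 : ℝ) < ε / 4 by linarith)] with x hx
    exact hx.le
  have h3 : ∀ᶠ z in 𝓝 z₀,
      4 * (∑ i : L₀, |θ z (s z i) - θ z₀ i|) * B < ε / 4 := by
    have h4 : Tendsto (fun z => 4 * (∑ i : L₀, |θ z (s z i) - θ z₀ i|) * B) (𝓝 z₀)
        (𝓝 (4 * (∑ i : L₀, |θ z₀ i - θ z₀ i|) * B)) :=
      ((tendsto_finsetSum _ fun i _ =>
        ((hθ L₀ hL₀D s hs i).sub_const _).abs).const_mul _).mul_const _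
    have h5 : (4 * (∑ i : L₀, |θ z₀ i - θ z₀ i|) * B : ℝ) = 0 := by simp
    rw [h5] at h4
    exact h4.eventually_lt_const (by linarith)
  filter_upwards [h1, h2, h3, hCf] with z hz1 hz2 hz3 hz4 q
  have h5 : Dep (((Finset.univ : Finset L₀).map (s z) : Finset G) : Set G) (ε / 8) (f z q) := by
    refine ((hfD z q).inter (hz4 q)).mono ?_ le_rfl
    rintro x ⟨hxC, hxD⟩
    obtain ⟨i, hi⟩ := hz1 ⟨hxD, hxC⟩
    exact Finset.mem_coe.2 (Finset.mem_map.2 ⟨i, Finset.mem_univ _, hi⟩)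
  have h6 := norm_rot_Tr_sub_le (eL e L₀) e (s z) (hf z q) h5 (θ z)
  obtain ⟨B', hB', hBf'⟩ := exists_bdd (hf z q)
  have h7 : ‖rL Finset.univ (fun k => θ z (s z k)) (fun T => f z q (push (s z) T)) -
      rL Finset.univ (fun k => θ z (s z k)) (fun T => f z₀ q (push (iL L₀) T))‖ ≤ ε / 4 := by
    refine norm_rL_sub_le hB' (fun T => hBf' _) hB (fun T => hBf q _) (by linarith)
      (fun T => ?_) _ _
    obtain ⟨F, rfl⟩ := exists_ind_eq T
    have h8 := hz2 q (Set.mem_univ q) F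
    rw [ind_map, ind_map] at h8
    exact h8
  have h8 : ‖rL Finset.univ (fun k => θ z (s z k)) (fun T => f z₀ q (push (iL L₀) T)) -
      rL Finset.univ (fun i : L₀ => θ z₀ i) (fun T => f z₀ q (push (iL L₀) T))‖ ≤ ε / 4 :=
    (norm_rL_univ_sub_angle hB (fun T => hBf q _) _ _).trans hz3.le
  set A : BL (Bs L₀) := rL Finset.univ (fun k => θ z (s z k)) (fun T => f z q (push (s z) T))
    with hA
  set A' : BL (Bs L₀) :=
    rL Finset.univ (fun k => θ z (s z k)) (fun T => f z₀ q (push (iL L₀) T)) with hA'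
  set A'' : BL (Bs L₀) :=
    rL Finset.univ (fun i : L₀ => θ z₀ i) (fun T => f z₀ q (push (iL L₀) T)) with hA''
  have h9 : (rot (θ z) (f z q)).comp (Tr (eL e L₀) e (s z)) -
      (Tr (eL e L₀) e (s z)).comp A'' =
      ((rot (θ z) (f z q)).comp (Tr (eL e L₀) e (s z)) - (Tr (eL e L₀) e (s z)).comp A) +
      (Tr (eL e L₀) e (s z)).comp ((A - A') + (A' - A'')) := by
    rw [ContinuousLinearMap.comp_add, ContinuousLinearMap.comp_sub, ContinuousLinearMap.comp_sub]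
    abel
  show ‖(rot (θ z) (f z q)).comp (Tr (eL e L₀) e (s z)) - (Tr (eL e L₀) e (s z)).comp A''‖ ≤ ε
  rw [h9]
  have h10 : ‖(Tr (eL e L₀) e (s z)).comp ((A - A') + (A' - A''))‖ ≤ 1 * (ε / 4 + ε / 4) :=
    (ContinuousLinearMap.opNorm_comp_le _ _).trans (mul_le_mul (norm_Tr_le _ _ _)
      ((norm_add_le _ _).trans (add_le_add h7 h8)) (norm_nonneg _) zero_le_one)
  refine (norm_add_le _ _).trans ?_
  linarith

/-- The rotated functions are compatible with the local transport. PROOF: `locAt_rot_unif` for a one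
point space `K`. -/
theorem LocAt_rot [IsTopologicalGroup G] (hV : V ∈ 𝓝 (1 : G)) (e : G ↪ O)
    {D : Zp → Set G} (hD : Fell D) (hS : ∀ z, Cb.Sep V (D z)) {f : Zp → (G → Bool) → ℂ}
    (hf : ∀ z, Continuous (f z)) (hfD : ∀ z, Dep (D z) 0 (f z)) {z₀ : Zp} (hfz : FAt D f z₀)
    {θ : Zp → G → ℝ} (hθ : AAt D θ z₀) : LocAt e D (fun z => rot (θ z) (f z)) z₀ := by
  intro ε hε L₁ hL₁
  obtain ⟨L₀, h1, h2, N₀, -, h3⟩ := locAt_rot_unif (K := Unit) hV e hD hS (f := fun z _ => f z)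
    (fun z _ => hf z) (fun z _ => hfD z) (z₀ := z₀)
    (fun ε hε => (hfz.loc ε hε).imp fun C hC => ⟨hC.1, hC.2.mono fun z hz _ => hz⟩)
    (fun L hL s hs F q₀ => (hfz.tend L hL s hs F).comp
      (continuous_fst.tendsto (z₀, q₀))) hθ hε L₁ hL₁
  exact ⟨L₀, h1, h2, N₀ (), fun s hs => (h3 s hs).2.mono fun z hz => hz ()⟩

end Pool.Agent.Lib.MP_aa9b81_an.Tv
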