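import Pool.Agent.Lib.MP_aa9b81_an.Tv.A4
import Pool.Agent.Lib.MP_aa9b81_an.Tv.A6
import Pool.Agent.Lib.MP_aa9b81_an.Tv.A7
import Pool.Agent.Lib.MP_aa9b81_an.Mg.G072

/-!
# Transversals, part A8: the symbols with angles
-/

open scoped ENNReal Topology
open Function Filter Topology Set

noncomputable section

set_option linter.unusedSectionVars false

namespace Pool.Agent.Lib.MP_aa9b81_an.Tv

open Cut Hs Cb
open Mc (UKf UKf_empty UKf_insert UKf_congr UKf_comm UKf_sdiff norm_UKf_le)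

variable {G O Y P : Type} [Group G] [TopologicalSpace G] [DecidableEq G] [LinearOrder O]
  [TopologicalSpace Y] [MulAction G Y] [TopologicalSpace P]
  {V : Set G} {Δ : Df G Y V} {φ : Prs Δ × P → G → ℂ}

/-- The angle at the site `i`. -/
def aS (θ : Y → ℝ) (y : Y) (i : G) : ℝ := θ (i⁻¹ • y)

theorem aS_smul (θ : Y → ℝ) (g : G) (y : Y) (i : G) : aS θ (g • y) i = aS θ y (g⁻¹ * i) := by
  unfold aS
  rw [mul_inv_rev, inv_inv, mul_smul]

/-- The angles are continuous along the local sections. PROOF: `LSec.tend`. -/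
theorem AAt_aS [IsTopologicalGroup G] [ContinuousSMul G Y] {θ : Y → ℝ} (hθ : Continuous θ)
    {Zp : Type} [TopologicalSpace Zp] {y : Zp → Y} (hy : Continuous y) (D : Zp → Set G) (z₀ : Zp) :
    AAt D (fun z => aS θ (y z)) z₀ := by
  intro L hL s hs i
  unfold aS
  have h1 : Tendsto (fun z => (s z i)⁻¹ • y z) (𝓝 z₀) (𝓝 (((i : G))⁻¹ • y z₀)) :=
    ((hs.tend i).inv).smul (hy.tendsto z₀)
  exact (hθ.tendsto _).comp h1

/-- The symbol of stage 2, with angles. -/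
def nA (Δ : Df G Y V) (θ : Y → ℝ) (φ : Prs Δ × P → G → ℂ) (b : Y × P) (g : G) : BL (Bs G) :=
  rot (aS θ b.1) (f2 Δ φ b g)

theorem norm_nA_le [IsTopologicalGroup G] [T2Space G] [LocallyCompactSpace G]
    (hV : V ∈ 𝓝 (1 : G)) (θ : Y → ℝ) (hφ : Cc _ G φ) {M : ℝ} (hM : 0 ≤ M)
    (hMφ : ∀ b g, ‖φ b g‖ ≤ M) (b : Y × P) (g : G) : ‖nA Δ θ φ b g‖ ≤ M :=
  norm_rot_le (continuous_f2 (Δ := Δ) hV hφ b g) hM (fun _ => hMφ _ _) (aS θ b.1)

theorem nA_eq_zero (θ : Y → ℝ) {g : G} (h : ∀ b, φ b g = 0) (b : Y × P) :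
    nA Δ θ φ b g = 0 :=
  rot_zero_fun (aS θ b.1) fun _ => h _

theorem nA_eq_zero_of_fibre (θ : Y → ℝ) {b : Y × P} {g : G}
    (h : ∀ T : Set G, φ (Δ.pt b.1 T, b.2) g = 0) : nA Δ θ φ b g = 0 :=
  rot_zero_fun (aS θ b.1) fun _ => h _

/-- PROOF: `rot_comm_Es`. -/
theorem nA_comm_Es [IsTopologicalGroup G] [T2Space G] [LocallyCompactSpace G]
    (hV : V ∈ 𝓝 (1 : G)) (θ : Y → ℝ) (hφ : Cc _ G φ) (b : Y × P) (g : G) :
    Commute (nA Δ θ φ b g) (Es (Δ.D b.1).s) :=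
  rot_comm_Es (continuous_f2 (Δ := Δ) hV hφ b g) (dep_f2 (φ := φ) b g)

theorem nA_comm_Pp [IsTopologicalGroup G] [T2Space G] [LocallyCompactSpace G]
    (hV : V ∈ 𝓝 (1 : G)) (θ : Y → ℝ) (hφ : Cc _ G φ) (b : Y × P) (g : G) :
    Commute (nA Δ θ φ b g) Pp :=
  rot_comm_Pp (continuous_f2 (Δ := Δ) hV hφ b g)

/-- PROOF: `rot_comm_dia`, `continuous_f2`, `dep_f2`. -/
theorem nA_comm_dia [IsTopologicalGroup G] [T2Space G] [LocallyCompactSpace G]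
    (hV : V ∈ 𝓝 (1 : G)) (θ : Y → ℝ) (hφ : Cc _ G φ) (b : Y × P) (g : G)
    {h : Bs G → ℂ} {C : ℝ} (hC : 0 ≤ C) (hh : ∀ β, ‖h β‖ ≤ C)
    (hi : ∀ i ∈ (Δ.D b.1).s, aS θ b.1 i = 0 ∨ aS θ b.1 i = Real.pi / 2 ∨
      ∀ β, h (fl i β) = h β) :
    Commute (nA Δ θ φ b g) (dia h) :=
  rot_comm_dia (continuous_f2 (Δ := Δ) hV hφ b g) (dep_f2 (φ := φ) b g) hC hh hi

/-- The function read in absolute coordinates. -/
def gA (Δ : Df G Y V) (φ : Prs Δ × P → G → ℂ) [MulAction G P] (b : Y × P) (a a' : G)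
    (T : G → Bool) : ℂ :=
  φ (a⁻¹ • (Δ.pt b.1 {x | T x = false}, b.2)) (a⁻¹ * a')

variable [MulAction G P]

/-- PROOF: as `Cb.continuous_fA`, for any factor. -/
theorem continuous_gA [IsTopologicalGroup G] [T2Space G] [LocallyCompactSpace G] [T2Space Y]
    [ContinuousSMul G Y] [ContinuousSMul G P] (hV : IsOpen V) (h1 : (1 : G) ∈ V)
    (hφ : Cc _ G φ) (b : Y × P) (a a' : G) : Continuous (gA Δ φ b a a') := by
  have hV1 : V ∈ 𝓝 (1 : G) := hV.mem_nhds h1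
  have hprs : ContinuousSMul G (Prs Δ) := Prs.continuousSMul Δ hV1
  have h2 : Continuous fun T : G → Bool => Δ.pt b.1 {x | T x = false} :=
    Δ.continuous_pt hV1 b.1 false
  have h3 : Continuous fun T : G → Bool =>
      ((a⁻¹ • ((Δ.pt b.1 {x | T x = false}, b.2) : Prs Δ × P)), a⁻¹ * a') :=
    ((h2.prodMk continuous_const).const_smul a⁻¹).prodMk continuous_const
  exact hφ.cont.comp h3

/-- PROOF: as `Cb.dep_fA`. -/
theorem dep_gA (φ : Prs Δ × P → G → ℂ) (b : Y × P) (a a' : G) :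
    Dep (Δ.D b.1).s 0 (gA Δ φ b a a') := by
  intro T T' h
  have h1 : Δ.pt b.1 {x | T x = false} = Δ.pt b.1 {x | T' x = false} := by
    refine Δ.pt_congr ?_
    ext x
    constructor
    · rintro ⟨hx, hT⟩
      exact ⟨hx, by rw [Set.mem_ofPred_eq] at hT ⊢; rw [← h x hx]; exact hT⟩
    · rintro ⟨hx, hT⟩
      exact ⟨hx, by rw [Set.mem_ofPred_eq] at hT ⊢; rw [h x hx]; exact hT⟩
  unfold gA
  rw [h1, sub_self, norm_zero]

/-- The symbol in absolute coordinates. PROOF: as `h2` in the proof of `Cb.Sy_m2`: `Wg_rot`, `aS_smul`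
(`aS θ (a⁻¹ • y) (a⁻¹ * i) = aS θ y i`), `Df.pt_smul`. -/
theorem Wg_nA [IsTopologicalGroup G] [T2Space G] [LocallyCompactSpace G]
    (hV : V ∈ 𝓝 (1 : G)) (e : G ↪ O) (θ : Y → ℝ) (hφ : Cc _ G φ) (b : Y × P) (a a' : G) :
    Wg e a * nA Δ θ φ (a⁻¹ • b) (a⁻¹ * a') = rot (aS θ b.1) (gA Δ φ b a a') * Wg e a := by
  have hcf := continuous_f2 (Δ := Δ) hV hφ
  have h2 : nA Δ θ φ (a⁻¹ • b) (a⁻¹ * a') =
      rot (aS θ (a⁻¹ • b.1)) (f2 Δ φ (a⁻¹ • b) (a⁻¹ * a')) := rfl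
  have h3 : (fun i : G => aS θ (a⁻¹ • b.1) (a⁻¹ • i)) = aS θ b.1 := by
    funext i
    rw [aS_smul, inv_inv, smul_eq_mul, mul_inv_cancel_left]
  have h4 : (fun T : G → Bool => f2 Δ φ (a⁻¹ • b) (a⁻¹ * a') fun i : G => T (a • i)) =
      gA Δ φ b a a' := by
    funext T
    unfold f2 gA
    congr 2
    show Δ.pt (a⁻¹ • b.1) {x | T (a * x) = false} = a⁻¹ • Δ.pt b.1 _
    rw [Δ.pt_smul]
    congr 2
    ext x
    rw [Set.mem_ofPred_eq, Set.mem_ofPred_eq, Set.mem_ofPred_eq, mul_inv_cancel_left]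
  rw [h2, Wg_rot e a (hcf _ _), h3, h4]

theorem absS_nA [IsTopologicalGroup G] [T2Space G] [LocallyCompactSpace G]
    (hV : V ∈ 𝓝 (1 : G)) (e : G ↪ O) (θ : Y → ℝ) (hφ : Cc _ G φ) (b : Y × P) (a a' : G) :
    absS e (nA Δ θ φ) b a a' = rot (aS θ b.1) (gA Δ φ b a a') := by
  unfold absS
  rw [Wg_nA hV e θ hφ, mul_assoc, Wg_mul_inv, mul_one]

/-- The estimate of the condition `comm`, with an `R` which is uniform in the base point.
PROOF: the last part of the proof of `Cb.Sy_m2`, with `small_rot`. -/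
theorem nA_small [IsTopologicalGroup G] [T2Space G] [LocallyCompactSpace G] [T2Space Y]
    [ContinuousSMul G Y] [T2Space P] [ContinuousSMul G P] (hV : IsOpen V)
    (h1 : (1 : G) ∈ V) (e : G ↪ O) (W : Wc G) (θ : Y → ℝ) (hφ : Cc _ G φ) {C : Set G}
    (hC : IsCompact C) {η : ℝ} (hη : 0 < η) :
    ∃ R : ℝ, 0 < R ∧ ∀ b, ∀ g ∈ C,
      ‖(TT e 0 W.w * nA Δ θ φ b g - nA Δ θ φ b g * TT e 0 (W.tr g)) *
        Lg R (W.tr g) (Δ.D b.1).s‖ ≤ η := by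
  have hV1 : V ∈ 𝓝 (1 : G) := hV.mem_nhds h1
  obtain ⟨M, hM, hMφ⟩ := hφ.exists_bound
  have hcf := continuous_f2 (Δ := Δ) hV1 hφ
  obtain ⟨C₁, hC₁, hC₁f⟩ := exists_dep_f2 (Δ := Δ) hV h1 hφ (show 0 < η / 4 by linarith)
  obtain ⟨R₀, hR₀, h2⟩ := small_rot W e hV1 hC hC₁ (show 0 < η / (2 * M) by positivity)
  refine ⟨R₀, hR₀, fun b g hg => ?_⟩
  have hMn : ∀ x : ℂ, ‖(M : ℂ)⁻¹ * x‖ = M⁻¹ * ‖x‖ := by
    intro x
    rw [norm_mul, norm_inv, Complex.norm_real, Real.norm_eq_abs, abs_of_pos hM]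
  have h3 := h2 R₀ le_rfl g hg (Δ.D b.1).s (Δ.D b.1).sep
    (fun T => (M : ℂ)⁻¹ * f2 Δ φ b g T) (continuous_const.mul (hcf b g)) (fun T => ?_)
    (fun T T' hT => ?_) (η / (4 * M)) (fun T T' hT => ?_) (aS θ b.1)
  · rw [rot_smul (hcf b g), mul_smul_comm, smul_mul_assoc, ← smul_sub, smul_mul_assoc,
      norm_smul, norm_inv, Complex.norm_real, Real.norm_eq_abs, abs_of_pos hM,
      inv_mul_le_iff₀ hM] at h3
    unfold nA
    refine h3.trans (le_of_eq ?_)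
    field_simp
    ring
  · rw [hMn, inv_mul_le_iff₀ hM, mul_one]
    exact hMφ _ _
  · rw [← mul_sub, hMn]
    have h4 := dep_f2 (φ := φ) b g T T' hT
    have h5 : ‖f2 Δ φ b g T - f2 Δ φ b g T'‖ = 0 := le_antisymm h4 (norm_nonneg _)
    rw [h5, mul_zero]
  · rw [← mul_sub, hMn, inv_mul_le_iff₀ hM]
    refine (hC₁f b g T T' hT).trans (le_of_eq ?_)
    field_simp

/-- STAGE 2 WITH ANGLES, for any factor `P`. PROOF: as `Cb.Sy_m2`: `LocAt_rot`, `AAt_aS`, `FAt_f2`,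
`Wg_nA`, `continuous_rot_fun`, `comm_of`, `nA_small`. -/
theorem Sy_nA [IsTopologicalGroup G] [T2Space G] [LocallyCompactSpace G] [T2Space Y]
    [ContinuousSMul G Y] [T2Space P] [ContinuousSMul G P] (χ : Cb.Part V) (hV : IsOpen V)
    (h1 : (1 : G) ∈ V) (e : G ↪ O) (W : Wc G) {θ : Y → ℝ} (hθ : Continuous θ)
    (hφ : Cc _ G φ) :
    Sy χ e (Δ.base P) (fun a => TT e 0 (W.tr a)) (nA Δ θ φ) := by
  have hV1 : V ∈ 𝓝 (1 : G) := hV.mem_nhds h1
  obtain ⟨M, hM, hMφ⟩ := hφ.exists_bound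
  obtain ⟨C, hC, hCφ⟩ := hφ.exists_supp
  obtain ⟨K, hK, hKφ⟩ := hφ.exists_dec
  have hcf := continuous_f2 (Δ := Δ) hV1 hφ
  refine ⟨⟨M, fun b g => norm_nA_le hV1 θ hφ hM.le hMφ b g⟩,
    ⟨C, hC, fun b g hg => nA_eq_zero θ (fun b => hCφ b g hg) b⟩,
    ⟨K, hK, fun b hb g => nA_eq_zero_of_fibre θ fun T => hKφ b.1 _ b.2 g hb⟩,
    fun b g => nA_comm_Es hV1 θ hφ b g,
    fun b g => nA_comm_Pp hV1 θ hφ b g, ?_, ?_, ?_⟩
  · -- sc
    refine SC_of_LocAt χ hV1 e (Zp := (Y × P) × G) (D := fun z => (Δ.D z.1.1).s)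
      (n := fun z => nA Δ θ φ z.1 z.2) (C := M)
      ?_ (fun z => (Δ.D z.1.1).sep) (fun z => norm_nA_le hV1 θ hφ hM.le hMφ _ _)
      fun z₀ => ?_
    · exact ClV.continuous_iff_fell.1 (Δ.cont.comp (continuous_fst.comp continuous_fst))
    · exact LocAt_rot hV1 e
        (ClV.continuous_iff_fell.1 (Δ.cont.comp (continuous_fst.comp continuous_fst)))
        (fun z => (Δ.D z.1.1).sep) (fun z => hcf z.1 z.2) (fun z => dep_f2 z.1 z.2)
        (FAt_f2 hV h1 hφ z₀) (θ := fun z => aS θ z.1.1)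
        (AAt_aS hθ (y := fun z : (Y × P) × G => z.1.1) (continuous_fst.comp continuous_fst) _ z₀)
  · -- abs
    intro b
    have h2 : ∀ p : G × G, Wg e p.1 * nA Δ θ φ (p.1⁻¹ • b) (p.1⁻¹ * p.2) * Wg e p.1⁻¹ =
        rot (aS θ b.1) (gA Δ φ b p.1 p.2) := fun p => absS_nA hV1 e θ hφ b p.1 p.2
    simp only [h2]
    have := Prs.continuousSMul Δ hV1
    have h3 : Continuous fun q : (G × G) × (G → Bool) =>
        ((q.1.1⁻¹ • ((Δ.pt b.1 {x | q.2 x = false}, b.2) : Prs Δ × P)), q.1.1⁻¹ * q.1.2) := by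
      have h4 : Continuous fun q : (G × G) × (G → Bool) => Δ.pt b.1 {x | q.2 x = false} :=
        (Δ.continuous_pt hV1 b.1 false).comp continuous_snd
      have h5 : Continuous fun q : (G × G) × (G → Bool) => q.1.1 :=
        continuous_fst.comp continuous_fst
      have h6 : Continuous fun q : (G × G) × (G → Bool) => q.1.2 :=
        continuous_snd.comp continuous_fst
      exact (h5.inv.smul (h4.prodMk continuous_const)).prodMk (h5.inv.mul h6)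
    refine SC.of_norm (C := M) (continuous_rot_fun (k := fun p : G × G => gA Δ φ b p.1 p.2)
      (hφ.cont.comp h3) (aS θ b.1)) fun p => ?_
    exact norm_rot_le ((hφ.cont.comp h3).comp (Continuous.prodMk_right p)) hM.le
      (fun T => hMφ _ _) (aS θ b.1)
  · -- comm
    exact comm_of (Δ := Δ.base P) W e le_rfl zero_le_one (C := C)
      (fun b g hg => nA_eq_zero θ (fun b => hCφ b g hg) b)
      fun η hη => nA_small hV h1 e W θ hφ hC hη

/-- Time continuity. PROOF: as `Cb.n2_time`, `norm_rot_sub_angle`: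
`|aS (s θ) i - aS (s₀ θ) i| ≤ |s - s₀| C`. -/
theorem nA_time [IsTopologicalGroup G] [T2Space G] [LocallyCompactSpace G] [T2Space Y]
    [T2Space P] (hV : IsOpen V) (h1 : (1 : G) ∈ V) (hφ : Cc _ G φ) {θ : Y → ℝ} {C : ℝ}
    (hθ : ∀ y, |θ y| ≤ C) (s₀ : ℝ) {ε : ℝ} (hε : 0 < ε) : ∃ δ : ℝ, 0 < δ ∧ ∀ s, |s - s₀| < δ →
      ∀ b g, ‖nA Δ (fun y => s * θ y) φ b g - nA Δ (fun y => s₀ * θ y) φ b g‖ ≤ ε := by
  have hV1 : V ∈ 𝓝 (1 : G) := hV.mem_nhds h1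
  obtain ⟨M, hM, hMφ⟩ := hφ.exists_bound
  obtain ⟨C₁, hC₁, hCf⟩ := exists_dep_f2 (Δ := Δ) hV h1 hφ (show 0 < ε / 4 by linarith)
  obtain ⟨N, hN⟩ := exists_card_le hV1 hC₁
  have hC0 : 0 ≤ |C| := abs_nonneg C
  refine ⟨ε / (2 * (4 * N * |C| * M + 1)), by positivity, fun s hs b g => ?_⟩
  have hfin := Sep.finite_inter hV1 (Δ.D b.1).sep hC₁
  have h2 : Dep ((hfin.toFinset : Finset G) : Set G) (ε / 4) (f2 Δ φ b g) :=
    ((dep_f2 (φ := φ) b g).inter (hCf b g)).mono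
      (fun x hx => Finset.mem_coe.2 (hfin.mem_toFinset.2 ⟨hx.2, hx.1⟩)) le_rfl
  have h3 := norm_rot_sub_angle (continuous_f2 (Δ := Δ) hV1 hφ b g) hM.le (fun T => hMφ _ _)
    h2 (aS (fun y => s * θ y) b.1) (aS (fun y => s₀ * θ y) b.1)
  have h4 : (hfin.toFinset.card : ℝ) ≤ N := by
    exact_mod_cast hN hfin.toFinset ((Δ.D b.1).sep.mono fun x hx =>
      (hfin.mem_toFinset.1 (Finset.mem_coe.1 hx)).1) fun x hx => (hfin.mem_toFinset.1 hx).2
  have h9 : ∑ i ∈ hfin.toFinset, |aS (fun y => s * θ y) b.1 i - aS (fun y => s₀ * θ y) b.1 i| ≤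
      (hfin.toFinset.card : ℝ) * (|s - s₀| * |C|) := by
    rw [← nsmul_eq_mul]
    refine Finset.sum_le_card_nsmul _ _ _ fun i _ => ?_
    unfold aS
    rw [← sub_mul, abs_mul]
    exact mul_le_mul_of_nonneg_left ((hθ _).trans (le_abs_self C)) (abs_nonneg _)
  have h5 : 4 * (∑ i ∈ hfin.toFinset,
      |aS (fun y => s * θ y) b.1 i - aS (fun y => s₀ * θ y) b.1 i|) * M ≤ ε / 2 := by
    have h6 : |s - s₀| * (2 * (4 * N * |C| * M + 1)) < ε := (lt_div_iff₀ (by positivity)).1 hs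
    have h7 : 0 ≤ |s - s₀| := abs_nonneg _
    have h8 : 4 * (∑ i ∈ hfin.toFinset,
        |aS (fun y => s * θ y) b.1 i - aS (fun y => s₀ * θ y) b.1 i|) * M ≤
        4 * (N * (|s - s₀| * |C|)) * M := by
      have h10 : (hfin.toFinset.card : ℝ) * (|s - s₀| * |C|) ≤ N * (|s - s₀| * |C|) :=
        mul_le_mul_of_nonneg_right h4 (by positivity)
      have h11 := h9.trans h10
      have h12 : (0 : ℝ) ≤ 4 := by norm_num
      exact mul_le_mul_of_nonneg_right (mul_le_mul_of_nonneg_left h11 h12) hM.le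
    refine h8.trans ?_
    nlinarith
  refine h3.trans ?_
  linarith

/-- PROOF: `rot_of_zero`, `setOf_ind`. -/
theorem nA_zero [IsTopologicalGroup G] [T2Space G] [LocallyCompactSpace G]
    (hV : V ∈ 𝓝 (1 : G)) (hφ : Cc _ G φ) :
    nA Δ (fun _ => 0) φ =
      fun (b : Y × P) (g : G) => dia fun β : Bs G => φ (Δ.pt b.1 (β.F : Set G)ᶜ, b.2) g := by
  funext b g
  have hcf := continuous_f2 (Δ := Δ) hV hφ b g
  have h1 : nA Δ (fun _ => 0) φ b g = dF (f2 Δ φ b g) :=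
    rot_of_zero hcf (dep_f2 (φ := φ) b g) fun i _ => rfl
  rw [h1]
  unfold dF f2
  congr 1
  funext β
  rw [setOf_ind]

end Pool.Agent.Lib.MP_aa9b81_an.Tv
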