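import Pool.Agent.Lib.MP_aa9b81_an.Mg.G059

/-!
# Transversals, part K1: block operators on `ℓ²(P)`
-/

open scoped ENNReal Topology
open Function Filter

noncomputable section

set_option linter.unusedSectionVars false

namespace Pool.Agent.Lib.MP_aa9b81_an.Tv

open Cut Hs Cb

variable {P P₀ K K' : Type}

open Classical in
/-- The projection onto the coordinates with the label `k`. -/
def prj (κ : P → K) (k : K) : BL P := dia fun β => if κ β = k then 1 else 0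

open Classical in
private theorem prj_bd (κ : P → K) (k : K) (β : P) :
    ‖(if κ β = k then (1 : ℂ) else 0)‖ ≤ 1 := by
  split_ifs <;> simp

open Classical in
/-- PROOF: `dia_apply`. -/
theorem prj_apply (κ : P → K) (k : K) (ξ : L2 P) (β : P) :
    (prj κ k ξ : P → ℂ) β = if κ β = k then (ξ : P → ℂ) β else 0 := by
  rw [prj, dia_apply zero_le_one (prj_bd κ k)]
  split_ifs
  · rw [one_mul]
  · rw [zero_mul]

open Classical in
theorem prj_bv (κ : P → K) (k : K) (β : P) :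
    prj κ k (bv β) = if κ β = k then bv β else 0 := by
  rw [prj, dia_bv (prj_bd κ k)]
  split_ifs
  · rw [one_smul]
  · rw [zero_smul]

theorem norm_prj_le (κ : P → K) (k : K) : ‖prj κ k‖ ≤ 1 :=
  norm_dia_le zero_le_one (prj_bd κ k)

theorem prj_prj (κ : P → K) (k : K) (ξ : L2 P) : prj κ k (prj κ k ξ) = prj κ k ξ := by
  ext β
  rw [prj_apply, prj_apply]
  split_ifs <;> rfl

/-- Parseval for the labels. PROOF: `‖ξ‖² = ∑' β, ‖ξ β‖²`, sum over the fibres of `κ`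
(`Summable.tsum_sigma'`, `Equiv.sigmaFiberEquiv`, or `HasSum.sigma`). -/
theorem hasSum_prj (κ : P → K) (ξ : L2 P) : HasSum (fun k => ‖prj κ k ξ‖ ^ 2) (‖ξ‖ ^ 2) := by
  have h0 : HasSum (fun β => ‖(ξ : P → ℂ) β‖ ^ 2) (‖ξ‖ ^ 2) := by
    rw [norm_sq_L2]
    exact (summable_L2 ξ).hasSum
  have h1 := (Equiv.sigmaFiberEquiv κ).hasSum_iff.2 h0
  refine h1.sigma fun k => ?_
  have h2 : HasSum (fun β => ‖(prj κ k ξ : P → ℂ) β‖ ^ 2) (‖prj κ k ξ‖ ^ 2) := by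
    rw [norm_sq_L2]
    exact (summable_L2 _).hasSum
  have h3 : Function.support (fun β => ‖(prj κ k ξ : P → ℂ) β‖ ^ 2) ⊆ {β | κ β = k} := by
    intro β hβ
    by_contra h4
    apply hβ
    have h5 : ¬ κ β = k := h4
    show ‖(prj κ k ξ : P → ℂ) β‖ ^ 2 = 0
    rw [prj_apply, if_neg h5]
    simp
  have h6 := (hasSum_subtype_iff_of_support_subset h3).2 h2
  have h7 : (fun c : {β // κ β = k} =>
      ((fun β => ‖(ξ : P → ℂ) β‖ ^ 2) ∘ (Equiv.sigmaFiberEquiv κ)) ⟨k, c⟩) =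
      (fun β => ‖(prj κ k ξ : P → ℂ) β‖ ^ 2) ∘ (Subtype.val : {β | κ β = k} → P) := by
    funext c
    have h8 : κ c.1 = k := c.2
    show ‖(ξ : P → ℂ) c.1‖ ^ 2 = ‖(prj κ k ξ : P → ℂ) c.1‖ ^ 2
    rw [prj_apply, if_pos h8]
  rw [h7]
  exact h6

/-- An operator which maps the coordinates with label `k` to the coordinates with label `k`, with
norm at most `C` on each of them, has norm at most `C`. PROOF: `‖X ξ‖² = ∑ ‖prj κ k (X ξ)‖² =
∑ ‖X (prj κ₀ k ξ)‖² = ∑ ‖(X ∘ prj κ₀ k) (prj κ₀ k ξ)‖² ≤ C² ∑ ‖prj κ₀ k ξ‖²` (`hasSum_prj`). -/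
theorem norm_le_of_blocks {κ₀ : P₀ → K} {κ : P → K} {X : L2 P₀ →L[ℂ] L2 P} {C : ℝ} (hC : 0 ≤ C)
    (hX : ∀ k, (prj κ k).comp X = X.comp (prj κ₀ k)) (hb : ∀ k, ‖X.comp (prj κ₀ k)‖ ≤ C) :
    ‖X‖ ≤ C := by
  refine ContinuousLinearMap.opNorm_le_bound _ hC fun ξ => ?_
  have h1 := hasSum_prj κ (X ξ)
  have h2 := (hasSum_prj κ₀ ξ).mul_left (C ^ 2)
  have h3 : ‖X ξ‖ ^ 2 ≤ C ^ 2 * ‖ξ‖ ^ 2 := by
    refine hasSum_le (fun k => ?_) h1 h2
    have h4 : prj κ k (X ξ) = X.comp (prj κ₀ k) (prj κ₀ k ξ) := by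
      have h5 : (prj κ k).comp X ξ = X.comp (prj κ₀ k) ξ := by rw [hX k]
      show (prj κ k).comp X ξ = X (prj κ₀ k (prj κ₀ k ξ))
      rw [prj_prj, h5]
      rfl
    rw [h4, ← mul_pow]
    refine pow_le_pow_left₀ (norm_nonneg _) ?_ 2
    exact (ContinuousLinearMap.le_opNorm _ _).trans
      (mul_le_mul_of_nonneg_right (hb k) (norm_nonneg _))
  rw [← mul_pow] at h3
  exact le_of_sq_le_sq h3 (mul_nonneg hC (norm_nonneg _))

/-- The data of a block operator. -/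
structure BkOK (κ : P → K) (x : K → BL P) (C : ℝ) : Prop where
  nonneg : 0 ≤ C
  bdd : ∀ k, ‖x k‖ ≤ C
  comm : ∀ k, Commute (x k) (prj κ k)

private theorem comm_apply {κ : P → K} {X : BL P} {k : K} (h : Commute X (prj κ k)) (ξ : L2 P) :
    X (prj κ k ξ) = prj κ k (X ξ) := by
  have h1 : (X * prj κ k) ξ = (prj κ k * X) ξ := by rw [h.eq]
  exact h1

private theorem Bk_hasSum {κ : P → K} {x : K → BL P} {C : ℝ} (h : BkOK κ x C) (ξ : L2 P) :
    ∃ s : ℝ, HasSum (fun β => ‖(x (κ β) ξ : P → ℂ) β‖ ^ 2) s ∧ s ≤ C ^ 2 * ‖ξ‖ ^ 2 := by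
  have h1 := (hasSum_prj κ ξ).mul_left (C ^ 2)
  have h2 : ∀ k, ‖prj κ k (x k ξ)‖ ^ 2 ≤ C ^ 2 * ‖prj κ k ξ‖ ^ 2 := by
    intro k
    rw [← comm_apply (h.comm k) ξ, ← mul_pow]
    refine pow_le_pow_left₀ (norm_nonneg _) ?_ 2
    exact (ContinuousLinearMap.le_opNorm _ _).trans
      (mul_le_mul_of_nonneg_right (h.bdd k) (norm_nonneg _))
  have h3 : Summable fun k => ‖prj κ k (x k ξ)‖ ^ 2 :=
    Summable.of_nonneg_of_le (fun _ => by positivity) h2 h1.summable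
  have h4 : ∀ k, HasSum (fun c : {β // κ β = k} => ‖(x (κ c.1) ξ : P → ℂ) c.1‖ ^ 2)
      (‖prj κ k (x k ξ)‖ ^ 2) := by
    intro k
    have h5 : HasSum (fun β => ‖(prj κ k (x k ξ) : P → ℂ) β‖ ^ 2) (‖prj κ k (x k ξ)‖ ^ 2) := by
      rw [norm_sq_L2]
      exact (summable_L2 _).hasSum
    have h6 : Function.support (fun β => ‖(prj κ k (x k ξ) : P → ℂ) β‖ ^ 2) ⊆ {β | κ β = k} := by
      intro β hβ
      by_contra h4
      apply hβ
      have h5 : ¬ κ β = k := h4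
      show ‖(prj κ k (x k ξ) : P → ℂ) β‖ ^ 2 = 0
      rw [prj_apply, if_neg h5]
      simp
    have h7 := (hasSum_subtype_iff_of_support_subset h6).2 h5
    have h8 : (fun c : {β // κ β = k} => ‖(x (κ c.1) ξ : P → ℂ) c.1‖ ^ 2) =
        (fun β => ‖(prj κ k (x k ξ) : P → ℂ) β‖ ^ 2) ∘ (Subtype.val : {β | κ β = k} → P) := by
      funext c
      have h9 : κ c.1 = k := c.2
      show ‖(x (κ c.1) ξ : P → ℂ) c.1‖ ^ 2 = ‖(prj κ k (x k ξ) : P → ℂ) c.1‖ ^ 2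
      rw [prj_apply, if_pos h9, h9]
    rw [h8]
    exact h7
  have h5 : Summable fun p : Σ k, {β // κ β = k} => ‖(x (κ p.2.1) ξ : P → ℂ) p.2.1‖ ^ 2 := by
    refine (summable_sigma_of_nonneg fun _ => by positivity).2 ⟨fun k => (h4 k).summable, ?_⟩
    refine h3.congr fun k => ?_
    exact (h4 k).tsum_eq.symm
  have h6 : HasSum (fun p : Σ k, {β // κ β = k} => ‖(x (κ p.2.1) ξ : P → ℂ) p.2.1‖ ^ 2)
      (∑' k, ‖prj κ k (x k ξ)‖ ^ 2) := by
    have h7 := h5.hasSum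
    have h8 := h7.sigma h4
    rw [h8.tsum_eq]
    exact h7
  refine ⟨∑' k, ‖prj κ k (x k ξ)‖ ^ 2, ?_, ?_⟩
  · exact (Equiv.sigmaFiberEquiv κ).hasSum_iff.1 h6
  · exact hasSum_le h2 h3.hasSum h1

private theorem Bk_memℓp {κ : P → K} {x : K → BL P} {C : ℝ} (h : BkOK κ x C) (ξ : L2 P) :
    Memℓp (fun β => (x (κ β) ξ : P → ℂ) β) 2 := by
  obtain ⟨s, h1, -⟩ := Bk_hasSum h ξ
  exact memℓp_two h1.summable

private theorem Bk_norm {κ : P → K} {x : K → BL P} {C : ℝ} (h : BkOK κ x C) (ξ : L2 P) :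
    ‖(⟨fun β => (x (κ β) ξ : P → ℂ) β, Bk_memℓp h ξ⟩ : L2 P)‖ ≤ C * ‖ξ‖ := by
  obtain ⟨s, h1, h2⟩ := Bk_hasSum h ξ
  refine le_of_sq_le_sq ?_ (mul_nonneg h.nonneg (norm_nonneg _))
  rw [norm_sq_L2, mul_pow]
  refine le_trans (le_of_eq ?_) h2
  exact h1.tsum_eq

/-- PROOF: for `ξ ∈ ℓ²` the function `β ↦ (x (κ β) ξ) β` is square summable with
`∑_β |(x (κ β) ξ) β|² = ∑_k ‖prj κ k (x k ξ)‖² = ∑_k ‖x k (prj κ k ξ)‖² ≤ C² ‖ξ‖²`
(`hasSum_prj`; compare `exists_wop` in Hs/A1a.lean for the construction of the operator). -/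
theorem exists_Bk {κ : P → K} {x : K → BL P} {C : ℝ} (h : BkOK κ x C) :
    ∃ T : BL P, ‖T‖ ≤ C ∧ ∀ (ξ : L2 P) (β : P), (T ξ : P → ℂ) β = (x (κ β) ξ : P → ℂ) β := by
  refine ⟨LinearMap.mkContinuous
    { toFun := fun ξ => ⟨fun β => (x (κ β) ξ : P → ℂ) β, Bk_memℓp h ξ⟩
      map_add' := fun ξ η => by
        ext β
        change (x (κ β) (ξ + η) : P → ℂ) β = (x (κ β) ξ : P → ℂ) β + (x (κ β) η : P → ℂ) β
        rw [map_add]
        rfl
      map_smul' := fun c ξ => by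
        ext β
        change (x (κ β) (c • ξ) : P → ℂ) β = c * (x (κ β) ξ : P → ℂ) β
        rw [map_smul]
        rfl } C (Bk_norm h), ?_, ?_⟩
  · exact LinearMap.mkContinuous_norm_le _ h.nonneg _
  · intro ξ q
    rfl

open Classical in
/-- The block operator: `x k` on the coordinates with the label `k`. -/
def Bk (κ : P → K) (x : K → BL P) : BL P :=
  if h : ∃ C, BkOK κ x C then (exists_Bk h.choose_spec).choose else 0

theorem Bk_apply {κ : P → K} {x : K → BL P} {C : ℝ} (h : BkOK κ x C) (ξ : L2 P) (β : P) :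
    (Bk κ x ξ : P → ℂ) β = (x (κ β) ξ : P → ℂ) β := by
  have h' : ∃ C, BkOK κ x C := ⟨C, h⟩
  rw [Bk, dif_pos h']
  exact (exists_Bk h'.choose_spec).choose_spec.2 ξ β

theorem norm_Bk_le {κ : P → K} {x : K → BL P} {C : ℝ} (h : BkOK κ x C) : ‖Bk κ x‖ ≤ C := by
  obtain ⟨T, hT, hT'⟩ := exists_Bk h
  have h1 : Bk κ x = T := by
    refine ContinuousLinearMap.ext fun ξ => ?_
    ext q
    rw [Bk_apply h, hT']
  rw [h1]
  exact hT

private theorem off_block {κ : P → K} {X : BL P} {k : K} (h : Commute X (prj κ k)) {β β' : P}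
    (hk : κ β = k ∧ κ β' ≠ k ∨ κ β ≠ k ∧ κ β' = k) : (X (bv β) : P → ℂ) β' = 0 := by
  rcases hk with ⟨h1, h2⟩ | ⟨h1, h2⟩
  · have h3 : X (bv β) = prj κ k (X (bv β)) := by
      rw [← comm_apply h, prj_bv, if_pos h1]
    rw [h3, prj_apply, if_neg h2]
  · have h3 : (prj κ k (X (bv β)) : P → ℂ) β' = 0 := by
      rw [← comm_apply h, prj_bv, if_neg h1, map_zero]
      rfl
    rw [prj_apply, if_pos h2] at h3
    exact h3

/-- PROOF: coordinates at `β'`: if `κ β' = κ β` both sides agree. Otherwise both are `0`: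
`(x (κ β') (bv β)) β' = (prj κ (κ β') (x (κ β') (bv β))) β' = (x (κ β') (prj κ (κ β') (bv β))) β' = 0`,
and `(x (κ β) (bv β)) β' = (prj κ (κ β) (x (κ β) (bv β))) β' = 0`. -/
theorem Bk_bv {κ : P → K} {x : K → BL P} {C : ℝ} (h : BkOK κ x C) (β : P) :
    Bk κ x (bv β) = x (κ β) (bv β) := by
  ext β'
  rw [Bk_apply h]
  by_cases h1 : κ β' = κ β
  · rw [h1]
  · rw [off_block (h.comm (κ β')) (Or.inr ⟨fun h2 => h1 h2.symm, rfl⟩),
      off_block (h.comm (κ β)) (Or.inl ⟨rfl, h1⟩)]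

/-- PROOF: coordinates, `Bk_apply`: `prj` picks the coordinates with `κ β = k`. -/
theorem prj_mul_Bk {κ : P → K} {x : K → BL P} {C : ℝ} (h : BkOK κ x C) (k : K) :
    prj κ k * Bk κ x = prj κ k * x k := by
  refine ContinuousLinearMap.ext fun ξ => ?_
  ext β
  rw [mul_apply_eq_comp, mul_apply_eq_comp, prj_apply, prj_apply, Bk_apply h]
  split_ifs with h1
  · rw [h1]
  · rfl

theorem Bk_mul_prj {κ : P → K} {x : K → BL P} {C : ℝ} (h : BkOK κ x C) (k : K) :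
    Bk κ x * prj κ k = x k * prj κ k := by
  refine ext_op fun β => ?_
  rw [mul_apply_eq_comp, mul_apply_eq_comp, prj_bv]
  split_ifs with h1
  · rw [Bk_bv h, h1]
  · rw [map_zero, map_zero]

/-- PROOF: agree on the basis vectors (`ext_op` in Cb/F3.lean), `Bk_bv`. -/
theorem Bk_mul {κ : P → K} {x y : K → BL P} {C C' : ℝ} (h : BkOK κ x C) (h' : BkOK κ y C') :
    BkOK κ (fun k => x k * y k) (C * C') ∧ Bk κ (fun k => x k * y k) = Bk κ x * Bk κ y := by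
  have h1 : BkOK κ (fun k => x k * y k) (C * C') :=
    ⟨mul_nonneg h.nonneg h'.nonneg, fun k => (norm_mul_le _ _).trans
      (mul_le_mul (h.bdd k) (h'.bdd k) (norm_nonneg _) h.nonneg),
      fun k => (h.comm k).mul_left (h'.comm k)⟩
  refine ⟨h1, ext_op fun β => ?_⟩
  rw [Bk_bv h1, mul_apply_eq_comp, mul_apply_eq_comp, Bk_bv h']
  have h2 : y (κ β) (bv β) = prj κ (κ β) (y (κ β) (bv β)) := by
    rw [← comm_apply (h'.comm _), prj_bv, if_pos rfl]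
  rw [h2]
  have h3 := Bk_mul_prj h (κ β)
  have h4 : (Bk κ x * prj κ (κ β)) (y (κ β) (bv β)) = (x (κ β) * prj κ (κ β)) (y (κ β) (bv β)) := by
    rw [h3]
  exact h4.symm

theorem Bk_add {κ : P → K} {x y : K → BL P} {C C' : ℝ} (h : BkOK κ x C) (h' : BkOK κ y C') :
    BkOK κ (fun k => x k + y k) (C + C') ∧ Bk κ (fun k => x k + y k) = Bk κ x + Bk κ y := by
  have h1 : BkOK κ (fun k => x k + y k) (C + C') :=
    ⟨add_nonneg h.nonneg h'.nonneg, fun k => (norm_add_le _ _).trans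
      (add_le_add (h.bdd k) (h'.bdd k)), fun k => (h.comm k).add_left (h'.comm k)⟩
  refine ⟨h1, ext_op fun β => ?_⟩
  rw [Bk_bv h1, add_apply, add_apply, Bk_bv h, Bk_bv h']

theorem Bk_sub {κ : P → K} {x y : K → BL P} {C C' : ℝ} (h : BkOK κ x C) (h' : BkOK κ y C') :
    BkOK κ (fun k => x k - y k) (C + C') ∧ Bk κ (fun k => x k - y k) = Bk κ x - Bk κ y := by
  have h1 : BkOK κ (fun k => x k - y k) (C + C') :=
    ⟨add_nonneg h.nonneg h'.nonneg, fun k => (norm_sub_le _ _).trans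
      (add_le_add (h.bdd k) (h'.bdd k)), fun k => (h.comm k).sub_left (h'.comm k)⟩
  refine ⟨h1, ext_op fun β => ?_⟩
  rw [Bk_bv h1, sub_apply, sub_apply, Bk_bv h, Bk_bv h']

theorem BkOK.zero (κ : P → K) : BkOK κ (fun _ => (0 : BL P)) 0 :=
  ⟨le_rfl, fun _ => by rw [norm_zero], fun _ => Commute.zero_left _⟩

theorem Bk_zero (κ : P → K) : Bk κ (fun _ => (0 : BL P)) = 0 := by
  refine ext_op fun β => ?_
  rw [Bk_bv (BkOK.zero κ)]

/-- PROOF: `Bk_bv`: on `bv β`: `m (x (κ β) (bv β)) = Bk κ (fun k => m * x k) (bv β)`. -/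
theorem mul_Bk {κ : P → K} {x : K → BL P} {C : ℝ} (h : BkOK κ x C) {m : BL P}
    (hm : ∀ k, Commute m (prj κ k)) :
    BkOK κ (fun k => m * x k) (‖m‖ * C) ∧ m * Bk κ x = Bk κ (fun k => m * x k) := by
  have h1 : BkOK κ (fun k => m * x k) (‖m‖ * C) :=
    ⟨mul_nonneg (norm_nonneg _) h.nonneg, fun k => (norm_mul_le _ _).trans
      (mul_le_mul_of_nonneg_left (h.bdd k) (norm_nonneg _)),
      fun k => (hm k).mul_left (h.comm k)⟩
  refine ⟨h1, ext_op fun β => ?_⟩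
  rw [Bk_bv h1, mul_apply_eq_comp, mul_apply_eq_comp, Bk_bv h]

theorem Bk_mul_right {κ : P → K} {x : K → BL P} {C : ℝ} (h : BkOK κ x C) {m : BL P}
    (hm : ∀ k, Commute m (prj κ k)) :
    BkOK κ (fun k => x k * m) (C * ‖m‖) ∧ Bk κ x * m = Bk κ (fun k => x k * m) := by
  have h1 : BkOK κ (fun _ => m) ‖m‖ := ⟨norm_nonneg _, fun _ => le_rfl, hm⟩
  have h2 := Bk_mul h h1
  refine ⟨h2.1, ?_⟩
  rw [h2.2]
  congr 1
  refine ext_op fun β => ?_
  rw [Bk_bv h1]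

/-- PROOF: `mul_Bk`, `Bk_mul_right`. -/
theorem Bk_comm {κ : P → K} {x : K → BL P} {C : ℝ} (h : BkOK κ x C) {m : BL P}
    (hm : ∀ k, Commute m (prj κ k)) (hx : ∀ k, Commute (x k) m) : Commute (Bk κ x) m := by
  show Bk κ x * m = m * Bk κ x
  rw [(Bk_mul_right h hm).2, (mul_Bk h hm).2]
  congr 1
  funext k
  exact (hx k).eq

/-- Multiplication operators commute. -/
theorem dia_comm_prj {h : P → ℂ} {C : ℝ} (hC : ∀ b, ‖h b‖ ≤ C) (κ : P → K) (k : K) :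
    Commute (dia h) (prj κ k) := by
  show dia h * prj κ k = prj κ k * dia h
  refine ext_op fun β => ?_
  rw [mul_apply_eq_comp, mul_apply_eq_comp, prj_bv, dia_bv hC]
  split_ifs with h1
  · rw [dia_bv hC, map_smul, prj_bv, if_pos h1]
  · rw [map_zero, map_smul, prj_bv, if_neg h1, smul_zero]

section Wg

variable {I O Γ : Type} [DecidableEq I] [LinearOrder O] [Group Γ] [MulAction Γ I]

/-- Covariance. PROOF: on a basis vector: `Wg e g (bv β) = sign • bv (g • β)` (`Wg_bv`), `Bk_bv`, and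
`x' (κ' (g β)) (Wg (bv β)) = Wg (x (σ (κ' (g β))) (bv β))`, `σ (κ' (g β)) = κ (g⁻¹ g β) = κ β`. -/
theorem Wg_Bk (e : I ↪ O) (g : Γ) {κ : Bs I → K} {κ' : Bs I → K'} {x : K → BL (Bs I)}
    {x' : K' → BL (Bs I)} (σ : K' → K) (hσ : ∀ β, κ (g⁻¹ • β) = σ (κ' β))
    (hx : ∀ k, Wg e g * x (σ k) = x' k * Wg e g) {C C' : ℝ} (h : BkOK κ x C)
    (h' : BkOK κ' x' C') : Wg e g * Bk κ x = Bk κ' x' * Wg e g := by
  refine ext_op fun β => ?_
  rw [mul_apply_eq_comp, mul_apply_eq_comp, Bk_bv h, Wg_bv, map_smul, Bk_bv h', ← map_smul,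
    ← Wg_bv e g β]
  have h1 : κ β = σ (κ' (g • β)) := by
    rw [← hσ, inv_smul_smul]
  rw [h1]
  have h2 : (Wg e g * x (σ (κ' (g • β)))) (bv β) = (x' (κ' (g • β)) * Wg e g) (bv β) := by
    rw [hx]
  exact h2

end Wg

/-- Strong continuity. PROOF: `SC.of_bv`, `Bk_bv`. -/
theorem SC_Bk {Z : Type} [TopologicalSpace Z] {κ : P → K} {x : Z → K → BL P} {C : ℝ}
    (h : ∀ z, BkOK κ (x z) C) (hc : ∀ k, SC fun z => x z k) : SC fun z => Bk κ (x z) := by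
  refine SC.of_bv (C := C) (fun z => norm_Bk_le (h z)) fun β => ?_
  have h1 : (fun z => Bk κ (x z) (bv β)) = fun z => x z (κ β) (bv β) := by
    funext z
    exact Bk_bv (h z) β
  rw [h1]
  exact (hc (κ β)).cont (bv β)

end Pool.Agent.Lib.MP_aa9b81_an.Tv
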