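import Pool.Agent.Lib.MP_aa9b81_an.Mg.G063
import Pool.Agent.Lib.MP_aa9b81_an.Mg.G067
import Pool.Agent.Lib.MP_aa9b81_an.Tv.K1

/-!
# Transversals, part K2: block operators on `L²(G, ℓ²(ℕ × P))`
-/

open scoped ENNReal Topology
open Function Filter MeasureTheory

noncomputable section

set_option linter.unusedSectionVars false

namespace Pool.Agent.Lib.MP_aa9b81_an.Tv

open Cut Hs Cb

variable {G P K : Type} [Group G] [TopologicalSpace G] [IsTopologicalGroup G]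
  [LocallyCompactSpace G] [SecondCountableTopology G] [T2Space G] [MeasurableSpace G]
  [BorelSpace G]

open Classical in
/-- PROOF: `Mul_comp_Mul`, `s0_comp_am_dia` (as `Leb_aux`, Cb/Leb.lean). -/
theorem slg_cm_prj (κ : P → K) (k : K) (ξ : HG G (ℕ × P)) (β : P) :
    slg β ((cm (prj κ k) : HG G (ℕ × P) →L[ℂ] HG G (ℕ × P)) ξ) =
      if κ β = k then slg β ξ else 0 := by
  have h1 : (slg β).comp (cm (prj κ k) : HG G (ℕ × P) →L[ℂ] HG G (ℕ × P)) =
      (if κ β = k then (1 : ℂ) else 0) • (slg β : HG G (ℕ × P) →L[ℂ] HG G ℕ) := by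
    rw [slg, cm, Mul_comp_Mul (SC.const _) (SC.const _), ← Mul_smul (SC.const _)]
    congr 1
    funext a
    unfold prj
    exact s0_comp_am_dia (C := 1) (h := fun β => if κ β = k then (1 : ℂ) else 0)
      (fun β => by split_ifs <;> simp) β
  have h2 := DFunLike.congr_fun h1 ξ
  rw [ContinuousLinearMap.comp_apply, ContinuousLinearMap.smul_apply] at h2
  rw [h2]
  split_ifs
  · rw [one_smul]
  · rw [zero_smul]

/-- The slices in one fibre. -/
private theorem K2_fib (κ : P → K) (k : K) (η : HG G (ℕ × P)) :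
    HasSum (fun c : {β // κ β = k} => ‖slg (c : P) η‖ ^ 2)
      (‖(cm (prj κ k) : HG G (ℕ × P) →L[ℂ] HG G (ℕ × P)) η‖ ^ 2) := by
  classical
  have h1 := hasSum_slg ((cm (prj κ k) : HG G (ℕ × P) →L[ℂ] HG G (ℕ × P)) η)
  have h2 : (fun β => ‖slg β ((cm (prj κ k) : HG G (ℕ × P) →L[ℂ] HG G (ℕ × P)) η)‖ ^ 2) =
      Set.indicator {β | κ β = k} fun β => ‖slg β η‖ ^ 2 := by
    funext β
    rw [slg_cm_prj, Set.indicator_apply]
    by_cases h : κ β = k
    · rw [if_pos h, if_pos (show β ∈ {β | κ β = k} from h)]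
    · rw [if_neg h, if_neg (show β ∉ {β | κ β = k} from h), norm_zero]
      norm_num
  rw [h2] at h1
  exact hasSum_subtype_iff_indicator.2 h1

/-- PROOF: `hasSum_slg`, `slg_cm_prj`, sum over the fibres of `κ`. -/
theorem hasSum_cm_prj (κ : P → K) (ξ : HG G (ℕ × P)) :
    HasSum (fun k => ‖(cm (prj κ k) : HG G (ℕ × P) →L[ℂ] HG G (ℕ × P)) ξ‖ ^ 2) (‖ξ‖ ^ 2) := by
  have h1 := (Equiv.hasSum_iff (Equiv.sigmaFiberEquiv κ)).2 (hasSum_slg ξ)
  exact h1.sigma fun k => K2_fib κ k ξ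

/-- The data of a block operator. -/
structure BgOK (κ : P → K) (x : K → (HG G (ℕ × P) →L[ℂ] HG G (ℕ × P))) (C : ℝ) : Prop where
  nonneg : 0 ≤ C
  bdd : ∀ k, ‖x k‖ ≤ C
  comm : ∀ k, Commute (x k) (cm (prj κ k))

/-- PROOF: for `ξ` let `T ξ` be the vector with the slices `slg β (x (κ β) ξ)` (`exists_of_slg`,
unique by `ext_slg`); `∑_β ‖slg β (x (κ β) ξ)‖² = ∑_k ‖cm (prj κ k) (x k ξ)‖² =
∑_k ‖x k (cm (prj κ k) ξ)‖² ≤ C² ‖ξ‖²`. Compare `exists_bd` (Cb/Leb.lean). -/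
theorem exists_Bg {κ : P → K} {x : K → (HG G (ℕ × P) →L[ℂ] HG G (ℕ × P))} {C : ℝ}
    (h : BgOK κ x C) : ∃ T : HG G (ℕ × P) →L[ℂ] HG G (ℕ × P), ‖T‖ ≤ C ∧
      ∀ ξ β, slg β (T ξ) = slg β (x (κ β) ξ) := by
  have hC := h.nonneg
  have hfib : ∀ (ξ : HG G (ℕ × P)) (k : K),
      HasSum (fun c : {β // κ β = k} => ‖slg (c : P) (x (κ c) ξ)‖ ^ 2)
        (‖(cm (prj κ k) : HG G (ℕ × P) →L[ℂ] HG G (ℕ × P)) (x k ξ)‖ ^ 2) := by
    intro ξ k
    have h1 := K2_fib κ k (x k ξ)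
    have h2 : (fun c : {β // κ β = k} => ‖slg (c : P) (x (κ c) ξ)‖ ^ 2) =
        fun c : {β // κ β = k} => ‖slg (c : P) (x k ξ)‖ ^ 2 := by
      funext c
      rw [c.2]
    rw [h2]
    exact h1
  have hle : ∀ (ξ : HG G (ℕ × P)) (k : K),
      ‖(cm (prj κ k) : HG G (ℕ × P) →L[ℂ] HG G (ℕ × P)) (x k ξ)‖ ^ 2 ≤
        C ^ 2 * ‖(cm (prj κ k) : HG G (ℕ × P) →L[ℂ] HG G (ℕ × P)) ξ‖ ^ 2 := by
    intro ξ k
    have h1 : (cm (prj κ k) : HG G (ℕ × P) →L[ℂ] HG G (ℕ × P)) (x k ξ) =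
        x k ((cm (prj κ k) : HG G (ℕ × P) →L[ℂ] HG G (ℕ × P)) ξ) :=
      DFunLike.congr_fun (h.comm k).symm ξ
    rw [h1, ← mul_pow]
    refine pow_le_pow_left₀ (norm_nonneg _) ?_ 2
    exact (ContinuousLinearMap.le_opNorm _ _).trans
      (mul_le_mul_of_nonneg_right (h.bdd k) (norm_nonneg _))
  have hsum : ∀ ξ : HG G (ℕ × P), Summable fun β => ‖slg β (x (κ β) ξ)‖ ^ 2 := by
    intro ξ
    rw [← (Equiv.sigmaFiberEquiv κ).summable_iff]
    refine (summable_sigma_of_nonneg fun c => by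
      exact sq_nonneg _).2 ⟨fun k => (hfib ξ k).summable, ?_⟩
    have h1 : (fun k => ∑' c : {β // κ β = k},
        ((fun β => ‖slg β (x (κ β) ξ)‖ ^ 2) ∘ (Equiv.sigmaFiberEquiv κ)) ⟨k, c⟩) =
        fun k => ‖(cm (prj κ k) : HG G (ℕ × P) →L[ℂ] HG G (ℕ × P)) (x k ξ)‖ ^ 2 := by
      funext k
      exact (hfib ξ k).tsum_eq
    rw [h1]
    exact Summable.of_nonneg_of_le (fun k => sq_nonneg _) (hle ξ)
      ((hasSum_cm_prj κ ξ).summable.mul_left (C ^ 2))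
  have hex : ∀ ξ : HG G (ℕ × P), ∃ η : HG G (ℕ × P), ∀ β, slg β η = slg β (x (κ β) ξ) := fun ξ =>
    exists_of_slg (hsum ξ)
  choose T hT using hex
  have hadd : ∀ ξ η, T (ξ + η) = T ξ + T η := by
    intro ξ η
    refine ext_slg fun β => ?_
    rw [hT, map_add, map_add, map_add, hT, hT]
  have hsmul : ∀ (c : ℂ) ξ, T (c • ξ) = c • T ξ := by
    intro c ξ
    refine ext_slg fun β => ?_
    rw [hT, map_smul, map_smul, map_smul, hT]
  have hb : ∀ ξ, ‖T ξ‖ ≤ C * ‖ξ‖ := by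
    intro ξ
    have h0 := (Equiv.hasSum_iff (Equiv.sigmaFiberEquiv κ)).2 (hasSum_slg (T ξ))
    have h1 : HasSum (fun k => ‖(cm (prj κ k) : HG G (ℕ × P) →L[ℂ] HG G (ℕ × P)) (x k ξ)‖ ^ 2)
        (‖T ξ‖ ^ 2) := by
      refine h0.sigma fun k => ?_
      have h3 : (fun c : {β // κ β = k} =>
          ((fun β => ‖slg β (T ξ)‖ ^ 2) ∘ (Equiv.sigmaFiberEquiv κ)) ⟨k, c⟩) =
          fun c : {β // κ β = k} => ‖slg (c : P) (x (κ c) ξ)‖ ^ 2 := by
        funext c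
        show ‖slg (c : P) (T ξ)‖ ^ 2 = _
        rw [hT]
      rw [h3]
      exact hfib ξ k
    have h2 := (hasSum_cm_prj κ ξ).mul_left (C ^ 2)
    have h3 : ‖T ξ‖ ^ 2 ≤ C ^ 2 * ‖ξ‖ ^ 2 := hasSum_le (hle ξ) h1 h2
    rw [← mul_pow] at h3
    exact le_of_sq_le_sq h3 (by positivity)
  refine ⟨LinearMap.mkContinuous ⟨⟨T, hadd⟩, hsmul⟩ C hb,
    LinearMap.mkContinuous_norm_le _ hC _, fun ξ β => ?_⟩
  exact hT ξ β

open Classical in
/-- The block operator: `x k` on the slices with the label `k`. -/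
def Bg (κ : P → K) (x : K → (HG G (ℕ × P) →L[ℂ] HG G (ℕ × P))) :
    HG G (ℕ × P) →L[ℂ] HG G (ℕ × P) :=
  if h : ∃ C, BgOK κ x C then (exists_Bg h.choose_spec).choose else 0

theorem slg_Bg {κ : P → K} {x : K → (HG G (ℕ × P) →L[ℂ] HG G (ℕ × P))} {C : ℝ}
    (h : BgOK κ x C) (ξ : HG G (ℕ × P)) (β : P) : slg β (Bg κ x ξ) = slg β (x (κ β) ξ) := by
  have h' : ∃ C, BgOK κ x C := ⟨C, h⟩
  rw [Bg, dif_pos h']
  exact (exists_Bg h'.choose_spec).choose_spec.2 ξ β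

theorem norm_Bg_le {κ : P → K} {x : K → (HG G (ℕ × P) →L[ℂ] HG G (ℕ × P))} {C : ℝ}
    (h : BgOK κ x C) : ‖Bg κ x‖ ≤ C := by
  obtain ⟨T, hT, hT'⟩ := exists_Bg h
  have h1 : Bg κ x = T := ContinuousLinearMap.ext fun ξ => ext_slg fun β => by
    rw [slg_Bg h, hT']
  rw [h1]
  exact hT

theorem Bg_add {κ : P → K} {x y : K → (HG G (ℕ × P) →L[ℂ] HG G (ℕ × P))} {C C' : ℝ}
    (h : BgOK κ x C) (h' : BgOK κ y C') :
    Bg κ (fun k => x k + y k) = Bg κ x + Bg κ y := by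
  have hs : BgOK κ (fun k => x k + y k) (C + C') :=
    ⟨add_nonneg h.nonneg h'.nonneg, fun k => (norm_add_le _ _).trans
      (add_le_add (h.bdd k) (h'.bdd k)), fun k => (h.comm k).add_left (h'.comm k)⟩
  refine ContinuousLinearMap.ext fun ξ => ext_slg fun β => ?_
  rw [slg_Bg hs, ContinuousLinearMap.add_apply, ContinuousLinearMap.add_apply, map_add, map_add,
    slg_Bg h, slg_Bg h']

/-- PROOF: `ext_slg`: `slg β (x (κ β) (y (κ β) ξ)) = slg β (x (κ β) (Bg κ y ξ))`: the two vectors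
`y k ξ` and `Bg κ y ξ` have the same image under `cm (prj κ k)`, `k = κ β`, which commutes with
`x k`, and `slg β ∘ cm (prj κ (κ β)) = slg β`. -/
theorem Bg_mul {κ : P → K} {x y : K → (HG G (ℕ × P) →L[ℂ] HG G (ℕ × P))} {C C' : ℝ}
    (h : BgOK κ x C) (h' : BgOK κ y C') :
    Bg κ (fun k => x k * y k) = Bg κ x * Bg κ y := by
  have hs : BgOK κ (fun k => x k * y k) (C * C') :=
    ⟨mul_nonneg h.nonneg h'.nonneg, fun k => (norm_mul_le _ _).trans
      (mul_le_mul (h.bdd k) (h'.bdd k) (norm_nonneg _) h.nonneg),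
      fun k => (h.comm k).mul_left (h'.comm k)⟩
  refine ContinuousLinearMap.ext fun ξ => ext_slg fun β => ?_
  rw [slg_Bg hs]
  change slg β (x (κ β) (y (κ β) ξ)) = slg β (Bg κ x (Bg κ y ξ))
  rw [slg_Bg h]
  have key : ∀ η : HG G (ℕ × P), slg β η =
      slg β ((cm (prj κ (κ β)) : HG G (ℕ × P) →L[ℂ] HG G (ℕ × P)) η) := by
    intro η
    rw [slg_cm_prj, if_pos rfl]
  have hc : ∀ η : HG G (ℕ × P),
      (cm (prj κ (κ β)) : HG G (ℕ × P) →L[ℂ] HG G (ℕ × P)) (x (κ β) η) =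
        x (κ β) ((cm (prj κ (κ β)) : HG G (ℕ × P) →L[ℂ] HG G (ℕ × P)) η) := fun η =>
    DFunLike.congr_fun (h.comm (κ β)).symm η
  have he : (cm (prj κ (κ β)) : HG G (ℕ × P) →L[ℂ] HG G (ℕ × P)) (y (κ β) ξ) =
      (cm (prj κ (κ β)) : HG G (ℕ × P) →L[ℂ] HG G (ℕ × P)) (Bg κ y ξ) := by
    refine ext_slg fun γ => ?_
    rw [slg_cm_prj, slg_cm_prj]
    by_cases hγ : κ γ = κ β
    · rw [if_pos hγ, if_pos hγ, slg_Bg h', hγ]
    · rw [if_neg hγ, if_neg hγ]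
  rw [key, hc, he, ← hc, ← key]

theorem Bg_zero (κ : P → K) :
    Bg κ (fun _ => (0 : HG G (ℕ × P) →L[ℂ] HG G (ℕ × P))) = 0 := by
  have hs : BgOK κ (fun _ => (0 : HG G (ℕ × P) →L[ℂ] HG G (ℕ × P))) 0 :=
    ⟨le_rfl, fun k => by rw [norm_zero], fun k => Commute.zero_left _⟩
  refine ContinuousLinearMap.ext fun ξ => ext_slg fun β => ?_
  rw [slg_Bg hs, ContinuousLinearMap.zero_apply]

/-- PROOF: `Mul_comp_opk`, `opk_comp_Mul`, `am_comp_ek`, `ek_comp_am`. -/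
theorem opk_comm_prj {C : Set G} {M : ℝ} {k : G → G → BL P} {i j : ℕ}
    (hk : KOK C M fun a a' => ek i j (k a a')) {κ : P → K} {l : K}
    (hc : ∀ a a', Commute (k a a') (prj κ l)) :
    Commute (opk (G := G) fun a a' => ek i j (k a a')) (cm (prj κ l)) := by
  have h1 : (cm (prj κ l) : HG G (ℕ × P) →L[ℂ] _).comp
      (opk fun a a' => ek i j (k a a')) =
      opk fun a a' => (am (prj κ l)).comp (ek i j (k a a')) :=
    Mul_comp_opk hk (SC.const _)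
  have h2 : (opk fun a a' => ek i j (k a a')).comp
      (cm (prj κ l) : HG G (ℕ × P) →L[ℂ] _) =
      opk fun a a' => (ek i j (k a a')).comp (am (prj κ l)) :=
    opk_comp_Mul hk (SC.const _)
  show (opk fun a a' => ek i j (k a a')).comp
      (cm (prj κ l) : HG G (ℕ × P) →L[ℂ] _) =
    (cm (prj κ l) : HG G (ℕ × P) →L[ℂ] _).comp
      (opk fun a a' => ek i j (k a a'))
  rw [h1, h2]
  congr 1
  funext a a'
  rw [am_comp_ek, ek_comp_am]
  exact congrArg (ek i j) (hc a a')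

private theorem K2_s0_ek {κ : P → K} {x : K → BL P} {C : ℝ} (h : BkOK κ x C) (i j : ℕ) (β : P) :
    (s0 β).comp (ek i j (Bk κ x)) = (s0 β).comp (ek i j (x (κ β))) := by
  have h1 : ∀ (m : BL P) (ξ : L2 (ℕ × P)) (k : ℕ), (ek i j m ξ : ℕ × P → ℂ) (k, β) =
      (sl (Equiv.refl _) k (ek i j m ξ) : P → ℂ) β := by
    intro m ξ k
    rw [sl_apply]
    rfl
  refine ContinuousLinearMap.ext fun ξ => ?_
  ext k
  rw [ContinuousLinearMap.comp_apply, ContinuousLinearMap.comp_apply, s0_apply, s0_apply, h1, h1,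
    sl_ek, sl_ek]
  by_cases hk : k = i
  · rw [if_pos hk, if_pos hk, Bk_apply h]
  · rw [if_neg hk, if_neg hk]

/-- The block operator of kernel operators. PROOF: `ext_slg`; `slg β ∘ opk k = opk (fun a a' =>
(s0 β).comp (k a a'))` (`Mul_comp_opk`), and `(s0 β).comp (ek i j (Bk κ x)) =
(s0 β).comp (ek i j (x (κ β)))` (coordinates, `Bk_apply`). -/
theorem Bg_opk {C : Set G} {M : ℝ} {k : K → G → G → BL P} {i j : ℕ} {κ : P → K}
    (hk : ∀ l, KOK C M fun a a' => ek i j (k l a a'))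
    (hB : KOK C M fun a a' => ek i j (Bk κ fun l => k l a a'))
    (hx : ∀ a a', ∃ C', BkOK κ (fun l => k l a a') C') :
    Bg κ (fun l => opk (G := G) fun a a' => ek i j (k l a a')) =
      opk fun a a' => ek i j (Bk κ fun l => k l a a') := by
  have hs : BgOK κ (fun l => opk (G := G) fun a a' => ek i j (k l a a')) (|M| * cs C) :=
    ⟨mul_nonneg (abs_nonneg _) (Real.sqrt_nonneg _), fun l => (norm_opk_le (hk l)).trans
      (mul_le_mul_of_nonneg_right (le_abs_self M) (Real.sqrt_nonneg _)),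
      fun l => opk_comm_prj (hk l) fun a a' => (hx a a').choose_spec.comm l⟩
  refine ContinuousLinearMap.ext fun ξ => ext_slg fun β => ?_
  rw [slg_Bg hs]
  have h1 : (slg β).comp (opk fun a a' => ek i j (k (κ β) a a')) =
      opk fun a a' => (s0 β).comp (ek i j (k (κ β) a a')) := by
    rw [slg, Mul_comp_opk (hk (κ β)) (SC.const (s0 β))]
  have h2 : (slg β).comp (opk fun a a' => ek i j (Bk κ fun l => k l a a')) =
      opk fun a a' => (s0 β).comp (ek i j (Bk κ fun l => k l a a')) := by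
    rw [slg, Mul_comp_opk hB (SC.const (s0 β))]
  have h3 : (slg β).comp (opk (G := G) fun a a' => ek i j (k (κ β) a a')) =
      (slg β).comp (opk fun a a' => ek i j (Bk κ fun l => k l a a')) := by
    rw [h1, h2]
    congr 1
    funext a a'
    obtain ⟨C', hC'⟩ := hx a a'
    exact (K2_s0_ek hC' i j β).symm
  exact DFunLike.congr_fun h3 ξ

end Pool.Agent.Lib.MP_aa9b81_an.Tv
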