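import Pool.Agent.Lib.MP_aa9b81_an.Tv.A8
import Pool.Agent.Lib.MP_aa9b81_an.Tv.K2
import Pool.Agent.Lib.MP_aa9b81_an.Cb.Lm

/-!
# Transversals, part A9: the homomorphism of the symbols with angles
-/

open scoped ENNReal Topology CompactlySupported
open Function Filter MeasureTheory

noncomputable section

set_option linter.unusedSectionVars false

namespace Pool.Agent.Lib.MP_aa9b81_an.Tv

open Cut Hs Cb
open Mc (UKf UKf_empty UKf_insert UKf_congr UKf_comm UKf_sdiff norm_UKf_le)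

variable {G O Y P : Type} [Group G] [TopologicalSpace G] [IsTopologicalGroup G]
  [LocallyCompactSpace G] [SecondCountableTopology G] [T2Space G] [MeasurableSpace G]
  [BorelSpace G] [DecidableEq G] [LinearOrder O]
  [TopologicalSpace Y] [MulAction G Y] [TopologicalSpace P] [MulAction G P]
  {V : Set G} {Δ : Df G Y V}

variable (Δ) in
/-- The reading of stage 1, for any factor `P`; for `P = Cone Q × Z` it is `Cb.r1`. -/
def rP (b : Y × P) (β : Bs G) : Option (Prs Δ × P) := some (Δ.pt b.1 (β.F : Set G)ᶜ, b.2)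

/-- PROOF: as `Cb.r1_smul`. -/
theorem rP_smul (g : G) (b : Y × P) (β : Bs G) :
    rP Δ (g • b) (g • β) = (rP Δ b β).map fun b' => g • b' := by
  have h : {x : G | g * x ∈ ((gF g β.F : Finset G) : Set G)ᶜ} = (β.F : Set G)ᶜ := by
    ext x
    show g * x ∉ ((gF g β.F : Finset G) : Set G) ↔ x ∉ (β.F : Set G)
    rw [Finset.mem_coe, mem_gF, Finset.mem_coe, smul_eq_mul, inv_mul_cancel_left]
  show some (Δ.pt (g • b.1) (((gF g β.F : Finset G) : Set G)ᶜ), g • b.2) =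
    some (g • Δ.pt b.1 (β.F : Set G)ᶜ, g • b.2)
  rw [Δ.pt_smul, h]

/-- The rotations. -/
def uA (θ : Y → ℝ) (L : Y × P → ℕ → Finset G) (n : ℕ) : FamG G (ℕ × Bs G) (Y × P) :=
  fam fun b => cm (UKf (L b n) (aS θ b.1) : BL (Bs G))

theorem uA_apply (θ : Y → ℝ) (L : Y × P → ℕ → Finset G) (n : ℕ) (b : Y × P) :
    (uA θ L n : FamG G (ℕ × Bs G) (Y × P)).fn b =
      cm (UKf (L b n) (aS θ b.1) : BL (Bs G)) := by
  exact fam_apply (C := 1) (fun b => (norm_cm_le _).trans (norm_UKf _ _)) b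

theorem norm_uA_le (θ : Y → ℝ) (L : Y × P → ℕ → Finset G) (n : ℕ) :
    ‖(uA θ L n : FamG G (ℕ × Bs G) (Y × P))‖ ≤ 1 := by
  exact norm_fam_le zero_le_one fun b => (norm_cm_le _).trans (norm_UKf _ _)

omit [DecidableEq G] in
theorem A9_aS_neg (θ : Y → ℝ) (y : Y) :
    (aS (fun y => -θ y) y : G → ℝ) = -aS θ y := rfl

theorem uA_mul_uA_neg (θ : Y → ℝ) (L : Y × P → ℕ → Finset G) (n : ℕ) :
    (uA θ L n : FamG G (ℕ × Bs G) (Y × P)) * uA (fun y => -θ y) L n = 1 := by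
  refine FamG.ext fun b => ?_
  rw [FamG.mul_apply, FamG.one_apply, uA_apply, uA_apply, ← cm_mul, A9_aS_neg, UKf_mul_UKf_neg,
    cm_one]

theorem A9_neg_mul (θ : Y → ℝ) (L : Y × P → ℕ → Finset G) (n : ℕ) :
    (uA (fun y => -θ y) L n : FamG G (ℕ × Bs G) (Y × P)) * uA θ L n = 1 := by
  refine FamG.ext fun b => ?_
  rw [FamG.mul_apply, FamG.one_apply, uA_apply, uA_apply, ← cm_mul, A9_aS_neg, UKf_neg_mul_UKf,
    cm_one]

/-- PROOF: as `Cb.tendsto_sigL`. -/
theorem tendsto_rL {D : Set G} {L : ℕ → Finset G} (hm : Monotone L)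
    (hL : ∀ x ∈ D, ∃ n, x ∈ L n) {f : (G → Bool) → ℂ} (hf : Continuous f) (hD : Dep D 0 f)
    (θ : G → ℝ) : Tendsto (fun n => rL (L n) θ f) atTop (𝓝 (rot θ f)) := by
  rw [Metric.tendsto_atTop]
  intro ε hε
  obtain ⟨L', hL'⟩ := exists_dep hf (show 0 < ε / 3 by linarith)
  have h1 := hD.inter hL'
  have h2 : ∀ x : G, ∃ n, x ∈ D → x ∈ L n := by
    intro x
    by_cases hx : x ∈ D
    · obtain ⟨n, hn⟩ := hL x hx
      exact ⟨n, fun _ => hn⟩
    · exact ⟨0, fun h => absurd h hx⟩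
  choose m hm' using h2
  refine ⟨L'.sup m, fun n hn => ?_⟩
  have h3 : Dep ((L n : Finset G) : Set G) (ε / 3) f := by
    refine h1.mono (fun x hx => ?_) le_rfl
    exact hm ((Finset.le_sup (Finset.mem_coe.1 hx.1)).trans hn) (hm' x hx.2)
  have h4 := norm_rot_sub_le hf h3 θ
  have h5 := norm_rL_sub_rs_le h3 (Finset.Subset.refl (L n)) θ
  rw [dist_eq_norm]
  have h6 : rL (L n) θ f - rot θ f = (rL (L n) θ f - rL (L n) θ fun T => f (rs (L n) T)) -
      (rot θ f - rL (L n) θ fun T => f (rs (L n) T)) := by abel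
  rw [h6]
  have h7 := norm_sub_le (rL (L n) θ f - rL (L n) θ fun T => f (rs (L n) T))
    (rot θ f - rL (L n) θ fun T => f (rs (L n) T))
  linarith

variable [T2Space Y] [LocallyCompactSpace Y] [ContinuousSMul G Y] [T2Space P]
  [LocallyCompactSpace P] [ContinuousSMul G P]

/-- PROOF: `absS_nr` for `rP`: the function at `β` is `gA (ind β.F)`. -/
theorem A9_absS_1 [T2Space (Prs Δ)] [ContinuousSMul G (Prs Δ)] (e : G ↪ O)
    {φ : Prs Δ × P → G → ℂ} (hφ : Cc _ G φ) (b : Y × P) (a a' : G) :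
    absS e (nr (rP Δ) φ) b a a' = dF (gA Δ φ b a a') := by
  obtain ⟨M, hM, hMφ⟩ := hφ.exists_bound
  rw [absS_nr e rP_smul hMφ hM.le]
  unfold dF
  congr 1
  funext β
  unfold gA
  rw [setOf_ind]
  rfl

/-- The strong limit on the generators. PROOF: as `Cb.SLim_gen`. -/
theorem SLim_genA (hV : IsOpen V) (h1 : (1 : G) ∈ V) (e : G ↪ O) {θ : Y → ℝ}
    (hθ : Continuous θ) {L : Y × P → ℕ → Finset G} (hm : ∀ b, Monotone (L b))
    (hL : ∀ b, ∀ x ∈ (Δ.D b.1).s, ∃ n, x ∈ L b n) (φ : C_c((Prs Δ × P) × G, ℂ)) (i j : ℕ) :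
    SLim (fun n => uA (fun y => -θ y) L n *
        oS e (nr (rP Δ) (fun b g => φ (b, g)) : Y × P → G → BL (Bs G)) i j * uA θ L n)
      (oS e (nA Δ θ fun b g => φ (b, g)) i j) := by
  have hT2 : T2Space (Prs Δ) := Prs.t2Space Δ (hV.mem_nhds h1)
  have hCS : ContinuousSMul G (Prs Δ) := Prs.continuousSMul Δ (hV.mem_nhds h1)
  have hφ : Cc (Prs Δ × P) G fun b g => φ (b, g) :=
    ⟨φ.continuous, φ.hasCompactSupport⟩
  obtain ⟨χ⟩ := exists_part (G := G) (hV.mem_nhds h1)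
  obtain ⟨W⟩ := exists_wc (G := G)
  have hn1 : Sy χ e (Δ.base P) (fun a => TT e 0 (W.tr a))
      (nr (rP Δ) (fun b g => φ (b, g)) : Y × P → G → BL (Bs G)) := by
    have h2 := Sy_nA (Δ := Δ) (P := P) χ hV h1 e W (θ := fun _ => 0) continuous_const hφ
    rw [nA_zero (hV.mem_nhds h1) hφ] at h2
    exact h2
  have hn2 := Sy_nA (Δ := Δ) (P := P) χ hV h1 e W hθ hφ
  obtain ⟨C, M, hk⟩ := KOK_absS hn1
  obtain ⟨C', M', hk'⟩ := KOK_absS hn2
  intro b ξ
  have hU : ∀ n (t : G → ℝ), SC fun _ : G => am (UKf (L b n) t : BL (Bs G)) := fun n t =>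
    SC.const _
  have hUn : ∀ n (t : G → ℝ) (a : G), ‖(am (UKf (L b n) t : BL (Bs G)))‖ ≤ 1 := fun n t _ =>
    (norm_am_le _).trans (norm_UKf _ _)
  have hleft : ∀ n, KOK C (1 * M) fun a a' => (am (UKf (L b n) (-aS θ b.1) : BL (Bs G))).comp
      (ek i j (absS e (nr (rP Δ) fun b g => φ (b, g)) b a a')) := fun n =>
    KOK.left (hk b i j) (hU n (-aS θ b.1)) zero_le_one (hUn n (-aS θ b.1))
  have hboth : ∀ n, KOK C (1 * M * 1) fun a a' => ((am (UKf (L b n) (-aS θ b.1) : BL (Bs G))).comp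
      (ek i j (absS e (nr (rP Δ) fun b g => φ (b, g)) b a a'))).comp
        (am (UKf (L b n) (aS θ b.1) : BL (Bs G))) := fun n =>
    KOK.right (hleft n) (hU n (aS θ b.1)) zero_le_one (hUn n (aS θ b.1))
  have hker : ∀ n a a', ((am (UKf (L b n) (-aS θ b.1) : BL (Bs G))).comp
      (ek i j (absS e (nr (rP Δ) fun b g => φ (b, g)) b a a'))).comp
        (am (UKf (L b n) (aS θ b.1) : BL (Bs G))) =
      ek i j (rL (L b n) (aS θ b.1) (gA Δ (fun b g => φ (b, g)) b a a')) := by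
    intro n a a'
    rw [am_comp_ek, ek_comp_am, A9_absS_1 e hφ]
    rfl
  have hlim : ∀ a a', ek i j (absS e (nA Δ θ fun b g => φ (b, g)) b a a') =
      ek i j (rot (aS θ b.1) (gA Δ (fun b g => φ (b, g)) b a a')) := by
    intro a a'
    rw [absS_nA (hV.mem_nhds h1) e θ hφ]
  have hseq : ∀ n, (uA (fun y => -θ y) L n * oS e (nr (rP Δ) fun b g => φ (b, g)) i j *
      uA θ L n).fn b =
      opk fun a a' => ek i j (rL (L b n) (aS θ b.1) (gA Δ (fun b g => φ (b, g)) b a a')) := by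
    intro n
    rw [FamG.mul_apply, FamG.mul_apply, uA_apply, uA_apply, oS_apply hn1, A9_aS_neg]
    show ((cm (UKf (L b n) (-aS θ b.1) : BL (Bs G))).comp (opk fun a a' => ek i j
      (absS e (nr (rP Δ) fun b g => φ (b, g)) b a a'))).comp
        (cm (UKf (L b n) (aS θ b.1) : BL (Bs G))) = _
    unfold cm
    rw [Mul_comp_opk (hk b i j) (hU n (-aS θ b.1)), opk_comp_Mul (hleft n) (hU n (aS θ b.1))]
    congr 1
    funext a a'
    exact hker n a a'
  have hseq2 : (oS e (nA Δ θ fun b g => φ (b, g)) i j).fn b =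
      opk fun a a' => ek i j (rot (aS θ b.1) (gA Δ (fun b g => φ (b, g)) b a a')) := by
    rw [oS_apply hn2]
    congr 1
    funext a a'
    exact hlim a a'
  rw [hseq2]
  simp only [hseq]
  simp only [hker] at hboth
  have hk2 := hk' b i j
  simp only [hlim] at hk2
  have hM0 : 0 ≤ max (1 * M * 1) M' := le_max_of_le_right hk2.nonneg
  refine tendsto_opk (C := C ∪ C') (M := max (1 * M * 1) M') (fun n => ?_) ?_
    (fun a a' v => ?_) ξ
  · refine (hboth n).mono ((hboth n).cpt.union hk2.cpt) hM0 (fun a a' =>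
      ((hboth n).bdd a a').trans (le_max_left _ _)) fun a a' h =>
        (hboth n).supp a a' fun h' => h (Or.inl h')
  · refine hk2.mono ((hboth 0).cpt.union hk2.cpt) hM0 (fun a a' =>
      (hk2.bdd a a').trans (le_max_right _ _)) fun a a' h =>
        hk2.supp a a' fun h' => h (Or.inr h')
  · have h5 := tendsto_rL (hm b) (hL b) (continuous_gA (Δ := Δ) (P := P) hV h1 hφ b a a')
      (dep_gA (fun b g => φ (b, g)) b a a') (aS θ b.1)
    have h6 : Tendsto (fun n => ‖rL (L b n) (aS θ b.1) (gA Δ (fun b g => φ (b, g)) b a a') -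
        rot (aS θ b.1) (gA Δ (fun b g => φ (b, g)) b a a')‖ * ‖v‖) atTop (𝓝 (0 * ‖v‖)) :=
      (tendsto_iff_norm_sub_tendsto_zero.1 h5).mul_const _
    rw [zero_mul] at h6
    refine tendsto_iff_norm_sub_tendsto_zero.2 (squeeze_zero (fun n => norm_nonneg _)
      (fun n => ?_) h6)
    rw [← _root_.sub_apply, ← ek_sub]
    exact (ContinuousLinearMap.le_opNorm _ _).trans
      (mul_le_mul_of_nonneg_right (norm_ek_le _ _ _) (norm_nonneg _))

variable [T2Space (Prs Δ)] [ContinuousSMul G (Prs Δ)]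

/-- THE HOMOMORPHISM OF STAGE 2 WITH ANGLES. PROOF: as `Cb.exists_SH2`. -/
theorem exists_SHA (hV : IsOpen V) (h1 : (1 : G) ∈ V) (e : G ↪ O) {θ : Y → ℝ}
    (hθ : Continuous θ) :
    ∃ Th : FamG G ℕ (Prs Δ × P) → FamG G (ℕ × Bs G) (Y × P), SH e Th (nA Δ θ) := by
  classical
  have hV1 : V ∈ 𝓝 (1 : G) := hV.mem_nhds h1
  choose L hm hLs hL using fun b : Y × P => exists_exh hV1 (Δ.D b.1)
  have h : SH e (Thr (rP Δ (P := P))) (nr (B := Y × P) (rP Δ)) :=
    SH_Thr e rP_smul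
  let F : FamG G ℕ (Prs Δ × P) → ℕ → FamG G (ℕ × Bs G) (Y × P) := fun x n =>
    uA (fun y => -θ y) L n * Thr (rP Δ) x * uA θ L n
  have hF : ∀ x n, F x n = uA (fun y => -θ y) L n * Thr (rP Δ) x * uA θ L n := fun x n => rfl
  have hgenL : ∀ (φ : C_c((Prs Δ × P) × G, ℂ)) (i j : ℕ),
      SLim (F (gen φ i j)) (oS e (nA Δ θ fun b g => φ (b, g)) i j) := by
    intro φ i j
    have h2 := SLim_genA (Δ := Δ) (P := P) hV h1 e hθ hm hL φ i j
    have h3 : F (gen φ i j) = fun n => uA (fun y => -θ y) L n *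
        oS e (nr (rP Δ) fun b g => φ (b, g)) i j * uA θ L n := by
      funext n
      rw [hF, h.gen]
    rw [h3]
    exact h2
  have hnm : ∀ (n : ℕ) (y : FamG G (ℕ × Bs G) (Y × P)),
      ‖uA (fun y => -θ y) L n * y * uA θ L n‖ ≤ ‖y‖ := by
    intro n y
    have h2 := norm_mul_le (uA (fun y => -θ y) L n * y) (uA θ L n)
    have h3 := norm_mul_le (uA (fun y => -θ y) L n) y
    have h4 : ‖(uA (fun y => -θ y) L n : FamG G (ℕ × Bs G) (Y × P))‖ ≤ 1 := norm_uA_le (fun y => -θ y) L n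
    have h5 : ‖(uA θ L n : FamG G (ℕ × Bs G) (Y × P))‖ ≤ 1 := norm_uA_le θ L n
    have h6 := norm_nonneg y
    have h7 := norm_nonneg (uA (fun y => -θ y) L n * y)
    have h8 := norm_nonneg (uA θ L n : FamG G (ℕ × Bs G) (Y × P))
    have h9 := norm_nonneg (uA (fun y => -θ y) L n : FamG G (ℕ × Bs G) (Y × P))
    nlinarith
  have hFn : ∀ x ∈ cpG G ℕ (Prs Δ × P), ∀ n, ‖F x n‖ ≤ ‖x‖ := fun x hx n =>
    (hnm n _).trans (h.norm x hx)
  have hFadd : ∀ x ∈ cpG G ℕ (Prs Δ × P), ∀ y ∈ cpG G ℕ (Prs Δ × P),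
      F (x + y) = fun n => F x n + F y n := by
    intro x hx y hy
    funext n
    simp only [hF]
    rw [h.add x hx y hy, mul_add, add_mul]
  have hFmul : ∀ x ∈ cpG G ℕ (Prs Δ × P), ∀ y ∈ cpG G ℕ (Prs Δ × P),
      F (x * y) = fun n => F x n * F y n := by
    intro x hx y hy
    funext n
    simp only [hF]
    rw [h.mul x hx y hy]
    have h2 : (uA θ L n : FamG G (ℕ × Bs G) (Y × P)) * uA (fun y => -θ y) L n = 1 :=
      uA_mul_uA_neg θ L n
    calc uA (fun y => -θ y) L n * (Thr (rP Δ) x * Thr (rP Δ) y) * uA θ L n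
        = uA (fun y => -θ y) L n * Thr (rP Δ) x * 1 * Thr (rP Δ) y * uA θ L n := by
          rw [mul_one]
          simp only [mul_assoc]
      _ = uA (fun y => -θ y) L n * Thr (rP Δ) x * (uA θ L n * uA (fun y => -θ y) L n) * Thr (rP Δ) y *
            uA θ L n := by rw [h2]
      _ = _ := by simp only [mul_assoc]
  have hex : ∀ x ∈ cpG G ℕ (Prs Δ × P), x ∈ cpG G ℕ (Prs Δ × P) ∧
      ∃ y, SLim (F x) y := by
    refine cpG_induction (p := fun x => x ∈ cpG G ℕ (Prs Δ × P) ∧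
      ∃ y, SLim (F x) y) ?_ ?_ ?_ ?_
    · refine isClosed_of_closure_subset fun x hx => ?_
      have hxc : x ∈ cpG G ℕ (Prs Δ × P) := by
        have h2 := closure_mono (show {x | x ∈ cpG G ℕ (Prs Δ × P) ∧
          ∃ y, SLim (F x) y} ⊆ (cpG G ℕ (Prs Δ × P) : Set _) from fun x hx => hx.1) hx
        rwa [isClosed_cpG.closure_eq] at h2
      refine ⟨hxc, exists_SLim (hFn x hxc) fun ε hε => ?_⟩
      obtain ⟨x', hx', hd⟩ := Metric.mem_closure_iff.1 hx ε hε
      obtain ⟨y', hy'⟩ := hx'.2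
      refine ⟨F x', y', hy', fun n => ?_⟩
      have h2 : F x n - F x' n =
          uA (fun y => -θ y) L n * (Thr (rP Δ) x - Thr (rP Δ) x') * uA θ L n := by
        simp only [hF]
        rw [mul_sub, sub_mul]
      rw [h2]
      refine (hnm n _).trans ((h.norm_sub_le x hxc x' hx'.1).trans ?_)
      rw [← dist_eq_norm]
      exact hd.le
    · refine ⟨zero_mem _, 0, fun b ξ => ?_⟩
      have h2 : ∀ n, F 0 n = 0 := by
        intro n
        rw [hF, h.zero, mul_zero, zero_mul]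
      simp only [h2]
      exact tendsto_const_nhds
    · rintro x y ⟨hx, x', hx'⟩ ⟨hy, y', hy'⟩
      refine ⟨add_mem hx hy, x' + y', ?_⟩
      rw [hFadd x hx y hy]
      exact hx'.add hy'
    · intro φ i j
      exact ⟨gen_mem φ i j, _, hgenL φ i j⟩
  let Th : FamG G ℕ (Prs Δ × P) → FamG G (ℕ × Bs G) (Y × P) := fun x =>
    if hx : ∃ y, SLim (F x) y then hx.choose else 0
  have hTh : ∀ x ∈ cpG G ℕ (Prs Δ × P), SLim (F x) (Th x) := by
    intro x hx
    have h2 : ∃ y, SLim (F x) y := (hex x hx).2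
    have h3 : Th x = h2.choose := dif_pos h2
    rw [h3]
    exact h2.choose_spec
  refine ⟨Th, ⟨fun x hx y hy => ?_, fun x hx y hy => ?_, fun x hx => ?_, fun φ i j => ?_⟩⟩
  · have h2 := hTh (x + y) (add_mem hx hy)
    rw [hFadd x hx y hy] at h2
    exact h2.unique ((hTh x hx).add (hTh y hy))
  · have h2 := hTh (x * y) (mul_mem hx hy)
    rw [hFmul x hx y hy] at h2
    exact h2.unique ((hTh x hx).mul (hFn x hx) (hTh y hy))
  · exact (hTh x hx).norm_le (norm_nonneg x) (hFn x hx)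
  · exact (hTh _ (gen_mem φ i j)).unique (hgenL φ i j)

end Pool.Agent.Lib.MP_aa9b81_an.Tv
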