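import Pool.Agent.Lib.MP_aa9b81_an.Mg.G034

/-!
# Transversals, part D1: windows from property A, integrals
-/

open scoped ENNReal Topology CompactlySupported
open Function Filter MeasureTheory

noncomputable section

set_option linter.unusedSectionVars false

namespace Pool.Agent.Lib.MP_aa9b81_an.Tv

open Cut Hs Cb

/-- Window functions: `z k` is supported in the translate `t k K`, `∑ z k a ^ 2 = 1`, and
`∑ z k a * z k b` is near to `1` if `a⁻¹ b ∈ C`. -/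
structure Win {G : Type} [Group G] [TopologicalSpace G] (C K : Set G) (ε : ℝ) (z : ℕ → G → ℝ)
    (t : ℕ → G) : Prop where
  cont : ∀ k, Continuous (z k)
  nonneg : ∀ k a, 0 ≤ z k a
  supp : ∀ k a, z k a ≠ 0 → (t k)⁻¹ * a ∈ K
  fin : ∀ S : Set G, IsCompact S → {k | ∃ a ∈ S, z k a ≠ 0}.Finite
  sum_sq : ∀ (F : Finset ℕ) (a : G), (∀ k ∉ F, z k a = 0) → ∑ k ∈ F, z k a ^ 2 = 1
  near : ∀ (F : Finset ℕ) (a b : G), (∀ k ∉ F, z k a = 0) → (∀ k ∉ F, z k b = 0) → a⁻¹ * b ∈ C →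
    |1 - ∑ k ∈ F, z k a * z k b| ≤ ε

/-- `z k a ≤ 1`. PROOF: `sum_sq` for a finite set which contains `k` and the indices of `fin {a}`. -/
theorem Win.le_one {G : Type} [Group G] [TopologicalSpace G] {C K : Set G} {ε : ℝ}
    {z : ℕ → G → ℝ} {t : ℕ → G} (h : Win C K ε z t) (k : ℕ) (a : G) : z k a ≤ 1 := by
  classical
  have hfin := h.fin {a} isCompact_singleton
  have h1 : ∑ l ∈ insert k hfin.toFinset, z l a ^ 2 = 1 := by
    refine h.sum_sq _ a fun l hl => ?_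
    by_contra hne
    refine hl (Finset.mem_insert_of_mem ?_)
    rw [Set.Finite.mem_toFinset]
    exact ⟨a, rfl, hne⟩
  have h2 : z k a ^ 2 ≤ 1 := by
    rw [← h1]
    exact Finset.single_le_sum (f := fun l => z l a ^ 2) (fun l _ => sq_nonneg _)
      (Finset.mem_insert_self _ _)
  exact (sq_le_one_iff₀ (h.nonneg k a)).1 h2

variable {G : Type} [Group G] [TopologicalSpace G] [IsTopologicalGroup G]
  [LocallyCompactSpace G] [SecondCountableTopology G] [T2Space G] [MeasurableSpace G] [BorelSpace G]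

private theorem D1_cpt {K : Set G} (hK : IsCompact K) (s : G) : IsCompact {t | s⁻¹ * t ∈ K} := by
  have h1 : {t | s⁻¹ * t ∈ K} = (fun x => s * x) '' K := by
    ext t
    constructor
    · intro ht
      exact ⟨s⁻¹ * t, ht, by simp⟩
    · rintro ⟨x, hx, rfl⟩
      show s⁻¹ * (s * x) ∈ K
      rw [inv_mul_cancel_left]
      exact hx
  rw [h1]
  exact hK.image (continuous_const.mul continuous_id)

private theorem D1_int {K : Set G} (hK : IsCompact K) (s : G) {g : G → ℝ} (hg : Continuous g)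
    (h0 : ∀ t, s⁻¹ * t ∉ K → g t = 0) : Integrable g (mu G) :=
  hg.integrable_of_hasCompactSupport (HasCompactSupport.intro (D1_cpt hK s) h0)

/-- The function `ζ(s) = ∫ χ(t)² φ(s, t) dt` is continuous. PROOF: `continuous_integral` (Cb/Ld), the compact set `tsupport χ`. -/
theorem D1_cont {χ : G → ℝ} (hχ : Continuous χ) (hc : HasCompactSupport χ) {φ : G × G → ℝ}
    (hφ : Continuous φ) : Continuous fun s => ∫ t, χ t ^ 2 * φ (s, t) ∂mu G := by
  refine continuous_integral (f := fun s t => χ t ^ 2 * φ (s, t)) ?_ fun s₀ =>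
    ⟨tsupport χ, hc, Eventually.of_forall fun s t ht => ?_⟩
  · exact ((hχ.comp continuous_snd).pow 2).mul hφ
  · have h1 : χ t = 0 := image_eq_zero_of_notMem_tsupport ht
    change χ t ^ 2 * φ (s, t) = 0
    rw [h1]
    simp

/-- PROOF: for `t` in the compact set `{t | s⁻¹ t ∈ K}` all `χ k t` with `k ∉ F` are `0`, so `∑_{k ∈ F} χ k t ^ 2 = 1` (`Part.sum`, `hasSum_sum_of_ne_finset_zero`, `HasSum.unique`);
`integral_finsetSum`. -/
theorem D1_sum {V : Set G} (χ : Cb.Part V) {φ : G × G → ℝ} (hφ : Continuous φ) {s : G} {K : Set G}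
    (hK : IsCompact K) (hs : ∀ t, s⁻¹ * t ∉ K → φ (s, t) = 0) (h1 : ∫ t, φ (s, t) ∂mu G = 1)
    (F : Finset ℕ) (hF : ∀ k ∉ F, ∫ t, χ.χ k t ^ 2 * φ (s, t) ∂mu G = 0) (h0 : ∀ p, 0 ≤ φ p) :
    ∑ k ∈ F, ∫ t, χ.χ k t ^ 2 * φ (s, t) ∂mu G = 1 := by
  classical
  have hcs : Continuous fun t => φ (s, t) := hφ.comp (continuous_const.prodMk continuous_id)
  have hfin := χ.fin.finite_nonempty_inter_compact (D1_cpt hK s)
  have h2 : ∑ k ∈ F, ∫ t, χ.χ k t ^ 2 * φ (s, t) ∂mu G =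
      ∑ k ∈ F ∪ hfin.toFinset, ∫ t, χ.χ k t ^ 2 * φ (s, t) ∂mu G :=
    Finset.sum_subset Finset.subset_union_left fun k _ hk => hF k hk
  have h3 : ∀ k ∈ F ∪ hfin.toFinset, Integrable (fun t => χ.χ k t ^ 2 * φ (s, t)) (mu G) := by
    intro k _
    refine D1_int hK s (((χ.cont k).pow 2).mul hcs) fun t ht => ?_
    rw [hs t ht, mul_zero]
  rw [h2, ← integral_finsetSum _ h3, ← h1]
  refine integral_congr_ae (Eventually.of_forall fun t => ?_)
  change ∑ k ∈ F ∪ hfin.toFinset, χ.χ k t ^ 2 * φ (s, t) = φ (s, t)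
  by_cases ht : s⁻¹ * t ∈ K
  · have h4 : ∀ k ∉ F ∪ hfin.toFinset, χ.χ k t ^ 2 = 0 := by
      intro k hk
      have h5 : χ.χ k t = 0 := by
        by_contra hne
        refine hk (Finset.mem_union_right _ ?_)
        rw [Set.Finite.mem_toFinset]
        exact ⟨t, hne, ht⟩
      rw [h5]
      simp
    have h5 : ∑ k ∈ F ∪ hfin.toFinset, χ.χ k t ^ 2 = 1 :=
      (hasSum_sum_of_ne_finset_zero h4).unique (χ.sum t)
    rw [← Finset.sum_mul, h5, one_mul]
  · rw [hs t ht]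
    simp

/-- PROOF: `|∫ χ² (φ(a, ·) - φ(b, ·))| ≤ ∫ χ² |φ(a, ·) - φ(b, ·)|`, and the sum over `k ∈ F` of `χ k ^ 2` is at most `1`
(`sum_le_hasSum`). -/
theorem D1_diff {V : Set G} (χ : Cb.Part V) {φ : G × G → ℝ} (hφ : Continuous φ) {a b : G} {K : Set G}
    (hK : IsCompact K) (ha : ∀ t, a⁻¹ * t ∉ K → φ (a, t) = 0) (hb : ∀ t, b⁻¹ * t ∉ K → φ (b, t) = 0)
    (F : Finset ℕ) :
    ∑ k ∈ F, |(∫ t, χ.χ k t ^ 2 * φ (a, t) ∂mu G) - ∫ t, χ.χ k t ^ 2 * φ (b, t) ∂mu G| ≤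
      ∫ t, |φ (b, t) - φ (a, t)| ∂mu G := by
  classical
  have hca : Continuous fun t => φ (a, t) := hφ.comp (continuous_const.prodMk continuous_id)
  have hcb : Continuous fun t => φ (b, t) := hφ.comp (continuous_const.prodMk continuous_id)
  have ia : ∀ k, Integrable (fun t => χ.χ k t ^ 2 * φ (a, t)) (mu G) := fun k =>
    D1_int hK a (((χ.cont k).pow 2).mul hca) fun t ht => by rw [ha t ht, mul_zero]
  have ib : ∀ k, Integrable (fun t => χ.χ k t ^ 2 * φ (b, t)) (mu G) := fun k =>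
    D1_int hK b (((χ.cont k).pow 2).mul hcb) fun t ht => by rw [hb t ht, mul_zero]
  have id' : Integrable (fun t => |φ (b, t) - φ (a, t)|) (mu G) :=
    ((D1_int hK b hcb hb).sub (D1_int hK a hca ha)).abs
  have ik : ∀ k ∈ F, Integrable (fun t => χ.χ k t ^ 2 * |φ (b, t) - φ (a, t)|) (mu G) := by
    intro k _
    refine (((ib k).sub (ia k)).abs).congr (Eventually.of_forall fun t => ?_)
    change |χ.χ k t ^ 2 * φ (b, t) - χ.χ k t ^ 2 * φ (a, t)| = _
    rw [← mul_sub, abs_mul, abs_of_nonneg (sq_nonneg (χ.χ k t))]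
  have h1 : ∑ k ∈ F, |(∫ t, χ.χ k t ^ 2 * φ (a, t) ∂mu G) - ∫ t, χ.χ k t ^ 2 * φ (b, t) ∂mu G| ≤
      ∑ k ∈ F, ∫ t, χ.χ k t ^ 2 * |φ (b, t) - φ (a, t)| ∂mu G := by
    refine Finset.sum_le_sum fun k _ => ?_
    rw [← integral_sub (ia k) (ib k)]
    refine (abs_integral_le_integral_abs).trans (le_of_eq ?_)
    refine integral_congr_ae (Eventually.of_forall fun t => ?_)
    change |χ.χ k t ^ 2 * φ (a, t) - χ.χ k t ^ 2 * φ (b, t)| = _
    rw [← mul_sub, abs_mul, abs_of_nonneg (sq_nonneg (χ.χ k t)), abs_sub_comm]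
  refine h1.trans ?_
  rw [← integral_finsetSum _ ik]
  refine integral_mono (integrable_finsetSum _ ik) id' fun t => ?_
  change ∑ k ∈ F, χ.χ k t ^ 2 * |φ (b, t) - φ (a, t)| ≤ |φ (b, t) - φ (a, t)|
  rw [← Finset.sum_mul]
  have h2 : ∑ k ∈ F, χ.χ k t ^ 2 ≤ 1 :=
    sum_le_hasSum F (fun k _ => sq_nonneg _) (χ.sum t)
  calc (∑ k ∈ F, χ.χ k t ^ 2) * |φ (b, t) - φ (a, t)| ≤ 1 * |φ (b, t) - φ (a, t)| :=
        mul_le_mul_of_nonneg_right h2 (abs_nonneg _)
    _ = |φ (b, t) - φ (a, t)| := one_mul _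

end Pool.Agent.Lib.MP_aa9b81_an.Tv
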