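import Pool.Agent.Lib.MP_aa9b81_an.Mg.G035

/-!
# Transversals, part D2: real multiplication operators
-/

open scoped ENNReal Topology CompactlySupported
open Function Filter MeasureTheory

noncomputable section

set_option linter.unusedSectionVars false

namespace Pool.Agent.Lib.MP_aa9b81_an.Tv

open Cut Hs Cb

variable {G J : Type} [Group G] [TopologicalSpace G] [IsTopologicalGroup G]
  [LocallyCompactSpace G] [SecondCountableTopology G] [T2Space G] [MeasurableSpace G] [BorelSpace G]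

/-- The multiplication by a real function. -/
def Ms (s : G → ℝ) : HG G J →L[ℂ] HG G J := Mul fun a => ((s a : ℝ) : ℂ) • (1 : BL J)

/-- A continuous function with values in `[0, 1]`. -/
structure C01 {X : Type} [TopologicalSpace X] (s : X → ℝ) : Prop where
  cont : Continuous s
  nonneg : ∀ a, 0 ≤ s a
  le_one : ∀ a, s a ≤ 1

theorem C01.sc {X : Type} [TopologicalSpace X] {s : X → ℝ} (h : C01 s) :
    SC fun a => ((s a : ℝ) : ℂ) • (1 : BL J) := by
  refine ⟨fun v => ?_, 1, fun a => ?_⟩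
  · exact (Complex.continuous_ofReal.comp h.cont).smul continuous_const
  · rw [norm_smul, Complex.norm_real, Real.norm_of_nonneg (h.nonneg a)]
    calc s a * ‖(1 : BL J)‖ ≤ 1 * 1 :=
          mul_le_mul (h.le_one a) ContinuousLinearMap.norm_id_le (norm_nonneg _) zero_le_one
      _ = 1 := mul_one 1

/-- PROOF: `Mul_ae`. -/
theorem Ms_ae {s : G → ℝ} (h : C01 s) (ξ : HG G J) :
    (Ms s ξ : G → L2 J) =ᵐ[mu G] fun a => ((s a : ℝ) : ℂ) • ξ a := by
  filter_upwards [Mul_ae (h.sc (J := J)) ξ] with a ha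
  unfold Ms
  rw [ha]
  rfl

theorem norm_Ms_le {s : G → ℝ} (h : C01 s) : ‖(Ms s : HG G J →L[ℂ] HG G J)‖ ≤ 1 := by
  refine norm_Mul_le h.sc fun a => ?_
  rw [norm_smul, Complex.norm_real, Real.norm_of_nonneg (h.nonneg a)]
  calc s a * ‖(1 : BL J)‖ ≤ 1 * 1 :=
        mul_le_mul (h.le_one a) ContinuousLinearMap.norm_id_le (norm_nonneg _) zero_le_one
    _ = 1 := mul_one 1

theorem Ms_comp {s s' : G → ℝ} (h : C01 s) (h' : C01 s') :
    (Ms s : HG G J →L[ℂ] HG G J).comp (Ms s') = Ms fun a => s a * s' a := by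
  unfold Ms
  rw [Mul_comp_Mul h.sc h'.sc]
  congr 1
  funext a
  refine ContinuousLinearMap.ext fun v => ?_
  change ((s a : ℝ) : ℂ) • (((s' a : ℝ) : ℂ) • v) = ((s a * s' a : ℝ) : ℂ) • v
  rw [smul_smul, Complex.ofReal_mul]

theorem Ms_comp_opk {s : G → ℝ} (h : C01 s) {C : Set G} {M : ℝ} {k : G → G → BL J}
    (hk : KOK C M k) : (Ms s).comp (opk k) = opk fun a b => ((s a : ℝ) : ℂ) • k a b := by
  unfold Ms
  rw [Mul_comp_opk hk h.sc]
  rfl

theorem opk_comp_Ms {s : G → ℝ} (h : C01 s) {C : Set G} {M : ℝ} {k : G → G → BL J}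
    (hk : KOK C M k) : (opk k).comp (Ms s) = opk fun a b => ((s b : ℝ) : ℂ) • k a b := by
  unfold Ms
  rw [opk_comp_Mul hk h.sc]
  congr 1
  funext a b
  refine ContinuousLinearMap.ext fun v => ?_
  change k a b (((s b : ℝ) : ℂ) • v) = ((s b : ℝ) : ℂ) • k a b v
  rw [map_smul]

/-- A kernel times a real function. -/
theorem KOK.rmul {C : Set G} {M N : ℝ} {k : G → G → BL J} (hk : KOK C M k) {f : G → G → ℝ}
    (hf : Continuous fun p : G × G => f p.1 p.2) (hN : 0 ≤ N) (h : ∀ a b, a⁻¹ * b ∈ C → |f a b| ≤ N) :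
    KOK C (N * M) fun a b => ((f a b : ℝ) : ℂ) • k a b := by
  refine ⟨hk.cpt, mul_nonneg hN hk.nonneg, fun v => ?_, fun a b => ?_, fun a b hab => ?_⟩
  · exact (Complex.continuous_ofReal.comp hf).smul (hk.cont v)
  · by_cases hab : a⁻¹ * b ∈ C
    · rw [norm_smul, Complex.norm_real, Real.norm_eq_abs]
      exact mul_le_mul (h a b hab) (hk.bdd a b) (norm_nonneg _) hN
    · rw [hk.supp a b hab, smul_zero, norm_zero]
      exact mul_nonneg hN hk.nonneg
  · rw [hk.supp a b hab, smul_zero]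

end Pool.Agent.Lib.MP_aa9b81_an.Tv
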