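import Pool.Agent.Lib.MP_aa9b81_an.Tv.D2

/-!
# Transversals, part D2b: sums of compressions
-/

open scoped ENNReal Topology CompactlySupported
open Function Filter MeasureTheory

noncomputable section

set_option linter.unusedSectionVars false

namespace Pool.Agent.Lib.MP_aa9b81_an.Tv

open Cut Hs Cb

variable {G J : Type} [Group G] [TopologicalSpace G] [IsTopologicalGroup G]
  [LocallyCompactSpace G] [SecondCountableTopology G] [T2Space G] [MeasurableSpace G] [BorelSpace G]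

/-- PROOF: `MeasureTheory.L2.inner_def`. -/
theorem norm_sq_eq (ξ : HG G J) : ‖ξ‖ ^ 2 = ∫ a, ‖ξ a‖ ^ 2 ∂mu G := by
  have h1 : (inner ℂ ξ ξ : ℂ) = ∫ a, (inner ℂ (ξ a) (ξ a) : ℂ) ∂mu G := L2.inner_def ξ ξ
  have h2 : ((‖ξ‖ ^ 2 : ℝ) : ℂ) = ((∫ a, ‖ξ a‖ ^ 2 ∂mu G : ℝ) : ℂ) := by
    rw [← integral_complex_ofReal]
    have h3 : ((‖ξ‖ ^ 2 : ℝ) : ℂ) = (inner ℂ ξ ξ : ℂ) := by
      rw [inner_self_eq_norm_sq_to_K]
      push_cast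
      rfl
    rw [h3, h1]
    refine integral_congr_ae (Filter.Eventually.of_forall fun a => ?_)
    change (inner ℂ (ξ a) (ξ a) : ℂ) = ((‖ξ a‖ ^ 2 : ℝ) : ℂ)
    rw [inner_self_eq_norm_sq_to_K]
    push_cast
    rfl
  exact Complex.ofReal_injective h2

private theorem D2b_int (ξ : HG G J) : Integrable (fun a => ‖ξ a‖ ^ 2) (mu G) := by
  have h1 := (Lp.memLp ξ).integrable_norm_pow (p := 2) (by norm_num)
  simpa using h1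

/-- PROOF: `norm_sq_eq`, `integral_finset_sum`. -/
theorem sum_norm_Ms_sq {F : Finset ℕ} {m : ℕ → G → ℝ} (h : ∀ k, C01 (m k))
    (h1 : ∀ a, ∑ k ∈ F, m k a ^ 2 ≤ 1) (ξ : HG G J) :
    ∑ k ∈ F, ‖(Ms (m k) : HG G J →L[ℂ] HG G J) ξ‖ ^ 2 ≤ ‖ξ‖ ^ 2 := by
  have e1 : ∀ k, ‖(Ms (m k) : HG G J →L[ℂ] HG G J) ξ‖ ^ 2 = ∫ a, m k a ^ 2 * ‖ξ a‖ ^ 2 ∂mu G := by
    intro k
    rw [norm_sq_eq]
    refine integral_congr_ae ?_
    filter_upwards [Ms_ae (h k) ξ] with a ha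
    rw [ha, norm_smul, Complex.norm_real, Real.norm_of_nonneg ((h k).nonneg a), mul_pow]
  have i1 : ∀ k, Integrable (fun a => m k a ^ 2 * ‖ξ a‖ ^ 2) (mu G) := by
    intro k
    refine (D2b_int ((Ms (m k) : HG G J →L[ℂ] HG G J) ξ)).congr ?_
    filter_upwards [Ms_ae (h k) ξ] with a ha
    rw [ha, norm_smul, Complex.norm_real, Real.norm_of_nonneg ((h k).nonneg a), mul_pow]
  simp only [e1]
  rw [← integral_finsetSum _ fun k _ => i1 k, norm_sq_eq ξ]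
  refine integral_mono (integrable_finsetSum _ fun k _ => i1 k) (D2b_int ξ) fun a => ?_
  change ∑ k ∈ F, m k a ^ 2 * ‖ξ a‖ ^ 2 ≤ ‖ξ a‖ ^ 2
  rw [← Finset.sum_mul]
  exact mul_le_of_le_one_left (sq_nonneg _) (h1 a)

/-- `Ms s` is selfadjoint. -/
theorem inner_Ms {s : G → ℝ} (h : C01 s) (ξ η : HG G J) :
    inner ℂ η (Ms s ξ) = inner ℂ (Ms s η) ξ := by
  rw [L2.inner_def, L2.inner_def]
  refine integral_congr_ae ?_
  filter_upwards [Ms_ae h ξ, Ms_ae h η] with a h1 h2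
  rw [h1, h2, inner_smul_left, inner_smul_right, Complex.conj_ofReal]

/-- PROOF: `|⟨η, ∑ m_k T_k m_k ξ⟩| ≤ ∑ R ‖m_k η‖ ‖m_k ξ‖ ≤ R ‖η‖ ‖ξ‖` (Cauchy-Schwarz: `Finset.sum_mul_sq_le_sq_mul_sq` or `inner_mul_le_norm_mul_norm`), `sum_norm_Ms_sq`; take `η = ∑ m_k T_k m_k ξ`. -/
theorem norm_sandwich_le {F : Finset ℕ} {m : ℕ → G → ℝ} (h : ∀ k, C01 (m k))
    (h1 : ∀ a, ∑ k ∈ F, m k a ^ 2 ≤ 1) {T : ℕ → (HG G J →L[ℂ] HG G J)} {R : ℝ} (hR : 0 ≤ R)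
    (hT : ∀ k, ‖T k‖ ≤ R) :
    ‖∑ k ∈ F, (Ms (m k)).comp ((T k).comp (Ms (m k)))‖ ≤ R := by
  refine ContinuousLinearMap.opNorm_le_bound _ hR fun ξ => ?_
  obtain ⟨η, hη⟩ : ∃ η : HG G J,
      η = (∑ k ∈ F, (Ms (m k)).comp ((T k).comp (Ms (m k)))) ξ := ⟨_, rfl⟩
  rw [← hη]
  have e1 : (inner ℂ η η : ℂ) = ∑ k ∈ F, inner ℂ (Ms (m k) η) (T k (Ms (m k) ξ)) := by
    have e0 : (inner ℂ η η : ℂ) =
        inner ℂ η ((∑ k ∈ F, (Ms (m k)).comp ((T k).comp (Ms (m k)))) ξ) := by rw [← hη]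
    rw [e0, FunLike.coe_sum, Finset.sum_apply, inner_sum]
    refine Finset.sum_congr rfl fun k _ => ?_
    rw [ContinuousLinearMap.comp_apply, ContinuousLinearMap.comp_apply, inner_Ms (h k)]
  have e2 : ‖η‖ ^ 2 ≤ ∑ k ∈ F, R * (‖(Ms (m k) : HG G J →L[ℂ] HG G J) η‖ *
      ‖(Ms (m k) : HG G J →L[ℂ] HG G J) ξ‖) := by
    have h2 : ‖(inner ℂ η η : ℂ)‖ = ‖η‖ ^ 2 := by
      rw [inner_self_eq_norm_sq_to_K]
      rw [norm_pow]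
      simp
    rw [← h2, e1]
    refine (norm_sum_le _ _).trans (Finset.sum_le_sum fun k _ => ?_)
    refine (norm_inner_le_norm _ _).trans ?_
    have h3 := (T k).le_of_opNorm_le (hT k) ((Ms (m k) : HG G J →L[ℂ] HG G J) ξ)
    calc ‖(Ms (m k) : HG G J →L[ℂ] HG G J) η‖ * ‖T k (Ms (m k) ξ)‖
        ≤ ‖(Ms (m k) : HG G J →L[ℂ] HG G J) η‖ * (R * ‖(Ms (m k) : HG G J →L[ℂ] HG G J) ξ‖) :=
          mul_le_mul_of_nonneg_left h3 (norm_nonneg _)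
      _ = R * (‖(Ms (m k) : HG G J →L[ℂ] HG G J) η‖ * ‖(Ms (m k) : HG G J →L[ℂ] HG G J) ξ‖) := by
          ring
  rw [← Finset.mul_sum] at e2
  have e3 : (∑ k ∈ F, ‖(Ms (m k) : HG G J →L[ℂ] HG G J) η‖ *
      ‖(Ms (m k) : HG G J →L[ℂ] HG G J) ξ‖) ≤ ‖η‖ * ‖ξ‖ := by
    have h2 := Finset.sum_mul_sq_le_sq_mul_sq F
      (fun k => ‖(Ms (m k) : HG G J →L[ℂ] HG G J) η‖) fun k => ‖(Ms (m k) : HG G J →L[ℂ] HG G J) ξ‖
    have h3 := sum_norm_Ms_sq h h1 η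
    have h4 := sum_norm_Ms_sq h h1 ξ
    refine abs_le_of_sq_le_sq' ?_ (by positivity) |>.2
    refine h2.trans ?_
    rw [mul_pow]
    exact mul_le_mul h3 h4 (Finset.sum_nonneg fun k _ => sq_nonneg _) (sq_nonneg _)
  have e4 : ‖η‖ ^ 2 ≤ R * (‖η‖ * ‖ξ‖) := e2.trans (mul_le_mul_of_nonneg_left e3 hR)
  rcases (norm_nonneg η).eq_or_lt with h5 | h5
  · rw [← h5]
    positivity
  · nlinarith

end Pool.Agent.Lib.MP_aa9b81_an.Tv
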