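import Pool.Agent.Lib.MP_aa9b81_an.Tv.D2b

/-!
# Transversals, part D2c: exhaustion
-/

open scoped ENNReal Topology CompactlySupported
open Function Filter MeasureTheory

noncomputable section

set_option linter.unusedSectionVars false

namespace Pool.Agent.Lib.MP_aa9b81_an.Tv

open Cut Hs Cb

variable {G J : Type} [Group G] [TopologicalSpace G] [IsTopologicalGroup G]
  [LocallyCompactSpace G] [SecondCountableTopology G] [T2Space G] [MeasurableSpace G] [BorelSpace G]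

/-- PROOF: `G` is `σ`-compact: `compactExhaustion G`, `exists_continuous_one_zero_of_isCompact`. -/
theorem exists_exhaust : ∃ θ : ℕ → G → ℝ, (∀ n, C01 (θ n) ∧ HasCompactSupport (θ n)) ∧
    ∀ a, Tendsto (fun n => θ n a) atTop (𝓝 1) := by
  have K : CompactExhaustion G := CompactExhaustion.choice G
  have h1 : ∀ n, ∃ f : G → ℝ, (C01 f ∧ HasCompactSupport f) ∧ ∀ a ∈ K n, f a = 1 := by
    intro n
    obtain ⟨f, hf1, -, hfc, hf⟩ := exists_continuous_one_zero_of_isCompact (K.isCompact n)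
      isClosed_empty (Set.disjoint_empty (K n))
    exact ⟨f, ⟨⟨f.continuous, fun a => (hf a).1, fun a => (hf a).2⟩, hfc⟩, fun a ha => hf1 ha⟩
  choose θ hθ hθ1 using h1
  refine ⟨θ, hθ, fun a => ?_⟩
  obtain ⟨n₀, hn₀⟩ := K.exists_mem a
  refine tendsto_const_nhds.congr' ?_
  filter_upwards [eventually_ge_atTop n₀] with n hn
  exact (hθ1 n a (K.subset hn hn₀)).symm

/-- PROOF: `exists_exhaust`, `tendsto_Mul` (Cb/Lab): `Ms (θ n) ξ → ξ`, so `Ms (θ n) (T (Ms (θ n) ξ)) → T ξ` (the operators `Ms (θ n)` are bounded by `1`); `le_of_tendsto`. -/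
theorem norm_le_of_cut {T : HG G J →L[ℂ] HG G J} {R : ℝ}
    (h : ∀ θ : G → ℝ, C01 θ → HasCompactSupport θ → ‖(Ms θ).comp (T.comp (Ms θ))‖ ≤ R) :
    ‖T‖ ≤ R := by
  obtain ⟨θ, hθ, hθ1⟩ := exists_exhaust (G := G)
  have hR : 0 ≤ R := (norm_nonneg _).trans (h (θ 0) (hθ 0).1 (hθ 0).2)
  have hM : ∀ ξ : HG G J, Tendsto (fun n => (Ms (θ n) : HG G J →L[ℂ] HG G J) ξ) atTop (𝓝 ξ) := by
    intro ξ
    have h1 := tendsto_Mul (G := G) (J := J) (J' := J)
      (m := fun n a => ((θ n a : ℝ) : ℂ) • (1 : BL J))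
      (m₀ := fun _ => (1 : BL J)) (C := 1) (fun n => (hθ n).1.sc) (SC.const (1 : BL J))
      (fun n a => ?_) (fun a v => ?_) ξ
    · rw [Mul_one] at h1
      exact h1
    · rw [norm_smul, Complex.norm_real, Real.norm_of_nonneg ((hθ n).1.nonneg a)]
      exact mul_le_one₀ ((hθ n).1.le_one a) (norm_nonneg _) ContinuousLinearMap.norm_id_le
    · have h2 : Tendsto (fun n => ((θ n a : ℝ) : ℂ)) atTop (𝓝 ((1 : ℝ) : ℂ)) :=
        (Complex.continuous_ofReal.tendsto 1).comp (hθ1 a)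
      have h3 := h2.smul_const v
      rw [Complex.ofReal_one, one_smul] at h3
      exact h3
  refine ContinuousLinearMap.opNorm_le_bound _ hR fun ξ => ?_
  have h4 : Tendsto (fun n => (Ms (θ n) : HG G J →L[ℂ] HG G J)
      (T ((Ms (θ n) : HG G J →L[ℂ] HG G J) ξ))) atTop (𝓝 (T ξ)) := by
    rw [tendsto_iff_norm_sub_tendsto_zero]
    have h5 : Tendsto (fun n => ‖T ((Ms (θ n) : HG G J →L[ℂ] HG G J) ξ) - T ξ‖ +
        ‖(Ms (θ n) : HG G J →L[ℂ] HG G J) (T ξ) - T ξ‖) atTop (𝓝 0) := by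
      have h6 := (tendsto_iff_norm_sub_tendsto_zero.1 ((T.continuous.tendsto ξ).comp (hM ξ)))
      have h7 := (tendsto_iff_norm_sub_tendsto_zero.1 (hM (T ξ)))
      have h8 := h6.add h7
      rw [add_zero] at h8
      exact h8
    refine squeeze_zero (fun n => norm_nonneg _) (fun n => ?_) h5
    have h9 : (Ms (θ n) : HG G J →L[ℂ] HG G J) (T ((Ms (θ n) : HG G J →L[ℂ] HG G J) ξ)) - T ξ =
        (Ms (θ n) : HG G J →L[ℂ] HG G J) (T ((Ms (θ n) : HG G J →L[ℂ] HG G J) ξ) - T ξ) +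
        ((Ms (θ n) : HG G J →L[ℂ] HG G J) (T ξ) - T ξ) := by
      rw [map_sub]
      abel
    rw [h9]
    refine (norm_add_le _ _).trans (add_le_add_left ?_ _)
    refine (ContinuousLinearMap.le_of_opNorm_le _ (norm_Ms_le (hθ n).1) _).trans ?_
    rw [one_mul]
  refine le_of_tendsto h4.norm (Eventually.of_forall fun n => ?_)
  have h10 := ContinuousLinearMap.le_of_opNorm_le _ (h (θ n) (hθ n).1 (hθ n).2) ξ
  exact h10

end Pool.Agent.Lib.MP_aa9b81_an.Tv
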