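import Pool.Agent.Lib.MP_aa9b81_an.Tv.D2c

/-!
# Transversals, part D2: the window inequality
-/

open scoped ENNReal Topology CompactlySupported
open Function Filter MeasureTheory

noncomputable section

set_option linter.unusedSectionVars false

namespace Pool.Agent.Lib.MP_aa9b81_an.Tv

open Cut Hs Cb

variable {G J : Type} [Group G] [TopologicalSpace G] [IsTopologicalGroup G]
  [LocallyCompactSpace G] [SecondCountableTopology G] [T2Space G] [MeasurableSpace G] [BorelSpace G]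

private theorem D2d_mul_le {x y : ℝ} (hx0 : 0 ≤ x) (hx : x ≤ 1) (hy0 : 0 ≤ y) (hy : y ≤ 1) :
    |x * y| ≤ 1 := by
  rw [abs_of_nonneg (mul_nonneg hx0 hy0)]
  exact mul_le_one₀ hx hy0 hy

private theorem D2d_cont {s : G → ℝ} (h : C01 s) : Continuous fun p : G × G => s p.1 * s p.2 :=
  (h.cont.comp continuous_fst).mul (h.cont.comp continuous_snd)

/-- The compression of a kernel operator. -/
theorem Ms_opk_Ms {s : G → ℝ} (h : C01 s) {C : Set G} {M : ℝ} {k : G → G → BL J}
    (hk : KOK C M k) : (Ms s).comp ((opk k).comp (Ms s)) =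
      opk fun a b => ((s a * s b : ℝ) : ℂ) • k a b := by
  have h1 := KOK.rmul hk (f := fun _ b => s b) (h.cont.comp continuous_snd) zero_le_one
    (fun a b _ => by rw [abs_of_nonneg (h.nonneg b)]; exact h.le_one b)
  rw [opk_comp_Ms h hk, Ms_comp_opk h h1]
  congr 1
  funext a b
  rw [smul_smul]
  push_cast
  rfl

private theorem D2d_sum {C : Set G} {M : ℝ} {k : G → G → BL J} (hk : KOK C M k) {m : ℕ → G → ℝ}
    (h : ∀ j, C01 (m j)) (F : Finset ℕ) :
    KOK C ((F.card : ℝ) * M) (fun a b => ((∑ j ∈ F, m j a * m j b : ℝ) : ℂ) • k a b) ∧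
      opk (fun a b => ((∑ j ∈ F, m j a * m j b : ℝ) : ℂ) • k a b) =
        ∑ j ∈ F, (Ms (m j)).comp ((opk k).comp (Ms (m j))) := by
  classical
  have hK : ∀ F : Finset ℕ, KOK C ((F.card : ℝ) * M)
      (fun a b => ((∑ j ∈ F, m j a * m j b : ℝ) : ℂ) • k a b) := by
    intro F
    refine KOK.rmul hk (f := fun a b => ∑ j ∈ F, m j a * m j b) ?_ (Nat.cast_nonneg _) ?_
    · exact continuous_finsetSum _ fun j _ => D2d_cont (h j)
    · intro a b _
      refine (Finset.abs_sum_le_sum_abs _ _).trans ?_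
      have h2 : ∑ j ∈ F, |m j a * m j b| ≤ ∑ j ∈ F, (1 : ℝ) := Finset.sum_le_sum fun j _ =>
        D2d_mul_le ((h j).nonneg a) ((h j).le_one a) ((h j).nonneg b) ((h j).le_one b)
      rw [Finset.sum_const, nsmul_eq_mul, mul_one] at h2
      exact h2
  refine ⟨hK F, ?_⟩
  induction F using Finset.induction_on with
  | empty =>
    have e : (fun a b : G => ((∑ j ∈ (∅ : Finset ℕ), m j a * m j b : ℝ) : ℂ) • k a b) =
        fun _ _ => 0 := by
      funext a b
      rw [Finset.sum_empty, Complex.ofReal_zero, zero_smul]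
    rw [e, opk_zero, Finset.sum_empty]
  | insert i s hi ih =>
    rw [Finset.sum_insert hi, ← ih, Ms_opk_Ms (h i) hk]
    have h1 := KOK.rmul hk (f := fun a b => m i a * m i b) (D2d_cont (h i)) zero_le_one
      (fun a b _ => D2d_mul_le ((h i).nonneg a) ((h i).le_one a) ((h i).nonneg b) ((h i).le_one b))
    rw [← opk_add h1 (hK s)]
    congr 1
    funext a b
    rw [Finset.sum_insert hi, ← add_smul]
    push_cast
    rfl

/-- The window inequality. PROOF: `norm_le_of_cut`. Let `θ` be given, `F` the finite set of the `k` with `z k a ≠ 0` for some `a ∈ tsupport θ` (`Win.fin`). Then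
`Ms θ (opk k) Ms θ = opk (θ(a) θ(b) (1 - ∑_{k ∈ F} z_k(a) z_k(b)) k(a, b)) + ∑_{k ∈ F} Ms (θ z_k) (Ms s_k (opk k) Ms s_k) Ms (θ z_k)`, `s_k(a) = s₀((t k)⁻¹ a)`, as `s_k z_k = z_k` (`Win.supp`).
The first term has norm `≤ ε M cs C` (`KOK.rmul`, `Win.near`, `norm_opk_le`), the second one `≤ R` (`norm_sandwich_le`, `Win.sum_sq`). -/
theorem norm_opk_le_of_win {C K : Set G} {ε : ℝ} (hε : 0 ≤ ε) {z : ℕ → G → ℝ} {t : ℕ → G}
    (hW : Win C K ε z t) {M : ℝ} {k : G → G → BL J} (hk : KOK C M k) {s₀ : G → ℝ} (hs : C01 s₀)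
    (hs1 : ∀ a ∈ K, s₀ a = 1) {R : ℝ} (hR : 0 ≤ R)
    (h : ∀ t : G, ‖(Ms fun a => s₀ (t⁻¹ * a)).comp ((opk k).comp (Ms fun a => s₀ (t⁻¹ * a)))‖ ≤ R) :
    ‖opk k‖ ≤ R + ε * M * cs C := by
  classical
  refine norm_le_of_cut fun θ hθ hθc => ?_
  obtain ⟨F, hF⟩ : ∃ F : Finset ℕ, ∀ a, θ a ≠ 0 → ∀ j ∉ F, z j a = 0 := by
    have hfin := hW.fin (tsupport θ) hθc.isCompact
    refine ⟨hfin.toFinset, fun a ha j hj => ?_⟩
    by_contra hne
    exact hj (hfin.mem_toFinset.2 ⟨a, subset_tsupport _ ha, hne⟩)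
  have hm : ∀ j, C01 fun a => θ a * z j a := fun j =>
    ⟨hθ.cont.mul (hW.cont j), fun a => mul_nonneg (hθ.nonneg a) (hW.nonneg j a), fun a =>
      mul_le_one₀ (hθ.le_one a) (hW.nonneg j a) (hW.le_one j a)⟩
  have hst : ∀ x : G, C01 fun a => s₀ (x⁻¹ * a) := fun x =>
    ⟨hs.cont.comp (continuous_const_mul _), fun a => hs.nonneg _, fun a => hs.le_one _⟩
  -- the three parts
  have hsum := D2d_sum hk hm F
  have hf : Continuous fun p : G × G => θ p.1 * θ p.2 * (1 - ∑ j ∈ F, z j p.1 * z j p.2) := by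
    refine (D2d_cont hθ).mul (continuous_const.sub (continuous_finsetSum _ fun j _ => ?_))
    exact ((hW.cont j).comp continuous_fst).mul ((hW.cont j).comp continuous_snd)
  have hfb : ∀ a b, a⁻¹ * b ∈ C → |θ a * θ b * (1 - ∑ j ∈ F, z j a * z j b)| ≤ ε := by
    intro a b hab
    by_cases ha : θ a = 0
    · rw [ha, zero_mul, zero_mul, abs_zero]
      exact hε
    by_cases hb : θ b = 0
    · rw [hb, mul_zero, zero_mul, abs_zero]
      exact hε
    rw [abs_mul]
    have h1 := hW.near F a b (hF a ha) (hF b hb) hab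
    have h2 : |θ a * θ b| ≤ 1 :=
      D2d_mul_le (hθ.nonneg a) (hθ.le_one a) (hθ.nonneg b) (hθ.le_one b)
    calc |θ a * θ b| * |1 - ∑ j ∈ F, z j a * z j b| ≤ 1 * ε :=
          mul_le_mul h2 h1 (abs_nonneg _) zero_le_one
      _ = ε := one_mul ε
  have h1 := KOK.rmul hk (f := fun a b => θ a * θ b * (1 - ∑ j ∈ F, z j a * z j b)) hf hε hfb
  have e1 : (Ms θ).comp ((opk k).comp (Ms θ)) =
      opk (fun a b => ((θ a * θ b * (1 - ∑ j ∈ F, z j a * z j b) : ℝ) : ℂ) • k a b) +
        ∑ j ∈ F, (Ms fun a => θ a * z j a).comp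
          (((Ms fun a => s₀ ((t j)⁻¹ * a)).comp ((opk k).comp (Ms fun a => s₀ ((t j)⁻¹ * a)))).comp
            (Ms fun a => θ a * z j a)) := by
    have e2 : ∀ j, (Ms fun a => θ a * z j a).comp
          (((Ms fun a => s₀ ((t j)⁻¹ * a)).comp ((opk k).comp (Ms fun a => s₀ ((t j)⁻¹ * a)))).comp
            (Ms fun a => θ a * z j a)) =
        (Ms fun a => θ a * z j a).comp ((opk k).comp (Ms fun a => θ a * z j a)) := by
      intro j
      have e3 : (Ms fun a => θ a * z j a : HG G J →L[ℂ] HG G J).comp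
          (Ms fun a => s₀ ((t j)⁻¹ * a)) = Ms fun a => θ a * z j a := by
        rw [Ms_comp (hm j) (hst (t j))]
        congr 1
        funext a
        by_cases hz : z j a = 0
        · rw [hz, mul_zero, zero_mul]
        · rw [hs1 _ (hW.supp j a hz), mul_one]
      have e4 : (Ms fun a => s₀ ((t j)⁻¹ * a) : HG G J →L[ℂ] HG G J).comp
          (Ms fun a => θ a * z j a) = Ms fun a => θ a * z j a := by
        rw [Ms_comp (hst (t j)) (hm j)]
        congr 1
        funext a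
        by_cases hz : z j a = 0
        · rw [hz, mul_zero, mul_zero]
        · rw [hs1 _ (hW.supp j a hz), one_mul]
      calc _ = ((Ms fun a => θ a * z j a : HG G J →L[ℂ] HG G J).comp
          (Ms fun a => s₀ ((t j)⁻¹ * a))).comp ((opk k).comp
            ((Ms fun a => s₀ ((t j)⁻¹ * a) : HG G J →L[ℂ] HG G J).comp
              (Ms fun a => θ a * z j a))) := rfl
        _ = _ := by rw [e3, e4]
    rw [Finset.sum_congr rfl fun j _ => e2 j, ← hsum.2, Ms_opk_Ms hθ hk, ← opk_add h1 hsum.1]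
    congr 1
    funext a b
    rw [← add_smul]
    congr 1
    rw [← Complex.ofReal_add]
    congr 1
    have e5 : ∑ j ∈ F, θ a * z j a * (θ b * z j b) = θ a * θ b * ∑ j ∈ F, z j a * z j b := by
      rw [Finset.mul_sum]
      exact Finset.sum_congr rfl fun j _ => by ring
    rw [e5]
    ring
  rw [e1]
  have h2 : ‖opk (fun a b => ((θ a * θ b * (1 - ∑ j ∈ F, z j a * z j b) : ℝ) : ℂ) • k a b)‖ ≤
      ε * M * cs C := norm_opk_le h1
  have h3 : ‖∑ j ∈ F, (Ms fun a => θ a * z j a).comp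
          (((Ms fun a => s₀ ((t j)⁻¹ * a)).comp ((opk k).comp (Ms fun a => s₀ ((t j)⁻¹ * a)))).comp
            (Ms fun a => θ a * z j a))‖ ≤ R := by
    refine norm_sandwich_le hm (fun a => ?_) hR fun j => h (t j)
    by_cases ha : θ a = 0
    · have e6 : ∑ j ∈ F, (θ a * z j a) ^ 2 = 0 := Finset.sum_eq_zero fun j _ => by
        rw [ha, zero_mul]; ring
      rw [e6]
      exact zero_le_one
    · have e6 : ∑ j ∈ F, (θ a * z j a) ^ 2 = θ a ^ 2 * ∑ j ∈ F, z j a ^ 2 := by
        rw [Finset.mul_sum]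
        exact Finset.sum_congr rfl fun j _ => by ring
      rw [e6, hW.sum_sq F a (hF a ha), mul_one]
      exact pow_le_one₀ (hθ.nonneg a) (hθ.le_one a)
  calc _ ≤ _ := norm_add_le _ _
    _ ≤ ε * M * cs C + R := add_le_add h2 h3
    _ = R + ε * M * cs C := add_comm _ _

end Pool.Agent.Lib.MP_aa9b81_an.Tv
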