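import Pool.Agent.Lib.MP_aa9b81_an.Mg.G034

/-!
# Transversals, part E0: bookkeeping for `K₁`
-/

open scoped ENNReal Topology CompactlySupported
open Function Filter MeasureTheory

noncomputable section

set_option linter.unusedSectionVars false

namespace Pool.Agent.Lib.MP_aa9b81_an.Tv

open Cut Hs Cb

section K

variable {G A B C Z B₁ B₂ Z₁ Z₂ : Type} [Group G] [TopologicalSpace G] [IsTopologicalGroup G]
  [LocallyCompactSpace G] [SecondCountableTopology G] [T2Space G] [MeasurableSpace G] [BorelSpace G]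
  [TopologicalSpace A] [T2Space A] [MulAction G A] [ContinuousSMul G A]
  [TopologicalSpace B] [T2Space B] [MulAction G B] [ContinuousSMul G B]
  [TopologicalSpace C] [T2Space C] [MulAction G C] [ContinuousSMul G C]
  [TopologicalSpace Z] [T2Space Z] [MulAction G Z] [ContinuousSMul G Z]
  [TopologicalSpace B₁] [T2Space B₁] [MulAction G B₁] [ContinuousSMul G B₁]
  [TopologicalSpace B₂] [T2Space B₂] [MulAction G B₂] [ContinuousSMul G B₂]
  [TopologicalSpace Z₁] [T2Space Z₁] [MulAction G Z₁] [ContinuousSMul G Z₁]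
  [TopologicalSpace Z₂] [T2Space Z₂] [MulAction G Z₂] [ContinuousSMul G Z₂]

/-- Restriction of units along a composition. -/
theorem E0_comp (p : Z → B) (q : B → A) (u : (FamG G ℕ A)ˣ) :
    pullU p (pullU q u) = (pullU (fun z => q (p z)) u : (FamG G ℕ Z)ˣ) := rfl

theorem E0_id (u : (FamG G ℕ A)ˣ) {f : A → A} (hf : ∀ x, f x = x) :
    (pullU f u : (FamG G ℕ A)ˣ) = u :=
  Units.ext (FamG.ext fun x => congrArg (u : FamG G ℕ A).fn (hf x))

theorem E0_GL1 {p : Z → B} (hp : IsProperMap p) (he : ∀ (g : G) z, p (g • z) = g • p z)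
    {u : (FamG G ℕ B)ˣ} (hu : u ∈ GL1 (cpG G ℕ B)) : pullU p u ∈ GL1 (cpG G ℕ Z) :=
  GL1_map (pullG_mem hp he) hu

theorem E0_E1 {p : Z → B} (hp : IsProperMap p) (he : ∀ (g : G) z, p (g • z) = g • p z)
    {u : (FamG G ℕ B)ˣ} (hu : u ∈ E1 (cpG G ℕ B)) : pullU p u ∈ E1 (cpG G ℕ Z) :=
  E1_map (norm_pullG_le p) (pullG_mem hp he) hu

/-- A map with a section is injective on `K₁`. -/
theorem E0_inj_section {p : Z → B} {s : B → Z} (hs : IsProperMap s)
    (hse : ∀ (g : G) b, s (g • b) = g • s b) (hps : ∀ b, p (s b) = b) : InjG G p := by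
  intro u _ hpu
  have h1 : pullU s (pullU p u) ∈ E1 (cpG G ℕ B) := E0_E1 hs hse hpu
  rwa [E0_comp, E0_id u hps] at h1

theorem E0_surComp {q : C → B} {p : B → A} (hq : IsProperMap q)
    (hqe : ∀ (g : G) z, q (g • z) = g • q z) (h : SurG G q) (h' : SurG G p) :
    SurG G (fun z => p (q z)) := by
  intro v hv
  obtain ⟨u, hu, huv⟩ := h v hv
  obtain ⟨w, hw, hwu⟩ := h' u hu
  refine ⟨w, hw, ?_⟩
  have h1 := mul_mem (E0_E1 hq hqe hwu) huv
  have h2 : pullU q ((pullU p w)⁻¹ * u) * ((pullU q u)⁻¹ * v) =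
      (pullU (fun z => p (q z)) w)⁻¹ * v := by
    rw [map_mul, map_inv, E0_comp]
    group
  rwa [h2] at h1

theorem E0_injComp {q : C → B} {p : B → A} (hp : IsProperMap p)
    (hpe : ∀ (g : G) z, p (g • z) = g • p z) (h : InjG G q) (h' : InjG G p) :
    InjG G (fun z => p (q z)) :=
  fun u hu hpu => h' u hu (h _ (E0_GL1 hp hpe hu) hpu)

/-- If `p ∘ i` is bijective and `p` is surjective on `K₁`, then `i` is bijective. -/
theorem E0_surOf {i : C → B} {p : B → A} (hp : IsProperMap p)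
    (hpe : ∀ (g : G) z, p (g • z) = g • p z) (h : SurG G (fun z => p (i z))) : SurG G i := by
  intro v hv
  obtain ⟨u, hu, huv⟩ := h v hv
  exact ⟨pullU p u, E0_GL1 hp hpe hu, huv⟩

theorem E0_injOf {i : C → B} {p : B → A} (hi : IsProperMap i)
    (hie : ∀ (g : G) z, i (g • z) = g • i z) (hp : IsProperMap p)
    (hpe : ∀ (g : G) z, p (g • z) = g • p z) (h : InjG G (fun z => p (i z))) (hs : SurG G p) :
    InjG G i := by
  intro w hw hiw
  obtain ⟨u, hu, huw⟩ := hs w hw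
  have h1 : pullU i ((pullU p u)⁻¹ * w) ∈ E1 (cpG G ℕ C) := E0_E1 hi hie huw
  rw [map_mul, map_inv] at h1
  have h2 : pullU i (pullU p u) ∈ E1 (cpG G ℕ C) := by
    have h3 := mul_mem hiw (inv_mem h1)
    have h4 : pullU i w * ((pullU i (pullU p u))⁻¹ * pullU i w)⁻¹ = pullU i (pullU p u) := by group
    rwa [h4] at h3
  have h5 : u ∈ E1 (cpG G ℕ A) := h u hu h2
  have h6 := mul_mem (E0_E1 hp hpe h5) huw
  rwa [mul_inv_cancel_left] at h6

/-- Injectivity of a map from a space with vanishing `K₁`. -/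
theorem E0_vanOf {p : Z → B} (hp : IsProperMap p) (hpe : ∀ (g : G) z, p (g • z) = g • p z)
    (h : InjG G p) (hZ : VanG G Z) : VanG G B :=
  fun u hu => h u hu (hZ (E0_GL1 hp hpe hu))

theorem E0_vanH (e : B₁ ≃ₜ B₂) (he : ∀ (g : G) x, e (g • x) = g • e x) (h : VanG G B₁) :
    VanG G B₂ := by
  refine E0_vanOf e.isProperMap he (E0_inj_section e.symm.isProperMap (fun g b => ?_)
    e.apply_symm_apply) h
  rw [e.symm_apply_eq, he, e.apply_symm_apply]

theorem E0_surH {p₁ : Z₁ → B₁} {p₂ : Z₂ → B₂} (e : B₁ ≃ₜ B₂)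
    (he : ∀ (g : G) x, e (g • x) = g • e x) (f : Z₁ ≃ₜ Z₂) (hf : ∀ (g : G) x, f (g • x) = g • f x)
    (hc : ∀ z, e (p₁ z) = p₂ (f z)) (h : SurG G p₁) : SurG G p₂ := by
  have hes : ∀ (g : G) x, e.symm (g • x) = g • e.symm x := fun g x => by
    rw [e.symm_apply_eq, he, e.apply_symm_apply]
  have hfs : ∀ (g : G) x, f.symm (g • x) = g • f.symm x := fun g x => by
    rw [f.symm_apply_eq, hf, f.apply_symm_apply]
  intro v hv
  obtain ⟨u, hu, huv⟩ := h (pullU f v) (E0_GL1 f.isProperMap hf hv)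
  refine ⟨pullU e.symm u, E0_GL1 e.symm.isProperMap hes hu, ?_⟩
  have h1 := E0_E1 f.symm.isProperMap hfs huv
  rw [map_mul, map_inv, E0_comp, E0_comp, E0_id v f.apply_symm_apply] at h1
  rw [E0_comp]
  have h2 : (fun z => e.symm (p₂ z)) = fun z => p₁ (f.symm z) := by
    funext z
    rw [e.symm_apply_eq, hc, f.apply_symm_apply]
  rw [h2]
  exact h1

theorem E0_injH {p₁ : Z₁ → B₁} {p₂ : Z₂ → B₂} (e : B₁ ≃ₜ B₂)
    (he : ∀ (g : G) x, e (g • x) = g • e x) (f : Z₁ ≃ₜ Z₂) (hf : ∀ (g : G) x, f (g • x) = g • f x)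
    (hc : ∀ z, e (p₁ z) = p₂ (f z)) (h : InjG G p₁) : InjG G p₂ := by
  have hes : ∀ (g : G) x, e.symm (g • x) = g • e.symm x := fun g x => by
    rw [e.symm_apply_eq, he, e.apply_symm_apply]
  intro u hu hpu
  have h1 : pullU f (pullU p₂ u) ∈ E1 (cpG G ℕ Z₁) := E0_E1 f.isProperMap hf hpu
  have h2 : pullU p₁ (pullU e u) ∈ E1 (cpG G ℕ Z₁) := by
    rw [E0_comp] at h1 ⊢
    have h3 : (fun z => e (p₁ z)) = fun z => p₂ (f z) := funext hc
    rw [h3]
    exact h1
  have h4 := E0_E1 e.symm.isProperMap hes (h _ (E0_GL1 e.isProperMap he hu) h2)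
  rwa [E0_comp, E0_id u e.apply_symm_apply] at h4

end K

end Pool.Agent.Lib.MP_aa9b81_an.Tv
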