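import Pool.Agent.Lib.MP_aa9b81_an.Tv.E0

/-!
# Transversals, part E1: subsets of separated sets, the spaces `FS` and `US`
-/

open scoped ENNReal Topology CompactlySupported
open Function Filter MeasureTheory

noncomputable section

set_option linter.unusedSectionVars false

namespace Pool.Agent.Lib.MP_aa9b81_an.Tv

open Cut Hs Cb

section Fell

variable {G : Type} [Group G] {V : Set G}

/-- The set `(A' ∩ C) ∪ (A ∖ C)`, as a subset of `D`. -/
def comb (D A A' C : ClV V) : ClV V :=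
  D.cut {i | (i ∈ A'.s ∧ i ∈ C.s) ∨ (i ∈ A.s ∧ i ∉ C.s)}

theorem mem_comb {D A A' C : ClV V} {i : G} : i ∈ (comb D A A' C).s ↔
    i ∈ D.s ∧ ((i ∈ A'.s ∧ i ∈ C.s) ∨ (i ∈ A.s ∧ i ∉ C.s)) := Iff.rfl

theorem comb_subset (D A A' C : ClV V) : (comb D A A' C).s ⊆ D.s := ClV.cut_subset _ _

theorem comb_smul (g : G) (D A A' C : ClV V) :
    comb (g • D) (g • A) (g • A') (g • C) = g • comb D A A' C :=
  ClV.ext (Set.ext fun _ => Iff.rfl)

theorem comb_full {D A A' : ClV V} (h : A'.s ⊆ D.s) : comb D A A' D = A' := by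
  refine ClV.ext (Set.ext fun i => ?_)
  rw [mem_comb]
  constructor
  · rintro ⟨h1, h2 | h2⟩
    · exact h2.1
    · exact absurd h1 h2.2
  · exact fun h1 => ⟨h h1, Or.inl ⟨h1, h h1⟩⟩

theorem comb_emp {D A A' : ClV V} (h : A.s ⊆ D.s) : comb D A A' ClV.emp = A := by
  refine ClV.ext (Set.ext fun i => ?_)
  rw [mem_comb]
  constructor
  · rintro ⟨_, h2 | h2⟩
    · exact h2.2.elim
    · exact h2.1
  · exact fun h1 => ⟨h h1, Or.inr ⟨h1, fun h2 => h2.elim⟩⟩

variable [TopologicalSpace G] [IsTopologicalGroup G] [T2Space G] [LocallyCompactSpace G]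
  {Zp : Type} {l : Filter Zp} {D A A' C : Zp → ClV V} {D₀ A₀ A₀' C₀ : ClV V}

/-- The Fell topology on the subsets of a converging family: convergence of the membership bits. -/
theorem tendsto_sub_iff (hV : V ∈ 𝓝 (1 : G)) (hD : Tendsto D l (𝓝 D₀))
    (hA : ∀ z, (A z).s ⊆ (D z).s) (hA₀ : A₀.s ⊆ D₀.s) :
    Tendsto A l (𝓝 A₀) ↔ ∀ i ∈ D₀.s, ∃ N ∈ 𝓝 i, ∀ᶠ z in l, ∀ j ∈ (D z).s, j ∈ N →
      (j ∈ (A z).s ↔ i ∈ A₀.s) := by
  constructor
  · intro h i hi
    obtain ⟨N, hN, hu⟩ := exists_nhds_unique hV i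
    obtain ⟨K, hK, hiK, hKN⟩ := exists_compact_subset isOpen_interior
      (mem_interior_iff_mem_nhds.2 hN)
    have hKN' : K ⊆ N := hKN.trans interior_subset
    refine ⟨K, mem_interior_iff_mem_nhds.1 hiK, ?_⟩
    by_cases hiA : i ∈ A₀.s
    · filter_upwards [(ClV.tendsto_iff.1 h).2 (interior K) isOpen_interior ⟨i, hiA, hiK⟩]
        with z hz j hj hjK
      obtain ⟨x, hxA, hxK⟩ := hz
      have h1 : j = x := hu _ (D z).sep j hj x (hA z hxA) (hKN' hjK) (hKN' (interior_subset hxK))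
      rw [h1]
      exact iff_of_true hxA hiA
    · have hd : Disjoint K A₀.s := by
        rw [Set.disjoint_left]
        intro x hxK hxA
        have h1 : x = i := hu _ D₀.sep x (hA₀ hxA) i hi (hKN' hxK) (mem_of_mem_nhds hN)
        exact hiA (h1 ▸ hxA)
      filter_upwards [(ClV.tendsto_iff.1 h).1 K hK hd] with z hz j _ hjK
      exact iff_of_false (fun hjA => Set.disjoint_left.1 hz hjK hjA) hiA
  · intro h
    refine ClV.tendsto_iff.2 ⟨fun K hK hd => ?_, fun U hU hne => ?_⟩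
    · choose! N hN hev using h
      have hfin := ClV.finite_inter hV D₀.sep hK
      have hop2 : IsOpen (⋃ i ∈ D₀.s ∩ K, interior (N i)) :=
        isOpen_biUnion fun _ _ => isOpen_interior
      have hC2 : IsCompact (K \ ⋃ i ∈ D₀.s ∩ K, interior (N i)) := hK.diff hop2
      have hCd2 : Disjoint (K \ ⋃ i ∈ D₀.s ∩ K, interior (N i)) D₀.s := by
        rw [Set.disjoint_left]
        rintro x ⟨hxK, hxN⟩ hxD
        exact hxN (Set.mem_iUnion₂.2 ⟨x, ⟨hxD, hxK⟩, mem_interior_iff_mem_nhds.2 (hN x hxD)⟩)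
      have h3 : ∀ᶠ z in l, ∀ i ∈ D₀.s ∩ K, ∀ j ∈ (D z).s, j ∈ N i →
          (j ∈ (A z).s ↔ i ∈ A₀.s) :=
        (Filter.eventually_all_finite hfin).2 fun i hi => hev i hi.1
      filter_upwards [(ClV.tendsto_iff.1 hD).1 _ hC2 hCd2, h3] with z hz1 hz3
      rw [Set.disjoint_left]
      intro x hxK hxA
      by_cases hx : x ∈ ⋃ i ∈ D₀.s ∩ K, interior (N i)
      · obtain ⟨i, hi, hxi⟩ := Set.mem_iUnion₂.1 hx
        have h4 := (hz3 i hi x (hA z hxA) (interior_subset hxi)).1 hxA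
        exact Set.disjoint_left.1 hd hi.2 h4
      · exact Set.disjoint_left.1 hz1 ⟨hxK, hx⟩ (hA z hxA)
    · obtain ⟨i, hiA, hiU⟩ := hne
      obtain ⟨N, hN, hev⟩ := h i (hA₀ hiA)
      have h1 : i ∈ interior (N ∩ U) :=
        mem_interior_iff_mem_nhds.2 (inter_mem hN (hU.mem_nhds hiU))
      filter_upwards [hev, (ClV.tendsto_iff.1 hD).2 _ isOpen_interior ⟨i, hA₀ hiA, h1⟩]
        with z hz1 hz2
      obtain ⟨x, hxD, hx⟩ := hz2
      have h2 := interior_subset hx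
      exact ⟨x, (hz1 x hxD h2.1).2 hiA, h2.2⟩

theorem tendsto_comb (hV : V ∈ 𝓝 (1 : G)) (hD : Tendsto D l (𝓝 D₀)) (hA : Tendsto A l (𝓝 A₀))
    (hA' : Tendsto A' l (𝓝 A₀')) (hC : Tendsto C l (𝓝 C₀)) (sA : ∀ z, (A z).s ⊆ (D z).s)
    (sA' : ∀ z, (A' z).s ⊆ (D z).s) (sC : ∀ z, (C z).s ⊆ (D z).s) (sA₀ : A₀.s ⊆ D₀.s)
    (sA₀' : A₀'.s ⊆ D₀.s) (sC₀ : C₀.s ⊆ D₀.s) :
    Tendsto (fun z => comb (D z) (A z) (A' z) (C z)) l (𝓝 (comb D₀ A₀ A₀' C₀)) := by
  refine (tendsto_sub_iff hV hD (fun z => comb_subset _ _ _ _) (comb_subset _ _ _ _)).2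
    fun i hi => ?_
  obtain ⟨N₁, hN₁, e₁⟩ := (tendsto_sub_iff hV hD sA sA₀).1 hA i hi
  obtain ⟨N₂, hN₂, e₂⟩ := (tendsto_sub_iff hV hD sA' sA₀').1 hA' i hi
  obtain ⟨N₃, hN₃, e₃⟩ := (tendsto_sub_iff hV hD sC sC₀).1 hC i hi
  refine ⟨N₁ ∩ (N₂ ∩ N₃), inter_mem hN₁ (inter_mem hN₂ hN₃), ?_⟩
  filter_upwards [e₁, e₂, e₃] with z h₁ h₂ h₃ j hj hjN
  rw [mem_comb, mem_comb, h₁ j hj hjN.1, h₂ j hj hjN.2.1, h₃ j hj hjN.2.2]
  exact and_congr_left fun _ => iff_of_true hj hi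

end Fell

section FU

variable {G Y : Type} [Group G] [TopologicalSpace G] [TopologicalSpace Y] [MulAction G Y]
  {V : Set G} {Δ : Df G Y V} {c : Y → ℝ}

theorem FS.base_smul (g : G) (x : (FS Δ c).Pt) : FS.base Δ c (g • x) = g • FS.base Δ c x := rfl

theorem FS.continuous_base : Continuous (FS.base Δ c) :=
  (continuous_fst.comp continuous_subtype_val).comp (FS Δ c).continuous_val

variable [IsTopologicalGroup G] [T2Space G] [LocallyCompactSpace G]

/-- The set `FS` is closed. -/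
theorem E1_isClosed_FS [ContinuousSMul G Y] (hV : V ∈ 𝓝 (1 : G)) (hc : Continuous c) :
    IsClosed (FS Δ c).carrier := by
  rw [← isOpen_compl_iff, isOpen_iff_mem_nhds]
  intro p hp
  have h0 : ¬ ∀ i ∈ (Δ.D p.1.1).s, (2 / 3 < c (i⁻¹ • p.1.1) → i ∈ p.1.2.s) ∧
    (c (i⁻¹ • p.1.1) < 1 / 3 → i ∉ p.1.2.s) := hp
  push Not at h0
  obtain ⟨i, hi, hic⟩ := h0
  have c1 : Continuous fun q : Prs Δ => q.1.1 := continuous_fst.comp continuous_subtype_val
  have c2 : Continuous fun q : Prs Δ => q.1.2 := continuous_snd.comp continuous_subtype_val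
  have hD : Tendsto (fun q : Prs Δ => Δ.D q.1.1) (𝓝 p) (𝓝 (Δ.D p.1.1)) :=
    (Δ.cont.comp c1).tendsto p
  have hA : Tendsto (fun q : Prs Δ => q.1.2) (𝓝 p) (𝓝 p.1.2) := c2.tendsto p
  obtain ⟨N, hN, hev⟩ := (tendsto_sub_iff hV hD (fun q => q.2) p.2).1 hA i hi
  have hcc : Continuous fun q : Prs Δ × G => c (q.2⁻¹ • q.1.1.1) :=
    hc.comp ((continuous_snd.inv).smul (c1.comp continuous_fst))
  -- a violation at `i` is a violation at the points near to `i`
  have key : ∀ (S : Set ℝ), IsOpen S → c (i⁻¹ • p.1.1) ∈ S →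
      ∀ᶠ q in 𝓝 p, ∃ j ∈ (Δ.D q.1.1).s, (j ∈ q.1.2.s ↔ i ∈ p.1.2.s) ∧ c (j⁻¹ • q.1.1) ∈ S := by
    intro S hS hcS
    have h1 : {q : Prs Δ × G | c (q.2⁻¹ • q.1.1.1) ∈ S} ∈ 𝓝 (p, i) :=
      (hS.preimage hcc).mem_nhds hcS
    rw [nhds_prod_eq] at h1
    obtain ⟨M, hM, N', hN', hMN⟩ := Filter.mem_prod_iff.1 h1
    have h2 : i ∈ interior (N ∩ N') := mem_interior_iff_mem_nhds.2 (inter_mem hN hN')
    filter_upwards [hev, hM, (ClV.tendsto_iff.1 hD).2 _ isOpen_interior ⟨i, hi, h2⟩]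
      with q hq1 hq2 hq3
    obtain ⟨j, hjD, hj⟩ := hq3
    have h3 := interior_subset hj
    exact ⟨j, hjD, hq1 j hjD h3.1, hMN (Set.mk_mem_prod hq2 h3.2)⟩
  by_cases h1 : 2 / 3 < c (i⁻¹ • p.1.1) ∧ i ∉ p.1.2.s
  · filter_upwards [key (Set.Ioi (2 / 3)) isOpen_Ioi h1.1] with q hq hqF
    obtain ⟨j, hj, hji, hjc⟩ := hq
    exact h1.2 (hji.1 ((hqF j hj).1 hjc))
  · have h2 : c (i⁻¹ • p.1.1) < 1 / 3 ∧ i ∈ p.1.2.s := by
      by_cases h3 : 2 / 3 < c (i⁻¹ • p.1.1)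
      · have h4 : i ∈ p.1.2.s := by
          by_contra h5
          exact h1 ⟨h3, h5⟩
        exact hic fun _ => h4
      · exact hic fun h4 => absurd h4 h3
    filter_upwards [key (Set.Iio (1 / 3)) isOpen_Iio h2.1] with q hq hqF
    obtain ⟨j, hj, hji, hjc⟩ := hq
    exact (hqF j hj).2 hjc (hji.2 h2.2)

theorem FS.isClosedEmbedding_val [ContinuousSMul G Y] (hV : V ∈ 𝓝 (1 : G)) (hc : Continuous c) :
    Topology.IsClosedEmbedding (FS Δ c).val :=
  IsClosed.isClosedEmbedding_subtypeVal (E1_isClosed_FS hV hc)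

theorem US.isOpenEmbedding_val [ContinuousSMul G Y] (hV : V ∈ 𝓝 (1 : G)) (hc : Continuous c) :
    Topology.IsOpenEmbedding (US Δ c).val :=
  IsOpen.isOpenEmbedding_subtypeVal (E1_isClosed_FS hV hc).isOpen_compl

theorem FS.isProperMap_base [ContinuousSMul G Y] (hV : IsOpen V) (h1 : (1 : G) ∈ V)
    (hc : Continuous c) : IsProperMap (FS.base Δ c) :=
  (Prs.isProperMap_fst Δ hV h1).comp (FS.isClosedEmbedding_val (hV.mem_nhds h1) hc).isProperMap

theorem FS.locallyCompactSpace [ContinuousSMul G Y] [LocallyCompactSpace Y] (hV : IsOpen V)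
    (h1 : (1 : G) ∈ V) (hc : Continuous c) : LocallyCompactSpace (FS Δ c).Pt := by
  have := Prs.locallyCompactSpace Δ hV h1
  exact (FS.isClosedEmbedding_val (hV.mem_nhds h1) hc).locallyCompactSpace

theorem US.locallyCompactSpace [ContinuousSMul G Y] [LocallyCompactSpace Y] (hV : IsOpen V)
    (h1 : (1 : G) ∈ V) (hc : Continuous c) : LocallyCompactSpace (US Δ c).Pt := by
  have := Prs.locallyCompactSpace Δ hV h1
  exact (US.isOpenEmbedding_val (hV.mem_nhds h1) hc).locallyCompactSpace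

/-- A continuous equivariant family of sets which satisfy the condition of `FS`. -/
structure Sect (Δ : Df G Y V) (c : Y → ℝ) (A : Y → ClV V) : Prop where
  cont : Continuous A
  smul : ∀ (g : G) y, A (g • y) = g • A y
  sub : ∀ y, (A y).s ⊆ (Δ.D y).s
  cond : ∀ y, ∀ i ∈ (Δ.D y).s, (2 / 3 < c (i⁻¹ • y) → i ∈ (A y).s) ∧
    (c (i⁻¹ • y) < 1 / 3 → i ∉ (A y).s)

variable {A : Y → ClV V}

/-- The section. -/
def Sect.diag (h : Sect Δ c A) (y : Y) : (FS Δ c).Pt := ⟨⟨(y, A y), h.sub y⟩, h.cond y⟩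

theorem Sect.base_diag (h : Sect Δ c A) (y : Y) : FS.base Δ c (h.diag y) = y := rfl

theorem Sect.diag_smul (h : Sect Δ c A) (g : G) (y : Y) : h.diag (g • y) = g • h.diag y :=
  Subtype.ext (Subtype.ext (Prod.ext rfl (h.smul g y)))

theorem Sect.continuous_diag (h : Sect Δ c A) : Continuous h.diag :=
  Continuous.subtype_mk (Continuous.subtype_mk (continuous_id.prodMk h.cont) _) _

theorem Sect.isProperMap_diag (h : Sect Δ c A) [T2Space (Prs Δ)] : IsProperMap h.diag :=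
  (Function.LeftInverse.isClosedEmbedding (f := FS.base Δ c) h.base_diag FS.continuous_base
    h.continuous_diag).isProperMap

variable (Δ c) in
/-- The family `D` on `FS`. -/
def dFS : Df G (FS Δ c).Pt V := pullDf Δ (FS.base Δ c) FS.continuous_base FS.base_smul

/-- The deformation of `FS` to the section. -/
def Sect.H (h : Sect Δ c A) (r : Prs (dFS Δ c)) : (FS Δ c).Pt :=
  ⟨⟨(FS.base Δ c r.1.1, comb (Δ.D (FS.base Δ c r.1.1)) (A (FS.base Δ c r.1.1))
    ((FS Δ c).val r.1.1).1.2 r.1.2), ClV.cut_subset _ _⟩, fun i hi => by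
      have h1 := h.cond (FS.base Δ c r.1.1) i hi
      have h2 := r.1.1.2 i hi
      refine ⟨fun h3 => ⟨hi, ?_⟩, fun h3 h4 => ?_⟩
      · by_cases h5 : i ∈ r.1.2.s
        · exact Or.inl ⟨h2.1 h3, h5⟩
        · exact Or.inr ⟨h1.1 h3, h5⟩
      · rcases h4.2 with h5 | h5
        · exact h2.2 h3 h5.1
        · exact h1.2 h3 h5.1⟩

theorem Sect.H_smul (h : Sect Δ c A) (g : G) (r : Prs (dFS Δ c)) : h.H (g • r) = g • h.H r := by
  refine Subtype.ext (Subtype.ext (Prod.ext rfl ?_))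
  change comb (Δ.D (g • FS.base Δ c r.1.1)) (A (g • FS.base Δ c r.1.1))
    (g • ((FS Δ c).val r.1.1).1.2) (g • r.1.2) = g • comb _ _ _ _
  rw [Δ.smul, h.smul, comb_smul]

theorem Sect.H_full (h : Sect Δ c A) (x : (FS Δ c).Pt) : h.H ((dFS Δ c).full x) = x :=
  Subtype.ext (Subtype.ext (Prod.ext rfl (comb_full x.1.2)))

theorem Sect.H_non (h : Sect Δ c A) (x : (FS Δ c).Pt) :
    h.H ((dFS Δ c).non x) = h.diag (FS.base Δ c x) :=
  Subtype.ext (Subtype.ext (Prod.ext rfl (comb_emp (h.sub _))))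

theorem Sect.continuous_H (h : Sect Δ c A) (hV : V ∈ 𝓝 (1 : G)) : Continuous h.H := by
  have c1 : Continuous fun r : Prs (dFS Δ c) => r.1.1 :=
    continuous_fst.comp continuous_subtype_val
  have c2 : Continuous fun r : Prs (dFS Δ c) => r.1.2 :=
    continuous_snd.comp continuous_subtype_val
  have c3 : Continuous fun r : Prs (dFS Δ c) => FS.base Δ c r.1.1 := FS.continuous_base.comp c1
  have c4 : Continuous fun r : Prs (dFS Δ c) => ((FS Δ c).val r.1.1).1.2 :=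
    (continuous_snd.comp continuous_subtype_val).comp ((FS Δ c).continuous_val.comp c1)
  refine Continuous.subtype_mk (Continuous.subtype_mk (c3.prodMk ?_) _) _
  rw [continuous_iff_continuousAt]
  intro r
  exact tendsto_comb hV ((Δ.cont.comp c3).tendsto r) ((h.cont.comp c3).tendsto r)
    (c4.tendsto r) (c2.tendsto r) (fun z => h.sub _) (fun z => z.1.1.1.2) (fun z => z.2)
    (h.sub _) r.1.1.1.2 r.2

theorem Sect.isProperMap_H [ContinuousSMul G Y] (h : Sect Δ c A) (hV : IsOpen V)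
    (h1 : (1 : G) ∈ V) (hc : Continuous c) [T2Space (Prs Δ)] : IsProperMap h.H := by
  refine isProperMap_of_comp_of_t2 (h.continuous_H (hV.mem_nhds h1)) FS.continuous_base ?_
  have h2 := (FS.isProperMap_base (Δ := Δ) hV h1 hc).comp (Prs.isProperMap_fst (dFS Δ c) hV h1)
  exact h2

end FU

end Pool.Agent.Lib.MP_aa9b81_an.Tv
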