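import Pool.Agent.Lib.MP_aa9b81_an.Tv.E1

/-!
# Transversals, part E2: surjectivity from deformations
-/

open scoped ENNReal Topology CompactlySupported
open Function Filter MeasureTheory

noncomputable section

set_option linter.unusedSectionVars false

namespace Pool.Agent.Lib.MP_aa9b81_an.Tv

open Cut Hs Cb

variable {G X Y E Z : Type} [Group G] [TopologicalSpace G] [IsTopologicalGroup G]
  [LocallyCompactSpace G] [SecondCountableTopology G] [T2Space G] [MeasurableSpace G]
  [BorelSpace G]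
  [TopologicalSpace X] [MulAction G X] [T2Space X] [LocallyCompactSpace X] [ContinuousSMul G X]
  [TopologicalSpace Y] [MulAction G Y] [AddCommGroup E] [Module ℝ E]
  [TopologicalSpace E] [T2Space E] [ContinuousAdd E] [ContinuousSMul ℝ E] [DistribMulAction G E]
  [SMulCommClass G ℝ E] [ContinuousConstSMul G E] [TopologicalSpace Z] [MulAction G Z]
  [T2Space Y] [LocallyCompactSpace Y] [ContinuousSMul G Y] [T2Space Z] [LocallyCompactSpace Z]
  [ContinuousSMul G Z]
  {V : Set G} {Δ : Df G Y V} {Q : ConvexSpace G E}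

/-- A deformation onto the image of `s` gives surjectivity of `p`. -/
theorem surG_of_deform (hV : IsOpen V) (h1 : (1 : G) ∈ V)
    (hQ : Continuous fun p : G × Q.Pt => p.1 • p.2) [ContinuousSMul G (Cone Q)]
    {Δ' : Df G X V} {H : Prs Δ' → X} (hH : IsProperMap H) (hHe : ∀ (g : G) x, H (g • x) = g • H x)
    (h0 : ∀ x, H (Δ'.full x) = x) {p : X → Y} {s : Y → X} (hs : IsProperMap s)
    (hse : ∀ (g : G) y, s (g • y) = g • s y) (h2 : ∀ x, H (Δ'.non x) = s (p x)) :
    SurG G (fun x : X × Cone Q × Z => ((p x.1, x.2) : Y × Cone Q × Z)) := by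
  intro v hv
  have h3 := deform (Z := Z) hV h1 hQ hH hHe h0 hv
  have hS : IsProperMap (fun b : Y × Cone Q × Z => ((s b.1, b.2) : X × Cone Q × Z)) :=
    hs.prodMap isProperMap_id
  refine ⟨pullU (fun b : Y × Cone Q × Z => ((s b.1, b.2) : X × Cone Q × Z)) v,
    E0_GL1 hS (fun g b => Prod.ext (hse g b.1) rfl) hv, ?_⟩
  rw [E0_comp]
  have h4 : (fun b : X × Cone Q × Z => ((H (Δ'.non b.1), b.2) : X × Cone Q × Z)) =
      fun b => ((s (p b.1), b.2) : X × Cone Q × Z) := funext fun b => Prod.ext (h2 b.1) rfl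
  rw [h4] at h3
  have h5 := inv_mem h3
  rwa [mul_inv_rev, inv_inv] at h5

/-! ### The projection of the space of pairs -/

variable (Δ) in
/-- The family `A` on the space of the pairs `(y, A)`. -/
def dP : Df G (Prs Δ) V where
  D p := p.1.2
  cont := continuous_snd.comp continuous_subtype_val
  smul _ _ := rfl

variable (Δ) in
/-- The deformation `((y, A), B) ↦ (y, B)`. -/
def HP (r : Prs (dP Δ)) : Prs Δ := ⟨(r.1.1.1.1, r.1.2), r.2.trans r.1.1.2⟩

theorem continuous_HP : Continuous (HP Δ) := by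
  have c1 : Continuous fun r : Prs (dP Δ) => r.1.1.1.1 :=
    (continuous_fst.comp continuous_subtype_val).comp
      (continuous_fst.comp continuous_subtype_val)
  exact Continuous.subtype_mk (c1.prodMk (continuous_snd.comp continuous_subtype_val)) _

theorem isProperMap_HP (hV : IsOpen V) (h1 : (1 : G) ∈ V) : IsProperMap (HP Δ) := by
  have := Prs.t2Space Δ (hV.mem_nhds h1)
  have h2 := (Prs.isProperMap_fst Δ hV h1).comp (Prs.isProperMap_fst (dP Δ) hV h1)
  refine isProperMap_of_comp_of_t2 continuous_HP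
    (continuous_fst.comp continuous_subtype_val : Continuous fun p : Prs Δ => p.1.1) ?_
  exact h2

/-- The projection of the pairs to the base is surjective on `K₁`. -/
theorem surG_fst (hV : IsOpen V) (h1 : (1 : G) ∈ V)
    (hQ : Continuous fun p : G × Q.Pt => p.1 • p.2) [T2Space (Prs Δ)] [ContinuousSMul G (Prs Δ)]
    [ContinuousSMul G (Cone Q)] :
    SurG G (fun x : Prs Δ × Cone Q × Z => ((x.1.1.1, x.2) : Y × Cone Q × Z)) := by
  have := Prs.locallyCompactSpace Δ hV h1
  exact surG_of_deform hV h1 hQ (Δ' := dP Δ) (H := HP Δ) (p := fun x : Prs Δ => x.1.1)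
    (s := Δ.non) (isProperMap_HP hV h1) (fun _ _ => rfl) (fun _ => rfl)
    (Δ.isClosedEmbedding_non (hV.mem_nhds h1)).isProperMap Δ.non_smul fun _ => rfl

theorem isProperMap_fstW (hV : IsOpen V) (h1 : (1 : G) ∈ V) :
    IsProperMap (fun x : Prs Δ × Cone Q × Z => ((x.1.1.1, x.2) : Y × Cone Q × Z)) :=
  (Prs.isProperMap_fst Δ hV h1).prodMap isProperMap_id

/-! ### The projection of `FS`, in the presence of a section -/

variable {c : Y → ℝ} {A : Y → ClV V}

theorem isProperMap_baseW (hV : IsOpen V) (h1 : (1 : G) ∈ V) (hc : Continuous c) :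
    IsProperMap (fun x : (FS Δ c).Pt × Cone Q × Z =>
      ((FS.base Δ c x.1, x.2) : Y × Cone Q × Z)) :=
  (FS.isProperMap_base hV h1 hc).prodMap isProperMap_id

theorem surG_base_of_sect (h : Sect Δ c A) (hV : IsOpen V) (h1 : (1 : G) ∈ V)
    (hc : Continuous c) (hQ : Continuous fun p : G × Q.Pt => p.1 • p.2) [T2Space (Prs Δ)]
    [ContinuousSMul G (Prs Δ)] [ContinuousSMul G (Cone Q)] :
    SurG G (fun x : (FS Δ c).Pt × Cone Q × Z => ((FS.base Δ c x.1, x.2) : Y × Cone Q × Z)) := by
  have := FS.locallyCompactSpace (Δ := Δ) hV h1 hc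
  exact surG_of_deform hV h1 hQ (Δ' := dFS Δ c) (h.isProperMap_H hV h1 hc) h.H_smul h.H_full
    h.isProperMap_diag h.diag_smul h.H_non

theorem injG_base_of_sect (h : Sect Δ c A) [T2Space (Prs Δ)]
    [ContinuousSMul G (Prs Δ)] [ContinuousSMul G (Cone Q)] :
    InjG G (fun x : (FS Δ c).Pt × Cone Q × Z => ((FS.base Δ c x.1, x.2) : Y × Cone Q × Z)) := by
  have hS : IsProperMap (fun b : Y × Cone Q × Z => ((h.diag b.1, b.2) :
      (FS Δ c).Pt × Cone Q × Z)) := h.isProperMap_diag.prodMap isProperMap_id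
  exact E0_inj_section hS (fun g b => Prod.ext (h.diag_smul g b.1) rfl) fun b => rfl

end Pool.Agent.Lib.MP_aa9b81_an.Tv
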