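import Pool.Agent.Lib.MP_aa9b81_an.Tv.L4

/-!
# Transversals, part QS: classes of the complement vanish on the full section
-/

open scoped ENNReal Topology CompactlySupported
open Function Filter MeasureTheory

noncomputable section

set_option linter.unusedSectionVars false

namespace Pool.Agent.Lib.MP_aa9b81_an.Tv

open Cut Hs Cb

variable {G Y E Z : Type} [Group G] [TopologicalSpace G] [IsTopologicalGroup G]
  [LocallyCompactSpace G] [SecondCountableTopology G] [T2Space G] [MeasurableSpace G]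
  [BorelSpace G]
  [TopologicalSpace Y] [MulAction G Y] [AddCommGroup E] [Module ℝ E]
  [TopologicalSpace E] [T2Space E] [ContinuousAdd E] [ContinuousSMul ℝ E] [DistribMulAction G E]
  [SMulCommClass G ℝ E] [ContinuousConstSMul G E] [TopologicalSpace Z] [MulAction G Z]
  [T2Space Y] [LocallyCompactSpace Y] [ContinuousSMul G Y] [T2Space Z] [LocallyCompactSpace Z]
  [ContinuousSMul G Z]
  {V : Set G} (Δ : Df G Y V) (c : Y → ℝ) (Q : ConvexSpace G E)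

theorem QS_extUnit {B₀ B : Type} [NormedRing B₀] [NormedRing B] (j : B₀ →ₙ+* B) (u : B₀ˣ) :
    ((extUnit j u : Bˣ) : B) - 1 = j ((u : B₀) - 1) := by
  show (1 + j ((u : B₀) - 1)) - 1 = _
  rw [add_sub_cancel_left]

theorem QS_extUnit_inv {B₀ B : Type} [NormedRing B₀] [NormedRing B] (j : B₀ →ₙ+* B) (u : B₀ˣ) :
    (((extUnit j u)⁻¹ : Bˣ) : B) - 1 = j (((u⁻¹ : B₀ˣ) : B₀) - 1) := by
  rw [← map_inv, QS_extUnit]

theorem QS_t2Pt (Q : ConvexSpace G E) : T2Space Q.Pt := inferInstanceAs (T2Space Q.carrier)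

theorem QS_compactPt (Q : ConvexSpace G E) : CompactSpace Q.Pt :=
  isCompact_iff_compactSpace.1 Q.compact

section Stage

variable {O : Type} [DecidableEq G] [LinearOrder O] [T2Space (Prs Δ)] [ContinuousSMul G (Prs Δ)]
  [ContinuousSMul G (Cone Q)] [ContinuousSMul G Q.Pt] {Δ c Q}

/-- The value of the path for the extended unit. PROOF: unfold `pv`, `extUnit` (the value of
`extUnit j v` is `1 + j (v - 1)`, of its inverse `1 + j (v⁻¹ - 1)`). -/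
theorem pv_ext {Th : FamG G ℕ (Prs Δ × Cone Q × Z) → FamG G (ℕ × Bs G) (Y × Cone Q × Z)}
    (T : G → BL (Bs G)) (v : (FamG G ℕ ((US Δ c).Pt × Cone Q × Z))ˣ) :
    pv Th T (extUnit (extG (ιU Δ c Q)) v) =
      pv (fun x : FamG G ℕ ((US Δ c).Pt × Cone Q × Z) => Th (extG (ιU Δ c Q) x)) T v := by
  unfold pv
  rw [QS_extUnit, QS_extUnit_inv]

/-- THE LABEL STAGE. PROOF: as `Cb.stage3`: `path_E1` for `Th = ThL Δ c Q q₀ Th₂`, `Th₂` from `exists_SHA` for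
the factor `Q.Pt × Cone Q × Z` and the angles `agl c`, `n t φ = nL Δ Q c q₀ t (ez Δ c Q φ)`, `T = Tw e W 0`
(`SH_ThL`, `Sy_nL` with `Cc_ez`, `ez_of_mem_FS`; `continuousOn_Th` with `nL_time`, `nL_eq_zero`, `ez_eq_zero`).
Start: `pv_ext`, and the two homomorphisms `x ↦ Th₁ (extG x)` (`SH_ext`) and `ThL 0` agree on the crossed product
(`SH.eq`, `SH.congr`, `nL_zero`). End: `ThL_one`: the value is `1`. -/
theorem stageL (χ : Cb.Part V) (hV : IsOpen V) (h1 : (1 : G) ∈ V)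
    (hQ : Continuous fun p : G × Q.Pt => p.1 • p.2) (e : G ↪ O) (W : Wc G) (hc : Continuous c)
    (q₀ : Q.Pt) {Th₁ : FamG G ℕ (Prs Δ × Cone Q × Z) → FamG G (ℕ × Bs G) (Y × Cone Q × Z)}
    (hTh₁ : SH e Th₁ (nA Δ (agl c)))
    {v : (FamG G ℕ ((US Δ c).Pt × Cone Q × Z))ˣ}
    (hv : v ∈ GL1 (cpG G ℕ ((US Δ c).Pt × Cone Q × Z)))
    {U : (FamG G (ℕ × Bs ℕ) (Y × Cone Q × Z))ˣ}
    (hU : (U : FamG G (ℕ × Bs ℕ) (Y × Cone Q × Z)) =
      1 + cj χ e (Δ.base (Cone Q × Z)) (pv Th₁ (Tw e W 0) (extUnit (extG (ιU Δ c Q)) v) - 1)) :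
    U ∈ E1 (cpG G (ℕ × Bs ℕ) (Y × Cone Q × Z)) := by
  have hVn : V ∈ 𝓝 (1 : G) := hV.mem_nhds h1
  have hlc : LocallyCompactSpace (Cone Q) := cone_locallyCompact Q
  have ht2 : T2Space Q.Pt := QS_t2Pt Q
  have hcp : CompactSpace Q.Pt := QS_compactPt Q
  obtain ⟨Th₂, hTh₂⟩ := exists_SHA (P := Q.Pt × Cone Q × Z) (Δ := Δ) hV h1 e (continuous_agl hc)
  have hSH : ∀ t : ℝ, SH e (ThL Δ c Q q₀ Th₂ t) (fun φ => nL Δ Q c q₀ t (ez Δ c Q φ)) := fun t =>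
    SH_ThL hV h1 hc q₀ hTh₂ t
  have hSy : ∀ t ∈ Set.Icc (0 : ℝ) 1, ∀ φ : C_c(((US Δ c).Pt × Cone Q × Z) × G, ℂ),
      Sy χ e (Δ.base (Cone Q × Z)) (Tw e W 0)
        (nL Δ Q c q₀ t (ez Δ c Q fun b g => φ (b, g))) :=
    fun t _ φ => Sy_nL χ hV h1 hQ e W hc q₀ t (Cc_ez hVn hc φ) (ez_of_mem_FS _)
  have h0e : ∀ x ∈ cpG G ℕ ((US Δ c).Pt × Cone Q × Z),
      Th₁ (extG (ιU Δ c Q) x) = ThL Δ c Q q₀ Th₂ 0 x := by
    refine (SH_ext hVn hc hTh₁).eq ((hSH 0).congr fun φ => ?_)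
    funext b g
    exact nL_zero hVn c q₀ (Cc_ez hVn hc φ) (ez_of_mem_FS _) b g
  have key : U⁻¹ * 1 ∈ E1 (cpG G (ℕ × Bs ℕ) (Y × Cone Q × Z)) := by
    refine path_E1 (χ := χ) (Δ := Δ.base (Cone Q × Z)) hVn
      (Th := fun t => ThL Δ c Q q₀ Th₂ t) (n := fun t φ => nL Δ Q c q₀ t (ez Δ c Q φ))
      (T := fun _ => Tw e W 0)
      (fun t _ => TOK_Tw χ hVn e W le_rfl zero_le_one) continuousOn_const (fun t _ => hSH t)
      hSy ?_ hv ?_ ?_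
    · refine continuousOn_Th (Δ := Δ.base (Cone Q × Z)) (χ := χ) (T := fun _ => Tw e W 0)
        (n := fun t φ => nL Δ Q c q₀ t (ez Δ c Q φ)) (fun t _ => hSH t) hSy ?_ ?_
      · intro φ
        obtain ⟨C, hC, h⟩ := (Cc.mk φ.continuous φ.hasCompactSupport :
          Cc ((US Δ c).Pt × Cone Q × Z) G fun b g => φ (b, g)).exists_supp
        exact ⟨C, hC, fun t _ b g hg =>
          nL_eq_zero c q₀ t (fun x => ez_eq_zero (fun b => h b g hg) x) b⟩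
      · intro φ t₀ ht₀ ε hε
        exact nL_time hVn c q₀ (Cc_ez hVn hc φ) ht₀ hε
    · rw [hU, pv_ext]
      have h3 : pv (fun x : FamG G ℕ ((US Δ c).Pt × Cone Q × Z) => Th₁ (extG (ιU Δ c Q) x))
          (Tw e W 0) v = pv (ThL Δ c Q q₀ Th₂ 0) (Tw e W 0) v := pv_congr hv h0e
      rw [h3]
    · have h4 : pv (ThL Δ c Q q₀ Th₂ 1) (Tw e W 0) v = 1 := by
        unfold pv dval
        rw [ThL_one q₀ hTh₂, ThL_one q₀ hTh₂, mul_zero, zero_mul, sub_zero, mul_zero, add_zero]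
      rw [h4, sub_self, cj_zero hVn, add_zero]
      rfl
  rw [mul_one] at key
  exact (inv_mem_iff (H := E1 (cpG G (ℕ × Bs ℕ) (Y × Cone Q × Z)))).1 key

end Stage

/-- THE LABEL THEOREM. PROOF: as `Cb.core`: `v' = extUnit (extG (ιU Δ c Q)) v` is in `GL1`
(`extUnit_mem_GL1`, `extG_mem`, `isOpenEmbedding_ιU`); units `A`, `B`, `C` by `exists_pu` for
`(Thr (r1 Δ Q), Tw e W 1)`, `(Thr (r1 Δ Q), Tw e W 0)`, `(Th₁, Tw e W 0)`, `Th₁` from `exists_SHA` for the factor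
`Cone Q × Z` and the angles `agl c` (`continuous_agl`, `abs_agl_le`); `Cb.stage1`, `stage2A` (`rP Δ = r1 Δ Q` by
definition), `stageL`: `A⁻¹ B`, `B⁻¹ C`, `C` are in `E1`, so `A` is; `A = extUnit (corn (sV ℕ)) (pullU (fM Δ Q) v')`
(`value_corn`, `start_value`); `corner`. -/
theorem qs (hV : IsOpen V) (h1 : (1 : G) ∈ V) (hc : Continuous c)
    (hQ : Continuous fun p : G × Q.Pt => p.1 • p.2) [T2Space (Prs Δ)]
    [ContinuousSMul G (Prs Δ)] [ContinuousSMul G (Cone Q)]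
    {v : (FamG G ℕ ((US Δ c).Pt × Cone Q × Z))ˣ}
    (hv : v ∈ GL1 (cpG G ℕ ((US Δ c).Pt × Cone Q × Z))) :
    pullU (fM Δ Q) (extUnit (extG (ιU Δ c Q)) v : (FamG G ℕ (Prs Δ × Cone Q × Z))ˣ) ∈
      E1 (cpG G ℕ (Y × Cone Q × Z)) := by
  classical
  have hVn : V ∈ 𝓝 (1 : G) := hV.mem_nhds h1
  have hQPt : ContinuousSMul G Q.Pt := ⟨hQ⟩
  have hlc : LocallyCompactSpace (Cone Q) := cone_locallyCompact Q
  obtain ⟨χ⟩ := exists_part hVn
  obtain ⟨W⟩ := exists_wc (G := G)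
  obtain ⟨O, _, ⟨e⟩⟩ := exists_linearOrder G
  obtain ⟨q₀⟩ : Nonempty Q.Pt := Q.nonempty.to_subtype
  have hT0 := TOK_Tw χ hVn e W le_rfl zero_le_one
  have hT1 := TOK_Tw χ hVn e W zero_le_one le_rfl
  have hv' : (extUnit (extG (ιU Δ c Q)) v : (FamG G ℕ (Prs Δ × Cone Q × Z))ˣ) ∈
      GL1 (cpG G ℕ (Prs Δ × Cone Q × Z)) :=
    extUnit_mem_GL1 (extG_mem (isOpenEmbedding_ιU hVn hc) (ιU_smul (Z := Z))) hv
  obtain ⟨Th₁, hTh₁⟩ := exists_SHA (P := Cone Q × Z) (Δ := Δ) hV h1 e (continuous_agl hc)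
  obtain ⟨A, hA, hA'⟩ := exists_pu (Δ := Δ.base (Cone Q × Z)) hVn hT1 (SH_r1 (Z := Z) e)
    (fun φ => Sy_n1 χ hV h1 hQ e W zero_le_one le_rfl ⟨φ.continuous, φ.hasCompactSupport⟩) hv'
  obtain ⟨B, hB, hB'⟩ := exists_pu (Δ := Δ.base (Cone Q × Z)) hVn hT0 (SH_r1 (Z := Z) e)
    (fun φ => Sy_n1 χ hV h1 hQ e W le_rfl zero_le_one ⟨φ.continuous, φ.hasCompactSupport⟩) hv'
  obtain ⟨C, hC, hC'⟩ := exists_pu (Δ := Δ.base (Cone Q × Z)) hVn hT0 hTh₁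
    (fun φ => Sy_nA χ hV h1 e W (continuous_agl hc) ⟨φ.continuous, φ.hasCompactSupport⟩) hv'
  have s1 := stage1 χ hV h1 hQ e W hv' hA' hB'
  have s2 := stage2A (P := Cone Q × Z) χ hV h1 e W (continuous_agl hc) (abs_agl_le c) hTh₁ hv'
    hB' hC'
  have s3 := stageL χ hV h1 hQ e W hc q₀ hTh₁ hv hC'
  have hs : A ∈ E1 (cpG G (ℕ × Bs ℕ) (Y × Cone Q × Z)) := by
    have h2 := mul_mem s3 (inv_mem (mul_mem s1 s2))
    have h3 : C * (A⁻¹ * B * (B⁻¹ * C))⁻¹ = A := by group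
    rwa [h3] at h2
  have hAe : A = extUnit (corn (sV ℕ)) (pullU (fM Δ Q) (extUnit (extG (ιU Δ c Q)) v)) := by
    ext1
    rw [hA', value_corn χ hVn e (start_value χ hV h1 hQ e W hv')]
  rw [hAe] at hs
  refine corner (sV ℕ) ?_ hs
  have hpf : IsProperMap (fM (Z := Z) Δ Q) :=
    ((Δ.isClosedEmbedding_full hVn).isProperMap.prodMap isProperMap_id)
  have hef : ∀ (g : G) b, fM (Z := Z) Δ Q (g • b) = g • fM Δ Q b := fun g b =>
    Prod.ext (Δ.full_smul g b.1) rfl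
  exact GL1_map (pullG_mem hpf hef) hv'

end Pool.Agent.Lib.MP_aa9b81_an.Tv
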