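import Pool.Agent.Lib.MP_aa9b81_an.Tv.E2
import Pool.Agent.Lib.MP_aa9b81_an.Tv.QS
import Pool.Agent.Lib.MP_aa9b81_an.Mg.G041

/-!
# Transversals, part E3: the cutting theorem
-/

open scoped ENNReal Topology CompactlySupported
open Function Filter MeasureTheory

noncomputable section

set_option linter.unusedSectionVars false

namespace Pool.Agent.Lib.MP_aa9b81_an.Tv

open Cut Hs Cb

variable {G Y E Z : Type} [Group G] [TopologicalSpace G] [IsTopologicalGroup G]
  [LocallyCompactSpace G] [SecondCountableTopology G] [T2Space G] [MeasurableSpace G]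
  [BorelSpace G]
  [TopologicalSpace Y] [MulAction G Y] [AddCommGroup E] [Module ℝ E]
  [TopologicalSpace E] [T2Space E] [ContinuousAdd E] [ContinuousSMul ℝ E] [DistribMulAction G E]
  [SMulCommClass G ℝ E] [ContinuousConstSMul G E] [TopologicalSpace Z] [MulAction G Z]
  [T2Space Y] [LocallyCompactSpace Y] [ContinuousSMul G Y] [T2Space Z] [LocallyCompactSpace Z]
  [ContinuousSMul G Z]
  {V : Set G} {Δ : Df G Y V} {c : Y → ℝ} {Q : ConvexSpace G E}

variable (Δ c Q) in
/-- The inclusion of `FS`. -/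
def iF (x : (FS Δ c).Pt × Cone Q × Z) : Prs Δ × Cone Q × Z := ((FS Δ c).val x.1, x.2)

variable (Δ Q) in
/-- The projection to the base. -/
def pW (x : Prs Δ × Cone Q × Z) : Y × Cone Q × Z := (x.1.1.1, x.2)

variable (Δ c Q) in
/-- The projection of `FS` to the base. -/
def bW (x : (FS Δ c).Pt × Cone Q × Z) : Y × Cone Q × Z := (FS.base Δ c x.1, x.2)

/-- `FS` and `US` in the space of pairs. -/
theorem clOp_FS (hV : V ∈ 𝓝 (1 : G)) (hc : Continuous c) :
    ClOp G (iF Δ c Q : (FS Δ c).Pt × Cone Q × Z → Prs Δ × Cone Q × Z) (ιU Δ c Q) where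
  hc := (FS.isClosedEmbedding_val hV hc).prodMap Topology.IsClosedEmbedding.id
  ec _ _ := rfl
  ho := (US.isOpenEmbedding_val hV hc).prodMap Topology.IsOpenEmbedding.id
  eo _ _ := rfl
  compl := by
    ext b
    constructor
    · rintro ⟨x, rfl⟩ ⟨z, hz⟩
      have h4 : (FS Δ c).val z.1 = (US Δ c).val x.1 := congrArg Prod.fst hz
      exact x.1.2 (by
        show (US Δ c).val x.1 ∈ (FS Δ c).carrier
        rw [← h4]
        exact z.1.2)
    · intro hb
      by_cases h : b.1 ∈ (FS Δ c).carrier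
      · exact absurd ⟨(⟨b.1, h⟩, b.2), rfl⟩ hb
      · exact ⟨(⟨b.1, h⟩, b.2), rfl⟩

theorem isProperMap_pW (hV : IsOpen V) (h1 : (1 : G) ∈ V) :
    IsProperMap (pW Δ Q : Prs Δ × Cone Q × Z → Y × Cone Q × Z) :=
  isProperMap_fstW hV h1

theorem isProperMap_bW (hV : IsOpen V) (h1 : (1 : G) ∈ V) (hc : Continuous c) :
    IsProperMap (bW Δ c Q : (FS Δ c).Pt × Cone Q × Z → Y × Cone Q × Z) :=
  isProperMap_baseW hV h1 hc

/-- INJECTIVITY. -/
theorem cut_inj_bW (hA : PropAG G) (hV : IsOpen V) (h1 : (1 : G) ∈ V) (hc : Continuous c)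
    (hQ : Continuous fun p : G × Q.Pt => p.1 • p.2) [T2Space (Prs Δ)]
    [ContinuousSMul G (Prs Δ)] [ContinuousSMul G (Cone Q)] :
    InjG G (bW Δ c Q : (FS Δ c).Pt × Cone Q × Z → Y × Cone Q × Z) := by
  have hVn : V ∈ 𝓝 (1 : G) := hV.mem_nhds h1
  have := Prs.locallyCompactSpace Δ hV h1
  have := cone_locallyCompact Q
  have hcl := clOp_FS (Δ := Δ) (Q := Q) (Z := Z) hVn hc
  have hex := exactSeq_closedG (J := ℕ) hA hcl
  intro u hu hpu
  obtain ⟨e, he, heu⟩ := E1_lift hex.closed hex.closed' hex.lift hpu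
  have heu' : pullU (iF Δ c Q) e = pullU (iF Δ c Q) (pullU (pW Δ Q) u) := heu
  have hv : pullU (pW Δ Q) u * e⁻¹ ∈ GL1 (cpG G ℕ (Prs Δ × Cone Q × Z)) :=
    mul_mem (E0_GL1 (isProperMap_pW hV h1) (fun _ _ => rfl) hu) (inv_mem (E1_le _ he))
  have hv1 : pullU (iF Δ c Q) (pullU (pW Δ Q) u * e⁻¹) = 1 := by
    rw [map_mul, map_inv, heu', mul_inv_cancel]
  obtain ⟨v, hv', hvv⟩ := hex.exists_ext hv hv1
  have hq := qs Δ c Q hV h1 hc hQ hv'
  have hf : IsProperMap (fM (Z := Z) Δ Q) :=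
    ((Δ.isClosedEmbedding_full hVn).isProperMap.prodMap isProperMap_id)
  have hef : ∀ (g : G) b, fM (Z := Z) Δ Q (g • b) = g • fM Δ Q b := fun g b =>
    Prod.ext (Δ.full_smul g b.1) rfl
  have h3 : pullU (fM (Z := Z) Δ Q) e ∈ E1 (cpG G ℕ (Y × Cone Q × Z)) := E0_E1 hf hef he
  have h4 := mul_mem hq h3
  rw [← map_mul, hvv, inv_mul_cancel_right] at h4
  exact h4

/-! ### Surjectivity -/

/-- Re-association. -/
def asO (B W Z : Type) [TopologicalSpace B] [TopologicalSpace W] [TopologicalSpace Z] :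
    (B × W × Z) × OO ≃ₜ B × W × (Z × OO) where
  toFun x := (x.1.1, x.1.2.1, x.1.2.2, x.2)
  invFun x := ((x.1, x.2.1, x.2.2.1), x.2.2.2)
  left_inv _ := rfl
  right_inv _ := rfl
  continuous_toFun := by fun_prop
  continuous_invFun := by fun_prop

/-- The complement of `FS`, in the presence of a section. -/
theorem van_US_of_sect {A : Y → ClV V} (h : Sect Δ c A) (hA : PropAG G) (hV : IsOpen V)
    (h1 : (1 : G) ∈ V) (hc : Continuous c)
    (hQ : Continuous fun p : G × Q.Pt => p.1 • p.2) [T2Space (Prs Δ)]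
    [ContinuousSMul G (Prs Δ)] [ContinuousSMul G (Cone Q)] :
    VanG G ((US Δ c).Pt × Cone Q × Z) := by
  have hVn : V ∈ 𝓝 (1 : G) := hV.mem_nhds h1
  have := Prs.locallyCompactSpace Δ hV h1
  have := cone_locallyCompact Q
  have hcl := clOp_FS (Δ := Δ) (Q := Q) (Z := Z) hVn hc
  refine van_of_inj_sur hA hcl ?_ ?_
  · refine E0_injOf hcl.hc.isProperMap hcl.ec (isProperMap_pW hV h1) (fun _ _ => rfl) ?_
      (surG_fst hV h1 hQ)
    exact injG_base_of_sect h
  · have h2 : SurG G (iF Δ c Q : (FS Δ c).Pt × Cone Q × (Z × OO) → _) := by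
      refine E0_surOf (p := (pW Δ Q : Prs Δ × Cone Q × (Z × OO) → _))
        (isProperMap_pW hV h1) (fun _ _ => rfl) ?_
      exact surG_base_of_sect h hV h1 hc hQ
    exact E0_surH (asO _ _ _).symm (fun _ _ => rfl) (asO _ _ _).symm (fun _ _ => rfl)
      (fun _ => rfl) h2

section Swap

variable (Δ c) in
/-- The weight on `FS`. -/
def cFS (x : (FS Δ c).Pt) : ℝ := c (FS.base Δ c x)

variable (Δ c) in
/-- The tautological section. -/
def aFS (x : (FS Δ c).Pt) : ClV V := ((FS Δ c).val x).1.2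

theorem sect_FS : Sect (dFS Δ c) (cFS Δ c) (aFS Δ c) where
  cont := (continuous_snd.comp continuous_subtype_val).comp (FS Δ c).continuous_val
  smul _ _ := rfl
  sub x := x.1.2
  cond x := x.2

variable (Δ c) in
/-- The base point of an element of `US`. -/
def baseU (x : (US Δ c).Pt) : Y := ((US Δ c).val x).1.1

theorem continuous_baseU : Continuous (baseU Δ c) :=
  (continuous_fst.comp continuous_subtype_val).comp (US Δ c).continuous_val

variable (Δ c) in
/-- The family `D` on `US`. -/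
def dUS : Df G (US Δ c).Pt V := pullDf Δ (baseU Δ c) continuous_baseU fun _ _ => rfl

variable (Δ c) in
/-- The weight on `US`. -/
def cUS (x : (US Δ c).Pt) : ℝ := c (baseU Δ c x)

variable (Δ c) in
/-- The pairs of a point of `FS` and a point of `US` over the same point, in both orders. -/
def swpE : (US (dFS Δ c) (cFS Δ c)).Pt ≃ₜ (FS (dUS Δ c) (cUS Δ c)).Pt where
  toFun z := ⟨⟨(⟨⟨(z.1.1.1.1.1.1, z.1.1.2), z.1.2⟩, z.2⟩, z.1.1.1.1.1.2), z.1.1.1.1.2⟩,
    z.1.1.1.2⟩
  invFun z := ⟨⟨(⟨⟨(z.1.1.1.1.1.1, z.1.1.2), z.1.2⟩, z.2⟩, z.1.1.1.1.1.2), z.1.1.1.1.2⟩,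
    z.1.1.1.2⟩
  left_inv _ := rfl
  right_inv _ := rfl
  continuous_toFun := by
    have hv : Continuous (US (dFS Δ c) (cFS Δ c)).val := (US (dFS Δ c) (cFS Δ c)).continuous_val
    have h1 : Continuous fun z => ((US (dFS Δ c) (cFS Δ c)).val z).1 :=
      continuous_subtype_val.comp hv
    have h2 : Continuous fun z => (FS Δ c).val ((US (dFS Δ c) (cFS Δ c)).val z).1.1 :=
      (FS Δ c).continuous_val.comp (continuous_fst.comp h1)
    have h3 : Continuous fun z => ((FS Δ c).val ((US (dFS Δ c) (cFS Δ c)).val z).1.1).1 :=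
      continuous_subtype_val.comp h2
    exact Continuous.subtype_mk (Continuous.subtype_mk (Continuous.prodMk
      (Continuous.subtype_mk (Continuous.subtype_mk ((continuous_fst.comp h3).prodMk
        (continuous_snd.comp h1)) _) _) (continuous_snd.comp h3)) _) _
  continuous_invFun := by
    have hv : Continuous (FS (dUS Δ c) (cUS Δ c)).val := (FS (dUS Δ c) (cUS Δ c)).continuous_val
    have h1 : Continuous fun z => ((FS (dUS Δ c) (cUS Δ c)).val z).1 :=
      continuous_subtype_val.comp hv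
    have h2 : Continuous fun z => (US Δ c).val ((FS (dUS Δ c) (cUS Δ c)).val z).1.1 :=
      (US Δ c).continuous_val.comp (continuous_fst.comp h1)
    have h3 : Continuous fun z => ((US Δ c).val ((FS (dUS Δ c) (cUS Δ c)).val z).1.1).1 :=
      continuous_subtype_val.comp h2
    exact Continuous.subtype_mk (Continuous.subtype_mk (Continuous.prodMk
      (Continuous.subtype_mk (Continuous.subtype_mk ((continuous_fst.comp h3).prodMk
        (continuous_snd.comp h1)) _) _) (continuous_snd.comp h3)) _) _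

end Swap

/-- The complement of `FS`. -/
theorem van_US (hA : PropAG G) (hV : IsOpen V) (h1 : (1 : G) ∈ V) (hc : Continuous c)
    (hQ : Continuous fun p : G × Q.Pt => p.1 • p.2) [T2Space (Prs Δ)]
    [ContinuousSMul G (Prs Δ)] [ContinuousSMul G (Cone Q)] :
    VanG G ((US Δ c).Pt × Cone Q × Z) := by
  have hVn : V ∈ 𝓝 (1 : G) := hV.mem_nhds h1
  have := FS.locallyCompactSpace (Δ := Δ) hV h1 hc
  have := US.locallyCompactSpace (Δ := Δ) hV h1 hc
  have := Prs.t2Space (dFS Δ c) hVn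
  have := Prs.continuousSMul (dFS Δ c) hVn
  have := Prs.t2Space (dUS Δ c) hVn
  have := Prs.continuousSMul (dUS Δ c) hVn
  have h2 : VanG G ((US (dFS Δ c) (cFS Δ c)).Pt × Cone Q × Z) :=
    van_US_of_sect sect_FS hA hV h1 (hc.comp FS.continuous_base) hQ
  have h3 : VanG G ((FS (dUS Δ c) (cUS Δ c)).Pt × Cone Q × Z) :=
    E0_vanH ((swpE Δ c).prodCongr (Homeomorph.refl _)) (fun _ _ => rfl) h2
  exact E0_vanOf (isProperMap_bW hV h1 (hc.comp continuous_baseU)) (fun _ _ => rfl)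
    (cut_inj_bW hA hV h1 (hc.comp continuous_baseU) hQ) h3

/-- SURJECTIVITY. -/
theorem cut_sur_bW (hA : PropAG G) (hV : IsOpen V) (h1 : (1 : G) ∈ V) (hc : Continuous c)
    (hQ : Continuous fun p : G × Q.Pt => p.1 • p.2) [T2Space (Prs Δ)]
    [ContinuousSMul G (Prs Δ)] [ContinuousSMul G (Cone Q)] :
    SurG G (bW Δ c Q : (FS Δ c).Pt × Cone Q × (Z × OO) → Y × Cone Q × (Z × OO)) := by
  have hVn : V ∈ 𝓝 (1 : G) := hV.mem_nhds h1
  have := Prs.locallyCompactSpace Δ hV h1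
  have := cone_locallyCompact Q
  have hcl := clOp_FS (Δ := Δ) (Q := Q) (Z := Z) hVn hc
  have h2 := surG_of_van hA hcl (van_US hA hV h1 hc hQ)
  have h3 : SurG G (iF Δ c Q : (FS Δ c).Pt × Cone Q × (Z × OO) → _) :=
    E0_surH (asO _ _ _) (fun _ _ => rfl) (asO _ _ _) (fun _ _ => rfl) (fun _ => rfl) h2
  have hcl' := clOp_FS (Δ := Δ) (Q := Q) (Z := Z × OO) hVn hc
  exact E0_surComp (q := (iF Δ c Q : (FS Δ c).Pt × Cone Q × (Z × OO) → _)) (p := pW Δ Q)
    hcl'.hc.isProperMap hcl'.ec h3 (surG_fst hV h1 hQ)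

/-- INJECTIVITY. -/
theorem cut_inj (hA : PropAG G) (hV : IsOpen V) (h1 : (1 : G) ∈ V) (hc : Continuous c)
    (hQ : Continuous fun p : G × Q.Pt => p.1 • p.2) [T2Space (Prs Δ)]
    [ContinuousSMul G (Prs Δ)] [ContinuousSMul G (Cone Q)] :
    InjG G (fun x : (FS Δ c).Pt × Cone Q × Z => ((FS.base Δ c x.1, x.2) : Y × Cone Q × Z)) :=
  cut_inj_bW hA hV h1 hc hQ

/-- SURJECTIVITY. -/
theorem cut_sur (hA : PropAG G) (hV : IsOpen V) (h1 : (1 : G) ∈ V) (hc : Continuous c)
    (hQ : Continuous fun p : G × Q.Pt => p.1 • p.2) [T2Space (Prs Δ)]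
    [ContinuousSMul G (Prs Δ)] [ContinuousSMul G (Cone Q)] :
    SurG G (fun x : (FS Δ c).Pt × Cone Q × (Z × OO) =>
      ((FS.base Δ c x.1, x.2) : Y × Cone Q × (Z × OO))) :=
  cut_sur_bW hA hV h1 hc hQ

end Pool.Agent.Lib.MP_aa9b81_an.Tv

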