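import Pool.Agent.Lib.MP_aa9b81_an.Mg.G034

/-!
# Transversals, section F (Morita), part F0: isomorphisms of closed subalgebras
-/

open Function Filter Topology

noncomputable section

set_option linter.unusedSectionVars false

namespace Pool.Agent.Lib.MP_aa9b81_an.Tv

open Cut Hs Cb

/-- The ring homomorphism `Φ` maps the subalgebra `A` isometrically onto the subalgebra `A'`. -/
structure IsoA {R R' : Type} [NormedRing R] [NormedAlgebra ℂ R] [NormedRing R']
    [NormedAlgebra ℂ R'] (Φ : R →+* R') (A : NonUnitalSubalgebra ℂ R)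
    (A' : NonUnitalSubalgebra ℂ R') : Prop where
  norm : ∀ x ∈ A, ‖Φ x‖ = ‖x‖
  mem : ∀ x ∈ A, Φ x ∈ A'
  surj : ∀ y ∈ A', ∃ x ∈ A, Φ x = y

variable {R R' : Type} [NormedRing R] [NormedAlgebra ℂ R] [NormedRing R'] [NormedAlgebra ℂ R']
  {Φ : R →+* R'} {A : NonUnitalSubalgebra ℂ R} {A' : NonUnitalSubalgebra ℂ R'}

private theorem F0_zero (h : IsoA Φ A A') {x : R} (hx : x ∈ A) (h0 : Φ x = 0) : x = 0 := by
  rw [← norm_eq_zero, ← h.norm x hx, h0, norm_zero]

private theorem F0_norm (h : IsoA Φ A A') {u : Rˣ} (hu : u ∈ GL1 A) :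
    ‖((Units.map (Φ : R →* R') u : R'ˣ) : R') - 1‖ = ‖(u : R) - 1‖ := by
  rw [← h.norm _ hu.1, map_sub, map_one]
  rfl

theorem IsoA.GL1_map (h : IsoA Φ A A') {u : Rˣ} (hu : u ∈ GL1 A) :
    Units.map (Φ : R →* R') u ∈ GL1 A' := by
  constructor
  · have h1 := h.mem _ hu.1
    rw [map_sub, map_one] at h1
    exact h1
  · have h1 := h.mem _ hu.2
    rw [map_sub, map_one] at h1
    exact h1

theorem IsoA.GL1_lift (h : IsoA Φ A A') {v : R'ˣ} (hv : v ∈ GL1 A') :
    ∃ u ∈ GL1 A, Units.map (Φ : R →* R') u = v := by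
  obtain ⟨a, ha, ha'⟩ := h.surj _ hv.1
  obtain ⟨b, hb, hb'⟩ := h.surj _ hv.2
  have h1 : (1 + a) * (1 + b) = 1 := by
    have h2 : a + b + a * b = 0 := by
      refine F0_zero h (add_mem (add_mem ha hb) (mul_mem ha hb)) ?_
      rw [map_add, map_add, map_mul, ha', hb']
      have h3 : (v : R') * ((v⁻¹ : R'ˣ) : R') = 1 := v.mul_inv
      have h4 : ((v : R') - 1) + (((v⁻¹ : R'ˣ) : R') - 1) +
          ((v : R') - 1) * (((v⁻¹ : R'ˣ) : R') - 1) = (v : R') * ((v⁻¹ : R'ˣ) : R') - 1 := by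
        noncomm_ring
      rw [h4, h3, sub_self]
    have h3 : (1 + a) * (1 + b) = 1 + (a + b + a * b) := by noncomm_ring
    rw [h3, h2, add_zero]
  have h1' : (1 + b) * (1 + a) = 1 := by
    have h2 : b + a + b * a = 0 := by
      refine F0_zero h (add_mem (add_mem hb ha) (mul_mem hb ha)) ?_
      rw [map_add, map_add, map_mul, ha', hb']
      have h3 : ((v⁻¹ : R'ˣ) : R') * (v : R') = 1 := v.inv_mul
      have h4 : (((v⁻¹ : R'ˣ) : R') - 1) + ((v : R') - 1) +
          (((v⁻¹ : R'ˣ) : R') - 1) * ((v : R') - 1) = ((v⁻¹ : R'ˣ) : R') * (v : R') - 1 := by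
        noncomm_ring
      rw [h4, h3, sub_self]
    have h3 : (1 + b) * (1 + a) = 1 + (b + a + b * a) := by noncomm_ring
    rw [h3, h2, add_zero]
  refine ⟨⟨1 + a, 1 + b, h1, h1'⟩, ⟨?_, ?_⟩, ?_⟩
  · change (1 + a) - 1 ∈ A
    rw [add_sub_cancel_left]
    exact ha
  · change (1 + b) - 1 ∈ A
    rw [add_sub_cancel_left]
    exact hb
  · apply Units.ext
    change Φ (1 + a) = v
    rw [map_add, map_one, ha']
    abel

theorem IsoA.E1_map (h : IsoA Φ A A') {u : Rˣ} (hu : u ∈ E1 A) :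
    Units.map (Φ : R →* R') u ∈ E1 A' := by
  have hle : E1 A ≤ (E1 A').comap (Units.map (Φ : R →* R')) := by
    refine (Subgroup.closure_le _).2 ?_
    rintro w ⟨hw, hw1⟩
    refine mem_E1_of_small (h.GL1_map hw) ?_
    rw [F0_norm h hw]
    exact hw1
  exact hle hu

theorem IsoA.E1_of_map (h : IsoA Φ A A') {u : Rˣ} (hu : u ∈ GL1 A)
    (h' : Units.map (Φ : R →* R') u ∈ E1 A') : u ∈ E1 A := by
  have hle : E1 A' ≤ (E1 A).map (Units.map (Φ : R →* R')) := by
    refine (Subgroup.closure_le _).2 ?_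
    rintro w ⟨hw, hw1⟩
    obtain ⟨z, hz, rfl⟩ := h.GL1_lift hw
    refine ⟨z, mem_E1_of_small hz ?_, rfl⟩
    rw [← F0_norm h hz]
    exact hw1
  obtain ⟨z, hz, hzu⟩ := hle h'
  have h1 : ((u : R) - 1) - ((z : R) - 1) = 0 := by
    refine F0_zero h (sub_mem hu.1 (E1_le A hz).1) ?_
    rw [map_sub, map_sub, map_sub]
    have h2 : Φ (z : R) = Φ (u : R) := congrArg (Units.val : R'ˣ → R') hzu
    rw [h2, sub_self]
  have h2 : u = z := by
    apply Units.ext
    have h3 : (u : R) - z = 0 := by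
      rw [← h1]
      abel
    exact sub_eq_zero.1 h3
  rw [h2]
  exact hz

/-- The image of a complete subalgebra under a map which is isometric on it is closed. -/
theorem isClosed_image_of_norm [CompleteSpace R] (hA : IsClosed (A : Set R))
    (h : ∀ x ∈ A, ‖Φ x‖ = ‖x‖) : IsClosed (Φ '' (A : Set R)) := by
  have hd : ∀ x ∈ A, ∀ y ∈ A, dist (Φ x) (Φ y) = dist x y := by
    intro x hx y hy
    rw [dist_eq_norm, dist_eq_norm, ← map_sub, h _ (sub_mem hx hy)]
  refine IsSeqClosed.isClosed fun f y hf hy => ?_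
  choose a ha hfa using hf
  have hc : CauchySeq a := by
    rw [Metric.cauchySeq_iff]
    intro ε hε
    obtain ⟨N, hN⟩ := Metric.cauchySeq_iff.1 hy.cauchySeq ε hε
    refine ⟨N, fun m hm n hn => ?_⟩
    rw [← hd _ (ha m) _ (ha n), hfa, hfa]
    exact hN m hm n hn
  obtain ⟨x, hx⟩ := cauchySeq_tendsto_of_complete hc
  have hxA : x ∈ A := hA.mem_of_tendsto hx (Eventually.of_forall ha)
  refine ⟨x, hxA, ?_⟩
  have h1 : Tendsto f atTop (𝓝 (Φ x)) := by
    rw [tendsto_iff_dist_tendsto_zero] at hx ⊢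
    refine hx.congr fun n => ?_
    rw [← hfa, hd _ (ha n) _ hxA]
  exact tendsto_nhds_unique h1 hy

end Pool.Agent.Lib.MP_aa9b81_an.Tv
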