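import Pool.Agent.Lib.MP_aa9b81_an.Mg.G052

/-!
# Transversals, section F (Morita), part F1w: the unitary operator `L²(M, ℓ²) → ℓ²`
-/

open scoped ENNReal Topology
open Function Filter MeasureTheory

noncomputable section

set_option linter.unusedSectionVars false

namespace Pool.Agent.Lib.MP_aa9b81_an.Tv

open Cut Hs Cb

section M

variable (M : Type) [Group M] [TopologicalSpace M] [IsTopologicalGroup M]
  [LocallyCompactSpace M] [SecondCountableTopology M] [T2Space M] [MeasurableSpace M] [BorelSpace M]

/-- PROOF: `HG M ℕ` is separable (`Lp.SecondCountableTopology`-like instance for `L2 ℕ` separable; or: the vectors `indicatorConstLp` on a countable algebra times `bv l`) and of infinite dimension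
(the orthogonal vectors `indicatorConstLp 2 _ _ (bv l)`, `l ∈ ℕ`, for a compact neighbourhood of `1`, cf. `instNontrivialHG`). `exists_hilbertBasis`; the index set of a Hilbert basis is countable
(separability: the basis vectors have distance `√2`) and infinite, so `≃ ℕ`; `HilbertBasis.repr` of the reindexed basis (`HilbertBasis.mk`). -/
theorem exists_WM : Nonempty (HG M ℕ ≃ₗᵢ[ℂ] L2 ℕ) := by
  obtain ⟨w, b, -⟩ := exists_hilbertBasis ℂ (HG M ℕ)
  have hs : TopologicalSpace.SeparableSpace (L2 ℕ) := by
    have h1 : TopologicalSpace.IsSeparable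
        ((Submodule.span ℂ (Set.range (bv : ℕ → L2 ℕ)) : Set (L2 ℕ))) :=
      (Set.countable_range _).isSeparable.span
    have h2 := h1.closure
    rw [← Submodule.topologicalClosure_coe, total_bv, Submodule.top_coe] at h2
    exact TopologicalSpace.isSeparable_univ_iff.1 h2
  have ht : Fact ((2 : ℝ≥0∞) ≠ ⊤) := ⟨by norm_num⟩
  have hsc : SecondCountableTopology (HG M ℕ) := inferInstance
  have hc : Countable w := by
    refine Pairwise.countable_of_isOpen_disjoint (s := fun i : w => Metric.ball (b i) (1 / 2))
      (fun i j hij => ?_) (fun i => Metric.isOpen_ball)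
      fun i => ⟨b i, Metric.mem_ball_self (by norm_num)⟩
    refine Set.disjoint_left.2 fun z hz hz' => ?_
    have h1 : dist (b i) (b j) < 1 := by
      have e1 := Metric.mem_ball'.1 hz
      have e2 := Metric.mem_ball.1 hz'
      have e3 := dist_triangle (b i) z (b j)
      linarith
    rw [dist_eq_norm] at h1
    have h2 := @norm_sub_sq ℂ (HG M ℕ) _ _ _ (b i) (b j)
    rw [b.orthonormal.1 i, b.orthonormal.1 j, b.orthonormal.2 hij, map_zero] at h2
    have h3 := norm_nonneg (b i - b j)
    nlinarith
  have hi : Infinite w := by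
    by_contra hf
    rw [not_infinite_iff_finite] at hf
    obtain ⟨hf'⟩ := nonempty_fintype w
    have hfd : Module.Finite ℂ (HG M ℕ) :=
      Module.Finite.of_basis b.toOrthonormalBasis.toBasis
    obtain ⟨K, hK, hK1⟩ := exists_compact_mem_nhds (1 : M)
    have hm : MeasurableSet K := hK.measurableSet
    have hpos : 0 < mu M K := Measure.measure_pos_of_mem_nhds _ hK1
    have hfin : mu M K ≠ ⊤ := hK.measure_lt_top.ne
    have hli : LinearIndependent ℂ fun l : ℕ =>
        (indicatorConstLp 2 hm hfin (bv l : L2 ℕ) : HG M ℕ) := by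
      refine linearIndependent_of_ne_zero_of_inner_eq_zero (fun l h0 => ?_) fun l l' hl => ?_
      · have h1 : ‖indicatorConstLp 2 hm hfin (bv l : L2 ℕ)‖ = 0 := by rw [h0, norm_zero]
        rw [norm_indicatorConstLp (by norm_num) (by norm_num), norm_bv, one_mul] at h1
        have h2 : 0 < (mu M).real K := ENNReal.toReal_pos hpos.ne' hfin
        exact (Real.rpow_pos_of_pos h2 _).ne' h1
      · show (inner ℂ (indicatorConstLp 2 hm hfin (bv l : L2 ℕ))
          (indicatorConstLp 2 hm hfin (bv l' : L2 ℕ)) : ℂ) = 0
        rw [L2.inner_indicatorConstLp_indicatorConstLp (𝕜 := ℂ) hm hm hfin hfin, inner_bv_left,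
          bv_apply, if_neg hl, smul_zero]
    have h3 := hli.finite
    exact not_finite ℕ
  obtain ⟨e⟩ := nonempty_denumerable w
  have hv : Orthonormal ℂ fun n : ℕ => b ((Denumerable.eqv w).symm n) :=
    b.orthonormal.comp _ (Denumerable.eqv w).symm.injective
  have hr : Set.range (fun n : ℕ => b ((Denumerable.eqv w).symm n)) = Set.range b :=
    (Denumerable.eqv w).symm.surjective.range_comp b
  exact ⟨(HilbertBasis.mk hv (by rw [hr]; exact b.dense_span.ge)).repr⟩

/-- A unitary operator `L²(M, ℓ²(ℕ)) → ℓ²(ℕ)`. -/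
def WM : HG M ℕ ≃ₗᵢ[ℂ] L2 ℕ := (exists_WM M).some

end M

end Pool.Agent.Lib.MP_aa9b81_an.Tv
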