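import Pool.Agent.Lib.MP_aa9b81_an.Mg.G052
import Pool.Agent.Lib.MP_aa9b81_an.Tv.F1w

/-!
# Transversals, section F (Morita), part F2: rectangles, and the unitary operator `L²(G × M, ℓ²) → L²(G, ℓ²)`
-/

open scoped ENNReal Topology
open Function Filter MeasureTheory

noncomputable section

set_option linter.unusedSectionVars false

namespace Pool.Agent.Lib.MP_aa9b81_an.Tv

open Cut Hs Cb

private theorem F2_total {ι E : Type} [NormedAddCommGroup E] [InnerProductSpace ℂ E]
    [CompleteSpace E] (x : ι → E) : (Submodule.span ℂ (Set.range x)).topologicalClosure = ⊤ ↔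
      ∀ z : E, (∀ i, (inner ℂ (x i) z : ℂ) = 0) → z = 0 := by
  rw [Submodule.topologicalClosure_eq_top_iff, Submodule.eq_bot_iff]
  refine ⟨fun h z hz => h z ?_, fun h z hz => h z fun i => ?_⟩
  · rw [Submodule.mem_orthogonal]
    intro u hu
    refine Submodule.span_induction (p := fun u _ => (inner ℂ u z : ℂ) = 0) ?_ ?_ ?_ ?_ hu
    · rintro _ ⟨i, rfl⟩
      exact hz i
    · exact inner_zero_left _
    · intro a b _ _ ha hb
      rw [inner_add_left, ha, hb, add_zero]
    · intro c a _ ha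
      rw [inner_smul_left, ha, mul_zero]
  · rw [Submodule.mem_orthogonal] at hz
    exact hz _ (Submodule.subset_span ⟨i, rfl⟩)

variable (G M : Type) [Group G] [TopologicalSpace G] [IsTopologicalGroup G]
  [LocallyCompactSpace G] [SecondCountableTopology G] [T2Space G] [MeasurableSpace G] [BorelSpace G]
  [Group M] [TopologicalSpace M] [IsTopologicalGroup M]
  [LocallyCompactSpace M] [SecondCountableTopology M] [T2Space M] [MeasurableSpace M] [BorelSpace M]

/-- PROOF: `Measure.isHaarMeasure_eq_smul` (the product of Haar measures is a Haar measure: `Measure.prod.instIsHaarMeasure`). -/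
theorem exists_cc : ∃ c : ℝ, 0 < c ∧
    mu (G × M) = ENNReal.ofReal c • (mu G).prod (mu M) := by
  refine ⟨(Measure.haarScalarFactor (mu (G × M)) ((mu G).prod (mu M)) : NNReal), ?_, ?_⟩
  · exact NNReal.coe_pos.2 (Measure.haarScalarFactor_pos_of_isHaarMeasure _ _)
  · rw [ENNReal.ofReal_coe_nnreal]
    exact Measure.isMulLeftInvariant_eq_smul _ _

/-- The constant `c` with `mu (G × M) = c • (mu G).prod (mu M)`. -/
def cc : ℝ := (exists_cc G M).choose

theorem cc_pos : 0 < cc G M := (exists_cc G M).choose_spec.1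

theorem mu_prod : mu (G × M) = ENNReal.ofReal (cc G M) • (mu G).prod (mu M) :=
  (exists_cc G M).choose_spec.2

/-- The data of a measurable rectangle of finite measure, and a coordinate. -/
structure Rct where
  A : Set G
  hA : MeasurableSet A
  fA : mu G A ≠ ⊤
  C : Set M
  hC : MeasurableSet C
  fC : mu M C ≠ ⊤
  l : ℕ

private theorem F2_measure (A : Set G) (C : Set M) :
    mu (G × M) (A ×ˢ C) = ENNReal.ofReal (cc G M) * (mu G A * mu M C) := by
  rw [mu_prod, Measure.smul_apply, Measure.prod_prod, smul_eq_mul]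

namespace Rct

variable {G M}

/-- PROOF: `mu_prod`, `Measure.prod_prod`. -/
theorem fin (r : Rct G M) : mu (G × M) (r.A ×ˢ r.C) ≠ ⊤ := by
  rw [F2_measure]
  exact ENNReal.mul_ne_top ENNReal.ofReal_ne_top (ENNReal.mul_ne_top r.fA r.fC)

/-- The vector `1_{A × C} ⊗ e_l`. -/
def x (r : Rct G M) : HG (G × M) ℕ := indicatorConstLp 2 (r.hA.prod r.hC) r.fin (bv r.l)

/-- The vector `1_C ⊗ e_l`. -/
def v (r : Rct G M) : HG M ℕ := indicatorConstLp 2 r.hC r.fC (bv r.l)

/-- The vector `1_A ⊗ W (1_C ⊗ e_l)`. -/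
def y (r : Rct G M) : HG G ℕ := indicatorConstLp 2 r.hA r.fA (WM M r.v)

private theorem inner_bv_bv (k l : ℕ) : (inner ℂ (bv k : L2 ℕ) (bv l) : ℂ) =
    if k = l then 1 else 0 := by
  rw [inner_bv_left, bv_apply]
  by_cases h : k = l
  · rw [if_pos h, if_pos h]
  · rw [if_neg h, if_neg h]

/-- PROOF: `L2.inner_def`, `indicatorConstLp_coeFn`; or `L2.inner_indicatorConstLp_eq_setIntegral_inner`. -/
theorem inner_x (r s : Rct G M) : (inner ℂ r.x s.x : ℂ) =
    (cc G M : ℂ) * ((mu G).real (r.A ∩ s.A) : ℂ) * ((mu M).real (r.C ∩ s.C) : ℂ) *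
      (if r.l = s.l then 1 else 0) := by
  rw [x, x, L2.inner_indicatorConstLp_indicatorConstLp (r.hA.prod r.hC) (s.hA.prod s.hC) r.fin
    s.fin, inner_bv_bv, Set.prod_inter_prod, measureReal_def, F2_measure, ENNReal.toReal_mul,
    ENNReal.toReal_mul, ENNReal.toReal_ofReal (cc_pos G M).le, Complex.real_smul, ← mul_assoc]
  push_cast
  rfl

/-- PROOF: as `inner_x`; `inner (WM M a) (WM M b) = inner a b`. -/
theorem inner_y (r s : Rct G M) : (inner ℂ r.y s.y : ℂ) =
    ((mu G).real (r.A ∩ s.A) : ℂ) * ((mu M).real (r.C ∩ s.C) : ℂ) *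
      (if r.l = s.l then 1 else 0) := by
  rw [y, y, L2.inner_indicatorConstLp_indicatorConstLp r.hA s.hA r.fA s.fA,
    LinearIsometryEquiv.inner_map_map, v, v,
    L2.inner_indicatorConstLp_indicatorConstLp r.hC s.hC r.fC s.fC, inner_bv_bv,
    Complex.real_smul, Complex.real_smul, mul_assoc]

end Rct

/-- The vectors `1_C ⊗ e_l` are total in `L²(M, ℓ²)`. PROOF: the simple functions are dense (`Lp.induction` or `MemLp.induction`): the closure of the span is closed under addition, and contains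
`indicatorConstLp C v` for all `v` (continuous and linear in `v`; `total_bv`). -/
theorem total_v : (Submodule.span ℂ (Set.range (Rct.v : Rct G M → HG M ℕ))).topologicalClosure
    = ⊤ := by
  rw [F2_total]
  intro z hz
  have h1 : (z : M → L2 ℕ) =ᵐ[mu M] 0 := by
    refine ae_eq_zero_of_forall_setIntegral_eq_of_sigmaFinite (fun C _ fC =>
      integrableOn_Lp_of_measure_ne_top z fact_one_le_two_ennreal.elim fC.ne) fun C hC fC => ?_
    refine (F2_total (bv : ℕ → L2 ℕ)).1 total_bv _ fun l => ?_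
    have h2 := hz ⟨∅, MeasurableSet.empty, by simp, C, hC, fC.ne, l⟩
    rw [Rct.v, L2.inner_indicatorConstLp_eq_inner_setIntegral ℂ hC fC.ne (bv l) z] at h2
    exact h2
  exact Lp.ext (h1.trans (Lp.coeFn_zero (L2 ℕ) 2 (mu M)).symm)

private theorem F2_zero {ξ : HG (G × M) ℕ} (h : ∀ r : Rct G M, (inner ℂ r.x ξ : ℂ) = 0)
    {S : Set G} {T : Set M} (hS : MeasurableSet S) (hT : MeasurableSet T) (fS : mu G S ≠ ⊤)
    (fT : mu M T ≠ ⊤) : (ξ : G × M → L2 ℕ) =ᵐ[(mu (G × M)).restrict (S ×ˢ T)] 0 := by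
  have fST : mu (G × M) (S ×ˢ T) ≠ ⊤ := Rct.fin ⟨S, hS, fS, T, hT, fT, 0⟩
  have hint : Integrable ξ ((mu (G × M)).restrict (S ×ˢ T)) :=
    integrableOn_Lp_of_measure_ne_top ξ fact_one_le_two_ennreal.elim fST
  have hrect : ∀ (A : Set G) (C : Set M), MeasurableSet A → MeasurableSet C →
      ∫ p in A ×ˢ C, (ξ : G × M → L2 ℕ) p ∂(mu (G × M)).restrict (S ×ˢ T) = 0 := by
    intro A C hA hC
    rw [Measure.restrict_restrict (hA.prod hC), Set.prod_inter_prod]
    have fA : mu G (A ∩ S) ≠ ⊤ := ne_top_of_le_ne_top fS (measure_mono Set.inter_subset_right)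
    have fC : mu M (C ∩ T) ≠ ⊤ := ne_top_of_le_ne_top fT (measure_mono Set.inter_subset_right)
    refine (F2_total (bv : ℕ → L2 ℕ)).1 total_bv _ fun l => ?_
    have h2 := h ⟨A ∩ S, hA.inter hS, fA, C ∩ T, hC.inter hT, fC, l⟩
    rw [Rct.x, L2.inner_indicatorConstLp_eq_inner_setIntegral ℂ ((hA.inter hS).prod (hC.inter hT))
      (Rct.fin ⟨A ∩ S, hA.inter hS, fA, C ∩ T, hC.inter hT, fC, l⟩) (bv l) ξ] at h2
    exact h2
  refine Integrable.ae_eq_zero_of_forall_setIntegral_eq_zero hint fun Z hZ _ => ?_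
  have hgen : (Prod.instMeasurableSpace : MeasurableSpace (G × M)) =
      MeasurableSpace.generateFrom
        (Set.image2 (fun (s : Set G) (t : Set M) => s ×ˢ t) {s | MeasurableSet s}
          {t | MeasurableSet t}) := generateFrom_prod.symm
  refine MeasurableSpace.induction_on_inter
    (C := fun Z _ => ∫ p in Z, (ξ : G × M → L2 ℕ) p ∂(mu (G × M)).restrict (S ×ˢ T) = 0)
    hgen isPiSystem_prod ?_ ?_ ?_ ?_ Z hZ
  · rw [Measure.restrict_empty, integral_zero_measure]
  · rintro _ ⟨A, hA, C, hC, rfl⟩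
    exact hrect A C hA hC
  · intro Z hZ h0
    have h1 := integral_add_compl hZ hint
    have h2 := hrect Set.univ Set.univ MeasurableSet.univ MeasurableSet.univ
    rw [Set.univ_prod_univ, setIntegral_univ] at h2
    rw [h0, zero_add, h2] at h1
    exact h1
  · intro f hd hm h0
    rw [integral_iUnion hm hd hint.integrableOn]
    simp only [h0, tsum_zero]

/-- The rectangles are total in `L²(G × M, ℓ²)`. PROOF: let `ξ` be orthogonal to all `x r`. The coordinate `ξ_l` satisfies `∫_{A × C} ξ_l = 0` for all rectangles of finite measure; by the π-λ theorem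
(`MeasurableSpace.induction_on_inter` with `generateFrom_prod`, inside of `S_n × T_n`, spanning sets of finite measure) `∫_{Z ∩ (S_n × T_n)} ξ_l = 0` for all measurable `Z`, so `ξ_l = 0` a.e.
(`ae_eq_zero_of_forall_setIntegral_eq_of_sigmaFinite`-like), for all `l`, so `ξ = 0`. -/
theorem total_x : (Submodule.span ℂ (Set.range (Rct.x : Rct G M → HG (G × M) ℕ))).topologicalClosure
    = ⊤ := by
  rw [F2_total]
  intro ξ hξ
  have h1 : ∀ n : ℕ, ∀ᵐ p ∂mu (G × M),
      p ∈ (spanningSets (mu G) n) ×ˢ (spanningSets (mu M) n) → (ξ : G × M → L2 ℕ) p = 0 := by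
    intro n
    have h2 := F2_zero G M hξ (measurableSet_spanningSets (mu G) n)
      (measurableSet_spanningSets (mu M) n) (measure_spanningSets_lt_top _ _).ne
      (measure_spanningSets_lt_top _ _).ne
    exact (ae_restrict_iff' ((measurableSet_spanningSets (mu G) n).prod
      (measurableSet_spanningSets (mu M) n))).1 h2
  have h3 : (ξ : G × M → L2 ℕ) =ᵐ[mu (G × M)] 0 := by
    filter_upwards [ae_all_iff.2 h1] with p hp
    obtain ⟨m, hm⟩ := Set.mem_iUnion.1 (by rw [iUnion_spanningSets]; trivial :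
      p.1 ∈ ⋃ n, spanningSets (mu G) n)
    obtain ⟨n, hn⟩ := Set.mem_iUnion.1 (by rw [iUnion_spanningSets]; trivial :
      p.2 ∈ ⋃ n, spanningSets (mu M) n)
    exact hp (max m n) ⟨monotone_spanningSets (mu G) (le_max_left m n) hm,
      monotone_spanningSets (mu M) (le_max_right m n) hn⟩
  exact Lp.ext (h3.trans (Lp.coeFn_zero (L2 ℕ) 2 (mu (G × M))).symm)

/-- PROOF: as `total_v`: the closure contains `indicatorConstLp A v` for all `v ∈ L2 ℕ` (`WM M` is onto, `total_v`). -/
theorem total_y : (Submodule.span ℂ (Set.range (Rct.y : Rct G M → HG G ℕ))).topologicalClosure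
    = ⊤ := by
  rw [F2_total]
  intro z hz
  have h1 : (z : G → L2 ℕ) =ᵐ[mu G] 0 := by
    refine ae_eq_zero_of_forall_setIntegral_eq_of_sigmaFinite (fun C _ fC =>
      integrableOn_Lp_of_measure_ne_top z fact_one_le_two_ennreal.elim fC.ne) fun A hA fA => ?_
    have h3 : (WM M).symm (∫ s in A, (z : G → L2 ℕ) s ∂mu G) = 0 := by
      refine (F2_total (Rct.v : Rct G M → HG M ℕ)).1 (total_v G M) _ fun r => ?_
      have h2 := hz ⟨A, hA, fA.ne, r.C, r.hC, r.fC, r.l⟩
      rw [Rct.y, L2.inner_indicatorConstLp_eq_inner_setIntegral ℂ hA fA.ne _ z] at h2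
      rw [← LinearIsometryEquiv.inner_map_map (WM M), LinearIsometryEquiv.apply_symm_apply]
      exact h2
    rw [← LinearIsometryEquiv.apply_symm_apply (WM M) (∫ s in A, (z : G → L2 ℕ) s ∂mu G), h3,
      map_zero]
  exact Lp.ext (h1.trans (Lp.coeFn_zero (L2 ℕ) 2 (mu G)).symm)

/-- PROOF: `exists_isometryEquiv` for `x r` and `√c • y r`. -/
theorem exists_wi : ∃ w : HG (G × M) ℕ ≃ₗᵢ[ℂ] HG G ℕ,
    ∀ r : Rct G M, w r.x = ((√(cc G M) : ℝ) : ℂ) • r.y := by
  have hc : ((√(cc G M) : ℝ) : ℂ) ≠ 0 := by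
    rw [Ne, Complex.ofReal_eq_zero]
    exact (Real.sqrt_pos.2 (cc_pos G M)).ne'
  refine exists_isometryEquiv (Rct.x : Rct G M → HG (G × M) ℕ)
    (fun r : Rct G M => ((√(cc G M) : ℝ) : ℂ) • r.y) (fun r s => ?_) (total_x G M) ?_
  · rw [inner_smul_left, inner_smul_right, Rct.inner_x, Rct.inner_y, Complex.conj_ofReal]
    have h1 : ((√(cc G M) : ℝ) : ℂ) * ((√(cc G M) : ℝ) : ℂ) = (cc G M : ℂ) := by
      rw [← Complex.ofReal_mul, Real.mul_self_sqrt (cc_pos G M).le]
    rw [← h1]
    ring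
  · rw [F2_total]
    intro z hz
    refine (F2_total (Rct.y : Rct G M → HG G ℕ)).1 (total_y G M) z fun r => ?_
    have h2 := hz r
    rw [inner_smul_left, mul_eq_zero] at h2
    rcases h2 with h2 | h2
    · rw [Complex.conj_ofReal] at h2
      exact absurd h2 hc
    · exact h2

/-- The unitary operator `L²(G × M, ℓ²) → L²(G, ℓ²)`. -/
def wi : HG (G × M) ℕ ≃ₗᵢ[ℂ] HG G ℕ := (exists_wi G M).choose

theorem wi_x (r : Rct G M) : wi G M r.x = ((√(cc G M) : ℝ) : ℂ) • r.y :=
  (exists_wi G M).choose_spec r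

end Pool.Agent.Lib.MP_aa9b81_an.Tv
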