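import Pool.Agent.Lib.MP_aa9b81_an.Mg.G034

/-!
# Transversals, section F (Morita), part F3: covariance
-/

open scoped ENNReal Topology CompactlySupported
open Function Filter MeasureTheory

noncomputable section

set_option linter.unusedSectionVars false

namespace Pool.Agent.Lib.MP_aa9b81_an.Tv

open Cut Hs Cb

variable {G J J' B : Type} [Group G] [TopologicalSpace G] [IsTopologicalGroup G]
  [LocallyCompactSpace G] [SecondCountableTopology G] [T2Space G] [MeasurableSpace G] [BorelSpace G]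

/-- Left translation. PROOF: `Lp.compMeasurePreservingₗᵢ` for `a ↦ k⁻¹ * a` (`measurePreserving_mul_left`), a surjective linear isometry (inverse: `a ↦ k * a`). -/
theorem exists_Lt (k : G) : ∃ L : HG G J ≃ₗᵢ[ℂ] HG G J, ∀ ξ : HG G J,
    (L ξ : G → L2 J) =ᵐ[mu G] fun a => ξ (k⁻¹ * a) := by
  have hk := fun g : G => measurePreserving_mul_left (mu G) g
  let T : G → (HG G J →ₗᵢ[ℂ] HG G J) := fun g => Lp.compMeasurePreservingₗᵢ ℂ (fun a => g * a) (hk g)
  have hT : ∀ (g : G) (ξ : HG G J), (T g ξ : G → L2 J) =ᵐ[mu G] fun a => ξ (g * a) := fun g ξ =>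
    Lp.coeFn_compMeasurePreserving ξ (hk g)
  refine ⟨LinearIsometryEquiv.ofSurjective (T k⁻¹) fun η => ⟨T k η, Lp.ext ?_⟩, fun ξ => ?_⟩
  · refine (hT k⁻¹ (T k η)).trans ?_
    have h1 := (hk k⁻¹).quasiMeasurePreserving.ae_eq_comp (hT k η)
    refine h1.trans (Eventually.of_forall fun a => ?_)
    change η (k * (k⁻¹ * a)) = η a
    rw [mul_inv_cancel_left]
  · exact hT k⁻¹ ξ

/-- The left translation operator `(Lt k ξ)(a) = ξ(k⁻¹ a)`. -/
def Lt (k : G) : HG G J ≃ₗᵢ[ℂ] HG G J := (exists_Lt k).choose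

theorem Lt_ae (k : G) (ξ : HG G J) : (Lt k ξ : G → L2 J) =ᵐ[mu G] fun a => ξ (k⁻¹ * a) :=
  (exists_Lt k).choose_spec ξ

section

variable [Nonempty J] [TopologicalSpace B] [T2Space B] [MulAction G B] [ContinuousSMul G B]

/-- PROOF: `opk_ae`, `Lt_ae`: `∫ φ(a⁻¹ k b, a⁻¹ a') ξ(k⁻¹ a') da' = ∫ φ((k⁻¹ a)⁻¹ b, (k⁻¹ a)⁻¹ a'') ξ(a'') da''` (`integral_mul_left_eq_self`); the a.e. statement for `opk_ae` is transported by
the measure preserving map `a ↦ k⁻¹ a`. -/
theorem gen_smul_apply (φ : C_c(B × G, ℂ)) (i j : J) (k : G) (b : B) (ξ : HG G J) :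
    (gen φ i j : FamG G J B) (k • b) (Lt k ξ) = Lt k ((gen φ i j : FamG G J B) b ξ) := by
  obtain ⟨C, M, hC, hM, h, hs⟩ := exists_bound φ
  have hF := FOK_smul (f := ⇑φ) φ.continuous hC hM h hs i j
  rw [Cb.gen_apply, Cb.gen_apply]
  unfold opF
  apply Lp.ext
  have e1 := opk_ae (hF.kok (k • b)) (Lt k ξ)
  have e2 := (Lt_ae k (opk (kat (fun b g => φ (b, g) • (Eu i j : BL J)) b) ξ)).trans
    ((measurePreserving_mul_left (mu G) k⁻¹).quasiMeasurePreserving.ae_eq_comp (opk_ae (hF.kok b) ξ))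
  refine e1.trans (EventuallyEq.trans (Eventually.of_forall fun a => ?_) e2.symm)
  have h1 : ∫ a', kat (fun b g => φ (b, g) • (Eu i j : BL J)) (k • b) a a' ((Lt k ξ : G → L2 J) a') ∂mu G
      = ∫ a', kat (fun b g => φ (b, g) • (Eu i j : BL J)) (k • b) a a' (ξ (k⁻¹ * a')) ∂mu G := by
    refine integral_congr_ae ?_
    filter_upwards [Lt_ae k ξ] with a' ha'
    rw [ha']
  have h2 : ∫ a', kat (fun b g => φ (b, g) • (Eu i j : BL J)) (k • b) a a' (ξ (k⁻¹ * a')) ∂mu G
      = ∫ a', kat (fun b g => φ (b, g) • (Eu i j : BL J)) (k • b) a (k * a') (ξ (k⁻¹ * (k * a'))) ∂mu G :=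
    (integral_mul_left_eq_self
      (fun a' => kat (fun b g => φ (b, g) • (Eu i j : BL J)) (k • b) a a' (ξ (k⁻¹ * a'))) k).symm
  change ∫ a', kat (fun b g => φ (b, g) • (Eu i j : BL J)) (k • b) a a' ((Lt k ξ : G → L2 J) a') ∂mu G
    = ∫ a', kat (fun b g => φ (b, g) • (Eu i j : BL J)) b (k⁻¹ * a) a' (ξ a') ∂mu G
  rw [h1, h2]
  congr 1
  funext a'
  unfold kat
  rw [inv_mul_cancel_left, smul_smul, mul_inv_rev, inv_inv, mul_assoc]

/-- PROOF: `cpG_induction`: the set of the `x` with this property is closed (`FamG.norm_apply_le`) and closed under addition. -/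
theorem cpG_smul_apply {x : FamG G J B} (hx : x ∈ cpG G J B) (k : G) (b : B) (ξ : HG G J) :
    x (k • b) (Lt k ξ) = Lt k (x b ξ) := by
  have hc : ∀ (c : B) (η : HG G J), Continuous fun x : FamG G J B => x c η := by
    intro c η
    have h1 : Continuous fun x : FamG G J B => x c := by
      refine (LipschitzWith.of_dist_le_mul (K := 1) fun x y => ?_).continuous
      rw [dist_eq_norm, dist_eq_norm, NNReal.coe_one, one_mul, ← FamG.sub_apply]
      exact FamG.norm_apply_le (x - y) c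
    exact h1.clm_apply continuous_const
  refine cpG_induction (p := fun x : FamG G J B => x (k • b) (Lt k ξ) = Lt k (x b ξ)) ?_ ?_ ?_ ?_ x hx
  · exact isClosed_eq (hc _ _) ((Lt k).continuous.comp (hc _ _))
  · simp
  · intro x y hx hy
    rw [FamG.add_apply, FamG.add_apply, _root_.add_apply, _root_.add_apply,
      map_add, hx, hy]
  · intro φ i j
    exact gen_smul_apply φ i j k b ξ

/-- PROOF: `cpG_smul_apply`; `‖x (k • b) ξ‖ = ‖x b (Lt k⁻¹-preimage)‖`: `ContinuousLinearMap.opNorm_le_bound` in both directions. -/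
theorem norm_smul_apply {x : FamG G J B} (hx : x ∈ cpG G J B) (k : G) (b : B) :
    ‖x (k • b)‖ = ‖x b‖ := by
  apply le_antisymm
  · refine ContinuousLinearMap.opNorm_le_bound _ (norm_nonneg _) fun ξ => ?_
    have h1 := cpG_smul_apply hx k b ((Lt k).symm ξ)
    rw [LinearIsometryEquiv.apply_symm_apply] at h1
    rw [h1, LinearIsometryEquiv.norm_map]
    refine ((x b).le_opNorm _).trans ?_
    rw [LinearIsometryEquiv.norm_map]
  · refine ContinuousLinearMap.opNorm_le_bound _ (norm_nonneg _) fun ξ => ?_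
    have h1 := cpG_smul_apply hx k b ξ
    rw [← LinearIsometryEquiv.norm_map (Lt k) (x b ξ), ← h1]
    refine ((x (k • b)).le_opNorm _).trans ?_
    rw [LinearIsometryEquiv.norm_map]

end

end Pool.Agent.Lib.MP_aa9b81_an.Tv
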