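import Pool.Agent.Lib.MP_aa9b81_an.Mg.G034

/-!
# Transversals, section F (Morita), part F3b: matrix entries of kernel operators
-/

open scoped ENNReal Topology CompactlySupported
open Function Filter MeasureTheory

noncomputable section

set_option linter.unusedSectionVars false

namespace Pool.Agent.Lib.MP_aa9b81_an.Tv

open Cut Hs Cb

variable {G J J' B : Type} [Group G] [TopologicalSpace G] [IsTopologicalGroup G]
  [LocallyCompactSpace G] [SecondCountableTopology G] [T2Space G] [MeasurableSpace G] [BorelSpace G]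

/-- Matrix entries of a kernel operator with respect to indicator vectors. PROOF: `L2.inner_indicatorConstLp_eq_inner_setIntegral` (or `L2.inner_def`), `opk_ae`, `indicatorConstLp_coeFn`,
`integral_indicator`; `inner ℂ v' (∫ ..) = ∫ inner ℂ v' ..` (`ContinuousLinearMap.integral_comp_comm` for `innerSL ℂ v'`, integrable: `KOK.integrable`). -/
theorem inner_opk {S : Set G} {N : ℝ} {k : G → G → (L2 J →L[ℂ] L2 J')} (h : KOK S N k)
    {A A' : Set G} (hA : MeasurableSet A) (fA : mu G A ≠ ⊤) (hA' : MeasurableSet A')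
    (fA' : mu G A' ≠ ⊤) (v : L2 J) (v' : L2 J') :
    (inner ℂ (indicatorConstLp 2 hA' fA' v') (opk k (indicatorConstLp 2 hA fA v)) : ℂ) =
      ∫ a in A', ∫ a' in A, (inner ℂ v' (k a a' v) : ℂ) ∂mu G ∂mu G := by
  rw [L2.inner_indicatorConstLp_eq_setIntegral_inner]
  refine integral_congr_ae (ae_restrict_of_ae ?_)
  filter_upwards [opk_ae h (indicatorConstLp 2 hA fA v)] with a ha
  rw [ha, ← integral_inner (h.integrable _ a), ← integral_indicator hA]
  refine integral_congr_ae ?_
  filter_upwards [indicatorConstLp_coeFn (p := 2) (hs := hA) (hμs := fA) (c := v)] with b hb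
  rw [hb]
  by_cases hbA : b ∈ A
  · rw [Set.indicator_of_mem hbA, Set.indicator_of_mem hbA]
  · rw [Set.indicator_of_notMem hbA, Set.indicator_of_notMem hbA, map_zero, inner_zero_right]

/-- Uniform continuity. PROOF: `IsCompact.mem_uniformity_of_prod` for the compact set `K`; outside of `K` both sides are zero. -/
theorem eventually_near {T S E : Type} [TopologicalSpace T] [TopologicalSpace S]
    [NormedAddCommGroup E] {Ψ : T → S → E} (hc : Continuous (uncurry Ψ)) {K : Set S}
    (hK : IsCompact K) (h0 : ∀ t, ∀ s ∉ K, Ψ t s = 0) (t₀ : T) {ε : ℝ} (hε : 0 < ε) :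
    ∀ᶠ t in 𝓝 t₀, ∀ s, ‖Ψ t s - Ψ t₀ s‖ ≤ ε := by
  have h1 : ∀ᶠ t in 𝓝 t₀, ∀ s ∈ K, ‖Ψ t s - Ψ t₀ s‖ < ε := by
    refine hK.eventually_forall_of_forall_eventually fun s _ => ?_
    have hc1 : Continuous fun z : T × S => Ψ z.1 z.2 - Ψ t₀ z.2 :=
      hc.sub (hc.comp (continuous_const.prodMk continuous_snd))
    have hc2 : Continuous fun z : T × S => ‖Ψ z.1 z.2 - Ψ t₀ z.2‖ := hc1.norm
    have h2 : ‖Ψ (t₀, s).1 (t₀, s).2 - Ψ t₀ (t₀, s).2‖ < ε := by
      simpa using hε
    exact hc2.continuousAt.eventually_lt continuousAt_const h2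
  filter_upwards [h1] with t ht s
  by_cases hs : s ∈ K
  · exact (ht s hs).le
  · rw [h0 t s hs, h0 t₀ s hs, sub_zero, norm_zero]
    exact hε.le

/-- A continuous function of a parameter with values in the continuous functions supported in a fixed compact set, as a continuous function with values in `L²`.
PROOF: `MemLp` of a continuous function with compact support (`Continuous.memLp_of_hasCompactSupport`); continuity: `eventually_near` and
`‖f - g‖₂ ≤ ε (mu K)^(1/2)` for functions supported in `K` with `‖f - g‖ ≤ ε`. -/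
theorem exists_param {T : Type} [TopologicalSpace T] {Ψ : T → G → L2 J}
    (hc : Continuous (uncurry Ψ)) {K : Set G} (hK : IsCompact K)
    (h0 : ∀ t, ∀ s ∉ K, Ψ t s = 0) :
    ∃ F : T → HG G J, Continuous F ∧ ∀ t, (F t : G → L2 J) =ᵐ[mu G] Ψ t := by
  have hcl : IsClosed K := hK.isClosed
  have hcs : ∀ t, HasCompactSupport (Ψ t) := fun t =>
    HasCompactSupport.intro hK fun s hs => h0 t s hs
  have hct : ∀ t, Continuous (Ψ t) := fun t => hc.comp (continuous_const.prodMk continuous_id)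
  have hmem : ∀ t, MemLp (Ψ t) 2 (mu G) := fun t => (hct t).memLp_of_hasCompactSupport (hcs t)
  refine ⟨fun t => (hmem t).toLp (Ψ t), ?_, fun t => (hmem t).coeFn_toLp⟩
  rw [continuous_iff_continuousAt]
  intro t₀
  rw [ContinuousAt, Metric.tendsto_nhds]
  intro ε hε
  have hKfin : mu G K ≠ ⊤ := hK.measure_lt_top.ne
  obtain ⟨δ, hδ, hδε⟩ : ∃ δ : ℝ, 0 < δ ∧ δ * (mu G).real K ^ (1 / (2 : ℝ)) < ε := by
    have h1 : 0 ≤ (mu G).real K ^ (1 / (2 : ℝ)) := Real.rpow_nonneg measureReal_nonneg _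
    refine ⟨ε / ((mu G).real K ^ (1 / (2 : ℝ)) + 1), by positivity, ?_⟩
    rw [div_mul_eq_mul_div, div_lt_iff₀ (by positivity)]
    nlinarith
  filter_upwards [eventually_near hc hK h0 t₀ hδ] with t ht
  rw [dist_eq_norm, ← MemLp.toLp_sub, Lp.norm_toLp]
  have h2 : eLpNorm (Ψ t - Ψ t₀) 2 (mu G) ≤
      eLpNorm (K.indicator fun _ => δ) 2 (mu G) := by
    refine eLpNorm_mono fun s => ?_
    by_cases hs : s ∈ K
    · rw [Set.indicator_of_mem hs, Pi.sub_apply, Real.norm_of_nonneg hδ.le]
      exact ht s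
    · rw [Set.indicator_of_notMem hs, Pi.sub_apply, h0 t s hs, h0 t₀ s hs, sub_zero, norm_zero,
        norm_zero]
  have h3 : eLpNorm (K.indicator fun _ => δ) 2 (mu G) =
      ‖δ‖ₑ * mu G K ^ (1 / (2 : ℝ≥0∞).toReal) :=
    eLpNorm_indicator_const hcl.measurableSet (by norm_num) (by norm_num)
  rw [h3] at h2
  have h4 := ENNReal.toReal_mono (ENNReal.mul_ne_top (by simp)
    (ENNReal.rpow_ne_top_of_nonneg (by norm_num) hKfin)) h2
  refine lt_of_le_of_lt h4 ?_
  rw [ENNReal.toReal_mul, ← ENNReal.toReal_rpow, toReal_enorm, Real.norm_of_nonneg hδ.le]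
  have h5 : (mu G K).toReal = (mu G).real K := rfl
  rw [h5, ENNReal.toReal_ofNat]
  exact hδε

end Pool.Agent.Lib.MP_aa9b81_an.Tv
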