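import Pool.Agent.Lib.MP_aa9b81_an.Tv.F2
import Pool.Agent.Lib.MP_aa9b81_an.Tv.F3b

/-!
# Transversals, section F (Morita), part F4: the kernels on `M`, and the induced kernel on `G`
-/

open scoped ENNReal Topology CompactlySupported
open Function Filter MeasureTheory

noncomputable section

set_option linter.unusedSectionVars false

namespace Pool.Agent.Lib.MP_aa9b81_an.Tv

open Cut Hs Cb

variable {G M B B' : Type} [Group G] [TopologicalSpace G] [IsTopologicalGroup G]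
  [LocallyCompactSpace G] [SecondCountableTopology G] [T2Space G] [MeasurableSpace G] [BorelSpace G]
  [Group M] [TopologicalSpace M] [IsTopologicalGroup M]
  [LocallyCompactSpace M] [SecondCountableTopology M] [T2Space M] [MeasurableSpace M] [BorelSpace M]
  [TopologicalSpace B] [T2Space B] [MulAction G B] [ContinuousSMul G B]
  [TopologicalSpace B'] [T2Space B'] [MulAction (G × M) B'] [ContinuousSMul (G × M) B']

/-- The scalar kernel. -/
def sk (e : B × M ≃ₜ B') (ψ : C_c(B' × (G × M), ℂ)) (p : B × G) (u u' : M) : ℂ :=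
  ψ (e (p.1, u⁻¹), (p.2, u⁻¹ * u'))

/-- PROOF: continuity of `ψ`, `e`. -/
theorem continuous_sk (e : B × M ≃ₜ B') (ψ : C_c(B' × (G × M), ℂ)) :
    Continuous fun q : (B × G) × (M × M) => sk e ψ q.1 q.2.1 q.2.2 := by
  have h1 : Continuous fun q : (B × G) × (M × M) => ((q.1.1, q.2.1⁻¹) : B × M) := by fun_prop
  have h2 : Continuous fun q : (B × G) × (M × M) => ((q.1.2, q.2.1⁻¹ * q.2.2) : G × M) := by
    fun_prop
  exact ψ.continuous.comp ((e.continuous.comp h1).prodMk h2)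

/-- The supports. PROOF: the image of `tsupport ψ` under the maps `(b', (g, v)) ↦ (e.symm b').1`, `g`, `(e.symm b').2⁻¹`, `v`. A bound of `ψ` as in `exists_bound`. -/
theorem sk_supp (e : B × M ≃ₜ B') (ψ : C_c(B' × (G × M), ℂ)) :
    ∃ (KB : Set B) (KG : Set G) (KM C : Set M) (N : ℝ), IsCompact KB ∧ IsCompact KG ∧ IsCompact KM ∧
      IsCompact C ∧ 0 ≤ N ∧ (∀ p u u', ‖sk e ψ p u u'‖ ≤ N) ∧
      ∀ p u u', sk e ψ p u u' ≠ 0 → p.1 ∈ KB ∧ p.2 ∈ KG ∧ u ∈ KM ∧ u⁻¹ * u' ∈ C := by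
  obtain ⟨N, hN⟩ := ψ.hasCompactSupport.exists_bound_of_continuous ψ.continuous
  have hc : IsCompact (tsupport ψ) := ψ.hasCompactSupport.isCompact
  have c1 : Continuous fun x : B' × (G × M) => (e.symm x.1).1 :=
    continuous_fst.comp (e.symm.continuous.comp continuous_fst)
  have c2 : Continuous fun x : B' × (G × M) => x.2.1 := by fun_prop
  have c3 : Continuous fun x : B' × (G × M) => (e.symm x.1).2⁻¹ :=
    (continuous_snd.comp (e.symm.continuous.comp continuous_fst)).inv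
  have c4 : Continuous fun x : B' × (G × M) => x.2.2 := by fun_prop
  refine ⟨_, _, _, _, max N 0, hc.image c1, hc.image c2, hc.image c3, hc.image c4,
    le_max_right _ _, fun p u u' => (hN _).trans (le_max_left _ _), fun p u u' h => ?_⟩
  have hx : ((e (p.1, u⁻¹), (p.2, u⁻¹ * u')) : B' × (G × M)) ∈ tsupport ψ := subset_tsupport ψ h
  refine ⟨⟨_, hx, ?_⟩, ⟨_, hx, rfl⟩, ⟨_, hx, ?_⟩, ⟨_, hx, rfl⟩⟩
  · show (e.symm (e (p.1, u⁻¹))).1 = p.1
    rw [e.symm_apply_apply]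
  · show (e.symm (e (p.1, u⁻¹))).2⁻¹ = u
    rw [e.symm_apply_apply, inv_inv]

/-- The kernel on `M`. -/
def km (e : B × M ≃ₜ B') (ψ : C_c(B' × (G × M), ℂ)) (i j : ℕ) (p : B × G) :
    M → M → (L2 ℕ →L[ℂ] L2 ℕ) := fun u u' => sk e ψ p u u' • (Eu i j : BL ℕ)

theorem F4_kok (e : B × M ≃ₜ B') (ψ : C_c(B' × (G × M), ℂ)) (i j : ℕ) {C : Set M} {N : ℝ}
    (hC : IsCompact C) (hN : 0 ≤ N) (hb : ∀ p u u', ‖sk e ψ p u u'‖ ≤ N)
    (hs : ∀ p u u', sk e ψ p u u' ≠ 0 → u⁻¹ * u' ∈ C) (p : B × G) : KOK C N (km e ψ i j p) := by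
  refine ⟨hC, hN, fun v => ?_, fun u u' => ?_, fun u u' h => ?_⟩
  · have h1 : Continuous fun q : M × M => ((p, q) : (B × G) × (M × M)) := by fun_prop
    have h2 : Continuous fun q : M × M => sk e ψ p q.1 q.2 := (continuous_sk e ψ).comp h1
    exact h2.smul continuous_const
  · show ‖sk e ψ p u u' • (Eu i j : BL ℕ)‖ ≤ N
    rw [norm_smul]
    calc ‖sk e ψ p u u'‖ * ‖(Eu i j : BL ℕ)‖ ≤ N * 1 :=
          mul_le_mul (hb p u u') (norm_Eu_le i j) (norm_nonneg _) hN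
      _ = N := mul_one N
  · show sk e ψ p u u' • (Eu i j : BL ℕ) = 0
    have h0 : sk e ψ p u u' = 0 := by
      by_contra hne
      exact h (hs p u u' hne)
    rw [h0, zero_smul]

/-- PROOF: `sk_supp`, `continuous_sk`, `norm_Eu_le`. -/
theorem km_kok (e : B × M ≃ₜ B') (ψ : C_c(B' × (G × M), ℂ)) (i j : ℕ) :
    ∃ (C : Set M) (N : ℝ), ∀ p, KOK C N (km e ψ i j p) := by
  obtain ⟨KB, KG, KM, C, N, hKB, hKG, hKM, hC, hN, hb, hs⟩ := sk_supp e ψ
  refine ⟨C, N, fun p => F4_kok e ψ i j hC hN hb (fun p u u' h => (hs p u u' h).2.2.2) p⟩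

/-- The operator on `ℓ²` given by the kernel on `M`. -/
def kp (e : B × M ≃ₜ B') (ψ : C_c(B' × (G × M), ℂ)) (i j : ℕ) (b : B) (g : G) : BL ℕ :=
  (cc G M : ℂ) • ((WM M : HG M ℕ →L[ℂ] L2 ℕ) ∘L opk (km e ψ i j (b, g)) ∘L
    ((WM M).symm : L2 ℕ →L[ℂ] HG M ℕ))

theorem F4_continuous_opk (e : B × M ≃ₜ B') (ψ : C_c(B' × (G × M), ℂ)) (i j : ℕ) :
    Continuous fun p : B × G => (opk (km e ψ i j p) : HG M ℕ →L[ℂ] HG M ℕ) := by
  obtain ⟨KB, KG, KM, C, N, hKB, hKG, hKM, hC, hN, hb, hs⟩ := sk_supp e ψ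
  have hsC : ∀ p u u', sk e ψ p u u' ≠ 0 → u⁻¹ * u' ∈ C := fun p u u' h => (hs p u u' h).2.2.2
  have hK : IsCompact ((fun x : M × M => ((x.1, x.1 * x.2) : M × M)) '' (KM ×ˢ C)) :=
    (hKM.prod hC).image (by fun_prop)
  rw [continuous_iff_continuousAt]
  intro p₀
  rw [ContinuousAt, Metric.tendsto_nhds]
  intro ε hε
  have hcs : 0 ≤ cs C := Real.sqrt_nonneg _
  have hδ : 0 < ε / 2 / (cs C + 1) := by positivity
  have hev := eventually_near (T := B × G) (S := M × M)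
    (Ψ := fun p s => sk e ψ p s.1 s.2) (continuous_sk e ψ) hK (fun p s hsn => by
      by_contra hne
      obtain ⟨-, -, h3, h4⟩ := hs p s.1 s.2 hne
      refine hsn ⟨(s.1, s.1⁻¹ * s.2), ⟨h3, h4⟩, ?_⟩
      show ((s.1, s.1 * (s.1⁻¹ * s.2)) : M × M) = s
      rw [mul_inv_cancel_left]) p₀ hδ
  filter_upwards [hev] with p hp
  have hk := F4_kok e ψ i j hC hN hb hsC p
  have hk₀ := F4_kok e ψ i j hC hN hb hsC p₀
  have hd : KOK C (ε / 2 / (cs C + 1)) fun u u' => km e ψ i j p u u' - km e ψ i j p₀ u u' := by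
    refine ⟨hC, hδ.le, (hk.sub hk₀).cont, fun u u' => ?_, fun u u' h => ?_⟩
    · show ‖sk e ψ p u u' • (Eu i j : BL ℕ) - sk e ψ p₀ u u' • (Eu i j : BL ℕ)‖ ≤ _
      rw [← sub_smul, norm_smul]
      calc ‖sk e ψ p u u' - sk e ψ p₀ u u'‖ * ‖(Eu i j : BL ℕ)‖
          ≤ ε / 2 / (cs C + 1) * 1 :=
            mul_le_mul (hp (u, u')) (norm_Eu_le i j) (norm_nonneg _) hδ.le
        _ = ε / 2 / (cs C + 1) := mul_one _
    · rw [hk.supp u u' h, hk₀.supp u u' h, sub_zero]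
  have h1 := norm_opk_le hd
  rw [opk_sub hk hk₀] at h1
  rw [dist_eq_norm]
  refine lt_of_le_of_lt h1 ?_
  calc ε / 2 / (cs C + 1) * cs C ≤ ε / 2 / (cs C + 1) * (cs C + 1) :=
        mul_le_mul_of_nonneg_left (by linarith) hδ.le
    _ = ε / 2 := div_mul_cancel₀ _ (by positivity)
    _ < ε := by linarith

/-- Norm continuity. PROOF: `opk_sub`-like: `‖opk (km p) - opk (km p₀)‖ ≤ ε cs C` where `‖sk p - sk p₀‖ ≤ ε` (`eventually_near` for `T = B × G`, `S = M × M`, the compact set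
`{(u, u') : u ∈ KM, u⁻¹ u' ∈ C}`). -/
theorem continuous_kp (e : B × M ≃ₜ B') (ψ : C_c(B' × (G × M), ℂ)) (i j : ℕ) :
    Continuous fun p : B × G => kp e ψ i j p.1 p.2 := by
  have h1 : Continuous fun p : B × G => (opk (km e ψ i j p) : HG M ℕ →L[ℂ] HG M ℕ) :=
    F4_continuous_opk e ψ i j
  have h2 : Continuous fun p : B × G => ((WM M : HG M ℕ →L[ℂ] L2 ℕ) ∘L opk (km e ψ i j p) ∘L
      ((WM M).symm : L2 ℕ →L[ℂ] HG M ℕ)) :=
    continuous_const.clm_comp (h1.clm_comp continuous_const)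
  exact h2.const_smul (cc G M : ℂ)

/-- PROOF: `sk_supp`: the kernel `km e ψ i j (b, g)` is `0` for `b ∉ KB` or `g ∉ KG` (`opk_zero`); `norm_opk_le`. -/
theorem kp_supp (e : B × M ≃ₜ B') (ψ : C_c(B' × (G × M), ℂ)) (i j : ℕ) :
    ∃ (KB : Set B) (C : Set G) (N : ℝ), IsCompact KB ∧ IsCompact C ∧ 0 ≤ N ∧
      (∀ b g, ‖kp e ψ i j b g‖ ≤ N) ∧ (∀ b ∉ KB, ∀ g, kp e ψ i j b g = 0) ∧
      ∀ b, ∀ g ∉ C, kp e ψ i j b g = 0 := by
  obtain ⟨KB, KG, KM, C, N, hKB, hKG, hKM, hC, hN, hb, hs⟩ := sk_supp e ψ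
  have hsC : ∀ p u u', sk e ψ p u u' ≠ 0 → u⁻¹ * u' ∈ C := fun p u u' h => (hs p u u' h).2.2.2
  have hcs : 0 ≤ cs C := Real.sqrt_nonneg _
  have hcc : 0 ≤ cc G M := (cc_pos G M).le
  have hzero : ∀ b g, (∀ u u', sk e ψ (b, g) u u' = 0) → kp e ψ i j b g = 0 := by
    intro b g h
    have h1 : km e ψ i j (b, g) = fun _ _ => (0 : L2 ℕ →L[ℂ] L2 ℕ) := by
      funext u u'
      show sk e ψ (b, g) u u' • (Eu i j : BL ℕ) = 0
      rw [h u u', zero_smul]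
    show (cc G M : ℂ) • ((WM M : HG M ℕ →L[ℂ] L2 ℕ) ∘L opk (km e ψ i j (b, g)) ∘L
      ((WM M).symm : L2 ℕ →L[ℂ] HG M ℕ)) = 0
    rw [h1, opk_zero, ContinuousLinearMap.zero_comp, ContinuousLinearMap.comp_zero, smul_zero]
  refine ⟨KB, KG, cc G M * (N * cs C), hKB, hKG, mul_nonneg hcc (mul_nonneg hN hcs),
    fun b g => ?_, fun b hb' g => ?_, fun b g hg => ?_⟩
  · have hk := norm_opk_le (F4_kok e ψ i j hC hN hb hsC (b, g))
    have hW : ‖(WM M : HG M ℕ →L[ℂ] L2 ℕ)‖ ≤ 1 :=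
      ContinuousLinearMap.opNorm_le_bound _ zero_le_one fun x => by
        rw [one_mul]
        exact ((WM M).norm_map x).le
    have hW' : ‖((WM M).symm : L2 ℕ →L[ℂ] HG M ℕ)‖ ≤ 1 :=
      ContinuousLinearMap.opNorm_le_bound _ zero_le_one fun x => by
        rw [one_mul]
        exact ((WM M).symm.norm_map x).le
    show ‖(cc G M : ℂ) • ((WM M : HG M ℕ →L[ℂ] L2 ℕ) ∘L opk (km e ψ i j (b, g)) ∘L
      ((WM M).symm : L2 ℕ →L[ℂ] HG M ℕ))‖ ≤ _
    rw [norm_smul]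
    have h0 : ‖(cc G M : ℂ)‖ = cc G M := by
      rw [Complex.norm_real, Real.norm_of_nonneg hcc]
    rw [h0]
    refine mul_le_mul_of_nonneg_left ?_ hcc
    calc ‖(WM M : HG M ℕ →L[ℂ] L2 ℕ) ∘L opk (km e ψ i j (b, g)) ∘L
          ((WM M).symm : L2 ℕ →L[ℂ] HG M ℕ)‖
        ≤ ‖(WM M : HG M ℕ →L[ℂ] L2 ℕ)‖ * ‖(opk (km e ψ i j (b, g)) : HG M ℕ →L[ℂ] HG M ℕ) ∘L
          ((WM M).symm : L2 ℕ →L[ℂ] HG M ℕ)‖ := ContinuousLinearMap.opNorm_comp_le _ _
      _ ≤ 1 * ((N * cs C) * 1) := by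
          refine mul_le_mul hW ?_ (norm_nonneg _) zero_le_one
          exact (ContinuousLinearMap.opNorm_comp_le _ _).trans
            (mul_le_mul hk hW' (norm_nonneg _) (mul_nonneg hN hcs))
      _ = N * cs C := by ring
  · refine hzero b g fun u u' => ?_
    by_contra hne
    exact hb' (hs (b, g) u u' hne).1
  · refine hzero b g fun u u' => ?_
    by_contra hne
    exact hg (hs (b, g) u u' hne).2.1

/-- PROOF: `continuous_kp`, `kp_supp`. -/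
theorem kp_fok (e : B × M ≃ₜ B') (ψ : C_c(B' × (G × M), ℂ)) (i j : ℕ) :
    ∃ (C : Set G) (N : ℝ), FOK C N (kp e ψ i j : B → G → (L2 ℕ →L[ℂ] L2 ℕ)) := by
  obtain ⟨KB, C, N, hKB, hC, hN, hb, h1, h2⟩ := kp_supp e ψ i j
  exact ⟨C, N, hC, hN, fun v => (continuous_kp e ψ i j).clm_apply continuous_const,
    fun b g => hb b g, fun b g hg => h2 b g hg⟩

end Pool.Agent.Lib.MP_aa9b81_an.Tv
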