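import Pool.Agent.Lib.MP_aa9b81_an.Tv.F4

/-!
# Transversals, section F (Morita), part F4b: the induced kernel is in the crossed product
-/

open scoped ENNReal Topology CompactlySupported Pointwise
open Function Filter MeasureTheory

noncomputable section

set_option linter.unusedSectionVars false

namespace Pool.Agent.Lib.MP_aa9b81_an.Tv

open Cut Hs Cb

/-- The sum form of the projection. -/
theorem F4b_dia (R : Finset ℕ) (v : L2 ℕ) :
    (dia (fun k => if k ∈ R then (1 : ℂ) else 0) : BL ℕ) v =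
      ∑ i ∈ R, (v : ℕ → ℂ) i • (bv i : L2 ℕ) := by
  classical
  ext c
  rw [dia_apply zero_le_one (fun b => by split_ifs <;> simp)]
  have h1 : ((∑ i ∈ R, (v : ℕ → ℂ) i • (bv i : L2 ℕ) : L2 ℕ) : ℕ → ℂ) c =
      ∑ i ∈ R, ((v : ℕ → ℂ) i • (bv i : L2 ℕ) : L2 ℕ) c := by
    rw [lp.coeFn_sum, Finset.sum_apply]
  rw [h1]
  have h2 : ∀ i ∈ R, ((v : ℕ → ℂ) i • (bv i : L2 ℕ) : L2 ℕ) c =
      if c = i then (v : ℕ → ℂ) i else 0 := by
    intro i _
    rw [lp.coeFn_smul, Pi.smul_apply, bv_apply, smul_eq_mul]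
    split_ifs <;> simp
  rw [Finset.sum_congr rfl h2, Finset.sum_ite_eq]
  split_ifs <;> simp

/-- The projection is self adjoint. -/
theorem F4b_adj (R : Finset ℕ) (x v : L2 ℕ) :
    (inner ℂ x (v - ∑ i ∈ R, (v : ℕ → ℂ) i • (bv i : L2 ℕ)) : ℂ) =
      inner ℂ (x - ∑ i ∈ R, (x : ℕ → ℂ) i • (bv i : L2 ℕ)) v := by
  rw [inner_sub_right, inner_sub_left, inner_sum, sum_inner]
  congr 1
  refine Finset.sum_congr rfl fun i _ => ?_
  rw [inner_smul_right, inner_smul_left, inner_bv_left, ← inner_conj_symm x (bv i : L2 ℕ),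
    inner_bv_left, mul_comm]

section

variable {M : Type} [Group M] [TopologicalSpace M] [IsTopologicalGroup M]
  [LocallyCompactSpace M] [SecondCountableTopology M] [T2Space M] [MeasurableSpace M] [BorelSpace M]

/-- The norm of a bounded function supported in a compact set. -/
theorem F4b_norm_le {f : HG M ℕ} {K : Set M} (hK : IsCompact K) {c : ℝ} (hc : 0 ≤ c)
    (h0 : ∀ᵐ u ∂mu M, u ∉ K → f u = 0) (hb : ∀ᵐ u ∂mu M, ‖f u‖ ≤ c) :
    ‖f‖ ≤ √((mu M).real K) * c := by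
  have hm : MeasurableSet K := hK.measurableSet
  have h1 : (f : M → L2 ℕ) =ᵐ[mu M] K.indicator f := by
    filter_upwards [h0] with u hu
    by_cases h : u ∈ K
    · rw [Set.indicator_of_mem h]
    · rw [Set.indicator_of_notMem h, hu h]
  have h2 : eLpNorm f 2 (mu M) ≤ (mu M K) ^ (1 / 2 : ℝ) * ENNReal.ofReal c := by
    rw [eLpNorm_congr_ae h1, eLpNorm_indicator_eq_eLpNorm_restrict hm]
    have h3 : ∀ᵐ u ∂(mu M).restrict K, ‖f u‖ ≤ c := ae_restrict_of_ae hb
    have h4 := eLpNorm_le_of_ae_bound (p := 2) h3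
    rw [Measure.restrict_apply_univ] at h4
    simpa using h4
  have hKf : mu M K ≠ ⊤ := hK.measure_lt_top.ne
  rw [Lp.norm_def]
  have h5 : (mu M K) ^ (1 / 2 : ℝ) * ENNReal.ofReal c ≠ ⊤ :=
    ENNReal.mul_ne_top (ENNReal.rpow_ne_top_of_nonneg (by norm_num) hKf) ENNReal.ofReal_ne_top
  refine (ENNReal.toReal_mono h5 h2).trans ?_
  rw [ENNReal.toReal_mul, ENNReal.toReal_ofReal hc, ← ENNReal.toReal_rpow, Real.sqrt_eq_rpow]
  rfl

end

variable {G M B B' : Type} [Group G] [TopologicalSpace G] [IsTopologicalGroup G]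
  [LocallyCompactSpace G] [SecondCountableTopology G] [T2Space G] [MeasurableSpace G] [BorelSpace G]
  [Group M] [TopologicalSpace M] [IsTopologicalGroup M]
  [LocallyCompactSpace M] [SecondCountableTopology M] [T2Space M] [MeasurableSpace M] [BorelSpace M]
  [TopologicalSpace B] [T2Space B] [MulAction G B] [ContinuousSMul G B]
  [TopologicalSpace B'] [T2Space B'] [MulAction (G × M) B'] [ContinuousSMul (G × M) B']

/-- The operator of the kernel as a family of inner products. -/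
theorem F4b_opk (e : B × M ≃ₜ B') (ψ : C_c(B' × (G × M), ℂ)) (i j : ℕ)
    {F : (B × G) × M → HG M ℕ}
    (hF : ∀ t, (F t : M → L2 ℕ) =ᵐ[mu M]
      fun u' => (starRingEnd ℂ) (sk e ψ t.1 t.2 u') • (bv j : L2 ℕ)) (p : B × G) (ξ : HG M ℕ) :
    (opk (km e ψ i j p) ξ : M → L2 ℕ) =ᵐ[mu M]
      fun u => (inner ℂ (F (p, u)) ξ : ℂ) • (bv i : L2 ℕ) := by
  obtain ⟨C, N, hk⟩ := km_kok e ψ i j
  filter_upwards [opk_ae (hk p) ξ] with u hu
  rw [hu, L2.inner_def]
  have h1 : ∫ a, (inner ℂ ((F (p, u) : HG M ℕ) a) (ξ a) : ℂ) ∂mu M =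
      ∫ a, sk e ψ p u a * (inner ℂ (bv j : L2 ℕ) (ξ a) : ℂ) ∂mu M := by
    refine integral_congr_ae ?_
    filter_upwards [hF (p, u)] with a ha
    rw [ha, inner_smul_left, Complex.conj_conj]
  rw [h1, ← integral_smul_const]
  refine integral_congr_ae (Filter.Eventually.of_forall fun a => ?_)
  show sk e ψ p u a • (Eu i j : BL ℕ) (ξ a) =
    (sk e ψ p u a * (inner ℂ (bv j : L2 ℕ) (ξ a) : ℂ)) • (bv i : L2 ℕ)
  rw [mul_smul]
  congr 1
  classical
  ext c
  rw [Eu_apply, lp.coeFn_smul, Pi.smul_apply, bv_apply, inner_bv_left, smul_eq_mul]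
  split_ifs <;> simp

/-- The operators `kp b g` are uniformly approximated by right finite ones.
PROOF: let `F (b, g, u) ∈ HG M ℕ` be the class of `u' ↦ conj (sk (b, g) u u') • bv j` (`exists_param`, `T = (B × G) × M`, compact set `KM * C`); it is zero for `(b, g, u)` outside of the compact set
`KB × KG × KM`, so its values form a relatively compact set; so do the values of `WM M (F (b, g, u))`: `exists_finset_near` gives the finite set `R` with `‖(1 - D) (WM M (F t))‖ ≤ δ`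
for `D = dia (1_R)` (see the proof of `exists_finset_near`: the sum is `D v`). Now `(opk (km p) ξ)(u) = ⟨F (p, u), ξ⟩ • bv i` a.e. (`opk_ae`, `L2.inner_def`, `Eu_apply`), so for `ξ = (WM M).symm ((1 - D) v)`:
`|⟨F, ξ⟩| = |⟨(1 - D) WM M F, v⟩| ≤ δ ‖v‖` and `‖opk (km p) ξ‖ ≤ δ ‖v‖ (mu M KM)^(1/2)`. -/
theorem kp_near (e : B × M ≃ₜ B') (ψ : C_c(B' × (G × M), ℂ)) (i j : ℕ) {ε : ℝ} (hε : 0 < ε) :
    ∃ R : Finset ℕ, ∀ b g,
      ‖kp e ψ i j b g - (kp e ψ i j b g) ∘L (dia fun k => if k ∈ R then 1 else 0)‖ ≤ ε := by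
  obtain ⟨KB, KG, KM, C, N, hKB, hKG, hKM, hC, hN, -, hs⟩ := sk_supp e ψ
  have hcont : Continuous (uncurry fun (t : (B × G) × M) (u' : M) =>
      (starRingEnd ℂ) (sk e ψ t.1 t.2 u') • (bv j : L2 ℕ)) := by
    have h1 : Continuous fun q : ((B × G) × M) × M => sk e ψ q.1.1 q.1.2 q.2 :=
      (continuous_sk e ψ).comp (f := fun q : ((B × G) × M) × M => (q.1.1, (q.1.2, q.2)))
        (by fun_prop)
    exact (Complex.continuous_conj.comp h1).smul continuous_const
  have hz : ∀ (t : (B × G) × M), ∀ u' ∉ KM * C,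
      (starRingEnd ℂ) (sk e ψ t.1 t.2 u') • (bv j : L2 ℕ) = 0 := by
    intro t u' hu'
    have h1 : sk e ψ t.1 t.2 u' = 0 := by
      by_contra hn
      obtain ⟨-, -, h3, h4⟩ := hs _ _ _ hn
      exact hu' (Set.mem_mul.2 ⟨_, h3, _, h4, mul_inv_cancel_left _ _⟩)
    rw [h1, map_zero, zero_smul]
  obtain ⟨F, hFc, hF⟩ := exists_param hcont (hKM.mul hC) hz
  have hF0 : ∀ t : (B × G) × M, t ∉ (KB ×ˢ KG) ×ˢ KM → F t = 0 := by
    intro t ht
    refine Lp.ext ?_
    filter_upwards [hF t, Lp.coeFn_zero (L2 ℕ) 2 (mu M)] with a ha h0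
    rw [ha, h0]
    have h1 : sk e ψ t.1 t.2 a = 0 := by
      by_contra hn
      obtain ⟨h2, h3, h4, -⟩ := hs _ _ _ hn
      exact ht ⟨⟨h2, h3⟩, h4⟩
    rw [h1, map_zero, zero_smul]
    rfl
  have hcpt : IsCompact ((fun t => WM M (F t)) '' ((KB ×ˢ KG) ×ˢ KM)) :=
    ((hKB.prod hKG).prod hKM).image ((WM M).continuous.comp hFc)
  have hcc := cc_pos G M
  set δ : ℝ := ε / (cc G M * √((mu M).real KM) + 1) with hδ
  have hpos : 0 < cc G M * √((mu M).real KM) + 1 := by positivity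
  have hδ0 : 0 < δ := div_pos hε hpos
  obtain ⟨R, hR⟩ := exists_finset_near hcpt hδ0
  have hR' : ∀ t : (B × G) × M,
      ‖WM M (F t) - ∑ k ∈ R, (WM M (F t) : ℕ → ℂ) k • (bv k : L2 ℕ)‖ ≤ δ := by
    intro t
    by_cases ht : t ∈ (KB ×ˢ KG) ×ˢ KM
    · exact hR _ ⟨t, ht, rfl⟩
    · rw [hF0 t ht, map_zero, ← F4b_dia, map_zero, sub_zero, norm_zero]
      exact hδ0.le
  refine ⟨R, fun b g => ContinuousLinearMap.opNorm_le_bound _ hε.le fun v => ?_⟩
  set w : L2 ℕ := v - ∑ k ∈ R, (v : ℕ → ℂ) k • (bv k : L2 ℕ) with hw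
  have h1 : (kp e ψ i j b g - (kp e ψ i j b g) ∘L (dia fun k => if k ∈ R then 1 else 0)) v =
      (cc G M : ℂ) • WM M (opk (km e ψ i j (b, g)) ((WM M).symm w)) := by
    show kp e ψ i j b g v - kp e ψ i j b g ((dia fun k => if k ∈ R then (1 : ℂ) else 0) v) = _
    rw [F4b_dia, ← map_sub]
    rfl
  rw [h1, norm_smul, LinearIsometryEquiv.norm_map]
  have h2 : ‖opk (km e ψ i j (b, g)) ((WM M).symm w)‖ ≤ √((mu M).real KM) * (δ * ‖v‖) := by
    have h3 := F4b_opk e ψ i j hF (b, g) ((WM M).symm w)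
    refine F4b_norm_le hKM (by positivity) ?_ ?_
    · filter_upwards [h3] with u hu huK
      rw [hu, hF0 ((b, g), u) (fun h => huK h.2), inner_zero_left, zero_smul]
    · filter_upwards [h3] with u hu
      rw [hu, norm_smul, norm_bv, mul_one]
      have h4 : (inner ℂ (F ((b, g), u)) ((WM M).symm w) : ℂ) =
          inner ℂ (WM M (F ((b, g), u))) w := by
        rw [← (WM M).inner_map_map (F ((b, g), u)) ((WM M).symm w),
          LinearIsometryEquiv.apply_symm_apply]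
      rw [h4, hw, F4b_adj]
      refine (norm_inner_le_norm _ _).trans ?_
      exact mul_le_mul_of_nonneg_right (hR' _) (norm_nonneg _)
  have h5 : ‖(cc G M : ℂ)‖ = cc G M := by
    rw [Complex.norm_real, Real.norm_of_nonneg hcc.le]
  rw [h5]
  refine (mul_le_mul_of_nonneg_left h2 hcc.le).trans ?_
  have h6 : cc G M * √((mu M).real KM) * δ ≤ ε := by
    rw [hδ, mul_div_assoc', div_le_iff₀ hpos]
    nlinarith
  calc cc G M * (√((mu M).real KM) * (δ * ‖v‖))
      = (cc G M * √((mu M).real KM) * δ) * ‖v‖ := by ring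
    _ ≤ ε * ‖v‖ := mul_le_mul_of_nonneg_right h6 (norm_nonneg _)

/-- PROOF: `kp_near`, `mem_cpG_of_finite` for the kernel `(kp b g) ∘L dia (1_R)` (`FOK.right` with a constant `τ`, or directly), `norm_opF_le`, `opF_sub`, `isClosed_cpG`. -/
theorem kp_mem (e : B × M ≃ₜ B') (ψ : C_c(B' × (G × M), ℂ)) (i j : ℕ) :
    fam (opF (kp e ψ i j)) ∈ cpG G ℕ B := by
  classical
  obtain ⟨C, N, hfok⟩ := kp_fok (G := G) e ψ i j
  obtain ⟨KB, -, -, hKB, -, -, -, hKB0, -⟩ := kp_supp (G := G) e ψ i j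
  have hcl := (isClosed_cpG (G := G) (J := ℕ) (B := B)).closure_eq
  change fam (opF (kp e ψ i j)) ∈ (cpG G ℕ B : Set (FamG G ℕ B))
  rw [← hcl, Metric.mem_closure_iff]
  intro ε hε
  have hcs : 0 ≤ cs C := Real.sqrt_nonneg _
  set δ : ℝ := ε / (2 * (cs C + 1)) with hδ
  have hδ0 : 0 < δ := by positivity
  obtain ⟨R, hR⟩ := kp_near (G := G) e ψ i j hδ0
  have hD : ‖(dia (fun k => if k ∈ R then (1 : ℂ) else 0) : BL ℕ)‖ ≤ 1 :=
    norm_dia_le zero_le_one fun b => by split_ifs <;> simp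
  have hfokR : FOK C (N * 1) fun (b : B) (g : G) =>
      (kp e ψ i j b g).comp (dia fun k => if k ∈ R then (1 : ℂ) else 0) :=
    hfok.right (τ := fun _ : B => (dia fun k => if k ∈ R then (1 : ℂ) else 0)) (SC.const _)
      zero_le_one fun _ => hD
  refine ⟨fam (opF fun (b : B) (g : G) =>
    (kp e ψ i j b g).comp (dia fun k => if k ∈ R then (1 : ℂ) else 0)), ?_, ?_⟩
  · refine mem_cpG_of_finite hfokR R (fun b g l hl => ?_) fun η hη => ⟨KB, hKB, fun b hb g => ?_⟩
    · show kp e ψ i j b g ((dia fun k => if k ∈ R then (1 : ℂ) else 0) (bv l)) = 0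
      rw [dia_bv (C := 1) (fun b => by split_ifs <;> simp), if_neg hl, zero_smul, map_zero]
    · rw [hKB0 b hb g, ContinuousLinearMap.zero_comp, norm_zero]
      exact hη.le
  · rw [dist_eq_norm]
    have h1 : ‖fam (opF (kp e ψ i j)) - fam (opF fun (b : B) (g : G) =>
        (kp e ψ i j b g).comp (dia fun k => if k ∈ R then (1 : ℂ) else 0))‖ ≤ δ * cs C := by
      refine (FamG.norm_le_iff (mul_nonneg hδ0.le hcs)).2 fun b => ?_
      rw [FamG.sub_apply, fam_apply (fun b => norm_opF_le hfok b),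
        fam_apply (fun b => norm_opF_le hfokR b), ← opF_sub hfok hfokR]
      have h2 := hfok.sub hfokR
      rw [Set.union_self] at h2
      have h3 : FOK C δ fun (b : B) (g : G) => kp e ψ i j b g -
          (kp e ψ i j b g).comp (dia fun k => if k ∈ R then (1 : ℂ) else 0) :=
        ⟨h2.cpt, hδ0.le, h2.cont, fun b g => hR b g, h2.supp⟩
      exact norm_opF_le h3 b
    refine lt_of_le_of_lt h1 ?_
    rw [hδ]
    have h4 : ε / (2 * (cs C + 1)) * cs C = (ε / 2) * (cs C / (cs C + 1)) := by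
      field_simp
    rw [h4]
    have h5 : cs C / (cs C + 1) ≤ 1 := by
      rw [div_le_one (by positivity)]
      linarith
    have h6 := mul_le_mul_of_nonneg_left h5 (half_pos hε).le
    linarith

end Pool.Agent.Lib.MP_aa9b81_an.Tv
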