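import Pool.Agent.Lib.MP_aa9b81_an.Tv.F4
import Pool.Agent.Lib.MP_aa9b81_an.Mg.G053

/-!
# Transversals, section F (Morita), part F5: the generators of `G × M` in `L²(G, ℓ²)`
-/

open scoped ENNReal Topology CompactlySupported
open Function Filter MeasureTheory

noncomputable section

set_option linter.unusedSectionVars false

namespace Pool.Agent.Lib.MP_aa9b81_an.Tv

open Cut Hs Cb

variable {G M B B' : Type} [Group G] [TopologicalSpace G] [IsTopologicalGroup G]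
  [LocallyCompactSpace G] [SecondCountableTopology G] [T2Space G] [MeasurableSpace G] [BorelSpace G]
  [Group M] [TopologicalSpace M] [IsTopologicalGroup M]
  [LocallyCompactSpace M] [SecondCountableTopology M] [T2Space M] [MeasurableSpace M] [BorelSpace M]
  [TopologicalSpace B] [T2Space B] [MulAction G B] [ContinuousSMul G B]
  [TopologicalSpace B'] [T2Space B'] [MulAction (G × M) B'] [ContinuousSMul (G × M) B']

/-- The matrix entries of a generator. PROOF: `gen_apply`, `opF`, `inner_opk` for the group `G × M` and the kernel `kat _ (e (b, 1))` (`FOK.kok`, `FOK_smul`, `exists_bound`); for `k = (a, u)`: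
`k⁻¹ • e (b, 1) = e (a⁻¹ • b, u⁻¹)` (`Slice.smul`), and `k⁻¹ * k' = (a⁻¹ * a', u⁻¹ * u')`; then `fubini4`. -/
theorem inner_gen {e : B × M ≃ₜ B'} (he : Slice G M e) (ψ : C_c(B' × (G × M), ℂ)) (i j : ℕ) (b : B)
    (r s : Rct G M) :
    (inner ℂ r.x ((gen ψ i j : FamG (G × M) ℕ B') (e (b, 1)) s.x) : ℂ) =
      (cc G M : ℂ) ^ 2 * ∫ a in r.A, ∫ a' in s.A, ∫ u in r.C, ∫ u' in s.C,
        (inner ℂ (bv r.l : L2 ℕ) (km e ψ i j (a⁻¹ • b, a⁻¹ * a') u u' (bv s.l)) : ℂ)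
        ∂mu M ∂mu M ∂mu G ∂mu G := by
  obtain ⟨C, N, hC, hN, h, hs⟩ := exists_bound ψ
  have hF := FOK_smul (f := ⇑ψ) ψ.continuous hC hN h hs i j
  have hk := hF.kok (e (b, 1))
  rw [Cb.gen_apply]
  unfold Rct.x opF
  rw [inner_opk hk]
  have hcont : Continuous fun q : (G × M) × (G × M) =>
      (inner ℂ (bv r.l : L2 ℕ) (kat (fun (b : B') (g : G × M) => ψ (b, g) • (Eu i j : BL ℕ))
        (e (b, 1)) q.1 q.2 (bv s.l)) : ℂ) :=
    continuous_const.inner (hk.cont (bv s.l))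
  have hbd : ∀ q : (G × M) × (G × M), ‖(inner ℂ (bv r.l : L2 ℕ)
      (kat (fun (b : B') (g : G × M) => ψ (b, g) • (Eu i j : BL ℕ))
        (e (b, 1)) q.1 q.2 (bv s.l)) : ℂ)‖ ≤ N := by
    intro q
    refine (norm_inner_le_norm _ _).trans ?_
    rw [norm_bv, one_mul]
    refine (ContinuousLinearMap.le_of_opNorm_le _ (hk.bdd q.1 q.2) _).trans ?_
    rw [norm_bv, mul_one]
  rw [fubini4 hcont hbd s.hA s.fA r.hA r.fA s.hC s.fC r.hC r.fC]
  have hcov : ∀ (a : G) (u : M), ((a, u) : G × M)⁻¹ • e (b, 1) = e (a⁻¹ • b, u⁻¹) := by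
    intro a u
    have h1 := he.smul a⁻¹ u⁻¹ b 1
    rw [mul_one] at h1
    exact h1.symm
  have hker : ∀ (a a' : G) (u u' : M),
      kat (fun (b : B') (g : G × M) => ψ (b, g) • (Eu i j : BL ℕ)) (e (b, 1)) (a, u) (a', u') =
        km e ψ i j (a⁻¹ • b, a⁻¹ * a') u u' := by
    intro a a' u u'
    show ψ (((a, u) : G × M)⁻¹ • e (b, 1), ((a, u) : G × M)⁻¹ * (a', u')) • (Eu i j : BL ℕ) =
      ψ (e (a⁻¹ • b, u⁻¹), (a⁻¹ * a', u⁻¹ * u')) • (Eu i j : BL ℕ)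
    rw [hcov]
    rfl
  simp only [hker]

/-- The matrix entries of `opF (kp e ψ i j) b`. PROOF: `opF`, `inner_opk` (`kp_fok`, `FOK.kok`); for all `a, a'`: `inner (WM M r.v) (kp _ _ (WM M s.v)) = cc * inner r.v (opk (km ..) s.v)`
and `inner_opk` for the group `M` (`km_kok`). -/
theorem inner_kp {e : B × M ≃ₜ B'} (ψ : C_c(B' × (G × M), ℂ)) (i j : ℕ) (b : B)
    (r s : Rct G M) :
    (inner ℂ r.y (opF (kp e ψ i j) b s.y) : ℂ) =
      (cc G M : ℂ) * ∫ a in r.A, ∫ a' in s.A, ∫ u in r.C, ∫ u' in s.C,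
        (inner ℂ (bv r.l : L2 ℕ) (km e ψ i j (a⁻¹ • b, a⁻¹ * a') u u' (bv s.l)) : ℂ)
        ∂mu M ∂mu M ∂mu G ∂mu G := by
  obtain ⟨C, N, hF⟩ := kp_fok e ψ i j
  obtain ⟨C', N', hM⟩ := km_kok e ψ i j
  have hk := hF.kok b
  unfold Rct.y opF
  rw [inner_opk hk]
  have h1 : ∀ a a' : G, (inner ℂ (WM M r.v) (kat (kp e ψ i j) b a a' (WM M s.v)) : ℂ) =
      (cc G M : ℂ) * ∫ u in r.C, ∫ u' in s.C,
        (inner ℂ (bv r.l : L2 ℕ) (km e ψ i j (a⁻¹ • b, a⁻¹ * a') u u' (bv s.l)) : ℂ)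
        ∂mu M ∂mu M := by
    intro a a'
    have h2 : kat (kp e ψ i j) b a a' (WM M s.v) =
        (cc G M : ℂ) • WM M (opk (km e ψ i j (a⁻¹ • b, a⁻¹ * a')) s.v) := by
      show (cc G M : ℂ) • WM M (opk (km e ψ i j (a⁻¹ • b, a⁻¹ * a'))
        ((WM M).symm (WM M s.v))) = _
      rw [LinearIsometryEquiv.symm_apply_apply]
    rw [h2, inner_smul_right, LinearIsometryEquiv.inner_map_map]
    congr 1
    exact inner_opk (hM _) s.hC s.fC r.hC r.fC _ _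
  simp only [h1]
  simp only [integral_const_mul]

/-- The generators in `L²(G, ℓ²)`. PROOF: `ext_total` for the families `Rct.y` (`total_y`): `y r = (√cc)⁻¹ • wi (x r)` (`wi_x`), so
`inner (y r) (wi (gen .. (wi.symm (y s)))) = cc⁻¹ * inner (x r) (gen .. (x s))`; `inner_gen`, `inner_kp`. -/
theorem wi_gen {e : B × M ≃ₜ B'} (he : Slice G M e) (ψ : C_c(B' × (G × M), ℂ)) (i j : ℕ) (b : B) :
    (wi G M : HG (G × M) ℕ →L[ℂ] HG G ℕ) ∘L (gen ψ i j : FamG (G × M) ℕ B') (e (b, 1)) ∘L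
      ((wi G M).symm : HG G ℕ →L[ℂ] HG (G × M) ℕ) = opF (kp e ψ i j) b := by
  refine ext_total (fun r s => ?_) (total_y G M) (total_y G M)
  have hc := cc_pos G M
  obtain ⟨q, hq⟩ : ∃ q : ℂ, q = ((√(cc G M) : ℝ) : ℂ) := ⟨_, rfl⟩
  have hq2 : q * q = (cc G M : ℂ) := by
    rw [hq, ← Complex.ofReal_mul, Real.mul_self_sqrt hc.le]
  have hq0 : q ≠ 0 := by
    rw [hq]
    exact_mod_cast (Real.sqrt_pos.2 hc).ne'
  have hc0 : (cc G M : ℂ) ≠ 0 := by exact_mod_cast hc.ne'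
  have hqs : (starRingEnd ℂ) q⁻¹ = q⁻¹ := by
    rw [hq, ← Complex.ofReal_inv, Complex.conj_ofReal]
  have hy : ∀ r : Rct G M, r.y = q⁻¹ • wi G M r.x := by
    intro r
    rw [wi_x, ← hq, smul_smul, inv_mul_cancel₀ hq0, one_smul]
  have hsy : (wi G M).symm s.y = q⁻¹ • s.x := by
    rw [hy s, map_smul, LinearIsometryEquiv.symm_apply_apply]
  have h1 : ((wi G M : HG (G × M) ℕ →L[ℂ] HG G ℕ) ∘L (gen ψ i j : FamG (G × M) ℕ B') (e (b, 1)) ∘L
      ((wi G M).symm : HG G ℕ →L[ℂ] HG (G × M) ℕ)) s.y =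
      q⁻¹ • wi G M ((gen ψ i j : FamG (G × M) ℕ B') (e (b, 1)) s.x) := by
    show wi G M ((gen ψ i j : FamG (G × M) ℕ B') (e (b, 1)) ((wi G M).symm s.y)) = _
    rw [hsy, map_smul, map_smul]
  rw [h1, inner_kp, inner_smul_right]
  conv_lhs => rw [hy r]
  rw [inner_smul_left, hqs, LinearIsometryEquiv.inner_map_map, inner_gen he]
  rw [← mul_assoc, ← mul_assoc]
  congr 1
  rw [← hq2]
  field_simp

end Pool.Agent.Lib.MP_aa9b81_an.Tv
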