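import Pool.Agent.Lib.MP_aa9b81_an.Tv.F3
import Pool.Agent.Lib.MP_aa9b81_an.Tv.F4b
import Pool.Agent.Lib.MP_aa9b81_an.Tv.F5

/-!
# Transversals, section F (Morita), part F6: the isomorphism of the crossed products
-/

open scoped ENNReal Topology CompactlySupported
open Function Filter MeasureTheory

noncomputable section

set_option linter.unusedSectionVars false

namespace Pool.Agent.Lib.MP_aa9b81_an.Tv

open Cut Hs Cb

variable {G M B B' Z Z' : Type} [Group G] [TopologicalSpace G] [IsTopologicalGroup G]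
  [LocallyCompactSpace G] [SecondCountableTopology G] [T2Space G] [MeasurableSpace G] [BorelSpace G]
  [Group M] [TopologicalSpace M] [IsTopologicalGroup M]
  [LocallyCompactSpace M] [SecondCountableTopology M] [T2Space M] [MeasurableSpace M] [BorelSpace M]
  [TopologicalSpace B] [T2Space B] [MulAction G B] [ContinuousSMul G B]
  [TopologicalSpace B'] [T2Space B'] [MulAction (G × M) B'] [ContinuousSMul (G × M) B']
  [TopologicalSpace Z] [T2Space Z] [MulAction G Z] [ContinuousSMul G Z]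
  [TopologicalSpace Z'] [T2Space Z'] [MulAction (G × M) Z'] [ContinuousSMul (G × M) Z']

/-- Conjugation with the unitary operator does not change the norm bound. -/
theorem norm_wi_conj_le (T : HG (G × M) ℕ →L[ℂ] HG (G × M) ℕ) :
    ‖(wi G M : HG (G × M) ℕ →L[ℂ] HG G ℕ) ∘L T ∘L
      ((wi G M).symm : HG G ℕ →L[ℂ] HG (G × M) ℕ)‖ ≤ ‖T‖ := by
  refine ContinuousLinearMap.opNorm_le_bound _ (norm_nonneg _) fun ξ => ?_
  have h1 : ‖wi G M (T ((wi G M).symm ξ))‖ = ‖T ((wi G M).symm ξ)‖ :=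
    (wi G M).norm_map _
  have h2 : ‖(wi G M).symm ξ‖ = ‖ξ‖ := (wi G M).symm.norm_map ξ
  have h3 : ‖T ((wi G M).symm ξ)‖ ≤ ‖T‖ * ‖(wi G M).symm ξ‖ := T.le_opNorm _
  rw [h2] at h3
  exact h1.le.trans h3

/-- PROOF: apply `norm_wi_conj_le`-like estimate in the other direction. -/
theorem norm_wi_conj (T : HG (G × M) ℕ →L[ℂ] HG (G × M) ℕ) :
    ‖(wi G M : HG (G × M) ℕ →L[ℂ] HG G ℕ) ∘L T ∘L
      ((wi G M).symm : HG G ℕ →L[ℂ] HG (G × M) ℕ)‖ = ‖T‖ := by
  refine le_antisymm (norm_wi_conj_le T)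
    (ContinuousLinearMap.opNorm_le_bound _ (norm_nonneg _) fun ξ => ?_)
  have h0 : ((wi G M : HG (G × M) ℕ →L[ℂ] HG G ℕ) ∘L T ∘L
      ((wi G M).symm : HG G ℕ →L[ℂ] HG (G × M) ℕ)) (wi G M ξ) = wi G M (T ξ) := by
    change wi G M (T ((wi G M).symm (wi G M ξ))) = wi G M (T ξ)
    rw [LinearIsometryEquiv.symm_apply_apply]
  have h1 : ‖wi G M (T ξ)‖ = ‖T ξ‖ := (wi G M).norm_map _
  have h2 : ‖wi G M ξ‖ = ‖ξ‖ := (wi G M).norm_map ξ
  have h3 := ContinuousLinearMap.le_opNorm ((wi G M : HG (G × M) ℕ →L[ℂ] HG G ℕ) ∘L T ∘L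
      ((wi G M).symm : HG G ℕ →L[ℂ] HG (G × M) ℕ)) (wi G M ξ)
  rw [h0, h1, h2] at h3
  exact h3

/-- Restriction of a family to the slice, as a family of operators on `L²(G, ℓ²)`. -/
def Phi (e : B × M ≃ₜ B') : FamG (G × M) ℕ B' →+* FamG G ℕ B where
  toFun x := FamG.mk (fun b => (wi G M : HG (G × M) ℕ →L[ℂ] HG G ℕ) ∘L x (e (b, 1)) ∘L
    ((wi G M).symm : HG G ℕ →L[ℂ] HG (G × M) ℕ)) ‖x‖
    (fun b => (norm_wi_conj_le _).trans (x.norm_apply_le _))
  map_one' := by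
    refine FamG.ext fun b => ContinuousLinearMap.ext fun ξ => ?_
    change wi G M ((wi G M).symm ξ) = ξ
    exact (wi G M).apply_symm_apply ξ
  map_mul' x y := by
    refine FamG.ext fun b => ContinuousLinearMap.ext fun ξ => ?_
    change wi G M (x (e (b, 1)) (y (e (b, 1)) ((wi G M).symm ξ))) =
      wi G M (x (e (b, 1)) ((wi G M).symm (wi G M (y (e (b, 1)) ((wi G M).symm ξ)))))
    rw [LinearIsometryEquiv.symm_apply_apply]
  map_zero' := by
    refine FamG.ext fun b => ContinuousLinearMap.ext fun ξ => ?_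
    change wi G M (0 : HG (G × M) ℕ) = 0
    exact map_zero _
  map_add' x y := by
    refine FamG.ext fun b => ContinuousLinearMap.ext fun ξ => ?_
    change wi G M (x (e (b, 1)) ((wi G M).symm ξ) + y (e (b, 1)) ((wi G M).symm ξ)) =
      wi G M (x (e (b, 1)) ((wi G M).symm ξ)) + wi G M (y (e (b, 1)) ((wi G M).symm ξ))
    exact map_add _ _ _

theorem Phi_apply (e : B × M ≃ₜ B') (x : FamG (G × M) ℕ B') (b : B) :
    (Phi e x : FamG G ℕ B) b = (wi G M : HG (G × M) ℕ →L[ℂ] HG G ℕ) ∘L x (e (b, 1)) ∘L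
      ((wi G M).symm : HG G ℕ →L[ℂ] HG (G × M) ℕ) := rfl

/-- Naturality. -/
theorem Phi_pullG {e : B × M ≃ₜ B'} {f : Z × M ≃ₜ Z'} {p : Z → B} {p' : Z' → B'}
    (h : ∀ z m, p' (f (z, m)) = e (p z, m)) (x : FamG (G × M) ℕ B') :
    (Phi f (pullG p' x) : FamG G ℕ Z) = pullG p (Phi e x) := by
  refine FamG.ext fun z => ?_
  rw [pullG_apply, Phi_apply, Phi_apply, pullG_apply, h z 1]

/-- PROOF: `FamG.ext`, `Phi_apply`, `wi_gen`, `fam_apply` (`norm_opF_le`, `kp_fok`). -/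
theorem Phi_gen {e : B × M ≃ₜ B'} (he : Slice G M e) (ψ : C_c(B' × (G × M), ℂ)) (i j : ℕ) :
    (Phi e (gen ψ i j) : FamG G ℕ B) = fam (opF (kp e ψ i j)) := by
  obtain ⟨C, N, hκ⟩ := kp_fok e ψ i j
  refine FamG.ext fun b => ?_
  rw [fam_apply (norm_opF_le hκ) b, Phi_apply, wi_gen he ψ i j b]

/-- The restriction to the slice does not increase the norm. -/
theorem F6_norm_Phi_le (e : B × M ≃ₜ B') (x : FamG (G × M) ℕ B') :
    ‖(Phi e x : FamG G ℕ B)‖ ≤ ‖x‖ := by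
  refine (FamG.norm_le_iff (norm_nonneg x)).2 fun b => ?_
  rw [Phi_apply, norm_wi_conj]
  exact x.norm_apply_le _

theorem F6_continuous_Phi (e : B × M ≃ₜ B') :
    Continuous (Phi e : FamG (G × M) ℕ B' →+* FamG G ℕ B) :=
  AddMonoidHomClass.continuous_of_bound (Phi e : FamG (G × M) ℕ B' →+* FamG G ℕ B) 1
    (fun x => by simpa using F6_norm_Phi_le e x)

/-- PROOF: `norm_wi_conj`; every point of `B'` is `(1, m) • e (b, 1)` (`Slice.smul`), so by `norm_smul_apply` the norm of `x` is the supremum over the slice: `FamG.norm_le_iff` in both directions. -/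
theorem norm_Phi {e : B × M ≃ₜ B'} (he : Slice G M e) {x : FamG (G × M) ℕ B'}
    (hx : x ∈ cpG (G × M) ℕ B') : ‖(Phi e x : FamG G ℕ B)‖ = ‖x‖ := by
  refine le_antisymm (F6_norm_Phi_le e x) ((FamG.norm_le_iff (norm_nonneg _)).2 fun b' => ?_)
  obtain ⟨⟨b, m⟩, rfl⟩ := e.surjective b'
  have h1 : e (b, m) = ((1 : G), m) • e (b, 1) := by
    rw [← he.smul, one_smul, mul_one]
  rw [h1, norm_smul_apply hx, ← norm_wi_conj, ← Phi_apply]
  exact FamG.norm_apply_le _ b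

/-- PROOF: `cpG_induction`, `Phi_gen`, `kp_mem`; `Phi` is continuous (`‖Phi e x‖ ≤ ‖x‖`). -/
theorem Phi_mem {e : B × M ≃ₜ B'} (he : Slice G M e) {x : FamG (G × M) ℕ B'}
    (hx : x ∈ cpG (G × M) ℕ B') : (Phi e x : FamG G ℕ B) ∈ cpG G ℕ B := by
  refine cpG_induction (p := fun y : FamG (G × M) ℕ B' => (Phi e y : FamG G ℕ B) ∈ cpG G ℕ B)
    ?_ ?_ ?_ ?_ x hx
  · exact (isClosed_cpG (G := G) (J := ℕ) (B := B)).preimage (F6_continuous_Phi e)
  · rw [map_zero]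
    exact zero_mem _
  · intro y z hy hz
    rw [map_add]
    exact add_mem hy hz
  · intro ψ i j
    rw [Phi_gen he]
    exact kp_mem e ψ i j

end Pool.Agent.Lib.MP_aa9b81_an.Tv
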