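import Pool.Agent.Lib.MP_aa9b81_an.Tv.F4

/-!
# Transversals, section F (Morita), part F7: product functions
-/

open scoped ENNReal Topology CompactlySupported
open Function Filter MeasureTheory

noncomputable section

set_option linter.unusedSectionVars false

namespace Pool.Agent.Lib.MP_aa9b81_an.Tv

open Cut Hs Cb

variable {G M B B' Z Z' : Type} [Group G] [TopologicalSpace G] [IsTopologicalGroup G]
  [LocallyCompactSpace G] [SecondCountableTopology G] [T2Space G] [MeasurableSpace G] [BorelSpace G]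
  [Group M] [TopologicalSpace M] [IsTopologicalGroup M]
  [LocallyCompactSpace M] [SecondCountableTopology M] [T2Space M] [MeasurableSpace M] [BorelSpace M]
  [TopologicalSpace B] [T2Space B] [MulAction G B] [ContinuousSMul G B]
  [TopologicalSpace B'] [T2Space B'] [MulAction (G × M) B'] [ContinuousSMul (G × M) B']
  [TopologicalSpace Z] [T2Space Z] [MulAction G Z] [ContinuousSMul G Z]
  [TopologicalSpace Z'] [T2Space Z'] [MulAction (G × M) Z'] [ContinuousSMul (G × M) Z']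

/-- The compactly supported function with `ψ (e (b, u⁻¹), (g, v)) = φ (b, g) α(u) conj β(u v)`.
PROOF: `ψ (b', (g, v)) = φ ((e.symm b').1, g) α(m⁻¹) conj β(m⁻¹ v)`, `m = (e.symm b').2`; continuous; the support is contained in the image of
`K_B × K_G × supp α × supp β`. -/
theorem exists_psi (e : B × M ≃ₜ B') (φ : C_c(B × G, ℂ)) (α β : C_c(M, ℂ)) :
    ∃ ψ : C_c(B' × (G × M), ℂ), ∀ p u u', sk e ψ p u u' = φ p * α u * (starRingEnd ℂ) (β u') := by
  let f : B' × (G × M) → ℂ := fun q => φ ((e.symm q.1).1, q.2.1) * α ((e.symm q.1).2⁻¹) *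
    (starRingEnd ℂ) (β ((e.symm q.1).2⁻¹ * q.2.2))
  have he : Continuous fun q : B' × (G × M) => e.symm q.1 := e.symm.continuous.comp continuous_fst
  have hc : Continuous f := by
    refine ((φ.continuous.comp (he.fst.prodMk (continuous_fst.comp continuous_snd))).mul
      (α.continuous.comp he.snd.inv)).mul ?_
    exact Complex.continuous_conj.comp
      (β.continuous.comp (he.snd.inv.mul (continuous_snd.comp continuous_snd)))
  let T : (B × G) × (M × M) → B' × (G × M) := fun q =>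
    (e (q.1.1, q.2.1⁻¹), (q.1.2, q.2.1⁻¹ * q.2.2))
  have hT : Continuous T := by
    refine (e.continuous.comp (continuous_fst.fst.prodMk continuous_snd.fst.inv)).prodMk
      (continuous_fst.snd.prodMk (continuous_snd.fst.inv.mul continuous_snd.snd))
  have hK : IsCompact (T '' (tsupport φ ×ˢ (tsupport α ×ˢ tsupport β))) :=
    (φ.hasCompactSupport.isCompact.prod
      (α.hasCompactSupport.isCompact.prod β.hasCompactSupport.isCompact)).image hT
  have hs : HasCompactSupport f := by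
    refine HasCompactSupport.intro hK fun q hq => ?_
    by_contra h0
    apply hq
    have h1 : φ ((e.symm q.1).1, q.2.1) ≠ 0 := fun h => h0 (by
      show φ _ * α _ * _ = 0
      rw [h, zero_mul, zero_mul])
    have h2 : α ((e.symm q.1).2⁻¹) ≠ 0 := fun h => h0 (by
      show φ _ * α _ * _ = 0
      rw [h, mul_zero, zero_mul])
    have h3 : β ((e.symm q.1).2⁻¹ * q.2.2) ≠ 0 := fun h => h0 (by
      show φ _ * α _ * (starRingEnd ℂ) (β _) = 0
      rw [h, map_zero, mul_zero])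
    refine ⟨(((e.symm q.1).1, q.2.1), ((e.symm q.1).2⁻¹, (e.symm q.1).2⁻¹ * q.2.2)),
      ⟨subset_tsupport _ h1, subset_tsupport _ h2, subset_tsupport _ h3⟩, ?_⟩
    refine Prod.ext ?_ (Prod.ext rfl ?_)
    · show e ((e.symm q.1).1, ((e.symm q.1).2⁻¹)⁻¹) = q.1
      rw [inv_inv]
      exact e.apply_symm_apply q.1
    · show ((e.symm q.1).2⁻¹)⁻¹ * ((e.symm q.1).2⁻¹ * q.2.2) = q.2.2
      rw [inv_inv, mul_inv_cancel_left]
  refine ⟨⟨⟨f, hc⟩, hs⟩, fun p u u' => ?_⟩
  show φ ((e.symm (e (p.1, u⁻¹))).1, p.2) * α ((e.symm (e (p.1, u⁻¹))).2⁻¹) *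
    (starRingEnd ℂ) (β ((e.symm (e (p.1, u⁻¹))).2⁻¹ * (u⁻¹ * u'))) = _
  rw [e.symm_apply_apply, inv_inv, mul_inv_cancel_left]

/-- The vector `α ⊗ e_i` of `L²(M, ℓ²)`. PROOF: `Continuous.memLp_of_hasCompactSupport`. -/
theorem exists_vec (α : C_c(M, ℂ)) (i : ℕ) : ∃ ξ : HG M ℕ,
    (ξ : M → L2 ℕ) =ᵐ[mu M] fun u => α u • (bv i : L2 ℕ) := by
  have hc : Continuous fun u => α u • (bv i : L2 ℕ) := α.continuous.smul continuous_const
  have hs : HasCompactSupport fun u => α u • (bv i : L2 ℕ) := by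
    refine HasCompactSupport.intro α.hasCompactSupport.isCompact fun u hu => ?_
    rw [image_eq_zero_of_notMem_tsupport hu, zero_smul]
  have hm : MemLp (fun u => α u • (bv i : L2 ℕ)) 2 (mu M) := hc.memLp_of_hasCompactSupport hs
  exact ⟨hm.toLp _, hm.coeFn_toLp⟩

/-- The vector `α ⊗ e_i`. -/
def vec (q : C_c(M, ℂ) × ℕ) : HG M ℕ := (exists_vec q.1 q.2).choose

theorem vec_ae (q : C_c(M, ℂ) × ℕ) :
    (vec q : M → L2 ℕ) =ᵐ[mu M] fun u => q.1 u • (bv q.2 : L2 ℕ) :=
  (exists_vec q.1 q.2).choose_spec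

/-- PROOF: the closure of the span contains `1_C ⊗ e_l` (approximate `indicatorConstLp 2 _ _ (1 : ℂ)` in `L²(M, ℂ)` by continuous functions with compact support,
`MemLp.exists_hasCompactSupport_eLpNorm_sub_le`); `total_v`. -/
theorem total_vec : (Submodule.span ℂ (Set.range (vec : C_c(M, ℂ) × ℕ → HG M ℕ))).topologicalClosure
    = ⊤ := by
  have key : ∀ r : Rct M M, (Rct.v r : HG M ℕ) ∈
      (Submodule.span ℂ (Set.range (vec : C_c(M, ℂ) × ℕ → HG M ℕ))).topologicalClosure := by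
    intro r
    change _ ∈ closure ((Submodule.span ℂ (Set.range (vec : C_c(M, ℂ) × ℕ → HG M ℕ))) :
      Set (HG M ℕ))
    rw [Metric.mem_closure_iff]
    intro ε hε
    have hf : MemLp (r.C.indicator fun _ => (1 : ℂ)) 2 (mu M) :=
      memLp_indicator_const 2 r.hC 1 (Or.inr r.fC)
    have hε' : ENNReal.ofReal (ε / 2) ≠ 0 := by
      rw [Ne, ENNReal.ofReal_eq_zero]
      linarith
    obtain ⟨g, hg1, hg2, hg3, hg4⟩ :=
      hf.exists_hasCompactSupport_eLpNorm_sub_le (by norm_num) hε'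
    let α : C_c(M, ℂ) := ⟨⟨g, hg3⟩, hg1⟩
    refine ⟨vec (α, r.l), Submodule.subset_span ⟨(α, r.l), rfl⟩, ?_⟩
    rw [dist_eq_norm, Lp.norm_def]
    have hae : ((Rct.v r - vec (α, r.l) : HG M ℕ) : M → L2 ℕ) =ᵐ[mu M]
        fun u => ((r.C.indicator (fun _ => (1 : ℂ)) - g) u) • (bv r.l : L2 ℕ) := by
      have h1 : (Rct.v r : M → L2 ℕ) =ᵐ[mu M] r.C.indicator fun _ => (bv r.l : L2 ℕ) :=
        indicatorConstLp_coeFn
      filter_upwards [Lp.coeFn_sub (Rct.v r) (vec (α, r.l)), h1, vec_ae (α, r.l)] with u h2 h3 h4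
      rw [h2, Pi.sub_apply, h3, h4, Pi.sub_apply, sub_smul]
      congr 1
      by_cases hu : u ∈ r.C
      · rw [Set.indicator_of_mem hu, Set.indicator_of_mem hu, one_smul]
      · rw [Set.indicator_of_notMem hu, Set.indicator_of_notMem hu, zero_smul]
    rw [eLpNorm_congr_ae hae]
    have h5 : eLpNorm (fun u => ((r.C.indicator (fun _ => (1 : ℂ)) - g) u) • (bv r.l : L2 ℕ)) 2 (mu M)
        = eLpNorm (r.C.indicator (fun _ => (1 : ℂ)) - g) 2 (mu M) := by
      apply eLpNorm_congr_norm_ae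
      filter_upwards with u
      rw [norm_smul, norm_bv, mul_one]
    rw [h5]
    calc (eLpNorm (r.C.indicator (fun _ => (1 : ℂ)) - g) 2 (mu M)).toReal
        ≤ (ENNReal.ofReal (ε / 2)).toReal := ENNReal.toReal_mono ENNReal.ofReal_ne_top hg2
      _ = ε / 2 := ENNReal.toReal_ofReal (by linarith)
      _ < ε := by linarith
  rw [eq_top_iff, ← total_v (G := M) (M := M)]
  refine Submodule.topologicalClosure_minimal _ ?_ (Submodule.isClosed_topologicalClosure _)
  rw [Submodule.span_le]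
  rintro _ ⟨r, rfl⟩
  exact key r

/-- PROOF: for the `ψ` of `exists_psi`, `(opk (km e ψ i j p) ξ)(u) = φ p • α u • (∫ conj β(u') (ξ u')_j) • bv i`, so `opk (km e ψ i j p) = φ p • rk1 (vec (α, i)) (vec (β, j))`; `conj_rk1`. -/
theorem kp_psi {e : B × M ≃ₜ B'} {φ : C_c(B × G, ℂ)} {α β : C_c(M, ℂ)}
    {ψ : C_c(B' × (G × M), ℂ)} (h : ∀ p u u', sk e ψ p u u' = φ p * α u * (starRingEnd ℂ) (β u'))
    (i j : ℕ) (b : B) (g : G) :
    kp e ψ i j b g = (cc G M : ℂ) • φ (b, g) • rk1 (WM M (vec (α, i))) (WM M (vec (β, j))) := by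
  have hop : (opk (km e ψ i j (b, g)) : HG M ℕ →L[ℂ] HG M ℕ) =
      φ (b, g) • rk1 (vec (α, i)) (vec (β, j)) := by
    obtain ⟨C, N, hk⟩ := km_kok e ψ i j
    refine ext_ae fun ξ => ?_
    have hin : (inner ℂ (vec (β, j)) ξ : ℂ) =
        ∫ u', (starRingEnd ℂ) (β u') * inner ℂ (bv j : L2 ℕ) (ξ u') ∂mu M := by
      rw [L2.inner_def]
      apply integral_congr_ae
      filter_upwards [vec_ae (β, j)] with u' h1
      rw [h1, inner_smul_left]
    have hr : (((φ (b, g) • rk1 (vec (α, i)) (vec (β, j)) : HG M ℕ →L[ℂ] HG M ℕ) ξ : HG M ℕ) :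
        M → L2 ℕ) =ᵐ[mu M] fun u => (φ (b, g) * inner ℂ (vec (β, j)) ξ) • α u • (bv i : L2 ℕ) := by
      have h1 : ((φ (b, g) • rk1 (vec (α, i)) (vec (β, j)) : HG M ℕ →L[ℂ] HG M ℕ) ξ : HG M ℕ) =
          (φ (b, g) * inner ℂ (vec (β, j)) ξ) • vec (α, i) := by
        rw [ContinuousLinearMap.smul_apply, rk1_apply, smul_smul]
      rw [h1]
      filter_upwards [Lp.coeFn_smul (φ (b, g) * inner ℂ (vec (β, j)) ξ) (vec (α, i)),
        vec_ae (α, i)] with u h2 h3
      rw [h2, Pi.smul_apply, h3]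
    refine (opk_ae (hk (b, g)) ξ).trans (EventuallyEq.trans ?_ hr.symm)
    filter_upwards with u
    have h2 : ∀ u', km e ψ i j (b, g) u u' (ξ u') = (φ (b, g) * α u) •
        (((starRingEnd ℂ) (β u') * inner ℂ (bv j : L2 ℕ) (ξ u')) • (bv i : L2 ℕ)) := by
      intro u'
      rw [km, h, ContinuousLinearMap.smul_apply, Eu_eq_rk1, rk1_apply, mul_smul, mul_smul,
        smul_smul ((starRingEnd ℂ) (β u')), ← mul_smul]
    simp only [h2]
    rw [integral_smul, integral_smul_const, hin, smul_smul, smul_smul]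
    congr 1
    ring
  rw [kp, hop, ContinuousLinearMap.smul_comp, ContinuousLinearMap.comp_smul, conj_rk1]

end Pool.Agent.Lib.MP_aa9b81_an.Tv
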