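import Pool.Agent.Lib.MP_aa9b81_an.Tv.F0
import Pool.Agent.Lib.MP_aa9b81_an.Tv.F6
import Pool.Agent.Lib.MP_aa9b81_an.Tv.F7

/-!
# Transversals, section F (Morita), part F8: the map is onto
-/

open scoped ENNReal Topology CompactlySupported
open Function Filter MeasureTheory

noncomputable section

set_option linter.unusedSectionVars false

namespace Pool.Agent.Lib.MP_aa9b81_an.Tv

open Cut Hs Cb

variable {G M B B' Z Z' : Type} [Group G] [TopologicalSpace G] [IsTopologicalGroup G]
  [LocallyCompactSpace G] [SecondCountableTopology G] [T2Space G] [MeasurableSpace G] [BorelSpace G]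
  [Group M] [TopologicalSpace M] [IsTopologicalGroup M]
  [LocallyCompactSpace M] [SecondCountableTopology M] [T2Space M] [MeasurableSpace M] [BorelSpace M]
  [TopologicalSpace B] [T2Space B] [MulAction G B] [ContinuousSMul G B]
  [TopologicalSpace B'] [T2Space B'] [MulAction (G × M) B'] [ContinuousSMul (G × M) B']
  [TopologicalSpace Z] [T2Space Z] [MulAction G Z] [ContinuousSMul G Z]
  [TopologicalSpace Z'] [T2Space Z'] [MulAction (G × M) Z'] [ContinuousSMul (G × M) Z']

/-- `Phi e` commutes with scalars. -/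
theorem F8_smul (e : B × M ≃ₜ B') (c : ℂ) (x : FamG (G × M) ℕ B') :
    (Phi e (c • x) : FamG G ℕ B) = c • Phi e x := by
  refine FamG.ext fun b => ?_
  rw [Phi_apply, FamG.smul_apply, FamG.smul_apply, Phi_apply, ContinuousLinearMap.smul_comp,
    ContinuousLinearMap.comp_smul]

/-- The image of `cpG` under `Phi e`, as a linear subspace. -/
def F8_im (G : Type) [Group G] [TopologicalSpace G] [IsTopologicalGroup G]
    [LocallyCompactSpace G] [SecondCountableTopology G] [T2Space G] [MeasurableSpace G]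
    [BorelSpace G] [MulAction G B] [ContinuousSMul G B] [MulAction (G × M) B']
    [ContinuousSMul (G × M) B'] (e : B × M ≃ₜ B') : Submodule ℂ (FamG G ℕ B) where
  carrier := Phi e '' (cpG (G × M) ℕ B' : Set (FamG (G × M) ℕ B'))
  add_mem' := by
    rintro _ _ ⟨x, hx, rfl⟩ ⟨y, hy, rfl⟩
    exact ⟨x + y, add_mem hx hy, map_add _ _ _⟩
  zero_mem' := ⟨0, zero_mem _, map_zero _⟩
  smul_mem' := by
    rintro c _ ⟨x, hx, rfl⟩
    exact ⟨c • x, SMulMemClass.smul_mem c hx, F8_smul e c x⟩

theorem F8_closed {e : B × M ≃ₜ B'} (he : Slice G M e) :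
    IsClosed ((F8_im G e : Submodule ℂ (FamG G ℕ B)) : Set (FamG G ℕ B)) :=
  isClosed_image_of_norm isClosed_cpG fun _ hx => norm_Phi he hx

theorem F8_fok (φ : C_c(B × G, ℂ)) : ∃ (C : Set G) (N : ℝ), 0 ≤ N ∧ ∀ T : BL ℕ,
    FOK C (N * ‖T‖) fun b g => φ (b, g) • T := by
  obtain ⟨C, N, hC, hN, h, hs⟩ := exists_bound φ
  refine ⟨C, N, hN, fun T => ⟨hC, mul_nonneg hN (norm_nonneg _), fun v => ?_, fun b g => ?_,
    fun b g hg => ?_⟩⟩
  · exact φ.continuous.smul continuous_const
  · rw [norm_smul]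
    exact mul_le_mul_of_nonneg_right (h (b, g)) (norm_nonneg _)
  · rw [hs b g hg, zero_smul]

/-- `T ↦ φ ⊗ T` is linear and continuous. -/
theorem F8_exists_L (φ : C_c(B × G, ℂ)) : ∃ L : BL ℕ →L[ℂ] FamG G ℕ B,
    ∀ T : BL ℕ, L T = fam (opF fun (b : B) (g : G) => φ (b, g) • T) := by
  obtain ⟨C, N, hN, h⟩ := F8_fok φ
  have ha : ∀ (T : BL ℕ) (b : B), (fam (opF fun (b : B) (g : G) => φ (b, g) • T) : FamG G ℕ B) b =
      opF (fun (b : B) (g : G) => φ (b, g) • T) b := fun T b =>
    fam_apply (fun b => norm_opF_le (h T) b) b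
  refine ⟨LinearMap.mkContinuous
    { toFun := fun T => fam (opF fun (b : B) (g : G) => φ (b, g) • T)
      map_add' := fun T T' => FamG.ext fun b => ?_
      map_smul' := fun c T => FamG.ext fun b => ?_ } (N * cs C) fun T => ?_, fun T => rfl⟩
  · rw [FamG.add_apply, ha, ha, ha, ← opF_add (h T) (h T')]
    simp only [smul_add]
  · rw [RingHom.id_apply, FamG.smul_apply, ha, ha, ← opF_smul (h T)]
    congr 1
    funext b g
    rw [smul_comm]
  · have h1 : 0 ≤ N * ‖T‖ * cs C :=
      mul_nonneg (mul_nonneg hN (norm_nonneg T)) (Real.sqrt_nonneg _)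
    refine (norm_fam_le h1 fun b => norm_opF_le (h T) b).trans (le_of_eq ?_)
    exact mul_right_comm _ _ _

/-- A closed linear subspace which contains all `vec q` is everything. -/
theorem F8_total {S : Submodule ℂ (HG M ℕ)} (hS : IsClosed (S : Set (HG M ℕ)))
    (h : ∀ q, vec q ∈ S) (ξ : HG M ℕ) : ξ ∈ S := by
  have h1 : Submodule.span ℂ (Set.range (vec : C_c(M, ℂ) × ℕ → HG M ℕ)) ≤ S :=
    Submodule.span_le.2 (by
      rintro _ ⟨q, rfl⟩
      exact h q)
  have h2 := Submodule.topologicalClosure_minimal _ h1 hS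
  rw [total_vec] at h2
  exact h2 trivial

/-- A closed linear subspace of the operators which contains the operators
`rk1 (WM M (vec q)) (WM M (vec q'))` contains all operators `rk1 x y`. -/
theorem F8_rk1 {S : Submodule ℂ (BL ℕ)} (hS : IsClosed (S : Set (BL ℕ)))
    (h : ∀ q q' : C_c(M, ℂ) × ℕ, (rk1 (WM M (vec q)) (WM M (vec q')) : BL ℕ) ∈ S) (x y : L2 ℕ) :
    (rk1 x y : BL ℕ) ∈ S := by
  have h1 : ∀ (q' : C_c(M, ℂ) × ℕ) (ξ : HG M ℕ), (rk1 (WM M ξ) (WM M (vec q')) : BL ℕ) ∈ S := by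
    intro q' ξ
    let S' : Submodule ℂ (HG M ℕ) :=
      { carrier := {ξ | (rk1 (WM M ξ) (WM M (vec q')) : BL ℕ) ∈ S}
        add_mem' := fun {a b} ha hb => by
          show (rk1 (WM M (a + b)) (WM M (vec q')) : BL ℕ) ∈ S
          rw [map_add, rk1_add_left]
          exact add_mem ha hb
        zero_mem' := by
          show (rk1 (WM M 0) (WM M (vec q')) : BL ℕ) ∈ S
          have h0 : (rk1 (WM M 0) (WM M (vec q')) : BL ℕ) = 0 := by
            refine ContinuousLinearMap.ext fun z => ?_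
            rw [rk1_apply, map_zero, smul_zero]
            rfl
          rw [h0]
          exact zero_mem _
        smul_mem' := fun c a ha => by
          show (rk1 (WM M (c • a)) (WM M (vec q')) : BL ℕ) ∈ S
          rw [map_smul, rk1_smul_left]
          exact S.smul_mem c ha }
    have hc : Continuous fun ξ : HG M ℕ => (rk1 (WM M ξ) (WM M (vec q')) : BL ℕ) := by
      have hL : LipschitzWith ⟨‖WM M (vec q')‖, norm_nonneg _⟩
          fun ξ : HG M ℕ => (rk1 (WM M ξ) (WM M (vec q')) : BL ℕ) := by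
        refine LipschitzWith.of_dist_le_mul fun a b => ?_
        rw [dist_eq_norm, ← rk1_sub_left, ← map_sub, dist_eq_norm]
        refine (norm_rk1_le _ _).trans ?_
        rw [LinearIsometryEquiv.norm_map, mul_comm]
        exact le_refl _
      exact hL.continuous
    exact F8_total (S := S') (hS.preimage hc) (fun q => h q q') ξ
  have h2 : ∀ ξ η : HG M ℕ, (rk1 (WM M ξ) (WM M η) : BL ℕ) ∈ S := by
    intro ξ η
    let S' : Submodule ℂ (HG M ℕ) :=
      { carrier := {η | (rk1 (WM M ξ) (WM M η) : BL ℕ) ∈ S}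
        add_mem' := fun {a b} ha hb => by
          show (rk1 (WM M ξ) (WM M (a + b)) : BL ℕ) ∈ S
          rw [map_add, rk1_add_right]
          exact add_mem ha hb
        zero_mem' := by
          show (rk1 (WM M ξ) (WM M 0) : BL ℕ) ∈ S
          have h0 : (rk1 (WM M ξ) (WM M 0) : BL ℕ) = 0 := by
            refine ContinuousLinearMap.ext fun z => ?_
            rw [rk1_apply, map_zero, inner_zero_left, zero_smul]
            rfl
          rw [h0]
          exact zero_mem _
        smul_mem' := fun c a ha => by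
          show (rk1 (WM M ξ) (WM M (c • a)) : BL ℕ) ∈ S
          rw [map_smul, rk1_smul_right]
          exact S.smul_mem _ ha }
    have hc : Continuous fun η : HG M ℕ => (rk1 (WM M ξ) (WM M η) : BL ℕ) := by
      have hL : LipschitzWith ⟨‖WM M ξ‖, norm_nonneg _⟩
          fun η : HG M ℕ => (rk1 (WM M ξ) (WM M η) : BL ℕ) := by
        refine LipschitzWith.of_dist_le_mul fun a b => ?_
        rw [dist_eq_norm, ← rk1_sub_right, ← map_sub, dist_eq_norm]
        refine (norm_rk1_le _ _).trans ?_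
        rw [LinearIsometryEquiv.norm_map (WM M) (a - b)]
        exact le_refl _
      exact hL.continuous
    exact F8_total (S := S') (hS.preimage hc) (fun q => h1 q ξ) η
  have h3 := h2 ((WM M).symm x) ((WM M).symm y)
  rwa [LinearIsometryEquiv.apply_symm_apply, LinearIsometryEquiv.apply_symm_apply] at h3

/-- PROOF: the image `I` of `cpG` under `Phi e` is closed (`isClosed_image_of_norm`, `norm_Phi`) and a linear subspace (`Phi e` commutes with scalars: use `Phi_gen`, or prove `Phi e (c • x) = c • Phi e x`).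
The set of the `(x, y)` with `fam (opF fun b g => φ (b, g) • rk1 x y) ∈ I` contains the `(WM M (vec q), WM M (vec q'))` (`kp_psi`), is closed and linear in `x` for fixed `y`, and in `y` for fixed `x`
(`‖fam (opF fun b g => φ (b, g) • T)‖ ≤ N cs C ‖T‖`), so by `total_vec` it is everything. `Eu_eq_rk1`. -/
theorem gen_mem_image {e : B × M ≃ₜ B'} (he : Slice G M e) (φ : C_c(B × G, ℂ)) (k l : ℕ) :
    ∃ x ∈ cpG (G × M) ℕ B', (Phi e x : FamG G ℕ B) = gen φ k l := by
  obtain ⟨L, hL⟩ := F8_exists_L (G := G) φ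
  have hS : IsClosed (((F8_im G e).comap (L : BL ℕ →ₗ[ℂ] FamG G ℕ B) : Submodule ℂ (BL ℕ)) :
      Set (BL ℕ)) := (F8_closed he).preimage L.continuous
  have hcc : (cc G M : ℂ) ≠ 0 := by exact_mod_cast (cc_pos (G := G) (M := M)).ne'
  have hm : (rk1 (bv k) (bv l) : BL ℕ) ∈
      (F8_im G e).comap (L : BL ℕ →ₗ[ℂ] FamG G ℕ B) := by
    refine F8_rk1 (M := M) hS (fun q q' => ?_) _ _
    obtain ⟨ψ, hψ⟩ := exists_psi e φ q.1 q'.1
    have h1 : (Phi e (gen ψ q.2 q'.2) : FamG G ℕ B) =
        L ((cc G M : ℂ) • rk1 (WM M (vec q)) (WM M (vec q'))) := by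
      rw [Phi_gen he, hL]
      congr 1
      congr 1
      funext b g
      rw [kp_psi hψ, smul_comm]
    have h2 : (Phi e (gen ψ q.2 q'.2) : FamG G ℕ B) ∈ F8_im G e := ⟨_, gen_mem _ _ _, rfl⟩
    have h3 := (F8_im G e).smul_mem ((cc G M : ℂ)⁻¹) h2
    rw [h1, map_smul, smul_smul, inv_mul_cancel₀ hcc, one_smul] at h3
    exact h3
  obtain ⟨x, hx, hx'⟩ := hm
  refine ⟨x, hx, ?_⟩
  rw [hx']
  show L (rk1 (bv k) (bv l)) = _
  rw [hL, ← Eu_eq_rk1]
  rfl

/-- PROOF: `norm_Phi`, `Phi_mem`; surjective: `cpG_induction` for the closed set `Phi e '' cpG` (`isClosed_image_of_norm`), `gen_mem_image`. -/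
theorem isoA_Phi {e : B × M ≃ₜ B'} (he : Slice G M e) :
    IsoA (Phi e : FamG (G × M) ℕ B' →+* FamG G ℕ B) (cpG (G × M) ℕ B') (cpG G ℕ B) := by
  refine ⟨fun x hx => norm_Phi he hx, fun x hx => Phi_mem he hx, fun y hy => ?_⟩
  have h1 : y ∈ F8_im G e := by
    refine cpG_induction (p := fun y : FamG G ℕ B => y ∈ F8_im G e) (F8_closed he)
      (zero_mem _) (fun _ _ ha hb => add_mem ha hb) (fun φ k l => ?_) y hy
    obtain ⟨x, hx, hx'⟩ := gen_mem_image he φ k l
    exact ⟨x, hx, hx'⟩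
  obtain ⟨x, hx, hx'⟩ := h1
  exact ⟨x, hx, hx'⟩

end Pool.Agent.Lib.MP_aa9b81_an.Tv
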