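import Pool.Agent.Lib.MP_aa9b81_an.Tv.F8

/-!
# Transversals, section F (Morita), part F9: injectivity and surjectivity on `K₁`
-/

open scoped ENNReal Topology CompactlySupported
open Function Filter MeasureTheory

noncomputable section

set_option linter.unusedSectionVars false

namespace Pool.Agent.Lib.MP_aa9b81_an.Tv

open Cut Hs Cb

variable {G M B B' Z Z' : Type} [Group G] [TopologicalSpace G] [IsTopologicalGroup G]
  [LocallyCompactSpace G] [SecondCountableTopology G] [T2Space G] [MeasurableSpace G] [BorelSpace G]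
  [Group M] [TopologicalSpace M] [IsTopologicalGroup M]
  [LocallyCompactSpace M] [SecondCountableTopology M] [T2Space M] [MeasurableSpace M] [BorelSpace M]
  [TopologicalSpace B] [T2Space B] [MulAction G B] [ContinuousSMul G B]
  [TopologicalSpace B'] [T2Space B'] [MulAction (G × M) B'] [ContinuousSMul (G × M) B']
  [TopologicalSpace Z] [T2Space Z] [MulAction G Z] [ContinuousSMul G Z]
  [TopologicalSpace Z'] [T2Space Z'] [MulAction (G × M) Z'] [ContinuousSMul (G × M) Z']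

/-- `p'` is `p × id`. -/
private theorem F9_eq {e : B × M ≃ₜ B'} {f : Z × M ≃ₜ Z'} {p : Z → B} {p' : Z' → B'}
    (h : ∀ z m, p' (f (z, m)) = e (p z, m)) : p' = e ∘ Prod.map p id ∘ f.symm := by
  funext z'
  have h1 := h (f.symm z').1 (f.symm z').2
  rw [Prod.mk.eta, Homeomorph.apply_symm_apply] at h1
  exact h1

private theorem F9_proper {e : B × M ≃ₜ B'} {f : Z × M ≃ₜ Z'} {p : Z → B} {p' : Z' → B'}
    (hp : IsProperMap p) (h : ∀ z m, p' (f (z, m)) = e (p z, m)) : IsProperMap p' := by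
  rw [F9_eq h]
  exact e.isProperMap.comp ((hp.prodMap isProperMap_id).comp f.symm.isProperMap)

private theorem F9_smul {e : B × M ≃ₜ B'} {f : Z × M ≃ₜ Z'} (he : Slice G M e) (hf : Slice G M f)
    {p : Z → B} {p' : Z' → B'} (hpe : ∀ (g : G) z, p (g • z) = g • p z)
    (h : ∀ z m, p' (f (z, m)) = e (p z, m)) (k : G × M) (z' : Z') : p' (k • z') = k • p' z' := by
  obtain ⟨⟨z, n⟩, rfl⟩ := f.surjective z'
  obtain ⟨g, m⟩ := k
  rw [← hf.smul, h, h, hpe, he.smul]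

private theorem F9_GL1 {e : B × M ≃ₜ B'} {f : Z × M ≃ₜ Z'} (he : Slice G M e) (hf : Slice G M f)
    {p : Z → B} {p' : Z' → B'} (hp : IsProperMap p) (hpe : ∀ (g : G) z, p (g • z) = g • p z)
    (h : ∀ z m, p' (f (z, m)) = e (p z, m)) {u : (FamG (G × M) ℕ B')ˣ}
    (hu : u ∈ GL1 (cpG (G × M) ℕ B')) : pullU p' u ∈ GL1 (cpG (G × M) ℕ Z') := by
  have h1 := pullG_mem (J := ℕ) (F9_proper hp h) (F9_smul he hf hpe h)
  obtain ⟨h2, h3⟩ := hu
  constructor
  · simpa using h1 _ h2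
  · simpa using h1 _ h3

private theorem F9_nat {e : B × M ≃ₜ B'} {f : Z × M ≃ₜ Z'} {p : Z → B} {p' : Z' → B'}
    (h : ∀ z m, p' (f (z, m)) = e (p z, m)) (u : (FamG (G × M) ℕ B')ˣ) :
    Units.map ((Phi f : FamG (G × M) ℕ Z' →+* FamG G ℕ Z) : FamG (G × M) ℕ Z' →* FamG G ℕ Z)
        (pullU p' u) =
      pullU p (Units.map ((Phi e : FamG (G × M) ℕ B' →+* FamG G ℕ B) :
        FamG (G × M) ℕ B' →* FamG G ℕ B) u) := by
  ext1
  exact Phi_pullG h (u : FamG (G × M) ℕ B')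

/-- PROOF: `p' = e ∘ (p × id) ∘ f⁻¹` is proper and equivariant, so `pullG p'` maps `cpG` into `cpG` (`pullG_mem`). Lift `u` to `ũ ∈ GL1 (cpG (G × M) ℕ B')` (`IsoA.GL1_lift`); `pullU p' ũ ∈ GL1` and its image is
`pullU p u ∈ E1` (`Phi_pullG`), so `pullU p' ũ ∈ E1` (`IsoA.E1_of_map`), `ũ ∈ E1` by `H`, `u ∈ E1` (`IsoA.E1_map`). -/
theorem injG_of_slice {e : B × M ≃ₜ B'} {f : Z × M ≃ₜ Z'} (he : Slice G M e) (hf : Slice G M f)
    {p : Z → B} {p' : Z' → B'} (hp : IsProperMap p) (hpe : ∀ (g : G) z, p (g • z) = g • p z)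
    (h : ∀ z m, p' (f (z, m)) = e (p z, m)) (H : InjG (G × M) p') : InjG G p := by
  intro u hu hE
  obtain ⟨w, hw, rfl⟩ := (isoA_Phi he).GL1_lift hu
  refine (isoA_Phi he).E1_map (H w hw ?_)
  refine (isoA_Phi hf).E1_of_map (F9_GL1 he hf hp hpe h hw) ?_
  rw [F9_nat h]
  exact hE

/-- PROOF: similar. -/
theorem surG_of_slice {e : B × M ≃ₜ B'} {f : Z × M ≃ₜ Z'} (he : Slice G M e) (hf : Slice G M f)
    {p : Z → B} {p' : Z' → B'} (hp : IsProperMap p) (hpe : ∀ (g : G) z, p (g • z) = g • p z)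
    (h : ∀ z m, p' (f (z, m)) = e (p z, m)) (H : SurG (G × M) p') : SurG G p := by
  intro v hv
  obtain ⟨w, hw, rfl⟩ := (isoA_Phi hf).GL1_lift hv
  obtain ⟨u, hu, huw⟩ := H w hw
  refine ⟨_, (isoA_Phi he).GL1_map hu, ?_⟩
  have h1 := (isoA_Phi hf).E1_map huw
  rw [map_mul, map_inv, F9_nat h] at h1
  exact h1

end Pool.Agent.Lib.MP_aa9b81_an.Tv
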