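import Pool.Agent.Lib.MP_aa9b81_an.Tv.I1

/-!
# Transversals, part I2: the convex space of the group `G × M`, slices
-/

open scoped ENNReal Topology CompactlySupported
open Function Filter MeasureTheory

noncomputable section

set_option linter.unusedSectionVars false

namespace Pool.Agent.Lib.MP_aa9b81_an.Tv

open Cut Hs Cb

/-- The vector space `E`, as a space with an action of `G × M` (through `G`). -/
def EM (E _M : Type) : Type := E

/-- The element of `E`. -/
def EM.to {E M : Type} (x : EM E M) : E := x

/-- The element of `EM E M`. -/
def EM.of {E M : Type} (x : E) : EM E M := x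

section EM

variable {G E M : Type} [Group G] [Group M]

instance [AddCommGroup E] : AddCommGroup (EM E M) := inferInstanceAs (AddCommGroup E)
instance [AddCommGroup E] [Module ℝ E] : Module ℝ (EM E M) := inferInstanceAs (Module ℝ E)
instance [TopologicalSpace E] : TopologicalSpace (EM E M) := inferInstanceAs (TopologicalSpace E)
instance [TopologicalSpace E] [T2Space E] : T2Space (EM E M) := inferInstanceAs (T2Space E)
instance [AddCommGroup E] [TopologicalSpace E] [ContinuousAdd E] : ContinuousAdd (EM E M) :=
  inferInstanceAs (ContinuousAdd E)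
instance [AddCommGroup E] [Module ℝ E] [TopologicalSpace E] [ContinuousSMul ℝ E] :
    ContinuousSMul ℝ (EM E M) := inferInstanceAs (ContinuousSMul ℝ E)

instance [AddCommGroup E] [DistribMulAction G E] : DistribMulAction (G × M) (EM E M) where
  smul k x := EM.of (k.1 • x.to)
  one_smul x := one_smul G x.to
  mul_smul k l x := mul_smul k.1 l.1 x.to
  smul_zero k := smul_zero (A := E) k.1
  smul_add k x y := smul_add k.1 x.to y.to

theorem EM.smul_def [AddCommGroup E] [DistribMulAction G E] (k : G × M) (x : EM E M) :
    k • x = EM.of (k.1 • x.to) := rfl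

instance [AddCommGroup E] [Module ℝ E] [DistribMulAction G E] [SMulCommClass G ℝ E] :
    SMulCommClass (G × M) ℝ (EM E M) :=
  ⟨fun k r x => smul_comm k.1 r x.to⟩

instance [AddCommGroup E] [TopologicalSpace E] [DistribMulAction G E] [ContinuousConstSMul G E] :
    ContinuousConstSMul (G × M) (EM E M) :=
  ⟨fun k => continuous_const_smul (T := E) k.1⟩

end EM

section Cvx

variable {G E M : Type} [Group G] [Group M] [AddCommGroup E] [Module ℝ E]
  [TopologicalSpace E] [DistribMulAction G E]

variable (M) in
/-- The convex space `Q`, as a space of `G × M`. -/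
def cvxM (Q : ConvexSpace G E) : ConvexSpace (G × M) (EM E M) where
  carrier := Q.carrier
  nonempty := Q.nonempty
  compact := Q.compact
  convex := Q.convex
  smul_mem k q hq := Q.smul_mem k.1 q hq

theorem cvxM_cont [TopologicalSpace G] [TopologicalSpace M] {Q : ConvexSpace G E}
    (hQ : Continuous fun p : G × Q.Pt => p.1 • p.2) :
    Continuous fun p : (G × M) × (cvxM M Q).Pt => p.1 • p.2 := by
  have h1 : Continuous fun p : (G × M) × (cvxM M Q).Pt => ((p.1.1, p.2) : G × Q.Pt) :=
    (continuous_fst.comp continuous_fst).prodMk continuous_snd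
  exact hQ.comp h1

variable [SMulCommClass G ℝ E]

variable (M) in
/-- The cones agree. -/
def coneM (Q : ConvexSpace G E) : Cone Q ≃ₜ Cone (cvxM M Q) where
  toFun w := w
  invFun w := w
  left_inv _ := rfl
  right_inv _ := rfl
  continuous_toFun := continuous_id
  continuous_invFun := continuous_id

theorem coneM_smul (Q : ConvexSpace G E) (g : G) (m : M) (w : Cone Q) :
    coneM M Q (g • w) = (g, m) • coneM M Q w := rfl

end Cvx

section Slice

variable {G M B B' W W' X : Type} [Group G] [Group M] [TopologicalSpace M]
  [TopologicalSpace B] [TopologicalSpace B'] [MulAction G B] [MulAction (G × M) B']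
  [TopologicalSpace W] [TopologicalSpace W'] [MulAction G W] [MulAction (G × M) W']
  [TopologicalSpace X] [MulAction G X]

/-- The slice of a product. -/
def slP (e : B × M ≃ₜ B') (w : W ≃ₜ W') : (B × W) × M ≃ₜ B' × W' where
  toFun x := (e (x.1.1, x.2), w x.1.2)
  invFun y := (((e.symm y.1).1, w.symm y.2), (e.symm y.1).2)
  left_inv x := by simp
  right_inv y := by simp
  continuous_toFun := (e.continuous.comp ((continuous_fst.comp continuous_fst).prodMk
    continuous_snd)).prodMk (w.continuous.comp (continuous_snd.comp continuous_fst))
  continuous_invFun := ((continuous_fst.comp (e.symm.continuous.comp continuous_fst)).prodMk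
    (w.symm.continuous.comp continuous_snd)).prodMk
      (continuous_snd.comp (e.symm.continuous.comp continuous_fst))

theorem slice_slP {e : B × M ≃ₜ B'} (he : Slice G M e) {w : W ≃ₜ W'}
    (hw : ∀ (g : G) (m : M) x, w (g • x) = (g, m) • w x) : Slice G M (slP e w) where
  smul g m b n := by
    refine Prod.ext ?_ ?_
    · exact he.smul g m b.1 n
    · exact hw g m b.2

/-- The slice of `X × M`. -/
def slX (X M : Type) [TopologicalSpace X] [TopologicalSpace M] : X × M ≃ₜ XM X M where
  toFun x := x
  invFun x := x
  left_inv _ := rfl
  right_inv _ := rfl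
  continuous_toFun := continuous_id
  continuous_invFun := continuous_id

theorem slice_slX : Slice G M (slX X M) where
  smul _ _ _ _ := rfl

end Slice

end Pool.Agent.Lib.MP_aa9b81_an.Tv
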