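import Pool.Agent.Lib.MP_aa9b81_an.Mg.G034

/-!
# Transversals: property A
-/

open scoped ENNReal Topology NNReal
open Function Filter MeasureTheory

noncomputable section

set_option linter.unusedSectionVars false

namespace Pool.Agent.Lib.MP_aa9b81_an.Tv

open Cut Hs Cb

section Amen

variable {G E : Type} [Group G] [TopologicalSpace G] [IsTopologicalGroup G]
  [LocallyCompactSpace G] [MeasurableSpace G] [BorelSpace G] [AddCommGroup E] [Module ℝ E]
  [TopologicalSpace E] [DistribMulAction G E]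

/-- A group with an amenable action on a compact convex space has property A. -/
theorem propAG_of_amenable {Q : LC.ConvexSpace G E}
    (hQ : ContinuousOn (fun p : G × E => p.1 • p.2) (Set.univ ×ˢ Q.carrier))
    (h : LC.Amenable Q) : PropAG G := by
  intro C ε hC hε
  obtain ⟨q₀, hq₀⟩ := Q.nonempty
  obtain ⟨φ, hφc, hφ0, ⟨K, hK, hφK⟩, hφ1, hφ2⟩ := h C⁻¹ ε hC.inv hε
  have hs : Continuous fun s : G => s⁻¹ • q₀ := by
    have h1 : Continuous fun s : G => ((s⁻¹, q₀) : G × E) := continuous_inv.prodMk continuous_const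
    exact hQ.comp_continuous h1 fun s => ⟨Set.mem_univ _, hq₀⟩
  have hmem : ∀ s : G, s⁻¹ • q₀ ∈ Q.carrier := fun s => Q.smul_mem _ _ hq₀
  refine ⟨fun p => φ (p.1⁻¹ • q₀, p.1⁻¹ * p.2), ?_, ?_, ⟨K, hK, ?_⟩, ?_, ?_⟩
  · have h1 : Continuous fun p : G × G => ((p.1⁻¹ • q₀, p.1⁻¹ * p.2) : E × G) :=
      (hs.comp continuous_fst).prodMk (continuous_fst.inv.mul continuous_snd)
    exact hφc.comp_continuous h1 fun p => ⟨hmem _, Set.mem_univ _⟩
  · exact fun p => hφ0 _ (hmem _) _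
  · exact fun s t hst => hφK _ (hmem _) _ hst
  · intro s
    have h1 := integral_mul_left_eq_self (μ := mu G) (fun t => φ (s⁻¹ • q₀, t)) s⁻¹
    change ∫ t, φ (s⁻¹ • q₀, s⁻¹ * t) ∂mu G = 1
    rw [h1]
    exact hφ1 _ (hmem _)
  · intro k hk s
    have h1 := integral_mul_left_eq_self (μ := mu G)
      (fun t => |φ (k⁻¹ • (s⁻¹ • q₀), k⁻¹ * t) - φ (s⁻¹ • q₀, t)|) s⁻¹
    have h2 : (fun t => |φ ((s * k)⁻¹ • q₀, (s * k)⁻¹ * t) - φ (s⁻¹ • q₀, s⁻¹ * t)|) =
        fun t => |φ (k⁻¹ • (s⁻¹ • q₀), k⁻¹ * (s⁻¹ * t)) - φ (s⁻¹ • q₀, s⁻¹ * t)| := by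
      funext t
      rw [mul_inv_rev, mul_smul, mul_assoc]
    change ∫ t, |φ ((s * k)⁻¹ • q₀, (s * k)⁻¹ * t) - φ (s⁻¹ • q₀, s⁻¹ * t)| ∂mu G ≤ ε
    rw [h2, h1]
    exact hφ2 _ (Set.inv_mem_inv.2 hk) _ (hmem _)

end Amen

section Prod

variable {G M : Type} [Group G] [TopologicalSpace G] [IsTopologicalGroup G]
  [LocallyCompactSpace G] [SecondCountableTopology G] [T2Space G] [MeasurableSpace G]
  [BorelSpace G] [Group M] [TopologicalSpace M] [IsTopologicalGroup M]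
  [LocallyCompactSpace M] [SecondCountableTopology M] [T2Space M] [MeasurableSpace M]
  [BorelSpace M]

/-- A function as in the definition of property A is integrable in the second variable. -/
theorem R1_integrable {φ : G × G → ℝ} (hφ : Continuous φ)
    (hK : ∃ K : Set G, IsCompact K ∧ ∀ s t : G, s⁻¹ * t ∉ K → φ (s, t) = 0) (s : G) :
    Integrable (fun t => φ (s, t)) (mu G) := by
  obtain ⟨K, hK, hφK⟩ := hK
  have h1 : Continuous fun t => φ (s, t) := hφ.comp (continuous_const.prodMk continuous_id)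
  refine h1.integrable_of_hasCompactSupport ?_
  refine HasCompactSupport.intro (K := (fun t => s * t) '' K)
    (hK.image (continuous_const.mul continuous_id)) ?_
  intro t ht
  refine hφK s t fun h => ht ⟨s⁻¹ * t, h, ?_⟩
  simp

/-- The product of two groups with property A. -/
theorem PropAG.prod (hG : PropAG G) (hM : PropAG M) : PropAG (G × M) := by
  intro C ε hC hε
  obtain ⟨φ, hφc, hφ0, hφK, hφ1, hφ2⟩ := hG (Prod.fst '' C) (ε / 2)
    (hC.image continuous_fst) (by linarith)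
  obtain ⟨ψ, hψc, hψ0, hψK, hψ1, hψ2⟩ := hM (Prod.snd '' C) (ε / 2)
    (hC.image continuous_snd) (by linarith)
  have hφi := R1_integrable hφc hφK
  have hψi := R1_integrable hψc hψK
  obtain ⟨K, hK, hφK⟩ := hφK
  obtain ⟨L, hL, hψL⟩ := hψK
  set ν : Measure (G × M) := (mu G).prod (mu M) with hν
  set c : ℝ≥0 := Measure.haarScalarFactor (mu (G × M)) ν with hc
  have hc0 : 0 < c := Measure.haarScalarFactor_pos_of_isHaarMeasure _ _
  have hmu : mu (G × M) = c • ν := Measure.isMulLeftInvariant_eq_smul _ _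
  have hint : ∀ F : G × M → ℝ, ∫ x, F x ∂mu (G × M) = (c : ℝ) * ∫ x, F x ∂ν := by
    intro F
    rw [hmu, integral_smul_nnreal_measure]
    rfl
  have hc0' : (0 : ℝ) < c := by exact_mod_cast hc0
  refine ⟨fun p => (c : ℝ)⁻¹ * (φ (p.1.1, p.2.1) * ψ (p.1.2, p.2.2)), ?_, ?_,
    ⟨K ×ˢ L, hK.prod hL, ?_⟩, ?_, ?_⟩
  · refine continuous_const.mul ((hφc.comp ?_).mul (hψc.comp ?_))
    · exact (continuous_fst.comp continuous_fst).prodMk (continuous_fst.comp continuous_snd)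
    · exact (continuous_snd.comp continuous_fst).prodMk (continuous_snd.comp continuous_snd)
  · exact fun p => mul_nonneg (by positivity) (mul_nonneg (hφ0 _) (hψ0 _))
  · intro s t hst
    have h1 : s.1⁻¹ * t.1 ∉ K ∨ s.2⁻¹ * t.2 ∉ L := by
      by_contra hcon
      push Not at hcon
      exact hst ⟨hcon.1, hcon.2⟩
    rcases h1 with h1 | h1
    · change (c : ℝ)⁻¹ * (φ (s.1, t.1) * ψ (s.2, t.2)) = 0
      rw [hφK _ _ h1, zero_mul, mul_zero]
    · change (c : ℝ)⁻¹ * (φ (s.1, t.1) * ψ (s.2, t.2)) = 0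
      rw [hψL _ _ h1, mul_zero, mul_zero]
  · intro s
    rw [hint, integral_const_mul, integral_prod_mul (fun t => φ (s.1, t)) (fun t => ψ (s.2, t)),
      hφ1, hψ1]
    field_simp
  · intro h hh s
    rw [hint]
    have e1 : ∀ t : G × M, |(c : ℝ)⁻¹ * (φ ((s * h).1, t.1) * ψ ((s * h).2, t.2)) -
        (c : ℝ)⁻¹ * (φ (s.1, t.1) * ψ (s.2, t.2))| ≤
        (c : ℝ)⁻¹ * (|φ (s.1 * h.1, t.1) - φ (s.1, t.1)| * ψ (s.2 * h.2, t.2) +
          φ (s.1, t.1) * |ψ (s.2 * h.2, t.2) - ψ (s.2, t.2)|) := by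
      intro t
      rw [← mul_sub, abs_mul, abs_of_pos (inv_pos.2 hc0')]
      refine mul_le_mul_of_nonneg_left ?_ (by positivity)
      change |φ (s.1 * h.1, t.1) * ψ (s.2 * h.2, t.2) - φ (s.1, t.1) * ψ (s.2, t.2)| ≤ _
      have e2 : φ (s.1 * h.1, t.1) * ψ (s.2 * h.2, t.2) - φ (s.1, t.1) * ψ (s.2, t.2) =
          (φ (s.1 * h.1, t.1) - φ (s.1, t.1)) * ψ (s.2 * h.2, t.2) +
            φ (s.1, t.1) * (ψ (s.2 * h.2, t.2) - ψ (s.2, t.2)) := by ring
      rw [e2]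
      refine (abs_add_le _ _).trans (le_of_eq ?_)
      rw [abs_mul, abs_mul, abs_of_nonneg (hψ0 _), abs_of_nonneg (hφ0 (s.1, t.1))]
    have i1 : Integrable (fun t => |φ (s.1 * h.1, t) - φ (s.1, t)|) (mu G) :=
      ((hφi _).sub (hφi _)).abs
    have i2 : Integrable (fun t => |ψ (s.2 * h.2, t) - ψ (s.2, t)|) (mu M) :=
      ((hψi _).sub (hψi _)).abs
    have j1 : Integrable (fun t : G × M => |φ (s.1 * h.1, t.1) - φ (s.1, t.1)| *
        ψ (s.2 * h.2, t.2)) ν := i1.mul_prod (hψi _)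
    have j2 : Integrable (fun t : G × M => φ (s.1, t.1) *
        |ψ (s.2 * h.2, t.2) - ψ (s.2, t.2)|) ν := (hφi _).mul_prod i2
    have k0 : Integrable (fun t : G × M => (c : ℝ)⁻¹ * (φ ((s * h).1, t.1) *
        ψ ((s * h).2, t.2)) - (c : ℝ)⁻¹ * (φ (s.1, t.1) * ψ (s.2, t.2))) ν := by
      refine Integrable.sub ?_ ?_
      · exact ((hφi (s * h).1).mul_prod (hψi (s * h).2)).const_mul _
      · exact ((hφi s.1).mul_prod (hψi s.2)).const_mul _
    have k1 : ∫ t : G × M, |(c : ℝ)⁻¹ * (φ ((s * h).1, t.1) * ψ ((s * h).2, t.2)) -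
        (c : ℝ)⁻¹ * (φ (s.1, t.1) * ψ (s.2, t.2))| ∂ν ≤
        ∫ t : G × M, (c : ℝ)⁻¹ * (|φ (s.1 * h.1, t.1) - φ (s.1, t.1)| * ψ (s.2 * h.2, t.2) +
          φ (s.1, t.1) * |ψ (s.2 * h.2, t.2) - ψ (s.2, t.2)|) ∂ν :=
      integral_mono k0.abs ((j1.add j2).const_mul _) e1
    have k2 : ∫ t : G × M, (c : ℝ)⁻¹ * (|φ (s.1 * h.1, t.1) - φ (s.1, t.1)| *
          ψ (s.2 * h.2, t.2) + φ (s.1, t.1) * |ψ (s.2 * h.2, t.2) - ψ (s.2, t.2)|) ∂ν =
        (c : ℝ)⁻¹ * ((∫ t, |φ (s.1 * h.1, t) - φ (s.1, t)| ∂mu G) +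
          ∫ t, |ψ (s.2 * h.2, t) - ψ (s.2, t)| ∂mu M) := by
      rw [integral_const_mul, integral_add j1 j2,
        integral_prod_mul (fun t => |φ (s.1 * h.1, t) - φ (s.1, t)|)
          (fun t => ψ (s.2 * h.2, t)),
        integral_prod_mul (fun t => φ (s.1, t))
          (fun t => |ψ (s.2 * h.2, t) - ψ (s.2, t)|), hψ1, hφ1, mul_one, one_mul]
    have k3 := hφ2 h.1 ⟨h, hh, rfl⟩ s.1
    have k4 := hψ2 h.2 ⟨h, hh, rfl⟩ s.2
    calc (c : ℝ) * ∫ t : G × M, |(c : ℝ)⁻¹ * (φ ((s * h).1, t.1) * ψ ((s * h).2, t.2)) -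
        (c : ℝ)⁻¹ * (φ (s.1, t.1) * ψ (s.2, t.2))| ∂ν ≤
        (c : ℝ) * ((c : ℝ)⁻¹ * ((∫ t, |φ (s.1 * h.1, t) - φ (s.1, t)| ∂mu G) +
          ∫ t, |ψ (s.2 * h.2, t) - ψ (s.2, t)| ∂mu M)) :=
          mul_le_mul_of_nonneg_left (k1.trans (le_of_eq k2)) hc0'.le
      _ = (∫ t, |φ (s.1 * h.1, t) - φ (s.1, t)| ∂mu G) +
          ∫ t, |ψ (s.2 * h.2, t) - ψ (s.2, t)| ∂mu M := by
          rw [← mul_assoc, mul_inv_cancel₀ hc0'.ne', one_mul]
      _ ≤ ε := by linarith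

end Prod

/-! ### The group `ℝ²` -/

/-- Property A from Følner functions. -/
theorem propAG_of_folner {G : Type} [Group G] [TopologicalSpace G] [IsTopologicalGroup G]
    [LocallyCompactSpace G] [MeasurableSpace G] [BorelSpace G]
    (h : ∀ (C : Set G) (ε : ℝ), IsCompact C → 0 < ε → ∃ f : G → ℝ, Continuous f ∧ (∀ x, 0 ≤ f x) ∧
      (∃ K : Set G, IsCompact K ∧ ∀ x ∉ K, f x = 0) ∧ 0 < ∫ x, f x ∂mu G ∧
      ∀ k ∈ C, ∫ x, |f (k⁻¹ * x) - f x| ∂mu G ≤ ε * ∫ x, f x ∂mu G) : PropAG G := by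
  intro C ε hC hε
  obtain ⟨f, hf, hf0, ⟨K, hK, hfK⟩, hI, hf2⟩ := h C ε hC hε
  set I := ∫ x, f x ∂mu G with hIdef
  refine ⟨fun p => I⁻¹ * f (p.1⁻¹ * p.2), ?_, ?_, ⟨K, hK, ?_⟩, ?_, ?_⟩
  · exact continuous_const.mul (hf.comp (continuous_fst.inv.mul continuous_snd))
  · exact fun p => mul_nonneg (by positivity) (hf0 _)
  · intro s t hst
    change I⁻¹ * f (s⁻¹ * t) = 0
    rw [hfK _ hst, mul_zero]
  · intro s
    change ∫ t, I⁻¹ * f (s⁻¹ * t) ∂mu G = 1
    rw [integral_const_mul, integral_mul_left_eq_self (μ := mu G) f s⁻¹, ← hIdef,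
      inv_mul_cancel₀ hI.ne']
  · intro k hk s
    have h1 := integral_mul_left_eq_self (μ := mu G) (fun t => |f (k⁻¹ * t) - f t|) s⁻¹
    have h2 : (fun t => |I⁻¹ * f ((s * k)⁻¹ * t) - I⁻¹ * f (s⁻¹ * t)|) =
        fun t => I⁻¹ * |f (k⁻¹ * (s⁻¹ * t)) - f (s⁻¹ * t)| := by
      funext t
      rw [← mul_sub, abs_mul, abs_of_pos (inv_pos.2 hI), mul_inv_rev, mul_assoc]
    change ∫ t, |I⁻¹ * f ((s * k)⁻¹ * t) - I⁻¹ * f (s⁻¹ * t)| ∂mu G ≤ ε
    rw [h2, integral_const_mul, h1]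
    have h3 := hf2 k hk
    rw [inv_mul_le_iff₀ hI]
    linarith

namespace M2

/-- The square with the side `2 r`. -/
def box (r : ℝ) : Set M2 := {x | |x.a| ≤ r ∧ |x.b| ≤ r}

theorem isCompact_box (r : ℝ) : IsCompact (box r) := by
  have h1 : IsCompact (Set.Icc (-r) r ×ˢ Set.Icc (-r) r : Set (ℝ × ℝ)) :=
    isCompact_Icc.prod isCompact_Icc
  have h2 : (box r : Set M2) = (Set.Icc (-r) r ×ˢ Set.Icc (-r) r : Set (ℝ × ℝ)) := by
    ext x
    change (|x.a| ≤ r ∧ |x.b| ≤ r) ↔ (x.a ∈ Set.Icc (-r) r ∧ x.b ∈ Set.Icc (-r) r)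
    rw [abs_le, abs_le]
    rfl
  rw [h2]
  exact h1

theorem isClosed_box (r : ℝ) : IsClosed (box r) := (isCompact_box r).isClosed

theorem box_mono {r s : ℝ} (h : r ≤ s) : box r ⊆ box s :=
  fun _ hx => ⟨hx.1.trans h, hx.2.trans h⟩

/-- Nearest multiples. -/
theorem exists_near {r t : ℝ} (hr : 0 < r) (ht : |t| ≤ 4 * r) :
    ∃ i ∈ Finset.range 9, |t - ((i : ℝ) - 4) * r| ≤ r := by
  have h1 := abs_le.1 ht
  refine ⟨⌊t / r + 4⌋₊, ?_, ?_⟩
  · rw [Finset.mem_range, Nat.floor_lt]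
    · have : t / r ≤ 4 := by rw [div_le_iff₀ hr]; linarith
      push_cast
      linarith
    · have : -4 ≤ t / r := by rw [le_div_iff₀ hr]; linarith
      linarith
  · have h4 : 0 ≤ t / r + 4 := by
      have : -4 ≤ t / r := by rw [le_div_iff₀ hr]; linarith
      linarith
    have h2 := Nat.floor_le h4
    have h3 := Nat.lt_floor_add_one (t / r + 4)
    have h5 : t = (t / r) * r := by field_simp
    rw [abs_le]
    constructor
    · nlinarith
    · nlinarith

/-- Doubling. -/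
theorem measure_box_le {r : ℝ} (hr : 0 < r) : mu M2 (box (4 * r)) ≤ 81 * mu M2 (box r) := by
  have h1 : box (4 * r) ⊆ ⋃ i ∈ Finset.range 9 ×ˢ Finset.range 9,
      (fun x : M2 => (mk (((i.1 : ℝ) - 4) * r) (((i.2 : ℝ) - 4) * r))⁻¹ * x) ⁻¹' box r := by
    intro x hx
    obtain ⟨i, hi, hi'⟩ := exists_near hr hx.1
    obtain ⟨j, hj, hj'⟩ := exists_near hr hx.2
    refine Set.mem_iUnion₂.2 ⟨(i, j), Finset.mem_product.2 ⟨hi, hj⟩, ?_⟩
    change |((mk (((i : ℝ) - 4) * r) (((j : ℝ) - 4) * r))⁻¹ * x).a| ≤ r ∧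
      |((mk (((i : ℝ) - 4) * r) (((j : ℝ) - 4) * r))⁻¹ * x).b| ≤ r
    rw [a_mul, b_mul, a_inv, b_inv, a_mk, b_mk]
    constructor
    · rw [neg_add_eq_sub]; exact hi'
    · rw [neg_add_eq_sub]; exact hj'
  calc mu M2 (box (4 * r)) ≤ mu M2 (⋃ i ∈ Finset.range 9 ×ˢ Finset.range 9,
      (fun x : M2 => (mk (((i.1 : ℝ) - 4) * r) (((i.2 : ℝ) - 4) * r))⁻¹ * x) ⁻¹' box r) :=
        measure_mono h1
    _ ≤ ∑ i ∈ Finset.range 9 ×ˢ Finset.range 9,
        mu M2 ((fun x : M2 => (mk (((i.1 : ℝ) - 4) * r) (((i.2 : ℝ) - 4) * r))⁻¹ * x) ⁻¹' box r) :=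
        measure_biUnion_finset_le _ _
    _ = ∑ i ∈ Finset.range 9 ×ˢ Finset.range 9, mu M2 (box r) :=
        Finset.sum_congr rfl fun i _ => measure_preimage_mul (mu M2) _ _
    _ = 81 * mu M2 (box r) := by
        rw [Finset.sum_const, Finset.card_product, Finset.card_range, nsmul_eq_mul]
        norm_num

/-- The tent function. -/
def tent (R : ℝ) (x : M2) : ℝ := max 0 (R - |x.a|) * max 0 (R - |x.b|)

theorem continuous_tent (R : ℝ) : Continuous (tent R) := by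
  unfold tent
  exact (continuous_const.max (continuous_const.sub continuous_a.abs)).mul
    (continuous_const.max (continuous_const.sub continuous_b.abs))

theorem tent_nonneg (R : ℝ) (x : M2) : 0 ≤ tent R x :=
  mul_nonneg (le_max_left _ _) (le_max_left _ _)

theorem tent_zero (R : ℝ) (x : M2) (hx : x ∉ box R) : tent R x = 0 := by
  unfold tent
  by_cases h1 : |x.a| ≤ R
  · have h2 : ¬ |x.b| ≤ R := fun h => hx ⟨h1, h⟩
    rw [max_eq_left (a := (0 : ℝ)) (b := R - |x.b|) (by linarith), mul_zero]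
  · rw [max_eq_left (a := (0 : ℝ)) (b := R - |x.a|) (by linarith), zero_mul]

theorem max_sub_max_le (u v : ℝ) : |max 0 u - max 0 v| ≤ |u - v| := by
  have := abs_max_sub_max_le_abs u v 0
  rwa [max_comm u 0, max_comm v 0] at this

theorem tent_lip {R H : ℝ} (hR : 0 ≤ R) {k : M2} (hk : k ∈ box H) (x : M2) :
    |tent R (k⁻¹ * x) - tent R x| ≤ 2 * R * H := by
  have key : ∀ s t : ℝ, |s| ≤ H → |max 0 (R - |-s + t|) - max 0 (R - |t|)| ≤ H := by
    intro s t hs
    refine (max_sub_max_le _ _).trans ?_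
    have h1 : R - |-s + t| - (R - |t|) = |t| - |-s + t| := by ring
    rw [h1]
    refine (abs_abs_sub_abs_le _ _).trans ?_
    have h2 : t - (-s + t) = s := by ring
    rw [h2]
    exact hs
  have hb : ∀ t : ℝ, |max 0 (R - |t|)| ≤ R := by
    intro t
    rw [abs_of_nonneg (le_max_left _ _)]
    exact max_le hR (by linarith [abs_nonneg t])
  unfold tent
  rw [a_mul, b_mul, a_inv, b_inv]
  have h1 := key k.a x.a hk.1
  have h2 := key k.b x.b hk.2
  have e : max 0 (R - |-k.a + x.a|) * max 0 (R - |-k.b + x.b|) -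
      max 0 (R - |x.a|) * max 0 (R - |x.b|) =
      (max 0 (R - |-k.a + x.a|) - max 0 (R - |x.a|)) * max 0 (R - |-k.b + x.b|) +
        max 0 (R - |x.a|) * (max 0 (R - |-k.b + x.b|) - max 0 (R - |x.b|)) := by ring
  rw [e]
  refine (abs_add_le _ _).trans ?_
  rw [abs_mul, abs_mul]
  have h3 : |max 0 (R - |-k.a + x.a|) - max 0 (R - |x.a|)| * |max 0 (R - |-k.b + x.b|)| ≤ H * R :=
    mul_le_mul h1 (hb _) (abs_nonneg _) ((abs_nonneg _).trans h1)
  have h4 : |max 0 (R - |x.a|)| * |max 0 (R - |-k.b + x.b|) - max 0 (R - |x.b|)| ≤ R * H :=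
    mul_le_mul (hb _) h2 (abs_nonneg _) hR
  linarith

theorem tent_diff_zero {R H : ℝ} {k : M2} (hk : k ∈ box H) (hH : 0 ≤ H) (x : M2)
    (hx : x ∉ box (R + H)) : |tent R (k⁻¹ * x) - tent R x| = 0 := by
  have h1 : x ∉ box R := fun h => hx (box_mono (by linarith) h)
  have h2 : k⁻¹ * x ∉ box R := by
    intro h
    apply hx
    have h3 : |-k.a + x.a| ≤ R := h.1
    have h4 : |-k.b + x.b| ≤ R := h.2
    have h5 := hk.1
    have h6 := hk.2
    constructor
    · calc |x.a| = |(-k.a + x.a) + k.a| := by ring_nf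
        _ ≤ |-k.a + x.a| + |k.a| := abs_add_le _ _
        _ ≤ R + H := by linarith
    · calc |x.b| = |(-k.b + x.b) + k.b| := by ring_nf
        _ ≤ |-k.b + x.b| + |k.b| := abs_add_le _ _
        _ ≤ R + H := by linarith
  rw [tent_zero R x h1, tent_zero R _ h2]
  simp

end M2

/-- The group `ℝ²` has property A. -/
theorem propAG_M2 : PropAG M2 := by
  refine propAG_of_folner fun C ε hC hε => ?_
  -- `C` is in a box
  obtain ⟨H, hH1, hCH⟩ : ∃ H : ℝ, 1 ≤ H ∧ C ⊆ M2.box H := by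
    obtain ⟨u, hu⟩ := (hC.image M2.continuous_a.abs).bddAbove
    obtain ⟨v, hv⟩ := (hC.image M2.continuous_b.abs).bddAbove
    refine ⟨max 1 (max u v), le_max_left _ _, fun x hx => ⟨?_, ?_⟩⟩
    · exact (hu ⟨x, hx, rfl⟩).trans ((le_max_left u v).trans (le_max_right _ _))
    · exact (hv ⟨x, hx, rfl⟩).trans ((le_max_right u v).trans (le_max_right _ _))
  -- the radius: `R = 4 r / ...`
  obtain ⟨r, hr, hrH, hrε⟩ : ∃ r : ℝ, 0 < r ∧ H ≤ 2 * r ∧ 324 * H ≤ ε * r := by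
    refine ⟨max H (324 * H / ε), lt_of_lt_of_le (by linarith) (le_max_left _ _), ?_, ?_⟩
    · have := le_max_left H (324 * H / ε)
      linarith
    · have := le_max_right H (324 * H / ε)
      rw [div_le_iff₀ hε] at this
      linarith
  set R : ℝ := 2 * r with hR
  have hR0 : 0 < R := by rw [hR]; linarith
  have hfin : ∀ t : ℝ, mu M2 (M2.box t) < ⊤ := fun t => (M2.isCompact_box t).measure_lt_top
  have hint : Integrable (M2.tent R) (mu M2) := by
    refine (M2.continuous_tent R).integrable_of_hasCompactSupport ?_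
    exact HasCompactSupport.intro (M2.isCompact_box R) fun x hx => M2.tent_zero R x hx
  -- lower bound of the integral
  have hlow : r ^ 2 * (mu M2 (M2.box r)).toReal ≤ ∫ x, M2.tent R x ∂mu M2 := by
    have h1 : ∫ x in M2.box r, (r ^ 2 : ℝ) ∂mu M2 ≤ ∫ x in M2.box r, M2.tent R x ∂mu M2 := by
      refine setIntegral_mono_on ?_ hint.integrableOn (M2.isClosed_box r).measurableSet ?_
      · exact integrableOn_const (hfin r).ne
      · intro x hx
        have h2 : r ≤ max 0 (R - |x.a|) := le_max_of_le_right (by rw [hR]; linarith [hx.1])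
        have h3 : r ≤ max 0 (R - |x.b|) := le_max_of_le_right (by rw [hR]; linarith [hx.2])
        unfold M2.tent
        rw [sq]
        exact mul_le_mul h2 h3 hr.le (hr.le.trans h2)
    have h4 : ∫ x in M2.box r, M2.tent R x ∂mu M2 ≤ ∫ x, M2.tent R x ∂mu M2 :=
      setIntegral_le_integral hint (Filter.Eventually.of_forall fun x => M2.tent_nonneg R x)
    rw [setIntegral_const, smul_eq_mul, Measure.real] at h1
    linarith
  have hpos : 0 < (mu M2 (M2.box r)).toReal := by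
    have hopen : IsOpen {x : M2 | |x.a| < r ∧ |x.b| < r} :=
      (isOpen_lt M2.continuous_a.abs continuous_const).inter
        (isOpen_lt M2.continuous_b.abs continuous_const)
    have h1 : 0 < mu M2 {x : M2 | |x.a| < r ∧ |x.b| < r} := by
      refine hopen.measure_pos _ ⟨1, ?_⟩
      simp [hr]
    have h2 : {x : M2 | |x.a| < r ∧ |x.b| < r} ⊆ M2.box r := fun x hx => ⟨hx.1.le, hx.2.le⟩
    exact ENNReal.toReal_pos (h1.trans_le (measure_mono h2)).ne' (hfin r).ne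
  refine ⟨M2.tent R, M2.continuous_tent R, M2.tent_nonneg R,
    ⟨M2.box R, M2.isCompact_box R, M2.tent_zero R⟩, ?_, fun k hk => ?_⟩
  · have : 0 < r ^ 2 * (mu M2 (M2.box r)).toReal := by positivity
    linarith
  · have hkH := hCH hk
    have hRH : R + H ≤ 4 * r := by rw [hR]; linarith
    have h1 : ∫ x, |M2.tent R (k⁻¹ * x) - M2.tent R x| ∂mu M2 =
        ∫ x in M2.box (4 * r), |M2.tent R (k⁻¹ * x) - M2.tent R x| ∂mu M2 := by
      refine (setIntegral_eq_integral_of_forall_compl_eq_zero fun x hx => ?_).symm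
      exact M2.tent_diff_zero hkH (by linarith) x fun h => hx (M2.box_mono hRH h)
    have h2 : ‖∫ x in M2.box (4 * r), |M2.tent R (k⁻¹ * x) - M2.tent R x| ∂mu M2‖ ≤
        2 * R * H * (mu M2).real (M2.box (4 * r)) := by
      refine norm_setIntegral_le_of_norm_le_const (hfin _) fun x _ => ?_
      rw [Real.norm_eq_abs, abs_abs]
      exact M2.tent_lip hR0.le hkH x
    have h3 : (mu M2).real (M2.box (4 * r)) ≤ 81 * (mu M2 (M2.box r)).toReal := by
      have h4 := M2.measure_box_le hr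
      have h5 := ENNReal.toReal_mono (ENNReal.mul_ne_top (by norm_num) (hfin r).ne) h4
      rw [ENNReal.toReal_mul] at h5
      rw [Measure.real]
      simpa using h5
    rw [h1]
    refine (le_abs_self _).trans (h2.trans ?_)
    set B := (mu M2 (M2.box r)).toReal with hB
    calc 2 * R * H * (mu M2).real (M2.box (4 * r)) ≤ 2 * R * H * (81 * B) := by
          refine mul_le_mul_of_nonneg_left h3 ?_
          have : 0 ≤ H := by linarith
          positivity
      _ = (324 * H) * (r * B) := by rw [hR]; ring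
      _ ≤ (ε * r) * (r * B) := mul_le_mul_of_nonneg_right hrε (by positivity)
      _ = ε * (r ^ 2 * B) := by ring
      _ ≤ ε * ∫ x, M2.tent R x ∂mu M2 := mul_le_mul_of_nonneg_left hlow hε.le

end Pool.Agent.Lib.MP_aa9b81_an.Tv
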