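import Pool.Agent.Lib.MP_aa9b81_an.Tv.S1

/-!
# Transversals, suspension: compositions, homeomorphisms
-/

open scoped ENNReal Topology CompactlySupported
open Function Filter MeasureTheory

noncomputable section

set_option linter.unusedSectionVars false

namespace Pool.Agent.Lib.MP_aa9b81_an.Tv

open Cut Hs Cb

section Comp

variable {G B Z W : Type} [Group G] [TopologicalSpace G] [IsTopologicalGroup G]
  [LocallyCompactSpace G] [SecondCountableTopology G] [T2Space G] [MeasurableSpace G] [BorelSpace G]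
  [TopologicalSpace B] [T2Space B] [MulAction G B] [ContinuousSMul G B]
  [TopologicalSpace Z] [T2Space Z] [MulAction G Z] [ContinuousSMul G Z]
  [TopologicalSpace W] [T2Space W] [MulAction G W] [ContinuousSMul G W]

theorem pullU_id (u : (FamG G ℕ B)ˣ) : pullU (id : B → B) u = u :=
  Units.ext (FamG.ext fun _ => rfl)

theorem pullU_comp (q : W → Z) (p : Z → B) (u : (FamG G ℕ B)ˣ) :
    pullU (fun w => p (q w)) u = pullU q (pullU p u) :=
  Units.ext (FamG.ext fun _ => rfl)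

/-- The restriction of an element of `GL1`. -/
theorem pullU_GL1 {p : Z → B} (hp : IsProperMap p) (he : ∀ (g : G) z, p (g • z) = g • p z)
    {u : (FamG G ℕ B)ˣ} (hu : u ∈ GL1 (cpG G ℕ B)) : pullU p u ∈ GL1 (cpG G ℕ Z) :=
  GL1_map (pullG_mem hp he) hu

/-- The restriction of an element of `E1`. -/
theorem pullU_E1 {p : Z → B} (hp : IsProperMap p) (he : ∀ (g : G) z, p (g • z) = g • p z)
    {u : (FamG G ℕ B)ˣ} (hu : u ∈ E1 (cpG G ℕ B)) : pullU p u ∈ E1 (cpG G ℕ Z) :=
  E1_map (norm_pullG_le p) (pullG_mem hp he) hu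

theorem InjG.id : InjG G (id : B → B) := by
  intro u _ h
  rwa [pullU_id] at h

theorem SurG.id : SurG G (id : B → B) := by
  intro v hv
  refine ⟨v, hv, ?_⟩
  rw [pullU_id, inv_mul_cancel]
  exact one_mem _

/-- `W → Z → B`. -/
theorem InjG.comp {q : W → Z} {p : Z → B} (hq : InjG G q) (hp : InjG G p) (hpp : IsProperMap p)
    (hpe : ∀ (g : G) z, p (g • z) = g • p z) : InjG G (fun w => p (q w)) := by
  intro u hu h
  rw [pullU_comp] at h
  exact hp u hu (hq _ (pullU_GL1 hpp hpe hu) h)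

theorem SurG.comp {q : W → Z} {p : Z → B} (hq : SurG G q) (hp : SurG G p) (hqp : IsProperMap q)
    (hqe : ∀ (g : G) w, q (g • w) = g • q w) : SurG G (fun w => p (q w)) := by
  intro v hv
  obtain ⟨z, hz, hz2⟩ := hq v hv
  obtain ⟨u, hu, hu2⟩ := hp z hz
  refine ⟨u, hu, ?_⟩
  have h1 := mul_mem (pullU_E1 hqp hqe hu2) hz2
  rw [map_mul, map_inv, ← pullU_comp] at h1
  have e : (pullU (fun w => p (q w)) u)⁻¹ * pullU q z * ((pullU q z)⁻¹ * v) =
      (pullU (fun w => p (q w)) u)⁻¹ * v := by group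
  rwa [e] at h1

/-- If `p ∘ q` is injective, then `p` is injective. -/
theorem InjG.of_comp {q : W → Z} {p : Z → B} (h : InjG G (fun w => p (q w))) (hqp : IsProperMap q)
    (hqe : ∀ (g : G) w, q (g • w) = g • q w) : InjG G p := by
  intro u hu hu2
  refine h u hu ?_
  rw [pullU_comp]
  exact pullU_E1 hqp hqe hu2

/-- If `p ∘ q` is surjective, then `q` is surjective. -/
theorem SurG.of_comp {q : W → Z} {p : Z → B} (h : SurG G (fun w => p (q w))) (hpp : IsProperMap p)
    (hpe : ∀ (g : G) z, p (g • z) = g • p z) : SurG G q := by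
  intro v hv
  obtain ⟨u, hu, hu2⟩ := h v hv
  refine ⟨pullU p u, pullU_GL1 hpp hpe hu, ?_⟩
  rwa [pullU_comp] at hu2

/-- If `p ∘ q` is surjective and `q` is injective, then `p` is surjective. -/
theorem SurG.of_comp_inj {q : W → Z} {p : Z → B} (h : SurG G (fun w => p (q w))) (hq : InjG G q)
    (hpp : IsProperMap p) (hpe : ∀ (g : G) z, p (g • z) = g • p z) (hqp : IsProperMap q)
    (hqe : ∀ (g : G) w, q (g • w) = g • q w) : SurG G p := by
  intro z hz
  obtain ⟨u, hu, hu2⟩ := h _ (pullU_GL1 hqp hqe hz)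
  refine ⟨u, hu, hq _ (mul_mem (inv_mem (pullU_GL1 hpp hpe hu)) hz) ?_⟩
  rw [map_mul, map_inv, ← pullU_comp]
  exact hu2

/-- If `p ∘ q` is injective and `p` is surjective, then `q` is injective. -/
theorem InjG.of_comp_sur {q : W → Z} {p : Z → B} (h : InjG G (fun w => p (q w))) (hp : SurG G p)
    (hpp : IsProperMap p) (hpe : ∀ (g : G) z, p (g • z) = g • p z) (hqp : IsProperMap q)
    (hqe : ∀ (g : G) w, q (g • w) = g • q w) : InjG G q := by
  intro z hz hz2
  obtain ⟨u, hu, hu2⟩ := hp z hz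
  have h1 : pullU (fun w => p (q w)) u ∈ E1 (cpG G ℕ W) := by
    have h2 := pullU_E1 hqp hqe hu2
    rw [map_mul, map_inv, ← pullU_comp] at h2
    have h3 := mul_mem hz2 (inv_mem h2)
    have e : pullU q z * ((pullU (fun w => p (q w)) u)⁻¹ * pullU q z)⁻¹ =
        pullU (fun w => p (q w)) u := by group
    rwa [e] at h3
  have h2 := mul_mem (pullU_E1 hpp hpe (h u hu h1)) hu2
  have e : pullU p u * ((pullU p u)⁻¹ * z) = z := by group
  rwa [e] at h2

end Comp

section Homeo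

variable {G B Z B₂ Z₂ : Type} [Group G] [TopologicalSpace G] [IsTopologicalGroup G]
  [LocallyCompactSpace G] [SecondCountableTopology G] [T2Space G] [MeasurableSpace G] [BorelSpace G]
  [TopologicalSpace B] [T2Space B] [MulAction G B] [ContinuousSMul G B]
  [TopologicalSpace Z] [T2Space Z] [MulAction G Z] [ContinuousSMul G Z]
  [TopologicalSpace B₂] [T2Space B₂] [MulAction G B₂] [ContinuousSMul G B₂]
  [TopologicalSpace Z₂] [T2Space Z₂] [MulAction G Z₂] [ContinuousSMul G Z₂]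

theorem symm_equi {α : B ≃ₜ B₂} (hα : ∀ (g : G) b, α (g • b) = g • α b) (g : G) (b : B₂) :
    α.symm (g • b) = g • α.symm b := by
  rw [α.symm_apply_eq, hα, α.apply_symm_apply]

theorem pullU_symm (α : B ≃ₜ B₂) (u : (FamG G ℕ B₂)ˣ) : pullU α.symm (pullU α u) = u := by
  refine Units.ext (FamG.ext fun y => ?_)
  change (u : FamG G ℕ B₂) (α (α.symm y)) = (u : FamG G ℕ B₂) y
  rw [α.apply_symm_apply]

theorem VanG.of_homeomorph (α : B ≃ₜ B₂) (hα : ∀ (g : G) b, α (g • b) = g • α b)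
    (h : VanG G B) : VanG G B₂ := by
  intro u hu
  have h1 := pullU_E1 α.symm.isProperMap (symm_equi hα) (h (pullU_GL1 α.isProperMap hα hu))
  rwa [pullU_symm] at h1

theorem vanG_iff (α : B ≃ₜ B₂) (hα : ∀ (g : G) b, α (g • b) = g • α b) :
    VanG G B ↔ VanG G B₂ :=
  ⟨VanG.of_homeomorph α hα, VanG.of_homeomorph α.symm (symm_equi hα)⟩

theorem InjG.homeomorph (α : B ≃ₜ B₂) (hα : ∀ (g : G) b, α (g • b) = g • α b) :
    InjG G (α : B → B₂) := by
  intro u _ h2
  have h1 := pullU_E1 α.symm.isProperMap (symm_equi hα) h2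
  rwa [pullU_symm] at h1

theorem SurG.homeomorph (α : B ≃ₜ B₂) (hα : ∀ (g : G) b, α (g • b) = g • α b) :
    SurG G (α : B → B₂) := by
  intro v hv
  refine ⟨pullU α.symm v, pullU_GL1 α.symm.isProperMap (symm_equi hα) hv, ?_⟩
  have h1 : pullU (α : B → B₂) (pullU α.symm v) = v := pullU_symm α.symm v
  rw [h1, inv_mul_cancel]
  exact one_mem _

theorem InjG.transport (α : B ≃ₜ B₂) (β : Z ≃ₜ Z₂) (hα : ∀ (g : G) b, α (g • b) = g • α b)
    (hβ : ∀ (g : G) z, β (g • z) = g • β z) {p : Z → B} {p₂ : Z₂ → B₂}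
    (h : ∀ z, p₂ (β z) = α (p z)) (hp : InjG G p) : InjG G p₂ := by
  intro u hu h2
  have h1 : pullU p (pullU α u) = pullU β (pullU p₂ u) := by
    refine Units.ext (FamG.ext fun z => ?_)
    change (u : FamG G ℕ B₂) (α (p z)) = (u : FamG G ℕ B₂) (p₂ (β z))
    rw [h]
  have h3 := hp (pullU α u) (pullU_GL1 α.isProperMap hα hu) (by
    rw [h1]
    exact pullU_E1 β.isProperMap hβ h2)
  have h4 := pullU_E1 α.symm.isProperMap (symm_equi hα) h3
  rwa [pullU_symm] at h4

theorem SurG.transport (α : B ≃ₜ B₂) (β : Z ≃ₜ Z₂) (hα : ∀ (g : G) b, α (g • b) = g • α b)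
    (hβ : ∀ (g : G) z, β (g • z) = g • β z) {p : Z → B} {p₂ : Z₂ → B₂}
    (h : ∀ z, p₂ (β z) = α (p z)) (hp : SurG G p) : SurG G p₂ := by
  intro v hv
  obtain ⟨u, hu, hu2⟩ := hp _ (pullU_GL1 β.isProperMap hβ hv)
  refine ⟨pullU α.symm u, pullU_GL1 α.symm.isProperMap (symm_equi hα) hu, ?_⟩
  have h1 : pullU p₂ (pullU α.symm u) = pullU β.symm (pullU p u) := by
    refine Units.ext (FamG.ext fun z => ?_)
    change (u : FamG G ℕ B) (α.symm (p₂ z)) = (u : FamG G ℕ B) (p (β.symm z))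
    have h2 := h (β.symm z)
    rw [β.apply_symm_apply] at h2
    rw [h2, α.symm_apply_apply]
  have h3 := pullU_E1 β.symm.isProperMap (symm_equi hβ) hu2
  rw [map_mul, map_inv, ← h1, pullU_symm] at h3
  exact h3

theorem injG_iff (α : B ≃ₜ B₂) (β : Z ≃ₜ Z₂) (hα : ∀ (g : G) b, α (g • b) = g • α b)
    (hβ : ∀ (g : G) z, β (g • z) = g • β z) {p : Z → B} {p₂ : Z₂ → B₂}
    (h : ∀ z, p₂ (β z) = α (p z)) : InjG G p ↔ InjG G p₂ :=
  ⟨InjG.transport α β hα hβ h, InjG.transport α.symm β.symm (symm_equi hα) (symm_equi hβ)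
    fun z => by rw [α.eq_symm_apply, ← h, β.apply_symm_apply]⟩

theorem surG_iff (α : B ≃ₜ B₂) (β : Z ≃ₜ Z₂) (hα : ∀ (g : G) b, α (g • b) = g • α b)
    (hβ : ∀ (g : G) z, β (g • z) = g • β z) {p : Z → B} {p₂ : Z₂ → B₂}
    (h : ∀ z, p₂ (β z) = α (p z)) : SurG G p ↔ SurG G p₂ :=
  ⟨SurG.transport α β hα hβ h, SurG.transport α.symm β.symm (symm_equi hα) (symm_equi hβ)
    fun z => by rw [α.eq_symm_apply, ← h, β.apply_symm_apply]⟩

end Homeo

/-- `Cube (j + 1) ≃ Cube j × (0,1)`. -/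
def cubeH (j : ℕ) : Cube (j + 1) ≃ₜ Cube j × OO := (exists_cubeHomeo j).some

/-- Re-association `(B × W × Z) × (0,1) ≃ B × W × (Z × (0,1))`. -/
def asc (B W Z : Type) [TopologicalSpace B] [TopologicalSpace W] [TopologicalSpace Z] :
    (B × W × Z) × OO ≃ₜ B × W × (Z × OO) where
  toFun x := (x.1.1, x.1.2.1, (x.1.2.2, x.2))
  invFun y := ((y.1, y.2.1, y.2.2.1), y.2.2.2)
  left_inv _ := rfl
  right_inv _ := rfl
  continuous_toFun := by fun_prop
  continuous_invFun := by fun_prop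

section Asc

variable {G B C W Z : Type} [Group G] [TopologicalSpace G] [IsTopologicalGroup G]
  [LocallyCompactSpace G] [SecondCountableTopology G] [T2Space G] [MeasurableSpace G] [BorelSpace G]
  [TopologicalSpace B] [T2Space B] [MulAction G B] [ContinuousSMul G B]
  [TopologicalSpace C] [T2Space C] [MulAction G C] [ContinuousSMul G C]
  [TopologicalSpace W] [T2Space W] [MulAction G W] [ContinuousSMul G W]
  [TopologicalSpace Z] [T2Space Z] [MulAction G Z] [ContinuousSMul G Z]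

theorem vanG_asc : VanG G ((B × W × Z) × OO) ↔ VanG G (B × W × (Z × OO)) :=
  vanG_iff (asc B W Z) fun _ _ => rfl

theorem injG_asc {p : C → B} :
    InjG G (Prod.map (fun x : C × W × Z => ((p x.1, x.2) : B × W × Z)) (id : OO → OO)) ↔
      InjG G (fun x : C × W × (Z × OO) => ((p x.1, x.2) : B × W × (Z × OO))) :=
  injG_iff (asc B W Z) (asc C W Z) (fun _ _ => rfl) (fun _ _ => rfl) fun _ => rfl

theorem surG_asc {p : C → B} :
    SurG G (Prod.map (fun x : C × W × Z => ((p x.1, x.2) : B × W × Z)) (id : OO → OO)) ↔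
      SurG G (fun x : C × W × (Z × OO) => ((p x.1, x.2) : B × W × (Z × OO))) :=
  surG_iff (asc B W Z) (asc C W Z) (fun _ _ => rfl) (fun _ _ => rfl) fun _ => rfl

/-- `B × W × (Cube j × (0,1)) ≃ B × W × Cube (j + 1)`. -/
def cubeP (B W : Type) [TopologicalSpace B] [TopologicalSpace W] (j : ℕ) :
    B × W × (Cube j × OO) ≃ₜ B × W × Cube (j + 1) :=
  (Homeomorph.refl B).prodCongr ((Homeomorph.refl W).prodCongr (cubeH j).symm)

theorem vanG_cube {j : ℕ} : VanG G (B × W × (Cube j × OO)) ↔ VanG G (B × W × Cube (j + 1)) :=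
  vanG_iff (cubeP B W j) fun _ _ => rfl

theorem injG_cube {p : C → B} {j : ℕ} :
    InjG G (fun x : C × W × (Cube j × OO) => ((p x.1, x.2) : B × W × (Cube j × OO))) ↔
      InjG G (fun x : C × W × Cube (j + 1) => ((p x.1, x.2) : B × W × Cube (j + 1))) :=
  injG_iff (cubeP B W j) (cubeP C W j) (fun _ _ => rfl) (fun _ _ => rfl) fun _ => rfl

theorem surG_cube {p : C → B} {j : ℕ} :
    SurG G (fun x : C × W × (Cube j × OO) => ((p x.1, x.2) : B × W × (Cube j × OO))) ↔
      SurG G (fun x : C × W × Cube (j + 1) => ((p x.1, x.2) : B × W × Cube (j + 1))) :=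
  surG_iff (cubeP B W j) (cubeP C W j) (fun _ _ => rfl) (fun _ _ => rfl) fun _ => rfl

end Asc

end Pool.Agent.Lib.MP_aa9b81_an.Tv
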