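import Pool.Agent.Lib.MP_aa9b81_an.Tv.I2
import Pool.Agent.Lib.MP_aa9b81_an.Tv.E3
import Pool.Agent.Lib.MP_aa9b81_an.Tv.S3
import Pool.Agent.Lib.MP_aa9b81_an.Tv.F9
import Pool.Agent.Lib.MP_aa9b81_an.Mg.G053
import Pool.Agent.Lib.MP_aa9b81_an.Tv.R1

/-!
# Transversals, part I3: the theorem
-/

open scoped ENNReal Topology CompactlySupported
open Function Filter MeasureTheory

noncomputable section

set_option linter.unusedSectionVars false

namespace Pool.Agent.Lib.MP_aa9b81_an.Tv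

open Cut Hs Cb

section Slice

variable {G M X Z E : Type} [Group G] [TopologicalSpace G] [IsTopologicalGroup G]
  [LocallyCompactSpace G] [SecondCountableTopology G] [T2Space G] [MeasurableSpace G] [BorelSpace G]
  [Group M] [TopologicalSpace M] [IsTopologicalGroup M]
  [LocallyCompactSpace M] [SecondCountableTopology M] [T2Space M] [MeasurableSpace M] [BorelSpace M]
  [TopologicalSpace X] [T2Space X] [LocallyCompactSpace X] [MulAction G X] [ContinuousSMul G X]
  [TopologicalSpace Z] [T2Space Z] [LocallyCompactSpace Z] [MulAction G Z] [ContinuousSMul G Z]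
  [AddCommGroup E] [Module ℝ E]
  [TopologicalSpace E] [T2Space E] [ContinuousAdd E] [ContinuousSMul ℝ E] [DistribMulAction G E]
  [SMulCommClass G ℝ E] [ContinuousConstSMul G E]
  {V' : Set (G × M)} {Δ : Df (G × M) (XM X M) V'} {c : XM X M → ℝ} {Q : ConvexSpace G E}
  {p : Z → X} {e : Z × M ≃ₜ (FS Δ c).Pt}

/-- The cone and the cube for the group `G × M`. -/
def wM (M : Type) [Group M] (Q : ConvexSpace G E) (j : ℕ) :
    Cone Q × Cube j ≃ₜ Cone (cvxM M Q) × Cube j :=
  (coneM M Q).prodCongr (Homeomorph.refl _)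

theorem wM_smul (j : ℕ) (g : G) (m : M) (x : Cone Q × Cube j) :
    wM M Q j (g • x) = (g, m) • wM M Q j x := rfl

theorem slice_inj (hA : PropAG (G × M)) (hV' : IsOpen V') (h1' : (1 : G × M) ∈ V')
    (hc : Continuous c) (hp : IsProperMap p) (hpe : ∀ (g : G) z, p (g • z) = g • p z)
    (he : Slice G M e) (hb : ∀ z m, FS.base Δ c (e (z, m)) = ((p z, m) : XM X M))
    (hQ : Continuous fun p : G × Q.Pt => p.1 • p.2) (j : ℕ) :
    InjG G (fun x : Z × Cone Q × Cube j => ((p x.1, x.2) : X × Cone Q × Cube j)) := by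
  have hVn : V' ∈ 𝓝 (1 : G × M) := hV'.mem_nhds h1'
  have := Prs.t2Space Δ hVn
  have := Prs.continuousSMul Δ hVn
  have hQ' := cvxM_cont (M := M) hQ
  have := cone_continuousSMul (cvxM M Q) hQ'
  have := cone_continuousSMul Q hQ
  refine injG_of_slice (M := M) (e := slP (slX X M) (wM M Q j)) (f := slP e (wM M Q j))
    (slice_slP slice_slX (wM_smul _)) (slice_slP he (wM_smul _)) (hp.prodMap isProperMap_id)
    (fun g z => Prod.ext (hpe g z.1) rfl) (fun z m => ?_)
    (cut_inj (Δ := Δ) (c := c) (Q := cvxM M Q) (Z := Cube j) hA hV' h1' hc hQ')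
  exact Prod.ext (hb z.1 m) rfl

theorem slice_sur (hA : PropAG (G × M)) (hV' : IsOpen V') (h1' : (1 : G × M) ∈ V')
    (hc : Continuous c) (hp : IsProperMap p) (hpe : ∀ (g : G) z, p (g • z) = g • p z)
    (he : Slice G M e) (hb : ∀ z m, FS.base Δ c (e (z, m)) = ((p z, m) : XM X M))
    (hQ : Continuous fun p : G × Q.Pt => p.1 • p.2) (j : ℕ) :
    SurG G (fun x : Z × Cone Q × Cube (j + 1) => ((p x.1, x.2) : X × Cone Q × Cube (j + 1))) := by
  have hVn : V' ∈ 𝓝 (1 : G × M) := hV'.mem_nhds h1'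
  have := Prs.t2Space Δ hVn
  have := Prs.continuousSMul Δ hVn
  have hQ' := cvxM_cont (M := M) hQ
  have := cone_continuousSMul (cvxM M Q) hQ'
  have := cone_continuousSMul Q hQ
  have h2 := surG_cube.1
    (cut_sur (Δ := Δ) (c := c) (Q := cvxM M Q) (Z := Cube j) hA hV' h1' hc hQ')
  refine surG_of_slice (M := M) (e := slP (slX X M) (wM M Q (j + 1)))
    (f := slP e (wM M Q (j + 1)))
    (slice_slP slice_slX (wM_smul _)) (slice_slP he (wM_smul _)) (hp.prodMap isProperMap_id)
    (fun g z => Prod.ext (hpe g z.1) rfl) (fun z m => ?_) h2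
  exact Prod.ext (hb z.1 m) rfl

end Slice

/-- The map `p : Z → X` induces bijections (injections for `j = 0`) of the groups
`K₁(C₀(X × W × (0,1)^j) ⋊_r G)`, for all amenable convex spaces. -/
def Good (G : Type) {X Z : Type} [Group G] [TopologicalSpace G] [IsTopologicalGroup G]
    [LocallyCompactSpace G] [MeasurableSpace G] [BorelSpace G]
    [TopologicalSpace X] [MulAction G X] [TopologicalSpace Z] [MulAction G Z] (p : Z → X) : Prop :=
  ∀ (E : Type) [AddCommGroup E] [Module ℝ E] [TopologicalSpace E] [T2Space E] [ContinuousAdd E]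
    [ContinuousSMul ℝ E] [DistribMulAction G E] [SMulCommClass G ℝ E] [ContinuousConstSMul G E]
    (Q : LC.ConvexSpace G E), ContinuousOn (fun p : G × E => p.1 • p.2) (Set.univ ×ˢ Q.carrier) →
    LC.Amenable Q → LC.K1Inj G (LC.Wsp.map Q p 0) ∧ ∀ j, LC.K1Bij G (LC.Wsp.map Q p (j + 1))

/-- THE THEOREM. -/
theorem transversals {G X : Type} [Group G] [TopologicalSpace G] [IsTopologicalGroup G]
    [LocallyCompactSpace G] [SecondCountableTopology G] [T2Space G] [MeasurableSpace G]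
    [BorelSpace G] [TopologicalSpace X] [T2Space X] [LocallyCompactSpace X]
    [SecondCountableTopology X] [MulAction G X] [ContinuousSMul G X] {V : Set G} (hV : IsOpen V)
    (h1 : (1 : G) ∈ V) (hX : LC.HasBoxes V fun _ : Set X => True) :
    ∃ (Z : Type) (_ : TopologicalSpace Z) (_ : MulAction G Z) (p : Z → X),
      T2Space Z ∧ LocallyCompactSpace Z ∧ SecondCountableTopology Z ∧ ContinuousSMul G Z ∧
      IsProperMap p ∧ Function.Surjective p ∧ (∀ (g : G) z, p (g • z) = g • p z) ∧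
      LC.HasBoxes V (fun T : Set Z => IsTotallyDisconnected T) ∧ Good G p := by
  obtain ⟨V', hV', h1', Δ, c, hc, Z, tZ, aZ, p, e, t2, lc, sc, cs, hp, hps, hpe, he, hb, hbox⟩ :=
    exists_marks hV h1 hX
  refine ⟨Z, tZ, aZ, p, t2, lc, sc, cs, hp, hps, hpe, hbox, ?_⟩
  intro E _ _ _ _ _ _ _ _ _ Q hQ hA
  have hA' : PropAG (G × M2) := (propAG_of_amenable hQ hA).prod propAG_M2
  have hQ' := cvx_cont hQ
  have := cone_continuousSMul (cvx Q) hQ'
  have hi : ∀ j, InjG G (fun x : Z × Cone (cvx Q) × Cube j =>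
      ((p x.1, x.2) : X × Cone (cvx Q) × Cube j)) :=
    slice_inj hA' hV' h1' hc hp hpe he hb hQ'
  have hs : ∀ j, SurG G (fun x : Z × Cone (cvx Q) × Cube (j + 1) =>
      ((p x.1, x.2) : X × Cone (cvx Q) × Cube (j + 1))) :=
    slice_sur hA' hV' h1' hc hp hpe he hb hQ'
  have hP : ∀ j, IsProperMap (fun x : Z × Cone (cvx Q) × Cube j =>
      ((p x.1, x.2) : X × Cone (cvx Q) × Cube j)) := fun j => hp.prodMap isProperMap_id
  have hE : ∀ j (g : G) (x : Z × Cone (cvx Q) × Cube j),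
      ((p (g • x).1, (g • x).2) : X × Cone (cvx Q) × Cube j) =
        g • ((p x.1, x.2) : X × Cone (cvx Q) × Cube j) := fun j g x =>
    Prod.ext (hpe g x.1) rfl
  exact ⟨(I1_k1Inj (hP 0) (hE 0)).2 (hi 0),
    fun j => (I1_k1Bij (hP (j + 1)) (hE (j + 1))).2 ⟨hi (j + 1), hs j⟩⟩

end Pool.Agent.Lib.MP_aa9b81_an.Tv
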