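import Pool.Agent.Lib.MP_aa9b81_an.Mg.G065
import Pool.Agent.Lib.MP_aa9b81_an.Tv.K1

/-!
# Transversals, part K3: block operators are compatible with the local transport
-/

open scoped ENNReal Topology
open Function Filter

noncomputable section

set_option linter.unusedSectionVars false

namespace Pool.Agent.Lib.MP_aa9b81_an.Tv

open Cut Hs Cb

variable {G O Zp K : Type} [Group G] [TopologicalSpace G] [LinearOrder O] [TopologicalSpace Zp]
  [TopologicalSpace K]

/-- The operators of a family, `0` for the label `none`. -/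
def oe {A : Type} [Zero A] (n : K → A) (o : Option K) : A := o.elim 0 n

/-- Two block operators on a finite dimensional space with close labels are close.
PROOF: `norm_le_of_blocks` for `X = Bk κ (oe N) - Bk κ' (oe N)` and the labels
`β ↦ (κ β, κ' β)` on both sides: `prj` of the pair label is `prj κ l * prj κ' k`, so it commutes with
both operators, and `X * prj (l, k) = (oe N l - oe N k) * prj (l, k)`, which is `0` if no `β` has the
labels `(l, k)`, and of norm at most `ε` by `hl`. -/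
theorem norm_Bk_sub_le {P : Type} {κ κ' : P → Option K} {N : K → BL P} {C : ℝ}
    (h : BkOK κ (oe N) C) (h' : BkOK κ' (oe N) C)
    (hc : ∀ q l, Commute (N q) (prj κ l)) (hc' : ∀ q l, Commute (N q) (prj κ' l))
    {ε : ℝ} (hε : 0 ≤ ε)
    (hl : ∀ β, ‖(oe N (κ β) - oe N (κ' β)) * prj (fun β => (κ β, κ' β)) (κ β, κ' β)‖ ≤ ε) :
    ‖Bk κ (oe N) - Bk κ' (oe N)‖ ≤ ε := by
  classical
  have hpp : ∀ l k : Option K, prj (fun β => (κ β, κ' β)) (l, k) = prj κ l * prj κ' k := by
    intro l k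
    refine ContinuousLinearMap.ext fun ξ => ?_
    ext β
    rw [ContinuousLinearMap.mul_apply, prj_apply, prj_apply, prj_apply]
    by_cases h1 : κ β = l
    · by_cases h2 : κ' β = k
      · rw [if_pos (Prod.ext h1 h2), if_pos h1, if_pos h2]
      · rw [if_neg fun h3 => h2 (congrArg Prod.snd h3), if_pos h1, if_neg h2]
    · rw [if_neg fun h3 => h1 (congrArg Prod.fst h3), if_neg h1]
  have hcm : ∀ (τ : P → Option K) (j : Option K) (l k : Option K),
      Commute (prj (fun β => (κ β, κ' β)) (l, k)) (prj τ j) := by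
    intro τ j l k
    refine dia_comm_prj (C := 1) (fun b => ?_) τ j
    split_ifs
    · rw [norm_one]
    · rw [norm_zero]; exact zero_le_one
  have hco : ∀ (q : Option K) (l k : Option K),
      Commute (oe N q) (prj (fun β => (κ β, κ' β)) (l, k)) := by
    intro q l k
    rw [hpp]
    cases q with
    | none => exact Commute.zero_left _
    | some q => exact (hc q l).mul_right (hc' q k)
  refine norm_le_of_blocks (κ₀ := fun β => (κ β, κ' β)) (κ := fun β => (κ β, κ' β)) hε ?_ ?_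
  · rintro ⟨l, k⟩
    have h1 : Commute (Bk κ (oe N)) (prj (fun β => (κ β, κ' β)) (l, k)) :=
      Bk_comm h (fun j => hcm κ j l k) fun q => hco q l k
    have h2 : Commute (Bk κ' (oe N)) (prj (fun β => (κ β, κ' β)) (l, k)) :=
      Bk_comm h' (fun j => hcm κ' j l k) fun q => hco q l k
    exact (h1.sub_left h2).eq.symm
  · rintro ⟨l, k⟩
    have h3 : (Bk κ (oe N) - Bk κ' (oe N)) * prj (fun β => (κ β, κ' β)) (l, k) =
        (oe N l - oe N k) * prj (fun β => (κ β, κ' β)) (l, k) := by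
      have h4 : Bk κ (oe N) * prj (fun β => (κ β, κ' β)) (l, k) =
          oe N l * prj (fun β => (κ β, κ' β)) (l, k) := by
        rw [hpp, ← mul_assoc, Bk_mul_prj h, mul_assoc]
      have h5 : Bk κ' (oe N) * prj (fun β => (κ β, κ' β)) (l, k) =
          oe N k * prj (fun β => (κ β, κ' β)) (l, k) := by
        have h6 : prj κ l * prj κ' k = prj κ' k * prj κ l := by
          have h7 : Commute (prj κ l) (prj κ' k) := by
            refine dia_comm_prj (C := 1) (fun b => ?_) κ' k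
            split_ifs
            · rw [norm_one]
            · rw [norm_zero]; exact zero_le_one
          exact h7.eq
        rw [hpp, h6, ← mul_assoc, Bk_mul_prj h', mul_assoc]
      rw [sub_mul, h4, h5, sub_mul]
    show ‖(Bk κ (oe N) - Bk κ' (oe N)) * prj (fun β => (κ β, κ' β)) (l, k)‖ ≤ ε
    rw [h3]
    by_cases h8 : ∃ β, κ β = l ∧ κ' β = k
    · obtain ⟨β, rfl, rfl⟩ := h8
      exact hl β
    · have h9 : prj (fun β => (κ β, κ' β)) (l, k) = 0 := by
        refine ContinuousLinearMap.ext fun ξ => ?_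
        ext β
        rw [prj_apply, if_neg fun h10 => h8 ⟨β, congrArg Prod.fst h10, congrArg Prod.snd h10⟩]
        rfl
      rw [h9, mul_zero, norm_zero]
      exact hε

/-- The transport of the projections. PROOF: on the basis vectors: `Tr_bv`. -/
theorem prj_comp_Tr {I I₀ O₀ L : Type} [LinearOrder O₀] (e₀ : I₀ ↪ O₀) (e : I ↪ O) (s : I₀ ↪ I)
    (κ : Bs I → L) (k : L) :
    (prj κ k).comp (Tr e₀ e s) = (Tr e₀ e s).comp (prj (fun β => κ (mp s β)) k) := by
  classical
  refine dia_Tr e₀ e s (C := 1) zero_le_one fun b => ?_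
  split_ifs
  · rw [norm_one]
  · rw [norm_zero]; exact zero_le_one

/-- BLOCK OPERATORS AND THE LOCAL TRANSPORT. The operators `n z q` depend on a point `q` of the
compact space `K`, the labels `κ z β` are points of `K` or `none`.
PROOF: let `ε > 0` and `L₁` be given; take `L₀`, `N₀` from `hloc` for `ε / 4`, and
`N' = Bk (fun β₀ => κ z₀ (mp (iL L₀) β₀)) (oe N₀)`. Let `s` be a local section over `L₀`, `z` near
`z₀`, `κ' β₀ = κ z (mp (s z) β₀)`. (1) `X₁ = (Bk (κ z) (oe (n z))).comp Tr - Tr.comp (Bk κ' (oe N₀))` has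
norm at most `ε / 4`: `norm_le_of_blocks` with the labels `κ'` and `κ z` (`prj_comp_Tr`,
`prj_mul_Bk`, `Bk_mul_prj`): `X₁ ∘ prj κ' (some q) = ((n z q).comp Tr - Tr.comp (N₀ q)) ∘ prj κ' (some q)`,
and `0` for `none`. (2) `‖Bk κ' (oe N₀) - N'‖ ≤ ε / 2` for `z` near `z₀`, by `norm_Bk_sub_le`: there are
finitely many `β₀` (`Bs L₀` is finite). If `κ z₀ (mp (iL L₀) β₀) = some q₀` then for `z` near `z₀` the
label `κ z (mp (s z) β₀)` is `some q` with `q` near `q₀` (`hlab`), so `‖N₀ q - N₀ q₀‖ ≤ ε / 2`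
(`hN : Continuous N₀`). If it is `none`, then either `κ' β₀ = none`, or `κ' β₀ = some q`, and
`‖N₀ q * prj (fun β => (κ' β, κ z₀ (mp (iL L₀) β))) (some q, none)‖ ≤ ‖N₀ q * prj (κ z₀ ∘ mp (iL L₀)) none‖ ≤ ε / 4`:
at `z₀` (`LSec.eq`, `Eventually.self_of_nhds`) `n z₀ q ∘ Tr ∘ prj .. none = 0` by `hnv` on the basis
vectors, and `Tr` is isometric. -/
theorem LocAt_Bk [T1Space G] [CompactSpace K] (e : G ↪ O) {D : Zp → Set G}
    {n : Zp → K → BL (Bs G)} {κ : Zp → Bs G → Option K} {z₀ : Zp} {C : ℝ}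
    (hB : ∀ z, BkOK (κ z) (oe (n z)) C)
    (hloc : ∀ ε : ℝ, 0 < ε → ∀ L₁ : Finset G, (L₁ : Set G) ⊆ D z₀ → ∃ L₀ : Finset G, L₁ ⊆ L₀ ∧
      (L₀ : Set G) ⊆ D z₀ ∧ ∃ N₀ : K → BL (Bs L₀), Continuous N₀ ∧
        ∀ s : Zp → (L₀ ↪ G), LSec D z₀ L₀ s → ∀ᶠ z in 𝓝 z₀,
          (∀ q, ‖(n z q).comp (Tr (eL e L₀) e (s z)) - (Tr (eL e L₀) e (s z)).comp (N₀ q)‖ ≤ ε) ∧
          ∀ q l, Commute (N₀ q) (prj (fun β₀ => κ z (mp (s z) β₀)) l))
    (hlab : ∀ L : Finset G, (L : Set G) ⊆ D z₀ → ∀ s : Zp → (L ↪ G), LSec D z₀ L s →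
      ∀ (β : Bs L) (q : K), κ z₀ (mp (iL L) β) = some q → ∀ U ∈ 𝓝 q, ∀ᶠ z in 𝓝 z₀,
        ∃ q' ∈ U, κ z (mp (s z) β) = some q')
    (hnv : ∀ (q : K) (β : Bs G), κ z₀ β = none → n z₀ q (bv β) = 0) :
    LocAt e D (fun z => Bk (κ z) (oe (n z))) z₀ := by
  classical
  intro ε hε L₁ hL₁
  obtain ⟨L₀, hL₁₀, hL₀, N₀, hN₀, hs₀⟩ := hloc (ε / 4) (by positivity) L₁ hL₁
  have hfin : Finite (Bs L₀) := inferInstanceAs (Finite {b : Finset L₀ × Finset L₀ // b.2 ⊆ b.1})
  obtain ⟨M, hM⟩ : ∃ M : ℝ, ∀ q, ‖N₀ q‖ ≤ M := by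
    obtain ⟨M, hM⟩ := isCompact_univ.exists_bound_of_continuousOn (f := N₀) hN₀.continuousOn
    exact ⟨M, fun q => hM q (Set.mem_univ q)⟩
  set M' : ℝ := max M 0 with hM'
  have hM0 : 0 ≤ M' := le_max_right _ _
  have hoe : ∀ k : Option K, ‖oe N₀ k‖ ≤ M' := by
    intro k
    cases k with
    | none => show ‖(0 : BL (Bs L₀))‖ ≤ M'; rw [norm_zero]; exact hM0
    | some q => exact (hM q).trans (le_max_left _ _)
  refine ⟨L₀, hL₁₀, hL₀, Bk (fun β => κ z₀ (mp (iL L₀) β)) (oe N₀), fun s hs => ?_⟩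
  have hev := hs₀ s hs
  have hz₀ := hev.self_of_nhds
  have hsz : s z₀ = iL L₀ := hs.eq
  rw [hsz] at hz₀
  have hcomm : ∀ τ : Bs L₀ → Option K, (∀ q l, Commute (N₀ q) (prj τ l)) →
      ∀ k l, Commute (oe N₀ k) (prj τ l) := by
    intro τ hτ k l
    cases k with
    | none => exact Commute.zero_left _
    | some q => exact hτ q l
  have hOK₀ : BkOK (fun β => κ z₀ (mp (iL L₀) β)) (oe N₀) M' :=
    ⟨hM0, hoe, fun k => hcomm _ hz₀.2 k k⟩
  -- the labels near `z₀`
  have hT : ∀ (σ : L₀ ↪ G) (ξ : L2 (Bs L₀)), ‖ξ‖ ≤ ‖Tr (eL e L₀) e σ ξ‖ := by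
    intro σ ξ
    have h1 : Trs (eL e L₀) e σ (Tr (eL e L₀) e σ ξ) = ξ := by
      have h2 := congrArg (fun T => T ξ) (Trs_Tr (eL e L₀) e σ)
      exact h2
    calc ‖ξ‖ = ‖Trs (eL e L₀) e σ (Tr (eL e L₀) e σ ξ)‖ := by rw [h1]
      _ ≤ ‖Trs (eL e L₀) e σ‖ * ‖Tr (eL e L₀) e σ ξ‖ := ContinuousLinearMap.le_opNorm _ _
      _ ≤ 1 * ‖Tr (eL e L₀) e σ ξ‖ :=
        mul_le_mul_of_nonneg_right (norm_Trs_le _ _ _) (norm_nonneg _)
      _ = _ := one_mul _
  have hnone : ∀ q, ‖N₀ q * prj (fun β => κ z₀ (mp (iL L₀) β)) none‖ ≤ ε / 4 := by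
    intro q
    have h1 : ((n z₀ q).comp (Tr (eL e L₀) e (iL L₀))).comp
        (prj (fun β => κ z₀ (mp (iL L₀) β)) none) = 0 := by
      refine ext_op fun β => ?_
      rw [ContinuousLinearMap.comp_apply, prj_bv]
      by_cases h2 : κ z₀ (mp (iL L₀) β) = none
      · rw [if_pos h2, ContinuousLinearMap.comp_apply, Tr_bv, map_smul, hnv q _ h2, smul_zero]
        rfl
      · rw [if_neg h2, map_zero]
        rfl
    refine ContinuousLinearMap.opNorm_le_bound _ (by positivity) fun ξ => ?_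
    refine (hT (iL L₀) _).trans ?_
    have h3 : Tr (eL e L₀) e (iL L₀) ((N₀ q * prj (fun β => κ z₀ (mp (iL L₀) β)) none) ξ) =
        -(((n z₀ q).comp (Tr (eL e L₀) e (iL L₀)) - (Tr (eL e L₀) e (iL L₀)).comp (N₀ q))
          (prj (fun β => κ z₀ (mp (iL L₀) β)) none ξ)) := by
      have h4 := congrArg (fun T => T ξ) h1
      have h5 : (n z₀ q) (Tr (eL e L₀) e (iL L₀)
          (prj (fun β => κ z₀ (mp (iL L₀) β)) none ξ)) = 0 := h4
      rw [ContinuousLinearMap.sub_apply, ContinuousLinearMap.comp_apply,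
        ContinuousLinearMap.comp_apply, h5, zero_sub, neg_neg, ContinuousLinearMap.mul_apply]
    rw [h3, norm_neg]
    calc _ ≤ ‖(n z₀ q).comp (Tr (eL e L₀) e (iL L₀)) - (Tr (eL e L₀) e (iL L₀)).comp (N₀ q)‖ *
          ‖prj (fun β => κ z₀ (mp (iL L₀) β)) none ξ‖ := ContinuousLinearMap.le_opNorm _ _
      _ ≤ ε / 4 * (‖prj (fun β => κ z₀ (mp (iL L₀) β)) (none : Option K)‖ * ‖ξ‖) :=
        mul_le_mul (hz₀.1 q) (ContinuousLinearMap.le_opNorm _ _) (norm_nonneg _) (by positivity)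
      _ ≤ ε / 4 * (1 * ‖ξ‖) := by
        refine mul_le_mul_of_nonneg_left ?_ (by positivity)
        exact mul_le_mul_of_nonneg_right (norm_prj_le _ _) (norm_nonneg _)
      _ = ε / 4 * ‖ξ‖ := by rw [one_mul]
  have hlabs : ∀ᶠ z in 𝓝 z₀, ∀ β : Bs L₀, ∀ q₀, κ z₀ (mp (iL L₀) β) = some q₀ →
      ∃ q, κ z (mp (s z) β) = some q ∧ ‖N₀ q - N₀ q₀‖ ≤ ε / 2 := by
    rw [eventually_all]
    intro β
    rcases h1 : κ z₀ (mp (iL L₀) β) with _ | q₀
    · exact Eventually.of_forall fun z q₀ h2 => by simp at h2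
    · have h2 : {q : K | ‖N₀ q - N₀ q₀‖ ≤ ε / 2} ∈ 𝓝 q₀ := by
        have h3 := (Metric.continuous_iff'.1 hN₀) q₀ (ε / 2) (by positivity)
        filter_upwards [h3] with q hq
        rw [← dist_eq_norm]
        exact hq.le
      filter_upwards [hlab L₀ hL₀ s hs β q₀ h1 _ h2] with z hz q₁ hq₁
      obtain ⟨q', hq', hκ⟩ := hz
      have h4 : q₀ = q₁ := Option.some_injective _ hq₁
      subst h4
      exact ⟨q', hκ, hq'⟩
  filter_upwards [hev, hlabs] with z hz hlz
  have hOK : BkOK (fun β => κ z (mp (s z) β)) (oe N₀) M' :=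
    ⟨hM0, hoe, fun k => hcomm _ hz.2 k k⟩
  -- the first difference
  have hX₁ : ‖(Bk (κ z) (oe (n z))).comp (Tr (eL e L₀) e (s z)) -
      (Tr (eL e L₀) e (s z)).comp (Bk (fun β => κ z (mp (s z) β)) (oe N₀))‖ ≤ ε / 4 := by
    have hcT : ∀ k, (prj (κ z) k).comp (Tr (eL e L₀) e (s z)) =
        (Tr (eL e L₀) e (s z)).comp (prj (fun β => κ z (mp (s z) β)) k) := fun k =>
      prj_comp_Tr _ _ _ _ _
    refine norm_le_of_blocks (κ₀ := fun β => κ z (mp (s z) β)) (κ := κ z) (by positivity) ?_ ?_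
    · intro k
      rw [ContinuousLinearMap.comp_sub, ContinuousLinearMap.sub_comp]
      congr 1
      · calc (prj (κ z) k).comp ((Bk (κ z) (oe (n z))).comp (Tr (eL e L₀) e (s z))) =
              (prj (κ z) k * Bk (κ z) (oe (n z))).comp (Tr (eL e L₀) e (s z)) := rfl
          _ = (Bk (κ z) (oe (n z)) * prj (κ z) k).comp (Tr (eL e L₀) e (s z)) := by
            rw [prj_mul_Bk (hB z), Bk_mul_prj (hB z), ((hB z).comm k).eq]
          _ = (Bk (κ z) (oe (n z))).comp ((prj (κ z) k).comp (Tr (eL e L₀) e (s z))) := rfl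
          _ = _ := by rw [hcT k]; rfl
      · calc (prj (κ z) k).comp ((Tr (eL e L₀) e (s z)).comp
              (Bk (fun β => κ z (mp (s z) β)) (oe N₀))) =
              ((prj (κ z) k).comp (Tr (eL e L₀) e (s z))).comp
                (Bk (fun β => κ z (mp (s z) β)) (oe N₀)) := rfl
          _ = (Tr (eL e L₀) e (s z)).comp
              (prj (fun β => κ z (mp (s z) β)) k * Bk (fun β => κ z (mp (s z) β)) (oe N₀)) := by
            rw [hcT k]; rfl
          _ = (Tr (eL e L₀) e (s z)).comp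
              (Bk (fun β => κ z (mp (s z) β)) (oe N₀) * prj (fun β => κ z (mp (s z) β)) k) := by
            rw [prj_mul_Bk hOK, Bk_mul_prj hOK, (hOK.comm k).eq]
          _ = _ := rfl
    · intro k
      have h1 : ((Bk (κ z) (oe (n z))).comp (Tr (eL e L₀) e (s z)) -
          (Tr (eL e L₀) e (s z)).comp (Bk (fun β => κ z (mp (s z) β)) (oe N₀))).comp
            (prj (fun β => κ z (mp (s z) β)) k) =
          ((oe (n z) k).comp (Tr (eL e L₀) e (s z)) -
            (Tr (eL e L₀) e (s z)).comp (oe N₀ k)).comp (prj (fun β => κ z (mp (s z) β)) k) := by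
        rw [ContinuousLinearMap.sub_comp, ContinuousLinearMap.sub_comp]
        congr 1
        · calc ((Bk (κ z) (oe (n z))).comp (Tr (eL e L₀) e (s z))).comp
                (prj (fun β => κ z (mp (s z) β)) k) =
                (Bk (κ z) (oe (n z))).comp ((Tr (eL e L₀) e (s z)).comp
                  (prj (fun β => κ z (mp (s z) β)) k)) := rfl
            _ = (Bk (κ z) (oe (n z)) * prj (κ z) k).comp (Tr (eL e L₀) e (s z)) := by
              rw [← hcT k]; rfl
            _ = (oe (n z) k * prj (κ z) k).comp (Tr (eL e L₀) e (s z)) := by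
              rw [Bk_mul_prj (hB z)]
            _ = (oe (n z) k).comp ((prj (κ z) k).comp (Tr (eL e L₀) e (s z))) := rfl
            _ = _ := by rw [hcT k]; rfl
        · calc ((Tr (eL e L₀) e (s z)).comp (Bk (fun β => κ z (mp (s z) β)) (oe N₀))).comp
                (prj (fun β => κ z (mp (s z) β)) k) =
                (Tr (eL e L₀) e (s z)).comp (Bk (fun β => κ z (mp (s z) β)) (oe N₀) *
                  prj (fun β => κ z (mp (s z) β)) k) := rfl
            _ = _ := by rw [Bk_mul_prj hOK]; rfl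
      rw [h1]
      cases k with
      | none =>
        have h2 : (oe (n z) (none : Option K)).comp (Tr (eL e L₀) e (s z)) -
            (Tr (eL e L₀) e (s z)).comp (oe N₀ (none : Option K)) = 0 := by
          show (0 : BL (Bs G)).comp _ - (Tr (eL e L₀) e (s z)).comp (0 : BL (Bs L₀)) = 0
          rw [ContinuousLinearMap.zero_comp, ContinuousLinearMap.comp_zero, sub_zero]
        rw [h2, ContinuousLinearMap.zero_comp, norm_zero]
        positivity
      | some q =>
        calc _ ≤ ‖(n z q).comp (Tr (eL e L₀) e (s z)) - (Tr (eL e L₀) e (s z)).comp (N₀ q)‖ *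
              ‖prj (fun β => κ z (mp (s z) β)) (some q)‖ :=
              ContinuousLinearMap.opNorm_comp_le _ _
          _ ≤ ε / 4 * 1 := mul_le_mul (hz.1 q) (norm_prj_le _ _) (norm_nonneg _) (by positivity)
          _ = ε / 4 := mul_one _
  -- the second difference
  have hX₂ : ‖Bk (fun β => κ z (mp (s z) β)) (oe N₀) -
      Bk (fun β => κ z₀ (mp (iL L₀) β)) (oe N₀)‖ ≤ ε / 2 := by
    refine norm_Bk_sub_le hOK hOK₀ hz.2 hz₀.2 (by positivity) fun β => ?_
    rcases h1 : κ z₀ (mp (iL L₀) β) with _ | q₀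
    · rcases h2 : κ z (mp (s z) β) with _ | q
      · rw [sub_self, zero_mul, norm_zero]
        positivity
      · have h3 : (oe N₀ (some q) - oe N₀ none) *
            prj (fun β => (κ z (mp (s z) β), κ z₀ (mp (iL L₀) β))) (some q, none) =
            (N₀ q * prj (fun β => κ z₀ (mp (iL L₀) β)) none) *
              prj (fun β => (κ z (mp (s z) β), κ z₀ (mp (iL L₀) β))) (some q, none) := by
          rw [mul_assoc]
          congr 1
          · show N₀ q - 0 = N₀ q
            rw [sub_zero]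
          · refine ContinuousLinearMap.ext fun ξ => ?_
            ext b
            rw [ContinuousLinearMap.mul_apply, prj_apply, prj_apply, prj_apply]
            by_cases h4 : (κ z (mp (s z) b), κ z₀ (mp (iL L₀) b)) = (some q, (none : Option K))
            · rw [if_pos h4, if_pos (congrArg Prod.snd h4)]
            · rw [if_neg h4, ite_self]
        rw [h3]
        calc _ ≤ ‖N₀ q * prj (fun β => κ z₀ (mp (iL L₀) β)) none‖ *
              ‖prj (fun β => (κ z (mp (s z) β), κ z₀ (mp (iL L₀) β))) (some q, none)‖ :=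
              norm_mul_le _ _
          _ ≤ ε / 4 * 1 := mul_le_mul (hnone q) (norm_prj_le _ _) (norm_nonneg _) (by positivity)
          _ ≤ ε / 2 := by linarith
    · obtain ⟨q, hq, hqn⟩ := hlz β q₀ h1
      rw [hq]
      calc _ ≤ ‖oe N₀ (some q) - oe N₀ (some q₀)‖ *
            ‖prj (fun β => (κ z (mp (s z) β), κ z₀ (mp (iL L₀) β))) (some q, some q₀)‖ :=
            norm_mul_le _ _
        _ ≤ ε / 2 * 1 := mul_le_mul hqn (norm_prj_le _ _) (norm_nonneg _) (by positivity)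
        _ = ε / 2 := mul_one _
  have hfinal : (Bk (κ z) (oe (n z))).comp (Tr (eL e L₀) e (s z)) -
      (Tr (eL e L₀) e (s z)).comp (Bk (fun β => κ z₀ (mp (iL L₀) β)) (oe N₀)) =
      ((Bk (κ z) (oe (n z))).comp (Tr (eL e L₀) e (s z)) -
        (Tr (eL e L₀) e (s z)).comp (Bk (fun β => κ z (mp (s z) β)) (oe N₀))) +
      (Tr (eL e L₀) e (s z)).comp (Bk (fun β => κ z (mp (s z) β)) (oe N₀) -
        Bk (fun β => κ z₀ (mp (iL L₀) β)) (oe N₀)) := by
    rw [ContinuousLinearMap.comp_sub]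
    abel
  rw [hfinal]
  calc _ ≤ _ := norm_add_le _ _
    _ ≤ ε / 4 + 1 * (ε / 2) := by
      refine add_le_add hX₁ ?_
      exact (ContinuousLinearMap.opNorm_comp_le _ _).trans
        (mul_le_mul (norm_Tr_le _ _ _) hX₂ (norm_nonneg _) zero_le_one)
    _ ≤ ε := by linarith

end Pool.Agent.Lib.MP_aa9b81_an.Tv
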