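import Pool.Agent.Lib.MP_aa9b81_an.Tv.A8
import Pool.Agent.Lib.MP_aa9b81_an.Mg.G069

/-!
# Transversals, part L1: weights, angles and labels
-/

open scoped ENNReal Topology
open Function Filter Topology Set

noncomputable section

set_option linter.unusedSectionVars false

namespace Pool.Agent.Lib.MP_aa9b81_an.Tv

open Cut Hs Cb

section Real

variable {Y : Type}

/-- The weight of the origin. -/
def wgt (c : Y → ℝ) (y : Y) : ℝ := max 0 (max (c y - 2 / 3) (1 / 3 - c y))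

/-- The angle of the origin. -/
def agl (c : Y → ℝ) (y : Y) : ℝ := Real.pi / 2 * min 1 (max 0 (2 - 3 * c y))

theorem wgt_nonneg (c : Y → ℝ) (y : Y) : 0 ≤ wgt c y := le_max_left _ _

theorem wgt_eq_zero_iff (c : Y → ℝ) (y : Y) : wgt c y = 0 ↔ 1 / 3 ≤ c y ∧ c y ≤ 2 / 3 := by
  unfold wgt
  rw [max_eq_left_iff, max_le_iff, sub_nonpos, sub_nonpos]
  exact and_comm

theorem agl_of_ge {c : Y → ℝ} {y : Y} (h : 2 / 3 ≤ c y) : agl c y = 0 := by
  unfold agl
  rw [max_eq_left (by linarith), min_eq_right zero_le_one, mul_zero]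

theorem agl_of_le {c : Y → ℝ} {y : Y} (h : c y ≤ 1 / 3) : agl c y = Real.pi / 2 := by
  unfold agl
  rw [max_eq_right (by linarith), min_eq_left (by linarith), mul_one]

theorem abs_agl_le (c : Y → ℝ) (y : Y) : |agl c y| ≤ Real.pi / 2 := by
  unfold agl
  have h0 : (0 : ℝ) ≤ Real.pi / 2 := by positivity
  have h1 : (0 : ℝ) ≤ min 1 (max 0 (2 - 3 * c y)) := le_min zero_le_one (le_max_left _ _)
  have h2 : min 1 (max 0 (2 - 3 * c y)) ≤ (1 : ℝ) := min_le_left _ _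
  rw [abs_of_nonneg (mul_nonneg h0 h1)]
  exact mul_le_of_le_one_right h0 h2

theorem agl_ne (c : Y → ℝ) (y : Y) (h : agl c y = 0) : 2 / 3 ≤ c y := by
  by_contra hc
  rw [not_le] at hc
  have h0 : (0 : ℝ) < Real.pi / 2 := by positivity
  have h1 : (0 : ℝ) < max 0 (2 - 3 * c y) := lt_max_of_lt_right (by linarith)
  have h2 : (0 : ℝ) < min 1 (max 0 (2 - 3 * c y)) := lt_min zero_lt_one h1
  exact (mul_pos h0 h2).ne' h

theorem agl_ne' (c : Y → ℝ) (y : Y) (h : agl c y = Real.pi / 2) : c y ≤ 1 / 3 := by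
  by_contra hc
  rw [not_le] at hc
  have h0 : (0 : ℝ) < Real.pi / 2 := by positivity
  have h1 : max 0 (2 - 3 * c y) < (1 : ℝ) := max_lt zero_lt_one (by linarith)
  have h2 : min 1 (max 0 (2 - 3 * c y)) < (1 : ℝ) := (min_le_right _ _).trans_lt h1
  have h3 : agl c y < Real.pi / 2 := by
    unfold agl
    exact mul_lt_of_lt_one_right h0 h2
  exact h3.ne h

theorem continuous_wgt [TopologicalSpace Y] {c : Y → ℝ} (hc : Continuous c) :
    Continuous (wgt c) := by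
  unfold wgt
  exact continuous_const.max ((hc.sub continuous_const).max (continuous_const.sub hc))

theorem continuous_agl [TopologicalSpace Y] {c : Y → ℝ} (hc : Continuous c) :
    Continuous (agl c) := by
  unfold agl
  exact continuous_const.mul (continuous_const.min
    (continuous_const.max (continuous_const.sub (continuous_const.mul hc))))

end Real

variable {G E Y : Type} [Group G] [TopologicalSpace G] [AddCommGroup E] [Module ℝ E]
  [TopologicalSpace E] [T2Space E] [ContinuousAdd E] [ContinuousSMul ℝ E] [DistribMulAction G E]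
  [SMulCommClass G ℝ E] [ContinuousConstSMul G E] (Q : ConvexSpace G E)
  [TopologicalSpace Y] [MulAction G Y]

/-- The weight of a set of sites. -/
def wS (c : Y → ℝ) (y : Y) (F : Finset G) : ℝ := ∑ i ∈ F, wgt c (i⁻¹ • y)

theorem wS_nonneg (c : Y → ℝ) (y : Y) (F : Finset G) : 0 ≤ wS c y F :=
  Finset.sum_nonneg fun _ _ => wgt_nonneg _ _

theorem wS_eq_zero_iff (c : Y → ℝ) (y : Y) (F : Finset G) :
    wS c y F = 0 ↔ ∀ i ∈ F, wgt c (i⁻¹ • y) = 0 :=
  Finset.sum_eq_zero_iff_of_nonneg fun _ _ => wgt_nonneg _ _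

open Classical in
/-- The label of a set of sites: the mean of the points `i • q₀`, `i ∈ F`, with the weights of the
sites, and `none` if all the weights are `0`. -/
def lab (c : Y → ℝ) (q₀ : Q.Pt) (y : Y) (F : Finset G) : Option Q.Pt :=
  if h : wS c y F = 0 then none else
    some ⟨∑ i ∈ F, ((wS c y F)⁻¹ * wgt c (i⁻¹ • y)) • (i • q₀).1, Q.convex.sum_mem
      (fun i _ => mul_nonneg (inv_nonneg.2 (wS_nonneg _ _ _)) (wgt_nonneg _ _)) (by
        rw [← Finset.mul_sum]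
        exact inv_mul_cancel₀ h) fun i _ => (i • q₀).2⟩

theorem lab_eq_none_iff (c : Y → ℝ) (q₀ : Q.Pt) (y : Y) (F : Finset G) :
    lab Q c q₀ y F = none ↔ ∀ i ∈ F, wgt c (i⁻¹ • y) = 0 := by
  rw [← wS_eq_zero_iff]
  by_cases h : wS c y F = 0
  · have h1 : lab Q c q₀ y F = none := by
      unfold lab
      rw [dif_pos h]
    exact ⟨fun _ => h, fun _ => h1⟩
  · have h1 : lab Q c q₀ y F ≠ none := by
      unfold lab
      rw [dif_neg h]
      exact Option.some_ne_none _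
    exact ⟨fun h' => absurd h' h1, fun h' => absurd h' h⟩

theorem lab_of_eq {c : Y → ℝ} {q₀ : Q.Pt} {y y' : Y} {F F' : Finset G} {g : G}
    (h1 : wS c y' F' = wS c y F)
    (h2 : ∀ w : ℝ, ∑ i ∈ F', (w * wgt c (i⁻¹ • y')) • (i • q₀).1 =
      g • ∑ i ∈ F, (w * wgt c (i⁻¹ • y)) • (i • q₀).1) :
    lab Q c q₀ y' F' = (lab Q c q₀ y F).map fun q => g • q := by
  by_cases h : wS c y F = 0
  · have h' : wS c y' F' = 0 := h1.trans h
    unfold lab
    rw [dif_pos h, dif_pos h']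
    rfl
  · have h' : wS c y' F' ≠ 0 := by rw [h1]; exact h
    unfold lab
    rw [dif_neg h, dif_neg h']
    show some _ = some _
    congr 1
    refine Subtype.ext ?_
    show ∑ i ∈ F', ((wS c y' F')⁻¹ * wgt c (i⁻¹ • y')) • (i • q₀).1 =
      g • ∑ i ∈ F, ((wS c y F)⁻¹ * wgt c (i⁻¹ • y)) • (i • q₀).1
    rw [h1]
    exact h2 _

/-- PROOF: `Finset.sum_map`; `(g i)⁻¹ • g • y = i⁻¹ • y`; as `Cb.mean_smul`. -/
theorem lab_smul (c : Y → ℝ) (q₀ : Q.Pt) (y : Y) (g : G) (F : Finset G) :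
    lab Q c q₀ (g • y) (gF g F) = (lab Q c q₀ y F).map fun q => g • q := by
  have h0 : ∀ i : G, wgt c ((g * i)⁻¹ • g • y) = wgt c (i⁻¹ • y) := by
    intro i
    rw [mul_inv_rev, mul_smul, inv_smul_smul]
  refine lab_of_eq Q ?_ fun w => ?_
  · unfold wS gF
    rw [Finset.sum_map]
    exact Finset.sum_congr rfl fun i _ => h0 i
  · unfold gF
    rw [Finset.sum_map, Finset.smul_sum]
    refine Finset.sum_congr rfl fun i _ => ?_
    have h3 : (((MulAction.toPerm g : Equiv.Perm G).toEmbedding i) : G) = g * i := rfl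
    rw [h3, h0 i, smul_comm g]
    congr 1
    rw [mul_smul]
    rfl

theorem sum_tg [DecidableEq G] {M : Type} [AddCommMonoid M] {i : G} {f : G → M} (h : f i = 0)
    (F : Finset G) : ∑ j ∈ tg i F, f j = ∑ j ∈ F, f j := by
  unfold tg
  split_ifs with hi
  · rw [← Finset.add_sum_erase F f hi, h, zero_add]
  · rw [Finset.sum_insert hi, h, zero_add]

/-- A site of weight `0` does not matter. -/
theorem lab_tg [DecidableEq G] (c : Y → ℝ) (q₀ : Q.Pt) {y : Y} {i : G}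
    (h : wgt c (i⁻¹ • y) = 0) (F : Finset G) : lab Q c q₀ y (tg i F) = lab Q c q₀ y F := by
  have h1 : lab Q c q₀ y (tg i F) = (lab Q c q₀ y F).map fun q => (1 : G) • q := by
    refine lab_of_eq Q ?_ fun w => ?_
    · exact sum_tg (f := fun j => wgt c (j⁻¹ • y)) h F
    · rw [one_smul]
      refine sum_tg (f := fun j => (w * wgt c (j⁻¹ • y)) • (j • q₀).1) ?_ F
      show (w * wgt c (i⁻¹ • y)) • (i • q₀).1 = 0
      rw [h, mul_zero, zero_smul]
  rw [h1]
  have h2 : (fun q : Q.Pt => (1 : G) • q) = id := funext fun q => one_smul G q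
  rw [h2, Option.map_id]
  rfl

/-- PROOF: `lab_tg`; `(fl i β).F` is `β.F` or `tg i β.F`. -/
theorem lab_fl [DecidableEq G] (c : Y → ℝ) (q₀ : Q.Pt) {y : Y} {i : G}
    (h : wgt c (i⁻¹ • y) = 0) (β : Bs G) : lab Q c q₀ y (fl i β).F = lab Q c q₀ y β.F := by
  by_cases hi : i ∈ β.S
  · rw [D6_fl_of_mem hi]
  · rw [D7_fl_F hi]
    exact lab_tg Q c q₀ h β.F

theorem agl_cases (c : Y → ℝ) (y : Y) :
    agl c y = 0 ∨ agl c y = Real.pi / 2 ∨ (1 / 3 < c y ∧ c y < 2 / 3) := by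
  rcases le_or_gt (2 / 3) (c y) with h | h
  · exact Or.inl (agl_of_ge h)
  · rcases le_or_gt (c y) (1 / 3) with h' | h'
    · exact Or.inr (Or.inl (agl_of_le h'))
    · exact Or.inr (Or.inr ⟨h', h⟩)

/-- The condition of `nA_comm_dia`, `SHA_comm_prj` and `rot_comm_dia`. -/
theorem lab_site [DecidableEq G] (c : Y → ℝ) (q₀ : Q.Pt) (y : Y) (i : G) :
    aS (agl c) y i = 0 ∨ aS (agl c) y i = Real.pi / 2 ∨
      ∀ β : Bs G, lab Q c q₀ y (fl i β).F = lab Q c q₀ y β.F := by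
  rcases agl_cases c (i⁻¹ • y) with h | h | h
  · exact Or.inl h
  · exact Or.inr (Or.inl h)
  · exact Or.inr (Or.inr fun β =>
      lab_fl Q c q₀ ((wgt_eq_zero_iff c _).2 ⟨h.1.le, h.2.le⟩) β)

/-- The same for the sites of a local section, near `z₀`. PROOF: if `agl c ((i.1)⁻¹ • y z₀)` is not `0`
and not `π / 2` then `1/3 < c < 2/3` at `(i.1)⁻¹ • y z₀`, so also at `(s z i)⁻¹ • y z` for `z` near `z₀`,
where the weight is `0`; `mp_fl`, `lab_fl`. -/
theorem lab_site_near [DecidableEq G] [IsTopologicalGroup G] [ContinuousSMul G Y] {c : Y → ℝ}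
    (hc : Continuous c) (q₀ : Q.Pt)
    {Zp : Type} [TopologicalSpace Zp] {y : Zp → Y} (hy : Continuous y) {z₀ : Zp} {L : Finset G}
    {s : Zp → (L ↪ G)} (hs : ∀ i, Tendsto (fun z => s z i) (𝓝 z₀) (𝓝 i.1)) :
    ∀ᶠ z in 𝓝 z₀, ∀ i : L, aS (agl c) (y z₀) i.1 = 0 ∨ aS (agl c) (y z₀) i.1 = Real.pi / 2 ∨
      ∀ β : Bs L, lab Q c q₀ (y z) (mp (s z) (fl i β)).F = lab Q c q₀ (y z) (mp (s z) β).F := by
  rw [Filter.eventually_all]
  intro i
  rcases agl_cases c ((i.1)⁻¹ • y z₀) with h | h | h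
  · exact Eventually.of_forall fun _ => Or.inl h
  · exact Eventually.of_forall fun _ => Or.inr (Or.inl h)
  · have h1 : Tendsto (fun z => c ((s z i)⁻¹ • y z)) (𝓝 z₀) (𝓝 (c ((i.1)⁻¹ • y z₀))) :=
      (hc.tendsto _).comp ((hs i).inv.smul (hy.tendsto z₀))
    have h2 : ∀ᶠ z in 𝓝 z₀, c ((s z i)⁻¹ • y z) ∈ Ioo (1 / 3 : ℝ) (2 / 3) :=
      h1 (isOpen_Ioo.mem_nhds h)
    filter_upwards [h2] with z hz
    refine Or.inr (Or.inr fun β => ?_)
    rw [mp_fl]
    exact lab_fl Q c q₀ ((wgt_eq_zero_iff c _).2 ⟨hz.1.le, hz.2.le⟩) (mp (s z) β)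

theorem tendsto_wgt_sec [IsTopologicalGroup G] [ContinuousSMul G Y] {c : Y → ℝ}
    (hc : Continuous c) {Zp : Type} [TopologicalSpace Zp] {y : Zp → Y} (hy : Continuous y)
    {z₀ : Zp} {L : Finset G} {s : Zp → (L ↪ G)} (hs : ∀ i, Tendsto (fun z => s z i) (𝓝 z₀) (𝓝 i.1))
    (i : L) : Tendsto (fun z => wgt c ((s z i)⁻¹ • y z)) (𝓝 z₀) (𝓝 (wgt c ((i.1)⁻¹ • y z₀))) :=
  ((continuous_wgt hc).tendsto _).comp ((hs i).inv.smul (hy.tendsto z₀))

/-- The continuity of the labels along local sections. PROOF: `Finset.sum_map`; the finite sums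
converge, the limit of `wS` is not `0`; `hQ`; as `Cb.tendsto_mean`. -/
theorem tendsto_lab [IsTopologicalGroup G] [ContinuousSMul G Y] {c : Y → ℝ} (hc : Continuous c)
    (hQ : Continuous fun p : G × Q.Pt => p.1 • p.2) (q₀ : Q.Pt)
    {Zp : Type} [TopologicalSpace Zp] {y : Zp → Y} (hy : Continuous y) {z₀ : Zp} {L : Finset G}
    {s : Zp → (L ↪ G)} (hs : ∀ i, Tendsto (fun z => s z i) (𝓝 z₀) (𝓝 i.1)) (F : Finset L)
    {q : Q.Pt} (hq : lab Q c q₀ (y z₀) (F.map (iL L)) = some q) {U : Set Q.Pt} (hU : U ∈ 𝓝 q) :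
    ∀ᶠ z in 𝓝 z₀, ∃ q' ∈ U, lab Q c q₀ (y z) (F.map (s z)) = some q' := by
  have hw := fun i => tendsto_wgt_sec hc hy hs i
  have hW : ∀ (y' : Y) (t : L ↪ G), wS c y' (F.map t) = ∑ i ∈ F, wgt c ((t i)⁻¹ • y') := by
    intro y' t
    unfold wS
    rw [Finset.sum_map]
  have h1 : Tendsto (fun z => wS c (y z) (F.map (s z))) (𝓝 z₀)
      (𝓝 (wS c (y z₀) (F.map (iL L)))) := by
    simp only [hW]
    exact tendsto_finsetSum _ fun i _ => hw i
  have h0 : wS c (y z₀) (F.map (iL L)) ≠ 0 := by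
    intro h
    unfold lab at hq
    rw [dif_pos h] at hq
    exact Option.some_ne_none _ hq.symm
  have hind : IsInducing (fun q : Q.Pt => q.1) :=
    (IsInducing.subtypeVal : IsInducing (Subtype.val : Q.carrier → E))
  have h5 : Continuous fun g : G => (g • q₀).1 :=
    hind.continuous.comp (hQ.comp (continuous_id.prodMk continuous_const))
  have h2 : Tendsto (fun z => ∑ i ∈ F.map (s z),
      ((wS c (y z) (F.map (s z)))⁻¹ * wgt c (i⁻¹ • y z)) • (i • q₀).1) (𝓝 z₀)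
      (𝓝 (∑ i ∈ F.map (iL L),
        ((wS c (y z₀) (F.map (iL L)))⁻¹ * wgt c (i⁻¹ • y z₀)) • (i • q₀).1)) := by
    simp only [Finset.sum_map]
    refine tendsto_finsetSum _ fun i _ => ?_
    exact ((h1.inv₀ h0).mul (hw i)).smul ((h5.tendsto i.1).comp (hs i))
  have hq1 : ∑ i ∈ F.map (iL L),
      ((wS c (y z₀) (F.map (iL L)))⁻¹ * wgt c (i⁻¹ • y z₀)) • (i • q₀).1 = q.1 := by
    unfold lab at hq
    rw [dif_neg h0] at hq
    exact congrArg Subtype.val (Option.some_injective _ hq)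
  rw [hq1] at h2
  rw [hind.nhds_eq_comap, Filter.mem_comap] at hU
  obtain ⟨U', hU', hsub⟩ := hU
  filter_upwards [h2 hU', h1.eventually_ne h0] with z hz hz0
  have hz1 : ∑ i ∈ F.map (s z),
      ((wS c (y z) (F.map (s z)))⁻¹ * wgt c (i⁻¹ • y z)) • (i • q₀).1 ∈ U' := hz
  unfold lab
  rw [dif_neg hz0]
  exact ⟨_, hsub hz1, rfl⟩

end Pool.Agent.Lib.MP_aa9b81_an.Tv
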