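import Pool.Agent.Lib.MP_aa9b81_an.Tv.L1
import Pool.Agent.Lib.MP_aa9b81_an.Tv.K3
import Pool.Agent.Lib.MP_aa9b81_an.Mg.G034
import Pool.Agent.Lib.MP_aa9b81_an.Mg.G067

/-!
# Transversals, part L2: the symbol of the label stage
-/

open scoped ENNReal Topology
open Function Filter Topology Set

noncomputable section

set_option linter.unusedSectionVars false

namespace Pool.Agent.Lib.MP_aa9b81_an.Tv

open Cut Hs Cb

section Gen

variable {G O Y P : Type} [Group G] [TopologicalSpace G] [DecidableEq G] [LinearOrder O]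
  [TopologicalSpace Y] [MulAction G Y] [TopologicalSpace P]
  {V : Set G} {Δ : Df G Y V} {φ : Prs Δ × P → G → ℂ}

/-- PROOF: `rot_bv_eq_zero` for `D = (Δ.D b.1).s`, `N = {i | wgt c (i⁻¹ • b.1) ≠ 0}`, the angles
`aS (agl c) b.1`. On `N` the angle is `0` (then `2/3 < c`) or `π / 2` (then `c < 1/3`):
`wgt_eq_zero_iff`, `agl_of_ge`, `agl_of_le`. If `T i = false` at the sites `i ∈ D` with `2/3 < c(i⁻¹ y)` and
`T i = true` at those with `c(i⁻¹ y) < 1/3` then `Δ.pt b.1 {x | T x = false}` is in `FS Δ c`. -/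
theorem nA_bv_eq_zero [IsTopologicalGroup G] [T2Space G] [LocallyCompactSpace G]
    (hV : V ∈ 𝓝 (1 : G)) {c : Y → ℝ} (hφ : Cc _ G φ)
    (hF : ∀ x ∈ (FS Δ c).carrier, ∀ p g, φ (x, p) g = 0) {b : Y × P} {g : G} {β : Bs G}
    (hβ : ∀ i ∈ β.F, wgt c (i⁻¹ • b.1) = 0) : nA Δ (agl c) φ b g (bv β) = 0 := by
  have hpi : (Real.pi / 2 : ℝ) ≠ 0 := by positivity
  refine rot_bv_eq_zero (continuous_f2 hV hφ b g) (dep_f2 b g)
    (N := {i | wgt c (i⁻¹ • b.1) ≠ 0}) ?_ (fun i hi hn => hn (hβ i hi)) ?_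
  · intro i hi
    have h1 : ¬ (1 / 3 ≤ c (i⁻¹ • b.1) ∧ c (i⁻¹ • b.1) ≤ 2 / 3) := fun h => hi
      ((wgt_eq_zero_iff c _).2 h)
    rcases lt_or_ge (c (i⁻¹ • b.1)) (1 / 3) with h2 | h2
    · exact Or.inr (agl_of_le h2.le)
    · refine Or.inl (agl_of_ge ?_)
      by_contra h3
      exact h1 ⟨h2, (not_le.1 h3).le⟩
  · intro T hT
    have hmem : Δ.pt b.1 {x | T x = false} ∈ (FS Δ c).carrier := by
      intro i hi
      constructor
      · intro h2
        have hn : i ∈ {i | wgt c (i⁻¹ • b.1) ≠ 0} := by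
          intro h3
          exact absurd ((wgt_eq_zero_iff c _).1 h3).2 (not_le.2 h2)
        have h4 : aS (agl c) b.1 i = 0 := agl_of_ge (le_of_lt h2)
        exact ⟨hi, (hT i hi hn).1 h4⟩
      · intro h2 h5
        have hn : i ∈ {i | wgt c (i⁻¹ • b.1) ≠ 0} := by
          intro h3
          exact absurd ((wgt_eq_zero_iff c _).1 h3).1 (not_le.2 h2)
        have h4 : aS (agl c) b.1 i = Real.pi / 2 := agl_of_le (le_of_lt h2)
        have h6 : T i = true := (hT i hi hn).2 h4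
        have h7 : T i = false := h5.2
        rw [h6] at h7
        exact Bool.noConfusion h7
    exact hF _ hmem _ _

end Gen

variable {G O Y E Z : Type} [Group G] [TopologicalSpace G] [DecidableEq G] [LinearOrder O]
  [TopologicalSpace Y] [MulAction G Y] [AddCommGroup E] [Module ℝ E]
  [TopologicalSpace E] [T2Space E] [ContinuousAdd E] [ContinuousSMul ℝ E] [DistribMulAction G E]
  [SMulCommClass G ℝ E] [ContinuousConstSMul G E] [TopologicalSpace Z] [MulAction G Z]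
  {V : Set G} (Δ : Df G Y V) (Q : ConvexSpace G E)

/-- The function `φ` after the move of the cone by `t` towards `q`, as a function of `q`. -/
def nQ (t : ℝ) (φ : Prs Δ × Cone Q × Z → G → ℂ) (x : Prs Δ × (Q.Pt × Cone Q × Z)) (g : G) : ℂ :=
  cph Q (fun y => φ y g) t x.2.1 (x.1, x.2.2)

/-- The symbol of the label stage: on the pairs with the label `q` it is the symbol with angles of
the function moved towards `q`, on the pairs without a label it is `0`. -/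
def nL (c : Y → ℝ) (q₀ : Q.Pt) (t : ℝ) (φ : Prs Δ × Cone Q × Z → G → ℂ) (b : Y × Cone Q × Z)
    (g : G) : BL (Bs G) :=
  Bk (fun β => lab Q c q₀ b.1 β.F) (oe fun q => nA Δ (agl c) (nQ Δ Q t φ) (b.1, (q, b.2)) g)

variable {Δ Q}

theorem nQ_zero (φ : Prs Δ × Cone Q × Z → G → ℂ) (x : Prs Δ × (Q.Pt × Cone Q × Z)) (g : G) :
    nQ Δ Q 0 φ x g = φ (x.1, x.2.2) g := cph_zero Q _ _ _

theorem nQ_one (φ : Prs Δ × Cone Q × Z → G → ℂ) (x : Prs Δ × (Q.Pt × Cone Q × Z)) (g : G) :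
    nQ Δ Q 1 φ x g = 0 := cph_one Q _ _ _

theorem norm_nQ_le {φ : Prs Δ × Cone Q × Z → G → ℂ} {M : ℝ} (hM : ∀ x g, ‖φ x g‖ ≤ M) (t : ℝ)
    (x : Prs Δ × (Q.Pt × Cone Q × Z)) (g : G) : ‖nQ Δ Q t φ x g‖ ≤ M :=
  norm_cph_le Q (fun x => hM x g) t _ _

/-- PROOF: `cph_eq_zero`. -/
theorem nQ_eq_zero {φ : Prs Δ × Cone Q × Z → G → ℂ} {g : G} (h : ∀ x, φ x g = 0) (t : ℝ)
    (x : Prs Δ × (Q.Pt × Cone Q × Z)) : nQ Δ Q t φ x g = 0 :=
  cph_eq_zero h _ _ _

/-- PROOF: `cph` is `0` or a value of `φ` at a point with the same first coordinate. -/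
theorem nQ_eq_zero_of_fst {φ : Prs Δ × Cone Q × Z → G → ℂ} {c : Y → ℝ}
    (hF : ∀ x ∈ (FS Δ c).carrier, ∀ p g, φ (x, p) g = 0) (t : ℝ) :
    ∀ x ∈ (FS Δ c).carrier, ∀ p g, nQ Δ Q t φ (x, p) g = 0 := by
  intro x hx p g
  unfold nQ cph
  split_ifs
  · exact hF x hx _ g
  · rfl

theorem nL_eq_zero (c : Y → ℝ) (q₀ : Q.Pt) (t : ℝ) {φ : Prs Δ × Cone Q × Z → G → ℂ} {g : G}
    (h : ∀ x, φ x g = 0) (b : Y × Cone Q × Z) : nL Δ Q c q₀ t φ b g = 0 := by
  have h1 : (oe fun q => nA Δ (agl c) (nQ Δ Q t φ) (b.1, (q, b.2)) g) =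
      fun _ : Option Q.Pt => (0 : BL (Bs G)) := by
    funext k
    cases k with
    | none => rfl
    | some q => exact nA_eq_zero _ (fun x => nQ_eq_zero h t x) _
  rw [nL, h1]
  exact Bk_zero _

theorem nL_one (c : Y → ℝ) (q₀ : Q.Pt) (φ : Prs Δ × Cone Q × Z → G → ℂ)
    (b : Y × Cone Q × Z) (g : G) : nL Δ Q c q₀ 1 φ b g = 0 := by
  have h1 : (oe fun q => nA Δ (agl c) (nQ Δ Q 1 φ) (b.1, (q, b.2)) g) =
      fun _ : Option Q.Pt => (0 : BL (Bs G)) := by
    funext k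
    cases k with
    | none => rfl
    | some q => exact nA_eq_zero _ (fun x => nQ_one φ x g) _
  rw [nL, h1]
  exact Bk_zero _

variable [IsTopologicalGroup G] [T2Space G] [LocallyCompactSpace G] [T2Space Y]
  [LocallyCompactSpace Y] [ContinuousSMul G Y] [T2Space Z] [LocallyCompactSpace Z]
  [ContinuousSMul G Z]

/-- PROOF: continuity: `continuous_cph` for `ps3 φ`. Compact support: `exists_compact_cph` for `ps3 φ`:
the function is `0` outside the image of `Q.Pt × K` under the homeomorphism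
`(q, (r, w, (z, g))) ↦ ((r, (q, w, z)), g)`; `Q.Pt` is compact (`Q.compact`). -/
theorem Cc_nQ {φ : Prs Δ × Cone Q × Z → G → ℂ} (hφ : Cc _ G φ) (t : ℝ) :
    Cc _ G (nQ Δ Q t φ) := by
  have hcp : CompactSpace Q.Pt := isCompact_iff_compactSpace.1 Q.compact
  constructor
  · have h1 := continuous_cph Q (continuous_ps3 hφ) t
    have h2 : Continuous fun z : (Prs Δ × (Q.Pt × Cone Q × Z)) × G =>
        (((z.1.1, z.1.2.2.1, (z.1.2.2.2, z.2)) : Prs Δ × Cone Q × (Z × G)), z.1.2.1) := by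
      fun_prop
    exact h1.comp h2
  · by_cases ht : t ∈ Ico (0 : ℝ) 1
    · obtain ⟨r, hr0, hr1, hr⟩ := exists_height Q (hasCompactSupport_ps3 hφ)
      set S : Set ((Prs Δ × Cone Q × Z) × G) := tsupport fun z => φ z.1 z.2 with hS
      have hSc : IsCompact S := hφ.supp
      have hht : Continuous fun x : (Prs Δ × Cone Q × Z) × G => x.1.2.1.1.2 :=
        continuous_snd.comp ((AD4_continuous_val Q).comp
          (continuous_fst.comp (continuous_snd.comp continuous_fst)))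
      have hSr : ∀ x ∈ S, x.1.2.1.1.2 ≤ r := by
        intro x hx
        have h1 : S ⊆ {x : (Prs Δ × Cone Q × Z) × G | x.1.2.1.1.2 ≤ r} := by
          refine closure_minimal ?_ (isClosed_le hht continuous_const)
          intro y hy
          by_contra h2
          exact hy (hr (y.1.1, y.1.2.1, (y.1.2.2, y.2)) (not_le.1 h2))
        exact h1 hx
      let m : (Prs Δ × (Q.Pt × Cone Q × Z)) × G → (Prs Δ × Cone Q × Z) × G := fun z =>
        ((z.1.1, cmove Q z.1.2.2.1 z.1.2.1 ⟨t, ht⟩, z.1.2.2.2), z.2)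
      have hm : Continuous m := by
        have h3 : Continuous fun z : (Prs Δ × (Q.Pt × Cone Q × Z)) × G =>
            cmove Q z.1.2.2.1 z.1.2.1 ⟨t, ht⟩ := by
          have h4 := continuous_cmove Q
          have h5 : Continuous fun z : (Prs Δ × (Q.Pt × Cone Q × Z)) × G =>
              ((z.1.2.2.1, z.1.2.1, ⟨t, ht⟩) : Cone Q × Q.Pt × Ico (0 : ℝ) 1) := by fun_prop
          exact h4.comp h5
        have h6 : Continuous fun z : (Prs Δ × (Q.Pt × Cone Q × Z)) × G => z.1.1 := by fun_prop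
        have h7 : Continuous fun z : (Prs Δ × (Q.Pt × Cone Q × Z)) × G => z.1.2.2.2 := by fun_prop
        have h8 : Continuous fun z : (Prs Δ × (Q.Pt × Cone Q × Z)) × G => z.2 := by fun_prop
        exact (h6.prodMk (h3.prodMk h7)).prodMk h8
      have hK : IsCompact ((((fun x : (Prs Δ × Cone Q × Z) × G => x.1.1) '' S) ×ˢ
          ((Set.univ : Set Q.Pt) ×ˢ ({w : Cone Q | w.1.2 ≤ r} ×ˢ
            ((fun x : (Prs Δ × Cone Q × Z) × G => x.1.2.2) '' S)))) ×ˢ
          ((fun x : (Prs Δ × Cone Q × Z) × G => x.2) '' S)) := by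
        refine IsCompact.prod (IsCompact.prod (hSc.image (by fun_prop)) (isCompact_univ.prod
          ((AD4_compact_cone Q hr1).prod (hSc.image (by fun_prop))))) (hSc.image (by fun_prop))
      refine hK.of_isClosed_subset (isClosed_tsupport _) ?_
      have h9 : tsupport (fun z : (Prs Δ × (Q.Pt × Cone Q × Z)) × G => nQ Δ Q t φ z.1 z.2) ⊆
          m ⁻¹' S := by
        refine closure_minimal ?_ ((isClosed_tsupport _).preimage hm)
        intro z hz
        have h10 : nQ Δ Q t φ z.1 z.2 = φ (m z).1 (m z).2 := by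
          unfold nQ cph
          rw [dif_pos ht]
        exact subset_tsupport _ (by
          show φ (m z).1 (m z).2 ≠ 0
          rw [← h10]
          exact hz)
      refine h9.trans ?_
      intro z hz
      have hz1 : m z ∈ S := hz
      refine ⟨⟨⟨m z, hz1, rfl⟩, Set.mem_univ _, ?_, ⟨m z, hz1, rfl⟩⟩, ⟨m z, hz1, rfl⟩⟩
      have h11 := hSr _ hz1
      have h12 : (m z).1.2.1.1.2 = (1 - t) * z.1.2.2.1.1.2 + t := rfl
      rw [h12] at h11
      show z.1.2.2.1.1.2 ≤ r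
      have h13 := z.1.2.2.1.2.1
      have h14 := z.1.2.2.1.2.2.1
      obtain ⟨h15, h16⟩ := ht
      nlinarith
    · have h1 : (fun z : (Prs Δ × (Q.Pt × Cone Q × Z)) × G => nQ Δ Q t φ z.1 z.2) =
          fun _ => 0 := by
        funext z
        unfold nQ cph
        rw [dif_neg ht]
      rw [h1]
      exact HasCompactSupport.zero

/-- PROOF: `norm_nA_le`, `norm_nQ_le`; `nA_comm_dia` with `lab_site`. -/
theorem BkOK_nL (hV : V ∈ 𝓝 (1 : G)) (c : Y → ℝ) (q₀ : Q.Pt) (t : ℝ)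
    {φ : Prs Δ × Cone Q × Z → G → ℂ} (hφ : Cc _ G φ) {M : ℝ} (hM0 : 0 ≤ M)
    (hM : ∀ x g, ‖φ x g‖ ≤ M) (b : Y × Cone Q × Z) (g : G) :
    BkOK (fun β => lab Q c q₀ b.1 β.F)
      (oe fun q => nA Δ (agl c) (nQ Δ Q t φ) (b.1, (q, b.2)) g) M := by
  classical
  refine ⟨hM0, fun k => ?_, fun k => ?_⟩
  · cases k with
    | none =>
      show ‖(0 : BL (Bs G))‖ ≤ M
      rw [norm_zero]
      exact hM0
    | some q => exact norm_nA_le hV _ (Cc_nQ hφ t) hM0 (fun x g => norm_nQ_le hM t x g) _ _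
  · have hk : ∀ l : Option Q.Pt, Commute (oe (fun q => nA Δ (agl c) (nQ Δ Q t φ)
        (b.1, (q, b.2)) g) l) (prj (fun β : Bs G => lab Q c q₀ b.1 β.F) k) := by
      intro l
      cases l with
      | none => exact Commute.zero_left _
      | some q =>
        refine nA_comm_dia hV (agl c) (Cc_nQ hφ t) (b.1, (q, b.2)) g (C := 1) zero_le_one
          (fun β => ?_) fun i _ => ?_
        · split_ifs
          · rw [norm_one]
          · rw [norm_zero]; exact zero_le_one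
        · rcases lab_site Q c q₀ b.1 i with h | h | h
          · exact Or.inl h
          · exact Or.inr (Or.inl h)
          · refine Or.inr (Or.inr fun β => ?_)
            simp only [h β]
            split_ifs <;> rfl
    exact hk k

/-- The start. PROOF: on the basis vectors (`ext_op` in Cb/F3.lean), `Bk_bv`: if the label of `β` is `none`
both sides are `0` (`nA_bv_eq_zero`, `lab_eq_none_iff`); if it is `some q`: `nQ_zero`. -/
theorem nL_zero (hV : V ∈ 𝓝 (1 : G)) (c : Y → ℝ) (q₀ : Q.Pt)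
    {φ : Prs Δ × Cone Q × Z → G → ℂ} (hφ : Cc _ G φ)
    (hF : ∀ x ∈ (FS Δ c).carrier, ∀ p g, φ (x, p) g = 0) (b : Y × Cone Q × Z) (g : G) :
    nL Δ Q c q₀ 0 φ b g = nA Δ (agl c) φ b g := by
  obtain ⟨M, hM0, hM⟩ := hφ.exists_bound
  refine ext_op fun β => ?_
  rw [nL, Bk_bv (BkOK_nL hV c q₀ 0 hφ hM0.le hM b g)]
  rcases h : lab Q c q₀ b.1 β.F with _ | q
  · have h1 : nA Δ (agl c) φ b g (bv β) = 0 :=
      nA_bv_eq_zero hV hφ hF ((lab_eq_none_iff Q c q₀ b.1 β.F).1 h)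
    rw [h1]
    rfl
  · show nA Δ (agl c) (nQ Δ Q 0 φ) (b.1, (q, b.2)) g (bv β) = _
    have h2 : f2 Δ (nQ Δ Q 0 φ) (b.1, (q, b.2)) g = f2 Δ φ b g := by
      funext T
      exact nQ_zero φ _ g
    unfold nA
    rw [h2]

/-- Time continuity. PROOF: `Bk_sub`, `norm_Bk_le`, `norm_rot_sub_rot_le`, `exists_time_cont` for
`ps3 φ` (`cph_ps3`). -/
theorem nL_time (hV : V ∈ 𝓝 (1 : G)) (c : Y → ℝ) (q₀ : Q.Pt)
    {φ : Prs Δ × Cone Q × Z → G → ℂ} (hφ : Cc _ G φ) {t₀ : ℝ} (ht₀ : t₀ ∈ Icc (0 : ℝ) 1) {ε : ℝ}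
    (hε : 0 < ε) : ∃ δ : ℝ, 0 < δ ∧ ∀ t ∈ Icc (0 : ℝ) 1, |t - t₀| < δ →
      ∀ b g, ‖nL Δ Q c q₀ t φ b g - nL Δ Q c q₀ t₀ φ b g‖ ≤ ε := by
  obtain ⟨M, hM0, hM⟩ := hφ.exists_bound
  obtain ⟨δ, hδ, h2⟩ := exists_time_cont Q (continuous_ps3 hφ) (hasCompactSupport_ps3 hφ) ht₀ hε
  refine ⟨δ, hδ, fun t ht htδ b g => ?_⟩
  have h3 := BkOK_nL hV c q₀ t hφ hM0.le hM b g
  have h4 := BkOK_nL hV c q₀ t₀ hφ hM0.le hM b g
  obtain ⟨h5, h6⟩ := Bk_sub h3 h4
  rw [nL, nL, ← h6]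
  refine norm_Bk_le ⟨hε.le, fun k => ?_, h5.comm⟩
  cases k with
  | none =>
    show ‖(0 : BL (Bs G)) - 0‖ ≤ ε
    rw [sub_zero, norm_zero]
    exact hε.le
  | some q =>
    refine norm_rot_sub_rot_le (continuous_f2 hV (Cc_nQ hφ t) (b.1, (q, b.2)) g)
      (continuous_f2 hV (Cc_nQ hφ t₀) (b.1, (q, b.2)) g) hε.le (fun T => ?_) _
    exact h2 t ht htδ q (Δ.pt b.1 {x | T x = false}, b.2.1, (b.2.2, g))

end Pool.Agent.Lib.MP_aa9b81_an.Tv
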