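import Pool.Agent.Lib.MP_aa9b81_an.Mg.G051

/-!
# Transversals, part L4b: the pull back along the move
-/

open scoped ENNReal Topology CompactlySupported
open Function Filter MeasureTheory

noncomputable section

set_option linter.unusedSectionVars false

namespace Pool.Agent.Lib.MP_aa9b81_an.Tv

open Cut Hs Cb

variable {G O Y E Z : Type} [Group G] [TopologicalSpace G] [IsTopologicalGroup G]
  [LocallyCompactSpace G] [SecondCountableTopology G] [T2Space G] [MeasurableSpace G]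
  [BorelSpace G] [DecidableEq G] [LinearOrder O]
  [TopologicalSpace Y] [MulAction G Y] [AddCommGroup E] [Module ℝ E]
  [TopologicalSpace E] [T2Space E] [ContinuousAdd E] [ContinuousSMul ℝ E] [DistribMulAction G E]
  [SMulCommClass G ℝ E] [ContinuousConstSMul G E] [TopologicalSpace Z] [MulAction G Z]
  [T2Space Y] [LocallyCompactSpace Y] [ContinuousSMul G Y] [T2Space Z] [LocallyCompactSpace Z]
  [ContinuousSMul G Z]
  {V : Set G} {Δ : Df G Y V} {Q : ConvexSpace G E}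

section Inst

variable [T2Space (Prs Δ)] [ContinuousSMul G (Prs Δ)] [ContinuousSMul G (Cone Q)]
  [ContinuousSMul G Q.Pt]

/-! ### The pull back along the move -/

variable (Δ Q) in
/-- The move, as a function of the point of `Q` too. -/
def mQ (t : Set.Ico (0 : ℝ) 1) (x : Prs Δ × (Q.Pt × Cone Q × Z)) : Prs Δ × Cone Q × Z :=
  (x.1, cmove Q x.2.2.1 x.2.1 t, x.2.2.2)

private theorem L4b_cmove (t : Set.Ico (0 : ℝ) 1) :
    IsProperMap fun p : Q.Pt × Cone Q => cmove Q p.2 p.1 t := by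
  have hcomp : CompactSpace Q.Pt := isCompact_iff_compactSpace.1 Q.compact
  have hlc := cone_locallyCompact Q
  have hcont : Continuous fun p : Q.Pt × Cone Q => cmove Q p.2 p.1 t :=
    (continuous_cmove Q).comp (continuous_snd.prodMk (continuous_fst.prodMk continuous_const))
  have hh : Continuous fun w : Cone Q => w.1.2 := continuous_snd.comp (AD4_continuous_val Q)
  rw [isProperMap_iff_isCompact_preimage]
  refine ⟨hcont, fun K hK => ?_⟩
  rcases K.eq_empty_or_nonempty with hKe | hKn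
  · rw [hKe, Set.preimage_empty]
    exact isCompact_empty
  · obtain ⟨w₀, -, hmax⟩ := hK.exists_isMaxOn hKn hh.continuousOn
    refine (isCompact_univ.prod (AD4_compact_cone Q w₀.2.2.1)).of_isClosed_subset
      (hK.isClosed.preimage hcont) ?_
    rintro ⟨q, w⟩ hw
    refine ⟨trivial, ?_⟩
    have h1 : (1 - t.1) * w.1.2 + t.1 ≤ w₀.1.2 := hmax hw
    show w.1.2 ≤ w₀.1.2
    have h2 := w.2.2.1
    have h3 := t.2.1
    nlinarith

/-- PROOF: `Q.Pt` is compact; the preimage of a compact set of the cone under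
`(q, w) ↦ cmove Q w q t` is closed (`continuous_cmove`), and contained in the set of the `(q, w)` with the
height of `w` at most `r < 1` (the height of `cmove Q w q t` is at least that of `w`), which is compact
(`AD4_compact_cone`, see `Zc_compact` in Cb/Zc.lean). -/
theorem isProperMap_mQ (t : Set.Ico (0 : ℝ) 1) : IsProperMap (mQ (Z := Z) Δ Q t) := by
  let H : Prs Δ × (Q.Pt × Cone Q × Z) ≃ₜ Prs Δ × ((Q.Pt × Cone Q) × Z) :=
    { toFun := fun x => (x.1, ((x.2.1, x.2.2.1), x.2.2.2))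
      invFun := fun x => (x.1, (x.2.1.1, x.2.1.2, x.2.2))
      left_inv := fun _ => rfl
      right_inv := fun _ => rfl
      continuous_toFun := by fun_prop
      continuous_invFun := by fun_prop }
  exact (isProperMap_id.prodMap ((L4b_cmove t).prodMap isProperMap_id)).comp H.isProperMap

/-- PROOF: `smul_cmove`. -/
theorem mQ_smul (t : Set.Ico (0 : ℝ) 1) (g : G) (x : Prs Δ × (Q.Pt × Cone Q × Z)) :
    mQ Δ Q t (g • x) = g • mQ Δ Q t x :=
  Prod.ext rfl (Prod.ext (smul_cmove Q g x.2.2.1 x.2.1 t).symm rfl)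

open Classical in
variable (Δ Q) in
/-- The pull back along the move, extended by `0` to `t = 1`. -/
def pQ (t : ℝ) (x : FamG G ℕ (Prs Δ × Cone Q × Z)) : FamG G ℕ (Prs Δ × (Q.Pt × Cone Q × Z)) :=
  if h : t ∈ Set.Ico (0 : ℝ) 1 then pullG (mQ Δ Q ⟨t, h⟩) x else 0

theorem pQ_add (t : ℝ) (x y : FamG G ℕ (Prs Δ × Cone Q × Z)) :
    pQ Δ Q t (x + y) = pQ Δ Q t x + pQ Δ Q t y := by
  unfold pQ
  split_ifs
  · exact map_add _ _ _
  · exact (add_zero _).symm

theorem pQ_mul (t : ℝ) (x y : FamG G ℕ (Prs Δ × Cone Q × Z)) :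
    pQ Δ Q t (x * y) = pQ Δ Q t x * pQ Δ Q t y := by
  unfold pQ
  split_ifs
  · exact map_mul _ _ _
  · exact (mul_zero _).symm

theorem norm_pQ_le (t : ℝ) (x : FamG G ℕ (Prs Δ × Cone Q × Z)) : ‖pQ Δ Q t x‖ ≤ ‖x‖ := by
  unfold pQ
  split_ifs
  · exact norm_pullG_le _ _
  · rw [norm_zero]
    exact norm_nonneg _

theorem pQ_one (x : FamG G ℕ (Prs Δ × Cone Q × Z)) : pQ Δ Q 1 x = 0 :=
  dif_neg fun h => lt_irrefl _ h.2

theorem pQ_mem (t : ℝ) : ∀ x ∈ cpG G ℕ (Prs Δ × Cone Q × Z),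
    pQ Δ Q t x ∈ cpG G ℕ (Prs Δ × (Q.Pt × Cone Q × Z)) := by
  have : T2Space Q.Pt := inferInstanceAs (T2Space Q.carrier)
  intro x hx
  unfold pQ
  split_ifs with h
  · exact pullG_mem (isProperMap_mQ ⟨t, h⟩) (mQ_smul ⟨t, h⟩) x hx
  · exact zero_mem _

/-- PROOF: `Cc_nQ`. -/
theorem exists_nQC (t : ℝ) (φ : C_c((Prs Δ × Cone Q × Z) × G, ℂ)) :
    ∃ ψ : C_c((Prs Δ × (Q.Pt × Cone Q × Z)) × G, ℂ),
      ∀ x g, ψ (x, g) = nQ Δ Q t (fun b g => φ (b, g)) x g := by
  have h : Cc _ G (nQ Δ Q t fun b g => φ (b, g)) := Cc_nQ ⟨φ.continuous, φ.hasCompactSupport⟩ t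
  exact ⟨⟨⟨_, h.cont⟩, h.supp⟩, fun _ _ => rfl⟩

/-- PROOF: `t < 1`: `pullG_gen`, `mQ_smul` (`cph` unfolds to `φ (mQ ..)`); `t = 1`: both sides are `0`
(`gen_apply`, `opk_zero`). -/
theorem pQ_gen (t : ℝ) {φ : C_c((Prs Δ × Cone Q × Z) × G, ℂ)}
    {ψ : C_c((Prs Δ × (Q.Pt × Cone Q × Z)) × G, ℂ)}
    (h : ∀ x g, ψ (x, g) = nQ Δ Q t (fun b g => φ (b, g)) x g) (i j : ℕ) :
    pQ Δ Q t (gen φ i j) = gen ψ i j := by
  have : T2Space Q.Pt := inferInstanceAs (T2Space Q.carrier)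
  unfold pQ
  split_ifs with ht
  · refine pullG_gen (mQ_smul ⟨t, ht⟩) (fun x g => ?_) i j
    rw [h]
    unfold nQ cph
    rw [dif_pos ht]
    rfl
  · have h0 : ∀ x g, ψ (x, g) = 0 := fun x g => by
      rw [h]
      unfold nQ cph
      rw [dif_neg ht]
    refine FamG.ext fun x => ?_
    rw [Cb.gen_apply]
    have h1 : kat (fun b g => ψ (b, g) • (Eu i j : BL ℕ)) x = fun _ _ => (0 : BL ℕ) := by
      funext a a'
      simp only [kat]
      rw [h0, zero_smul]
    simp only [opF]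
    rw [h1, opk_zero]
    rfl

end Inst

end Pool.Agent.Lib.MP_aa9b81_an.Tv
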