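import Pool.Agent.Lib.MP_aa9b81_an.Tv.L4a
import Pool.Agent.Lib.MP_aa9b81_an.Tv.L4b

/-!
# Transversals, part L4: the homomorphism of the label stage
-/

open scoped ENNReal Topology CompactlySupported
open Function Filter MeasureTheory

noncomputable section

set_option linter.unusedSectionVars false

namespace Pool.Agent.Lib.MP_aa9b81_an.Tv

open Cut Hs Cb

variable {G O Y E Z : Type} [Group G] [TopologicalSpace G] [IsTopologicalGroup G]
  [LocallyCompactSpace G] [SecondCountableTopology G] [T2Space G] [MeasurableSpace G]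
  [BorelSpace G] [DecidableEq G] [LinearOrder O]
  [TopologicalSpace Y] [MulAction G Y] [AddCommGroup E] [Module ℝ E]
  [TopologicalSpace E] [T2Space E] [ContinuousAdd E] [ContinuousSMul ℝ E] [DistribMulAction G E]
  [SMulCommClass G ℝ E] [ContinuousConstSMul G E] [TopologicalSpace Z] [MulAction G Z]
  [T2Space Y] [LocallyCompactSpace Y] [ContinuousSMul G Y] [T2Space Z] [LocallyCompactSpace Z]
  [ContinuousSMul G Z]
  {V : Set G} {Δ : Df G Y V} {c : Y → ℝ} {Q : ConvexSpace G E}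


/-! ### Auxiliary statements -/

theorem L4_t2Pt (Q : ConvexSpace G E) : T2Space Q.Pt :=
  Topology.IsEmbedding.t2Space (f := fun q : Q.Pt => q.1) Topology.IsEmbedding.subtypeVal

theorem L4_t2Cone (Q : ConvexSpace G E) : T2Space (Cone Q) :=
  Topology.IsEmbedding.t2Space (f := fun q : Cone Q => q.1) Topology.IsEmbedding.subtypeVal

/-- The zero kernel. -/
theorem L4_KOK_zero {J J' : Type} {C : Set G} {M : ℝ} (hC : IsCompact C) (hM : 0 ≤ M) :
    KOK C M fun _ _ : G => (0 : L2 J →L[ℂ] L2 J') :=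
  ⟨hC, hM, fun _ => continuous_const, fun _ _ => by rw [norm_zero]; exact hM, fun _ _ _ => rfl⟩

theorem L4_ek_zero {P P' : Type} (i j : ℕ) : ek i j (0 : L2 P →L[ℂ] L2 P') = 0 := by
  have h1 := norm_ek_le i j (0 : L2 P →L[ℂ] L2 P')
  rw [norm_zero] at h1
  exact norm_le_zero_iff.1 h1

/-- A larger bound and a larger support. -/
theorem L4_KOK_mono {J J' : Type} {C C' : Set G} {M M' : ℝ} {k : G → G → (L2 J →L[ℂ] L2 J')}
    (h : KOK C M k) (hC' : IsCompact C') (hCC : C ⊆ C') (hM : M ≤ M') : KOK C' M' k :=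
  ⟨hC', h.nonneg.trans hM, h.cont, fun a b => (h.bdd a b).trans hM,
    fun a b hab => h.supp a b fun h1 => hab (hCC h1)⟩

/-- The rotated functions commute with the projections onto a label. -/
theorem L4_rot_comm_prj {I K : Type} [DecidableEq I] {f : (I → Bool) → ℂ} (hf : Continuous f)
    {D : Set I} (hD : Dep D 0 f) {θ : I → ℝ} (κ : Bs I → K) (k : K)
    (hi : ∀ i ∈ D, θ i = 0 ∨ θ i = Real.pi / 2 ∨ ∀ β, κ (fl i β) = κ β) :
    Commute (rot θ f) (prj κ k) := by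
  classical
  unfold prj
  refine rot_comm_dia hf hD zero_le_one (fun b => ?_) fun i hiD => ?_
  · split_ifs <;> simp
  · rcases hi i hiD with h | h | h
    · exact Or.inl h
    · exact Or.inr (Or.inl h)
    · refine Or.inr (Or.inr fun b => ?_)
      rw [h b]

/-- A compactly supported continuous function. -/
theorem L4_Cc {B : Type} [TopologicalSpace B] (φ : C_c(B × G, ℂ)) :
    Cc B G fun b g => φ (b, g) :=
  ⟨φ.continuous, φ.hasCompactSupport⟩

section Inst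

variable [T2Space (Prs Δ)] [ContinuousSMul G (Prs Δ)] [ContinuousSMul G (Cone Q)]
  [ContinuousSMul G Q.Pt]

/-! ### The homomorphism of the label stage -/

variable (Δ c Q) in
/-- The homomorphism of the label stage. -/
def ThL (q₀ : Q.Pt)
    (Th : FamG G ℕ (Prs Δ × (Q.Pt × Cone Q × Z)) → FamG G (ℕ × Bs G) (Y × (Q.Pt × Cone Q × Z)))
    (t : ℝ) (x : FamG G ℕ ((US Δ c).Pt × Cone Q × Z)) : FamG G (ℕ × Bs G) (Y × Cone Q × Z) :=
  fam fun b => Bg (fun β => lab Q c q₀ b.1 β.F)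
    (oe fun q => (Th (pQ Δ Q t (extG (ιU Δ c Q) x))).fn (b.1, (q, b.2)))

/-- PROOF: `SHA_comm_prj` with `lab_site`; the norms: `h.norm`, `FamG.norm_apply_le`. -/
theorem BgOK_Th (hV : IsOpen V) (h1 : (1 : G) ∈ V) {e : G ↪ O} (hc : Continuous c) (q₀ : Q.Pt)
    {Th : FamG G ℕ (Prs Δ × (Q.Pt × Cone Q × Z)) → FamG G (ℕ × Bs G) (Y × (Q.Pt × Cone Q × Z))}
    (h : SH e Th (nA Δ (agl c))) {x : FamG G ℕ (Prs Δ × (Q.Pt × Cone Q × Z))}
    (hx : x ∈ cpG G ℕ (Prs Δ × (Q.Pt × Cone Q × Z))) (b : Y × Cone Q × Z) :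
    BgOK (fun β => lab Q c q₀ b.1 β.F) (oe fun q => (Th x).fn (b.1, (q, b.2))) ‖x‖ := by
  have hcomp : CompactSpace Q.Pt := isCompact_iff_compactSpace.1 Q.compact
  have hlc : LocallyCompactSpace (Cone Q) := cone_locallyCompact Q
  have hT1 : T2Space Q.Pt := L4_t2Pt Q
  have hT2 : T2Space (Cone Q) := L4_t2Cone Q
  refine ⟨norm_nonneg x, fun k => ?_, fun k => ?_⟩
  · cases k with
    | none =>
      show ‖(0 : HG G (ℕ × Bs G) →L[ℂ] HG G (ℕ × Bs G))‖ ≤ ‖x‖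
      rw [norm_zero]
      exact norm_nonneg x
    | some q => exact (FamG.norm_apply_le (Th x) (b.1, (q, b.2))).trans (h.norm x hx)
  · cases k with
    | none => exact Commute.zero_left _
    | some q =>
      exact SHA_comm_prj hV h1 e (continuous_agl hc) h hx (b.1, (q, b.2)) _ _
        fun i _ => lab_site Q c q₀ b.1 i

theorem L4_mem (hV : IsOpen V) (h1 : (1 : G) ∈ V) (hc : Continuous c) (t : ℝ)
    {x : FamG G ℕ ((US Δ c).Pt × Cone Q × Z)}
    (hx : x ∈ cpG G ℕ ((US Δ c).Pt × Cone Q × Z)) :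
    pQ Δ Q t (extG (ιU Δ c Q) x) ∈ cpG G ℕ (Prs Δ × (Q.Pt × Cone Q × Z)) :=
  pQ_mem t _ (extG_mem (isOpenEmbedding_ιU (hV.mem_nhds h1) hc) (fun g x => ιU_smul g x) x hx)

/-- PROOF: `fam_apply`, `BgOK_Th`, `norm_Bg_le`, `pQ_mem`, `extG_mem`. -/
theorem ThL_apply (hV : IsOpen V) (h1 : (1 : G) ∈ V) {e : G ↪ O} (hc : Continuous c) (q₀ : Q.Pt)
    {Th : FamG G ℕ (Prs Δ × (Q.Pt × Cone Q × Z)) → FamG G (ℕ × Bs G) (Y × (Q.Pt × Cone Q × Z))}
    (h : SH e Th (nA Δ (agl c))) (t : ℝ) {x : FamG G ℕ ((US Δ c).Pt × Cone Q × Z)}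
    (hx : x ∈ cpG G ℕ ((US Δ c).Pt × Cone Q × Z)) (b : Y × Cone Q × Z) :
    (ThL Δ c Q q₀ Th t x).fn b = Bg (fun β => lab Q c q₀ b.1 β.F)
      (oe fun q => (Th (pQ Δ Q t (extG (ιU Δ c Q) x))).fn (b.1, (q, b.2))) :=
  fam_apply (fun b => norm_Bg_le (BgOK_Th hV h1 hc q₀ h (L4_mem hV h1 hc t hx) b)) b

/-- The value on the generators. -/
theorem L4_gen (hV : IsOpen V) (h1 : (1 : G) ∈ V) {e : G ↪ O} (hc : Continuous c) (q₀ : Q.Pt)
    {Th : FamG G ℕ (Prs Δ × (Q.Pt × Cone Q × Z)) → FamG G (ℕ × Bs G) (Y × (Q.Pt × Cone Q × Z))}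
    (h : SH e Th (nA Δ (agl c))) (t : ℝ) (φ : C_c(((US Δ c).Pt × Cone Q × Z) × G, ℂ)) (i j : ℕ)
    (b : Y × Cone Q × Z) :
    (ThL Δ c Q q₀ Th t (gen φ i j)).fn b =
      (oS e (nL Δ Q c q₀ t (ez Δ c Q fun b g => φ (b, g))) i j).fn b := by
  have hT1 : T2Space Q.Pt := L4_t2Pt Q
  have hT2 : T2Space (Cone Q) := L4_t2Cone Q
  obtain ⟨W⟩ := exists_wc (G := G)
  obtain ⟨χ⟩ := exists_part (hV.mem_nhds h1)
  have hθ := continuous_agl hc
  have hV1 : V ∈ 𝓝 (1 : G) := hV.mem_nhds h1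
  have hQ : Continuous fun p : G × Q.Pt => p.1 • p.2 := continuous_smul
  obtain ⟨ψ, hψ⟩ := exists_ezC hV1 hc φ
  obtain ⟨ψ', hψ'⟩ := exists_nQC t ψ
  have hφC : Cc (Prs Δ × Cone Q × Z) G (ez Δ c Q fun b g => φ (b, g)) := Cc_ez hV1 hc φ
  have e1 : (fun (b : Prs Δ × Cone Q × Z) (g : G) => ψ (b, g)) = ez Δ c Q fun b g => φ (b, g) := by
    funext x g
    exact hψ x g
  have e2 : (fun (b : Prs Δ × (Q.Pt × Cone Q × Z)) (g : G) => ψ' (b, g)) =
      nQ Δ Q t (ez Δ c Q fun b g => φ (b, g)) := by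
    funext x g
    rw [← e1]
    exact hψ' x g
  have hnC : Cc (Prs Δ × (Q.Pt × Cone Q × Z)) G (nQ Δ Q t (ez Δ c Q fun b g => φ (b, g))) := by
    rw [← e2]
    exact L4_Cc ψ'
  -- the symbols
  have hS1 := Sy_nA χ hV h1 e W hθ hnC
  have hS2 := Sy_nL χ hV h1 hQ e W hc q₀ t hφC (ez_of_mem_FS fun b g => φ (b, g))
  obtain ⟨C₁, M₁, hK1⟩ := KOK_absS hS1
  obtain ⟨C₂, M₂, hK2⟩ := KOK_absS hS2
  rw [ThL_apply hV h1 hc q₀ h t (gen_mem φ i j), extG_gen_ez hψ, pQ_gen t hψ', h.gen, e2,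
    oS_apply hS2]
  -- the kernels
  have hlab : ∀ (a a' : G), absS e (nL Δ Q c q₀ t (ez Δ c Q fun b g => φ (b, g))) b a a' =
      Bk (fun β => lab Q c q₀ b.1 β.F) (fun l => oe (fun q =>
        absS e (nA Δ (agl c) (nQ Δ Q t (ez Δ c Q fun b g => φ (b, g)))) (b.1, (q, b.2)) a a') l) := by
    intro a a'
    rw [absS_nL hV h1 e hQ c q₀ t hφC]
    congr 1
    funext l
    cases l with
    | none => rfl
    | some q => exact (absS_nA hV1 e (agl c) hnC (b.1, (q, b.2)) a a').symm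
  have hleft : (oe fun q => (oS e (nA Δ (agl c) (nQ Δ Q t (ez Δ c Q fun b g => φ (b, g)))) i j).fn
      (b.1, (q, b.2))) = fun l : Option Q.Pt => opk (G := G) fun a a' => ek i j (oe (fun q =>
        absS e (nA Δ (agl c) (nQ Δ Q t (ez Δ c Q fun b g => φ (b, g)))) (b.1, (q, b.2)) a a') l) := by
    funext l
    cases l with
    | none =>
      show (0 : HG G (ℕ × Bs G) →L[ℂ] HG G (ℕ × Bs G)) =
        opk (G := G) fun _ _ => ek i j (0 : BL (Bs G))
      rw [L4_ek_zero, opk_zero]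
    | some q => exact oS_apply hS1 i j (b.1, (q, b.2))
  have hright : (opk (G := G) fun a a' =>
      ek i j (absS e (nL Δ Q c q₀ t (ez Δ c Q fun b g => φ (b, g))) b a a')) =
      opk fun a a' => ek i j (Bk (fun β => lab Q c q₀ b.1 β.F) (fun l => oe (fun q =>
        absS e (nA Δ (agl c) (nQ Δ Q t (ez Δ c Q fun b g => φ (b, g)))) (b.1, (q, b.2)) a a') l)) := by
    congr 1
    funext a a'
    rw [hlab]
  rw [hleft, hright]
  refine Bg_opk (C := C₁ ∪ C₂) (M := max M₁ M₂) (fun l => ?_) ?_ fun a a' => ?_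
  · have h2 : KOK (C₁ ∪ C₂) (max M₁ M₂) fun a a' => ek i j (absS e
        (nA Δ (agl c) (nQ Δ Q t (ez Δ c Q fun b g => φ (b, g)))) (b.1, (q₀, b.2)) a a') :=
      L4_KOK_mono (hK1 _ i j) ((hK1 (b.1, (q₀, b.2)) i j).cpt.union (hK2 b i j).cpt)
        Set.subset_union_left (le_max_left _ _)
    cases l with
    | none =>
      show KOK (C₁ ∪ C₂) (max M₁ M₂) fun _ _ : G => ek i j (0 : BL (Bs G))
      rw [L4_ek_zero]
      exact L4_KOK_zero h2.cpt h2.nonneg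
    | some q =>
      exact L4_KOK_mono (hK1 (b.1, (q, b.2)) i j) h2.cpt Set.subset_union_left (le_max_left _ _)
  · have h2 := L4_KOK_mono (hK2 b i j) ((hK1 (b.1, (q₀, b.2)) i j).cpt.union (hK2 b i j).cpt)
      Set.subset_union_right (le_max_right M₁ M₂)
    have h3 : (fun a a' => ek i j (absS e (nL Δ Q c q₀ t (ez Δ c Q fun b g => φ (b, g))) b a a')) =
        fun a a' => ek i j (Bk (fun β => lab Q c q₀ b.1 β.F) (fun l => oe (fun q =>
        absS e (nA Δ (agl c) (nQ Δ Q t (ez Δ c Q fun b g => φ (b, g)))) (b.1, (q, b.2)) a a') l)) := by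
      funext a a'
      rw [hlab]
    rw [h3] at h2
    exact h2
  · obtain ⟨M, hM0, hM⟩ := hφC.exists_bound
    refine ⟨M, hM0.le, fun l => ?_, fun l => ?_⟩
    · cases l with
      | none =>
        show ‖(0 : BL (Bs G))‖ ≤ M
        rw [norm_zero]
        exact hM0.le
      | some q =>
        exact (norm_absS_le _ _ _).trans (norm_nA_le hV1 _ hnC hM0.le (norm_nQ_le hM t) _ _)
    · cases l with
      | none => exact Commute.zero_left _
      | some q =>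
        show Commute (absS e (nA Δ (agl c) (nQ Δ Q t (ez Δ c Q fun b g => φ (b, g))))
          (b.1, (q, b.2)) a a') _
        rw [absS_nA hV1 e (agl c) hnC]
        exact L4_rot_comm_prj (continuous_gA hV h1 hnC _ _ _) (dep_gA _ _ _ _) _ _
          fun i _ => lab_site Q c q₀ b.1 i

/-- PROOF: `add`, `mul`: `ThL_apply`, `Bg_add`, `Bg_mul`, `pQ_add`, `pQ_mul`, `h.add`, `h.mul`. `norm`: `norm_Bg_le`,
`norm_pQ_le`, `norm_extG`. `gen`: `exists_ezC`, `extG_gen_ez`, `exists_nQC`, `pQ_gen`, `h.gen`; at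
`(b.1, (q, b.2))` the operator is `opk` of the kernel `ek i j (absS e (nA ..) (b.1, (q, b.2)) a a')`
(`oS_apply` with `Sy_nA` for the base `Q.Pt × Cone Q × Z`); `Bg_opk` with
`k l a a' = oe (fun q => absS e (nA ..) (b.1, (q, b.2)) a a') l`; `absS_nA`, `absS_nL`; `KOK_absS`. -/
theorem SH_ThL (hV : IsOpen V) (h1 : (1 : G) ∈ V) {e : G ↪ O} (hc : Continuous c) (q₀ : Q.Pt)
    {Th : FamG G ℕ (Prs Δ × (Q.Pt × Cone Q × Z)) → FamG G (ℕ × Bs G) (Y × (Q.Pt × Cone Q × Z))}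
    (h : SH e Th (nA Δ (agl c))) (t : ℝ) :
    SH e (ThL Δ c Q q₀ Th t) (fun φ => nL Δ Q c q₀ t (ez Δ c Q φ)) := by
  refine ⟨fun x hx y hy => FamG.ext fun b => ?_, fun x hx y hy => FamG.ext fun b => ?_,
    fun x hx => ?_, fun φ i j => FamG.ext fun b => ?_⟩
  · have mx := L4_mem hV h1 hc t hx
    have my := L4_mem hV h1 hc t hy
    rw [FamG.add_apply, ThL_apply hV h1 hc q₀ h t (add_mem hx hy), ThL_apply hV h1 hc q₀ h t hx,
      ThL_apply hV h1 hc q₀ h t hy,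
      ← Bg_add (BgOK_Th hV h1 hc q₀ h mx b) (BgOK_Th hV h1 hc q₀ h my b), map_add, pQ_add,
      h.add _ mx _ my]
    congr 1
    funext k
    cases k with
    | none => exact (add_zero _).symm
    | some q => rfl
  · have mx := L4_mem hV h1 hc t hx
    have my := L4_mem hV h1 hc t hy
    rw [FamG.mul_apply, ThL_apply hV h1 hc q₀ h t (mul_mem hx hy), ThL_apply hV h1 hc q₀ h t hx,
      ThL_apply hV h1 hc q₀ h t hy,
      ← Bg_mul (BgOK_Th hV h1 hc q₀ h mx b) (BgOK_Th hV h1 hc q₀ h my b), map_mul, pQ_mul,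
      h.mul _ mx _ my]
    congr 1
    funext k
    cases k with
    | none => exact (mul_zero _).symm
    | some q => rfl
  · refine (FamG.norm_le_iff (norm_nonneg x)).2 fun b => ?_
    rw [ThL_apply hV h1 hc q₀ h t hx]
    exact ((norm_Bg_le (BgOK_Th hV h1 hc q₀ h (L4_mem hV h1 hc t hx) b)).trans
      (norm_pQ_le t _)).trans (norm_extG _ x).le
  · exact L4_gen hV h1 hc q₀ h t φ i j b

/-- PROOF: `pQ_one`, `SH.zero`, `Bg_zero`. -/
theorem ThL_one {e : G ↪ O} (q₀ : Q.Pt)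
    {Th : FamG G ℕ (Prs Δ × (Q.Pt × Cone Q × Z)) → FamG G (ℕ × Bs G) (Y × (Q.Pt × Cone Q × Z))}
    (h : SH e Th (nA Δ (agl c))) (x : FamG G ℕ ((US Δ c).Pt × Cone Q × Z)) :
    ThL Δ c Q q₀ Th 1 x = 0 := by
  have hT1 : T2Space Q.Pt := L4_t2Pt Q
  have hT2 : T2Space (Cone Q) := L4_t2Cone Q
  have h1 : (fun b : Y × Cone Q × Z => Bg (fun β => lab Q c q₀ b.1 β.F)
      (oe fun q => (Th (pQ Δ Q 1 (extG (ιU Δ c Q) x))).fn (b.1, (q, b.2)))) =
      fun _ => (0 : HG G (ℕ × Bs G) →L[ℂ] HG G (ℕ × Bs G)) := by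
    funext b
    rw [pQ_one, h.zero, ← Bg_zero (fun β : Bs G => lab Q c q₀ b.1 β.F)]
    congr 1
    funext k
    cases k with
    | none => rfl
    | some q => rfl
  unfold ThL
  rw [h1]
  refine FamG.ext fun b => ?_
  rw [fam_apply (C := 0) (fun _ => norm_zero.le) b]
  rfl

end Inst

end Pool.Agent.Lib.MP_aa9b81_an.Tv
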