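import Pool.Agent.Lib.MP_aa9b81_an.Tv.A10
import Pool.Agent.Lib.MP_aa9b81_an.Tv.E1

/-!
# Transversals, part L4a: functions on the complement, extended by zero
-/

open scoped ENNReal Topology CompactlySupported
open Function Filter MeasureTheory

noncomputable section

set_option linter.unusedSectionVars false

namespace Pool.Agent.Lib.MP_aa9b81_an.Tv

open Cut Hs Cb

variable {G O Y E Z : Type} [Group G] [TopologicalSpace G] [IsTopologicalGroup G]
  [LocallyCompactSpace G] [SecondCountableTopology G] [T2Space G] [MeasurableSpace G]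
  [BorelSpace G] [DecidableEq G] [LinearOrder O]
  [TopologicalSpace Y] [MulAction G Y] [AddCommGroup E] [Module ℝ E]
  [TopologicalSpace E] [T2Space E] [ContinuousAdd E] [ContinuousSMul ℝ E] [DistribMulAction G E]
  [SMulCommClass G ℝ E] [ContinuousConstSMul G E] [TopologicalSpace Z] [MulAction G Z]
  [T2Space Y] [LocallyCompactSpace Y] [ContinuousSMul G Y] [T2Space Z] [LocallyCompactSpace Z]
  [ContinuousSMul G Z]
  {V : Set G} (Δ : Df G Y V) (c : Y → ℝ) (Q : ConvexSpace G E)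

/-! ### Extension by zero -/

/-- The inclusion of `US`. -/
def ιU : (US Δ c).Pt × Cone Q × Z ↪ Prs Δ × Cone Q × Z :=
  ⟨fun x => ((US Δ c).val x.1, x.2), fun _ _ h => Prod.ext
    ((US Δ c).val_injective (Prod.ext_iff.1 h).1) (Prod.ext_iff.1 h).2⟩

open Classical in
/-- The extension by zero of a function on `US × Cone Q × Z`. -/
def ez (φ : (US Δ c).Pt × Cone Q × Z → G → ℂ) (x : Prs Δ × Cone Q × Z) (g : G) : ℂ :=
  if h : x.1 ∈ (US Δ c).carrier then φ (⟨x.1, h⟩, x.2) g else 0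

variable {Δ c Q}

theorem ez_ιU (φ : (US Δ c).Pt × Cone Q × Z → G → ℂ) (x : (US Δ c).Pt × Cone Q × Z) (g : G) :
    ez Δ c Q φ (ιU Δ c Q x) g = φ x g := by
  classical
  have h : (ιU Δ c Q x).1 ∈ (US Δ c).carrier := (US Δ c).val_mem x.1
  exact dif_pos h

theorem ez_of_mem_FS (φ : (US Δ c).Pt × Cone Q × Z → G → ℂ) :
    ∀ x ∈ (FS Δ c).carrier, ∀ p g, ez Δ c Q φ (x, p) g = 0 := by
  classical
  intro x hx p g
  have h : ¬ x ∈ (US Δ c).carrier := fun h => h hx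
  exact dif_neg h

theorem ez_eq_zero {φ : (US Δ c).Pt × Cone Q × Z → G → ℂ} {g : G} (h : ∀ x, φ x g = 0)
    (x : Prs Δ × Cone Q × Z) : ez Δ c Q φ x g = 0 := by
  classical
  unfold ez
  split_ifs
  · exact h _
  · rfl

theorem notMem_range_ιU {x : Prs Δ × Cone Q × Z} :
    x ∉ Set.range (ιU Δ c Q) ↔ x.1 ∈ (FS Δ c).carrier := by
  constructor
  · intro h
    by_contra h1
    exact h ⟨(⟨x.1, h1⟩, x.2), rfl⟩
  · rintro h ⟨y, rfl⟩
    exact ((US Δ c).val_mem y.1) h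

/-- PROOF: `E1_isClosed_FS`; the inclusion of the open set times the identity. -/
theorem isOpenEmbedding_ιU (hV : V ∈ 𝓝 (1 : G)) (hc : Continuous c) :
    Topology.IsOpenEmbedding (ιU (Z := Z) Δ c Q) := by
  have h := (US.isOpenEmbedding_val (Δ := Δ) hV hc).prodMap
    (Topology.IsOpenEmbedding.id (X := Cone Q × Z))
  exact h

theorem ιU_smul (g : G) (x : (US Δ c).Pt × Cone Q × Z) :
    ιU Δ c Q (g • x) = g • ιU Δ c Q x := rfl

/-- PROOF: `exists_extCc` for `ιU`; the function is `ez` by `notMem_range_ιU`. -/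
theorem L4a_extCc {B B₀ : Type} [TopologicalSpace B] [T2Space B] [TopologicalSpace B₀]
    {ι : B₀ ↪ B} (hι : Topology.IsOpenEmbedding ι) (φ : C_c(B₀ × G, ℂ)) :
    ∃ ψ : C_c(B × G, ℂ), (∀ z g, ψ (ι z, g) = φ (z, g)) ∧
      ∀ b ∉ Set.range ι, ∀ g, ψ (b, g) = 0 := by
  classical
  have he : Topology.IsOpenEmbedding (Prod.map ι id : B₀ × G → B × G) :=
    hι.prodMap Topology.IsOpenEmbedding.id
  have hK : IsCompact (Prod.map ι id '' tsupport φ : Set (B × G)) :=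
    φ.hasCompactSupport.isCompact.image he.continuous
  have h1 : ∀ w : B₀ × G, Function.extend (Prod.map ι id : B₀ × G → B × G) φ 0 (Prod.map ι id w) =
      φ w := fun w => he.injective.extend_apply _ _ w
  have h2 : ∀ q : B × G, q ∉ Set.range (Prod.map ι id : B₀ × G → B × G) →
      Function.extend (Prod.map ι id : B₀ × G → B × G) φ 0 q = 0 := fun q hq =>
    Function.extend_apply' _ _ q fun ⟨w, hw⟩ => hq ⟨w, hw⟩
  have h3 : ∀ q : B × G, q ∉ (Prod.map ι id '' tsupport φ : Set (B × G)) →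
      Function.extend (Prod.map ι id : B₀ × G → B × G) φ 0 q = 0 := by
    intro q hq
    by_cases hr : q ∈ Set.range (Prod.map ι id : B₀ × G → B × G)
    · obtain ⟨w, rfl⟩ := hr
      rw [h1]
      exact image_eq_zero_of_notMem_tsupport fun hw => hq ⟨w, hw, rfl⟩
    · exact h2 q hr
  have hc : Continuous (Function.extend (Prod.map ι id : B₀ × G → B × G) φ 0) := by
    rw [continuous_iff_continuousAt]
    intro q
    by_cases hr : q ∈ Set.range (Prod.map ι id : B₀ × G → B × G)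
    · obtain ⟨w, rfl⟩ := hr
      rw [← he.continuousAt_iff]
      have h4 : Function.extend (Prod.map ι id : B₀ × G → B × G) φ 0 ∘ Prod.map ι id = φ :=
        funext h1
      rw [h4]
      exact φ.continuous.continuousAt
    · have h5 : q ∉ (Prod.map ι id '' tsupport φ : Set (B × G)) := by
        rintro ⟨w, -, rfl⟩
        exact hr ⟨w, rfl⟩
      have h6 : (Prod.map ι id '' tsupport φ : Set (B × G))ᶜ ∈ 𝓝 q :=
        hK.isClosed.isOpen_compl.mem_nhds h5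
      have h7 : (fun _ : B × G => (0 : ℂ)) =ᶠ[𝓝 q]
          Function.extend (Prod.map ι id : B₀ × G → B × G) φ 0 :=
        Filter.eventually_of_mem h6 fun q' hq' => (h3 q' hq').symm
      exact continuousAt_const.congr h7
  refine ⟨⟨⟨_, hc⟩, HasCompactSupport.intro hK h3⟩, fun z g => h1 (z, g), fun b hb g => ?_⟩
  refine h2 (b, g) ?_
  rintro ⟨w, hw⟩
  exact hb ⟨w.1, congrArg Prod.fst hw⟩

theorem L4a_t2Cone : T2Space (Cone Q) :=
  inferInstanceAs (T2Space {w : E × ℝ // 0 ≤ w.2 ∧ w.2 < 1 ∧ ∃ q ∈ Q.carrier, w.1 = w.2 • q})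

theorem exists_ezC (hV : V ∈ 𝓝 (1 : G)) (hc : Continuous c)
    (φ : C_c(((US Δ c).Pt × Cone Q × Z) × G, ℂ)) :
    ∃ ψ : C_c((Prs Δ × Cone Q × Z) × G, ℂ),
      ∀ x g, ψ (x, g) = ez Δ c Q (fun b g => φ (b, g)) x g := by
  have hT : T2Space (Prs Δ) := Prs.t2Space Δ hV
  have hT' : T2Space (Cone Q) := L4a_t2Cone
  obtain ⟨ψ, h1, h2⟩ := L4a_extCc (G := G) (isOpenEmbedding_ιU (Q := Q) (Z := Z) hV hc) φ
  refine ⟨ψ, fun x g => ?_⟩
  by_cases hx : x ∈ Set.range (ιU Δ c Q)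
  · obtain ⟨z, rfl⟩ := hx
    rw [h1, ez_ιU]
  · rw [h2 x hx g]
    exact (ez_of_mem_FS _ x.1 (notMem_range_ιU.1 hx) x.2 g).symm

theorem Cc_ez (hV : V ∈ 𝓝 (1 : G)) (hc : Continuous c)
    (φ : C_c(((US Δ c).Pt × Cone Q × Z) × G, ℂ)) :
    Cc (Prs Δ × Cone Q × Z) G (ez Δ c Q fun b g => φ (b, g)) := by
  obtain ⟨ψ, hψ⟩ := exists_ezC hV hc φ
  have h : (fun z : (Prs Δ × Cone Q × Z) × G => ez Δ c Q (fun b g => φ (b, g)) z.1 z.2) = ψ :=
    funext fun z => (hψ z.1 z.2).symm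
  exact ⟨h ▸ ψ.continuous, h ▸ ψ.hasCompactSupport⟩

section Inst

variable [T2Space (Prs Δ)] [ContinuousSMul G (Prs Δ)] [ContinuousSMul G (Cone Q)]
  [ContinuousSMul G Q.Pt]

/-- PROOF: `extG_gen`. -/
theorem extG_gen_ez {φ : C_c(((US Δ c).Pt × Cone Q × Z) × G, ℂ)}
    {ψ : C_c((Prs Δ × Cone Q × Z) × G, ℂ)}
    (h : ∀ x g, ψ (x, g) = ez Δ c Q (fun b g => φ (b, g)) x g) (i j : ℕ) :
    extG (ιU Δ c Q) (gen φ i j : FamG G ℕ ((US Δ c).Pt × Cone Q × Z)) = gen ψ i j := by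
  refine extG_gen (fun g z => ιU_smul g z) (fun z g => ?_) (fun b hb g => ?_) i j
  · rw [h, ez_ιU]
  · rw [h]
    exact ez_of_mem_FS _ b.1 (notMem_range_ιU.1 hb) b.2 g

/-- The first homomorphism on `US`. PROOF: `extG_mem`, `norm_extG`, `exists_ezC`, `extG_gen_ez`. -/
theorem SH_ext (hV : V ∈ 𝓝 (1 : G)) (hc : Continuous c) {e : G ↪ O}
    {Th : FamG G ℕ (Prs Δ × Cone Q × Z) → FamG G (ℕ × Bs G) (Y × Cone Q × Z)}
    {n : (Prs Δ × Cone Q × Z → G → ℂ) → Y × Cone Q × Z → G → BL (Bs G)} (h : SH e Th n) :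
    SH e (fun x : FamG G ℕ ((US Δ c).Pt × Cone Q × Z) => Th (extG (ιU Δ c Q) x))
      (fun φ => n (ez Δ c Q φ)) := by
  have hm : ∀ x ∈ cpG G ℕ ((US Δ c).Pt × Cone Q × Z),
      extG (ιU Δ c Q) x ∈ cpG G ℕ (Prs Δ × Cone Q × Z) :=
    extG_mem (G := G) (J := ℕ) (isOpenEmbedding_ιU (Q := Q) (Z := Z) hV hc)
      (fun g z => ιU_smul (Δ := Δ) (c := c) (Q := Q) g z)
  refine ⟨fun x hx y hy => ?_, fun x hx y hy => ?_, fun x hx => ?_, fun φ i j => ?_⟩
  · rw [map_add]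
    exact h.add _ (hm x hx) _ (hm y hy)
  · rw [map_mul]
    exact h.mul _ (hm x hx) _ (hm y hy)
  · refine (h.norm _ (hm x hx)).trans (le_of_eq ?_)
    exact norm_extG _ x
  · obtain ⟨ψ, hψ⟩ := exists_ezC hV hc φ
    rw [extG_gen_ez hψ i j, h.gen ψ i j]
    have h1 : (fun b g => ψ (b, g)) = ez Δ c Q fun b g => φ (b, g) :=
      funext fun x => funext fun g => hψ x g
    rw [h1]

end Inst

end Pool.Agent.Lib.MP_aa9b81_an.Tv
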