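import Pool.Agent.Lib.MP_aa9b81_an.Mg.G034

/-!
# Transversals, part N2: approximation of functions of compact support
-/

open scoped CompactlySupported
open Function Filter Topology

noncomputable section

set_option linter.unusedSectionVars false

namespace Pool.Agent.Lib.MP_aa9b81_an.Tv

section

variable {X V ι : Type} [TopologicalSpace X] [T2Space X] [TopologicalSpace V] [T2Space V]
  [LocallyCompactSpace V] {F : ι → X → ℝ}

/-- The functions on the compact set `K` which are functions of the second variable and of the values of the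
functions `F (s k)`, for all sequences `s` which contain a finite set. -/
def n2Alg (F : ι → X → ℝ) (K : Set (X × V)) : StarSubalgebra ℂ C(K, ℂ) where
  carrier := {h | ∃ S : Set ι, S.Finite ∧ ∀ s : ℕ → ι, (∀ i ∈ S, ∃ k, s k = i) →
    ∃ f : C((ℕ → ℝ) × V, ℂ), ∀ t : K, h t = f (fun k => F (s k) (t : X × V).1, (t : X × V).2)}
  mul_mem' := by
    rintro a b ⟨S, hS, ha⟩ ⟨S', hS', hb⟩
    refine ⟨S ∪ S', hS.union hS', fun s hs => ?_⟩
    obtain ⟨f, hf⟩ := ha s fun i hi => hs i (Or.inl hi)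
    obtain ⟨g, hg⟩ := hb s fun i hi => hs i (Or.inr hi)
    exact ⟨f * g, fun t => by
      rw [ContinuousMap.mul_apply, ContinuousMap.mul_apply, hf, hg]⟩
  add_mem' := by
    rintro a b ⟨S, hS, ha⟩ ⟨S', hS', hb⟩
    refine ⟨S ∪ S', hS.union hS', fun s hs => ?_⟩
    obtain ⟨f, hf⟩ := ha s fun i hi => hs i (Or.inl hi)
    obtain ⟨g, hg⟩ := hb s fun i hi => hs i (Or.inr hi)
    exact ⟨f + g, fun t => by
      rw [ContinuousMap.add_apply, ContinuousMap.add_apply, hf, hg]⟩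
  algebraMap_mem' := by
    intro c
    exact ⟨∅, Set.finite_empty, fun s _ => ⟨algebraMap ℂ _ c, fun t => rfl⟩⟩
  star_mem' := by
    rintro a ⟨S, hS, ha⟩
    refine ⟨S, hS, fun s hs => ?_⟩
    obtain ⟨f, hf⟩ := ha s hs
    exact ⟨star f, fun t => by
      rw [ContinuousMap.star_apply, ContinuousMap.star_apply, hf]⟩

/-- PROOF: for `x ≠ x'` the function `F i` with `F i x ≠ F i x'`, `S = {i}`, `f (c, v) = c k` where `s k = i`; for
`v ≠ v'` a continuous function on `V` (`exists_continuous_one_zero_of_isCompact`, as `y3_separates` in `Y3`). -/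
theorem n2_separates (hc : ∀ i, Continuous (F i))
    (hsep : ∀ x x' : X, x ≠ x' → ∃ i, F i x ≠ F i x') (K : Set (X × V)) :
    (n2Alg F K).SeparatesPoints := by
  intro t t' htt
  by_cases hx : (t : X × V).1 = (t' : X × V).1
  · have hv : (t : X × V).2 ≠ (t' : X × V).2 := by
      intro h
      exact htt (Subtype.ext (Prod.ext hx h))
    obtain ⟨f, hf1, hf0, -, -⟩ := exists_continuous_one_zero_of_isCompact
      (isCompact_singleton (x := (t : X × V).2)) (isClosed_singleton (x := (t' : X × V).2))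
      (Set.disjoint_singleton.2 hv)
    let G : C(V, ℂ) := ⟨fun b => ((f b : ℝ) : ℂ), Complex.continuous_ofReal.comp f.continuous⟩
    let h : C(K, ℂ) := ⟨fun s => G (s : X × V).2,
      G.continuous.comp (continuous_snd.comp continuous_subtype_val)⟩
    refine ⟨h, ⟨h, ⟨∅, Set.finite_empty, fun s _ => ?_⟩, rfl⟩, ?_⟩
    · exact ⟨G.comp ⟨Prod.snd, continuous_snd⟩, fun s => rfl⟩
    · change ((f (t : X × V).2 : ℝ) : ℂ) ≠ ((f (t' : X × V).2 : ℝ) : ℂ)
      rw [hf1 (Set.mem_singleton _), hf0 (Set.mem_singleton _)]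
      simp
  · obtain ⟨i, hi⟩ := hsep _ _ hx
    let h : C(K, ℂ) := ⟨fun s => ((F i (s : X × V).1 : ℝ) : ℂ),
      Complex.continuous_ofReal.comp ((hc i).comp (continuous_fst.comp continuous_subtype_val))⟩
    refine ⟨h, ⟨h, ⟨{i}, Set.finite_singleton i, fun s hs => ?_⟩, rfl⟩, ?_⟩
    · obtain ⟨k, hk⟩ := hs i (Set.mem_singleton i)
      refine ⟨⟨fun p => ((p.1 k : ℝ) : ℂ), Complex.continuous_ofReal.comp
        ((continuous_apply k).comp continuous_fst)⟩, fun t => ?_⟩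
      change ((F i (t : X × V).1 : ℝ) : ℂ) = ((F (s k) (t : X × V).1 : ℝ) : ℂ)
      rw [hk]
    · change ((F i (t : X × V).1 : ℝ) : ℂ) ≠ ((F i (t' : X × V).1 : ℝ) : ℂ)
      intro h'
      exact hi (Complex.ofReal_injective h')

private theorem n2_exists_pos {α : Type*} (T : Finset α) (g : α → ℝ) (hg : ∀ x, 0 < g x) :
    ∃ δ : ℝ, 0 < δ ∧ ∀ x ∈ T, δ ≤ g x := by
  classical
  induction T using Finset.induction_on with
  | empty => exact ⟨1, one_pos, by simp⟩
  | insert a T _ ih =>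
    obtain ⟨δ, h0, h⟩ := ih
    refine ⟨min δ (g a), lt_min h0 (hg a), ?_⟩
    intro x hx
    rcases Finset.mem_insert.1 hx with rfl | hx
    · exact min_le_right _ _
    · exact (min_le_left _ _).trans (h x hx)

/-- Finitely many of the functions are large on a compact set. PROOF: the open sets `{x | 1 / (n + 1) < F i x}` for
`(i, n)` cover `K`; finite subcover, `δ` the half of the minimum. -/
theorem n2_cover (hc : ∀ i, Continuous (F i)) (h0 : ∀ i x, 0 ≤ F i x)
    (hpos : ∀ x, ∃ i, F i x ≠ 0) {K : Set X} (hK : IsCompact K) :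
    ∃ (S : Finset ι) (δ : ℝ), 0 < δ ∧ ∀ x ∈ K, ∃ i ∈ S, 2 * δ ≤ F i x := by
  classical
  choose i hi using hpos
  have hi' : ∀ x, 0 < F (i x) x := fun x => lt_of_le_of_ne (h0 _ _) (Ne.symm (hi x))
  obtain ⟨T, -, hT⟩ := hK.elim_nhds_subcover (fun x => {y | F (i x) x / 2 < F (i x) y}) (fun x _ =>
    (isOpen_lt continuous_const (hc (i x))).mem_nhds (by
      change F (i x) x / 2 < F (i x) x
      linarith [hi' x]))
  obtain ⟨δ, hδ, hδT⟩ := n2_exists_pos T (fun x => F (i x) x / 4) (fun x => by linarith [hi' x])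
  refine ⟨T.image i, δ, hδ, ?_⟩
  intro y hy
  obtain ⟨x, hx⟩ := Set.mem_iUnion.1 (hT hy)
  obtain ⟨hxT, hxy⟩ := Set.mem_iUnion.1 hx
  refine ⟨i x, Finset.mem_image_of_mem _ hxT, ?_⟩
  have h1 := hδT x hxT
  have h2 : F (i x) x / 2 < F (i x) y := hxy
  linarith

/-- Functions of compact support on `X × V` are approximated by functions on `Y × V`. PROOF: `K₀`, `L₀` the
projections of `tsupport φ`; `L` a compact neighbourhood of `L₀`, `θ : V → [0,1]` continuous with `θ = 1` on `L₀` and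
support in `L`; `S₀`, `δ` by `n2_cover` for `K₀`; `L₁ = {x | ∃ i ∈ S₀, δ ≤ F i x}` is compact (`hcs`). Stone-Weierstrass on
`K = L₁ ×ˢ L` for `n2Alg F K` gives `h` with `‖φ - h‖ ≤ ε` on `K` and a finite set `S₁`; put `S = S₀ ∪ S₁`. For `s`
and `Y` let `k i` be an index with `s (k i) = i` (`i ∈ S₀`) and
`χ y = min 1 (max 0 ((m y - δ) / δ))`, `m y` the sup of the `c (k i) y` over `i ∈ S₀`
(if `S₀` is empty then `φ = 0`), `ψ (y, v) = χ y * θ v * f (fun k => c k y, v)`. The support of `ψ` is contained in the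
compact set `{y | δ ≤ m y} ×ˢ L`, and `{y | δ ≤ m y}` is the image under `π` of the compact set `L₁`. -/
theorem exists_Cc_approx (hc : ∀ i, Continuous (F i)) (h0 : ∀ i x, 0 ≤ F i x)
    (hcs : ∀ i, HasCompactSupport (F i)) (hpos : ∀ x, ∃ i, F i x ≠ 0)
    (hsep : ∀ x x' : X, x ≠ x' → ∃ i, F i x ≠ F i x') (φ : C_c(X × V, ℂ)) :
    ∃ L : Set V, IsCompact L ∧ (∀ x v, v ∉ L → φ (x, v) = 0) ∧ ∀ ε : ℝ, 0 < ε →
      ∃ S : Set ι, S.Finite ∧ ∀ s : ℕ → ι, (∀ i ∈ S, ∃ k, s k = i) →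
        ∀ (Y : Type) [TopologicalSpace Y] [T2Space Y] (O : Set X) (π : O → Y), Continuous π →
          Surjective π → ∀ c : ℕ → Y → ℝ, (∀ k, Continuous (c k)) →
          (∀ k (x : O), c k (π x) = F (s k) x) → (∀ k x, F (s k) x ≠ 0 → x ∈ O) →
          ∃ ψ : C_c(Y × V, ℂ), (∀ (x : O) v, ‖φ ((x : X), v) - ψ (π x, v)‖ ≤ ε) ∧
            (∀ y v, v ∉ L → ψ (y, v) = 0) ∧ ∀ x, x ∉ O → ∀ v, φ (x, v) = 0 := by
  have hK0 : IsCompact (Prod.fst '' tsupport φ) :=
    φ.hasCompactSupport.isCompact.image continuous_fst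
  have hL0 : IsCompact (Prod.snd '' tsupport φ) :=
    φ.hasCompactSupport.isCompact.image continuous_snd
  have hφK : ∀ x v, φ (x, v) ≠ 0 → x ∈ Prod.fst '' tsupport φ := fun x v h =>
    ⟨(x, v), subset_tsupport _ h, rfl⟩
  have hφL : ∀ x v, φ (x, v) ≠ 0 → v ∈ Prod.snd '' tsupport φ := fun x v h =>
    ⟨(x, v), subset_tsupport _ h, rfl⟩
  obtain ⟨L, hL, hKL⟩ := exists_compact_superset hL0
  obtain ⟨θ, hθ1, hθ0, -, hθI⟩ := exists_continuous_one_zero_of_isCompact hL0
    (isOpen_interior (s := L)).isClosed_compl (by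
      rw [Set.disjoint_compl_right_iff_subset]
      exact hKL)
  have hθL : ∀ v, v ∉ L → θ v = 0 := fun v hv => hθ0 fun h => hv (interior_subset h)
  refine ⟨L, hL, fun x v hv => ?_, fun ε hε => ?_⟩
  · by_contra h
    exact hv (interior_subset (hKL (hφL x v h)))
  obtain ⟨S₀, δ, hδ, hS₀⟩ := n2_cover hc h0 hpos hK0
  have hL1 : IsCompact (⋃ i ∈ S₀, {x | δ ≤ F i x}) := by
    refine S₀.isCompact_biUnion fun i _ => ?_
    refine (hcs i).isCompact.of_isClosed_subset (isClosed_le continuous_const (hc i)) ?_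
    intro x hx
    refine subset_tsupport _ ?_
    have hx' : δ ≤ F i x := hx
    exact (hδ.trans_le hx').ne'
  have hKc : IsCompact ((⋃ i ∈ S₀, {x | δ ≤ F i x}) ×ˢ L) := hL1.prod hL
  generalize hL₁ : (⋃ i ∈ S₀, {x | δ ≤ F i x}) = L₁ at hL1 hKc
  have hmem1 : ∀ x, x ∈ L₁ ↔ ∃ i ∈ S₀, δ ≤ F i x := by
    intro x
    rw [← hL₁]
    simp only [Set.mem_iUnion, Set.mem_ofPred_eq, exists_prop]
  have hcomp : CompactSpace (L₁ ×ˢ L : Set (X × V)) := isCompact_iff_compactSpace.1 hKc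
  have htop := ContinuousMap.starSubalgebra_topologicalClosure_eq_top_of_separatesPoints
    (n2Alg F (L₁ ×ˢ L)) (n2_separates hc hsep _)
  let φK : C((L₁ ×ˢ L : Set (X × V)), ℂ) :=
    ⟨fun t => φ (t : X × V), φ.continuous.comp continuous_subtype_val⟩
  have hmem : φK ∈ (n2Alg F (L₁ ×ˢ L)).topologicalClosure := by
    rw [htop]
    trivial
  have hmem' : φK ∈ closure ((n2Alg F (L₁ ×ˢ L) :
      StarSubalgebra ℂ C((L₁ ×ˢ L : Set (X × V)), ℂ)) : Set C((L₁ ×ˢ L : Set (X × V)), ℂ)) := hmem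
  obtain ⟨h, ⟨S₁, hS₁, hh⟩, hd⟩ := Metric.mem_closure_iff.1 hmem' ε hε
  refine ⟨(S₀ : Set ι) ∪ S₁, S₀.finite_toSet.union hS₁, fun s hs => ?_⟩
  obtain ⟨f, hf⟩ := hh s fun i hi => hs i (Or.inr hi)
  have hk : ∀ i : ι, ∃ k, i ∈ S₀ → s k = i := by
    intro i
    by_cases hi : i ∈ S₀
    · obtain ⟨k, hk⟩ := hs i (Or.inl hi)
      exact ⟨k, fun _ => hk⟩
    · exact ⟨0, fun h => absurd h hi⟩
  choose kk hkk using hk
  intro Y _ _ O π hπ hπs c hcc hcπ hO
  -- the cut off function on `Y`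
  let χ : Y → ℝ := fun y => min 1 (∑ i ∈ S₀, max 0 ((c (kk i) y - δ) / δ))
  have hχc : Continuous χ := by
    refine continuous_const.min (continuous_finsetSum _ fun i _ => ?_)
    exact continuous_const.max (((hcc _).sub continuous_const).div_const _)
  have hsum0 : ∀ y, 0 ≤ ∑ i ∈ S₀, max 0 ((c (kk i) y - δ) / δ) := fun y =>
    Finset.sum_nonneg fun i _ => le_max_left _ _
  have hχ0 : ∀ y, 0 ≤ χ y := fun y => le_min zero_le_one (hsum0 y)
  have hχ1 : ∀ y, χ y ≤ 1 := fun y => min_le_left _ _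
  have hχne : ∀ y, χ y ≠ 0 → ∃ i ∈ S₀, δ ≤ c (kk i) y := by
    intro y hy
    by_contra hcon
    push Not at hcon
    apply hy
    have e : ∑ i ∈ S₀, max 0 ((c (kk i) y - δ) / δ) = 0 := by
      refine Finset.sum_eq_zero fun i hi => max_eq_left ?_
      exact div_nonpos_of_nonpos_of_nonneg (by linarith [hcon i hi]) hδ.le
    change min 1 (∑ i ∈ S₀, max 0 ((c (kk i) y - δ) / δ)) = 0
    rw [e]
    exact min_eq_right zero_le_one
  have hχone : ∀ y, (∃ i ∈ S₀, 2 * δ ≤ c (kk i) y) → χ y = 1 := by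
    rintro y ⟨i, hi, hy⟩
    refine min_eq_left ?_
    have h1 : (1 : ℝ) ≤ max 0 ((c (kk i) y - δ) / δ) := by
      refine le_trans ?_ (le_max_right _ _)
      rw [le_div_iff₀ hδ]
      linarith
    exact h1.trans (Finset.single_le_sum (f := fun i => max 0 ((c (kk i) y - δ) / δ))
      (fun i _ => le_max_left _ _) hi)
  have hcF : ∀ i ∈ S₀, ∀ x : O, c (kk i) (π x) = F i x := by
    intro i hi x
    rw [hcπ, hkk i hi]
  have hL₁O : L₁ ⊆ O := by
    intro x hx
    obtain ⟨i, hi, hx⟩ := (hmem1 x).1 hx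
    refine hO (kk i) x ?_
    rw [hkk i hi]
    exact (hδ.trans_le hx).ne'
  have hφχ : ∀ (x : O) v, ((χ (π x) * θ v : ℝ) : ℂ) * φ ((x : X), v) = φ ((x : X), v) := by
    intro x v
    by_cases hne : φ ((x : X), v) = 0
    · rw [hne, mul_zero]
    · obtain ⟨i, hi, hx⟩ := hS₀ x (hφK _ _ hne)
      have e1 : χ (π x) = 1 := hχone _ ⟨i, hi, by rw [hcF i hi]; exact hx⟩
      have e2 : θ v = 1 := hθ1 (hφL _ _ hne)
      rw [e1, e2]
      simp
  have hfc : Continuous fun p : Y × V =>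
      ((χ p.1 * θ p.2 : ℝ) : ℂ) * f (fun k => c k p.1, p.2) := by
    refine (Complex.continuous_ofReal.comp ((hχc.comp continuous_fst).mul
      (θ.continuous.comp continuous_snd))).mul (f.continuous.comp ?_)
    exact (continuous_pi fun k => (hcc k).comp continuous_fst).prodMk continuous_snd
  have hcptO : IsCompact (Subtype.val ⁻¹' L₁ : Set O) := by
    rw [Subtype.isCompact_iff, Subtype.image_preimage_coe, Set.inter_eq_right.2 hL₁O]
    exact hL1
  have hcpt : IsCompact ((π '' (Subtype.val ⁻¹' L₁)) ×ˢ L) := (hcptO.image hπ).prod hL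
  have hfs : HasCompactSupport fun p : Y × V =>
      ((χ p.1 * θ p.2 : ℝ) : ℂ) * f (fun k => c k p.1, p.2) := by
    refine HasCompactSupport.of_support_subset_isCompact hcpt ?_
    rintro ⟨y, v⟩ hyv
    have hyv' : ((χ y * θ v : ℝ) : ℂ) * f (fun k => c k y, v) ≠ 0 := hyv
    have h1 : χ y ≠ 0 := by
      intro h
      apply hyv'
      rw [h, zero_mul, Complex.ofReal_zero, zero_mul]
    have h2 : v ∈ L := by
      by_contra h
      apply hyv'
      rw [hθL v h, mul_zero, Complex.ofReal_zero, zero_mul]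
    obtain ⟨i, hi, hyi⟩ := hχne y h1
    obtain ⟨x, rfl⟩ := hπs y
    refine ⟨⟨x, (hmem1 _).2 ⟨i, hi, ?_⟩, rfl⟩, h2⟩
    rw [← hcF i hi x]
    exact hyi
  refine ⟨⟨⟨_, hfc⟩, hfs⟩, fun x v => ?_, fun y v hv => ?_, fun x hx v => ?_⟩
  · change ‖φ ((x : X), v) - ((χ (π x) * θ v : ℝ) : ℂ) * f (fun k => c k (π x), v)‖ ≤ ε
    by_cases hxv : ((x : X), v) ∈ (L₁ ×ˢ L : Set (X × V))
    · have e1 : f (fun k => c k (π x), v) = h ⟨((x : X), v), hxv⟩ := by
        rw [hf ⟨((x : X), v), hxv⟩]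
        simp only [hcπ]
      have h1 : ‖φ ((x : X), v) - f (fun k => c k (π x), v)‖ ≤ ε := by
        have h2 := ContinuousMap.dist_apply_le_dist (f := φK) (g := h)
          (⟨((x : X), v), hxv⟩ : (L₁ ×ˢ L : Set (X × V)))
        rw [dist_eq_norm] at h2
        rw [e1]
        exact h2.trans hd.le
      have h3 : φ ((x : X), v) - ((χ (π x) * θ v : ℝ) : ℂ) * f (fun k => c k (π x), v) =
          ((χ (π x) * θ v : ℝ) : ℂ) * (φ ((x : X), v) - f (fun k => c k (π x), v)) := by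
        rw [mul_sub, hφχ]
      have h4 : 0 ≤ χ (π x) * θ v := mul_nonneg (hχ0 _) (hθI _).1
      have h5 : χ (π x) * θ v ≤ 1 := mul_le_one₀ (hχ1 _) (hθI _).1 (hθI _).2
      rw [h3, norm_mul, Complex.norm_real, Real.norm_eq_abs, abs_of_nonneg h4]
      calc χ (π x) * θ v * ‖φ ((x : X), v) - f (fun k => c k (π x), v)‖
          ≤ 1 * ‖φ ((x : X), v) - f (fun k => c k (π x), v)‖ :=
            mul_le_mul_of_nonneg_right h5 (norm_nonneg _)
        _ ≤ ε := by rw [one_mul]; exact h1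
    · have e0 : χ (π x) * θ v = 0 := by
        by_contra hne
        apply hxv
        have h1 : χ (π x) ≠ 0 := fun h => hne (by rw [h, zero_mul])
        have h2 : v ∈ L := by
          by_contra h
          exact hne (by rw [hθL v h, mul_zero])
        obtain ⟨i, hi, hyi⟩ := hχne _ h1
        refine ⟨(hmem1 _).2 ⟨i, hi, ?_⟩, h2⟩
        rw [← hcF i hi x]
        exact hyi
      have e1 := hφχ x v
      rw [e0, Complex.ofReal_zero, zero_mul] at e1
      rw [e0, Complex.ofReal_zero, zero_mul, ← e1, sub_zero, norm_zero]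
      exact hε.le
  · change ((χ y * θ v : ℝ) : ℂ) * f (fun k => c k y, v) = 0
    rw [hθL v hv, mul_zero, Complex.ofReal_zero, zero_mul]
  · by_contra hne
    obtain ⟨i, hi, hx2⟩ := hS₀ x (hφK _ _ hne)
    apply hx
    refine hO (kk i) x ?_
    rw [hkk i hi]
    have : 0 < 2 * δ := by positivity
    exact (this.trans_le hx2).ne'

end

end Pool.Agent.Lib.MP_aa9b81_an.Tv
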