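import Pool.Agent.Lib.MP_aa9b81_an.Tv.J3
import Pool.Agent.Lib.MP_aa9b81_an.Mg.G035
import Pool.Agent.Lib.MP_aa9b81_an.Tv.N2

/-!
# Transversals, part N3: approximation of the elements of the crossed product
-/

open scoped ENNReal Topology CompactlySupported
open Function Filter MeasureTheory

noncomputable section

set_option linter.unusedSectionVars false

namespace Pool.Agent.Lib.MP_aa9b81_an.Tv

open Cut Hs Cb

variable {G X W : Type} [Group G] [TopologicalSpace G] [IsTopologicalGroup G]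
  [LocallyCompactSpace G] [SecondCountableTopology G] [T2Space G] [MeasurableSpace G] [BorelSpace G]
  [TopologicalSpace X] [T2Space X] [LocallyCompactSpace X] [MulAction G X] [ContinuousSMul G X]
  [TopologicalSpace W] [T2Space W] [LocallyCompactSpace W] [MulAction G W] [ContinuousSMul G W]

/-- The inclusion. -/
def valW {ω : G → ℝ} (W : Type) (s : ℕ → Adm ω X) : (domS s).Pt × W ↪ X × W :=
  ⟨Prod.map (domS s).val id, (domS s).val_injective.prodMap injective_id⟩

/-- The projection. -/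
def piW {ω : G → ℝ} (W : Type) (s : ℕ → Adm ω X) : (domS s).Pt × W → (imS s).Pt × W :=
  Prod.map (piS s) id

theorem isOpenEmbedding_valW {ω : G → ℝ} (s : ℕ → Adm ω X) :
    Topology.IsOpenEmbedding (valW W s) := by
  have h1 : Topology.IsOpenEmbedding (domS s).val := (isOpen_domS s).isOpenEmbedding_subtypeVal
  exact h1.prodMap Topology.IsOpenEmbedding.id

theorem valW_smul {ω : G → ℝ} (s : ℕ → Adm ω X) (g : G) (x : (domS s).Pt × W) :
    valW W s (g • x) = g • valW W s x := by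
  exact Prod.ext ((domS s).val_smul g x.1) rfl

theorem isProperMap_piW {ω : G → ℝ} (s : ℕ → Adm ω X) : IsProperMap (piW W s) := by
  exact (isProperMap_piS s).prodMap isProperMap_id

theorem piW_smul {ω : G → ℝ} (s : ℕ → Adm ω X) (g : G) (x : (domS s).Pt × W) :
    piW W s (g • x) = g • piW W s x := by
  exact Prod.ext (piS_smul s g x.1) rfl

theorem piW_surjective {ω : G → ℝ} (s : ℕ → Adm ω X) : Surjective (piW W s) := by
  exact (piS_surjective s).prodMap surjective_id

/-- Reassociation of the variables of a function of compact support. -/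
theorem n3_assoc {A B C : Type} [TopologicalSpace A] [TopologicalSpace B] [TopologicalSpace C]
    [T2Space A] [T2Space B] [T2Space C]
    (φ : C_c(A × (B × C), ℂ)) : ∃ ψ : C_c((A × B) × C, ℂ), ∀ a b c, ψ ((a, b), c) = φ (a, (b, c)) := by
  refine ⟨⟨⟨fun q : (A × B) × C => φ (Homeomorph.prodAssoc A B C q), ?_⟩, ?_⟩, fun _ _ _ => rfl⟩
  · exact φ.continuous.comp (Homeomorph.prodAssoc A B C).continuous
  · exact φ.hasCompactSupport.comp_homeomorph (Homeomorph.prodAssoc A B C)

/-- Reassociation of the variables of a function of compact support. -/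
theorem n3_assoc' {A B C : Type} [TopologicalSpace A] [TopologicalSpace B] [TopologicalSpace C]
    [T2Space A] [T2Space B] [T2Space C]
    (φ : C_c((A × B) × C, ℂ)) : ∃ ψ : C_c(A × (B × C), ℂ), ∀ a b c, ψ (a, (b, c)) = φ ((a, b), c) := by
  refine ⟨⟨⟨fun q : A × (B × C) => φ ((Homeomorph.prodAssoc A B C).symm q), ?_⟩, ?_⟩,
    fun _ _ _ => rfl⟩
  · exact φ.continuous.comp (Homeomorph.prodAssoc A B C).symm.continuous
  · exact φ.hasCompactSupport.comp_homeomorph (Homeomorph.prodAssoc A B C).symm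

/-- The elements of the crossed product of `X × W` are approximated by those of the spaces `(imS s).Pt × W`.
PROOF: `cpG_induction`, the first three cases as in `J3_approx` (`J3`). For a generator `φ ∈ C_c((X × W) × G)`: compose
with the homeomorphism `(X × W) × G ≃ X × (W × G)` and apply `exists_Cc_approx` with `V = W × G`,
`ι = Adm b.ω X`, `F i = i.F`, `Y = (imS s).Pt`, `O = (domS s).carrier`, `π = piS s`, `c = coorS s`
(`Adm.exists_sep`, `Adm.exists_pos`). `C = Prod.snd '' L` is a compact subset of `G`. Then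
`pullG (piW W s) (gen ψ i j) = gen ψ' i j` (`exists_pullCc`, `pullG_gen`), `extG (valW W s) (gen ψ' i j) = gen ψ'' i j`
(`exists_extCc`, `extG_gen`), `gen_sub` and `norm_gen_le` with `C` and `ε / (cs C + 1)`, as at the end of
`dens_of_limit` (`Y3`). -/
theorem dens_adm (b : Bumps G) : ∀ a ∈ cpG G ℕ (X × W), ∀ ε : ℝ, 0 < ε →
    ∃ S : Set (Adm b.ω X), S.Finite ∧ ∀ s : ℕ → Adm b.ω X, (∀ F ∈ S, ∃ k, s k = F) →
      ∃ a₀ ∈ cpG G ℕ ((imS s).Pt × W), ‖a - extG (valW W s) (pullG (piW W s) a₀)‖ ≤ ε := by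
  refine cpG_induction (p := fun a => ∀ ε : ℝ, 0 < ε →
    ∃ S : Set (Adm b.ω X), S.Finite ∧ ∀ s : ℕ → Adm b.ω X, (∀ F ∈ S, ∃ k, s k = F) →
      ∃ a₀ ∈ cpG G ℕ ((imS s).Pt × W), ‖a - extG (valW W s) (pullG (piW W s) a₀)‖ ≤ ε) ?_ ?_ ?_ ?_
  · refine isClosed_of_closure_subset fun a ha ε hε => ?_
    obtain ⟨c, hc, hac⟩ := Metric.mem_closure_iff.1 ha (ε / 2) (half_pos hε)
    obtain ⟨S, hS, hN⟩ := hc (ε / 2) (half_pos hε)
    refine ⟨S, hS, fun s hs => ?_⟩
    obtain ⟨a₀, ha₀, h1⟩ := hN s hs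
    refine ⟨a₀, ha₀, ?_⟩
    have e : a - extG (valW W s) (pullG (piW W s) a₀) =
        (a - c) + (c - extG (valW W s) (pullG (piW W s) a₀)) := by abel
    rw [e]
    rw [dist_eq_norm] at hac
    refine (norm_add_le _ _).trans ?_
    linarith
  · intro ε hε
    refine ⟨∅, Set.finite_empty, fun s _ => ⟨0, zero_mem _, ?_⟩⟩
    rw [map_zero, map_zero, sub_zero, norm_zero]
    exact hε.le
  · intro a c ha hc ε hε
    obtain ⟨S, hS, hN⟩ := ha (ε / 2) (half_pos hε)
    obtain ⟨S', hS', hN'⟩ := hc (ε / 2) (half_pos hε)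
    refine ⟨S ∪ S', hS.union hS', fun s hs => ?_⟩
    obtain ⟨a₀, ha₀, h1⟩ := hN s fun F hF => hs F (Or.inl hF)
    obtain ⟨c₀, hc₀, h2⟩ := hN' s fun F hF => hs F (Or.inr hF)
    refine ⟨a₀ + c₀, add_mem ha₀ hc₀, ?_⟩
    have e : a + c - extG (valW W s) (pullG (piW W s) (a₀ + c₀)) =
        (a - extG (valW W s) (pullG (piW W s) a₀)) +
          (c - extG (valW W s) (pullG (piW W s) c₀)) := by
      rw [map_add, map_add]
      abel
    rw [e]
    refine (norm_add_le _ _).trans ?_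
    linarith
  · intro φ i j ε hε
    have : ContinuousSMul G (Uw b.ω) := Uw.continuousSMul b.tend
    obtain ⟨φ', hφ'⟩ := n3_assoc' φ
    obtain ⟨L, hL, hφL, happ⟩ := exists_Cc_approx (X := X) (V := W × G) (ι := Adm b.ω X)
      (F := fun i => i.F) (fun i => i.cont) (fun i => i.nonneg) (fun i => i.cpt)
      (Adm.exists_pos b) (fun x x' h => Adm.exists_sep b h) φ'
    have hC : IsCompact (Prod.snd '' L) := hL.image continuous_snd
    have hcs : 0 ≤ cs (Prod.snd '' L) := Real.sqrt_nonneg _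
    have hδ : 0 < ε / (cs (Prod.snd '' L) + 1) := by positivity
    obtain ⟨S, hS, hN⟩ := happ _ hδ
    refine ⟨S, hS, fun s hs => ?_⟩
    obtain ⟨ψ₀, h1, h2, h3⟩ := hN s hs (imS s).Pt (domS s).carrier (piS s)
      (isProperMap_piS s).continuous (piS_surjective s) (coorS s) (continuous_coorS s)
      (fun k x => coorS_piS s k x) (fun k x hx => mem_domS_of_ne hx)
    obtain ⟨ψ, hψ⟩ := n3_assoc ψ₀
    obtain ⟨ψ', hψ'⟩ := exists_pullCc (G := G) (isProperMap_piW (W := W) s) ψ
    obtain ⟨ψ'', hψ'', hψ0⟩ := exists_extCc (G := G) (isOpenEmbedding_valW (W := W) s) ψ'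
    refine ⟨Cb.gen ψ i j, gen_mem ψ i j, ?_⟩
    rw [pullG_gen (piW_smul s) hψ', extG_gen (valW_smul s) hψ'' hψ0, ← Cb.gen_sub]
    have hval : ∀ (x : (domS s).Pt) (w : W) (g : G),
        ψ'' (((domS s).val x, w), g) = ψ₀ (piS s x, (w, g)) := by
      intro x w g
      have h4 := hψ'' (x, w) g
      rw [hψ' (x, w) g] at h4
      exact h4.trans (hψ (piS s x) w g)
    have hout : ∀ (x : X) (w : W) (g : G), x ∉ (domS s).carrier → ψ'' ((x, w), g) = 0 := by
      intro x w g hx
      refine hψ0 (x, w) ?_ g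
      rintro ⟨z, hz⟩
      have h4 : (domS s).val z.1 = x := congrArg Prod.fst hz
      exact hx (h4 ▸ z.1.2)
    have h4 : ∀ p : (X × W) × G, ‖(φ - ψ'') p‖ ≤ ε / (cs (Prod.snd '' L) + 1) := by
      rintro ⟨⟨x, w⟩, g⟩
      change ‖φ ((x, w), g) - ψ'' ((x, w), g)‖ ≤ _
      by_cases hx : x ∈ (domS s).carrier
      · have h5 := hval ⟨x, hx⟩ w g
        have h6 : ψ'' ((x, w), g) = ψ₀ (piS s ⟨x, hx⟩, (w, g)) := h5
        rw [h6, ← hφ']
        exact h1 ⟨x, hx⟩ (w, g)
      · rw [hout x w g hx, ← hφ', h3 x hx (w, g), sub_zero, norm_zero]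
        exact hδ.le
    have h5 : ∀ (z : X × W) (g : G), g ∉ Prod.snd '' L → (φ - ψ'') (z, g) = 0 := by
      rintro ⟨x, w⟩ g hg
      have h6 : (w, g) ∉ L := fun ha => hg ⟨(w, g), ha, rfl⟩
      change φ ((x, w), g) - ψ'' ((x, w), g) = 0
      rw [← hφ', hφL x (w, g) h6, zero_sub, neg_eq_zero]
      by_cases hx : x ∈ (domS s).carrier
      · have h7 : ψ'' ((x, w), g) = ψ₀ (piS s ⟨x, hx⟩, (w, g)) := hval ⟨x, hx⟩ w g
        rw [h7]
        exact h2 _ _ h6
      · exact hout x w g hx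
    refine (Cb.norm_gen_le (φ - ψ'') hC hδ.le h4 h5 i j).trans ?_
    rw [div_mul_eq_mul_div, div_le_iff₀ (by positivity)]
    nlinarith

end Pool.Agent.Lib.MP_aa9b81_an.Tv
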