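import Pool.Agent.Lib.MP_aa9b81_an.Mg.G034
import Pool.Agent.Lib.MP_aa9b81_an.CutM.S

/-!
# Transversals, suspension: homotopy invariance, contractions, paths of units
-/

open scoped ENNReal Topology CompactlySupported
open Function Filter MeasureTheory

noncomputable section

set_option linter.unusedSectionVars false

namespace Pool.Agent.Lib.MP_aa9b81_an.Tv

open Cut Hs Cb

instance {G : Type} [Group G] [TopologicalSpace G] : ContinuousSMul G OC := ⟨continuous_snd⟩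

instance {G : Type} [Group G] [TopologicalSpace G] : ContinuousSMul G OO := ⟨continuous_snd⟩

section Hom

variable {G X Y P : Type} [Group G] [TopologicalSpace G] [IsTopologicalGroup G]
  [LocallyCompactSpace G] [SecondCountableTopology G] [T2Space G] [MeasurableSpace G] [BorelSpace G]
  [TopologicalSpace X] [T2Space X] [MulAction G X] [ContinuousSMul G X]
  [TopologicalSpace Y] [T2Space Y] [MulAction G Y] [ContinuousSMul G Y]
  [TopologicalSpace P] [T2Space P] [MulAction G P] [ContinuousSMul G P]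

/-- The rearrangement `((x, g), t) ↦ ((x, t), g)`. -/
def swp (A B C : Type) [TopologicalSpace A] [TopologicalSpace B] [TopologicalSpace C] :
    (A × B) × C ≃ₜ (A × C) × B where
  toFun z := ((z.1.1, z.2), z.1.2)
  invFun z := ((z.1.1, z.2), z.1.2)
  left_inv _ := rfl
  right_inv _ := rfl
  continuous_toFun := by fun_prop
  continuous_invFun := by fun_prop

/-- A continuous function of compact support as a function vanishing at infinity. -/
def toC0 {Z : Type} [TopologicalSpace Z] (φ : C_c(Z, ℂ)) : ZeroAtInftyContinuousMap Z ℂ :=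
  ⟨φ.toContinuousMap, by
    refine tendsto_nhds_of_eventually_eq ?_
    filter_upwards [φ.hasCompactSupport.compl_mem_cocompact] with z hz
    exact image_eq_zero_of_notMem_tsupport hz⟩

/-- PROOF: `exists_unif_close` (CutM/H) for `((x, g), t) ↦ (h (x, t), g)`. -/
theorem exists_unif_closeG {h : X × Set.Icc (0 : ℝ) 1 → Y} (hh : IsProperMap h)
    (φ : C_c(Y × G, ℂ)) (t₀ : Set.Icc (0 : ℝ) 1) {ε : ℝ} (hε : 0 < ε) :
    ∀ᶠ t in 𝓝 t₀, ∀ x g, ‖φ (h (x, t), g) - φ (h (x, t₀), g)‖ ≤ ε := by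
  have h1 : IsProperMap fun z : (X × G) × Set.Icc (0 : ℝ) 1 => (h (z.1.1, z.2), z.1.2) :=
    (hh.prodMap isProperMap_id).comp (swp X G (Set.Icc (0 : ℝ) 1)).isProperMap
  filter_upwards [exists_unif_close h1 (toC0 φ) t₀ hε] with t ht x g
  exact ht (x, g)

/-- PROOF: `cpG_induction`; a generator: `exists_unif_closeG`, `norm_gen_le`. -/
theorem continuous_pullG_homotopy {h : X × Set.Icc (0 : ℝ) 1 → Y} (hh : IsProperMap h)
    (he : ∀ (g : G) x t, h (g • x, t) = g • h (x, t)) : ∀ a ∈ cpG G ℕ Y,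
    Continuous fun t : Set.Icc (0 : ℝ) 1 => (pullG (fun x => h (x, t)) a : FamG G ℕ X) := by
  refine cpG_induction (p := fun a => Continuous fun t : Set.Icc (0 : ℝ) 1 =>
    (pullG (fun x => h (x, t)) a : FamG G ℕ X)) ?_ ?_ ?_ ?_
  · refine isClosed_of_closure_subset fun a ha => ?_
    refine continuous_of_uniform_approx_of_continuous fun u hu => ?_
    obtain ⟨ε, hε, hu'⟩ := Metric.mem_uniformity_dist.1 hu
    obtain ⟨b, hb, hab⟩ := Metric.mem_closure_iff.1 ha ε hε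
    refine ⟨_, hb, fun t => hu' ?_⟩
    rw [dist_eq_norm, ← map_sub]
    refine (norm_pullG_le _ _).trans_lt ?_
    rwa [← dist_eq_norm]
  · simp only [map_zero]
    exact continuous_const
  · intro a b ha hb
    simp only [map_add]
    exact ha.add hb
  · intro φ i j
    obtain ⟨C, M, hC, hM, h1, h2⟩ := exists_bound φ
    have hcs : 0 ≤ cs C := Real.sqrt_nonneg _
    rw [continuous_iff_continuousAt]
    intro t₀
    rw [ContinuousAt, Metric.tendsto_nhds]
    intro ε hε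
    have hδ : 0 < ε / (cs C + 1) := by positivity
    filter_upwards [exists_unif_closeG hh φ t₀ hδ] with t ht
    obtain ⟨ψ, hψ⟩ := exists_pullCc (G := G) (isProperMap_slice hh t) φ
    obtain ⟨ψ₀, hψ₀⟩ := exists_pullCc (G := G) (isProperMap_slice hh t₀) φ
    rw [pullG_gen (fun g x => he g x t) hψ, pullG_gen (fun g x => he g x t₀) hψ₀, dist_eq_norm,
      ← Cb.gen_sub]
    refine lt_of_le_of_lt (norm_gen_le (ψ - ψ₀) hC hδ.le (fun p => ?_) (fun b g hg => ?_) i j) ?_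
    · change ‖ψ (p.1, p.2) - ψ₀ (p.1, p.2)‖ ≤ _
      rw [hψ, hψ₀]
      exact ht _ _
    · change ψ (b, g) - ψ₀ (b, g) = 0
      rw [hψ, hψ₀, h2 _ _ hg, h2 _ _ hg, sub_zero]
    · rw [div_mul_eq_mul_div, div_lt_iff₀ (by linarith)]
      nlinarith

/-- HOMOTOPY INVARIANCE. PROOF: `E1_of_path`, `continuous_pullG_homotopy`. -/
theorem homotopy_invarianceG {h : X × Set.Icc (0 : ℝ) 1 → Y} (hh : IsProperMap h)
    (he : ∀ (g : G) x t, h (g • x, t) = g • h (x, t)) {u : (FamG G ℕ Y)ˣ}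
    (hu : u ∈ GL1 (cpG G ℕ Y)) :
    (pullU (fun x => h (x, 0)) u)⁻¹ * pullU (fun x => h (x, 1)) u ∈ E1 (cpG G ℕ X) := by
  have hmem : ∀ t : Set.Icc (0 : ℝ) 1, pullU (fun x => h (x, t)) u ∈ GL1 (cpG G ℕ X) := fun t =>
    GL1_map (pullG_mem (isProperMap_slice hh t) fun g x => he g x t) hu
  have hc : Continuous fun t : Set.Icc (0 : ℝ) 1 =>
      ((pullU (fun x => h (x, t)) u : (FamG G ℕ X)ˣ) : FamG G ℕ X) := by
    have h1 := (continuous_pullG_homotopy hh he _ hu.1).add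
      (continuous_const (y := (1 : FamG G ℕ X)))
    refine h1.congr fun t => ?_
    show (pullG (fun x => h (x, t)) ((u : FamG G ℕ Y) - 1) : FamG G ℕ X) + 1 = _
    rw [map_sub, map_one, sub_add_cancel]
    rfl
  have key := E1_of_path (A := cpG G ℕ X)
    (fun t : ℝ => pullU (fun x => h (x, Set.projIcc (0 : ℝ) 1 zero_le_one t)) u)
    (fun t _ => hmem _) (hc.comp continuous_projIcc).continuousOn
  rw [Set.projIcc_left, Set.projIcc_right] at key
  exact key

/-- The slices of a proper map are proper. -/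
theorem isProperMap_sliceG {T X Y : Type} [TopologicalSpace T] [T1Space T] [TopologicalSpace X]
    [TopologicalSpace Y] {h : X × T → Y} (hh : IsProperMap h) (t : T) :
    IsProperMap fun x => h (x, t) := by
  have h1 : Topology.IsClosedEmbedding (fun x : X => (x, t)) := by
    refine ⟨isEmbedding_prodMkLeft t, ?_⟩
    have h2 : Set.range (fun x : X => (x, t)) = Prod.snd ⁻¹' {t} := by
      ext p
      simp only [Set.mem_range, Set.mem_preimage, Set.mem_singleton_iff]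
      constructor
      · rintro ⟨x, rfl⟩
        rfl
      · intro hp
        exact ⟨p.1, Prod.ext rfl hp.symm⟩
    rw [h2]
    exact isClosed_singleton.preimage continuous_snd
  exact hh.comp h1.isProperMap

/-- PROOF: `cpG_induction`; a generator: `exists_small_near_one` (CutM/H) for
`((p, g), t) ↦ (h (p, t), g)`, `norm_gen_le`. -/
theorem pullG_small_near_one {h : P × Set.Ico (0 : ℝ) 1 → P} (hh : IsProperMap h)
    (he : ∀ (g : G) p t, h (g • p, t) = g • h (p, t)) : ∀ a ∈ cpG G ℕ P, ∀ ε : ℝ, 0 < ε →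
    ∃ t₁ : ℝ, 0 ≤ t₁ ∧ t₁ < 1 ∧ ∀ (t : Set.Ico (0 : ℝ) 1), t₁ < t →
      ‖(pullG (fun p => h (p, t)) a : FamG G ℕ P)‖ ≤ ε := by
  refine cpG_induction (p := fun a => ∀ ε : ℝ, 0 < ε →
    ∃ t₁ : ℝ, 0 ≤ t₁ ∧ t₁ < 1 ∧ ∀ (t : Set.Ico (0 : ℝ) 1), t₁ < t →
      ‖(pullG (fun p => h (p, t)) a : FamG G ℕ P)‖ ≤ ε) ?_ ?_ ?_ ?_
  · refine isClosed_of_closure_subset fun a ha ε hε => ?_
    obtain ⟨b, hb, hab⟩ := Metric.mem_closure_iff.1 ha (ε / 2) (half_pos hε)
    obtain ⟨t₁, h1, h2, h3⟩ := hb (ε / 2) (half_pos hε)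
    refine ⟨t₁, h1, h2, fun t ht => ?_⟩
    have e : (pullG (fun p => h (p, t)) a : FamG G ℕ P) =
        pullG (fun p => h (p, t)) (a - b) + pullG (fun p => h (p, t)) b := by
      rw [← map_add, sub_add_cancel]
    rw [e]
    refine (norm_add_le _ _).trans ?_
    have e1 := h3 t ht
    have e2 := norm_pullG_le (fun p => h (p, t)) (a - b)
    rw [dist_eq_norm] at hab
    linarith
  · intro ε hε
    refine ⟨0, le_rfl, zero_lt_one, fun t _ => ?_⟩
    rw [map_zero, norm_zero]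
    exact hε.le
  · intro a b ha hb ε hε
    obtain ⟨t₁, h1, h2, h3⟩ := ha (ε / 2) (half_pos hε)
    obtain ⟨t₂, h4, h5, h6⟩ := hb (ε / 2) (half_pos hε)
    refine ⟨max t₁ t₂, le_max_of_le_left h1, max_lt h2 h5, fun t ht => ?_⟩
    rw [map_add]
    have e1 := h3 t (lt_of_le_of_lt (le_max_left _ _) ht)
    have e2 := h6 t (lt_of_le_of_lt (le_max_right _ _) ht)
    refine (norm_add_le _ _).trans ?_
    linarith
  · intro φ i j ε hε
    obtain ⟨C, M, hC, hM, h1, h2⟩ := exists_bound φ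
    have hcs : 0 ≤ cs C := Real.sqrt_nonneg _
    have hδ : 0 < ε / (cs C + 1) := by positivity
    have hp : IsProperMap fun z : (P × G) × Set.Ico (0 : ℝ) 1 => (h (z.1.1, z.2), z.1.2) :=
      (hh.prodMap isProperMap_id).comp (swp P G (Set.Ico (0 : ℝ) 1)).isProperMap
    obtain ⟨t₁, h3, h4⟩ := exists_small_near_one hp (toC0 φ) hδ
    refine ⟨max t₁ 0, le_max_right _ _, max_lt h3 zero_lt_one, fun t ht => ?_⟩
    have h5 := h4 t (lt_of_le_of_lt (le_max_left _ _) ht)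
    obtain ⟨ψ, hψ⟩ := exists_pullCc (G := G) (isProperMap_sliceG hh t) φ
    rw [pullG_gen (fun g x => he g x t) hψ]
    refine (norm_gen_le ψ hC hδ.le (fun p => ?_) (fun b g hg => ?_) i j).trans ?_
    · change ‖ψ (p.1, p.2)‖ ≤ _
      rw [hψ]
      exact h5 p
    · rw [hψ, h2 _ _ hg]
    · rw [div_mul_eq_mul_div, div_le_iff₀ (by linarith)]
      nlinarith

/-- CONTRACTIBLE SPACES have `K₁ = 0`. PROOF: as `GL1_le_E1_of_contraction` (CutM/H). -/
theorem vanG_of_contraction {h : P × Set.Ico (0 : ℝ) 1 → P} (hh : IsProperMap h)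
    (he : ∀ (g : G) p t, h (g • p, t) = g • h (p, t)) (h0 : ∀ p, h (p, ⟨0, by simp⟩) = p) :
    VanG G P := by
  intro u hu
  obtain ⟨t₁, ht0, ht1, ht⟩ := pullG_small_near_one hh he _ hu.1 (1 / 2) (by norm_num)
  -- the path `s ↦ s t₂`
  let m : Set.Icc (0 : ℝ) 1 → Set.Ico (0 : ℝ) 1 := fun s => ⟨s.1 * ((t₁ + 1) / 2),
    mul_nonneg s.2.1 (by linarith), by
      have h1 := s.2.1
      have h2 := s.2.2
      nlinarith⟩
  have hm : Continuous m := by
    refine Continuous.subtype_mk ?_ _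
    exact continuous_subtype_val.mul continuous_const
  have hH : IsProperMap fun x : P × Set.Icc (0 : ℝ) 1 => h (x.1, m x.2) :=
    hh.comp (isProperMap_id.prodMap hm.isProperMap)
  have heH : ∀ (g : G) (x : P) (t : Set.Icc (0 : ℝ) 1), h (g • x, m t) = g • h (x, m t) :=
    fun g x t => he g x (m t)
  have h1 := homotopy_invarianceG (h := fun x : P × Set.Icc (0 : ℝ) 1 => h (x.1, m x.2)) hH heH hu
  have hm0 : m 0 = ⟨0, by simp⟩ := Subtype.ext (by simp [m])
  have hid : (fun x : P => h (x, m 0)) = id := by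
    funext x
    rw [hm0, h0]
    rfl
  have h2 : pullU (fun x : P => h (x, m 0)) u = u := by
    rw [hid]
    exact Units.ext (FamG.ext fun y => rfl)
  have h3 : pullU (fun x : P => h (x, m 1)) u ∈ E1 (cpG G ℕ P) := by
    refine mem_E1_of_small (GL1_map (pullG_mem (isProperMap_slice hH 1)
      (fun g z => he g z (m 1))) hu) ?_
    have h4 : ((pullU (fun x : P => h (x, m 1)) u : (FamG G ℕ P)ˣ) : FamG G ℕ P) - 1 =
        pullG (fun x : P => h (x, m 1)) ((u : FamG G ℕ P) - 1) := by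
      rw [map_sub, map_one]
      rfl
    rw [h4]
    refine lt_of_le_of_lt (ht (m 1) ?_) (by norm_num)
    have h5 : ((m 1 : Set.Ico (0 : ℝ) 1) : ℝ) = (t₁ + 1) / 2 := by simp [m]
    rw [h5]
    linarith
  have h6 : u⁻¹ * pullU (fun x : P => h (x, m 1)) u ∈ E1 (cpG G ℕ P) := by
    have h7 : (pullU (fun x : P => h (x, m 0)) u)⁻¹ * pullU (fun x : P => h (x, m 1)) u ∈
        E1 (cpG G ℕ P) := h1
    rwa [h2] at h7
  have h8 := (E1 (cpG G ℕ P)).mul_mem h6 ((E1 (cpG G ℕ P)).inv_mem h3)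
  rw [mul_inv_cancel_right] at h8
  exact (inv_mem_iff (H := E1 (cpG G ℕ P))).1 h8

/-- PROOF: `{τ ∈ (0,1] | δ ≤ τ}` is `[δ, 1]`. -/
theorem isCompact_OC {δ : ℝ} (hδ0 : 0 < δ) : IsCompact {τ : OC | δ ≤ τ.1} := by
  have hind : Topology.IsInducing (fun τ : OC => (τ.1 : ℝ)) := Topology.IsInducing.subtypeVal
  rw [hind.isCompact_iff]
  have : (fun τ : OC => (τ.1 : ℝ)) '' {τ : OC | δ ≤ τ.1} = Set.Icc δ 1 := by
    ext x
    constructor
    · rintro ⟨τ, hτ, rfl⟩
      exact ⟨hτ, τ.2.2⟩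
    · intro hx
      exact ⟨⟨x, lt_of_lt_of_le hδ0 hx.1, hx.2⟩, hx.1, rfl⟩
  rw [this]
  exact isCompact_Icc

/-- Contractibility of half open cylinders. -/
theorem VanG_prod_OC [LocallyCompactSpace P] : VanG G (P × OC) := by
  have hpos : ∀ (τ : OC) (t : Set.Ico (0 : ℝ) 1), (1 - t.1) * τ.1 ∈ Set.Ioc (0 : ℝ) 1 := by
    intro τ t
    have h1 : (0 : ℝ) < τ.1 := τ.2.1
    have h2 : τ.1 ≤ (1 : ℝ) := τ.2.2
    have h3 : (0 : ℝ) ≤ t.1 := t.2.1
    have h4 : t.1 < (1 : ℝ) := t.2.2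
    refine ⟨mul_pos (by linarith) h1, ?_⟩
    nlinarith
  let h : (P × OC) × Set.Ico (0 : ℝ) 1 → P × OC := fun z =>
    (z.1.1, (⟨(1 - z.2.1) * z.1.2.1, hpos z.1.2 z.2⟩ : OC))
  have hcv : Continuous (fun τ : OC => (τ.1 : ℝ)) := continuous_subtype_val
  have hcont : Continuous h := by
    refine Continuous.prodMk (continuous_fst.comp continuous_fst) ?_
    refine Continuous.subtype_mk ?_ _
    exact (continuous_const.sub (continuous_subtype_val.comp continuous_snd)).mul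
      (hcv.comp (continuous_snd.comp continuous_fst))
  refine vanG_of_contraction (h := h) ?_ ?_ ?_
  · rw [isProperMap_iff_isCompact_preimage]
    refine ⟨hcont, fun K hK => ?_⟩
    rcases K.eq_empty_or_nonempty with hKe | hKn
    · rw [hKe, Set.preimage_empty]; exact isCompact_empty
    · obtain ⟨z₀, hz₀, hmin⟩ := hK.exists_isMinOn hKn
        (f := fun z : P × OC => (z.2.1 : ℝ)) (hcv.comp continuous_snd).continuousOn
      set δ : ℝ := z₀.2.1 with hδ
      have hδ0 : 0 < δ := z₀.2.2.1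
      have c1 : IsCompact {τ : OC | δ ≤ τ.1} := isCompact_OC hδ0
      have c2 : IsCompact {t : Set.Ico (0 : ℝ) 1 | t.1 ≤ 1 - δ} := by
        have hind : Topology.IsInducing (fun t : Set.Ico (0 : ℝ) 1 => (t.1 : ℝ)) :=
          Topology.IsInducing.subtypeVal
        rw [hind.isCompact_iff]
        have : (fun t : Set.Ico (0 : ℝ) 1 => (t.1 : ℝ)) '' {t : Set.Ico (0 : ℝ) 1 | t.1 ≤ 1 - δ} =
            Set.Icc 0 (1 - δ) := by
          ext x
          constructor
          · rintro ⟨τ, hτ, rfl⟩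
            exact ⟨τ.2.1, hτ⟩
          · intro hx
            exact ⟨⟨x, hx.1, by linarith [hx.2]⟩, hx.2, rfl⟩
        rw [this]
        exact isCompact_Icc
      refine (((hK.image continuous_fst).prod c1).prod c2).of_isClosed_subset
        (hK.isClosed.preimage hcont) ?_
      rintro ⟨⟨p, τ⟩, t⟩ hz
      have hz1 : h ((p, τ), t) ∈ K := hz
      have hz2 : δ ≤ (1 - t.1) * τ.1 := hmin hz1
      have h1 : (0 : ℝ) < τ.1 := τ.2.1
      have h2 : τ.1 ≤ (1 : ℝ) := τ.2.2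
      have h3 : (0 : ℝ) ≤ t.1 := t.2.1
      have h4 : t.1 < (1 : ℝ) := t.2.2
      refine ⟨⟨⟨_, hz1, rfl⟩, ?_⟩, ?_⟩
      · show δ ≤ τ.1
        nlinarith
      · show t.1 ≤ 1 - δ
        nlinarith
  · rintro g ⟨p, τ⟩ t
    rfl
  · rintro ⟨p, τ⟩
    refine Prod.ext rfl ?_
    apply Subtype.ext
    show (1 - (0 : ℝ)) * τ.1 = τ.1
    ring

/-- The family `(p, t) ↦ t a(p)` over `P × (0,1]`. -/
def tauG (a : FamG G ℕ P) : FamG G ℕ (P × OC) :=
  FamG.mk (fun x => ((x.2.1 : ℝ) : ℂ) • a x.1) ‖a‖ (fun x => by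
    have h1 := x.2.2.1
    have h2 := x.2.2.2
    rw [norm_smul, Complex.norm_real, Real.norm_eq_abs, abs_of_pos h1]
    exact (mul_le_of_le_one_left (norm_nonneg _) h2).trans (a.norm_apply_le x.1))

theorem tauG_apply (a : FamG G ℕ P) (x : P × OC) : tauG a x = ((x.2.1 : ℝ) : ℂ) • a x.1 := rfl

theorem norm_tauG_le (a : FamG G ℕ P) : ‖tauG a‖ ≤ ‖a‖ := by
  refine (FamG.norm_le_iff (norm_nonneg a)).2 fun x => ?_
  have h1 := x.2.2.1
  have h2 := x.2.2.2
  rw [tauG_apply, norm_smul, Complex.norm_real, Real.norm_eq_abs, abs_of_pos h1]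
  exact (mul_le_of_le_one_left (norm_nonneg _) h2).trans (a.norm_apply_le x.1)

theorem tauG_add (a b : FamG G ℕ P) : tauG (a + b) = tauG a + tauG b := by
  refine FamG.ext fun x => ?_
  rw [FamG.add_apply, tauG_apply, tauG_apply, tauG_apply, FamG.add_apply, smul_add]

theorem tauG_zero : tauG (0 : FamG G ℕ P) = 0 := by
  refine FamG.ext fun x => ?_
  rw [tauG_apply, FamG.zero_apply, FamG.zero_apply, smul_zero]

theorem continuous_tauG : Continuous (tauG : FamG G ℕ P → FamG G ℕ (P × OC)) := by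
  let T : FamG G ℕ P →+ FamG G ℕ (P × OC) :=
    { toFun := tauG, map_zero' := tauG_zero, map_add' := tauG_add }
  exact AddMonoidHomClass.continuous_of_bound T 1 fun a => by
    rw [one_mul]
    exact norm_tauG_le a

/-- PROOF: `t φ(p, g)` is approximated by functions of compact support (`exists_Cc_near`). -/
theorem tauG_gen_near (φ : C_c(P × G, ℂ)) (i j : ℕ) {ε : ℝ} (hε : 0 < ε) :
    ∃ ψ : C_c((P × OC) × G, ℂ), ‖tauG (Cb.gen φ i j) - (Cb.gen ψ i j : FamG G ℕ (P × OC))‖ ≤ ε := by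
  obtain ⟨C, M, hC, hM, h1, h2⟩ := exists_bound φ
  have hcs : 0 ≤ cs C := Real.sqrt_nonneg _
  have hδ : 0 < ε / (cs C + 1) := by positivity
  have hcv : Continuous (fun τ : OC => (τ.1 : ℝ)) := continuous_subtype_val
  let f : (P × OC) × G → ℂ := fun q => ((q.1.2.1 : ℝ) : ℂ) * φ (q.1.1, q.2)
  have hf : Continuous f := by
    refine Continuous.mul ?_ ?_
    · exact Complex.continuous_ofReal.comp (hcv.comp (continuous_snd.comp continuous_fst))
    · exact φ.continuous.comp ((continuous_fst.comp continuous_fst).prodMk continuous_snd)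
  have hfM : ∀ q, ‖f q‖ ≤ M := by
    intro q
    have h3 := q.1.2.2.1
    have h4 := q.1.2.2.2
    change ‖((q.1.2.1 : ℝ) : ℂ) * φ (q.1.1, q.2)‖ ≤ M
    rw [norm_mul, Complex.norm_real, Real.norm_eq_abs, abs_of_pos h3]
    exact (mul_le_of_le_one_left (norm_nonneg _) h4).trans (h1 _)
  have hK : ∃ K : Set ((P × OC) × G), IsCompact K ∧ ∀ q ∉ K, ‖f q‖ ≤ ε / (cs C + 1) := by
    have hM1 : 0 < M + 1 := by linarith
    refine ⟨(swp P G OC) '' (tsupport φ ×ˢ {τ : OC | ε / (cs C + 1) / (M + 1) ≤ τ.1}),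
      (φ.hasCompactSupport.isCompact.prod (isCompact_OC (div_pos hδ hM1))).image
        (swp P G OC).continuous, fun q hq => ?_⟩
    have h3 := q.1.2.2.1
    have h5 : ‖f q‖ = q.1.2.1 * ‖φ (q.1.1, q.2)‖ := by
      change ‖((q.1.2.1 : ℝ) : ℂ) * φ (q.1.1, q.2)‖ = _
      rw [norm_mul, Complex.norm_real, Real.norm_eq_abs, abs_of_pos h3]
    rw [h5]
    by_cases hs : (q.1.1, q.2) ∈ tsupport φ
    · have h6 : ¬ ε / (cs C + 1) / (M + 1) ≤ q.1.2.1 := fun h7 =>
        hq ⟨((q.1.1, q.2), q.1.2), ⟨hs, h7⟩, rfl⟩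
      rw [not_le, lt_div_iff₀ hM1] at h6
      have h8 := h1 (q.1.1, q.2)
      have h9 : q.1.2.1 * ‖φ (q.1.1, q.2)‖ ≤ q.1.2.1 * (M + 1) :=
        mul_le_mul_of_nonneg_left (h8.trans (by linarith)) h3.le
      exact h9.trans h6.le
    · rw [image_eq_zero_of_notMem_tsupport hs, norm_zero, mul_zero]
      exact hδ.le
  obtain ⟨ψ, hψ1, hψ2⟩ := exists_Cc_near hf hδ hK
  have hfs : ∀ (b : P × OC) g, g ∉ C → f (b, g) = 0 := fun b g hg => by
    change ((b.2.1 : ℝ) : ℂ) * φ (b.1, g) = 0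
    rw [h2 _ _ hg, mul_zero]
  have k1 : FOK C M fun (b : P × OC) (g : G) => f (b, g) • (Eu i j : BL ℕ) :=
    FOK_smul hf hC hM hfM hfs i j
  have k2 : FOK C (M + ε / (cs C + 1)) fun (b : P × OC) (g : G) => ψ (b, g) • (Eu i j : BL ℕ) := by
    refine FOK_smul (f := fun q => ψ q) ψ.continuous hC (by linarith) (fun q => ?_)
      (fun b g hg => hψ2 _ (hfs b g hg)) i j
    have h3 := norm_sub_norm_le (ψ q) (f q)
    have h4 := hψ1 q
    rw [norm_sub_rev] at h4
    have h5 := hfM q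
    linarith
  have k3 : FOK C (ε / (cs C + 1)) fun (b : P × OC) (g : G) =>
      (f (b, g) - ψ (b, g)) • (Eu i j : BL ℕ) := by
    refine FOK_smul (f := fun q => f q - ψ q) (hf.sub ψ.continuous) hC hδ.le hψ1
      (fun b g hg => ?_) i j
    rw [hψ2 _ (hfs b g hg), hfs b g hg, sub_zero]
  refine ⟨ψ, (FamG.norm_le_iff hε.le).2 fun x => ?_⟩
  have e1 : tauG (Cb.gen φ i j : FamG G ℕ P) x =
      opF (fun (b : P × OC) (g : G) => f (b, g) • (Eu i j : BL ℕ)) x := by
    rw [tauG_apply, Cb.gen_apply, ← opF_smul (FOK_smul (f := ⇑φ) φ.continuous hC hM h1 h2 i j)]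
    simp only [opF]
    congr 1
    funext a a'
    simp only [kat]
    change ((x.2.1 : ℝ) : ℂ) • (φ (a⁻¹ • x.1, a⁻¹ * a') • (Eu i j : BL ℕ)) =
      (((x.2.1 : ℝ) : ℂ) * φ (a⁻¹ • x.1, a⁻¹ * a')) • (Eu i j : BL ℕ)
    rw [smul_smul]
  have e2 : (tauG (Cb.gen φ i j : FamG G ℕ P) - (Cb.gen ψ i j : FamG G ℕ (P × OC))) x =
      opF (fun (b : P × OC) (g : G) => (f (b, g) - ψ (b, g)) • (Eu i j : BL ℕ)) x := by
    rw [FamG.sub_apply, e1, Cb.gen_apply, ← opF_sub k1 k2]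
    congr 1
    funext b g
    exact (sub_smul _ _ _).symm
  rw [e2]
  refine (norm_opF_le k3 x).trans ?_
  rw [div_mul_eq_mul_div, div_le_iff₀ (by linarith)]
  nlinarith

theorem tauG_mem : ∀ a ∈ cpG G ℕ P, tauG a ∈ cpG G ℕ (P × OC) := by
  refine cpG_induction (p := fun a => tauG a ∈ cpG G ℕ (P × OC)) ?_ ?_ ?_ ?_
  · exact isClosed_cpG.preimage continuous_tauG
  · rw [tauG_zero]
    exact zero_mem _
  · intro a b ha hb
    rw [tauG_add]
    exact add_mem ha hb
  · intro φ i j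
    rw [← SetLike.mem_coe, ← isClosed_cpG.closure_eq, Metric.mem_closure_iff]
    intro ε hε
    obtain ⟨ψ, hψ⟩ := tauG_gen_near φ i j (half_pos hε)
    exact ⟨_, gen_mem ψ i j, by
      rw [dist_eq_norm]
      exact hψ.trans_lt (half_lt_self hε)⟩

/-- The unit `1 + t a`. -/
theorem exists_unit_tauG {a : FamG G ℕ P} (ha : a ∈ cpG G ℕ P) (h : ‖a‖ < 1) :
    ∃ ρ ∈ GL1 (cpG G ℕ (P × OC)), (ρ : FamG G ℕ (P × OC)) = 1 + tauG a :=
  exists_unit_one_add isClosed_cpG (tauG_mem _ ha) ((norm_tauG_le a).trans_lt h)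

/-- A path of units. -/
theorem exists_path_unitG {v : (FamG G ℕ P)ˣ} (hv : v ∈ E1 (cpG G ℕ P)) :
    ∃ ρ ∈ GL1 (cpG G ℕ (P × OC)), pullU (fun p : P => (p, OC.one)) ρ = v := by
  have hle : E1 (cpG G ℕ P) ≤ (GL1 (cpG G ℕ (P × OC))).map
      (pullU (G := G) (J := ℕ) (fun p : P => (p, OC.one))) := by
    refine (Subgroup.closure_le _).2 ?_
    rintro w ⟨hw, hw1⟩
    obtain ⟨ρ, hρ, hρ2⟩ := exists_unit_tauG hw.1 hw1
    refine ⟨ρ, hρ, Units.ext (FamG.ext fun x => ?_)⟩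
    have e : ((pullU (fun p : P => (p, OC.one)) ρ : (FamG G ℕ P)ˣ) : FamG G ℕ P) x =
        (ρ : FamG G ℕ (P × OC)) (x, OC.one) := rfl
    have e2 : (1 + tauG ((w : FamG G ℕ P) - 1) : FamG G ℕ (P × OC)) (x, OC.one) =
        1 + ((1 : ℝ) : ℂ) • ((w : FamG G ℕ P) x - 1) := rfl
    rw [e, hρ2, e2, Complex.ofReal_one, one_smul, add_sub_cancel]
  obtain ⟨ρ, hρ, h⟩ := hle hv
  exact ⟨ρ, hρ, h⟩

end Hom

end Pool.Agent.Lib.MP_aa9b81_an.Tv
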