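import Pool.Agent.Lib.MP_aa9b81_an.Tv.Lcd

/-!
# Transversals, part T0: charts of a group at `1`
-/

open scoped Topology Manifold
open Filter MeasureTheory

noncomputable section

set_option linter.unusedSectionVars false

namespace Pool.Agent.Lib.MP_aa9b81_an.Tv

/-- A chart of the topological group `G` at `1` with values in `F`, in which the multiplication is
Lipschitz in the first factor and strictly differentiable in the second factor, near `(1, 1)`. -/
structure C1Chart {G F : Type} [Group G] [TopologicalSpace G] [NormedAddCommGroup F]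
    (χ : OpenPartialHomeomorph G F) : Prop where
  one_mem : (1 : G) ∈ χ.source
  lip : ∃ C : ℝ, 0 ≤ C ∧ ∃ N ∈ 𝓝 (1 : G), ∀ k ∈ N, ∀ g ∈ N, ∀ g' ∈ N,
    ‖χ (g * k) - χ (g' * k)‖ ≤ C * ‖χ g - χ g'‖
  str : ∀ ε : ℝ, 0 < ε → ∃ N ∈ 𝓝 (1 : G), ∀ k ∈ N, ∀ g ∈ N, ∀ g' ∈ N,
    ‖(χ (k * g) - χ (k * g')) - (χ g - χ g')‖ ≤ ε * ‖χ g - χ g'‖

end Pool.Agent.Lib.MP_aa9b81_an.Tv
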