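import Pool.Agent.Lib.MP_aa9b81_an.Tv.T0

/-!
# Transversals, part T1: the chart of a Lie group
-/

open scoped Topology Manifold ContDiff
open Filter MeasureTheory

noncomputable section

set_option linter.unusedSectionVars false

namespace Pool.Agent.Lib.MP_aa9b81_an.Tv

theorem T1_contDiffAt {G F : Type} [Group G] [TopologicalSpace G] [NormedAddCommGroup F]
    [NormedSpace ℝ F] [FiniteDimensional ℝ F] [ChartedSpace F G] (n : WithTop ℕ∞)
    [LieGroup 𝓘(ℝ, F) n G] : ContDiffAt ℝ n (fun p : F × F =>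
      chartAt F (1 : G) ((chartAt F (1 : G)).symm p.1 * (chartAt F (1 : G)).symm p.2))
      (chartAt F (1 : G) 1, chartAt F (1 : G) 1) := by
  have hs : ContMDiffAt 𝓘(ℝ, F) 𝓘(ℝ, F) n (chartAt F (1 : G)).symm (chartAt F (1 : G) 1) :=
    (contMDiffOn_chart_symm (I := 𝓘(ℝ, F)) (n := n) (x := (1 : G))).contMDiffAt
      ((chartAt F (1 : G)).open_target.mem_nhds
        ((chartAt F (1 : G)).map_source (mem_chart_source F (1 : G))))
  have h1 : (chartAt F (1 : G)).symm (chartAt F (1 : G) 1) = 1 :=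
    (chartAt F (1 : G)).left_inv (mem_chart_source F (1 : G))
  have hc : ContMDiffAt 𝓘(ℝ, F) 𝓘(ℝ, F) n (chartAt F (1 : G)) (1 : G) :=
    (contMDiffOn_chart (I := 𝓘(ℝ, F)) (n := n) (x := (1 : G))).contMDiffAt
      (chart_source_mem_nhds F (1 : G))
  have h2 : ContMDiffAt (𝓘(ℝ, F).prod 𝓘(ℝ, F)) 𝓘(ℝ, F) n
      (fun p : F × F => (chartAt F (1 : G)).symm p.1 * (chartAt F (1 : G)).symm p.2)
      (chartAt F (1 : G) 1, chartAt F (1 : G) 1) := by
    refine ContMDiffAt.mul ?_ ?_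
    · exact ContMDiffAt.comp (chartAt F (1 : G) 1, chartAt F (1 : G) 1) hs contMDiffAt_fst
    · exact ContMDiffAt.comp (chartAt F (1 : G) 1, chartAt F (1 : G) 1) hs contMDiffAt_snd
  have h3 : ContMDiffAt (𝓘(ℝ, F).prod 𝓘(ℝ, F)) 𝓘(ℝ, F) n
      (fun p : F × F => chartAt F (1 : G)
        ((chartAt F (1 : G)).symm p.1 * (chartAt F (1 : G)).symm p.2))
      (chartAt F (1 : G) 1, chartAt F (1 : G) 1) := by
    have e : (chartAt F (1 : G)).symm (chartAt F (1 : G) 1) *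
        (chartAt F (1 : G)).symm (chartAt F (1 : G) 1) = 1 := by rw [h1, mul_one]
    have hc' : ContMDiffAt 𝓘(ℝ, F) 𝓘(ℝ, F) n (chartAt F (1 : G))
        ((chartAt F (1 : G)).symm (chartAt F (1 : G) 1) *
          (chartAt F (1 : G)).symm (chartAt F (1 : G) 1)) := by rw [e]; exact hc
    exact ContMDiffAt.comp (chartAt F (1 : G) 1, chartAt F (1 : G) 1) hc' h2
  rw [← modelWithCornersSelf_prod, chartedSpaceSelf_prod] at h3
  exact contMDiffAt_iff_contDiffAt.1 h3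

/-- The chart of a Lie group at `1`. -/
theorem exists_c1Chart {G F : Type} [Group G] [TopologicalSpace G] [NormedAddCommGroup F]
    [NormedSpace ℝ F] [FiniteDimensional ℝ F] [ChartedSpace F G] (n : WithTop ℕ∞) (hn : 1 ≤ n)
    [LieGroup 𝓘(ℝ, F) n G] : ∃ χ : OpenPartialHomeomorph G F, C1Chart χ := by
  have hG : IsTopologicalGroup G := topologicalGroup_of_lieGroup 𝓘(ℝ, F) n
  have hn0 : n ≠ 0 := by
    rintro rfl
    exact absurd hn (by simp)
  set χ : OpenPartialHomeomorph G F := chartAt F (1 : G) with hχ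
  have h1 : (1 : G) ∈ χ.source := mem_chart_source F (1 : G)
  set a₀ : F := χ 1 with ha₀
  have ha : a₀ ∈ χ.target := χ.map_source h1
  have hsa : χ.symm a₀ = 1 := χ.left_inv h1
  have hstr := (T1_contDiffAt (G := G) (F := F) n).hasStrictFDerivAt hn0
  rw [← hχ, ← ha₀] at hstr
  set m : F × F → F := fun p => χ (χ.symm p.1 * χ.symm p.2) with hm
  set L : F × F →L[ℝ] F := fderiv ℝ m (a₀, a₀) with hL
  -- the value of `m` at the points of the chart
  have hmv : ∀ g ∈ χ.source, ∀ k ∈ χ.source, m (χ g, χ k) = χ (g * k) := by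
    intro g hg k hk
    show χ (χ.symm (χ g) * χ.symm (χ k)) = _
    rw [χ.left_inv hg, χ.left_inv hk]
  -- the derivative in the direction of the second factor
  have hLv : ∀ v : F, L (0, v) = v := by
    have hd1 : HasFDerivAt (fun b : F => m (a₀, b)) (L.comp (ContinuousLinearMap.inr ℝ F F)) a₀ := by
      have h2 : HasFDerivAt (fun b : F => ((a₀, b) : F × F)) (ContinuousLinearMap.inr ℝ F F) a₀ :=
        hasFDerivAt_prodMk_right a₀ a₀
      exact HasFDerivAt.comp a₀ hstr.hasFDerivAt h2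
    have hd2 : HasFDerivAt (fun b : F => m (a₀, b)) (ContinuousLinearMap.id ℝ F) a₀ := by
      refine (hasFDerivAt_id a₀).congr_of_eventuallyEq ?_
      filter_upwards [χ.open_target.mem_nhds ha] with b hb
      show χ (χ.symm a₀ * χ.symm b) = b
      rw [hsa, one_mul, χ.right_inv hb]
    have he := hd1.unique hd2
    intro v
    have := congrArg (fun T : F →L[ℝ] F => T v) he
    simpa using this
  have hcont : ContinuousAt χ (1 : G) := χ.continuousAt h1
  have hsrc : χ.source ∈ 𝓝 (1 : G) := χ.open_source.mem_nhds h1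
  refine ⟨χ, h1, ?_, ?_⟩
  · obtain ⟨K, s, hs, hK⟩ := hstr.exists_lipschitzOnWith
    rw [nhds_prod_eq, mem_prod_iff] at hs
    obtain ⟨U, hU, V, hV, hUV⟩ := hs
    refine ⟨K, K.2, χ.source ∩ (χ ⁻¹' U ∩ χ ⁻¹' V),
      inter_mem hsrc (inter_mem (hcont hU) (hcont hV)), ?_⟩
    intro k hk g hg g' hg'
    have h3 := hK.dist_le_mul (χ g, χ k) (hUV ⟨hg.2.1, hk.2.2⟩) (χ g', χ k)
      (hUV ⟨hg'.2.1, hk.2.2⟩)
    rw [hmv g hg.1 k hk.1, hmv g' hg'.1 k hk.1, dist_eq_norm, dist_eq_norm] at h3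
    have h4 : ‖((χ g, χ k) : F × F) - (χ g', χ k)‖ = ‖χ g - χ g'‖ := by
      rw [Prod.mk_sub_mk, sub_self, Prod.norm_mk, norm_zero, max_eq_left (norm_nonneg _)]
    rw [h4] at h3
    exact h3
  · intro ε hε
    have ho := (hasStrictFDerivAt_iff_isLittleO.1 hstr).def hε
    rw [nhds_prod_eq, nhds_prod_eq] at ho
    have ho' := ho
    rw [Filter.eventually_iff, mem_prod_iff] at ho'
    obtain ⟨W, hW, W', hW', hWW⟩ := ho'
    rw [mem_prod_iff] at hW hW'
    obtain ⟨U, hU, V, hV, hUV⟩ := hW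
    obtain ⟨U', hU', V', hV', hUV'⟩ := hW'
    refine ⟨χ.source ∩ (χ ⁻¹' (U ∩ V) ∩ χ ⁻¹' (U' ∩ V')),
      inter_mem hsrc (inter_mem (hcont (inter_mem hU hV)) (hcont (inter_mem hU' hV'))), ?_⟩
    intro k hk g hg g' hg'
    have h3 := hWW (show (((χ k, χ g), (χ k, χ g')) : (F × F) × (F × F)) ∈ W ×ˢ W' from
      ⟨hUV ⟨hk.2.1.1, hg.2.1.2⟩, hUV' ⟨hk.2.2.1, hg'.2.2.2⟩⟩)
    have h4 : ((χ k, χ g) : F × F) - (χ k, χ g') = (0, χ g - χ g') := by
      rw [Prod.mk_sub_mk, sub_self]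
    have h5 : ‖m (χ k, χ g) - m (χ k, χ g') - L ((χ k, χ g) - (χ k, χ g'))‖ ≤
        ε * ‖((χ k, χ g) : F × F) - (χ k, χ g')‖ := h3
    rw [h4, hLv, hmv k hk.1 g hg.1, hmv k hk.1 g' hg'.1, Prod.norm_mk, norm_zero,
      max_eq_right (norm_nonneg _)] at h5
    exact h5

end Pool.Agent.Lib.MP_aa9b81_an.Tv
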