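import Pool.Agent.Lib.MP_aa9b81_an.Tv.T0

/-!
# Transversals, part T2: a Lipschitz bump function
-/

open scoped Topology
open Filter MeasureTheory

noncomputable section

set_option linter.unusedSectionVars false

namespace Pool.Agent.Lib.MP_aa9b81_an.Tv

variable {G F : Type} [Group G] [TopologicalSpace G] [IsTopologicalGroup G]
  [LocallyCompactSpace G] [T2Space G] [MeasurableSpace G] [BorelSpace G]
  [NormedAddCommGroup F] [NormedSpace ℝ F] [FiniteDimensional ℝ F]
  {χ : OpenPartialHomeomorph G F}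

/-- PROOF: `w k = max 0 (r - ‖χ k - χ 1‖)` for `k ∈ χ.source`, and `0` otherwise, for a small `r > 0`: the set of
the `k ∈ χ.source` with `‖χ k - χ 1‖ ≤ r` is the image of a closed ball of `F` contained in the target, so it
is compact, it is contained in `N` and in the interior of the neighbourhood of `lip`; `w` is continuous (zero
outside this compact set, and continuous on the open set `χ.source`). `u = w / ∫ w` (`∫ w > 0`: `w` is
continuous, `w ≥ 0` and `w 1 > 0`). Let `S` be a compact neighbourhood of `1` in the neighbourhood of `lip`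
(and in `χ.source`), `B` so small that `B⁻¹ K ⊆ S`, `B S ⊆ χ.source`: for `g, g' ∈ B` the function
`k ↦ u (g k) - u (g' k)` is `0` outside `S`, and at most `c C ‖χ g - χ g'‖` on `S`
(`|max 0 s - max 0 t| ≤ |s - t|`, `abs_norm_sub_norm_le`); `setIntegral` bound, `μ S < ∞`. -/
theorem exists_bumpG (hχ : C1Chart χ) {N : Set G} (hN : N ∈ 𝓝 (1 : G)) :
    ∃ u : G → ℝ, Continuous u ∧ (∀ k, 0 ≤ u k) ∧
      (∃ K : Set G, IsCompact K ∧ K ⊆ N ∧ ∀ k ∉ K, u k = 0) ∧
      ∫ k, u k ∂(Measure.haar : Measure G) = 1 ∧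
      ∃ C : ℝ, 0 ≤ C ∧ ∃ B ∈ 𝓝 (1 : G), ∀ g ∈ B, ∀ g' ∈ B,
        ∫ k, |u (g * k) - u (g' * k)| ∂(Measure.haar : Measure G) ≤ C * ‖χ g - χ g'‖ := by
  obtain ⟨C, hC, N₀, hN₀, hlip⟩ := hχ.lip
  obtain ⟨S, hS, hSs, hSc⟩ := local_compact_nhds (inter_mem hN₀ (χ.open_source.mem_nhds hχ.one_mem))
  -- the closed ball
  have h1t : χ 1 ∈ χ.target := χ.map_source hχ.one_mem
  have hpre : χ.target ∩ χ.symm ⁻¹' (N ∩ interior S) ∈ 𝓝 (χ 1) := by
    refine inter_mem (χ.open_target.mem_nhds h1t) ?_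
    refine (χ.continuousAt_symm h1t).preimage_mem_nhds ?_
    rw [χ.left_inv hχ.one_mem]
    exact inter_mem hN (interior_mem_nhds.2 hS)
  obtain ⟨r, hr, hrb⟩ := Metric.nhds_basis_closedBall.mem_iff.1 hpre
  set K : Set G := χ.symm '' Metric.closedBall (χ 1) r with hKdef
  have hKc : IsCompact K := by
    refine (isCompact_closedBall (χ 1) r).image_of_continuousOn ?_
    exact χ.continuousOn_symm.mono fun a ha => (hrb ha).1
  have hKN : K ⊆ N := by
    rintro _ ⟨a, ha, rfl⟩
    exact (hrb ha).2.1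
  have hKS : K ⊆ interior S := by
    rintro _ ⟨a, ha, rfl⟩
    exact (hrb ha).2.2
  have hKmem : ∀ k ∈ χ.source, ‖χ k - χ 1‖ ≤ r → k ∈ K := by
    intro k hk hkr
    exact ⟨χ k, by rwa [mem_closedBall_iff_norm], χ.left_inv hk⟩
  classical
  set w : G → ℝ := fun k => if k ∈ χ.source then max 0 (r - ‖χ k - χ 1‖) else 0 with hwdef
  have hws : ∀ k ∈ χ.source, w k = max 0 (r - ‖χ k - χ 1‖) := fun k hk => by simp [hwdef, hk]
  have hw0 : ∀ k, 0 ≤ w k := by
    intro k
    by_cases hk : k ∈ χ.source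
    · rw [hws k hk]
      exact le_max_left _ _
    · simp [hwdef, hk]
  have hwK : ∀ k ∉ K, w k = 0 := by
    intro k hk
    by_cases hks : k ∈ χ.source
    · rw [hws k hks]
      have : r < ‖χ k - χ 1‖ := not_le.1 fun h => hk (hKmem k hks h)
      exact max_eq_left (by linarith)
    · simp [hwdef, hks]
  have hwc : Continuous w := by
    rw [continuous_iff_continuousAt]
    intro k
    by_cases hks : k ∈ χ.source
    · have h1 : ContinuousAt (fun k => max 0 (r - ‖χ k - χ 1‖)) k :=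
        continuousAt_const.max (continuousAt_const.sub ((χ.continuousAt hks).sub
          continuousAt_const).norm)
      refine h1.congr ?_
      filter_upwards [χ.open_source.mem_nhds hks] with k' hk'
      exact (hws k' hk').symm
    · have hkK : k ∉ K := by
        intro hk
        exact hks (hSs (interior_subset (hKS hk))).2
      have h1 : ContinuousAt (fun _ : G => (0 : ℝ)) k := continuousAt_const
      refine h1.congr ?_
      filter_upwards [hKc.isClosed.isOpen_compl.mem_nhds hkK] with k' hk'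
      exact (hwK k' hk').symm
  have hwcs : HasCompactSupport w := HasCompactSupport.intro hKc hwK
  have hw1 : w 1 ≠ 0 := by
    rw [hws 1 hχ.one_mem]
    simp only [sub_self, norm_zero, sub_zero]
    rw [max_eq_right hr.le]
    exact hr.ne'
  have hI : 0 < ∫ k, w k ∂(Measure.haar : Measure G) :=
    hwc.integral_pos_of_hasCompactSupport_nonneg_nonzero hwcs hw0 hw1
  set I : ℝ := ∫ k, w k ∂(Measure.haar : Measure G) with hIdef
  have hcomp : ∀ᶠ g : G in 𝓝 1, ∀ k ∈ K, g⁻¹ * k ∈ interior S := by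
    refine hKc.eventually_forall_of_forall_eventually fun k hk => ?_
    have hc : Continuous (fun z : G × G => z.1⁻¹ * z.2) := by fun_prop
    refine (hc.tendsto (1, k)).eventually_mem (isOpen_interior.mem_nhds ?_)
    simpa using hKS hk
  have hsrc : ∀ᶠ g : G in 𝓝 1, ∀ k ∈ S, g * k ∈ χ.source := by
    refine hSc.eventually_forall_of_forall_eventually fun k hk => ?_
    have hc : Continuous (fun z : G × G => z.1 * z.2) := by fun_prop
    refine (hc.tendsto (1, k)).eventually_mem (χ.open_source.mem_nhds ?_)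
    simpa using (hSs hk).2
  refine ⟨fun k => I⁻¹ * w k, by fun_prop, fun k => mul_nonneg (inv_nonneg.2 hI.le) (hw0 k),
    ⟨K, hKc, hKN, fun k hk => by simp [hwK k hk]⟩, ?_,
    I⁻¹ * C * (Measure.haar : Measure G).real S, by positivity,
    _, inter_mem hN₀ (inter_mem hcomp hsrc), ?_⟩
  · rw [integral_const_mul, ← hIdef]
    exact inv_mul_cancel₀ hI.ne'
  intro g hg g' hg'
  have hz : ∀ g ∈ N₀ ∩ ({g : G | ∀ k ∈ K, g⁻¹ * k ∈ interior S} ∩
      {g : G | ∀ k ∈ S, g * k ∈ χ.source}), ∀ k ∉ S, w (g * k) = 0 := by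
    intro g hg k hk
    refine hwK _ fun hgk => hk ?_
    have := hg.2.1 (g * k) hgk
    rw [inv_mul_cancel_left] at this
    exact interior_subset this
  have hpt : ∀ k ∈ S, ‖|I⁻¹ * w (g * k) - I⁻¹ * w (g' * k)|‖ ≤
      I⁻¹ * C * ‖χ g - χ g'‖ := by
    intro k hk
    rw [Real.norm_eq_abs, abs_abs, ← mul_sub, abs_mul, abs_of_nonneg (inv_nonneg.2 hI.le),
      mul_assoc]
    refine mul_le_mul_of_nonneg_left ?_ (inv_nonneg.2 hI.le)
    rw [hws _ (hg.2.2 k hk), hws _ (hg'.2.2 k hk)]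
    have e1 : |max 0 (r - ‖χ (g * k) - χ 1‖) - max 0 (r - ‖χ (g' * k) - χ 1‖)| ≤
        |(r - ‖χ (g * k) - χ 1‖) - (r - ‖χ (g' * k) - χ 1‖)| := by
      have := abs_max_sub_max_le_abs (r - ‖χ (g * k) - χ 1‖) (r - ‖χ (g' * k) - χ 1‖) 0
      rwa [max_comm 0, max_comm 0]
    refine e1.trans ?_
    have e2 : (r - ‖χ (g * k) - χ 1‖) - (r - ‖χ (g' * k) - χ 1‖) =
        ‖χ (g' * k) - χ 1‖ - ‖χ (g * k) - χ 1‖ := by ring
    rw [e2]
    refine (abs_norm_sub_norm_le _ _).trans ?_
    rw [sub_sub_sub_cancel_right, norm_sub_rev]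
    exact hlip k (hSs hk).1 g hg.1 g' hg'.1
  have hset : ∫ k, |I⁻¹ * w (g * k) - I⁻¹ * w (g' * k)| ∂(Measure.haar : Measure G) =
      ∫ k in S, |I⁻¹ * w (g * k) - I⁻¹ * w (g' * k)| ∂(Measure.haar : Measure G) := by
    refine (setIntegral_eq_integral_of_forall_compl_eq_zero fun k hk => ?_).symm
    rw [hz g hg k hk, hz g' hg' k hk]
    simp
  show ∫ k, |I⁻¹ * w (g * k) - I⁻¹ * w (g' * k)| ∂(Measure.haar : Measure G) ≤ _
  rw [hset]
  have hb := norm_setIntegral_le_of_norm_le_const (μ := (Measure.haar : Measure G))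
    hSc.measure_lt_top hpt
  refine (le_trans (le_abs_self _) hb).trans (le_of_eq ?_)
  ring

end Pool.Agent.Lib.MP_aa9b81_an.Tv
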