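import Pool.Agent.Lib.MP_aa9b81_an.Mg.G042

/-!
# Transversals, part X1: a unit which is trivial over two closed subsets, and continuity
-/

open scoped ENNReal Topology CompactlySupported
open Function Filter MeasureTheory

noncomputable section

set_option linter.unusedSectionVars false

namespace Pool.Agent.Lib.MP_aa9b81_an.Tv

open Cut Hs Cb

section Core

variable {G C P O : Type} [Group G] [TopologicalSpace G] [IsTopologicalGroup G]
  [LocallyCompactSpace G] [SecondCountableTopology G] [T2Space G] [MeasurableSpace G] [BorelSpace G]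
  [TopologicalSpace C] [T2Space C] [MulAction G C] [ContinuousSMul G C]
  [TopologicalSpace P] [T2Space P] [LocallyCompactSpace P] [MulAction G P] [ContinuousSMul G P]
  [TopologicalSpace O] [T2Space O] [MulAction G O] [ContinuousSMul G O] {c : C → P} {o : O ↪ P}

/-- If `K₁(C × (0,1)) = 0`, then `K₁(O) → K₁(P)` is injective. -/
theorem mem_E1_of_ext (hA : PropAG G) (h : ClOp G c o) (h0 : VanG G (C × OO))
    {v : (FamG G ℕ O)ˣ} (hw1 : extUnit (extG o) v ∈ E1 (cpG G ℕ P)) : v ∈ E1 (cpG G ℕ O) := by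
  have : LocallyCompactSpace O := h.ho.locallyCompactSpace
  have hno : ∀ x, c x ∉ Set.range o := fun x => by
    rw [h.compl]
    exact fun h => h ⟨_, rfl⟩
  obtain ⟨ρ, hρ, hρ1⟩ := exists_path_unitG hw1
  have hρ1' : pullU (oneP P) ρ = extUnit (extG o) v := hρ1
  -- the restriction of the path to `C`
  have hOC := h.prodMap (G := G) OC
  have hl : pullU (Prod.map c (id : OC → OC)) ρ ∈ GL1 (cpG G ℕ (C × OC)) :=
    pullU_GL1 hOC.hc.isProperMap hOC.ec hρ
  have hl1 : pullU (oneP C) (pullU (Prod.map c (id : OC → OC)) ρ) = 1 := by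
    have h1 : pullU (oneP C) (pullU (Prod.map c (id : OC → OC)) ρ) = pullU c (pullU (oneP P) ρ) :=
      Units.ext (FamG.ext fun y => rfl)
    rw [h1, hρ1', pullU_extU_one hno]
  have : LocallyCompactSpace C := h.hc.locallyCompactSpace
  obtain ⟨l, hl2, hl3⟩ := (exactSeq_closedG hA (clOp_OC (G := G) (P := C))).exists_ext hl hl1
  -- the lift of `l`
  obtain ⟨w, hw, hwl⟩ : ∃ w ∈ GL1 (cpG G ℕ (P × OO)), pullU (Prod.map c (id : OO → OO)) w = l := by
    obtain ⟨e, he, he2⟩ := E1_lift isClosed_cpG isClosed_cpG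
      (exactSeq_closedG hA (h.prodMap OO)).lift (h0 hl2)
    exact ⟨e, E1_le _ he, he2⟩
  -- the corrected path
  have hcl := clOp_OC (G := G) (P := P)
  have hσ : ρ * (extUnit (extG (embO P)) w)⁻¹ ∈ GL1 (cpG G ℕ (P × OC)) :=
    mul_mem hρ (inv_mem (extUnit_mem_GL1 (extG_mem hcl.ho hcl.eo) hw))
  have hσ1 : pullU (Prod.map c (id : OC → OC)) (ρ * (extUnit (extG (embO P)) w)⁻¹) = 1 := by
    rw [map_mul, map_inv, pullU_extU (q₀ := Prod.map c (id : OO → OO)) (ι' := embO C)
      (fun _ => rfl) embO_range_map, hwl, hl3, mul_inv_cancel]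
  obtain ⟨σ, hσ2, hσ3⟩ := (exactSeq_closedG hA hOC).exists_ext hσ hσ1
  have hσ4 : pullU (oneP O) σ ∈ E1 (cpG G ℕ O) :=
    pullU_E1 (clOp_OC (G := G) (P := O)).hc.isProperMap (fun _ _ => rfl)
      (VanG_prod_OC (G := G) (P := O) hσ2)
  have hσ5 : extUnit (extG o) (pullU (oneP O) σ) = extUnit (extG o) v := by
    have h1 := congrArg (Cb.pullU (G := G) (J := ℕ) (oneP P)) hσ3
    rw [map_mul, map_inv, hρ1', pullU_extU_one oneP_notMem, inv_one, mul_one] at h1
    rw [← h1]
    refine (pullU_extU (q₀ := oneP O) (ι' := o) (fun _ => rfl) ?_ σ).symm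
    rintro x ⟨z, hz⟩
    exact ⟨z.1, congrArg Prod.fst hz⟩
  rwa [extU_injective o hσ5] at hσ4

/-- If `K₁` is zero for a closed invariant subset and for its complement, then it is zero. -/
theorem VanG.of_clOp (hA : PropAG G) (h : ClOp G c o) (hc : VanG G C) (ho : VanG G O) :
    VanG G P := by
  intro u hu
  exact injG_of_van hA h ho u hu (hc (pullU_GL1 h.hc.isProperMap h.ec hu))

end Core

section Glue

variable {G P : Type} [Group G] [TopologicalSpace G] [IsTopologicalGroup G]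
  [LocallyCompactSpace G] [SecondCountableTopology G] [T2Space G] [MeasurableSpace G] [BorelSpace G]
  [TopologicalSpace P] [T2Space P] [LocallyCompactSpace P] [MulAction G P] [ContinuousSMul G P]

/-- GLUING: a unit which is trivial in `K₁` over two closed subsets which cover `P` is trivial, if
`K₁(S × (0,1)) = 0` for their intersection `S`. -/
theorem mem_E1_of_glue (hA : PropAG G) {C₁ C₂ S : InvSet G P} (h₁ : IsClosed C₁.carrier)
    (h₂ : IsClosed C₂.carrier) (hun : C₁.carrier ∪ C₂.carrier = Set.univ)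
    (hS : S.carrier = C₁.carrier ∩ C₂.carrier) (h0 : VanG G (S.Pt × OO))
    {u : (FamG G ℕ P)ˣ} (hu : u ∈ GL1 (cpG G ℕ P)) (hu₁ : pullU C₁.val u ∈ E1 (cpG G ℕ C₁.Pt))
    (hu₂ : pullU C₂.val u ∈ E1 (cpG G ℕ C₂.Pt)) : u ∈ E1 (cpG G ℕ P) := by
  have hcl := clOp_invSet (G := G) h₁
  obtain ⟨e, he, he2⟩ := E1_lift isClosed_cpG isClosed_cpG (exactSeq_closedG hA hcl).lift hu₁
  have he2' : pullU C₁.val e = pullU C₁.val u := he2
  have hx : u * e⁻¹ ∈ GL1 (cpG G ℕ P) := mul_mem hu (inv_mem (E1_le _ he))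
  have hx1 : pullU C₁.val (u * e⁻¹) = 1 := by
    rw [map_mul, map_inv, he2', mul_inv_cancel]
  obtain ⟨v, hv, hvx⟩ := (exactSeq_closedG hA hcl).exists_ext hx hx1
  -- the complement of `C₁` in `C₂`
  have hsub : C₁.cpl.carrier ⊆ C₂.carrier := by
    intro x hx
    have h3 : x ∈ C₁.carrier ∪ C₂.carrier := by
      rw [hun]
      exact Set.mem_univ x
    exact h3.resolve_left hx
  have hSsub : S.carrier ⊆ C₂.carrier := by
    rw [hS]
    exact Set.inter_subset_right
  have : LocallyCompactSpace C₂.Pt := (IsClosed.isClosedEmbedding_subtypeVal h₂).locallyCompactSpace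
  let o' : C₁.cpl.Pt ↪ C₂.Pt := ⟨InvSet.incl hsub, fun x y h =>
    Subtype.ext (congrArg (fun z : C₂.Pt => C₂.val z) h)⟩
  have hcl2 : ClOp G (InvSet.incl hSsub) o' := by
    refine ⟨⟨InvSet.BA2_isEmbedding hSsub, ?_⟩, fun _ _ => rfl,
      ⟨InvSet.BA2_isEmbedding hsub, ?_⟩, fun _ _ => rfl, ?_⟩
    · rw [InvSet.BA2_range, hS, Set.preimage_inter]
      exact (h₁.preimage C₂.continuous_val).inter (h₂.preimage C₂.continuous_val)
    · rw [show Set.range o' = _ from InvSet.BA2_range hsub]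
      exact h₁.isOpen_compl.preimage C₂.continuous_val
    · rw [show Set.range o' = _ from InvSet.BA2_range hsub, InvSet.BA2_range, hS]
      ext x
      exact ⟨fun h h2 => h h2.1, fun h h2 => h ⟨h2, x.2⟩⟩
  have hv1 : extUnit (extG o') v = pullU C₂.val (u * e⁻¹) := by
    rw [← hvx]
    symm
    rw [pullU_extU (q₀ := (id : C₁.cpl.Pt → C₁.cpl.Pt)) (ι' := o') (fun _ => rfl) ?_ v]
    · rfl
    · rintro x ⟨z, hz⟩
      exact ⟨z, Subtype.ext hz⟩
  have hv2 : extUnit (extG o') v ∈ E1 (cpG G ℕ C₂.Pt) := by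
    rw [hv1, map_mul, map_inv]
    have hp : IsProperMap C₂.val := (IsClosed.isClosedEmbedding_subtypeVal h₂).isProperMap
    exact mul_mem hu₂ (inv_mem (pullU_E1 hp (fun _ _ => rfl) he))
  have hv3 := mem_E1_of_ext hA hcl2 h0 hv2
  have h4 : u * e⁻¹ ∈ E1 (cpG G ℕ P) := by
    rw [← hvx]
    exact extUnit_mem_E1 (fun a => (norm_extG _ a).le) (extG_mem hcl.ho hcl.eo) hv3
  have h5 := mul_mem h4 he
  rwa [inv_mul_cancel_right] at h5

end Glue

section Cont

variable {G C Y : Type} [Group G] [TopologicalSpace G] [IsTopologicalGroup G]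
  [LocallyCompactSpace G] [SecondCountableTopology G] [T2Space G] [MeasurableSpace G] [BorelSpace G]
  [TopologicalSpace C] [T2Space C] [MulAction G C] [ContinuousSMul G C]
  [TopologicalSpace Y] [T2Space Y] [LocallyCompactSpace Y] [MulAction G Y] [ContinuousSMul G Y]
  {c : C → Y} {D : ℕ → Type} [∀ n, TopologicalSpace (D n)] [∀ n, T2Space (D n)]
  [∀ n, MulAction G (D n)] [∀ n, ContinuousSMul G (D n)] {d : ∀ n, D n → Y}

/-- CONTINUITY: a unit which is trivial in `K₁` over the intersection of a decreasing sequence of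
closed subsets is trivial over one of them. -/
theorem exists_mem_E1_of_inter (hA : PropAG G) (hc : Topology.IsClosedEmbedding c)
    (hec : ∀ (g : G) x, c (g • x) = g • c x) (hd : ∀ n, Topology.IsClosedEmbedding (d n))
    (hed : ∀ n (g : G) x, d n (g • x) = g • d n x)
    (hanti : ∀ n, Set.range (d (n + 1)) ⊆ Set.range (d n))
    (hinter : ⋂ n, Set.range (d n) = Set.range c) {u : (FamG G ℕ Y)ˣ}
    (hu : u ∈ GL1 (cpG G ℕ Y)) (h : pullU c u ∈ E1 (cpG G ℕ C)) :
    ∃ n, pullU (d n) u ∈ E1 (cpG G ℕ (D n)) := by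
  let Y₀ : InvSet G Y := ⟨Set.range c, by
    rintro g _ ⟨x, rfl⟩
    exact ⟨g • x, hec g x⟩⟩
  let o : Y₀.cpl.Pt ↪ Y := ⟨Y₀.cpl.val, Y₀.cpl.val_injective⟩
  have ho : Topology.IsOpenEmbedding o :=
    IsOpen.isOpenEmbedding_subtypeVal hc.isClosed_range.isOpen_compl
  have hr : Set.range o = (Set.range c)ᶜ := by
    ext x
    constructor
    · rintro ⟨y, rfl⟩
      exact y.2
    · intro hx
      exact ⟨⟨x, hx⟩, rfl⟩
  have hcl : ClOp G c o := ⟨hc, hec, ho, fun _ _ => rfl, hr⟩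
  obtain ⟨e, he, he2⟩ := E1_lift isClosed_cpG isClosed_cpG
    (exactSeq_closedG (J := ℕ) hA hcl).lift h
  have he2' : pullU c e = pullU c u := he2
  have hx : u * e⁻¹ ∈ GL1 (cpG G ℕ Y) := mul_mem hu (inv_mem (E1_le _ he))
  have hx1 : pullU c (u * e⁻¹) = 1 := by
    rw [map_mul, map_inv, he2', mul_inv_cancel]
  have hx2 : (pullG c (((u * e⁻¹ : (FamG G ℕ Y)ˣ) : FamG G ℕ Y) - 1) : FamG G ℕ C) = 0 := by
    rw [map_sub, map_one, sub_eq_zero]
    exact congrArg (fun x : (FamG G ℕ C)ˣ => (x : FamG G ℕ C)) hx1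
  obtain ⟨N, hN⟩ := exists_pull_norm_leG hA hc hec (fun n => (hd n).isClosed_range) hed hanti
    hinter hx.1 hx2 (show (0 : ℝ) < 1 / 2 by norm_num)
  refine ⟨N, ?_⟩
  have h1 := hN N le_rfl
  rw [map_sub, map_one] at h1
  have h2 : pullU (d N) (u * e⁻¹) ∈ E1 (cpG G ℕ (D N)) := by
    refine Subgroup.subset_closure ⟨pullU_GL1 (hd N).isProperMap (hed N) hx, ?_⟩
    exact lt_of_le_of_lt h1 (by norm_num)
  have h3 := mul_mem h2 (pullU_E1 (hd N).isProperMap (hed N) he)
  rwa [← map_mul, inv_mul_cancel_right] at h3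

end Cont

end Pool.Agent.Lib.MP_aa9b81_an.Tv
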