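import Pool.Agent.Lib.MP_aa9b81_an.Mg.G044
import Pool.Agent.Lib.MP_aa9b81_an.Mg.G047

/-!
# Transversals, part X7: closed linear groups and one space with totally disconnected boxes
-/

open scoped ENNReal Topology Manifold ContDiff
open Function Filter MeasureTheory

noncomputable section

set_option linter.unusedSectionVars false

namespace Pool.Agent.Lib.MP_aa9b81_an.Tv

open Cut Hs Cb

/-- THE THEOREM: one space with totally disconnected boxes which decides the vanishing of `K₁` for
all spaces with boxes; if `G` is linear then, for every invariant family `S` of isotropy algebras,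
this space and the spaces of one type decide the vanishing of `K₁` for all spaces with isotropy
algebras in `S`. -/
theorem transversals_linear (G : Type) [Group G] [TopologicalSpace G] [IsTopologicalGroup G]
    [LocallyCompactSpace G] [SecondCountableTopology G] [T2Space G] [MeasurableSpace G]
    [BorelSpace G] :
    ∃ (Z : Type) (_ : TopologicalSpace Z) (_ : T2Space Z) (_ : LocallyCompactSpace Z)
      (_ : SecondCountableTopology Z) (_ : MulAction G Z) (_ : ContinuousSMul G Z),
      (∀ z : Z, LC.BoxAt G (fun T : Set Z => IsTotallyDisconnected T) z) ∧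
      ∀ (E : Type) [AddCommGroup E] [Module ℝ E] [TopologicalSpace E] [T2Space E]
        [ContinuousAdd E] [ContinuousSMul ℝ E] [DistribMulAction G E] [SMulCommClass G ℝ E]
        [ContinuousConstSMul G E] (Q : LC.ConvexSpace G E),
        ContinuousOn (fun q : G × E => q.1 • q.2) (Set.univ ×ˢ Q.carrier) → LC.Amenable Q →
        (∀ j, LC.K1Zero G (LC.Wsp Q Z j) ↔
          ∀ (X : Type) [TopologicalSpace X] [T2Space X] [LocallyCompactSpace X]
            [SecondCountableTopology X] [MulAction G X] [ContinuousSMul G X],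
            (∀ x : X, LC.BoxAt G (fun _ : Set X => True) x) → LC.K1Zero G (LC.Wsp Q X j)) ∧
        ∀ (F : Type) [NormedAddCommGroup F] [NormedSpace ℝ F] [FiniteDimensional ℝ F]
          [ChartedSpace F G] (k : WithTop ℕ∞) [LieGroup 𝓘(ℝ, F) k G] [ConnectedSpace G] (n : ℕ)
          (ρ : G →* Matrix.SpecialLinearGroup (Fin n) ℝ), 1 ≤ k → 0 < n →
          Topology.IsClosedEmbedding ρ → LC.AlgebraicLie ρ →
          ∀ (m : ℕ) (S : Set (Set (Matrix (Fin n) (Fin n) ℝ))),
            (∀ h ∈ S, ∀ g : G, LC.Ad ρ g h ∈ S) →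
            ((∀ (X : Type) [TopologicalSpace X] [T2Space X] [LocallyCompactSpace X]
              [SecondCountableTopology X] [MulAction G X] [ContinuousSMul G X],
              (∀ x : X, LC.isoAlg ρ x ∈ S) → ∀ j, m ≤ j → LC.K1Zero G (LC.Wsp Q X j)) ↔
            ({0} ∈ S → ∀ j, m ≤ j → LC.K1Zero G (LC.Wsp Q Z j)) ∧
            ∀ h ∈ S, h ≠ {0} →
              ∀ (Y : Type) [TopologicalSpace Y] [T2Space Y] [LocallyCompactSpace Y]
                [SecondCountableTopology Y] [MulAction G Y] [ContinuousSMul G Y],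
                LC.HasType ρ h Y → ∀ j, m ≤ j → LC.K1Zero G (LC.Wsp Q Y j)) := by
  obtain ⟨Z, tZ, t2, lc, sc, aZ, cs, hbox, hZ⟩ := transversals_two G
  refine ⟨Z, tZ, t2, lc, sc, aZ, cs, hbox, ?_⟩
  intro E _ _ _ _ _ _ _ _ _ Q hQ hA
  refine ⟨hZ E Q hQ hA, ?_⟩
  intro F _ _ _ _ k _ _ n ρ hk hn hρ halg m S hS
  have : NeZero n := ⟨hn.ne'⟩
  have hQ' := cvx_cont hQ
  have := cone_continuousSMul (cvx Q) hQ'
  have := cone_locallyCompact (cvx Q)
  have hP := propAG_of_amenable hQ hA
  have hty : ∀ (h : Set (Matrix (Fin n) (Fin n) ℝ)) (Y : Type) [TopologicalSpace Y]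
      [MulAction G Y], LC.HasType ρ h Y → ∀ y : Y, ∃ g : G, LC.isoAlg ρ y = LC.Ad ρ g h := by
    intro h Y _ _ hY y
    obtain ⟨f, -, hf⟩ := hY
    obtain ⟨g, hg⟩ := QuotientGroup.mk_surjective (f y)
    exact ⟨g, (hf y g).1 hg.symm⟩
  constructor
  · intro H
    refine ⟨fun h0 j hj => H Z (fun z => ?_) j hj, fun h hh _ Y _ _ _ _ _ _ hY j hj => ?_⟩
    · by_contra hne
      refine LC.not_discStab_of_isoAlg hρ (x := z) (fun h => hne (h ▸ h0)) ?_
      exact (boxAt_iff_discStab F hk z).1 (LC.BoxAt.mono (fun _ _ => trivial) (hbox z))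
    · refine H Y (fun y => ?_) j hj
      obtain ⟨g, hg⟩ := hty h Y hY y
      exact hg ▸ hS h hh g
  · rintro ⟨hZ0, hY0⟩ X _ _ _ _ _ _ hX j hj
    have h2 : VanG G (X × Cone (cvx Q) × Cube j) := by
      refine van_of_strata hρ halg hP m X ?_ j hj
      intro x Y _ _ _ _ _ _ hY j hj
      have h5 : LC.K1Zero G (LC.Wsp Q Y j) := by
        by_cases h0 : LC.isoAlg ρ x = {0}
        · refine (hZ E Q hQ hA j).1 (hZ0 (h0 ▸ hX x) j hj) Y ?_
          intro y
          obtain ⟨g, hg⟩ := hty _ Y hY y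
          rw [h0, LC.Ad_zero] at hg
          exact (boxAt_iff_discStab F hk y).2 (LC.discStab_of_isoAlg hρ hg)
        · exact hY0 _ (hX x) h0 Y hY j hj
      exact I1_k1Zero.1 h5
    have h3 : LC.K1Zero G (X × Cone (cvx Q) × Cube j) := I1_k1Zero.2 h2
    exact h3

end Pool.Agent.Lib.MP_aa9b81_an.Tv
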