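import Pool.Agent.Lib.MP_aa9b81_an.Mg.G041

/-!
# Transversals, part Y1: the relative five lemma
-/

open scoped ENNReal Topology CompactlySupported
open Function Filter MeasureTheory

noncomputable section

set_option linter.unusedSectionVars false

namespace Pool.Agent.Lib.MP_aa9b81_an.Tv

open Cut Hs Cb

section Five

variable {G C P O P' O' : Type} [Group G] [TopologicalSpace G] [IsTopologicalGroup G]
  [LocallyCompactSpace G] [SecondCountableTopology G] [T2Space G] [MeasurableSpace G] [BorelSpace G]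
  [TopologicalSpace C] [T2Space C] [MulAction G C] [ContinuousSMul G C]
  [TopologicalSpace P] [T2Space P] [LocallyCompactSpace P] [MulAction G P] [ContinuousSMul G P]
  [TopologicalSpace O] [T2Space O] [MulAction G O] [ContinuousSMul G O]
  [TopologicalSpace P'] [T2Space P'] [LocallyCompactSpace P'] [MulAction G P']
  [ContinuousSMul G P'] [TopologicalSpace O'] [T2Space O'] [MulAction G O'] [ContinuousSMul G O']
  {c : C → P} {o : O ↪ P} {c' : C → P'} {o' : O' ↪ P'} {f : P' → P} {f₀ : O' → O}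

/-- Restriction and extension for `f`. -/
theorem five_mem_range (h : ClOp G c o) (h' : ClOp G c' o') (hc : ∀ x, f (c' x) = c x) (x : P')
    (hx : f x ∈ Set.range o) : x ∈ Set.range o' := by
  by_contra hn
  rw [h'.compl] at hn
  obtain ⟨y, rfl⟩ := not_not.1 hn
  rw [hc, h.compl] at hx
  exact hx ⟨y, rfl⟩

/-- THE FIVE LEMMA, injectivity. PROOF: `u ∈ GL1 (cpG G ℕ P)` with `pullU f u ∈ E1`. `exists_path_unitG`
gives `H ∈ GL1 (cpG G ℕ (P' × OC))` with `pullU (oneP P') H = pullU f u`. Its restriction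
`pullU (Prod.map c' id) H` to `C × OC` is in `GL1 = E1` (`VanG_prod_OC`), so it is lifted by `E1_lift`
(`exactSeq_closedG hA (h.prodMap OC)`) to `e ∈ E1 (cpG G ℕ (P × OC))`. At `1`:
`pullU c (pullU (oneP P) e) = pullU c u`, so `u * (pullU (oneP P) e)⁻¹ = extUnit (extG o) v` with
`v ∈ GL1 (cpG G ℕ O)` (`exists_ext`). The unit `K = H * (pullU (Prod.map f id) e)⁻¹` over `P' × OC` is `1` over
`C × OC`, so `K = extUnit (extG (o' × OC)) k`, `k ∈ GL1 (cpG G ℕ (O' × OC)) = E1` (`exactSeq_closedG hA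
(h'.prodMap OC)`). At `1`: `extUnit (extG o') (pullU (oneP O') k) = pullU f (u * (pullU (oneP P) e)⁻¹) =
extUnit (extG o') (pullU f₀ v)` (`pullU_extU`), so `pullU f₀ v = pullU (oneP O') k ∈ E1` (`extU_injective`)
and `v ∈ E1` by hypothesis; `u = extUnit (extG o) v * pullU (oneP P) e ∈ E1`
(`extUnit_mem_E1`). Model: `van_of_inj_sur` in `S2`. -/
theorem five_inj (hA : PropAG G) (h : ClOp G c o) (h' : ClOp G c' o') (hf : IsProperMap f)
    (hfe : ∀ (g : G) x, f (g • x) = g • f x) (hc : ∀ x, f (c' x) = c x)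
    (ho : ∀ x, f (o' x) = o (f₀ x)) (hi : InjG G f₀) : InjG G f := by
  intro u hu hfu
  have : LocallyCompactSpace C := h.hc.locallyCompactSpace
  have : LocallyCompactSpace O := h.ho.locallyCompactSpace
  have : LocallyCompactSpace O' := h'.ho.locallyCompactSpace
  -- a path of units over `P'`
  obtain ⟨H, hH, hH1⟩ := exists_path_unitG hfu
  have hH1' : pullU (oneP P') H = pullU f u := hH1
  -- its restriction to `C`, lifted to `P`
  have hOC := h.prodMap (G := G) OC
  have hOC' := h'.prodMap (G := G) OC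
  have hl : pullU (Prod.map c' (id : OC → OC)) H ∈ GL1 (cpG G ℕ (C × OC)) :=
    pullU_GL1 hOC'.hc.isProperMap hOC'.ec hH
  obtain ⟨e, he, hel⟩ := E1_lift isClosed_cpG isClosed_cpG
    (exactSeq_closedG hA hOC).lift (VanG_prod_OC (G := G) (P := C) hl)
  have hel' : pullU (Prod.map c (id : OC → OC)) e = pullU (Prod.map c' (id : OC → OC)) H := hel
  have he1 : pullU (oneP P) e ∈ E1 (cpG G ℕ P) :=
    pullU_E1 (clOp_OC (G := G) (P := P)).hc.isProperMap (fun _ _ => rfl) he
  have hc1 : pullU c (pullU (oneP P) e) = pullU c u := by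
    have h1 : pullU c (pullU (oneP P) e) =
        pullU (oneP C) (pullU (Prod.map c (id : OC → OC)) e) :=
      Units.ext (FamG.ext fun y => rfl)
    have h2 : pullU (oneP C) (pullU (Prod.map c' (id : OC → OC)) H) =
        pullU c' (pullU (oneP P') H) := Units.ext (FamG.ext fun y => rfl)
    have h3 : pullU c' (pullU f u) = pullU c u := by
      refine Units.ext (FamG.ext fun y => ?_)
      change (u : FamG G ℕ P) (f (c' y)) = (u : FamG G ℕ P) (c y)
      rw [hc]
    rw [h1, hel', h2, hH1', h3]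
  -- the unit over `O`
  obtain ⟨v, hv, hvu⟩ := (exactSeq_closedG hA h).exists_ext
    (mul_mem hu (inv_mem (E1_le _ he1))) (by rw [map_mul, map_inv, hc1, mul_inv_cancel])
  -- the unit over `O' × OC`
  have hfid : IsProperMap (Prod.map f (id : OC → OC)) := hf.prodMap isProperMap_id
  have hfide : ∀ (g : G) (x : P' × OC), Prod.map f (id : OC → OC) (g • x) =
      g • Prod.map f (id : OC → OC) x := fun g x => Prod.ext (hfe g x.1) rfl
  have hK : H * (pullU (Prod.map f (id : OC → OC)) e)⁻¹ ∈ GL1 (cpG G ℕ (P' × OC)) :=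
    mul_mem hH (inv_mem (pullU_GL1 hfid hfide (E1_le _ he)))
  have hK1 : pullU (Prod.map c' (id : OC → OC))
      (H * (pullU (Prod.map f (id : OC → OC)) e)⁻¹) = 1 := by
    have h1 : pullU (Prod.map c' (id : OC → OC)) (pullU (Prod.map f (id : OC → OC)) e) =
        pullU (Prod.map c (id : OC → OC)) e := by
      refine Units.ext (FamG.ext fun y => ?_)
      change (e : FamG G ℕ (P × OC)) (f (c' y.1), y.2) = (e : FamG G ℕ (P × OC)) (c y.1, y.2)
      rw [hc]
    rw [map_mul, map_inv, h1, hel', mul_inv_cancel]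
  obtain ⟨k, hk, hkK⟩ := (exactSeq_closedG hA hOC').exists_ext hK hK1
  have hk1 : pullU (oneP O') k ∈ E1 (cpG G ℕ O') :=
    pullU_E1 (clOp_OC (G := G) (P := O')).hc.isProperMap (fun _ _ => rfl)
      (VanG_prod_OC (G := G) (P := O') hk)
  have hk2 : extUnit (extG o') (pullU (oneP O') k) = extUnit (extG o') (pullU f₀ v) := by
    have h1 : extUnit (extG o') (pullU (oneP O') k) = pullU (oneP P')
        (H * (pullU (Prod.map f (id : OC → OC)) e)⁻¹) := by
      rw [← hkK]
      refine (pullU_extU (q₀ := oneP O') (ι' := o') (fun _ => rfl) ?_ k).symm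
      rintro x ⟨z, hz⟩
      exact ⟨z.1, congrArg Prod.fst hz⟩
    have h2 : pullU (oneP P') (pullU (Prod.map f (id : OC → OC)) e) =
        pullU f (pullU (oneP P) e) := Units.ext (FamG.ext fun y => rfl)
    have h3 : extUnit (extG o') (pullU f₀ v) = pullU f (extUnit (extG o) v) :=
      (pullU_extU (q₀ := f₀) (ι' := o') (fun x => ho x) (five_mem_range h h' hc) v).symm
    rw [h1, h3, hvu, map_mul, map_inv, hH1', h2, map_mul, map_inv]
  have hv1 : v ∈ E1 (cpG G ℕ O) := by
    refine hi v hv ?_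
    rw [← extU_injective o' hk2]
    exact hk1
  have hv2 : extUnit (extG o) v ∈ E1 (cpG G ℕ P) :=
    extUnit_mem_E1 (fun x => (norm_extG o x).le) (extG_mem h.ho h.eo) hv1
  rw [hvu] at hv2
  have h4 := mul_mem hv2 he1
  rwa [inv_mul_cancel_right] at h4

/-- THE FIVE LEMMA, surjectivity. PROOF: `v ∈ GL1 (cpG G ℕ (P' × OO))`; `vC = pullU (Prod.map c' id) v` over
`C × OO`. As in `surG_of_van` (S2), steps 1-3: `extUnit (extG (embO C)) vC ∈ GL1 = E1` over `C × OC`, lifted to
`w ∈ E1 (cpG G ℕ (P × OC))`, `pullU (oneP P) w = extUnit (extG o) x`, `x ∈ GL1 (cpG G ℕ O)`. `x ∈ E1`: the unit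
`K = pullU (Prod.map f id) w * (extUnit (extG (embO P')) v)⁻¹` over `P' × OC` is `1` over `C × OC`, so it
is `extUnit (extG (o' × OC)) k`, `k ∈ GL1 = E1`, and at `1`: `extUnit (extG o') (pullU f₀ x) =
pullU f (pullU (oneP P) w) = extUnit (extG o') (pullU (oneP O') k)`, so `pullU f₀ x ∈ E1` and
`x ∈ E1` by `hi`. Steps 4-6 of `surG_of_van` with `ρ` from `exists_path_unit_relG h` give
`u₀ ∈ GL1 (cpG G ℕ (P × OO))` with `pullU (Prod.map c id) u₀ = vC`. Then `(pullU (Prod.map f id) u₀)⁻¹ * v` is `1` over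
`C × OO`, so it is `extUnit (extG (o' × OO)) y`, `y ∈ GL1`; by `hs` there is `z ∈ GL1 (cpG G ℕ (O × OO))` with
`(pullU (Prod.map f₀ id) z)⁻¹ * y ∈ E1`; `u = u₀ * extUnit (extG (o × OO)) z`
(`pullU_extU`, `extUnit_mem_E1`). -/
theorem five_sur (hA : PropAG G) (h : ClOp G c o) (h' : ClOp G c' o') (hf : IsProperMap f)
    (hfe : ∀ (g : G) x, f (g • x) = g • f x) (hc : ∀ x, f (c' x) = c x)
    (ho : ∀ x, f (o' x) = o (f₀ x)) (hi : InjG G f₀)
    (hs : SurG G (Prod.map f₀ (id : OO → OO))) : SurG G (Prod.map f (id : OO → OO)) := by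
  intro v hv
  have : LocallyCompactSpace C := h.hc.locallyCompactSpace
  have : LocallyCompactSpace O' := h'.ho.locallyCompactSpace
  have hmap : ∀ (W : Type) [TopologicalSpace W] [MulAction G W],
      IsProperMap (Prod.map f (id : W → W)) ∧
        ∀ (g : G) x, Prod.map f (id : W → W) (g • x) = g • Prod.map f (id : W → W) x :=
    fun W _ _ => ⟨hf.prodMap isProperMap_id, fun g x => Prod.ext (hfe g x.1) rfl⟩
  have hcomp : ∀ (W : Type) [TopologicalSpace W] (u : (FamG G ℕ (P × W))ˣ),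
      pullU (Prod.map c' (id : W → W)) (pullU (Prod.map f (id : W → W)) u) =
        pullU (Prod.map c (id : W → W)) u := by
    intro W _ u
    refine Units.ext (FamG.ext fun x => ?_)
    change (u : FamG G ℕ (P × W)) (f (c' x.1), x.2) = (u : FamG G ℕ (P × W)) (c x.1, x.2)
    rw [hc]
  -- step 1
  have hvC : pullU (Prod.map c' (id : OO → OO)) v ∈ GL1 (cpG G ℕ (C × OO)) :=
    pullU_GL1 (h'.prodMap (G := G) OO).hc.isProperMap (h'.prodMap (G := G) OO).ec hv
  have hu1 : extUnit (extG (embO C)) (pullU (Prod.map c' (id : OO → OO)) v) ∈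
      GL1 (cpG G ℕ (C × OC)) :=
    extUnit_mem_GL1 (extG_mem (clOp_OC (G := G) (P := C)).ho (clOp_OC (G := G) (P := C)).eo) hvC
  have hu2 := VanG_prod_OC (G := G) (P := C) hu1
  -- step 2
  obtain ⟨w, hw, hwu⟩ := E1_lift isClosed_cpG isClosed_cpG
    (exactSeq_closedG hA (h.prodMap OC)).lift hu2
  have hwu' : pullU (Prod.map c (id : OC → OC)) w =
    extUnit (extG (embO C)) (pullU (Prod.map c' (id : OO → OO)) v) := hwu
  -- step 3
  have hw1 : pullU (oneP P) w ∈ GL1 (cpG G ℕ P) :=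
    pullU_GL1 (clOp_OC (G := G) (P := P)).hc.isProperMap (fun _ _ => rfl) (E1_le _ hw)
  have hw2 : pullU c (pullU (oneP P) w) = 1 := by
    have h1 : pullU c (pullU (oneP P) w) =
        pullU (oneP C) (pullU (Prod.map c (id : OC → OC)) w) :=
      Units.ext (FamG.ext fun y => rfl)
    rw [h1, hwu', pullU_extU_one oneP_notMem]
  obtain ⟨x, hx, hxw⟩ := (exactSeq_closedG hA h).exists_ext hw1 hw2
  -- step 4
  have hcl' := clOp_OC (G := G) (P := P')
  have hK : pullU (Prod.map f (id : OC → OC)) w * (extUnit (extG (embO P')) v)⁻¹ ∈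
      GL1 (cpG G ℕ (P' × OC)) :=
    mul_mem (pullU_GL1 (hmap OC).1 (hmap OC).2 (E1_le _ hw))
      (inv_mem (extUnit_mem_GL1 (extG_mem hcl'.ho hcl'.eo) hv))
  have hK1 : pullU (Prod.map c' (id : OC → OC))
      (pullU (Prod.map f (id : OC → OC)) w * (extUnit (extG (embO P')) v)⁻¹) = 1 := by
    rw [map_mul, map_inv, hcomp, hwu', pullU_extU (q₀ := Prod.map c' (id : OO → OO))
      (ι' := embO C) (fun _ => rfl) embO_range_map, mul_inv_cancel]
  obtain ⟨k, hk, hkK⟩ := (exactSeq_closedG hA (h'.prodMap (G := G) OC)).exists_ext hK hK1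
  have hk1 : pullU (oneP O') k ∈ E1 (cpG G ℕ O') :=
    pullU_E1 (clOp_OC (G := G) (P := O')).hc.isProperMap (fun _ _ => rfl)
      (VanG_prod_OC (G := G) (P := O') hk)
  have hx1 : extUnit (extG o') (pullU (oneP O') k) = extUnit (extG o') (pullU f₀ x) := by
    have h1 := congrArg (Cb.pullU (G := G) (J := ℕ) (oneP P')) hkK
    have h2 : pullU (oneP P') (pullU (Prod.map f (id : OC → OC)) w) =
        pullU f (pullU (oneP P) w) := Units.ext (FamG.ext fun y => rfl)
    rw [map_mul, map_inv, pullU_extU_one oneP_notMem, inv_one, mul_one, h2, ← hxw,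
      pullU_extU (q₀ := f₀) (ι' := o') ho (five_mem_range h h' hc)] at h1
    rw [← h1]
    refine (pullU_extU (q₀ := oneP O') (ι' := o') (fun _ => rfl) ?_ k).symm
    rintro y ⟨z, hz⟩
    exact ⟨z.1, congrArg Prod.fst hz⟩
  have hx2 : x ∈ E1 (cpG G ℕ O) := hi x hx (by rw [← extU_injective o' hx1]; exact hk1)
  -- step 5
  obtain ⟨ρ, hρ, hρ1, hρ2⟩ := exists_path_unit_relG h hx2
  have hy : w * ρ⁻¹ ∈ GL1 (cpG G ℕ (P × OC)) := mul_mem (E1_le _ hw) (inv_mem hρ)
  have hy1 : pullU (oneP P) (w * ρ⁻¹) = 1 := by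
    rw [map_mul, map_inv, hρ1, hxw, mul_inv_cancel]
  obtain ⟨u₀, hu₀, hux⟩ := (exactSeq_closedG hA (clOp_OC (G := G) (P := P))).exists_ext hy hy1
  -- step 6
  have hy2 : pullU (Prod.map c (id : OC → OC)) (w * ρ⁻¹) =
      extUnit (extG (embO C)) (pullU (Prod.map c' (id : OO → OO)) v) := by
    rw [map_mul, map_inv, hρ2, inv_one, mul_one, hwu']
  rw [← hux, pullU_extU (q₀ := Prod.map c (id : OO → OO)) (ι' := embO C) (fun _ => rfl)
    embO_range_map] at hy2
  have hu₀v : pullU (Prod.map c (id : OO → OO)) u₀ = pullU (Prod.map c' (id : OO → OO)) v :=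
    extU_injective _ hy2
  -- step 7
  have hd : (pullU (Prod.map f (id : OO → OO)) u₀)⁻¹ * v ∈ GL1 (cpG G ℕ (P' × OO)) :=
    mul_mem (inv_mem (pullU_GL1 (hmap OO).1 (hmap OO).2 hu₀)) hv
  have hd1 : pullU (Prod.map c' (id : OO → OO))
      ((pullU (Prod.map f (id : OO → OO)) u₀)⁻¹ * v) = 1 := by
    rw [map_mul, map_inv, hcomp, hu₀v, inv_mul_cancel]
  obtain ⟨y, hyG, hyd⟩ := (exactSeq_closedG hA (h'.prodMap (G := G) OO)).exists_ext hd hd1
  -- step 8
  obtain ⟨z, hz, hzy⟩ := hs y hyG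
  have hO := h.prodMap (G := G) OO
  have hO' := h'.prodMap (G := G) OO
  refine ⟨u₀ * extUnit (extG ⟨Prod.map o (id : OO → OO), o.injective.prodMap injective_id⟩) z,
    mul_mem hu₀ (extUnit_mem_GL1 (extG_mem hO.ho hO.eo) hz), ?_⟩
  have hpz : pullU (Prod.map f (id : OO → OO))
      (extUnit (extG ⟨Prod.map o (id : OO → OO), o.injective.prodMap injective_id⟩) z) =
      extUnit (extG ⟨Prod.map o' (id : OO → OO), o'.injective.prodMap injective_id⟩)
        (pullU (Prod.map f₀ (id : OO → OO)) z) := by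
    refine pullU_extU (q₀ := Prod.map f₀ (id : OO → OO))
      (ι' := ⟨Prod.map o' (id : OO → OO), o'.injective.prodMap injective_id⟩)
      (fun x => Prod.ext (ho x.1) rfl) ?_ z
    rintro x ⟨t, ht⟩
    obtain ⟨t', ht'⟩ := five_mem_range h h' hc x.1 ⟨t.1, congrArg Prod.fst ht⟩
    exact ⟨(t', x.2), Prod.ext ht' rfl⟩
  rw [map_mul, mul_inv_rev, hpz, mul_assoc, ← hyd, ← map_inv, ← map_mul]
  exact extUnit_mem_E1 (fun a => (norm_extG _ a).le) (extG_mem hO'.ho hO'.eo) hzy

end Five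

end Pool.Agent.Lib.MP_aa9b81_an.Tv
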